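import Mathlib

/-!
# The additive character `e x = exp (2 π i x)` and geometric sums
-/

open Finset Real

namespace Pool.Agent.Lib.MP_2a816b_nt

/-- `e x = exp (2 π i x)`. -/
noncomputable def e (x : ℝ) : ℂ := Complex.exp (2 * π * x * Complex.I)

lemma e_add (x y : ℝ) : e (x + y) = e x * e y := by
  unfold e
  rw [← Complex.exp_add]
  congr 1
  push_cast
  ring

@[simp] lemma e_zero : e 0 = 1 := by simp [e]

lemma norm_e (x : ℝ) : ‖e x‖ = 1 := by
  unfold e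
  have : (2 * (π : ℂ) * (x : ℂ) * Complex.I) = ((2 * π * x : ℝ) : ℂ) * Complex.I := by push_cast; ring
  rw [this, Complex.norm_exp_ofReal_mul_I]

lemma e_ne_zero (x : ℝ) : e x ≠ 0 := by
  rw [← norm_pos_iff, norm_e]; norm_num

lemma e_neg (x : ℝ) : e (-x) = (e x)⁻¹ := by
  have h := e_add x (-x)
  rw [add_neg_cancel, e_zero] at h
  field_simp [e_ne_zero x]
  rw [mul_comm]
  exact h.symm

lemma conj_e (x : ℝ) : (starRingEnd ℂ) (e x) = e (-x) := by
  unfold e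
  rw [← Complex.exp_conj]
  congr 1
  simp only [map_mul, Complex.conj_I, Complex.conj_ofReal, map_ofNat]
  push_cast
  ring

lemma e_int (m : ℤ) : e (m : ℝ) = 1 := by
  unfold e
  have : (2 * (π : ℂ) * ((m : ℝ) : ℂ) * Complex.I) = (m : ℂ) * (2 * π * Complex.I) := by
    push_cast; ring
  rw [this, Complex.exp_int_mul_two_pi_mul_I]

lemma e_nat (m : ℕ) : e (m : ℝ) = 1 := by exact_mod_cast e_int m

lemma e_add_int (x : ℝ) (m : ℤ) : e (x + m) = e x := by
  rw [e_add, e_int, mul_one]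

lemma e_sub_int (x : ℝ) (m : ℤ) : e (x - m) = e x := by
  have := e_add_int (x - m) m
  rw [sub_add_cancel] at this
  exact this.symm

lemma e_nat_mul (n : ℕ) (x : ℝ) : e (n * x) = (e x) ^ n := by
  unfold e
  rw [← Complex.exp_nat_mul]
  congr 1
  push_cast
  ring

lemma e_eq_one_iff (x : ℝ) : e x = 1 ↔ ∃ m : ℤ, x = m := by
  constructor
  · intro h
    unfold e at h
    rw [Complex.exp_eq_one_iff] at h
    obtain ⟨m, hm⟩ := h
    refine ⟨m, ?_⟩
    have h2 : (2 * (π : ℂ) * Complex.I) ≠ 0 := Complex.two_pi_I_ne_zero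
    have h3 : (2 * (π : ℂ) * Complex.I) * (x : ℂ) = (2 * (π : ℂ) * Complex.I) * (m : ℂ) := by
      rw [← mul_comm (m : ℂ), ← hm]; ring
    have h4 := mul_left_cancel₀ h2 h3
    exact_mod_cast h4
  · rintro ⟨m, rfl⟩
    exact e_int m

/-- distance to the nearest integer -/
noncomputable def nn (x : ℝ) : ℝ := |x - round x|

lemma nn_nonneg (x : ℝ) : 0 ≤ nn x := abs_nonneg _

lemma nn_le_half (x : ℝ) : nn x ≤ 1 / 2 := abs_sub_round x

lemma nn_le (x : ℝ) (m : ℤ) : nn x ≤ |x - m| := round_le x m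

lemma norm_e_sub_one (x : ℝ) : ‖e x - 1‖ = 2 * |sin (π * x)| := by
  have h : e x - 1 = e (x / 2) * (2 * Complex.I * Complex.sin (π * x)) := by
    have h1 : e x = e (x / 2) * e (x / 2) := by rw [← e_add]; congr 1; ring
    have h2 : e (x / 2) * e (-(x / 2)) = 1 := by rw [← e_add, add_neg_cancel, e_zero]
    have h3 : 2 * Complex.I * Complex.sin (π * x) = e (x / 2) - e (-(x / 2)) := by
      rw [Complex.sin]
      unfold e
      have hI : Complex.I * Complex.I = -1 := Complex.I_mul_I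
      have e1 : (-(↑π * (x : ℂ)) * Complex.I) = (2 * ↑π * ((-(x / 2) : ℝ) : ℂ) * Complex.I) := by
        push_cast; ring
      have e2 : ((↑π * (x : ℂ)) * Complex.I) = (2 * ↑π * (((x / 2) : ℝ) : ℂ) * Complex.I) := by
        push_cast; ring
      rw [e1, e2]
      linear_combination (Complex.exp (2 * ↑π * ((-(x / 2) : ℝ) : ℂ) * Complex.I) -
        Complex.exp (2 * ↑π * (((x / 2) : ℝ) : ℂ) * Complex.I)) * hI
    rw [h3, mul_sub, ← h1, h2]
  rw [h, norm_mul, norm_e, one_mul, norm_mul, norm_mul, Complex.norm_I, mul_one]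
  have : Complex.sin (π * x) = ((sin (π * x) : ℝ) : ℂ) := by push_cast; ring
  rw [this, Complex.norm_real, norm_eq_abs]
  norm_num

lemma four_nn_le (x : ℝ) : 4 * nn x ≤ ‖e x - 1‖ := by
  have h1 : e x = e (x - round x) := (e_sub_int x (round x)).symm
  rw [h1, norm_e_sub_one]
  set y := x - round x with hy
  have h2 : |y| ≤ 1 / 2 := abs_sub_round x
  have h3 : |π * y| ≤ π / 2 := by
    rw [abs_mul, abs_of_pos pi_pos]
    nlinarith [pi_pos]
  have h4 := mul_abs_le_abs_sin h3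
  have h5 : 2 / π * |π * y| = 2 * |y| := by
    rw [abs_mul, abs_of_pos pi_pos]
    field_simp
  rw [h5] at h4
  unfold nn
  rw [← hy]
  linarith

/-- geometric sum -/
noncomputable def D (K : ℕ) (x : ℝ) : ℂ := ∑ u ∈ range K, e (u * x)

lemma norm_D_le (K : ℕ) (x : ℝ) : ‖D K x‖ ≤ K := by
  unfold D
  calc ‖∑ u ∈ range K, e (u * x)‖ ≤ ∑ u ∈ range K, ‖e (u * x)‖ := norm_sum_le _ _
    _ = K := by simp [norm_e]

lemma D_mul (K : ℕ) (x : ℝ) : D K x * (e x - 1) = e (K * x) - 1 := by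
  unfold D
  have : ∀ u ∈ range K, e (u * x) = (e x) ^ u := fun u _ => e_nat_mul u x
  rw [sum_congr rfl this, e_nat_mul]
  exact geom_sum_mul (e x) K

lemma norm_D_mul_nn (K : ℕ) (x : ℝ) : ‖D K x‖ * (2 * nn x) ≤ 1 := by
  have h := D_mul K x
  have h1 : ‖D K x‖ * ‖e x - 1‖ = ‖e (K * x) - 1‖ := by rw [← norm_mul, h]
  have h2 : ‖e (K * x) - 1‖ ≤ 2 := by
    calc ‖e (K * x) - 1‖ ≤ ‖e (K * x)‖ + ‖(1 : ℂ)‖ := norm_sub_le _ _
      _ = 2 := by rw [norm_e]; norm_num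
  have h3 := four_nn_le x
  have h4 : ‖D K x‖ * (4 * nn x) ≤ 2 := by
    calc ‖D K x‖ * (4 * nn x) ≤ ‖D K x‖ * ‖e x - 1‖ := by gcongr
      _ ≤ 2 := by rw [h1]; exact h2
  linarith

lemma norm_D_sq_le (K : ℕ) (x : ℝ) (hx : 0 < nn x) : ‖D K x‖ ^ 2 ≤ 1 / (4 * nn x ^ 2) := by
  have h := norm_D_mul_nn K x
  rw [le_div_iff₀ (by positivity)]
  have h2 : ‖D K x‖ ^ 2 * (4 * nn x ^ 2) = (‖D K x‖ * (2 * nn x)) ^ 2 := by ring
  rw [h2]
  have h3 : 0 ≤ ‖D K x‖ * (2 * nn x) := by positivity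
  nlinarith

end Pool.Agent.Lib.MP_2a816b_nt
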