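import Mathlib

/-!
# Vaughan's identity
-/

open Finset Real

namespace Pool.Agent.Lib.MP_2a816b_nt

/-- low part -/
noncomputable def lo (U : ℕ) (f : ArithmeticFunction ℝ) : ArithmeticFunction ℝ := ⟨fun n => if n ≤ U then f n else 0, by simp⟩

/-- high part -/
noncomputable def hi (U : ℕ) (f : ArithmeticFunction ℝ) : ArithmeticFunction ℝ := ⟨fun n => if U < n then f n else 0, by simp⟩

lemma lo_apply (U : ℕ) (f : ArithmeticFunction ℝ) (n : ℕ) : lo U f n = if n ≤ U then f n else 0 := rfl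

lemma hi_apply (U : ℕ) (f : ArithmeticFunction ℝ) (n : ℕ) : hi U f n = if U < n then f n else 0 := rfl

lemma lo_add_hi (U : ℕ) (f : ArithmeticFunction ℝ) : lo U f + hi U f = f := by
  ext n
  rw [ArithmeticFunction.add_apply, lo_apply, hi_apply]
  split_ifs with h1 h2 h2
  · omega
  · simp
  · simp
  · omega

/-- the Moebius function with real values -/
noncomputable def muR : ArithmeticFunction ℝ := ((ArithmeticFunction.moebius : ArithmeticFunction ℤ) : ArithmeticFunction ℝ)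

/-- the constant function `1` with real values -/
noncomputable def zeR : ArithmeticFunction ℝ := ((ArithmeticFunction.zeta : ArithmeticFunction ℕ) : ArithmeticFunction ℝ)

/-- the von Mangoldt function -/
noncomputable def vM : ArithmeticFunction ℝ := ArithmeticFunction.vonMangoldt

lemma zeR_apply (n : ℕ) : zeR n = if n = 0 then 0 else 1 := by
  unfold zeR
  simp [ArithmeticFunction.zeta_apply]

lemma muR_abs_le (n : ℕ) : |muR n| ≤ 1 := by
  unfold muR
  rw [ArithmeticFunction.intCoe_apply, ← Int.cast_abs]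
  exact_mod_cast ArithmeticFunction.abs_moebius_le_one

lemma vM_nonneg (n : ℕ) : 0 ≤ vM n := ArithmeticFunction.vonMangoldt_nonneg

lemma muR_mul_zeR : muR * zeR = 1 := ArithmeticFunction.coe_moebius_mul_coe_zeta

lemma vM_mul_zeR : vM * zeR = ArithmeticFunction.log := ArithmeticFunction.vonMangoldt_mul_zeta

/-- Vaughan's identity -/
lemma vaughan (U : ℕ) : vM = lo U vM + lo U muR * ArithmeticFunction.log -
    (lo U muR * lo U vM) * zeR + hi U muR * (hi U vM * zeR) := by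
  have h1 := lo_add_hi U muR
  have h2 := lo_add_hi U vM
  have h3 := muR_mul_zeR
  have h4 := vM_mul_zeR
  rw [← h4]
  nth_rewrite 1 [← h2]
  nth_rewrite 4 [← h2]
  rw [← h1] at h3
  linear_combination (-(hi U vM)) * h3

/-- twisted sum -/
noncomputable def tw (N : ℕ) (κ : ℕ → ℂ) (f : ArithmeticFunction ℝ) : ℂ := ∑ n ∈ Ioc 0 N, (f n : ℂ) * κ n

lemma tw_add (N : ℕ) (κ : ℕ → ℂ) (f g : ArithmeticFunction ℝ) : tw N κ (f + g) = tw N κ f + tw N κ g := by
  unfold tw
  rw [← sum_add_distrib]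
  apply sum_congr rfl; intro n _
  rw [ArithmeticFunction.add_apply]; push_cast; ring

lemma tw_sub (N : ℕ) (κ : ℕ → ℂ) (f g : ArithmeticFunction ℝ) : tw N κ (f - g) = tw N κ f - tw N κ g := by
  have h := tw_add N κ (f - g) g
  rw [sub_add_cancel] at h
  rw [h]; ring

/-- the twisted sum of a convolution -/
lemma tw_mul (N : ℕ) (κ : ℕ → ℂ) (f g : ArithmeticFunction ℝ) : tw N κ (f * g) =
    ∑ m ∈ Ioc 0 N, ∑ d ∈ Ioc 0 (N / m), (f m : ℂ) * (g d : ℂ) * κ (m * d) := by
  unfold tw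
  have h1 : ∑ n ∈ Ioc 0 N, ((f * g) n : ℂ) * κ n =
      ∑ x ∈ Ioc 0 N ×ˢ Ioc 0 N with x.1 * x.2 ≤ N, (f x.1 : ℂ) * (g x.2 : ℂ) * κ (x.1 * x.2) := by
    trans ∑ n ∈ Ioc 0 N, ∑ x ∈ Ioc 0 N ×ˢ Ioc 0 N with x.1 * x.2 = n,
      (f x.1 : ℂ) * (g x.2 : ℂ) * κ (x.1 * x.2)
    · refine sum_congr rfl fun n hn ↦ ?_
      simp only [mem_Ioc] at hn
      rw [ArithmeticFunction.mul_apply, Nat.divisorsAntidiagonal_eq_prod_filter_of_le hn.1.ne' hn.2]
      push_cast
      rw [sum_mul]
      apply sum_congr rfl; intro x hx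
      rw [mem_filter] at hx
      rw [hx.2]
    · simp_rw [sum_filter]
      rw [sum_comm]
      refine sum_congr rfl fun x hx ↦ ?_
      rw [mem_product, mem_Ioc, mem_Ioc] at hx
      rw [sum_ite_eq]
      have hpos : 0 < x.1 * x.2 := Nat.mul_pos hx.1.1 hx.2.1
      by_cases h : x.1 * x.2 ≤ N
      · rw [if_pos h, if_pos (mem_Ioc.2 ⟨hpos, h⟩)]
      · rw [if_neg h, if_neg (fun hh => h (mem_Ioc.1 hh).2)]
  rw [h1, sum_filter, sum_product]
  refine sum_congr rfl fun m hm ↦ ?_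
  rw [← sum_filter]
  apply sum_congr _ (fun _ _ => rfl)
  ext d
  simp only [mem_filter, mem_Ioc] at hm ⊢
  constructor
  · rintro ⟨⟨h0, _⟩, h⟩
    refine ⟨h0, ?_⟩
    rw [Nat.le_div_iff_mul_le hm.1, mul_comm]; exact h
  · rintro ⟨h0, h⟩
    refine ⟨⟨h0, h.trans (Nat.div_le_self _ _)⟩, ?_⟩
    rw [Nat.le_div_iff_mul_le hm.1, mul_comm] at h; exact h

/-! ## Coefficient bounds -/

/-- coefficient of the type I/II term -/
noncomputable def cU (U : ℕ) : ArithmeticFunction ℝ := lo U muR * lo U vM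

lemma lo_vM_nonneg (U n : ℕ) : 0 ≤ lo U vM n := by
  rw [lo_apply]; split_ifs
  · exact vM_nonneg n
  · exact le_refl _

lemma lo_vM_le (U n : ℕ) : lo U vM n ≤ vM n := by
  rw [lo_apply]; split_ifs
  · exact le_refl _
  · exact vM_nonneg n

lemma hi_vM_nonneg (U n : ℕ) : 0 ≤ hi U vM n := by
  rw [hi_apply]; split_ifs
  · exact vM_nonneg n
  · exact le_refl _

lemma hi_vM_le (U n : ℕ) : hi U vM n ≤ vM n := by
  rw [hi_apply]; split_ifs
  · exact le_refl _
  · exact vM_nonneg n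

lemma lo_muR_abs_le (U n : ℕ) : |lo U muR n| ≤ 1 := by
  rw [lo_apply]; split_ifs
  · exact muR_abs_le n
  · simp

lemma hi_muR_abs_le (U n : ℕ) : |hi U muR n| ≤ 1 := by
  rw [hi_apply]; split_ifs
  · exact muR_abs_le n
  · simp

lemma sum_vM (n : ℕ) : ∑ x ∈ n.divisorsAntidiagonal, vM x.2 = Real.log n := by
  have h := ArithmeticFunction.vonMangoldt_sum (n := n)
  rw [← h]
  unfold vM
  exact Nat.sum_divisorsAntidiagonal' (f := fun _ i => ArithmeticFunction.vonMangoldt i)

lemma cU_abs_le (U n : ℕ) : |cU U n| ≤ Real.log n := by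
  unfold cU
  rw [ArithmeticFunction.mul_apply, ← sum_vM n]
  refine (abs_sum_le_sum_abs _ _).trans ?_
  apply sum_le_sum; intro x _
  rw [abs_mul, abs_of_nonneg (lo_vM_nonneg U x.2)]
  calc |lo U muR x.1| * lo U vM x.2 ≤ 1 * vM x.2 := by
        gcongr
        · exact lo_vM_nonneg U x.2
        · exact lo_muR_abs_le U x.1
        · exact lo_vM_le U x.2
    _ = vM x.2 := one_mul _

lemma cU_eq_zero (U n : ℕ) (h : U * U < n) : cU U n = 0 := by
  unfold cU
  rw [ArithmeticFunction.mul_apply]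
  apply sum_eq_zero; intro x hx
  rw [Nat.mem_divisorsAntidiagonal] at hx
  by_contra hne
  have h1 : x.1 ≤ U := by
    by_contra h1
    apply hne
    rw [lo_apply, if_neg h1, zero_mul]
  have h2 : x.2 ≤ U := by
    by_contra h2
    apply hne
    rw [lo_apply, lo_apply, if_neg h2, mul_zero]
  have := Nat.mul_le_mul h1 h2
  omega

lemma vz_nonneg (U n : ℕ) : 0 ≤ (hi U vM * zeR) n := by
  rw [ArithmeticFunction.mul_apply]
  apply sum_nonneg; intro x _
  apply mul_nonneg (hi_vM_nonneg U _)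
  rw [zeR_apply]; split_ifs <;> norm_num

lemma vz_le (U n : ℕ) : (hi U vM * zeR) n ≤ Real.log n := by
  have h : (vM * zeR) n = Real.log n := by
    rw [vM_mul_zeR]; rfl
  rw [← h, ArithmeticFunction.mul_apply, ArithmeticFunction.mul_apply]
  apply sum_le_sum; intro x _
  have : 0 ≤ zeR x.2 := by rw [zeR_apply]; split_ifs <;> norm_num
  gcongr
  exact hi_vM_le U x.1

lemma vz_eq_zero (U n : ℕ) (h : n ≤ U) : (hi U vM * zeR) n = 0 := by
  rw [ArithmeticFunction.mul_apply]
  apply sum_eq_zero; intro x hx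
  rw [Nat.mem_divisorsAntidiagonal] at hx
  have h1 : x.1 ≤ U := by
    have hdvd : x.1 ∣ n := ⟨x.2, hx.1.symm⟩
    exact (Nat.le_of_dvd (Nat.pos_of_ne_zero hx.2) hdvd).trans h
  rw [hi_apply, if_neg (by omega), zero_mul]

/-- the decomposition of the twisted sum of the von Mangoldt function -/
lemma tw_vM (N U : ℕ) (κ : ℕ → ℂ) : tw N κ vM = tw N κ (lo U vM) +
    tw N κ (lo U muR * ArithmeticFunction.log) - tw N κ (lo U (cU U) * zeR) -
    tw N κ (hi U (cU U) * zeR) + tw N κ (hi U muR * (hi U vM * zeR)) := by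
  have h : vM = lo U vM + lo U muR * ArithmeticFunction.log - (lo U (cU U) * zeR) -
      (hi U (cU U) * zeR) + hi U muR * (hi U vM * zeR) := by
    have h1 := vaughan U
    have h2 := lo_add_hi U (cU U)
    have h3 : (lo U muR * lo U vM) = cU U := rfl
    rw [h3] at h1
    linear_combination h1 + zeR * h2
  conv_lhs => rw [h]
  rw [tw_add, tw_sub, tw_sub, tw_add]

end Pool.Agent.Lib.MP_2a816b_nt
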