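import Mathlib
import Pool.Agent.Lib.MP_2a816b_nt.Expo
import Pool.Agent.Lib.MP_2a816b_nt.Vaughan

/-!
# Basic lemmas used in many files
-/

open Finset Real

namespace Pool.Agent.Lib.MP_2a816b_nt

lemma exists_phase (z : ℂ) : ∃ ε : ℂ, ‖ε‖ ≤ 1 ∧ ε * z = (‖z‖ : ℂ) := by
  by_cases h : z = 0
  · exact ⟨0, by simp, by simp [h]⟩
  · refine ⟨(starRingEnd ℂ) z / ‖z‖, ?_, ?_⟩
    · rw [norm_div, RCLike.norm_conj, Complex.norm_real, norm_norm, div_self (norm_ne_zero_iff.2 h)]
    · have h2 : (‖z‖ : ℂ) ≠ 0 := by exact_mod_cast norm_ne_zero_iff.2 h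
      rw [div_mul_eq_mul_div, mul_comm ((starRingEnd ℂ) z), Complex.mul_conj']
      field_simp

lemma sum_Ioc_range (t : ℕ) (F : ℕ → ℂ) (h0 : F 0 = 0) :
    ∑ n ∈ Ioc 0 t, F n = ∑ n ∈ range (t + 1), F n := by
  apply sum_subset
  · intro n hn
    rw [mem_Ioc] at hn
    rw [mem_range]
    omega
  · intro n hn hn'
    rw [mem_range] at hn
    rw [mem_Ioc, not_and] at hn'
    have : n = 0 := by
      by_contra h
      have := hn' (by omega)
      omega
    rw [this, h0]

lemma sum_range_zmod {M : Type*} [AddCommMonoid M] (l : ℕ) [NeZero l] (g : ZMod l → M) :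
    ∑ v ∈ range l, g (v : ZMod l) = ∑ v : ZMod l, g v := by
  apply sum_bij (fun (v : ℕ) _ => (v : ZMod l))
  · intro b _; exact mem_univ _
  · intro b hb b' hb' h
    rw [mem_range] at hb hb'
    rw [ZMod.natCast_eq_natCast_iff'] at h
    rwa [Nat.mod_eq_of_lt hb, Nat.mod_eq_of_lt hb'] at h
  · intro c _
    exact ⟨c.val, by rw [mem_range]; exact ZMod.val_lt c, ZMod.natCast_zmod_val c⟩
  · intro b _; rfl

lemma sum_range_mul_eq (r l : ℕ) (F : ℕ → ℂ) :
    ∑ d ∈ range (r * l), F d = ∑ v ∈ range l, ∑ u ∈ range r, F (r * v + u) := by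
  induction l with
  | zero => simp
  | succ l ih => rw [Nat.mul_succ, sum_range_add, sum_range_succ, ih]

lemma periodic_sum_bound (F : ℕ → ℂ) (p : ℕ) (B : ℝ) (hp : 0 < p)
    (hper : ∀ d, F (p + d) = F d) (h0 : ∑ d ∈ range p, F d = 0)
    (hB : ∀ d, ‖F d‖ ≤ B) (t : ℕ) : ‖∑ d ∈ range t, F d‖ ≤ B * p := by
  induction t using Nat.strong_induction_on with
  | _ t ih =>
    have hB0 : 0 ≤ B := (norm_nonneg _).trans (hB 0)
    by_cases h : t < p
    · calc ‖∑ d ∈ range t, F d‖ ≤ ∑ d ∈ range t, ‖F d‖ := norm_sum_le _ _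
        _ ≤ ∑ d ∈ range t, B := sum_le_sum (fun d _ => hB d)
        _ = t * B := by rw [sum_const, card_range, nsmul_eq_mul]
        _ ≤ p * B := by gcongr
        _ = B * p := mul_comm _ _
    · obtain ⟨s, rfl⟩ := Nat.exists_eq_add_of_le (not_lt.1 h)
      rw [sum_range_add, h0, zero_add]
      simp_rw [hper]
      exact ih s (by omega)

/-- summation by parts -/
lemma abel_sum (F : ℕ → ℂ) (w : ℕ → ℝ) (B : ℝ) (hw : Monotone w) (hw0 : 0 ≤ w 0)
    (hB : ∀ k, ‖∑ d ∈ range k, F d‖ ≤ B) (t : ℕ) :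
    ‖∑ d ∈ range t, (w d : ℂ) * F d‖ ≤ 2 * w t * B := by
  have hB0 : 0 ≤ B := (norm_nonneg _).trans (hB 0)
  have key : ∀ t, ∑ d ∈ range t, (w d : ℂ) * F d = (w t : ℂ) * ∑ d ∈ range t, F d -
      ∑ d ∈ range t, ((w (d + 1) : ℂ) - w d) * ∑ d' ∈ range (d + 1), F d' := by
    intro t
    induction t with
    | zero => simp
    | succ t ih =>
      rw [sum_range_succ, ih, sum_range_succ (fun d => ((w (d + 1) : ℂ) - w d) * _), sum_range_succ F]
      ring
  rw [key t]
  have hwt : 0 ≤ w t := hw0.trans (hw (Nat.zero_le t))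
  calc _ ≤ ‖(w t : ℂ) * ∑ d ∈ range t, F d‖ +
        ‖∑ d ∈ range t, ((w (d + 1) : ℂ) - w d) * ∑ d' ∈ range (d + 1), F d'‖ := norm_sub_le _ _
    _ ≤ w t * B + ∑ d ∈ range t, (w (d + 1) - w d) * B := by
        refine add_le_add ?_ ?_
        · rw [norm_mul, Complex.norm_real, norm_eq_abs, abs_of_nonneg hwt]
          gcongr; exact hB t
        · refine (norm_sum_le _ _).trans ?_
          apply sum_le_sum; intro d _
          have h1 : 0 ≤ w (d + 1) - w d := sub_nonneg.2 (hw (Nat.le_succ d))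
          rw [norm_mul, ← Complex.ofReal_sub, Complex.norm_real, norm_eq_abs, abs_of_nonneg h1]
          gcongr; exact hB _
    _ = w t * B + (w t - w 0) * B := by rw [← sum_mul, sum_range_sub]
    _ ≤ 2 * w t * B := by nlinarith

lemma log_nat_mono : Monotone (fun n : ℕ => Real.log n) := by
  intro a b hab
  simp only
  rcases Nat.eq_zero_or_pos a with h | h
  · subst h
    rw [Nat.cast_zero, Real.log_zero]
    exact Real.log_natCast_nonneg b
  · exact Real.log_le_log (by exact_mod_cast h) (by exact_mod_cast hab)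

lemma log_le_L {N L n : ℕ} (hL : N + 1 < 2 ^ L) (hn : n ≤ N + 1) : Real.log n ≤ L := by
  rcases Nat.eq_zero_or_pos n with h | h
  · subst h; simp
  · have h1 : (n : ℝ) ≤ 2 ^ L := by exact_mod_cast (hn.trans hL.le)
    have h2 : Real.log n ≤ Real.log (2 ^ L) := Real.log_le_log (by exact_mod_cast h) h1
    rw [Real.log_pow] at h2
    have h3 : Real.log 2 ≤ 1 := by
      have := Real.log_two_lt_d9
      linarith
    calc Real.log n ≤ L * Real.log 2 := h2
      _ ≤ L * 1 := by gcongr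
      _ = L := mul_one _

lemma sum_lo_le (N U : ℕ) (f : ArithmeticFunction ℝ) (A : ℝ) (hA : 0 ≤ A)
    (hf : ∀ m, m ≤ N → |f m| ≤ A) : ∑ m ∈ Ioc 0 N, |lo U f m| ≤ U * A := by
  have h1 : ∑ m ∈ Ioc 0 N, |lo U f m| ≤ ∑ m ∈ Ioc 0 N, if m ∈ Ioc 0 U then A else 0 := by
    apply sum_le_sum; intro m hm
    rw [mem_Ioc] at hm
    rw [lo_apply]
    by_cases h : m ≤ U
    · rw [if_pos h, if_pos (mem_Ioc.2 ⟨hm.1, h⟩)]
      exact hf m hm.2
    · rw [if_neg h, if_neg (fun hh => h (mem_Ioc.1 hh).2)]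
      simp
  refine h1.trans ?_
  rw [← sum_filter]
  have h2 : (Ioc 0 N).filter (fun m => m ∈ Ioc 0 U) ⊆ Ioc 0 U := by
    intro m hm
    rw [mem_filter] at hm
    exact hm.2
  rw [sum_const, nsmul_eq_mul]
  have h3 := card_le_card h2
  rw [Nat.card_Ioc, Nat.sub_zero] at h3
  have h4 : (((Ioc 0 N).filter (fun m => m ∈ Ioc 0 U)).card : ℝ) ≤ U := by exact_mod_cast h3
  gcongr

lemma vM_le_log (n : ℕ) : vM n ≤ Real.log n := by
  rw [← sum_vM n]
  rcases Nat.eq_zero_or_pos n with h | h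
  · subst h
    simp
  · have hmem : (1, n) ∈ n.divisorsAntidiagonal := by
      rw [Nat.mem_divisorsAntidiagonal]; exact ⟨by simp, h.ne'⟩
    exact single_le_sum (f := fun x : ℕ × ℕ => vM x.2) (fun x _ => vM_nonneg x.2) hmem

lemma sum_vM_dvd (p N : ℕ) (hp : p.Prime) :
    ∑ n ∈ (Ioc 0 N).filter (fun n => p ∣ n), vM n ≤ Real.log N := by
  have h1 : ∑ n ∈ (Ioc 0 N).filter (fun n => p ∣ n), vM n ≤
      ∑ n ∈ (Icc 1 (Nat.log p N)).image (fun k => p ^ k), vM n := by
    rw [← sum_filter_ne_zero]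
    apply sum_le_sum_of_subset_of_nonneg
    · intro n hn
      rw [mem_filter, mem_filter, mem_Ioc] at hn
      obtain ⟨⟨⟨h0, hN⟩, hdvd⟩, hne⟩ := hn
      have hpp : IsPrimePow n := ArithmeticFunction.vonMangoldt_ne_zero_iff.1 hne
      rw [isPrimePow_nat_iff] at hpp
      obtain ⟨q, k, hq, hk, rfl⟩ := hpp
      have hpq : p = q := (Nat.prime_dvd_prime_iff_eq hp hq).1 (hp.dvd_of_dvd_pow hdvd)
      subst hpq
      rw [mem_image]
      refine ⟨k, ?_, rfl⟩
      rw [mem_Icc]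
      exact ⟨hk, Nat.le_log_of_pow_le hp.one_lt hN⟩
    · intro n _ _; exact vM_nonneg n
  refine h1.trans ?_
  rw [sum_image (fun a _ b _ h => Nat.pow_right_injective hp.two_le h)]
  rcases Nat.eq_zero_or_pos N with h0 | h0
  · subst h0; simp
  have h2 : ∀ k ∈ Icc 1 (Nat.log p N), vM (p ^ k) = Real.log p := by
    intro k hk
    rw [mem_Icc] at hk
    unfold vM
    rw [ArithmeticFunction.vonMangoldt_apply_pow (by omega), ArithmeticFunction.vonMangoldt_apply_prime hp]
  rw [sum_congr rfl h2, sum_const, Nat.card_Icc, nsmul_eq_mul, Nat.add_sub_cancel,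
    ← Real.log_pow]
  apply Real.log_le_log
  · have : (0 : ℝ) < p := by exact_mod_cast hp.pos
    positivity
  · exact_mod_cast Nat.pow_log_le_self p h0.ne'

lemma sum_vM_ncop (r N : ℕ) (hr : 0 < r) :
    ∑ n ∈ (Ioc 0 N).filter (fun n => ¬ n.Coprime r), vM n ≤ r * Real.log N := by
  classical
  have hlog : 0 ≤ Real.log N := Real.log_natCast_nonneg N
  calc _ ≤ ∑ n ∈ Ioc 0 N, ∑ p ∈ r.primeFactors, (if p ∣ n then vM n else 0) := by
        rw [sum_filter]
        apply sum_le_sum; intro n _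
        have hnn : ∀ p ∈ r.primeFactors, 0 ≤ (if p ∣ n then vM n else 0) := by
          intro p _
          split_ifs
          · exact vM_nonneg n
          · exact le_refl _
        by_cases hc : n.Coprime r
        · rw [if_neg (not_not_intro hc)]
          exact sum_nonneg hnn
        · rw [if_pos hc]
          obtain ⟨p, hp, hpn, hpr⟩ := Nat.Prime.not_coprime_iff_dvd.1 hc
          have hmem : p ∈ r.primeFactors := by
            rw [Nat.mem_primeFactors]; exact ⟨hp, hpr, hr.ne'⟩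
          have h3 := single_le_sum hnn hmem
          rwa [if_pos hpn] at h3
    _ = ∑ p ∈ r.primeFactors, ∑ n ∈ (Ioc 0 N).filter (fun n => p ∣ n), vM n := by
        rw [sum_comm]
        apply sum_congr rfl; intro p _
        rw [sum_filter]
    _ ≤ ∑ p ∈ r.primeFactors, Real.log N := by
        apply sum_le_sum; intro p hp
        exact sum_vM_dvd p N (Nat.prime_of_mem_primeFactors hp)
    _ = r.primeFactors.card * Real.log N := by rw [sum_const, nsmul_eq_mul]
    _ ≤ r * Real.log N := by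
        gcongr
        have : r.primeFactors ⊆ Ioc 0 r := by
          intro p hp
          rw [mem_Ioc]
          exact ⟨(Nat.prime_of_mem_primeFactors hp).pos, Nat.le_of_mem_primeFactors hp⟩
        have h := card_le_card this
        rwa [Nat.card_Ioc, Nat.sub_zero] at h

/-- the exponential sum over primes -/
noncomputable def Sp (N : ℕ) (α : ℝ) : ℂ := ∑ n ∈ Ioc 0 N, (vM n : ℂ) * e (n * α)

lemma vM_zero : vM 0 = 0 := by simp

lemma Sp_eq_range (N : ℕ) (α : ℝ) : Sp N α = ∑ n ∈ range (N + 1), (vM n : ℂ) * e (n * α) := by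
  unfold Sp
  exact sum_Ioc_range N (fun n => (vM n : ℂ) * e (n * α)) (by simp)

end Pool.Agent.Lib.MP_2a816b_nt
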