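import Mathlib
import Pool.Agent.Lib.MP_2a816b_nt.Expo

/-!
# Truncated and twisted bilinear forms
-/

open Finset Real

namespace Pool.Agent.Lib.MP_2a816b_nt

/-- the bilinear form with kernel `K` on `range M × range N` has norm at most `B` -/
def OpB (K : ℕ → ℕ → ℂ) (M N : ℕ) (B : ℝ) : Prop :=
  ∀ x y : ℕ → ℂ, ‖∑ m ∈ range M, ∑ n ∈ range N, x m * y n * K m n‖ ≤
    B * (√(∑ m ∈ range M, ‖x m‖ ^ 2) * √(∑ n ∈ range N, ‖y n‖ ^ 2))

/-- dyadic pieces -/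
def Iv (j v : ℕ) : Finset ℕ := Ico (2 ^ (j + 1) * (v / 2)) (2 ^ j * v)

lemma Iv_unique {j v n : ℕ} (h : n ∈ Iv j v) : v = n / 2 ^ j + 1 := by
  unfold Iv at h
  rw [mem_Ico] at h
  obtain ⟨h1, h2⟩ := h
  rcases Nat.even_or_odd' v with ⟨w, hw | hw⟩
  · exfalso
    have e1 : v / 2 = w := by omega
    rw [e1, pow_succ] at h1
    rw [hw] at h2
    have : 2 ^ j * 2 * w = 2 ^ j * (2 * w) := by ring
    omega
  · have e1 : v / 2 = w := by omega
    rw [e1, pow_succ] at h1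
    have hpos : 0 < 2 ^ j := by positivity
    have h3 : n / 2 ^ j = 2 * w := by
      apply Nat.div_eq_of_lt_le
      · calc 2 * w * 2 ^ j = 2 ^ j * 2 * w := by ring
          _ ≤ n := h1
      · calc n < 2 ^ j * v := h2
          _ = (2 * w + 1) * 2 ^ j := by rw [hw]; ring
    omega

lemma sum_range_dyadic (T J : ℕ) (hT : T < 2 ^ J) (g : ℕ → ℂ) :
    ∑ n ∈ range T, g n = ∑ j ∈ range J, ∑ n ∈ Iv j (T / 2 ^ j), g n := by
  have h1 : ∀ j, ∑ n ∈ Iv j (T / 2 ^ j), g n =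
      (fun j => ∑ n ∈ range (2 ^ j * (T / 2 ^ j)), g n) j -
      (fun j => ∑ n ∈ range (2 ^ j * (T / 2 ^ j)), g n) (j + 1) := by
    intro j
    have e1 : 2 ^ (j + 1) * ((T / 2 ^ j) / 2) = 2 ^ (j + 1) * (T / 2 ^ (j + 1)) := by
      rw [Nat.div_div_eq_div_mul, pow_succ]
    have e2 : 2 ^ (j + 1) * (T / 2 ^ (j + 1)) ≤ 2 ^ j * (T / 2 ^ j) := by
      rw [← e1, pow_succ, mul_assoc]
      apply Nat.mul_le_mul_left
      omega
    unfold Iv
    rw [e1]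
    simp only
    rw [Finset.sum_Ico_eq_sub _ e2]
  simp_rw [h1]
  rw [sum_range_sub']
  simp only [pow_zero, one_mul, Nat.div_one]
  rw [Nat.div_eq_of_lt hT]
  simp

lemma trunc_level (K : ℕ → ℕ → ℂ) (M N : ℕ) (B : ℝ) (hB : 0 ≤ B) (hK : OpB K M N B)
    (T : ℕ → ℕ) (hT : ∀ m ∈ range M, T m ≤ N) (j : ℕ) (x y : ℕ → ℂ) :
    ‖∑ m ∈ range M, ∑ n ∈ Iv j (T m / 2 ^ j), x m * y n * K m n‖ ≤
      B * (√(∑ m ∈ range M, ‖x m‖ ^ 2) * √(∑ n ∈ range N, ‖y n‖ ^ 2)) := by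
  set X : ℕ → ℕ → ℂ := fun v m => if T m / 2 ^ j = v then x m else 0 with hX
  set Y : ℕ → ℕ → ℂ := fun v n => if n ∈ Iv j v then y n else 0 with hY
  have h1 : ∑ m ∈ range M, ∑ n ∈ Iv j (T m / 2 ^ j), x m * y n * K m n =
      ∑ v ∈ range (N + 1), ∑ m ∈ range M, ∑ n ∈ range N, X v m * Y v n * K m n := by
    rw [sum_comm]
    apply sum_congr rfl; intro m hm
    have hTm := hT m hm
    have hv : T m / 2 ^ j ∈ range (N + 1) := by
      rw [mem_range]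
      have := Nat.div_le_self (T m) (2 ^ j)
      omega
    rw [sum_eq_single_of_mem _ hv]
    · have hsub : Iv j (T m / 2 ^ j) ⊆ range N := by
        intro n hn
        unfold Iv at hn
        rw [mem_Ico] at hn
        rw [mem_range]
        have := Nat.mul_div_le (T m) (2 ^ j)
        omega
      have e1 : ∑ n ∈ range N, X (T m / 2 ^ j) m * Y (T m / 2 ^ j) n * K m n =
          ∑ n ∈ range N, if n ∈ Iv j (T m / 2 ^ j) then x m * y n * K m n else 0 := by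
        apply sum_congr rfl; intro n _
        simp only [hX, hY, if_true]
        split_ifs <;> simp
      rw [e1, ← sum_filter]
      apply sum_congr _ (fun _ _ => rfl)
      ext n
      rw [mem_filter]
      exact ⟨fun h => ⟨hsub h, h⟩, fun h => h.2⟩
    · intro v _ hne
      apply sum_eq_zero; intro n _
      simp only [hX]
      rw [if_neg (Ne.symm hne)]
      simp
  rw [h1]
  have hXs : ∑ v ∈ range (N + 1), √(∑ m ∈ range M, ‖X v m‖ ^ 2) ^ 2 ≤ ∑ m ∈ range M, ‖x m‖ ^ 2 := by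
    have : ∀ v ∈ range (N + 1), √(∑ m ∈ range M, ‖X v m‖ ^ 2) ^ 2 = ∑ m ∈ range M, ‖X v m‖ ^ 2 := by
      intro v _; exact sq_sqrt (by positivity)
    rw [sum_congr rfl this, sum_comm]
    apply sum_le_sum; intro m _
    have e2 : ∀ v ∈ range (N + 1), ‖X v m‖ ^ 2 = if T m / 2 ^ j = v then ‖x m‖ ^ 2 else 0 := by
      intro v _
      simp only [hX]
      split_ifs <;> simp
    rw [sum_congr rfl e2, sum_ite_eq]
    split_ifs
    · exact le_refl _
    · positivity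
  have hYs : ∑ v ∈ range (N + 1), √(∑ n ∈ range N, ‖Y v n‖ ^ 2) ^ 2 ≤ ∑ n ∈ range N, ‖y n‖ ^ 2 := by
    have : ∀ v ∈ range (N + 1), √(∑ n ∈ range N, ‖Y v n‖ ^ 2) ^ 2 = ∑ n ∈ range N, ‖Y v n‖ ^ 2 := by
      intro v _; exact sq_sqrt (by positivity)
    rw [sum_congr rfl this, sum_comm]
    apply sum_le_sum; intro n _
    have e2 : ∀ v ∈ range (N + 1), ‖Y v n‖ ^ 2 ≤ if n / 2 ^ j + 1 = v then ‖y n‖ ^ 2 else 0 := by
      intro v _
      simp only [hY]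
      by_cases h : n ∈ Iv j v
      · rw [if_pos h, if_pos (Iv_unique h).symm]
      · rw [if_neg h]
        split_ifs
        · simp
        · simp
    refine (sum_le_sum e2).trans ?_
    rw [sum_ite_eq]
    split_ifs
    · exact le_refl _
    · positivity
  calc _ ≤ ∑ v ∈ range (N + 1), ‖∑ m ∈ range M, ∑ n ∈ range N, X v m * Y v n * K m n‖ :=
        norm_sum_le _ _
    _ ≤ ∑ v ∈ range (N + 1), B * (√(∑ m ∈ range M, ‖X v m‖ ^ 2) * √(∑ n ∈ range N, ‖Y v n‖ ^ 2)) := by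
        apply sum_le_sum; intro v _; exact hK (X v) (Y v)
    _ = B * ∑ v ∈ range (N + 1), (√(∑ m ∈ range M, ‖X v m‖ ^ 2) * √(∑ n ∈ range N, ‖Y v n‖ ^ 2)) := by
        rw [mul_sum]
    _ ≤ B * (√(∑ v ∈ range (N + 1), √(∑ m ∈ range M, ‖X v m‖ ^ 2) ^ 2) *
          √(∑ v ∈ range (N + 1), √(∑ n ∈ range N, ‖Y v n‖ ^ 2) ^ 2)) := by
        gcongr
        exact sum_mul_le_sqrt_mul_sqrt _ _ _
    _ ≤ _ := by
        gcongr

/-- truncation costs a factor `J`. -/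
lemma trunc (K : ℕ → ℕ → ℂ) (M N J : ℕ) (B : ℝ) (hB : 0 ≤ B) (hK : OpB K M N B) (hJ : N < 2 ^ J)
    (T : ℕ → ℕ) (hT : ∀ m ∈ range M, T m ≤ N) (x y : ℕ → ℂ) :
    ‖∑ m ∈ range M, ∑ n ∈ range (T m), x m * y n * K m n‖ ≤
      J * B * (√(∑ m ∈ range M, ‖x m‖ ^ 2) * √(∑ n ∈ range N, ‖y n‖ ^ 2)) := by
  have h1 : ∑ m ∈ range M, ∑ n ∈ range (T m), x m * y n * K m n =
      ∑ j ∈ range J, ∑ m ∈ range M, ∑ n ∈ Iv j (T m / 2 ^ j), x m * y n * K m n := by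
    rw [sum_comm]
    apply sum_congr rfl; intro m hm
    exact sum_range_dyadic (T m) J (lt_of_le_of_lt (hT m hm) hJ) _
  rw [h1]
  calc _ ≤ ∑ j ∈ range J, ‖∑ m ∈ range M, ∑ n ∈ Iv j (T m / 2 ^ j), x m * y n * K m n‖ :=
        norm_sum_le _ _
    _ ≤ ∑ j ∈ range J, B * (√(∑ m ∈ range M, ‖x m‖ ^ 2) * √(∑ n ∈ range N, ‖y n‖ ^ 2)) := by
        apply sum_le_sum; intro j _; exact trunc_level K M N B hB hK T hT j x y
    _ = _ := by
        rw [sum_const, card_range, nsmul_eq_mul]; ring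

/-- an additive twist modulo `r` costs a factor `√r`. -/
lemma twist (K : ℕ → ℕ → ℂ) (M N : ℕ) (B : ℝ) (hB : 0 ≤ B) (hK : OpB K M N B) (r : ℕ) (hr : 0 < r)
    (b : ℕ) : OpB (fun m n => K m n * e ((m * n * b : ℕ) / r)) M N (√r * B) := by
  intro x y
  set X : ℕ → ℕ → ℂ := fun u m => if m % r = u then x m else 0 with hX
  set Y : ℕ → ℕ → ℂ := fun u n => y n * e ((u * n * b : ℕ) / r) with hY
  have hmod : ∀ m n : ℕ, e ((m * n * b : ℕ) / r) = e (((m % r) * n * b : ℕ) / r) := by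
    intro m n
    have h := Nat.mod_add_div m r
    have hr' : (r : ℝ) ≠ 0 := by positivity
    generalize m / r = k at h
    have : ((m * n * b : ℕ) : ℝ) / r = (((m % r) * n * b : ℕ) : ℝ) / r + ((k * n * b : ℕ) : ℝ) := by
      have h2 : (m : ℝ) = (m % r : ℕ) + r * (k : ℕ) := by exact_mod_cast h.symm
      push_cast
      rw [h2]
      field_simp
    rw [this, e_add, e_nat, mul_one]
  have h1 : ∑ m ∈ range M, ∑ n ∈ range N, x m * y n * (K m n * e ((m * n * b : ℕ) / r)) =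
      ∑ u ∈ range r, ∑ m ∈ range M, ∑ n ∈ range N, X u m * Y u n * K m n := by
    conv_rhs => rw [sum_comm]
    apply sum_congr rfl; intro m _
    have hu : m % r ∈ range r := by rw [mem_range]; exact Nat.mod_lt _ hr
    rw [sum_eq_single_of_mem _ hu]
    · apply sum_congr rfl; intro n _
      simp only [hX, hY, if_true]
      rw [hmod m n]; ring
    · intro v _ hne
      apply sum_eq_zero; intro n _
      simp only [hX]
      rw [if_neg (Ne.symm hne)]; simp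
  rw [h1]
  have hYn : ∀ u ∈ range r, √(∑ n ∈ range N, ‖Y u n‖ ^ 2) = √(∑ n ∈ range N, ‖y n‖ ^ 2) := by
    intro u _
    congr 1
    apply sum_congr rfl; intro n _
    simp only [hY]
    rw [norm_mul, norm_e, mul_one]
  have hXs : ∑ u ∈ range r, √(∑ m ∈ range M, ‖X u m‖ ^ 2) ^ 2 ≤ ∑ m ∈ range M, ‖x m‖ ^ 2 := by
    have : ∀ v ∈ range r, √(∑ m ∈ range M, ‖X v m‖ ^ 2) ^ 2 = ∑ m ∈ range M, ‖X v m‖ ^ 2 := by
      intro v _; exact sq_sqrt (by positivity)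
    rw [sum_congr rfl this, sum_comm]
    apply sum_le_sum; intro m _
    have e2 : ∀ v ∈ range r, ‖X v m‖ ^ 2 = if m % r = v then ‖x m‖ ^ 2 else 0 := by
      intro v _
      simp only [hX]
      split_ifs <;> simp
    rw [sum_congr rfl e2, sum_ite_eq]
    split_ifs
    · exact le_refl _
    · positivity
  calc _ ≤ ∑ u ∈ range r, ‖∑ m ∈ range M, ∑ n ∈ range N, X u m * Y u n * K m n‖ := norm_sum_le _ _
    _ ≤ ∑ u ∈ range r, B * (√(∑ m ∈ range M, ‖X u m‖ ^ 2) * √(∑ n ∈ range N, ‖Y u n‖ ^ 2)) := by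
        apply sum_le_sum; intro u _; exact hK (X u) (Y u)
    _ = ∑ u ∈ range r, (B * √(∑ n ∈ range N, ‖y n‖ ^ 2)) * (1 * √(∑ m ∈ range M, ‖X u m‖ ^ 2)) := by
        apply sum_congr rfl; intro u hu
        rw [hYn u hu]; ring
    _ = (B * √(∑ n ∈ range N, ‖y n‖ ^ 2)) * ∑ u ∈ range r, 1 * √(∑ m ∈ range M, ‖X u m‖ ^ 2) := by
        rw [mul_sum]
    _ ≤ (B * √(∑ n ∈ range N, ‖y n‖ ^ 2)) * (√(∑ u ∈ range r, (1 : ℝ) ^ 2) *
          √(∑ u ∈ range r, √(∑ m ∈ range M, ‖X u m‖ ^ 2) ^ 2)) := by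
        gcongr
        exact sum_mul_le_sqrt_mul_sqrt _ _ _
    _ ≤ (B * √(∑ n ∈ range N, ‖y n‖ ^ 2)) * (√r * √(∑ m ∈ range M, ‖x m‖ ^ 2)) := by
        gcongr
        simp
    _ = _ := by ring

end Pool.Agent.Lib.MP_2a816b_nt
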