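import Mathlib
import Pool.Agent.Lib.MP_2a816b_nt.Trunc
import Pool.Agent.Lib.MP_2a816b_nt.Basic0

/-!
# One dyadic block
-/

open Finset Real

namespace Pool.Agent.Lib.MP_2a816b_nt

/-- one dyadic block -/
lemma dyadic_block (K : ℕ → ℕ → ℂ) (N i L : ℕ) (hi : 2 ^ i ≤ N) (hL : N + 1 < 2 ^ L) (Bd : ℝ)
    (hB0 : 0 ≤ Bd) (hK : OpB K (2 ^ (i + 1)) (N / 2 ^ i + 1) Bd)
    (f g : ℕ → ℝ) (A : ℝ) (hA : 0 ≤ A)
    (hf : ∀ m, m ≤ N → |f m| ≤ A) (hg : ∀ n, n ≤ N → |g n| ≤ A) :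
    ‖∑ m ∈ (Ioc 0 N).filter (fun m => Nat.log 2 m = i), ∑ n ∈ Ioc 0 (N / m),
        (f m : ℂ) * (g n : ℂ) * K m n‖ ≤
      L * Bd * (A * √(2 ^ i) * (A * √(2 * N / 2 ^ i))) := by
  set x : ℕ → ℂ := fun m => if 2 ^ i ≤ m ∧ m ≤ N then (f m : ℂ) else 0 with hx
  set y : ℕ → ℂ := fun n => if n = 0 ∨ N < n then 0 else (g n : ℂ) with hy
  set T : ℕ → ℕ := fun m => if 2 ^ i ≤ m then N / m + 1 else 0 with hT
  have hTle : ∀ m ∈ range (2 ^ (i + 1)), T m ≤ N / 2 ^ i + 1 := by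
    intro m _
    simp only [hT]
    split_ifs with h
    · have := Nat.div_le_div_left h (by positivity) (a := N)
      omega
    · exact Nat.zero_le _
  have hJ : N / 2 ^ i + 1 < 2 ^ L := by
    have := Nat.div_le_self N (2 ^ i)
    omega
  have h := trunc K (2 ^ (i + 1)) (N / 2 ^ i + 1) L Bd hB0 hK hJ T hTle x y
  have e1 : ∑ m ∈ (Ioc 0 N).filter (fun m => Nat.log 2 m = i), ∑ n ∈ Ioc 0 (N / m),
        (f m : ℂ) * (g n : ℂ) * K m n =
      ∑ m ∈ range (2 ^ (i + 1)), ∑ n ∈ range (T m), x m * y n * K m n := by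
    have hsub : (Ioc 0 N).filter (fun m => Nat.log 2 m = i) ⊆ range (2 ^ (i + 1)) := by
      intro m hm
      rw [mem_filter, mem_Ioc] at hm
      rw [mem_range]
      have := Nat.lt_pow_succ_log_self (b := 2) (by norm_num) m
      rw [hm.2] at this
      exact this
    rw [← sum_subset hsub]
    · apply sum_congr rfl; intro m hm
      rw [mem_filter, mem_Ioc] at hm
      have h2 : 2 ^ i ≤ m := by
        rw [← hm.2]; exact Nat.pow_log_le_self 2 (by omega)
      have hTm : T m = N / m + 1 := by simp only [hT]; rw [if_pos h2]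
      have hxm : x m = (f m : ℂ) := by simp only [hx]; rw [if_pos ⟨h2, hm.1.2⟩]
      rw [hTm, hxm, ← sum_Ioc_range (N / m) (fun n => (f m : ℂ) * y n * K m n)]
      · apply sum_congr rfl; intro n hn
        rw [mem_Ioc] at hn
        have hnN : n ≤ N := hn.2.trans (Nat.div_le_self _ _)
        simp only [hy]
        rw [if_neg (by omega)]
      · simp [hy]
    · intro m hm hm'
      rw [mem_range] at hm
      rw [mem_filter, mem_Ioc, not_and] at hm'
      by_cases h2 : 2 ^ i ≤ m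
      · by_cases h3 : m ≤ N
        · exfalso
          have hpos : 0 < 2 ^ i := by positivity
          exact hm' ⟨by omega, h3⟩ (Nat.log_eq_of_pow_le_of_lt_pow h2 hm)
        · apply sum_eq_zero; intro n _
          simp only [hx]
          rw [if_neg (by tauto)]
          simp
      · have : T m = 0 := by simp only [hT]; rw [if_neg h2]
        rw [this]; simp
  rw [e1]
  refine h.trans ?_
  have hP : (0 : ℝ) < 2 ^ i := by positivity
  have hxb : √(∑ m ∈ range (2 ^ (i + 1)), ‖x m‖ ^ 2) ≤ A * √(2 ^ i) := by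
    have e2 : ∑ m ∈ range (2 ^ (i + 1)), ‖x m‖ ^ 2 ≤ ∑ m ∈ Ico (2 ^ i) (2 ^ (i + 1)), A ^ 2 := by
      have e3 : ∑ m ∈ range (2 ^ (i + 1)), ‖x m‖ ^ 2 = ∑ m ∈ Ico (2 ^ i) (2 ^ (i + 1)), ‖x m‖ ^ 2 := by
        symm
        apply sum_subset
        · intro m hm; rw [mem_Ico] at hm; rw [mem_range]; exact hm.2
        · intro m hm hm'
          rw [mem_range] at hm
          rw [mem_Ico, not_and] at hm'
          simp only [hx]
          rw [if_neg (by intro hh; exact absurd hm (hm' hh.1))]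
          simp
      rw [e3]
      apply sum_le_sum; intro m _
      simp only [hx]
      split_ifs with h2
      · rw [Complex.norm_real, norm_eq_abs]
        exact pow_le_pow_left₀ (abs_nonneg _) (hf m h2.2) 2
      · simp; positivity
    have e4 : ∑ m ∈ Ico (2 ^ i) (2 ^ (i + 1)), A ^ 2 = A ^ 2 * 2 ^ i := by
      rw [sum_const, Nat.card_Ico, nsmul_eq_mul]
      have : ((2 ^ (i + 1) - 2 ^ i : ℕ) : ℝ) = 2 ^ i := by
        rw [Nat.cast_sub (by rw [pow_succ]; omega)]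
        push_cast
        ring
      rw [this]; ring
    rw [e4] at e2
    calc √(∑ m ∈ range (2 ^ (i + 1)), ‖x m‖ ^ 2) ≤ √(A ^ 2 * 2 ^ i) := sqrt_le_sqrt e2
      _ = A * √(2 ^ i) := by rw [sqrt_mul (by positivity), sqrt_sq hA]
  have hyb : √(∑ n ∈ range (N / 2 ^ i + 1), ‖y n‖ ^ 2) ≤ A * √(2 * N / 2 ^ i) := by
    have e2 : ∑ n ∈ range (N / 2 ^ i + 1), ‖y n‖ ^ 2 ≤ ∑ n ∈ range (N / 2 ^ i + 1), A ^ 2 := by
      apply sum_le_sum; intro n hn
      rw [mem_range] at hn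
      have hnN : n ≤ N := (Nat.lt_succ_iff.1 hn).trans (Nat.div_le_self _ _)
      simp only [hy]
      split_ifs with h2
      · simp; positivity
      · rw [Complex.norm_real, norm_eq_abs]
        exact pow_le_pow_left₀ (abs_nonneg _) (hg n hnN) 2
    have e4 : ∑ n ∈ range (N / 2 ^ i + 1), A ^ 2 ≤ A ^ 2 * (2 * N / 2 ^ i) := by
      rw [sum_const, card_range, nsmul_eq_mul]
      have h5 : ((N / 2 ^ i + 1 : ℕ) : ℝ) ≤ 2 * N / 2 ^ i := by
        push_cast
        have h6 : ((N / 2 ^ i : ℕ) : ℝ) ≤ N / 2 ^ i := by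
          have := @Nat.cast_div_le ℝ _ _ _ N (2 ^ i)
          push_cast at this
          exact this
        have h7 : (1 : ℝ) ≤ N / 2 ^ i := by
          rw [le_div_iff₀ hP, one_mul]; exact_mod_cast hi
        have h8 : (2 : ℝ) * N / 2 ^ i = N / 2 ^ i + N / 2 ^ i := by ring
        linarith
      calc _ ≤ (2 * N / 2 ^ i) * A ^ 2 := by gcongr
        _ = _ := by ring
    calc _ ≤ √(A ^ 2 * (2 * N / 2 ^ i)) := sqrt_le_sqrt (e2.trans e4)
      _ = _ := by rw [sqrt_mul (by positivity), sqrt_sq hA]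
  gcongr

end Pool.Agent.Lib.MP_2a816b_nt
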