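import Mathlib
import Pool.Agent.Lib.MP_2a816b_nt.Dyad

/-!
# Vaughan's identity for a general kernel
-/

open Finset Real

namespace Pool.Agent.Lib.MP_2a816b_nt

/-- type II sums for one kernel -/
lemma typeII1 (K : ℕ → ℕ → ℂ) (N U L : ℕ) (hL : N + 1 < 2 ^ L) (T : ℝ) (hT : 0 ≤ T)
    (Bd : ℕ → ℝ) (hB0 : ∀ i, 0 ≤ Bd i)
    (hop : ∀ i, 2 ^ i ≤ N → U < 2 ^ (i + 1) → 2 ^ i * U ≤ N →
      OpB K (2 ^ (i + 1)) (N / 2 ^ i + 1) (Bd i))
    (hBT : ∀ i, 2 ^ i ≤ N → U < 2 ^ (i + 1) → 2 ^ i * U ≤ N →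
      Bd i * (√(2 ^ i) * √(2 * N / 2 ^ i)) ≤ T)
    (f g : ℕ → ℝ) (A : ℝ) (hA : 0 ≤ A)
    (hf : ∀ m, m ≤ N → |f m| ≤ A) (hg : ∀ n, n ≤ N → |g n| ≤ A)
    (hf0 : ∀ m, f m ≠ 0 → U < m ∧ m * U ≤ N) :
    ‖∑ m ∈ Ioc 0 N, ∑ n ∈ Ioc 0 (N / m), (f m : ℂ) * (g n : ℂ) * K m n‖ ≤
      L ^ 2 * A ^ 2 * T := by
  have hmaps : ∀ m ∈ Ioc 0 N, Nat.log 2 m ∈ range L := by
    intro m hm
    rw [mem_Ioc] at hm
    rw [mem_range]
    apply Nat.log_lt_of_lt_pow (by omega)
    omega
  rw [← sum_fiberwise_of_maps_to hmaps]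
  refine (norm_sum_le _ _).trans ?_
  have hblock : ∀ i ∈ range L, ‖∑ m ∈ (Ioc 0 N).filter (fun m => Nat.log 2 m = i),
      ∑ n ∈ Ioc 0 (N / m), (f m : ℂ) * (g n : ℂ) * K m n‖ ≤ L * A ^ 2 * T := by
    intro i _
    by_cases hcase : 2 ^ i ≤ N ∧ U < 2 ^ (i + 1) ∧ 2 ^ i * U ≤ N
    · obtain ⟨hi, hi1, hi2⟩ := hcase
      have hd := dyadic_block K N i L hi hL _ (hB0 i) (hop i hi hi1 hi2) f g A hA hf hg
      refine hd.trans ?_
      have hn := hBT i hi hi1 hi2
      calc _ = (L * A ^ 2) * (Bd i * (√(2 ^ i) * √(2 * N / 2 ^ i))) := by ring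
        _ ≤ (L * A ^ 2) * T := by gcongr
        _ = _ := by ring
    · have : ∑ m ∈ (Ioc 0 N).filter (fun m => Nat.log 2 m = i),
          ∑ n ∈ Ioc 0 (N / m), (f m : ℂ) * (g n : ℂ) * K m n = 0 := by
        apply sum_eq_zero; intro m hm
        rw [mem_filter, mem_Ioc] at hm
        have hfm : f m = 0 := by
          by_contra hne
          obtain ⟨c1, c2⟩ := hf0 m hne
          apply hcase
          have d1 : 2 ^ i ≤ m := by rw [← hm.2]; exact Nat.pow_log_le_self 2 (by omega)
          have d2 : m < 2 ^ (i + 1) := by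
            rw [← hm.2]; exact Nat.lt_pow_succ_log_self (by norm_num) m
          refine ⟨by omega, by omega, ?_⟩
          calc 2 ^ i * U ≤ m * U := Nat.mul_le_mul_right U d1
            _ ≤ N := c2
        apply sum_eq_zero; intro n _
        rw [hfm]; simp
      rw [this, norm_zero]
      positivity
  refine (sum_le_sum hblock).trans ?_
  rw [sum_const, card_range, nsmul_eq_mul]
  apply le_of_eq
  ring

/-- Vaughan's identity: a bound for the twisted sum of the von Mangoldt function for a kernel with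
type I and type II bounds. -/
theorem core1 (κ : ℕ → ℂ) (N U L : ℕ) (hU3 : U * U * U ≤ N) (hL : N + 1 < 2 ^ L)
    (C T : ℝ) (hκ0 : κ 0 = 0) (hκ : ∀ n, ‖κ n‖ ≤ C)
    (hI : ∀ m t, ‖∑ d ∈ range t, κ (m * d)‖ ≤ C)
    (hII : ∀ f g : ℕ → ℝ, (∀ m, m ≤ N → |f m| ≤ L) → (∀ n, n ≤ N → |g n| ≤ L) →
      (∀ m, f m ≠ 0 → U < m ∧ m * U ≤ N) →
      ‖∑ m ∈ Ioc 0 N, ∑ n ∈ Ioc 0 (N / m), (f m : ℂ) * (g n : ℂ) * κ (m * n)‖ ≤ T) :
    ‖tw N κ vM‖ ≤ 4 * L * U * C + 2 * T := by
  have hL0 : 1 ≤ L := by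
    rcases Nat.eq_zero_or_pos L with h | h
    · subst h; omega
    · exact h
  have hLr : (1 : ℝ) ≤ L := by exact_mod_cast hL0
  have hC0 : 0 ≤ C := (norm_nonneg _).trans (hκ 0)
  -- the five pieces
  have h1 : ‖tw N κ (lo U vM)‖ ≤ U * L * C := by
    unfold tw
    calc _ ≤ ∑ n ∈ Ioc 0 N, ‖((lo U vM n : ℝ) : ℂ) * κ n‖ := norm_sum_le _ _
      _ ≤ ∑ n ∈ Ioc 0 N, |lo U vM n| * C := by
          apply sum_le_sum; intro n _
          rw [norm_mul, Complex.norm_real, norm_eq_abs]
          gcongr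
          exact hκ n
      _ = (∑ n ∈ Ioc 0 N, |lo U vM n|) * C := by rw [sum_mul]
      _ ≤ (U * L) * C := by
          gcongr
          apply sum_lo_le N U vM L (by positivity)
          intro m hm
          rw [abs_of_nonneg (vM_nonneg m)]
          exact (vM_le_log m).trans (log_le_L hL (by omega))
  have h2 : ‖tw N κ (lo U muR * ArithmeticFunction.log)‖ ≤ (U * 1) * (2 * L * C) := by
    rw [tw_mul]
    calc _ ≤ ∑ m ∈ Ioc 0 N, ‖∑ d ∈ Ioc 0 (N / m), ((lo U muR m : ℝ) : ℂ) *
            ((ArithmeticFunction.log d : ℝ) : ℂ) * κ (m * d)‖ := norm_sum_le _ _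
      _ ≤ ∑ m ∈ Ioc 0 N, |lo U muR m| * (2 * L * C) := by
          apply sum_le_sum; intro m _
          have e1 : ∑ d ∈ Ioc 0 (N / m), ((lo U muR m : ℝ) : ℂ) *
              ((ArithmeticFunction.log d : ℝ) : ℂ) * κ (m * d) =
              ((lo U muR m : ℝ) : ℂ) * ∑ d ∈ Ioc 0 (N / m), (Real.log d : ℂ) * κ (m * d) := by
            rw [mul_sum]
            apply sum_congr rfl; intro d _
            rw [ArithmeticFunction.log_apply]
            ring
          rw [e1, norm_mul, Complex.norm_real, norm_eq_abs]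
          gcongr
          have h0 : (Real.log (0 : ℕ) : ℂ) * κ (m * 0) = 0 := by
            rw [mul_zero, hκ0, mul_zero]
          rw [sum_Ioc_range (N / m) (fun d => (Real.log d : ℂ) * κ (m * d)) h0]
          have h := abel_sum (fun d => κ (m * d)) (fun n : ℕ => Real.log n) C
            log_nat_mono (by simp) (fun k => hI m k) (N / m + 1)
          refine h.trans ?_
          have e2 : Real.log ((N / m + 1 : ℕ) : ℝ) ≤ L :=
            log_le_L (n := N / m + 1) hL (by have := Nat.div_le_self N m; omega)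
          gcongr
      _ = (∑ m ∈ Ioc 0 N, |lo U muR m|) * (2 * L * C) := by rw [sum_mul]
      _ ≤ (U * 1) * (2 * L * C) := by
          gcongr
          exact sum_lo_le N U muR 1 (by norm_num) (fun m _ => muR_abs_le m)
  have hcU : ∀ m, m ≤ N → |cU U m| ≤ L := fun m hm =>
    (cU_abs_le U m).trans (log_le_L hL (by omega))
  have h3 : ‖tw N κ (lo U (cU U) * zeR)‖ ≤ (U * L) * C := by
    rw [tw_mul]
    calc _ ≤ ∑ m ∈ Ioc 0 N, ‖∑ d ∈ Ioc 0 (N / m), ((lo U (cU U) m : ℝ) : ℂ) *
            ((zeR d : ℝ) : ℂ) * κ (m * d)‖ := norm_sum_le _ _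
      _ ≤ ∑ m ∈ Ioc 0 N, |lo U (cU U) m| * C := by
          apply sum_le_sum; intro m _
          have e1 : ∑ d ∈ Ioc 0 (N / m), ((lo U (cU U) m : ℝ) : ℂ) *
              ((zeR d : ℝ) : ℂ) * κ (m * d) =
              ((lo U (cU U) m : ℝ) : ℂ) * ∑ d ∈ Ioc 0 (N / m), κ (m * d) := by
            rw [mul_sum]
            apply sum_congr rfl; intro d hd
            rw [mem_Ioc] at hd
            rw [zeR_apply, if_neg (by omega)]
            push_cast
            ring
          rw [e1, norm_mul, Complex.norm_real, norm_eq_abs]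
          gcongr
          rw [sum_Ioc_range (N / m) (fun d => κ (m * d)) (by rw [mul_zero, hκ0])]
          exact hI m (N / m + 1)
      _ = (∑ m ∈ Ioc 0 N, |lo U (cU U) m|) * C := by rw [sum_mul]
      _ ≤ (U * L) * C := by
          gcongr
          exact sum_lo_le N U (cU U) L (by positivity) hcU
  have h4 : ‖tw N κ (hi U (cU U) * zeR)‖ ≤ T := by
    rw [tw_mul]
    have := hII (fun m => hi U (cU U) m) (fun d => zeR d) ?_ ?_ ?_
    · exact this
    · intro m hm
      rw [hi_apply]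
      split_ifs
      · exact hcU m hm
      · simp
    · intro n _
      rw [zeR_apply]
      split_ifs
      · simp
      · simpa using hLr
    · intro m hm
      rw [hi_apply] at hm
      by_cases hU' : U < m
      · rw [if_pos hU'] at hm
        refine ⟨hU', ?_⟩
        have hm2 : m ≤ U * U := by
          by_contra hc
          exact hm (cU_eq_zero U m (by omega))
        calc m * U ≤ (U * U) * U := Nat.mul_le_mul_right U hm2
          _ ≤ N := hU3
      · rw [if_neg hU'] at hm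
        exact absurd rfl hm
  have h5 : ‖tw N κ (hi U muR * (hi U vM * zeR))‖ ≤ T := by
    rw [tw_mul]
    have := hII (fun m => if m * U ≤ N then hi U muR m else 0)
      (fun d => (hi U vM * zeR) d) ?_ ?_ ?_
    · refine le_trans (le_of_eq ?_) this
      congr 1
      apply sum_congr rfl; intro m hm
      rw [mem_Ioc] at hm
      by_cases hmU : m * U ≤ N
      · simp only [if_pos hmU]
      · have hz : ∀ d ∈ Ioc 0 (N / m), (hi U vM * zeR) d = 0 := by
          intro d hd
          rw [mem_Ioc] at hd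
          apply vz_eq_zero
          have : N / m < U := by
            rw [Nat.div_lt_iff_lt_mul hm.1]
            rw [mul_comm]
            omega
          omega
        rw [sum_eq_zero, sum_eq_zero]
        · intro d hd
          rw [hz d hd]; simp
        · intro d hd
          rw [hz d hd]; simp
    · intro m _
      split_ifs
      · exact (hi_muR_abs_le U m).trans hLr
      · simp
    · intro n hn
      rw [abs_of_nonneg (vz_nonneg U n)]
      exact (vz_le U n).trans (log_le_L hL (by omega))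
    · intro m hm
      by_cases hmU : m * U ≤ N
      · rw [if_pos hmU, hi_apply] at hm
        refine ⟨?_, hmU⟩
        by_contra hc
        rw [if_neg hc] at hm
        exact hm rfl
      · rw [if_neg hmU] at hm
        exact absurd rfl hm
  -- assemble
  rw [tw_vM N U]
  have hA : ‖tw N κ (lo U vM) + tw N κ (lo U muR * ArithmeticFunction.log) -
      tw N κ (lo U (cU U) * zeR) - tw N κ (hi U (cU U) * zeR) +
      tw N κ (hi U muR * (hi U vM * zeR))‖ ≤
      ‖tw N κ (lo U vM)‖ + ‖tw N κ (lo U muR * ArithmeticFunction.log)‖ +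
      ‖tw N κ (lo U (cU U) * zeR)‖ + ‖tw N κ (hi U (cU U) * zeR)‖ +
      ‖tw N κ (hi U muR * (hi U vM * zeR))‖ := by
    refine (norm_add_le _ _).trans ?_
    gcongr
    refine (norm_sub_le _ _).trans ?_
    gcongr
    refine (norm_sub_le _ _).trans ?_
    gcongr
    exact norm_add_le _ _
  refine hA.trans ?_
  linarith

end Pool.Agent.Lib.MP_2a816b_nt
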