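import Mathlib
import Pool.Agent.Lib.MP_2a816b_nt.Expo

/-!
# The additive large sieve inequality for well spaced points
-/

open Finset Real

namespace Pool.Agent.Lib.MP_2a816b_nt

/-- Sum of inverse squares of positive `δ`-separated numbers. -/
lemma sum_inv_sq_pos {ι : Type*} (s : Finset ι) (θ : ι → ℝ) (δ : ℝ) (hδ : 0 < δ)
    (hpos : ∀ i ∈ s, δ ≤ θ i) (hsep : ∀ i ∈ s, ∀ j ∈ s, i ≠ j → δ ≤ |θ i - θ j|) :
    ∑ i ∈ s, (θ i ^ 2)⁻¹ ≤ 2 / δ ^ 2 := by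
  have hinj : Set.InjOn (fun i => ⌊θ i / δ⌋₊) (s : Set ι) := by
    intro i hi j hj hij
    by_contra hne
    have h := hsep i hi j hj hne
    simp only at hij
    have h1 := Nat.floor_le (show 0 ≤ θ i / δ from div_nonneg (by have := hpos i hi; linarith) hδ.le)
    have h2 := Nat.lt_floor_add_one (θ i / δ)
    have h3 := Nat.floor_le (show 0 ≤ θ j / δ from div_nonneg (by have := hpos j hj; linarith) hδ.le)
    have h4 := Nat.lt_floor_add_one (θ j / δ)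
    rw [hij] at h1 h2
    have h5 : |θ i / δ - θ j / δ| < 1 := by rw [abs_lt]; constructor <;> linarith
    rw [← sub_div, abs_div, abs_of_pos hδ, div_lt_one hδ] at h5
    linarith
  have hfl : ∀ i ∈ s, 1 ≤ ⌊θ i / δ⌋₊ := by
    intro i hi
    have hp := hpos i hi
    rw [Nat.one_le_floor_iff, le_div_iff₀ hδ]; linarith
  have h1 : ∀ i ∈ s, (θ i ^ 2)⁻¹ ≤ (δ ^ 2)⁻¹ * (((⌊θ i / δ⌋₊ : ℕ) : ℝ) ^ 2)⁻¹ := by
    intro i hi
    have hp := hpos i hi
    have h1 := Nat.floor_le (show 0 ≤ θ i / δ from div_nonneg (by linarith) hδ.le)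
    have h3 : (1 : ℝ) ≤ (⌊θ i / δ⌋₊ : ℕ) := by exact_mod_cast hfl i hi
    rw [← mul_inv]
    apply inv_anti₀ (by positivity)
    rw [← mul_pow]
    apply pow_le_pow_left₀ (by positivity)
    calc δ * (⌊θ i / δ⌋₊ : ℕ) ≤ δ * (θ i / δ) := by gcongr
      _ = θ i := by field_simp
  calc ∑ i ∈ s, (θ i ^ 2)⁻¹ ≤ ∑ i ∈ s, (δ ^ 2)⁻¹ * (((⌊θ i / δ⌋₊ : ℕ) : ℝ) ^ 2)⁻¹ := sum_le_sum h1
    _ = (δ ^ 2)⁻¹ * ∑ i ∈ s, (((⌊θ i / δ⌋₊ : ℕ) : ℝ) ^ 2)⁻¹ := by rw [mul_sum]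
    _ = (δ ^ 2)⁻¹ * ∑ n ∈ s.image (fun i => ⌊θ i / δ⌋₊), ((n : ℝ) ^ 2)⁻¹ := by
        rw [sum_image hinj]
    _ ≤ (δ ^ 2)⁻¹ * 2 := by
        gcongr
        obtain ⟨M, hM⟩ : ∃ M : ℕ, ∀ n ∈ s.image (fun i => ⌊θ i / δ⌋₊), n < M := by
          refine ⟨(s.image (fun i => ⌊θ i / δ⌋₊)).sup id + 1, fun n hn => ?_⟩
          have := Finset.le_sup (f := id) hn
          simp only [id] at this
          omega
        calc ∑ n ∈ s.image (fun i => ⌊θ i / δ⌋₊), ((n : ℝ) ^ 2)⁻¹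
            ≤ ∑ n ∈ Ioo 0 M, ((n : ℝ) ^ 2)⁻¹ := by
              apply sum_le_sum_of_subset_of_nonneg
              · intro n hn
                rw [mem_Ioo]
                refine ⟨?_, hM n hn⟩
                rw [mem_image] at hn
                obtain ⟨i, hi, rfl⟩ := hn
                have := hfl i hi
                omega
              · intros; positivity
          _ ≤ 2 / ((0 : ℕ) + 1) := sum_Ioo_inv_sq_le 0 M
          _ = 2 := by norm_num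
    _ = 2 / δ ^ 2 := by ring

/-- A family of reals which is `δ`-separated modulo one. -/
def Sep {ι : Type*} (s : Finset ι) (α : ι → ℝ) (δ : ℝ) : Prop :=
  ∀ i ∈ s, ∀ j ∈ s, i ≠ j → ∀ m : ℤ, δ ≤ |α i - α j - m|

lemma sum_nn_sq {ι : Type*} [DecidableEq ι] (s : Finset ι) (α : ι → ℝ) (δ : ℝ) (hδ : 0 < δ)
    (hs : Sep s α δ) (i : ι) (hi : i ∈ s) :
    ∑ j ∈ s.erase i, (nn (α i - α j) ^ 2)⁻¹ ≤ 4 / δ ^ 2 := by
  set θ : ι → ℝ := fun j => (α i - α j) - round (α i - α j) with hθ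
  have hnn : ∀ j, nn (α i - α j) ^ 2 = θ j ^ 2 := by
    intro j; unfold nn; rw [sq_abs]
  simp_rw [hnn]
  have habs : ∀ j ∈ s.erase i, δ ≤ |θ j| := by
    intro j hj
    rw [mem_erase] at hj
    have := hs i hi j hj.2 (Ne.symm hj.1) (round (α i - α j))
    exact this
  have hsep : ∀ j ∈ s.erase i, ∀ k ∈ s.erase i, j ≠ k → δ ≤ |θ j - θ k| := by
    intro j hj k hk hne
    rw [mem_erase] at hj hk
    have := hs k hk.2 j hj.2 (Ne.symm hne) (round (α i - α j) - round (α i - α k))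
    have e1 : θ j - θ k = α k - α j - ((round (α i - α j) - round (α i - α k) : ℤ) : ℝ) := by
      simp only [hθ]; push_cast; ring
    rw [e1]; exact this
  rw [← sum_filter_add_sum_filter_not (s.erase i) (fun j => 0 < θ j)]
  have hp : ∑ j ∈ (s.erase i).filter (fun j => 0 < θ j), (θ j ^ 2)⁻¹ ≤ 2 / δ ^ 2 := by
    apply sum_inv_sq_pos _ θ δ hδ
    · intro j hj
      rw [mem_filter] at hj
      have := habs j hj.1
      rwa [abs_of_pos hj.2] at this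
    · intro j hj k hk hne
      rw [mem_filter] at hj hk
      exact hsep j hj.1 k hk.1 hne
  have hn : ∑ j ∈ (s.erase i).filter (fun j => ¬ 0 < θ j), (θ j ^ 2)⁻¹ ≤ 2 / δ ^ 2 := by
    have e2 : ∑ j ∈ (s.erase i).filter (fun j => ¬ 0 < θ j), (θ j ^ 2)⁻¹ =
        ∑ j ∈ (s.erase i).filter (fun j => ¬ 0 < θ j), ((- θ j) ^ 2)⁻¹ := by
      apply sum_congr rfl; intro j _; rw [neg_sq]
    rw [e2]
    apply sum_inv_sq_pos _ (fun j => - θ j) δ hδ
    · intro j hj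
      rw [mem_filter] at hj
      have := habs j hj.1
      rwa [abs_of_nonpos (not_lt.1 hj.2)] at this
    · intro j hj k hk hne
      rw [mem_filter] at hj hk
      have := hsep j hj.1 k hk.1 hne
      rw [show - θ j - - θ k = -(θ j - θ k) by ring, abs_neg]
      exact this
  calc _ ≤ 2 / δ ^ 2 + 2 / δ ^ 2 := add_le_add hp hn
    _ = 4 / δ ^ 2 := by ring

/-- Dual large sieve inequality. -/
lemma dual_sieve {ι : Type*} [DecidableEq ι] (s : Finset ι) (α : ι → ℝ) (δ : ℝ) (hδ : 0 < δ)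
    (hs : Sep s α δ) (N : ℕ) (hN : 0 < N) (c : ι → ℂ) :
    ∑ n ∈ range N, ‖∑ i ∈ s, c i * e (n * α i)‖ ^ 2 ≤
      (4 * N + 1 / (N * δ ^ 2)) * ∑ i ∈ s, ‖c i‖ ^ 2 := by
  set g : ℝ → ℂ := fun x => ∑ i ∈ s, c i * e (x * α i) with hg
  -- lower bound
  have h1 : (N : ℝ) * ∑ n ∈ range N, ‖g n‖ ^ 2 ≤
      ∑ u ∈ range (2 * N), ∑ v ∈ range (2 * N), ‖g ((u : ℝ) - v)‖ ^ 2 := by
    have e1 : (N : ℝ) * ∑ n ∈ range N, ‖g n‖ ^ 2 =
        ∑ p ∈ range N ×ˢ range N, ‖g (((p.1 + p.2 : ℕ) : ℝ) - (p.1 : ℝ))‖ ^ 2 := by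
      rw [sum_product]
      simp only [Nat.cast_add, add_sub_cancel_left, sum_const, card_range, nsmul_eq_mul]
    rw [e1, ← sum_product']
    have e2 : ∑ p ∈ range N ×ˢ range N, ‖g (((p.1 + p.2 : ℕ) : ℝ) - (p.1 : ℝ))‖ ^ 2 =
        ∑ q ∈ (range N ×ˢ range N).image (fun p : ℕ × ℕ => (p.1 + p.2, p.1)),
          ‖g ((q.1 : ℝ) - q.2)‖ ^ 2 := by
      rw [sum_image]
      rintro ⟨a, b⟩ _ ⟨a', b'⟩ _ h
      simp only [Prod.mk.injEq] at h ⊢
      omega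
    rw [e2]
    apply sum_le_sum_of_subset_of_nonneg
    · intro q hq
      rw [mem_image] at hq
      obtain ⟨⟨a, b⟩, hp, rfl⟩ := hq
      simp only [mem_product, mem_range] at hp ⊢
      omega
    · intros; positivity
  -- expansion
  have h2 : ((∑ u ∈ range (2 * N), ∑ v ∈ range (2 * N), ‖g ((u : ℝ) - v)‖ ^ 2 : ℝ) : ℂ) =
      ∑ i ∈ s, ∑ j ∈ s, c i * (starRingEnd ℂ) (c j) *
        ((‖D (2 * N) (α i - α j)‖ ^ 2 : ℝ) : ℂ) := by
    have key : ∀ u v : ℕ, ((‖g ((u : ℝ) - v)‖ ^ 2 : ℝ) : ℂ) =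
        ∑ i ∈ s, ∑ j ∈ s, c i * (starRingEnd ℂ) (c j) *
          (e (u * (α i - α j)) * (starRingEnd ℂ) (e (v * (α i - α j)))) := by
      intro u v
      rw [Complex.ofReal_pow, ← Complex.mul_conj', hg]
      simp only [map_sum, map_mul]
      rw [sum_mul_sum]
      apply sum_congr rfl; intro i _
      apply sum_congr rfl; intro j _
      rw [conj_e, conj_e]
      have : e (((u : ℝ) - v) * α i) * e (-(((u : ℝ) - v) * α j)) =
          e (u * (α i - α j)) * e (-(v * (α i - α j))) := by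
        rw [← e_add, ← e_add]; congr 1; ring
      linear_combination (c i * (starRingEnd ℂ) (c j)) * this
    push_cast
    calc ∑ u ∈ range (2 * N), ∑ v ∈ range (2 * N), ((‖g ((u : ℝ) - v)‖ : ℂ)) ^ 2
        = ∑ u ∈ range (2 * N), ∑ v ∈ range (2 * N), ∑ i ∈ s, ∑ j ∈ s,
          c i * (starRingEnd ℂ) (c j) *
          (e (u * (α i - α j)) * (starRingEnd ℂ) (e (v * (α i - α j)))) := by
          apply sum_congr rfl; intro u _
          apply sum_congr rfl; intro v _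
          have := key u v
          push_cast at this
          exact this
      _ = ∑ i ∈ s, ∑ j ∈ s, ∑ u ∈ range (2 * N), ∑ v ∈ range (2 * N),
          c i * (starRingEnd ℂ) (c j) *
          (e (u * (α i - α j)) * (starRingEnd ℂ) (e (v * (α i - α j)))) := by
          calc _ = ∑ u ∈ range (2 * N), ∑ i ∈ s, ∑ v ∈ range (2 * N), ∑ j ∈ s,
                c i * (starRingEnd ℂ) (c j) *
                (e (u * (α i - α j)) * (starRingEnd ℂ) (e (v * (α i - α j)))) := by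
                apply sum_congr rfl; intro u _; rw [sum_comm]
            _ = ∑ u ∈ range (2 * N), ∑ i ∈ s, ∑ j ∈ s, ∑ v ∈ range (2 * N),
                c i * (starRingEnd ℂ) (c j) *
                (e (u * (α i - α j)) * (starRingEnd ℂ) (e (v * (α i - α j)))) := by
                apply sum_congr rfl; intro u _; apply sum_congr rfl; intro i _; rw [sum_comm]
            _ = ∑ i ∈ s, ∑ u ∈ range (2 * N), ∑ j ∈ s, ∑ v ∈ range (2 * N),
                c i * (starRingEnd ℂ) (c j) *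
                (e (u * (α i - α j)) * (starRingEnd ℂ) (e (v * (α i - α j)))) := by
                rw [sum_comm]
            _ = _ := by
                apply sum_congr rfl; intro i _; rw [sum_comm]
      _ = _ := by
          apply sum_congr rfl; intro i _
          apply sum_congr rfl; intro j _
          rw [← Complex.mul_conj']
          unfold D
          rw [map_sum, sum_mul_sum, mul_sum]
          apply sum_congr rfl; intro u _
          rw [mul_sum]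
  -- upper bound
  have h3 : ∑ u ∈ range (2 * N), ∑ v ∈ range (2 * N), ‖g ((u : ℝ) - v)‖ ^ 2 ≤
      ∑ i ∈ s, ∑ j ∈ s, ‖c i‖ * ‖c j‖ * ‖D (2 * N) (α i - α j)‖ ^ 2 := by
    have hnonneg : 0 ≤ ∑ u ∈ range (2 * N), ∑ v ∈ range (2 * N), ‖g ((u : ℝ) - v)‖ ^ 2 := by
      positivity
    calc ∑ u ∈ range (2 * N), ∑ v ∈ range (2 * N), ‖g ((u : ℝ) - v)‖ ^ 2
        = ‖((∑ u ∈ range (2 * N), ∑ v ∈ range (2 * N), ‖g ((u : ℝ) - v)‖ ^ 2 : ℝ) : ℂ)‖ := by
          rw [Complex.norm_real, norm_eq_abs, abs_of_nonneg hnonneg]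
      _ = ‖∑ i ∈ s, ∑ j ∈ s, c i * (starRingEnd ℂ) (c j) *
            ((‖D (2 * N) (α i - α j)‖ ^ 2 : ℝ) : ℂ)‖ := by rw [h2]
      _ ≤ ∑ i ∈ s, ‖∑ j ∈ s, c i * (starRingEnd ℂ) (c j) *
            ((‖D (2 * N) (α i - α j)‖ ^ 2 : ℝ) : ℂ)‖ := norm_sum_le _ _
      _ ≤ ∑ i ∈ s, ∑ j ∈ s, ‖c i * (starRingEnd ℂ) (c j) *
            ((‖D (2 * N) (α i - α j)‖ ^ 2 : ℝ) : ℂ)‖ := by
          apply sum_le_sum; intro i _; exact norm_sum_le _ _
      _ = _ := by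
          apply sum_congr rfl; intro i _
          apply sum_congr rfl; intro j _
          rw [norm_mul, norm_mul, Complex.norm_real, RCLike.norm_conj, norm_eq_abs,
            abs_of_nonneg (by positivity)]
  have hDsymm : ∀ i j, ‖D (2 * N) (α i - α j)‖ = ‖D (2 * N) (α j - α i)‖ := by
    intro i j
    have : D (2 * N) (α j - α i) = (starRingEnd ℂ) (D (2 * N) (α i - α j)) := by
      unfold D
      rw [map_sum]
      apply sum_congr rfl; intro u _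
      rw [conj_e]; congr 1; ring
    rw [this, RCLike.norm_conj]
  have h4 : ∑ i ∈ s, ∑ j ∈ s, ‖c i‖ * ‖c j‖ * ‖D (2 * N) (α i - α j)‖ ^ 2 ≤
      ∑ i ∈ s, ‖c i‖ ^ 2 * ∑ j ∈ s, ‖D (2 * N) (α i - α j)‖ ^ 2 := by
    have e1 : ∀ i ∈ s, ∀ j ∈ s, ‖c i‖ * ‖c j‖ * ‖D (2 * N) (α i - α j)‖ ^ 2 ≤
        (1 / 2) * (‖c i‖ ^ 2 * ‖D (2 * N) (α i - α j)‖ ^ 2) +
        (1 / 2) * (‖c j‖ ^ 2 * ‖D (2 * N) (α j - α i)‖ ^ 2) := by
      intro i _ j _
      rw [hDsymm j i]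
      nlinarith [mul_nonneg (sq_nonneg (‖c i‖ - ‖c j‖)) (sq_nonneg ‖D (2 * N) (α i - α j)‖)]
    calc _ ≤ ∑ i ∈ s, ∑ j ∈ s, ((1 / 2) * (‖c i‖ ^ 2 * ‖D (2 * N) (α i - α j)‖ ^ 2) +
        (1 / 2) * (‖c j‖ ^ 2 * ‖D (2 * N) (α j - α i)‖ ^ 2)) := by
          apply sum_le_sum; intro i hi; apply sum_le_sum; intro j hj; exact e1 i hi j hj
      _ = (1 / 2) * ∑ i ∈ s, ∑ j ∈ s, ‖c i‖ ^ 2 * ‖D (2 * N) (α i - α j)‖ ^ 2 +
          (1 / 2) * ∑ i ∈ s, ∑ j ∈ s, ‖c j‖ ^ 2 * ‖D (2 * N) (α j - α i)‖ ^ 2 := by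
          simp only [sum_add_distrib, mul_sum]
      _ = (1 / 2) * ∑ i ∈ s, ∑ j ∈ s, ‖c i‖ ^ 2 * ‖D (2 * N) (α i - α j)‖ ^ 2 +
          (1 / 2) * ∑ i ∈ s, ∑ j ∈ s, ‖c i‖ ^ 2 * ‖D (2 * N) (α i - α j)‖ ^ 2 := by
          congr 2
          rw [sum_comm]
      _ = ∑ i ∈ s, ‖c i‖ ^ 2 * ∑ j ∈ s, ‖D (2 * N) (α i - α j)‖ ^ 2 := by
          simp only [mul_sum]
          rw [← sum_add_distrib]
          apply sum_congr rfl; intro i _
          rw [← sum_add_distrib]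
          apply sum_congr rfl; intro j _
          ring
  have h5 : ∀ i ∈ s, ∑ j ∈ s, ‖D (2 * N) (α i - α j)‖ ^ 2 ≤ 4 * (N : ℝ) ^ 2 + 1 / δ ^ 2 := by
    intro i hi
    rw [← add_sum_erase s _ hi]
    apply add_le_add
    · have := norm_D_le (2 * N) (α i - α i)
      have h0 := norm_nonneg (D (2 * N) (α i - α i))
      push_cast at this
      nlinarith
    · have hpos : ∀ j ∈ s.erase i, 0 < nn (α i - α j) := by
        intro j hj
        rw [mem_erase] at hj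
        have := hs i hi j hj.2 (Ne.symm hj.1) (round (α i - α j))
        exact lt_of_lt_of_le hδ this
      calc ∑ j ∈ s.erase i, ‖D (2 * N) (α i - α j)‖ ^ 2
          ≤ ∑ j ∈ s.erase i, (1 / 4) * (nn (α i - α j) ^ 2)⁻¹ := by
            apply sum_le_sum; intro j hj
            have := norm_D_sq_le (2 * N) (α i - α j) (hpos j hj)
            calc _ ≤ 1 / (4 * nn (α i - α j) ^ 2) := this
              _ = _ := by ring
        _ = (1 / 4) * ∑ j ∈ s.erase i, (nn (α i - α j) ^ 2)⁻¹ := by rw [mul_sum]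
        _ ≤ (1 / 4) * (4 / δ ^ 2) := by
            gcongr
            exact sum_nn_sq s α δ hδ hs i hi
        _ = 1 / δ ^ 2 := by ring
  have h6 : (N : ℝ) * ∑ n ∈ range N, ‖g n‖ ^ 2 ≤
      (4 * (N : ℝ) ^ 2 + 1 / δ ^ 2) * ∑ i ∈ s, ‖c i‖ ^ 2 := by
    calc _ ≤ _ := h1
      _ ≤ _ := h3
      _ ≤ _ := h4
      _ ≤ ∑ i ∈ s, ‖c i‖ ^ 2 * (4 * (N : ℝ) ^ 2 + 1 / δ ^ 2) := by
          apply sum_le_sum; intro i hi
          have := h5 i hi
          gcongr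
      _ = _ := by rw [← sum_mul, mul_comm]
  have hN' : (0 : ℝ) < N := by exact_mod_cast hN
  have h7 : (4 * (N : ℝ) + 1 / (N * δ ^ 2)) * ∑ i ∈ s, ‖c i‖ ^ 2 =
      ((4 * (N : ℝ) ^ 2 + 1 / δ ^ 2) * ∑ i ∈ s, ‖c i‖ ^ 2) / N := by
    field_simp
  rw [h7, le_div_iff₀ hN', mul_comm]
  exact h6

/-- Dual large sieve, uniform version. -/
lemma dual_sieve' {ι : Type*} [DecidableEq ι] (s : Finset ι) (α : ι → ℝ) (δ : ℝ) (hδ : 0 < δ)
    (hδ1 : δ ≤ 1) (hs : Sep s α δ) (N : ℕ) (c : ι → ℂ) :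
    ∑ n ∈ range N, ‖∑ i ∈ s, c i * e (n * α i)‖ ^ 2 ≤ 9 * (N + 1 / δ) * ∑ i ∈ s, ‖c i‖ ^ 2 := by
  have hc : 0 ≤ ∑ i ∈ s, ‖c i‖ ^ 2 := by positivity
  rcases le_or_gt 1 (N * δ) with h | h
  · have hN : 0 < N := by
      rcases Nat.eq_zero_or_pos N with h0 | h0
      · rw [h0] at h; simp at h; linarith
      · exact h0
    have hN' : (0 : ℝ) < N := by exact_mod_cast hN
    refine (dual_sieve s α δ hδ hs N hN c).trans ?_
    gcongr
    have : 1 / (N * δ ^ 2) ≤ 1 / δ := by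
      rw [div_le_div_iff₀ (by positivity) hδ]
      nlinarith
    have h0 : 0 < 1 / δ := by positivity
    linarith
  · set M := ⌈1 / δ⌉₊ with hM
    have hM0 : 0 < M := Nat.ceil_pos.2 (by positivity)
    have hM' : (0 : ℝ) < M := by exact_mod_cast hM0
    have h1 : 1 / δ ≤ M := Nat.le_ceil _
    have h2 : (M : ℝ) < 1 / δ + 1 := Nat.ceil_lt_add_one (by positivity)
    have hNM : N ≤ M := by
      have : (N : ℝ) ≤ M := by
        have : (N : ℝ) < 1 / δ := by rw [lt_div_iff₀ hδ]; exact h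
        linarith
      exact_mod_cast this
    calc ∑ n ∈ range N, ‖∑ i ∈ s, c i * e (n * α i)‖ ^ 2
        ≤ ∑ n ∈ range M, ‖∑ i ∈ s, c i * e (n * α i)‖ ^ 2 := by
          apply sum_le_sum_of_subset_of_nonneg
          · exact range_subset_range.2 hNM
          · intros; positivity
      _ ≤ (4 * M + 1 / (M * δ ^ 2)) * ∑ i ∈ s, ‖c i‖ ^ 2 := dual_sieve s α δ hδ hs M hM0 c
      _ ≤ 9 * (N + 1 / δ) * ∑ i ∈ s, ‖c i‖ ^ 2 := by
          gcongr
          have h3 : 1 / (M * δ ^ 2) ≤ 1 / δ := by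
            rw [div_le_div_iff₀ (by positivity) hδ]
            have : 1 ≤ M * δ := by
              rw [div_le_iff₀ hδ] at h1; linarith
            nlinarith
          have h4 : (1 : ℝ) ≤ 1 / δ := by rw [le_div_iff₀ hδ]; linarith
          have h5 : (0 : ℝ) ≤ N := by positivity
          linarith

/-- Large sieve inequality. -/
theorem large_sieve {ι : Type*} [DecidableEq ι] (s : Finset ι) (α : ι → ℝ) (δ : ℝ) (hδ : 0 < δ)
    (hδ1 : δ ≤ 1) (hs : Sep s α δ) (N : ℕ) (x : ℕ → ℂ) :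
    ∑ i ∈ s, ‖∑ n ∈ range N, x n * e (n * α i)‖ ^ 2 ≤
      9 * (N + 1 / δ) * ∑ n ∈ range N, ‖x n‖ ^ 2 := by
  set y : ι → ℂ := fun i => ∑ n ∈ range N, x n * e (n * α i) with hy
  set Y := ∑ i ∈ s, ‖y i‖ ^ 2 with hY
  set B := 9 * ((N : ℝ) + 1 / δ) with hB
  have hB0 : 0 ≤ B := by positivity
  have hY0 : 0 ≤ Y := by positivity
  have h1 : (Y : ℂ) = ∑ n ∈ range N, x n * ∑ i ∈ s, (starRingEnd ℂ) (y i) * e (n * α i) := by
    rw [hY]
    push_cast
    calc ∑ i ∈ s, (‖y i‖ : ℂ) ^ 2 = ∑ i ∈ s, y i * (starRingEnd ℂ) (y i) := by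
          apply sum_congr rfl; intro i _; rw [Complex.mul_conj']
      _ = ∑ i ∈ s, ∑ n ∈ range N, x n * e (n * α i) * (starRingEnd ℂ) (y i) := by
          apply sum_congr rfl; intro i _
          rw [← sum_mul]
      _ = _ := by
          rw [sum_comm]
          apply sum_congr rfl; intro n _
          rw [mul_sum]
          apply sum_congr rfl; intro i _
          ring
  have h2 : Y ^ 2 ≤ (∑ n ∈ range N, ‖x n‖ ^ 2) * (B * Y) := by
    have e1 : Y = ‖(Y : ℂ)‖ := by rw [Complex.norm_real, norm_eq_abs, abs_of_nonneg hY0]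
    have e2 : Y ≤ ∑ n ∈ range N, ‖x n‖ * ‖∑ i ∈ s, (starRingEnd ℂ) (y i) * e (n * α i)‖ := by
      conv_lhs => rw [e1, h1]
      refine (norm_sum_le _ _).trans ?_
      apply sum_le_sum; intro n _; rw [norm_mul]
    calc Y ^ 2 ≤ (∑ n ∈ range N, ‖x n‖ * ‖∑ i ∈ s, (starRingEnd ℂ) (y i) * e (n * α i)‖) ^ 2 := by
          gcongr
      _ ≤ (∑ n ∈ range N, ‖x n‖ ^ 2) *
          ∑ n ∈ range N, ‖∑ i ∈ s, (starRingEnd ℂ) (y i) * e (n * α i)‖ ^ 2 :=
          sum_mul_sq_le_sq_mul_sq _ _ _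
      _ ≤ (∑ n ∈ range N, ‖x n‖ ^ 2) * (B * Y) := by
          gcongr
          have := dual_sieve' s α δ hδ hδ1 hs N (fun i => (starRingEnd ℂ) (y i))
          simp only [RCLike.norm_conj] at this
          exact this
  rcases eq_or_lt_of_le hY0 with h | h
  · rw [← h]; positivity
  · have : Y * Y ≤ (B * ∑ n ∈ range N, ‖x n‖ ^ 2) * Y := by nlinarith
    exact le_of_mul_le_mul_right this h

end Pool.Agent.Lib.MP_2a816b_nt
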