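import Mathlib
import Pool.Agent.Lib.MP_2a816b_nt.LargeSieve

/-!
# The large sieve with a sharp main term
-/

open Finset Real

namespace Pool.Agent.Lib.MP_2a816b_nt

/-- Dual large sieve inequality with a free smoothing length `K`. -/
lemma dual_sieve_sharp {ι : Type*} [DecidableEq ι] (s : Finset ι) (α : ι → ℝ) (δ : ℝ) (hδ : 0 < δ)
    (hs : Sep s α δ) (N K : ℕ) (hK : 0 < K) (c : ι → ℂ) :
    ∑ n ∈ range N, ‖∑ i ∈ s, c i * e (n * α i)‖ ^ 2 ≤
      (N + K + 1 / (K * δ ^ 2)) * ∑ i ∈ s, ‖c i‖ ^ 2 := by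
  set g : ℝ → ℂ := fun x => ∑ i ∈ s, c i * e (x * α i) with hg
  -- lower bound
  have h1 : (K : ℝ) * ∑ n ∈ range N, ‖g n‖ ^ 2 ≤
      ∑ u ∈ range (N + K), ∑ v ∈ range K, ‖g ((u : ℝ) - v)‖ ^ 2 := by
    have e1 : (K : ℝ) * ∑ n ∈ range N, ‖g n‖ ^ 2 =
        ∑ p ∈ range K ×ˢ range N, ‖g (((p.1 + p.2 : ℕ) : ℝ) - (p.1 : ℝ))‖ ^ 2 := by
      rw [sum_product]
      simp only [Nat.cast_add, add_sub_cancel_left, sum_const, card_range, nsmul_eq_mul]
    rw [e1, ← sum_product']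
    have e2 : ∑ p ∈ range K ×ˢ range N, ‖g (((p.1 + p.2 : ℕ) : ℝ) - (p.1 : ℝ))‖ ^ 2 =
        ∑ q ∈ (range K ×ˢ range N).image (fun p : ℕ × ℕ => (p.1 + p.2, p.1)),
          ‖g ((q.1 : ℝ) - q.2)‖ ^ 2 := by
      rw [sum_image]
      rintro ⟨a, b⟩ _ ⟨a', b'⟩ _ h
      simp only [Prod.mk.injEq] at h ⊢
      omega
    rw [e2]
    apply sum_le_sum_of_subset_of_nonneg
    · intro q hq
      rw [mem_image] at hq
      obtain ⟨⟨a, b⟩, hp, rfl⟩ := hq
      simp only [mem_product, mem_range] at hp ⊢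
      omega
    · intros; positivity
  -- expansion
  have h2 : ((∑ u ∈ range (N + K), ∑ v ∈ range K, ‖g ((u : ℝ) - v)‖ ^ 2 : ℝ) : ℂ) =
      ∑ i ∈ s, ∑ j ∈ s, c i * (starRingEnd ℂ) (c j) *
        (D (N + K) (α i - α j) * (starRingEnd ℂ) (D K (α i - α j))) := by
    have key : ∀ u v : ℕ, ((‖g ((u : ℝ) - v)‖ ^ 2 : ℝ) : ℂ) =
        ∑ i ∈ s, ∑ j ∈ s, c i * (starRingEnd ℂ) (c j) *
          (e (u * (α i - α j)) * (starRingEnd ℂ) (e (v * (α i - α j)))) := by
      intro u v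
      rw [Complex.ofReal_pow, ← Complex.mul_conj', hg]
      simp only [map_sum, map_mul]
      rw [sum_mul_sum]
      apply sum_congr rfl; intro i _
      apply sum_congr rfl; intro j _
      rw [conj_e, conj_e]
      have : e (((u : ℝ) - v) * α i) * e (-(((u : ℝ) - v) * α j)) =
          e (u * (α i - α j)) * e (-(v * (α i - α j))) := by
        rw [← e_add, ← e_add]; congr 1; ring
      linear_combination (c i * (starRingEnd ℂ) (c j)) * this
    push_cast
    calc ∑ u ∈ range (N + K), ∑ v ∈ range K, ((‖g ((u : ℝ) - v)‖ : ℂ)) ^ 2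
        = ∑ u ∈ range (N + K), ∑ v ∈ range K, ∑ i ∈ s, ∑ j ∈ s,
          c i * (starRingEnd ℂ) (c j) *
          (e (u * (α i - α j)) * (starRingEnd ℂ) (e (v * (α i - α j)))) := by
          apply sum_congr rfl; intro u _
          apply sum_congr rfl; intro v _
          have := key u v
          push_cast at this
          exact this
      _ = ∑ i ∈ s, ∑ j ∈ s, ∑ u ∈ range (N + K), ∑ v ∈ range K,
          c i * (starRingEnd ℂ) (c j) *
          (e (u * (α i - α j)) * (starRingEnd ℂ) (e (v * (α i - α j)))) := by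
          calc _ = ∑ u ∈ range (N + K), ∑ i ∈ s, ∑ v ∈ range K, ∑ j ∈ s,
                c i * (starRingEnd ℂ) (c j) *
                (e (u * (α i - α j)) * (starRingEnd ℂ) (e (v * (α i - α j)))) := by
                apply sum_congr rfl; intro u _; rw [sum_comm]
            _ = ∑ u ∈ range (N + K), ∑ i ∈ s, ∑ j ∈ s, ∑ v ∈ range K,
                c i * (starRingEnd ℂ) (c j) *
                (e (u * (α i - α j)) * (starRingEnd ℂ) (e (v * (α i - α j)))) := by
                apply sum_congr rfl; intro u _; apply sum_congr rfl; intro i _; rw [sum_comm]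
            _ = ∑ i ∈ s, ∑ u ∈ range (N + K), ∑ j ∈ s, ∑ v ∈ range K,
                c i * (starRingEnd ℂ) (c j) *
                (e (u * (α i - α j)) * (starRingEnd ℂ) (e (v * (α i - α j)))) := by
                rw [sum_comm]
            _ = _ := by
                apply sum_congr rfl; intro i _; rw [sum_comm]
      _ = _ := by
          apply sum_congr rfl; intro i _
          apply sum_congr rfl; intro j _
          unfold D
          rw [map_sum, sum_mul_sum, mul_sum]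
          apply sum_congr rfl; intro u _
          rw [mul_sum]
  set w : ℝ → ℝ := fun x => ‖D (N + K) x‖ * ‖D K x‖ with hw
  have hw0 : ∀ x, 0 ≤ w x := fun x => by simp only [hw]; positivity
  -- upper bound
  have h3 : ∑ u ∈ range (N + K), ∑ v ∈ range K, ‖g ((u : ℝ) - v)‖ ^ 2 ≤
      ∑ i ∈ s, ∑ j ∈ s, ‖c i‖ * ‖c j‖ * w (α i - α j) := by
    have hnonneg : 0 ≤ ∑ u ∈ range (N + K), ∑ v ∈ range K, ‖g ((u : ℝ) - v)‖ ^ 2 := by
      positivity
    calc ∑ u ∈ range (N + K), ∑ v ∈ range K, ‖g ((u : ℝ) - v)‖ ^ 2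
        = ‖((∑ u ∈ range (N + K), ∑ v ∈ range K, ‖g ((u : ℝ) - v)‖ ^ 2 : ℝ) : ℂ)‖ := by
          rw [Complex.norm_real, norm_eq_abs, abs_of_nonneg hnonneg]
      _ = ‖∑ i ∈ s, ∑ j ∈ s, c i * (starRingEnd ℂ) (c j) *
            (D (N + K) (α i - α j) * (starRingEnd ℂ) (D K (α i - α j)))‖ := by rw [h2]
      _ ≤ ∑ i ∈ s, ‖∑ j ∈ s, c i * (starRingEnd ℂ) (c j) *
            (D (N + K) (α i - α j) * (starRingEnd ℂ) (D K (α i - α j)))‖ := norm_sum_le _ _
      _ ≤ ∑ i ∈ s, ∑ j ∈ s, ‖c i * (starRingEnd ℂ) (c j) *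
            (D (N + K) (α i - α j) * (starRingEnd ℂ) (D K (α i - α j)))‖ := by
          apply sum_le_sum; intro i _; exact norm_sum_le _ _
      _ = _ := by
          apply sum_congr rfl; intro i _
          apply sum_congr rfl; intro j _
          rw [norm_mul, norm_mul, norm_mul, RCLike.norm_conj, RCLike.norm_conj]
  have hsymm1 : ∀ (L : ℕ) (x : ℝ), ‖D L (-x)‖ = ‖D L x‖ := by
    intro L x
    have : D L (-x) = (starRingEnd ℂ) (D L x) := by
      unfold D
      rw [map_sum]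
      apply sum_congr rfl; intro u _
      rw [conj_e]; congr 1; ring
    rw [this, RCLike.norm_conj]
  have hwsymm : ∀ i j, w (α i - α j) = w (α j - α i) := by
    intro i j
    have : α i - α j = -(α j - α i) := by ring
    simp only [hw]
    rw [this, hsymm1, hsymm1]
  have h4 : ∑ i ∈ s, ∑ j ∈ s, ‖c i‖ * ‖c j‖ * w (α i - α j) ≤
      ∑ i ∈ s, ‖c i‖ ^ 2 * ∑ j ∈ s, w (α i - α j) := by
    have e1 : ∀ i ∈ s, ∀ j ∈ s, ‖c i‖ * ‖c j‖ * w (α i - α j) ≤
        (1 / 2) * (‖c i‖ ^ 2 * w (α i - α j)) + (1 / 2) * (‖c j‖ ^ 2 * w (α j - α i)) := by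
      intro i _ j _
      rw [hwsymm j i]
      nlinarith [mul_nonneg (sq_nonneg (‖c i‖ - ‖c j‖)) (hw0 (α i - α j))]
    calc _ ≤ ∑ i ∈ s, ∑ j ∈ s, ((1 / 2) * (‖c i‖ ^ 2 * w (α i - α j)) +
        (1 / 2) * (‖c j‖ ^ 2 * w (α j - α i))) := by
          apply sum_le_sum; intro i hi; apply sum_le_sum; intro j hj; exact e1 i hi j hj
      _ = (1 / 2) * ∑ i ∈ s, ∑ j ∈ s, ‖c i‖ ^ 2 * w (α i - α j) +
          (1 / 2) * ∑ i ∈ s, ∑ j ∈ s, ‖c j‖ ^ 2 * w (α j - α i) := by
          simp only [sum_add_distrib, mul_sum]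
      _ = (1 / 2) * ∑ i ∈ s, ∑ j ∈ s, ‖c i‖ ^ 2 * w (α i - α j) +
          (1 / 2) * ∑ i ∈ s, ∑ j ∈ s, ‖c i‖ ^ 2 * w (α i - α j) := by
          congr 2
          rw [sum_comm]
      _ = ∑ i ∈ s, ‖c i‖ ^ 2 * ∑ j ∈ s, w (α i - α j) := by
          simp only [mul_sum]
          rw [← sum_add_distrib]
          apply sum_congr rfl; intro i _
          rw [← sum_add_distrib]
          apply sum_congr rfl; intro j _
          ring
  have h5 : ∀ i ∈ s, ∑ j ∈ s, w (α i - α j) ≤ (N + K) * K + 1 / δ ^ 2 := by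
    intro i hi
    rw [← add_sum_erase s _ hi]
    apply add_le_add
    · simp only [hw]
      have a1 := norm_D_le (N + K) (α i - α i)
      have a2 := norm_D_le K (α i - α i)
      push_cast at a1
      gcongr
    · have hpos : ∀ j ∈ s.erase i, 0 < nn (α i - α j) := by
        intro j hj
        rw [mem_erase] at hj
        have := hs i hi j hj.2 (Ne.symm hj.1) (round (α i - α j))
        exact lt_of_lt_of_le hδ this
      calc ∑ j ∈ s.erase i, w (α i - α j)
          ≤ ∑ j ∈ s.erase i, (1 / 4) * (nn (α i - α j) ^ 2)⁻¹ := by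
            apply sum_le_sum; intro j hj
            have hp := hpos j hj
            have a1 := norm_D_mul_nn (N + K) (α i - α j)
            have a2 := norm_D_mul_nn K (α i - α j)
            have a3 : ‖D (N + K) (α i - α j)‖ ≤ 1 / (2 * nn (α i - α j)) := by
              rw [le_div_iff₀ (by positivity)]; exact a1
            have a4 : ‖D K (α i - α j)‖ ≤ 1 / (2 * nn (α i - α j)) := by
              rw [le_div_iff₀ (by positivity)]; exact a2
            simp only [hw]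
            calc ‖D (N + K) (α i - α j)‖ * ‖D K (α i - α j)‖
                ≤ (1 / (2 * nn (α i - α j))) * (1 / (2 * nn (α i - α j))) := by gcongr
              _ = _ := by field_simp; norm_num
        _ = (1 / 4) * ∑ j ∈ s.erase i, (nn (α i - α j) ^ 2)⁻¹ := by rw [mul_sum]
        _ ≤ (1 / 4) * (4 / δ ^ 2) := by
            gcongr
            exact sum_nn_sq s α δ hδ hs i hi
        _ = 1 / δ ^ 2 := by ring
  have h6 : (K : ℝ) * ∑ n ∈ range N, ‖g n‖ ^ 2 ≤
      ((N + K) * K + 1 / δ ^ 2) * ∑ i ∈ s, ‖c i‖ ^ 2 := by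
    calc _ ≤ _ := h1
      _ ≤ _ := h3
      _ ≤ _ := h4
      _ ≤ ∑ i ∈ s, ‖c i‖ ^ 2 * ((N + K) * K + 1 / δ ^ 2) := by
          apply sum_le_sum; intro i hi
          have := h5 i hi
          gcongr
      _ = _ := by rw [← sum_mul, mul_comm]
  have hK' : (0 : ℝ) < K := by exact_mod_cast hK
  have h7 : ((N : ℝ) + K + 1 / (K * δ ^ 2)) * ∑ i ∈ s, ‖c i‖ ^ 2 =
      (((N + K) * K + 1 / δ ^ 2) * ∑ i ∈ s, ‖c i‖ ^ 2) / K := by
    field_simp
  rw [h7, le_div_iff₀ hK', mul_comm]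
  exact h6

/-- Large sieve inequality with a free smoothing length. -/
theorem large_sieve_sharp {ι : Type*} [DecidableEq ι] (s : Finset ι) (α : ι → ℝ) (δ : ℝ)
    (hδ : 0 < δ) (hs : Sep s α δ) (N K : ℕ) (hK : 0 < K) (x : ℕ → ℂ) :
    ∑ i ∈ s, ‖∑ n ∈ range N, x n * e (n * α i)‖ ^ 2 ≤
      (N + K + 1 / (K * δ ^ 2)) * ∑ n ∈ range N, ‖x n‖ ^ 2 := by
  set y : ι → ℂ := fun i => ∑ n ∈ range N, x n * e (n * α i) with hy
  set Y := ∑ i ∈ s, ‖y i‖ ^ 2 with hY
  set B := (N : ℝ) + K + 1 / (K * δ ^ 2) with hB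
  have hB0 : 0 ≤ B := by positivity
  have hY0 : 0 ≤ Y := by positivity
  have h1 : (Y : ℂ) = ∑ n ∈ range N, x n * ∑ i ∈ s, (starRingEnd ℂ) (y i) * e (n * α i) := by
    rw [hY]
    push_cast
    calc ∑ i ∈ s, (‖y i‖ : ℂ) ^ 2 = ∑ i ∈ s, y i * (starRingEnd ℂ) (y i) := by
          apply sum_congr rfl; intro i _; rw [Complex.mul_conj']
      _ = ∑ i ∈ s, ∑ n ∈ range N, x n * e (n * α i) * (starRingEnd ℂ) (y i) := by
          apply sum_congr rfl; intro i _
          rw [← sum_mul]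
      _ = _ := by
          rw [sum_comm]
          apply sum_congr rfl; intro n _
          rw [mul_sum]
          apply sum_congr rfl; intro i _
          ring
  have h2 : Y ^ 2 ≤ (∑ n ∈ range N, ‖x n‖ ^ 2) * (B * Y) := by
    have e1 : Y = ‖(Y : ℂ)‖ := by rw [Complex.norm_real, norm_eq_abs, abs_of_nonneg hY0]
    have e2 : Y ≤ ∑ n ∈ range N, ‖x n‖ * ‖∑ i ∈ s, (starRingEnd ℂ) (y i) * e (n * α i)‖ := by
      conv_lhs => rw [e1, h1]
      refine (norm_sum_le _ _).trans ?_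
      apply sum_le_sum; intro n _; rw [norm_mul]
    calc Y ^ 2 ≤ (∑ n ∈ range N, ‖x n‖ * ‖∑ i ∈ s, (starRingEnd ℂ) (y i) * e (n * α i)‖) ^ 2 := by
          gcongr
      _ ≤ (∑ n ∈ range N, ‖x n‖ ^ 2) *
          ∑ n ∈ range N, ‖∑ i ∈ s, (starRingEnd ℂ) (y i) * e (n * α i)‖ ^ 2 :=
          sum_mul_sq_le_sq_mul_sq _ _ _
      _ ≤ (∑ n ∈ range N, ‖x n‖ ^ 2) * (B * Y) := by
          gcongr
          have := dual_sieve_sharp s α δ hδ hs N K hK (fun i => (starRingEnd ℂ) (y i))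
          simp only [RCLike.norm_conj] at this
          exact this
  rcases eq_or_lt_of_le hY0 with h | h
  · rw [← h]; positivity
  · have : Y * Y ≤ (B * ∑ n ∈ range N, ‖x n‖ ^ 2) * Y := by nlinarith
    exact le_of_mul_le_mul_right this h

end Pool.Agent.Lib.MP_2a816b_nt
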