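import Mathlib
import Pool.Agent.Lib.MP_2a816b_nt.Expo

/-!
# Bilinear forms modulo a prime
-/

open Finset Real

namespace Pool.Agent.Lib.MP_2a816b_nt

/-- the standard additive character of `ZMod q` -/
noncomputable def ps (q : ℕ) [NeZero q] (u : ZMod q) : ℂ := ZMod.stdAddChar u

section basics
variable (q : ℕ) [NeZero q]

lemma ps_natCast (n : ℕ) : ps q (n : ZMod q) = e (n / q) := by
  unfold ps e
  have := ZMod.stdAddChar_coe (N := q) (n : ℤ)
  rw [Int.cast_natCast] at this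
  rw [this]
  congr 1
  push_cast
  ring

lemma ps_intCast (n : ℤ) : ps q (n : ZMod q) = e (n / q) := by
  unfold ps e
  rw [ZMod.stdAddChar_coe]
  congr 1
  push_cast
  ring

lemma ps_zero : ps q 0 = 1 := by unfold ps; exact AddChar.map_zero_eq_one _

lemma ps_add (a b : ZMod q) : ps q (a + b) = ps q a * ps q b := by
  unfold ps; exact AddChar.map_add_eq_mul _ _ _

lemma norm_ps (a : ZMod q) : ‖ps q a‖ = 1 := by
  have := ps_natCast q a.val
  rw [ZMod.natCast_zmod_val] at this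
  rw [this, norm_e]

lemma conj_ps (a : ZMod q) : (starRingEnd ℂ) (ps q a) = ps q (-a) := by
  have h1 : ps q a * ps q (-a) = 1 := by rw [← ps_add, add_neg_cancel, ps_zero]
  have h2 : (starRingEnd ℂ) (ps q a) * ps q a = 1 := by
    rw [mul_comm, Complex.mul_conj', norm_ps]; norm_num
  calc (starRingEnd ℂ) (ps q a) = (starRingEnd ℂ) (ps q a) * (ps q a * ps q (-a)) := by
        rw [h1, mul_one]
    _ = ((starRingEnd ℂ) (ps q a) * ps q a) * ps q (-a) := by ring
    _ = ps q (-a) := by rw [h2, one_mul]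

lemma sum_ps (b : ZMod q) : ∑ x : ZMod q, ps q (x * b) = if b = 0 then (q : ℂ) else 0 := by
  unfold ps
  have := AddChar.sum_mulShift (ψ := (ZMod.stdAddChar : AddChar (ZMod q) ℂ)) b
    (ZMod.isPrimitive_stdAddChar q)
  rw [ZMod.card] at this
  rw [this]
  split_ifs <;> simp

/-- Parseval modulo `q`. -/
lemma parseval (y : ZMod q → ℂ) :
    ∑ a : ZMod q, ‖∑ d : ZMod q, y d * ps q (a * d)‖ ^ 2 = q * ∑ d : ZMod q, ‖y d‖ ^ 2 := by
  have key : ((∑ a : ZMod q, ‖∑ d : ZMod q, y d * ps q (a * d)‖ ^ 2 : ℝ) : ℂ) =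
      ((q * ∑ d : ZMod q, ‖y d‖ ^ 2 : ℝ) : ℂ) := by
    push_cast
    have h1 : ∀ a : ZMod q, ((‖∑ d : ZMod q, y d * ps q (a * d)‖ : ℂ)) ^ 2 =
        ∑ d : ZMod q, ∑ d' : ZMod q, y d * (starRingEnd ℂ) (y d') * ps q (a * (d - d')) := by
      intro a
      rw [← Complex.mul_conj', map_sum, sum_mul_sum]
      apply sum_congr rfl; intro d _
      apply sum_congr rfl; intro d' _
      rw [map_mul, conj_ps]
      have : ps q (a * (d - d')) = ps q (a * d) * ps q (-(a * d')) := by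
        rw [← ps_add]; congr 1; ring
      rw [this]; ring
    simp_rw [h1]
    rw [sum_comm, mul_sum]
    apply sum_congr rfl; intro d _
    rw [sum_comm]
    have h2 : ∀ d' : ZMod q, ∑ a : ZMod q, y d * (starRingEnd ℂ) (y d') * ps q (a * (d - d')) =
        if d = d' then (q : ℂ) * (‖y d‖ : ℂ) ^ 2 else 0 := by
      intro d'
      rw [← mul_sum, sum_ps]
      by_cases h : d = d'
      · subst h
        rw [sub_self, if_pos rfl, if_pos rfl, Complex.mul_conj', mul_comm]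
      · rw [if_neg (sub_ne_zero.2 h), if_neg h, mul_zero]
    simp_rw [h2]
    rw [sum_ite_eq]
    simp
  exact_mod_cast key

/-- operator norm of the DFT matrix -/
lemma dft_bound (x y : ZMod q → ℂ) (a : ZMod q) (ha : IsUnit a) :
    ‖∑ c : ZMod q, ∑ d : ZMod q, x c * y d * ps q (a * (c * d))‖ ≤
      √q * (√(∑ c : ZMod q, ‖x c‖ ^ 2) * √(∑ c : ZMod q, ‖y c‖ ^ 2)) := by
  have h1 : ∑ c : ZMod q, ∑ d : ZMod q, x c * y d * ps q (a * (c * d)) =
      ∑ c : ZMod q, x c * ∑ d : ZMod q, y d * ps q ((a * c) * d) := by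
    apply sum_congr rfl; intro c _
    rw [mul_sum]
    apply sum_congr rfl; intro d _
    rw [show a * (c * d) = a * c * d by ring]; ring
  have h2 : ∑ c : ZMod q, ‖∑ d : ZMod q, y d * ps q ((a * c) * d)‖ ^ 2 =
      q * ∑ d : ZMod q, ‖y d‖ ^ 2 := by
    rw [← parseval]
    obtain ⟨u, rfl⟩ := ha
    exact Fintype.sum_equiv (Units.mulLeft u) _ _ (fun c => rfl)
  rw [h1]
  have h3 : ‖∑ c : ZMod q, x c * ∑ d : ZMod q, y d * ps q ((a * c) * d)‖ ≤
      ∑ c : ZMod q, ‖x c‖ * ‖∑ d : ZMod q, y d * ps q ((a * c) * d)‖ := by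
    refine (norm_sum_le _ _).trans ?_
    apply sum_le_sum; intro c _; rw [norm_mul]
  have h4 : (∑ c : ZMod q, ‖x c‖ * ‖∑ d : ZMod q, y d * ps q ((a * c) * d)‖) ≤
      √(∑ c : ZMod q, ‖x c‖ ^ 2) *
        √(∑ c : ZMod q, ‖∑ d : ZMod q, y d * ps q ((a * c) * d)‖ ^ 2) :=
    sum_mul_le_sqrt_mul_sqrt _ _ _
  rw [h2, sqrt_mul (by positivity)] at h4
  calc _ ≤ _ := h3
    _ ≤ _ := h4
    _ = _ := by ring

end basics

section prime
variable (q : ℕ) [Fact q.Prime]

/-- the kernel -/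
noncomputable def kap (a u : ZMod q) : ℂ := if u = 0 then 0 else ps q (a * u) + 1 / ((q : ℂ) - 1)

lemma one_lt_q : (1 : ℝ) < q := by exact_mod_cast (Fact.out : q.Prime).one_lt

lemma norm_kap_le (a u : ZMod q) : ‖kap q a u‖ ≤ 2 := by
  unfold kap
  split_ifs with h
  · simp
  · have h1 := one_lt_q q
    have h2 : (2 : ℝ) ≤ q := by exact_mod_cast (Fact.out : q.Prime).two_le
    have h3 : ‖(1 : ℂ) / ((q : ℂ) - 1)‖ ≤ 1 := by
      have : ((q : ℂ) - 1) = ((q - 1 : ℝ) : ℂ) := by push_cast; ring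
      rw [norm_div, this, Complex.norm_real, norm_one, norm_eq_abs, abs_of_pos (by linarith),
        div_le_one (by linarith)]
      linarith
    calc _ ≤ ‖ps q (a * u)‖ + ‖(1 : ℂ) / ((q : ℂ) - 1)‖ := norm_add_le _ _
      _ ≤ 1 + 1 := by rw [norm_ps]; gcongr
      _ = 2 := by norm_num

lemma kap_zero (a : ZMod q) : kap q a 0 = 0 := by simp [kap]

lemma q_sub_one_ne : ((q : ℂ) - 1) ≠ 0 := by
  have h1 := one_lt_q q
  have : ((q : ℂ) - 1) = ((q - 1 : ℝ) : ℂ) := by push_cast; ring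
  rw [this]
  exact_mod_cast (by linarith : (q : ℝ) - 1 ≠ 0)

lemma sum_kap (a : ZMod q) (ha : a ≠ 0) : ∑ u : ZMod q, kap q a u = 0 := by
  unfold kap
  rw [← add_sum_erase univ _ (mem_univ (0 : ZMod q))]
  rw [if_pos rfl, zero_add]
  have h1 : ∀ u ∈ univ.erase (0 : ZMod q), (if u = 0 then 0 else ps q (a * u) + 1 / ((q : ℂ) - 1)) =
      ps q (u * a) + 1 / ((q : ℂ) - 1) := by
    intro u hu
    rw [mem_erase] at hu
    rw [if_neg hu.1, mul_comm a u]
  rw [sum_congr rfl h1, sum_add_distrib, sum_const, card_erase_of_mem (mem_univ _), card_univ,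
    ZMod.card]
  have h2 := sum_ps q a
  rw [if_neg ha, ← add_sum_erase univ _ (mem_univ (0 : ZMod q)), zero_mul, ps_zero] at h2
  have h3 : ∑ u ∈ univ.erase (0 : ZMod q), ps q (u * a) = -1 := by
    linear_combination h2
  have h4 : ((q - 1 : ℕ) : ℂ) = (q : ℂ) - 1 := by
    rw [Nat.cast_sub (Fact.out : q.Prime).one_lt.le, Nat.cast_one]
  rw [h3, nsmul_eq_mul, h4, mul_one_div_cancel (q_sub_one_ne q)]
  norm_num

/-- subtracting constants does not change the bilinear form -/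
lemma bilin_sub (X Y : ZMod q → ℂ) (lam mu : ℂ) (a : ZMod q) (ha : a ≠ 0) :
    ∑ c : ZMod q, ∑ d : ZMod q, X c * Y d * kap q a (c * d) =
      ∑ c ∈ univ.erase (0 : ZMod q), ∑ d ∈ univ.erase (0 : ZMod q),
        (X c - lam) * (Y d - mu) * kap q a (c * d) := by
  have hd : ∀ c : ZMod q, c ≠ 0 → ∑ d ∈ univ.erase (0 : ZMod q), kap q a (c * d) = 0 := by
    intro c hc
    have h := sum_kap q a ha
    rw [← add_sum_erase univ _ (mem_univ (0 : ZMod q)), kap_zero, zero_add] at h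
    rw [← h]
    have hu : IsUnit c := isUnit_iff_ne_zero.2 hc
    obtain ⟨u, rfl⟩ := hu
    apply sum_bij (fun d _ => (u : ZMod q) * d)
    · intro d hd
      rw [mem_erase] at hd ⊢
      exact ⟨mul_ne_zero (Units.ne_zero u) hd.1, mem_univ _⟩
    · intro d _ d' _ h
      exact mul_left_cancel₀ (Units.ne_zero u) h
    · intro d hd
      rw [mem_erase] at hd
      refine ⟨(↑u⁻¹ : ZMod q) * d, ?_, ?_⟩
      · rw [mem_erase]
        exact ⟨mul_ne_zero (Units.ne_zero u⁻¹) hd.1, mem_univ _⟩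
      · rw [← mul_assoc, Units.mul_inv, one_mul]
    · intro d _; rfl
  have hc : ∀ d : ZMod q, d ≠ 0 → ∑ c ∈ univ.erase (0 : ZMod q), kap q a (c * d) = 0 := by
    intro d hd'
    have := hd d hd'
    rw [← this]
    apply sum_congr rfl; intro c _; rw [mul_comm]
  have h0 : ∑ c : ZMod q, ∑ d : ZMod q, X c * Y d * kap q a (c * d) =
      ∑ c ∈ univ.erase (0 : ZMod q), ∑ d ∈ univ.erase (0 : ZMod q),
        X c * Y d * kap q a (c * d) := by
    rw [← add_sum_erase univ _ (mem_univ (0 : ZMod q))]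
    have : ∑ d : ZMod q, X 0 * Y d * kap q a (0 * d) = 0 := by
      apply sum_eq_zero; intro d _; rw [zero_mul, kap_zero, mul_zero]
    rw [this, zero_add]
    apply sum_congr rfl; intro c _
    rw [← add_sum_erase univ _ (mem_univ (0 : ZMod q)), mul_zero, kap_zero, mul_zero, zero_add]
  rw [h0]
  have h1 : ∀ c d : ZMod q, (X c - lam) * (Y d - mu) * kap q a (c * d) =
      X c * Y d * kap q a (c * d) - (lam * Y d - lam * mu) * kap q a (c * d)
        - (X c * mu) * kap q a (c * d) := by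
    intro c d; ring
  simp_rw [h1, sum_sub_distrib]
  have h2 : ∑ c ∈ univ.erase (0 : ZMod q), ∑ d ∈ univ.erase (0 : ZMod q),
      (X c * mu) * kap q a (c * d) = 0 := by
    apply sum_eq_zero; intro c hc'
    rw [← mul_sum, hd c (mem_erase.1 hc').1, mul_zero]
  have h3 : ∑ c ∈ univ.erase (0 : ZMod q), ∑ d ∈ univ.erase (0 : ZMod q),
      (lam * Y d - lam * mu) * kap q a (c * d) = 0 := by
    rw [sum_comm]
    apply sum_eq_zero; intro d hd'
    rw [← mul_sum, hc d (mem_erase.1 hd').1, mul_zero]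
  rw [h2, h3]; ring

lemma bilin_bound (X Y : ZMod q → ℂ) (lam mu : ℂ) (a : ZMod q) (ha : a ≠ 0) :
    ‖∑ c : ZMod q, ∑ d : ZMod q, X c * Y d * kap q a (c * d)‖ ≤
      2 * √q * (√(∑ c : ZMod q, ‖X c - lam‖ ^ 2) * √(∑ d : ZMod q, ‖Y d - mu‖ ^ 2)) := by
  rw [bilin_sub q X Y lam mu a ha]
  set x : ZMod q → ℂ := fun c => if c = 0 then 0 else X c - lam with hx
  set y : ZMod q → ℂ := fun c => if c = 0 then 0 else Y c - mu with hy
  have hx0 : x 0 = 0 := by simp only [hx, if_true]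
  have hy0 : y 0 = 0 := by simp only [hy, if_true]
  have hq1 := one_lt_q q
  have hS : ∀ (Z : ZMod q → ℂ) (nu : ℂ), ∑ c : ZMod q, ‖(if c = 0 then 0 else Z c - nu : ℂ)‖ ^ 2 ≤
      ∑ c : ZMod q, ‖Z c - nu‖ ^ 2 := by
    intro Z nu
    apply sum_le_sum; intro c _
    split_ifs
    · simp
    · exact le_refl _
  have h1 : ∑ c ∈ univ.erase (0 : ZMod q), ∑ d ∈ univ.erase (0 : ZMod q),
        (X c - lam) * (Y d - mu) * kap q a (c * d) =
      ∑ c : ZMod q, ∑ d : ZMod q, x c * y d * ps q (a * (c * d)) +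
        (1 / ((q : ℂ) - 1)) * ((∑ c : ZMod q, x c) * ∑ d : ZMod q, y d) := by
    rw [sum_mul_sum, mul_sum, ← sum_add_distrib]
    rw [← add_sum_erase univ (fun c => _ + _) (mem_univ (0 : ZMod q))]
    have e0 : (∑ d : ZMod q, x 0 * y d * ps q (a * (0 * d))) +
        1 / ((q : ℂ) - 1) * ∑ d : ZMod q, x 0 * y d = 0 := by
      simp only [hx0, zero_mul, sum_const_zero, mul_zero, add_zero]
    rw [e0, zero_add]
    apply sum_congr rfl; intro c hc
    rw [mul_sum, ← sum_add_distrib]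
    rw [← add_sum_erase univ (fun d => _ + _) (mem_univ (0 : ZMod q))]
    have e1 : x c * y 0 * ps q (a * (c * 0)) + 1 / ((q : ℂ) - 1) * (x c * y 0) = 0 := by
      simp only [hy0, mul_zero, zero_mul, add_zero]
    rw [e1, zero_add]
    apply sum_congr rfl; intro d hd
    rw [mem_erase] at hc hd
    simp only [hx, hy, if_neg hc.1, if_neg hd.1]
    unfold kap
    rw [if_neg (mul_ne_zero hc.1 hd.1)]
    ring
  rw [h1]
  have h2 := dft_bound q x y a (isUnit_iff_ne_zero.2 ha)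
  set nx := √(∑ c : ZMod q, ‖X c - lam‖ ^ 2) with hnx
  set ny := √(∑ d : ZMod q, ‖Y d - mu‖ ^ 2) with hny
  have hxle : √(∑ c : ZMod q, ‖x c‖ ^ 2) ≤ nx := sqrt_le_sqrt (hS X lam)
  have hyle : √(∑ c : ZMod q, ‖y c‖ ^ 2) ≤ ny := sqrt_le_sqrt (hS Y mu)
  have hsum : ∀ (z : ZMod q → ℂ), z 0 = 0 → ‖∑ c : ZMod q, z c‖ ≤
      √((q : ℝ) - 1) * √(∑ c : ZMod q, ‖z c‖ ^ 2) := by
    intro z hz
    rw [← add_sum_erase univ _ (mem_univ (0 : ZMod q)), hz, zero_add]
    calc ‖∑ c ∈ univ.erase (0 : ZMod q), z c‖ ≤ ∑ c ∈ univ.erase (0 : ZMod q), 1 * ‖z c‖ := by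
          simp only [one_mul]
          exact norm_sum_le _ _
      _ ≤ √(∑ c ∈ univ.erase (0 : ZMod q), (1 : ℝ) ^ 2) *
          √(∑ c ∈ univ.erase (0 : ZMod q), ‖z c‖ ^ 2) := sum_mul_le_sqrt_mul_sqrt _ _ _
      _ ≤ _ := by
          have : (∑ c ∈ univ.erase (0 : ZMod q), (1 : ℝ) ^ 2) = (q : ℝ) - 1 := by
            simp only [one_pow, sum_const, card_erase_of_mem (mem_univ (0 : ZMod q)), card_univ,
              ZMod.card, nsmul_eq_mul, mul_one]
            rw [Nat.cast_sub (Fact.out : q.Prime).one_lt.le]; simp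
          rw [this]
          gcongr
          exact subset_univ _
  have h3 : ‖(1 / ((q : ℂ) - 1)) * ((∑ c : ZMod q, x c) * ∑ d : ZMod q, y d)‖ ≤ nx * ny := by
    have e1 : ‖(1 : ℂ) / ((q : ℂ) - 1)‖ = 1 / ((q : ℝ) - 1) := by
      have : ((q : ℂ) - 1) = ((q - 1 : ℝ) : ℂ) := by push_cast; ring
      rw [norm_div, this, Complex.norm_real, norm_one, norm_eq_abs, abs_of_pos (by linarith)]
    rw [norm_mul, norm_mul, e1]
    have a1 := hsum x hx0
    have a2 := hsum y hy0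
    calc 1 / ((q : ℝ) - 1) * (‖∑ c : ZMod q, x c‖ * ‖∑ d : ZMod q, y d‖)
        ≤ 1 / ((q : ℝ) - 1) * ((√((q : ℝ) - 1) * nx) * (√((q : ℝ) - 1) * ny)) := by
          have : 0 ≤ 1 / ((q : ℝ) - 1) := by
            apply div_nonneg (by norm_num); linarith
          gcongr
          · exact a1.trans (by gcongr)
          · exact a2.trans (by gcongr)
      _ = (√((q : ℝ) - 1) * √((q : ℝ) - 1)) / ((q : ℝ) - 1) * (nx * ny) := by ring
      _ = nx * ny := by
          rw [mul_self_sqrt (by linarith), div_self (by linarith), one_mul]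
  have h4 : (1 : ℝ) ≤ √q := by rw [one_le_sqrt]; linarith
  have hn : 0 ≤ nx * ny := by positivity
  calc _ ≤ ‖∑ c : ZMod q, ∑ d : ZMod q, x c * y d * ps q (a * (c * d))‖ +
        ‖(1 / ((q : ℂ) - 1)) * ((∑ c : ZMod q, x c) * ∑ d : ZMod q, y d)‖ := norm_add_le _ _
    _ ≤ √q * (nx * ny) + nx * ny := by
        refine add_le_add (h2.trans ?_) h3
        gcongr
    _ ≤ √q * (nx * ny) + √q * (nx * ny) := by nlinarith
    _ = 2 * √q * (nx * ny) := by ring

/-- variance about the mean via the nontrivial Fourier coefficients -/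
lemma variance_eq (X : ZMod q → ℂ) :
    ∑ c : ZMod q, ‖X c - (∑ c' : ZMod q, X c') / q‖ ^ 2 =
      (1 / q) * ∑ a ∈ univ.erase (0 : ZMod q), ‖∑ d : ZMod q, X d * ps q (a * d)‖ ^ 2 := by
  set m := (∑ c' : ZMod q, X c') / (q : ℂ) with hm
  have hq0 : (q : ℂ) ≠ 0 := by
    have := one_lt_q q
    exact_mod_cast (by linarith : (q : ℝ) ≠ 0)
  have hqr : (q : ℝ) ≠ 0 := by
    have := one_lt_q q
    linarith
  have h1 := parseval q (fun c => X c - m)
  have h2 : ∀ a ∈ univ.erase (0 : ZMod q), ‖∑ d : ZMod q, (X d - m) * ps q (a * d)‖ ^ 2 =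
      ‖∑ d : ZMod q, X d * ps q (a * d)‖ ^ 2 := by
    intro a ha
    rw [mem_erase] at ha
    have e1 : ∑ d : ZMod q, (X d - m) * ps q (a * d) = ∑ d : ZMod q, X d * ps q (a * d) := by
      simp only [sub_mul, sum_sub_distrib, ← mul_sum]
      have := sum_ps q a
      rw [if_neg ha.1] at this
      have e2 : ∑ d : ZMod q, ps q (a * d) = 0 := by
        rw [← this]; apply sum_congr rfl; intro d _; rw [mul_comm]
      rw [e2, mul_zero, sub_zero]
    rw [e1]
  rw [← add_sum_erase univ _ (mem_univ (0 : ZMod q)), sum_congr rfl h2] at h1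
  have h3 : ∑ d : ZMod q, (X d - m) * ps q (0 * d) = 0 := by
    simp only [zero_mul, ps_zero, mul_one, sum_sub_distrib, sum_const, card_univ, ZMod.card,
      nsmul_eq_mul]
    rw [hm]; field_simp; ring
  rw [h3] at h1
  simp only [norm_zero, ne_eq, OfNat.ofNat_ne_zero, not_false_eq_true, zero_pow, zero_add] at h1
  rw [h1]
  field_simp

/-- class sums of a sequence -/
noncomputable def cl (M : ℕ) (x : ℕ → ℂ) (c : ZMod q) : ℂ :=
  ∑ m ∈ (range M).filter (fun m : ℕ => (m : ZMod q) = c), x m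

lemma sum_cl (M : ℕ) (x : ℕ → ℂ) (f : ZMod q → ℂ) :
    ∑ m ∈ range M, x m * f (m : ZMod q) = ∑ c : ZMod q, cl q M x c * f c := by
  unfold cl
  simp_rw [sum_mul]
  rw [← sum_fiberwise (range M) (fun m : ℕ => (m : ZMod q)) (fun m => x m * f (m : ZMod q))]
  apply sum_congr rfl; intro c _
  apply sum_congr rfl; intro m hm
  rw [mem_filter] at hm
  rw [hm.2]

/-- bilinear bound for sequences -/
lemma bilin_seq (M N : ℕ) (x y : ℕ → ℂ) (a : ZMod q) (ha : a ≠ 0) :
    ‖∑ m ∈ range M, ∑ n ∈ range N, x m * y n * kap q a ((m : ZMod q) * (n : ZMod q))‖ ≤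
      2 / √q * (√(∑ b ∈ univ.erase (0 : ZMod q), ‖∑ m ∈ range M, x m * ps q (b * m)‖ ^ 2) *
        √(∑ b ∈ univ.erase (0 : ZMod q), ‖∑ n ∈ range N, y n * ps q (b * n)‖ ^ 2)) := by
  have h1 : ∑ m ∈ range M, ∑ n ∈ range N, x m * y n * kap q a ((m : ZMod q) * (n : ZMod q)) =
      ∑ c : ZMod q, ∑ d : ZMod q, cl q M x c * cl q N y d * kap q a (c * d) := by
    have e1 : ∀ m ∈ range M, ∑ n ∈ range N, x m * y n * kap q a ((m : ZMod q) * (n : ZMod q)) =
        x m * (fun c : ZMod q => ∑ d : ZMod q, cl q N y d * kap q a (c * d)) (m : ZMod q) := by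
      intro m _
      simp only
      rw [← sum_cl q N y (fun d => kap q a ((m : ZMod q) * d)), mul_sum]
      apply sum_congr rfl; intro n _; ring
    rw [sum_congr rfl e1, sum_cl q M x (fun c : ZMod q => ∑ d : ZMod q, cl q N y d * kap q a (c * d))]
    apply sum_congr rfl; intro c _
    rw [mul_sum]
    apply sum_congr rfl; intro d _; ring
  rw [h1]
  refine (bilin_bound q _ _ ((∑ c' : ZMod q, cl q M x c') / q) ((∑ c' : ZMod q, cl q N y c') / q)
    a ha).trans ?_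
  rw [variance_eq, variance_eq]
  have hq0 : (0 : ℝ) < q := by have := one_lt_q q; linarith
  have e2 : ∀ (K : ℕ) (z : ℕ → ℂ), ∑ b ∈ univ.erase (0 : ZMod q),
      ‖∑ d : ZMod q, cl q K z d * ps q (b * d)‖ ^ 2 =
      ∑ b ∈ univ.erase (0 : ZMod q), ‖∑ m ∈ range K, z m * ps q (b * m)‖ ^ 2 := by
    intro K z
    apply sum_congr rfl; intro b _
    rw [← sum_cl q K z (fun d => ps q (b * d))]
  rw [e2, e2, sqrt_mul (by positivity), sqrt_mul (by positivity)]
  apply le_of_eq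
  have : √(1 / (q : ℝ)) = 1 / √q := by rw [sqrt_div (by norm_num), sqrt_one]
  rw [this]
  have hs : √(q : ℝ) ≠ 0 := by positivity
  field_simp

end prime

end Pool.Agent.Lib.MP_2a816b_nt
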