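import Mathlib
import Pool.Agent.Lib.MP_2a816b_nt.ModEll
import Pool.Agent.Lib.MP_2a816b_nt.Basic0

/-!
# Ramanujan sums
-/

open Finset Real

namespace Pool.Agent.Lib.MP_2a816b_nt

/-- residues prime to `r` -/
def Cop (r : ℕ) : Finset ℕ := (range r).filter (fun b => b.Coprime r)

lemma card_Cop (r : ℕ) : (Cop r).card = r.totient := by
  unfold Cop
  rw [Nat.totient_eq_card_coprime]
  congr 1
  apply filter_congr
  intro b _
  exact Nat.coprime_comm

/-- the Ramanujan sum -/
noncomputable def cR (r n : ℕ) : ℂ := ∑ b ∈ Cop r, e (n * (b / r))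

lemma cR_norm_le (r n : ℕ) : ‖cR r n‖ ≤ r := by
  unfold cR
  calc _ ≤ ∑ b ∈ Cop r, ‖e (n * (b / r))‖ := norm_sum_le _ _
    _ = (Cop r).card := by simp [norm_e]
    _ ≤ r := by
        rw [card_Cop]
        exact_mod_cast Nat.totient_le r

lemma sum_cR (n : ℕ) (hn : 0 < n) : ∑ d ∈ n.divisors, cR d 1 = ∑ b ∈ range n, e (b / n) := by
  have hmaps : ∀ b ∈ range n, n / Nat.gcd b n ∈ n.divisors := by
    intro b _
    rw [Nat.mem_divisors]
    exact ⟨Nat.div_dvd_of_dvd (Nat.gcd_dvd_right b n), hn.ne'⟩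
  rw [← sum_fiberwise_of_maps_to hmaps]
  apply sum_congr rfl; intro d hd
  rw [Nat.mem_divisors] at hd
  obtain ⟨⟨k, hk⟩, _⟩ := hd
  have hd0 : 0 < d := Nat.pos_of_ne_zero (by rintro rfl; simp at hk; omega)
  have hk0 : 0 < k := Nat.pos_of_ne_zero (by rintro rfl; simp at hk; omega)
  unfold cR Cop
  apply sum_bij (fun (b : ℕ) _ => b * k)
  · intro b hb
    rw [mem_filter, mem_range] at hb
    rw [mem_filter, mem_range]
    refine ⟨?_, ?_⟩
    · rw [hk]; exact Nat.mul_lt_mul_of_pos_right hb.1 hk0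
    · have : Nat.gcd (b * k) n = k := by
        rw [hk, Nat.gcd_mul_right]
        have := hb.2
        unfold Nat.Coprime at this
        rw [this, one_mul]
      rw [this, hk, Nat.mul_div_cancel _ hk0]
  · intro b _ b' _ h
    exact Nat.eq_of_mul_eq_mul_right hk0 h
  · intro b hb
    rw [mem_filter, mem_range] at hb
    have hg : Nat.gcd b n = k := by
      have h1 : Nat.gcd b n ∣ n := Nat.gcd_dvd_right b n
      have h2 : n = n / Nat.gcd b n * Nat.gcd b n := (Nat.div_mul_cancel h1).symm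
      rw [hb.2] at h2
      rw [hk] at h2
      have h3 : d * k = d * Nat.gcd b n := by
        rw [← hk] at h2
        rw [← hk]
        exact h2
      exact (Nat.eq_of_mul_eq_mul_left hd0 h3).symm
    obtain ⟨c, hc⟩ : k ∣ b := hg ▸ Nat.gcd_dvd_left b n
    refine ⟨c, ?_, by rw [hc]; ring⟩
    rw [mem_filter, mem_range]
    refine ⟨?_, ?_⟩
    · have : k * c < k * d := by rw [← hc, mul_comm k d, ← hk]; exact hb.1
      exact Nat.lt_of_mul_lt_mul_left this
    · unfold Nat.Coprime
      have h4 : k * Nat.gcd c d = k := by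
        rw [← Nat.gcd_mul_left, ← hc, mul_comm k d, ← hk]
        exact hg
      exact Nat.eq_of_mul_eq_mul_left hk0 (by rw [h4, mul_one])
  · intro b _
    congr 1
    rw [hk]
    push_cast
    have : (k : ℝ) ≠ 0 := by positivity
    field_simp

lemma sum_e_range (n : ℕ) (hn : 0 < n) : ∑ b ∈ range n, e (b / n) = if n = 1 then 1 else 0 := by
  have : NeZero n := ⟨hn.ne'⟩
  have h := sum_ps n (1 : ZMod n)
  rw [← sum_range_zmod n (fun x => ps n (x * 1))] at h
  have e1 : ∀ v ∈ range n, ps n ((v : ZMod n) * 1) = e (v / n) := by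
    intro v _
    rw [mul_one, ps_natCast]
  rw [sum_congr rfl e1] at h
  rw [h]
  by_cases h1 : n = 1
  · subst h1
    rw [if_pos rfl, if_pos (Subsingleton.elim _ _)]
    simp
  · rw [if_neg h1, if_neg]
    intro h2
    have h3 : ((1 : ℕ) : ZMod n) = 0 := by exact_mod_cast h2
    rw [ZMod.natCast_eq_zero_iff] at h3
    exact h1 (Nat.dvd_one.1 h3)

lemma cR_one (r : ℕ) (hr : 0 < r) : cR r 1 = ((ArithmeticFunction.moebius r : ℤ) : ℂ) := by
  have h : ∀ n > 0, ∑ i ∈ n.divisors, (fun d => cR d 1) i = (fun n => if n = 1 then (1 : ℂ) else 0) n := by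
    intro n hn
    simp only
    rw [sum_cR n hn, sum_e_range n hn]
  have h2 := (ArithmeticFunction.sum_eq_iff_sum_mul_moebius_eq
    (f := fun d => cR d 1) (g := fun n => if n = 1 then (1 : ℂ) else 0)).1 h r hr
  rw [← h2]
  rw [sum_eq_single (r, 1)]
  · simp
  · intro x hx hne
    rw [Nat.mem_divisorsAntidiagonal] at hx
    have : x.2 ≠ 1 := by
      intro h3
      apply hne
      rw [h3, mul_one] at hx
      exact Prod.ext hx.1 h3
    rw [if_neg this, mul_zero]
  · intro hx
    exfalso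
    apply hx
    rw [Nat.mem_divisorsAntidiagonal]
    exact ⟨mul_one r, hr.ne'⟩

lemma cR_coprime (r n : ℕ) (hr : 0 < r) (hn : n.Coprime r) : cR r n = cR r 1 := by
  have : NeZero r := ⟨hr.ne'⟩
  have key : ∀ m : ℕ, cR r m = ∑ x : ZMod r, if IsUnit x then ps r (m * x) else 0 := by
    intro m
    rw [← sum_range_zmod r (fun x : ZMod r => if IsUnit x then ps r (m * x) else 0)]
    unfold cR Cop
    rw [sum_filter]
    apply sum_congr rfl; intro b _
    have h1 : IsUnit (b : ZMod r) ↔ b.Coprime r := ZMod.isUnit_iff_coprime b r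
    by_cases h2 : b.Coprime r
    · rw [if_pos h2, if_pos (h1.2 h2), ← Nat.cast_mul, ps_natCast]
      congr 1
      push_cast
      ring
    · rw [if_neg h2, if_neg (fun h => h2 (h1.1 h))]
  rw [key, key]
  have hu : IsUnit (n : ZMod r) := (ZMod.isUnit_iff_coprime n r).2 hn
  obtain ⟨u, hu⟩ := hu
  rw [← hu]
  apply Fintype.sum_equiv (Units.mulLeft u)
  intro x
  simp only [Units.mulLeft_apply, Nat.cast_one, one_mul]
  by_cases hx : IsUnit x
  · rw [if_pos hx, if_pos (IsUnit.mul u.isUnit hx)]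
  · rw [if_neg hx, if_neg]
    intro h
    apply hx
    exact (Units.isUnit_units_mul u x).1 h

lemma cR_norm_one (r n : ℕ) (hr : 0 < r) (hsq : Squarefree r) (hn : n.Coprime r) :
    cR r n = ((ArithmeticFunction.moebius r : ℤ) : ℂ) ∧
      ‖((ArithmeticFunction.moebius r : ℤ) : ℂ)‖ = 1 := by
  refine ⟨by rw [cR_coprime r n hr hn, cR_one r hr], ?_⟩
  have h1 : ‖((ArithmeticFunction.moebius r : ℤ) : ℂ)‖ = |((ArithmeticFunction.moebius r : ℤ) : ℝ)| := by
    rw [Complex.norm_intCast]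
  rw [h1, ← Int.cast_abs, ArithmeticFunction.abs_moebius_eq_one_of_squarefree hsq]
  simp

end Pool.Agent.Lib.MP_2a816b_nt
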