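import Mathlib
import Pool.Agent.Lib.MP_2a816b_nt.LargeSieve2
import Pool.Agent.Lib.MP_2a816b_nt.Ramanujan

/-!
# Farey fractions
-/

open Finset Real

namespace Pool.Agent.Lib.MP_2a816b_nt

/-- Chinese remainder theorem for sums over reduced fractions -/
lemma sum_Cop_mul {E : Type*} [AddCommMonoid E] (q1 q2 : ℕ) (h1 : 0 < q1) (h2 : 0 < q2)
    (hc : q1.Coprime q2) (g : ℝ → E) (hg : ∀ (x : ℝ) (m : ℤ), g (x + m) = g x) :
    ∑ b ∈ Cop (q1 * q2), g ((b : ℝ) / ((q1 * q2 : ℕ) : ℝ)) =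
      ∑ b1 ∈ Cop q1, ∑ b2 ∈ Cop q2, g ((b1 : ℝ) / q1 + (b2 : ℝ) / q2) := by
  classical
  set φ : ℕ × ℕ → ℕ := fun p => (p.1 * q2 + p.2 * q1) % (q1 * q2) with hφ
  have hQ : 0 < q1 * q2 := Nat.mul_pos h1 h2
  have hinj : Set.InjOn φ ((Cop q1 ×ˢ Cop q2 : Finset (ℕ × ℕ)) : Set (ℕ × ℕ)) := by
    rintro ⟨a, b⟩ hab ⟨a', b'⟩ hab' h
    rw [mem_coe, mem_product] at hab hab'
    unfold Cop at hab hab'
    simp only [mem_filter, mem_range] at hab hab'
    obtain ⟨⟨ha, _⟩, hb, _⟩ := hab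
    obtain ⟨⟨ha', _⟩, hb', _⟩ := hab'
    simp only [hφ] at h
    have hmod : a * q2 + b * q1 ≡ a' * q2 + b' * q1 [MOD q1 * q2] := h
    have e1 : a * q2 ≡ a' * q2 [MOD q1] := by
      have := hmod.of_mul_right q2
      calc a * q2 ≡ a * q2 + b * q1 [MOD q1] := by simp
        _ ≡ a' * q2 + b' * q1 [MOD q1] := this
        _ ≡ a' * q2 [MOD q1] := by simp
    have e2 : b * q1 ≡ b' * q1 [MOD q2] := by
      have := hmod.of_mul_left q1
      calc b * q1 ≡ a * q2 + b * q1 [MOD q2] := by simp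
        _ ≡ a' * q2 + b' * q1 [MOD q2] := this
        _ ≡ b' * q1 [MOD q2] := by simp
    have e3 : a ≡ a' [MOD q1] := Nat.ModEq.cancel_right_of_coprime hc e1
    have e4 : b ≡ b' [MOD q2] := Nat.ModEq.cancel_right_of_coprime hc.symm e2
    have e5 : a = a' := Nat.ModEq.eq_of_lt_of_lt e3 ha ha'
    have e6 : b = b' := Nat.ModEq.eq_of_lt_of_lt e4 hb hb'
    rw [e5, e6]
  have himg : (Cop q1 ×ˢ Cop q2).image φ = Cop (q1 * q2) := by
    apply eq_of_subset_of_card_le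
    · intro c hcm
      rw [mem_image] at hcm
      obtain ⟨⟨a, b⟩, hab, rfl⟩ := hcm
      rw [mem_product] at hab
      unfold Cop at hab ⊢
      simp only [mem_filter, mem_range] at hab ⊢
      obtain ⟨⟨_, ha⟩, _, hb⟩ := hab
      refine ⟨Nat.mod_lt _ hQ, ?_⟩
      have h3 : (a * q2 + b * q1).Coprime (q1 * q2) := by
        apply Nat.Coprime.mul_right
        · have : (a * q2).Coprime q1 := Nat.Coprime.mul_left ha hc.symm
          rwa [Nat.coprime_add_mul_right_left]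
        · have : (b * q1).Coprime q2 := Nat.Coprime.mul_left hb hc
          rwa [add_comm, Nat.coprime_add_mul_right_left]
      unfold Nat.Coprime at h3 ⊢
      simp only [hφ]
      rw [← Nat.gcd_rec, Nat.gcd_comm]
      exact h3
    · rw [card_image_of_injOn hinj, card_product, card_Cop, card_Cop, card_Cop,
        Nat.totient_mul hc]
  rw [← himg, sum_image hinj, sum_product]
  apply sum_congr rfl; intro a _
  apply sum_congr rfl; intro b _
  obtain ⟨k, hk⟩ : ∃ k, k = (a * q2 + b * q1) / (q1 * q2) := ⟨_, rfl⟩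
  have h3 : ((φ (a, b) : ℕ) : ℝ) / ((q1 * q2 : ℕ) : ℝ) + ((k : ℤ) : ℝ) =
      (a : ℝ) / q1 + (b : ℝ) / q2 := by
    have h4 := Nat.mod_add_div (a * q2 + b * q1) (q1 * q2)
    rw [← hk] at h4
    have h5 : ((φ (a, b) : ℕ) : ℝ) + (q1 * q2 : ℕ) * (k : ℝ) = a * q2 + b * q1 := by
      have : (((a * q2 + b * q1) % (q1 * q2) + q1 * q2 * k : ℕ) : ℝ) =
        ((a * q2 + b * q1 : ℕ) : ℝ) := by rw [h4]
      push_cast at this
      simp only [hφ]
      push_cast
      exact this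
    have hq1 : (q1 : ℝ) ≠ 0 := by positivity
    have hq2 : (q2 : ℝ) ≠ 0 := by positivity
    push_cast at h5 ⊢
    field_simp
    linarith
  rw [← h3, hg]

/-- separation of Farey fractions -/
lemma farey_sep (S : Finset ℕ) (Q : ℕ) (hS : ∀ d ∈ S, 0 < d ∧ d ≤ Q) :
    Sep (S.sigma (fun d => Cop d)) (fun p : (Σ _ : ℕ, ℕ) => (p.2 : ℝ) / (p.1 : ℝ))
      (1 / (Q : ℝ) ^ 2) := by
  rintro ⟨d, b⟩ hi ⟨d', b'⟩ hj hne m
  simp only [mem_sigma] at hi hj
  obtain ⟨hd, hb⟩ := hi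
  obtain ⟨hd', hb'⟩ := hj
  obtain ⟨hd0, hdQ⟩ := hS d hd
  obtain ⟨hd0', hdQ'⟩ := hS d' hd'
  unfold Cop at hb hb'
  rw [mem_filter, mem_range] at hb hb'
  simp only
  have hdr : (0 : ℝ) < d := by exact_mod_cast hd0
  have hdr' : (0 : ℝ) < d' := by exact_mod_cast hd0'
  have hQ0 : (0 : ℝ) < Q := by
    have : 0 < Q := by omega
    exact_mod_cast this
  set z : ℤ := (b : ℤ) * d' - (b' : ℤ) * d - m * (d * d') with hz
  have hz0 : z ≠ 0 := by
    intro h
    have hdd : d = d' := by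
      apply Nat.dvd_antisymm
      · have h1 : (d : ℤ) ∣ (b : ℤ) * d' := by
          refine ⟨b' + m * d', ?_⟩
          rw [hz] at h
          linear_combination h
        have h2 : d ∣ b * d' := by exact_mod_cast h1
        exact (Nat.Coprime.symm hb.2).dvd_of_dvd_mul_left h2
      · have h1 : (d' : ℤ) ∣ (b' : ℤ) * d := by
          refine ⟨b - m * d, ?_⟩
          rw [hz] at h
          linear_combination -h
        have h2 : d' ∣ b' * d := by exact_mod_cast h1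
        exact (Nat.Coprime.symm hb'.2).dvd_of_dvd_mul_left h2
    subst hdd
    have hdpos : (0 : ℤ) < d := by exact_mod_cast hd0
    have hz6 : (b : ℤ) - b' = m * d := by
      have h1 : (d : ℤ) * ((b : ℤ) - b' - m * d) = 0 := by
        rw [hz] at h
        linear_combination h
      rcases mul_eq_zero.1 h1 with h2 | h2
      · exact absurd h2 hdpos.ne'
      · linear_combination h2
    have hm0 : m = 0 := by
      by_contra hc0
      have h6 : (d : ℤ) ≤ |m * d| := by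
        rw [abs_mul, abs_of_pos hdpos]
        have : 1 ≤ |m| := Int.one_le_abs hc0
        nlinarith
      rw [← hz6] at h6
      have h7 : |(b : ℤ) - b'| < d := by
        rw [abs_lt]
        constructor <;> omega
      omega
    rw [hm0, zero_mul] at hz6
    apply hne
    have : b = b' := by omega
    rw [this]
  have h1 : (1 : ℝ) ≤ |(z : ℝ)| := by
    have : 1 ≤ |z| := Int.one_le_abs hz0
    exact_mod_cast this
  have h2 : (b : ℝ) / d - (b' : ℝ) / d' - m = z / (d * d') := by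
    rw [hz]; push_cast; field_simp
  rw [h2, abs_div, abs_of_pos (by positivity : (0 : ℝ) < d * d')]
  have hle : (d : ℝ) * d' ≤ (Q : ℝ) ^ 2 := by
    have a1 : (d : ℝ) ≤ Q := by exact_mod_cast hdQ
    have a2 : (d' : ℝ) ≤ Q := by exact_mod_cast hdQ'
    rw [sq]
    gcongr
  calc 1 / (Q : ℝ) ^ 2 ≤ 1 / (d * d') := one_div_le_one_div_of_le (by positivity) hle
    _ ≤ |(z : ℝ)| / (d * d') := by gcongr

/-- large sieve over Farey fractions -/
lemma farey_sieve (S : Finset ℕ) (Q : ℕ) (hS : ∀ d ∈ S, 0 < d ∧ d ≤ Q) (N : ℕ) (x : ℕ → ℂ) :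
    ∑ d ∈ S, ∑ b ∈ Cop d, ‖∑ n ∈ range N, x n * e (n * ((b : ℝ) / d))‖ ^ 2 ≤
      9 * (N + (Q : ℝ) ^ 2) * ∑ n ∈ range N, ‖x n‖ ^ 2 := by
  classical
  rcases S.eq_empty_or_nonempty with h0 | ⟨d0, hd0⟩
  · subst h0
    simp only [sum_empty]
    positivity
  have hQ0 : 0 < Q := by
    have := hS d0 hd0
    omega
  have hQr : (1 : ℝ) ≤ Q := by exact_mod_cast hQ0
  rw [sum_sigma' S (fun d => Cop d)
    (fun d b => ‖∑ n ∈ range N, x n * e (n * ((b : ℝ) / d))‖ ^ 2)]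
  have h := large_sieve (S.sigma (fun d => Cop d))
    (fun p : (Σ _ : ℕ, ℕ) => (p.2 : ℝ) / (p.1 : ℝ)) (1 / (Q : ℝ) ^ 2) (by positivity)
    (by rw [div_le_one (by positivity)]; nlinarith) (farey_sep S Q hS) N x
  have e1 : 1 / (1 / (Q : ℝ) ^ 2) = (Q : ℝ) ^ 2 := by rw [one_div_one_div]
  rw [e1] at h
  exact h

/-- sharp large sieve over Farey fractions -/
lemma farey_sieve_sharp (S : Finset ℕ) (Q : ℕ) (hQ : 0 < Q) (hS : ∀ d ∈ S, 0 < d ∧ d ≤ Q)
    (N K : ℕ) (hK : 0 < K) (x : ℕ → ℂ) :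
    ∑ d ∈ S, ∑ b ∈ Cop d, ‖∑ n ∈ range N, x n * e (n * ((b : ℝ) / d))‖ ^ 2 ≤
      (N + K + (Q : ℝ) ^ 4 / K) * ∑ n ∈ range N, ‖x n‖ ^ 2 := by
  classical
  have hQr : (0 : ℝ) < Q := by exact_mod_cast hQ
  have hKr : (0 : ℝ) < K := by exact_mod_cast hK
  rw [sum_sigma' S (fun d => Cop d)
    (fun d b => ‖∑ n ∈ range N, x n * e (n * ((b : ℝ) / d))‖ ^ 2)]
  have h := large_sieve_sharp (S.sigma (fun d => Cop d))
    (fun p : (Σ _ : ℕ, ℕ) => (p.2 : ℝ) / (p.1 : ℝ)) (1 / (Q : ℝ) ^ 2) (by positivity)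
    (farey_sep S Q hS) N K hK x
  have e1 : 1 / ((K : ℝ) * (1 / (Q : ℝ) ^ 2) ^ 2) = (Q : ℝ) ^ 4 / K := by
    field_simp
  rw [e1] at h
  exact h

end Pool.Agent.Lib.MP_2a816b_nt
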