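import Mathlib
import Pool.Agent.Lib.MP_2a816b_nt.ModEll
import Pool.Agent.Lib.MP_2a816b_nt.Trunc
import Pool.Agent.Lib.MP_2a816b_nt.LargeSieve

/-!
# Bilinear forms averaged over prime moduli
-/

open Finset Real

namespace Pool.Agent.Lib.MP_2a816b_nt

/-- the kernel with natural number arguments -/
noncomputable def kapN (l a u : ℕ) : ℂ := if l ∣ u then 0 else e (a * u / l) + 1 / ((l : ℂ) - 1)

lemma kapN_eq (l : ℕ) [Fact l.Prime] (a u : ℕ) :
    kapN l a u = kap l (a : ZMod l) (u : ZMod l) := by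
  unfold kapN kap
  by_cases h : l ∣ u
  · rw [if_pos h, if_pos ((ZMod.natCast_eq_zero_iff u l).2 h)]
  · rw [if_neg h, if_neg (by rw [ZMod.natCast_eq_zero_iff]; exact h)]
    congr 1
    rw [show (a : ZMod l) * (u : ZMod l) = ((a * u : ℕ) : ZMod l) by push_cast; ring, ps_natCast]
    push_cast
    rfl

lemma norm_kapN_le (l : ℕ) (hl : l.Prime) (a u : ℕ) : ‖kapN l a u‖ ≤ 2 := by
  have : Fact l.Prime := ⟨hl⟩
  rw [kapN_eq]; exact norm_kap_le l _ _

/-- large sieve for prime denominators -/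
lemma prime_sieve (P : Finset ℕ) (Q : ℕ) (hP : ∀ l ∈ P, l.Prime ∧ l ≤ Q) (N : ℕ) (x : ℕ → ℂ) :
    ∑ l ∈ P, ∑ b ∈ Ico 1 l, ‖∑ n ∈ range N, x n * e (n * (b / l))‖ ^ 2 ≤
      9 * (N + (Q : ℝ) ^ 2) * ∑ n ∈ range N, ‖x n‖ ^ 2 := by
  classical
  rcases P.eq_empty_or_nonempty with h0 | ⟨l0, hl0⟩
  · subst h0
    simp only [sum_empty]
    positivity
  have hQ2 : 2 ≤ Q := (hP l0 hl0).1.two_le.trans (hP l0 hl0).2
  have hQr : (2 : ℝ) ≤ Q := by exact_mod_cast hQ2
  rw [sum_sigma' P (fun l => Ico 1 l) (fun l b => ‖∑ n ∈ range N, x n * e (n * (b / l))‖ ^ 2)]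
  have hsep : Sep (P.sigma (fun l => Ico 1 l))
      (fun p : (Σ _ : ℕ, ℕ) => (p.2 : ℝ) / (p.1 : ℝ)) (1 / (Q : ℝ) ^ 2) := by
    rintro ⟨l, b⟩ hi ⟨l', b'⟩ hj hne m
    simp only [mem_sigma, mem_Ico] at hi hj
    obtain ⟨hl, hb⟩ := hi
    obtain ⟨hl', hb'⟩ := hj
    obtain ⟨hlp, hlQ⟩ := hP l hl
    obtain ⟨hlp', hlQ'⟩ := hP l' hl'
    simp only
    have hlpos : (0 : ℝ) < l := by exact_mod_cast hlp.pos
    have hlpos' : (0 : ℝ) < l' := by exact_mod_cast hlp'.pos
    set z : ℤ := (b : ℤ) * l' - (b' : ℤ) * l - m * (l * l') with hz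
    have hz0 : z ≠ 0 := by
      intro h
      rw [hz] at h
      by_cases hll : l = l'
      · subst hll
        have h2 : ((b : ℤ) - b' - m * l) * l = 0 := by linear_combination h
        have hl0 : (l : ℤ) ≠ 0 := by exact_mod_cast hlp.pos.ne'
        have h3 : (b : ℤ) - b' - m * l = 0 := by
          rcases mul_eq_zero.1 h2 with h4 | h4
          · exact h4
          · exact absurd h4 hl0
        have h5 : (b : ℤ) - b' = m * l := by linarith
        have hm : m = 0 := by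
          by_contra hm
          have h6 : (l : ℤ) ≤ |m * l| := by
            rw [abs_mul, abs_of_pos (by exact_mod_cast hlp.pos : (0 : ℤ) < l)]
            have : 1 ≤ |m| := Int.one_le_abs hm
            nlinarith [hlp.pos]
          rw [← h5] at h6
          have h7 : |(b : ℤ) - b'| < l := by
            rw [abs_lt]
            constructor <;> omega
          omega
        rw [hm, zero_mul] at h5
        apply hne
        have : b = b' := by omega
        rw [this]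
      · have h2 : (l : ℤ) ∣ (b : ℤ) * l' := by
          refine ⟨b' + m * l', ?_⟩
          linear_combination h
        have h3 : l ∣ b * l' := by exact_mod_cast h2
        rcases (Nat.Prime.dvd_mul hlp).1 h3 with h4 | h4
        · have := Nat.le_of_dvd (by omega) h4
          omega
        · exact hll ((Nat.prime_dvd_prime_iff_eq hlp hlp').1 h4)
    have h1 : (1 : ℝ) ≤ |(z : ℝ)| := by
      have : 1 ≤ |z| := Int.one_le_abs hz0
      exact_mod_cast this
    have h2 : (b : ℝ) / l - (b' : ℝ) / l' - m = z / (l * l') := by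
      rw [hz]; push_cast; field_simp
    rw [h2, abs_div, abs_of_pos (by positivity : (0 : ℝ) < l * l')]
    have hle : (l : ℝ) * l' ≤ (Q : ℝ) ^ 2 := by
      have a1 : (l : ℝ) ≤ Q := by exact_mod_cast hlQ
      have a2 : (l' : ℝ) ≤ Q := by exact_mod_cast hlQ'
      nlinarith
    calc 1 / (Q : ℝ) ^ 2 ≤ 1 / (l * l') := one_div_le_one_div_of_le (by positivity) hle
      _ ≤ |(z : ℝ)| / (l * l') := by gcongr
  have h := large_sieve (P.sigma (fun l => Ico 1 l))
    (fun p : (Σ _ : ℕ, ℕ) => (p.2 : ℝ) / (p.1 : ℝ)) (1 / (Q : ℝ) ^ 2) (by positivity)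
    (by rw [div_le_one (by positivity)]; nlinarith) hsep N x
  have e1 : 1 / (1 / (Q : ℝ) ^ 2) = (Q : ℝ) ^ 2 := by field_simp
  rw [e1] at h
  exact h

lemma sum_erase_eq (l : ℕ) [Fact l.Prime] (N : ℕ) (x : ℕ → ℂ) :
    ∑ b ∈ univ.erase (0 : ZMod l), ‖∑ n ∈ range N, x n * ps l (b * n)‖ ^ 2 =
      ∑ b ∈ Ico 1 l, ‖∑ n ∈ range N, x n * e (n * (b / l))‖ ^ 2 := by
  symm
  apply sum_bij (fun (b : ℕ) _ => (b : ZMod l))
  · intro b hb
    rw [mem_Ico] at hb
    rw [mem_erase]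
    refine ⟨?_, mem_univ _⟩
    rw [Ne, ZMod.natCast_eq_zero_iff]
    intro h
    have := Nat.le_of_dvd (by omega) h
    omega
  · intro b hb b' hb' h
    rw [mem_Ico] at hb hb'
    rw [ZMod.natCast_eq_natCast_iff'] at h
    rwa [Nat.mod_eq_of_lt hb.2, Nat.mod_eq_of_lt hb'.2] at h
  · intro c hc
    rw [mem_erase] at hc
    refine ⟨c.val, ?_, ZMod.natCast_zmod_val c⟩
    rw [mem_Ico]
    refine ⟨?_, ZMod.val_lt c⟩
    have : c.val ≠ 0 := by rw [Ne, ZMod.val_eq_zero]; exact hc.1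
    omega
  · intro b _
    congr 2
    apply sum_congr rfl; intro n _
    congr 1
    rw [← Nat.cast_mul, ps_natCast]
    congr 1
    push_cast
    ring

/-- the averaged kernel has small operator norm -/
lemma opB_kernel (P : Finset ℕ) (Q : ℕ) (y0 : ℝ) (hy0 : 0 < y0)
    (hP : ∀ l ∈ P, l.Prime ∧ l ≤ Q ∧ y0 ≤ l) (a : ℕ → ℕ) (ha : ∀ l ∈ P, ¬ l ∣ a l)
    (ε : ℕ → ℂ) (hε : ∀ l ∈ P, ‖ε l‖ ≤ 1) (M N : ℕ) :
    OpB (fun m n => ∑ l ∈ P, ε l * kapN l (a l) (m * n)) M N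
      (18 / √y0 * (√(M + (Q : ℝ) ^ 2) * √(N + (Q : ℝ) ^ 2))) := by
  intro x y
  have h1 : ∑ m ∈ range M, ∑ n ∈ range N, x m * y n * ∑ l ∈ P, ε l * kapN l (a l) (m * n) =
      ∑ l ∈ P, ε l * ∑ m ∈ range M, ∑ n ∈ range N, x m * y n * kapN l (a l) (m * n) := by
    calc _ = ∑ m ∈ range M, ∑ n ∈ range N, ∑ l ∈ P, x m * y n * (ε l * kapN l (a l) (m * n)) := by
          simp only [mul_sum]
      _ = ∑ m ∈ range M, ∑ l ∈ P, ∑ n ∈ range N, x m * y n * (ε l * kapN l (a l) (m * n)) := by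
          apply sum_congr rfl; intro m _; rw [sum_comm]
      _ = ∑ l ∈ P, ∑ m ∈ range M, ∑ n ∈ range N, x m * y n * (ε l * kapN l (a l) (m * n)) := by
          rw [sum_comm]
      _ = _ := by
          apply sum_congr rfl; intro l _
          rw [mul_sum]
          apply sum_congr rfl; intro m _
          rw [mul_sum]
          apply sum_congr rfl; intro n _
          ring
  rw [h1]
  set A : ℕ → ℝ := fun l => ∑ b ∈ Ico 1 l, ‖∑ n ∈ range M, x n * e (n * (b / l))‖ ^ 2 with hA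
  set B : ℕ → ℝ := fun l => ∑ b ∈ Ico 1 l, ‖∑ n ∈ range N, y n * e (n * (b / l))‖ ^ 2 with hB
  have hA0 : ∀ l, 0 ≤ A l := fun l => by simp only [hA]; positivity
  have hB0 : ∀ l, 0 ≤ B l := fun l => by simp only [hB]; positivity
  have h2 : ∀ l ∈ P, ‖∑ m ∈ range M, ∑ n ∈ range N, x m * y n * kapN l (a l) (m * n)‖ ≤
      2 / √y0 * (√(A l) * √(B l)) := by
    intro l hl
    obtain ⟨hlp, hlQ, hly⟩ := hP l hl
    have : Fact l.Prime := ⟨hlp⟩
    have ha' : (a l : ZMod l) ≠ 0 := by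
      rw [Ne, ZMod.natCast_eq_zero_iff]; exact ha l hl
    have h := bilin_seq l M N x y (a l : ZMod l) ha'
    rw [sum_erase_eq, sum_erase_eq] at h
    have e1 : ∑ m ∈ range M, ∑ n ∈ range N, x m * y n * kapN l (a l) (m * n) =
        ∑ m ∈ range M, ∑ n ∈ range N, x m * y n * kap l (a l : ZMod l) ((m : ZMod l) * (n : ZMod l)) := by
      apply sum_congr rfl; intro m _
      apply sum_congr rfl; intro n _
      rw [kapN_eq, Nat.cast_mul]
    rw [e1]
    refine h.trans ?_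
    gcongr
  calc _ ≤ ∑ l ∈ P, ‖ε l * ∑ m ∈ range M, ∑ n ∈ range N, x m * y n * kapN l (a l) (m * n)‖ :=
        norm_sum_le _ _
    _ ≤ ∑ l ∈ P, 2 / √y0 * (√(A l) * √(B l)) := by
        apply sum_le_sum; intro l hl
        rw [norm_mul]
        calc _ ≤ 1 * ‖∑ m ∈ range M, ∑ n ∈ range N, x m * y n * kapN l (a l) (m * n)‖ := by
              gcongr; exact hε l hl
          _ ≤ _ := by rw [one_mul]; exact h2 l hl
    _ = 2 / √y0 * ∑ l ∈ P, √(A l) * √(B l) := by rw [mul_sum]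
    _ ≤ 2 / √y0 * (√(∑ l ∈ P, √(A l) ^ 2) * √(∑ l ∈ P, √(B l) ^ 2)) := by
        gcongr
        exact sum_mul_le_sqrt_mul_sqrt _ _ _
    _ = 2 / √y0 * (√(∑ l ∈ P, A l) * √(∑ l ∈ P, B l)) := by
        congr 2
        · congr 1; apply sum_congr rfl; intro l _; exact sq_sqrt (hA0 l)
        · congr 1; apply sum_congr rfl; intro l _; exact sq_sqrt (hB0 l)
    _ ≤ 2 / √y0 * (√(9 * (M + (Q : ℝ) ^ 2) * ∑ n ∈ range M, ‖x n‖ ^ 2) *
          √(9 * (N + (Q : ℝ) ^ 2) * ∑ n ∈ range N, ‖y n‖ ^ 2)) := by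
        have hP' : ∀ l ∈ P, l.Prime ∧ l ≤ Q := fun l hl => ⟨(hP l hl).1, (hP l hl).2.1⟩
        gcongr
        · exact prime_sieve P Q hP' M x
        · exact prime_sieve P Q hP' N y
    _ = _ := by
        rw [sqrt_mul (by positivity), sqrt_mul (by positivity), sqrt_mul (by positivity),
          sqrt_mul (by positivity)]
        have : √(9 : ℝ) = 3 := by
          rw [show (9 : ℝ) = 3 ^ 2 by norm_num]; exact sqrt_sq (by norm_num)
        rw [this]; ring

end Pool.Agent.Lib.MP_2a816b_nt
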