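import Mathlib
import Pool.Agent.Lib.MP_2a816b_nt.ModEll

/-!
# Product kernels for squarefree moduli
-/

open Finset Real

namespace Pool.Agent.Lib.MP_2a816b_nt

section matrix
variable (l : ℕ) [Fact l.Prime]

/-- Fourier coefficients of the kernel -/
noncomputable def Gm (a b b' : ZMod l) : ℂ :=
  (1 / (l : ℂ) ^ 2) * ∑ c : ZMod l, ∑ d : ZMod l, kap l a (c * d) * (ps l (-(b * c)) * ps l (-(b' * d)))

lemma l_ne : (l : ℂ) ≠ 0 := by
  have := one_lt_q l
  exact_mod_cast (by linarith : (l : ℝ) ≠ 0)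

lemma sum_kap_mul (a d : ZMod l) (ha : a ≠ 0) : ∑ c : ZMod l, kap l a (c * d) = 0 := by
  by_cases hd : d = 0
  · subst hd
    apply sum_eq_zero; intro c _
    rw [mul_zero, kap_zero]
  · rw [← sum_kap l a ha]
    exact Fintype.sum_equiv (Equiv.mulRight₀ d hd) _ _ (fun c => rfl)

lemma Gm_zero_left (a b' : ZMod l) (ha : a ≠ 0) : Gm l a 0 b' = 0 := by
  unfold Gm
  rw [sum_comm]
  have : ∀ d ∈ (univ : Finset (ZMod l)), ∑ c : ZMod l, kap l a (c * d) * (ps l (-(0 * c)) * ps l (-(b' * d))) = 0 := by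
    intro d _
    have e1 : ∀ c ∈ (univ : Finset (ZMod l)), kap l a (c * d) * (ps l (-(0 * c)) * ps l (-(b' * d))) =
        kap l a (c * d) * ps l (-(b' * d)) := by
      intro c _
      rw [zero_mul, neg_zero, ps_zero, one_mul]
    rw [sum_congr rfl e1, ← sum_mul, sum_kap_mul l a d ha, zero_mul]
  rw [sum_eq_zero this, mul_zero]

lemma Gm_zero_right (a b : ZMod l) (ha : a ≠ 0) : Gm l a b 0 = 0 := by
  unfold Gm
  have : ∀ c ∈ (univ : Finset (ZMod l)), ∑ d : ZMod l, kap l a (c * d) * (ps l (-(b * c)) * ps l (-(0 * d))) = 0 := by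
    intro c _
    have e1 : ∀ d ∈ (univ : Finset (ZMod l)), kap l a (c * d) * (ps l (-(b * c)) * ps l (-(0 * d))) =
        kap l a (d * c) * ps l (-(b * c)) := by
      intro d _
      rw [zero_mul, neg_zero, ps_zero, mul_one, mul_comm c d]
    rw [sum_congr rfl e1, ← sum_mul, sum_kap_mul l a c ha, zero_mul]
  rw [sum_eq_zero this, mul_zero]

lemma Gm_inversion (a c0 d0 : ZMod l) (ha : a ≠ 0) : kap l a (c0 * d0) =
    ∑ b ∈ univ.erase (0 : ZMod l), ∑ b' ∈ univ.erase (0 : ZMod l),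
      Gm l a b b' * (ps l (b * c0) * ps l (b' * d0)) := by
  have h1 : ∑ b : ZMod l, ∑ b' : ZMod l, Gm l a b b' * (ps l (b * c0) * ps l (b' * d0)) =
      ∑ b ∈ univ.erase (0 : ZMod l), ∑ b' ∈ univ.erase (0 : ZMod l),
      Gm l a b b' * (ps l (b * c0) * ps l (b' * d0)) := by
    rw [← add_sum_erase univ _ (mem_univ (0 : ZMod l))]
    have e0 : ∑ b' : ZMod l, Gm l a 0 b' * (ps l (0 * c0) * ps l (b' * d0)) = 0 := by
      apply sum_eq_zero; intro b' _
      rw [Gm_zero_left l a b' ha, zero_mul]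
    rw [e0, zero_add]
    apply sum_congr rfl; intro b _
    rw [← add_sum_erase univ _ (mem_univ (0 : ZMod l)), Gm_zero_right l a b ha, zero_mul, zero_add]
  rw [← h1]
  unfold Gm
  have h2 : ∑ b : ZMod l, ∑ b' : ZMod l, (1 / (l : ℂ) ^ 2) * (∑ c : ZMod l, ∑ d : ZMod l,
      kap l a (c * d) * (ps l (-(b * c)) * ps l (-(b' * d)))) * (ps l (b * c0) * ps l (b' * d0)) =
      (1 / (l : ℂ) ^ 2) * ∑ c : ZMod l, ∑ d : ZMod l, kap l a (c * d) *
        ((∑ b : ZMod l, ps l (b * (c0 - c))) * (∑ b' : ZMod l, ps l (b' * (d0 - d)))) := by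
    have e1 : ∀ b b' c d : ZMod l, ps l (b * (c0 - c)) * ps l (b' * (d0 - d)) =
        (ps l (-(b * c)) * ps l (-(b' * d))) * (ps l (b * c0) * ps l (b' * d0)) := by
      intro b b' c d
      rw [show b * (c0 - c) = -(b * c) + b * c0 by ring, show b' * (d0 - d) = -(b' * d) + b' * d0 by ring,
        ps_add, ps_add]
      ring
    calc _ = ∑ b : ZMod l, ∑ b' : ZMod l, ∑ c : ZMod l, ∑ d : ZMod l, (1 / (l : ℂ) ^ 2) *
          (kap l a (c * d) * (ps l (b * (c0 - c)) * ps l (b' * (d0 - d)))) := by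
          apply sum_congr rfl; intro b _
          apply sum_congr rfl; intro b' _
          rw [mul_assoc, sum_mul, mul_sum]
          apply sum_congr rfl; intro c _
          rw [sum_mul, mul_sum]
          apply sum_congr rfl; intro d _
          rw [e1]; ring
      _ = ∑ c : ZMod l, ∑ d : ZMod l, ∑ b : ZMod l, ∑ b' : ZMod l, (1 / (l : ℂ) ^ 2) *
          (kap l a (c * d) * (ps l (b * (c0 - c)) * ps l (b' * (d0 - d)))) := by
          calc _ = ∑ b : ZMod l, ∑ c : ZMod l, ∑ b' : ZMod l, ∑ d : ZMod l, (1 / (l : ℂ) ^ 2) *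
                (kap l a (c * d) * (ps l (b * (c0 - c)) * ps l (b' * (d0 - d)))) := by
                apply sum_congr rfl; intro b _; rw [sum_comm]
            _ = ∑ c : ZMod l, ∑ b : ZMod l, ∑ b' : ZMod l, ∑ d : ZMod l, (1 / (l : ℂ) ^ 2) *
                (kap l a (c * d) * (ps l (b * (c0 - c)) * ps l (b' * (d0 - d)))) := sum_comm
            _ = ∑ c : ZMod l, ∑ b : ZMod l, ∑ d : ZMod l, ∑ b' : ZMod l, (1 / (l : ℂ) ^ 2) *
                (kap l a (c * d) * (ps l (b * (c0 - c)) * ps l (b' * (d0 - d)))) := by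
                apply sum_congr rfl; intro c _; apply sum_congr rfl; intro b _; rw [sum_comm]
            _ = _ := by
                apply sum_congr rfl; intro c _; rw [sum_comm]
      _ = _ := by
          rw [mul_sum]
          apply sum_congr rfl; intro c _
          rw [mul_sum]
          apply sum_congr rfl; intro d _
          rw [sum_mul_sum, mul_sum, mul_sum]
          apply sum_congr rfl; intro b _
          rw [mul_sum, mul_sum]
  rw [h2]
  have h3 : ∀ c d : ZMod l, kap l a (c * d) *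
        ((∑ b : ZMod l, ps l (b * (c0 - c))) * (∑ b' : ZMod l, ps l (b' * (d0 - d)))) =
      if c0 = c then (if d0 = d then kap l a (c * d) * (l : ℂ) ^ 2 else 0) else 0 := by
    intro c d
    rw [sum_ps, sum_ps]
    by_cases h1 : c0 = c
    · by_cases h2 : d0 = d
      · rw [if_pos (by rw [h1, sub_self]), if_pos (by rw [h2, sub_self]), if_pos h1, if_pos h2]
        ring
      · rw [if_neg (sub_ne_zero.2 h2), if_pos h1, if_neg h2]; ring
    · rw [if_neg (sub_ne_zero.2 h1), if_neg h1]; ring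
  simp_rw [h3]
  rw [sum_eq_single c0]
  · rw [sum_eq_single d0]
    · rw [if_pos rfl, if_pos rfl]
      have := l_ne l
      field_simp
    · intro d _ hd
      rw [if_pos rfl, if_neg (Ne.symm hd)]
    · intro h; exact absurd (mem_univ _) h
  · intro c _ hc
    apply sum_eq_zero; intro d _
    rw [if_neg (Ne.symm hc)]
  · intro h; exact absurd (mem_univ _) h

lemma Gm_form (a : ZMod l) (ha : a ≠ 0) (X Y : ZMod l → ℂ) :
    ‖∑ b ∈ univ.erase (0 : ZMod l), ∑ b' ∈ univ.erase (0 : ZMod l), Gm l a b b' * (X b * Y b')‖ ≤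
      2 / √l * (√(∑ b ∈ univ.erase (0 : ZMod l), ‖X b‖ ^ 2) *
        √(∑ b ∈ univ.erase (0 : ZMod l), ‖Y b‖ ^ 2)) := by
  have hl0 : (0 : ℝ) < l := by have := one_lt_q l; linarith
  set X' : ZMod l → ℂ := fun b => if b = 0 then 0 else X b with hX'
  set Y' : ZMod l → ℂ := fun b => if b = 0 then 0 else Y b with hY'
  set Xt : ZMod l → ℂ := fun c => ∑ b : ZMod l, X' b * ps l (-c * b) with hXt
  set Yt : ZMod l → ℂ := fun c => ∑ b : ZMod l, Y' b * ps l (-c * b) with hYt
  have hn : ∀ Z : ZMod l → ℂ, ∑ c : ZMod l, ‖∑ b : ZMod l, (if b = 0 then 0 else Z b) * ps l (-c * b)‖ ^ 2 =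
      l * ∑ b ∈ univ.erase (0 : ZMod l), ‖Z b‖ ^ 2 := by
    intro Z
    have h1 := parseval l (fun b => if b = 0 then 0 else Z b)
    have h2 : ∑ c : ZMod l, ‖∑ b : ZMod l, (if b = 0 then 0 else Z b) * ps l (-c * b)‖ ^ 2 =
        ∑ c : ZMod l, ‖∑ b : ZMod l, (if b = 0 then 0 else Z b) * ps l (c * b)‖ ^ 2 :=
      Fintype.sum_equiv (Equiv.neg (ZMod l)) _ _ (fun c => rfl)
    rw [h2, h1]
    congr 1
    rw [← add_sum_erase univ _ (mem_univ (0 : ZMod l)), if_pos rfl]
    simp only [norm_zero, ne_eq, OfNat.ofNat_ne_zero, not_false_eq_true, zero_pow, zero_add]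
    apply sum_congr rfl; intro b hb
    rw [mem_erase] at hb
    rw [if_neg hb.1]
  have hform : ∑ b ∈ univ.erase (0 : ZMod l), ∑ b' ∈ univ.erase (0 : ZMod l), Gm l a b b' * (X b * Y b') =
      (1 / (l : ℂ) ^ 2) * ∑ c : ZMod l, ∑ d : ZMod l, Xt c * Yt d * kap l a (c * d) := by
    have e0 : ∑ b ∈ univ.erase (0 : ZMod l), ∑ b' ∈ univ.erase (0 : ZMod l), Gm l a b b' * (X b * Y b') =
        ∑ b : ZMod l, ∑ b' : ZMod l, Gm l a b b' * (X' b * Y' b') := by
      rw [← add_sum_erase univ (fun b => ∑ b' : ZMod l, Gm l a b b' * (X' b * Y' b'))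
        (mem_univ (0 : ZMod l))]
      have z1 : ∑ b' : ZMod l, Gm l a 0 b' * (X' 0 * Y' b') = 0 := by
        apply sum_eq_zero; intro b' _
        rw [Gm_zero_left l a b' ha, zero_mul]
      rw [z1, zero_add]
      apply sum_congr rfl; intro b hb
      rw [← add_sum_erase univ (fun b' => Gm l a b b' * (X' b * Y' b')) (mem_univ (0 : ZMod l)),
        Gm_zero_right l a b ha, zero_mul, zero_add]
      apply sum_congr rfl; intro b' hb'
      rw [mem_erase] at hb hb'
      simp only [hX', hY']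
      rw [if_neg hb.1, if_neg hb'.1]
    rw [e0]
    unfold Gm
    calc _ = ∑ b : ZMod l, ∑ b' : ZMod l, ∑ c : ZMod l, ∑ d : ZMod l, (1 / (l : ℂ) ^ 2) *
          ((X' b * ps l (-c * b)) * (Y' b' * ps l (-d * b')) * kap l a (c * d)) := by
          apply sum_congr rfl; intro b _
          apply sum_congr rfl; intro b' _
          rw [mul_assoc, sum_mul, mul_sum]
          apply sum_congr rfl; intro c _
          rw [sum_mul, mul_sum]
          apply sum_congr rfl; intro d _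
          rw [show -c * b = -(b * c) by ring, show -d * b' = -(b' * d) by ring]
          ring
      _ = ∑ c : ZMod l, ∑ d : ZMod l, ∑ b : ZMod l, ∑ b' : ZMod l, (1 / (l : ℂ) ^ 2) *
          ((X' b * ps l (-c * b)) * (Y' b' * ps l (-d * b')) * kap l a (c * d)) := by
          calc _ = ∑ b : ZMod l, ∑ c : ZMod l, ∑ b' : ZMod l, ∑ d : ZMod l, (1 / (l : ℂ) ^ 2) *
                ((X' b * ps l (-c * b)) * (Y' b' * ps l (-d * b')) * kap l a (c * d)) := by
                apply sum_congr rfl; intro b _; rw [sum_comm]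
            _ = ∑ c : ZMod l, ∑ b : ZMod l, ∑ b' : ZMod l, ∑ d : ZMod l, (1 / (l : ℂ) ^ 2) *
                ((X' b * ps l (-c * b)) * (Y' b' * ps l (-d * b')) * kap l a (c * d)) := sum_comm
            _ = ∑ c : ZMod l, ∑ b : ZMod l, ∑ d : ZMod l, ∑ b' : ZMod l, (1 / (l : ℂ) ^ 2) *
                ((X' b * ps l (-c * b)) * (Y' b' * ps l (-d * b')) * kap l a (c * d)) := by
                apply sum_congr rfl; intro c _; apply sum_congr rfl; intro b _; rw [sum_comm]
            _ = _ := by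
                apply sum_congr rfl; intro c _; rw [sum_comm]
      _ = _ := by
          rw [mul_sum]
          apply sum_congr rfl; intro c _
          rw [mul_sum]
          apply sum_congr rfl; intro d _
          simp only [hXt, hYt]
          rw [sum_mul_sum, sum_mul, mul_sum]
          apply sum_congr rfl; intro b _
          rw [sum_mul, mul_sum]
  rw [hform, norm_mul]
  have hb := bilin_bound l Xt Yt 0 0 a ha
  simp only [sub_zero] at hb
  have hX2 : ∑ c : ZMod l, ‖Xt c‖ ^ 2 = l * ∑ b ∈ univ.erase (0 : ZMod l), ‖X b‖ ^ 2 := hn X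
  have hY2 : ∑ c : ZMod l, ‖Yt c‖ ^ 2 = l * ∑ b ∈ univ.erase (0 : ZMod l), ‖Y b‖ ^ 2 := hn Y
  rw [hX2, hY2, sqrt_mul hl0.le, sqrt_mul hl0.le] at hb
  have hnl : ‖(1 : ℂ) / (l : ℂ) ^ 2‖ = 1 / (l : ℝ) ^ 2 := by
    rw [norm_div, norm_one, norm_pow, Complex.norm_natCast]
  rw [hnl]
  have hs : √(l : ℝ) * √(l : ℝ) = l := mul_self_sqrt hl0.le
  have hs0 : 0 < √(l : ℝ) := sqrt_pos.2 hl0
  calc 1 / (l : ℝ) ^ 2 * ‖∑ c : ZMod l, ∑ d : ZMod l, Xt c * Yt d * kap l a (c * d)‖
      ≤ 1 / (l : ℝ) ^ 2 * (2 * √l * ((√l * √(∑ b ∈ univ.erase (0 : ZMod l), ‖X b‖ ^ 2)) *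
        (√l * √(∑ b ∈ univ.erase (0 : ZMod l), ‖Y b‖ ^ 2)))) := by gcongr
    _ = (√l * √l) * (√l * √l) / (l : ℝ) ^ 2 * (2 / √l * (√(∑ b ∈ univ.erase (0 : ZMod l), ‖X b‖ ^ 2) *
        √(∑ b ∈ univ.erase (0 : ZMod l), ‖Y b‖ ^ 2))) := by
        field_simp
    _ = _ := by
        rw [hs]
        have : (l : ℝ) * l / (l : ℝ) ^ 2 = 1 := by field_simp
        rw [this, one_mul]

lemma Gm_apply (a : ZMod l) (ha : a ≠ 0) (X : ZMod l → ℂ) :
    ∑ b' ∈ univ.erase (0 : ZMod l), ‖∑ b ∈ univ.erase (0 : ZMod l), Gm l a b b' * X b‖ ^ 2 ≤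
      4 / l * ∑ b ∈ univ.erase (0 : ZMod l), ‖X b‖ ^ 2 := by
  have hl0 : (0 : ℝ) < l := by have := one_lt_q l; linarith
  set W : ZMod l → ℂ := fun b' => ∑ b ∈ univ.erase (0 : ZMod l), Gm l a b b' * X b with hW
  set S : ℝ := ∑ b' ∈ univ.erase (0 : ZMod l), ‖W b'‖ ^ 2 with hS
  set T : ℝ := ∑ b ∈ univ.erase (0 : ZMod l), ‖X b‖ ^ 2 with hT
  have hS0 : 0 ≤ S := by positivity
  have hT0 : 0 ≤ T := by positivity
  have h1 := Gm_form l a ha X (fun b' => (starRingEnd ℂ) (W b'))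
  have h2 : ∑ b ∈ univ.erase (0 : ZMod l), ∑ b' ∈ univ.erase (0 : ZMod l),
      Gm l a b b' * (X b * (starRingEnd ℂ) (W b')) = (S : ℂ) := by
    rw [sum_comm, hS]
    push_cast
    apply sum_congr rfl; intro b' _
    rw [← Complex.mul_conj']
    have : W b' = ∑ b ∈ univ.erase (0 : ZMod l), Gm l a b b' * X b := rfl
    nth_rewrite 2 [this]
    rw [sum_mul]
    apply sum_congr rfl; intro b _
    ring
  rw [h2, Complex.norm_real, norm_eq_abs, abs_of_nonneg hS0] at h1
  simp only [RCLike.norm_conj] at h1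
  change S ≤ 2 / √l * (√T * √S) at h1
  have hsS : √S * √S = S := mul_self_sqrt hS0
  rcases eq_or_lt_of_le hS0 with h | h
  · change S ≤ 4 / l * T
    rw [← h]; positivity
  · have hsp : 0 < √S := sqrt_pos.2 h
    have h3 : √S ≤ 2 / √l * √T := by
      have : √S * √S ≤ (2 / √l * √T) * √S := by rw [hsS]; linarith
      exact le_of_mul_le_mul_right this hsp
    change S ≤ 4 / l * T
    calc S = √S ^ 2 := (sq_sqrt hS0).symm
      _ ≤ (2 / √l * √T) ^ 2 := by gcongr
      _ = 4 / l * T := by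
          rw [mul_pow, div_pow, sq_sqrt hl0.le, sq_sqrt hT0]; norm_num

end matrix

end Pool.Agent.Lib.MP_2a816b_nt
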