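import Mathlib
import Pool.Agent.Lib.MP_2a816b_nt.Tensor
import Pool.Agent.Lib.MP_2a816b_nt.Farey
import Pool.Agent.Lib.MP_2a816b_nt.PrimeSieve

/-!
# Bilinear forms with product kernels
-/

open Finset Real

namespace Pool.Agent.Lib.MP_2a816b_nt

/-- product kernel -/
noncomputable def kapF (a : ℕ → ℕ) (I : Finset ℕ) (n : ℕ) : ℂ := ∏ p ∈ I, kapN p (a p) n

/-- exponential sum of a sequence -/
noncomputable def hat (M : ℕ) (x : ℕ → ℂ) (β : ℝ) : ℂ := ∑ m ∈ range M, x m * e (m * β)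

/-- sum over the reduced fractions with denominator `∏ p ∈ I, p` -/
noncomputable def FS (I : Finset ℕ) (g : ℝ → ℝ) : ℝ :=
  ∑ b ∈ Cop (∏ p ∈ I, p), g ((b : ℝ) / ((∏ p ∈ I, p : ℕ) : ℝ))

lemma FS_empty (g : ℝ → ℝ) : FS ∅ g = g 0 := by
  unfold FS Cop
  rw [prod_empty]
  have : (range 1).filter (fun b => b.Coprime 1) = {0} := by
    ext b; simp
  rw [this, sum_singleton]
  simp

lemma prod_primes_pos (I : Finset ℕ) (hI : ∀ p ∈ I, p.Prime) : 0 < ∏ p ∈ I, p :=
  prod_pos (fun p hp => (hI p hp).pos)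

lemma coprime_prod_primes (l : ℕ) (I : Finset ℕ) (hl : l.Prime) (hI : ∀ p ∈ I, p.Prime)
    (hlI : l ∉ I) : l.Coprime (∏ p ∈ I, p) := by
  apply Nat.Coprime.prod_right
  intro p hp
  rw [Nat.coprime_primes hl (hI p hp)]
  rintro rfl
  exact hlI hp

lemma FS_insert (l : ℕ) (I : Finset ℕ) (hl : l.Prime) (hI : ∀ p ∈ I, p.Prime) (hlI : l ∉ I)
    (g : ℝ → ℝ) (hg : ∀ (x : ℝ) (m : ℤ), g (x + m) = g x) :
    FS (insert l I) g = ∑ b ∈ Cop l, FS I (fun β => g (b / l + β)) := by
  unfold FS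
  rw [prod_insert hlI]
  exact sum_Cop_mul l (∏ p ∈ I, p) hl.pos (prod_primes_pos I hI)
    (coprime_prod_primes l I hl hI hlI) g hg

lemma hat_periodic (M : ℕ) (x : ℕ → ℂ) (β : ℝ) (m : ℤ) : hat M x (β + m) = hat M x β := by
  unfold hat
  apply sum_congr rfl; intro n _
  congr 1
  have : (n : ℝ) * (β + m) = n * β + ((n * m : ℤ) : ℝ) := by push_cast; ring
  rw [this, e_add_int]

lemma sum_erase_val {E : Type*} [AddCommMonoid E] (l : ℕ) [Fact l.Prime] (f : ℕ → E) :
    ∑ b ∈ univ.erase (0 : ZMod l), f b.val = ∑ b ∈ Cop l, f b := by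
  apply sum_bij (fun (b : ZMod l) _ => b.val)
  · intro b hb
    rw [mem_erase] at hb
    unfold Cop
    rw [mem_filter, mem_range]
    refine ⟨ZMod.val_lt b, ?_⟩
    have hne : b.val ≠ 0 := by rw [Ne, ZMod.val_eq_zero]; exact hb.1
    rw [Nat.coprime_comm, (Fact.out : l.Prime).coprime_iff_not_dvd]
    intro h
    have := Nat.le_of_dvd (by omega) h
    have := ZMod.val_lt b
    omega
  · intro b _ b' _ h
    exact ZMod.val_injective l h
  · intro c hc
    unfold Cop at hc
    rw [mem_filter, mem_range] at hc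
    refine ⟨(c : ZMod l), ?_, ZMod.val_cast_of_lt hc.1⟩
    rw [mem_erase]
    refine ⟨?_, mem_univ _⟩
    rw [Ne, ZMod.natCast_eq_zero_iff]
    intro h
    have h1 := hc.2
    rw [Nat.coprime_comm, (Fact.out : l.Prime).coprime_iff_not_dvd] at h1
    exact h1 h
  · intro b _; rfl

lemma ps_mul_natCast (l : ℕ) [NeZero l] (b : ZMod l) (m : ℕ) :
    ps l (b * m) = e (m * (b.val / l)) := by
  have : b * (m : ZMod l) = ((b.val * m : ℕ) : ZMod l) := by
    rw [Nat.cast_mul, ZMod.natCast_zmod_val]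
  rw [this, ps_natCast]
  congr 1
  push_cast
  ring

lemma hat_twist (M : ℕ) (x : ℕ → ℂ) (θ β : ℝ) :
    hat M (fun m => e (m * θ) * x m) β = hat M x (θ + β) := by
  unfold hat
  apply sum_congr rfl; intro m _
  have : e (m * (θ + β)) = e (m * θ) * e (m * β) := by rw [← e_add]; congr 1; ring
  rw [this]; ring

lemma FS_congr (I : Finset ℕ) (g g' : ℝ → ℝ) (h : ∀ x, g x = g' x) : FS I g = FS I g' := by
  unfold FS
  apply sum_congr rfl; intro b _; exact h _

lemma FS_mono (I : Finset ℕ) (g g' : ℝ → ℝ) (h : ∀ x, g x ≤ g' x) : FS I g ≤ FS I g' := by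
  unfold FS
  apply sum_le_sum; intro b _; exact h _

lemma FS_nonneg (I : Finset ℕ) (g : ℝ → ℝ) (h : ∀ x, 0 ≤ g x) : 0 ≤ FS I g := by
  unfold FS
  exact sum_nonneg (fun b _ => h _)

lemma FS_sum {ι : Type*} (I : Finset ℕ) (s : Finset ι) (g : ι → ℝ → ℝ) :
    FS I (fun x => ∑ i ∈ s, g i x) = ∑ i ∈ s, FS I (g i) := by
  unfold FS
  rw [sum_comm]

lemma FS_mul (I : Finset ℕ) (c : ℝ) (g : ℝ → ℝ) : FS I (fun x => c * g x) = c * FS I g := by
  unfold FS
  rw [mul_sum]

/-- The bilinear bound for product kernels. -/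
theorem tensor_bound (a : ℕ → ℕ) (I : Finset ℕ) (hI : ∀ p ∈ I, p.Prime ∧ ¬ p ∣ a p) :
    ∀ (M N : ℕ) (x y : ℕ → ℂ),
      ‖∑ m ∈ range M, ∑ n ∈ range N, x m * y n * kapF a I (m * n)‖ ≤
        (∏ p ∈ I, (2 / √(p : ℝ))) * (√(FS I (fun β => ‖hat M x β‖ ^ 2)) *
          √(FS I (fun β => ‖hat N y β‖ ^ 2))) := by
  classical
  induction I using Finset.induction_on with
  | empty =>
    intro M N x y
    rw [FS_empty, FS_empty, prod_empty, one_mul, sqrt_sq (norm_nonneg _), sqrt_sq (norm_nonneg _),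
      ← norm_mul]
    apply le_of_eq
    congr 1
    unfold hat kapF
    rw [sum_mul_sum]
    apply sum_congr rfl; intro m _
    apply sum_congr rfl; intro n _
    simp
  | insert l I hlI ih =>
    intro M N x y
    have hIp : ∀ p ∈ I, p.Prime ∧ ¬ p ∣ a p := fun p hp => hI p (mem_insert_of_mem hp)
    have hl := hI l (mem_insert_self l I)
    have hfact : Fact l.Prime := ⟨hl.1⟩
    have ha : (a l : ZMod l) ≠ 0 := by rw [Ne, ZMod.natCast_eq_zero_iff]; exact hl.2
    have hlpos : (0 : ℝ) < l := by exact_mod_cast hl.1.pos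
    have ih' := ih hIp
    set C : ℝ := ∏ p ∈ I, (2 / √(p : ℝ)) with hC
    have hC0 : 0 ≤ C := prod_nonneg (fun p _ => by positivity)
    set G := Gm l (a l : ZMod l) with hG
    set X : ZMod l → ℕ → ℂ := fun b' m => (∑ b ∈ univ.erase (0 : ZMod l), G b b' * ps l (b * m)) * x m
      with hX
    set Y : ZMod l → ℕ → ℂ := fun b' n => e (n * (b'.val / l)) * y n with hY
    -- decomposition
    have h1 : ∑ m ∈ range M, ∑ n ∈ range N, x m * y n * kapF a (insert l I) (m * n) =
        ∑ b' ∈ univ.erase (0 : ZMod l), ∑ m ∈ range M, ∑ n ∈ range N,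
          X b' m * Y b' n * kapF a I (m * n) := by
      have e1 : ∀ m n : ℕ, x m * y n * kapF a (insert l I) (m * n) =
          ∑ b' ∈ univ.erase (0 : ZMod l), X b' m * Y b' n * kapF a I (m * n) := by
        intro m n
        unfold kapF
        rw [prod_insert hlI, kapN_eq, Nat.cast_mul, Gm_inversion l (a l) m n ha, sum_comm]
        simp only [hX, hY]
        rw [sum_mul, mul_sum]
        apply sum_congr rfl; intro b' _
        rw [← ps_mul_natCast l b' n, sum_mul, sum_mul, mul_sum, sum_mul, sum_mul]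
        apply sum_congr rfl; intro b _
        ring
      calc _ = ∑ m ∈ range M, ∑ n ∈ range N, ∑ b' ∈ univ.erase (0 : ZMod l),
            X b' m * Y b' n * kapF a I (m * n) := by
            apply sum_congr rfl; intro m _
            apply sum_congr rfl; intro n _
            exact e1 m n
        _ = ∑ m ∈ range M, ∑ b' ∈ univ.erase (0 : ZMod l), ∑ n ∈ range N,
            X b' m * Y b' n * kapF a I (m * n) := by
            apply sum_congr rfl; intro m _; rw [sum_comm]
        _ = _ := by rw [sum_comm]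
    rw [h1]
    -- the two families
    have hgx : ∀ (x : ℝ) (m : ℤ) (K : ℕ) (z : ℕ → ℂ), ‖hat K z (x + m)‖ ^ 2 = ‖hat K z x‖ ^ 2 := by
      intro x m K z; rw [hat_periodic]
    have hYsum : ∑ b' ∈ univ.erase (0 : ZMod l), FS I (fun β => ‖hat N (Y b') β‖ ^ 2) =
        FS (insert l I) (fun β => ‖hat N y β‖ ^ 2) := by
      rw [FS_insert l I hl.1 (fun p hp => (hIp p hp).1) hlI _ (fun t m => hgx t m N y)]
      rw [← sum_erase_val l (fun b => FS I (fun β => ‖hat N y (b / l + β)‖ ^ 2))]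
      apply sum_congr rfl; intro b' _
      apply FS_congr; intro β
      simp only [hY]
      rw [hat_twist]
    have hXsum : ∑ b' ∈ univ.erase (0 : ZMod l), FS I (fun β => ‖hat M (X b') β‖ ^ 2) ≤
        4 / l * FS (insert l I) (fun β => ‖hat M x β‖ ^ 2) := by
      rw [FS_insert l I hl.1 (fun p hp => (hIp p hp).1) hlI _ (fun t m => hgx t m M x)]
      rw [← FS_sum]
      have e1 : ∀ β : ℝ, ∑ b' ∈ univ.erase (0 : ZMod l), ‖hat M (X b') β‖ ^ 2 ≤
          4 / l * ∑ b ∈ Cop l, ‖hat M x (b / l + β)‖ ^ 2 := by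
        intro β
        have e2 : ∀ b' : ZMod l, hat M (X b') β = ∑ b ∈ univ.erase (0 : ZMod l),
            G b b' * hat M x ((b.val : ℝ) / l + β) := by
          intro b'
          unfold hat
          simp only [hX]
          simp_rw [mul_sum]
          rw [sum_comm]
          apply sum_congr rfl; intro m _
          rw [sum_mul, sum_mul]
          apply sum_congr rfl; intro b _
          rw [ps_mul_natCast]
          have : e (m * ((b.val : ℝ) / l + β)) = e (m * ((b.val : ℝ) / l)) * e (m * β) := by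
            rw [← e_add]; congr 1; ring
          rw [this]; ring
        have e3 := Gm_apply l (a l : ZMod l) ha (fun b => hat M x ((b.val : ℝ) / l + β))
        rw [sum_erase_val l (fun b => ‖hat M x ((b : ℝ) / l + β)‖ ^ 2)] at e3
        refine le_trans (le_of_eq ?_) e3
        apply sum_congr rfl; intro b' _
        rw [e2]
      calc _ ≤ FS I (fun β => 4 / l * ∑ b ∈ Cop l, ‖hat M x (b / l + β)‖ ^ 2) := FS_mono I _ _ e1
        _ = _ := by rw [FS_mul, FS_sum]
    -- conclusion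
    have hFX : 0 ≤ FS (insert l I) (fun β => ‖hat M x β‖ ^ 2) := FS_nonneg _ _ (fun β => by positivity)
    have hFY : 0 ≤ FS (insert l I) (fun β => ‖hat N y β‖ ^ 2) := FS_nonneg _ _ (fun β => by positivity)
    calc ‖∑ b' ∈ univ.erase (0 : ZMod l), ∑ m ∈ range M, ∑ n ∈ range N,
          X b' m * Y b' n * kapF a I (m * n)‖
        ≤ ∑ b' ∈ univ.erase (0 : ZMod l), ‖∑ m ∈ range M, ∑ n ∈ range N,
          X b' m * Y b' n * kapF a I (m * n)‖ := norm_sum_le _ _
      _ ≤ ∑ b' ∈ univ.erase (0 : ZMod l), C * (√(FS I (fun β => ‖hat M (X b') β‖ ^ 2)) *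
          √(FS I (fun β => ‖hat N (Y b') β‖ ^ 2))) := sum_le_sum (fun b' _ => ih' M N (X b') (Y b'))
      _ = C * ∑ b' ∈ univ.erase (0 : ZMod l), √(FS I (fun β => ‖hat M (X b') β‖ ^ 2)) *
          √(FS I (fun β => ‖hat N (Y b') β‖ ^ 2)) := by rw [mul_sum]
      _ ≤ C * (√(∑ b' ∈ univ.erase (0 : ZMod l), √(FS I (fun β => ‖hat M (X b') β‖ ^ 2)) ^ 2) *
          √(∑ b' ∈ univ.erase (0 : ZMod l), √(FS I (fun β => ‖hat N (Y b') β‖ ^ 2)) ^ 2)) := by
          gcongr
          exact sum_mul_le_sqrt_mul_sqrt _ _ _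
      _ = C * (√(∑ b' ∈ univ.erase (0 : ZMod l), FS I (fun β => ‖hat M (X b') β‖ ^ 2)) *
          √(∑ b' ∈ univ.erase (0 : ZMod l), FS I (fun β => ‖hat N (Y b') β‖ ^ 2))) := by
          congr 2
          · congr 1; apply sum_congr rfl; intro b' _
            exact sq_sqrt (FS_nonneg _ _ (fun β => by positivity))
          · congr 1; apply sum_congr rfl; intro b' _
            exact sq_sqrt (FS_nonneg _ _ (fun β => by positivity))
      _ ≤ C * (√(4 / l * FS (insert l I) (fun β => ‖hat M x β‖ ^ 2)) *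
          √(FS (insert l I) (fun β => ‖hat N y β‖ ^ 2))) := by
          rw [hYsum]
          gcongr
      _ = _ := by
          rw [prod_insert hlI, sqrt_mul (by positivity), sqrt_div (by norm_num)]
          have : √(4 : ℝ) = 2 := by
            rw [show (4 : ℝ) = 2 ^ 2 by norm_num]; exact sqrt_sq (by norm_num)
          rw [this]; ring

end Pool.Agent.Lib.MP_2a816b_nt
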