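import Mathlib
import Pool.Agent.Lib.MP_2a816b_nt.CoreGen
import Pool.Agent.Lib.MP_2a816b_nt.Tensor2
import Pool.Agent.Lib.MP_2a816b_nt.TypeII

/-!
# The mean value theorem over composite moduli
-/

open Finset Real

namespace Pool.Agent.Lib.MP_2a816b_nt

lemma kapN_add_mul (q : ℕ) (hq : q.Prime) (a n t : ℕ) : kapN q a (n + q * t) = kapN q a n := by
  have : Fact q.Prime := ⟨hq⟩
  rw [kapN_eq, kapN_eq]
  congr 1
  push_cast
  rw [ZMod.natCast_self q]
  ring

lemma norm_kapF_le (a : ℕ → ℕ) (I : Finset ℕ) (hI : ∀ p ∈ I, p.Prime) (n : ℕ) :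
    ‖kapF a I n‖ ≤ 2 ^ I.card := by
  unfold kapF
  rw [norm_prod, ← prod_const]
  apply prod_le_prod
  · intro p _; exact norm_nonneg _
  · intro p hp; exact norm_kapN_le p (hI p hp) (a p) n

/-- the kernel of a squarefree modulus, twisted -/
noncomputable def kd (a : ℕ → ℕ) (d r b n : ℕ) : ℂ :=
  kapF a d.primeFactors n * e ((n * b : ℕ) / r)

lemma kd_zero (a : ℕ → ℕ) (d r b : ℕ) (hd : 1 < d) : kd a d r b 0 = 0 := by
  unfold kd kapF
  obtain ⟨p, hp, hpd⟩ := Nat.exists_prime_and_dvd (show d ≠ 1 by omega)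
  have hmem : p ∈ d.primeFactors := by
    rw [Nat.mem_primeFactors]; exact ⟨hp, hpd, by omega⟩
  rw [prod_eq_zero hmem, zero_mul]
  unfold kapN
  rw [if_pos (dvd_zero p)]

lemma kd_norm_le (a : ℕ → ℕ) (d r b n k : ℕ) (hk : d.primeFactors.card ≤ k) :
    ‖kd a d r b n‖ ≤ 2 ^ k := by
  unfold kd
  rw [norm_mul, norm_e, mul_one]
  refine (norm_kapF_le a d.primeFactors (fun p hp => Nat.prime_of_mem_primeFactors hp) n).trans ?_
  exact pow_le_pow_right₀ (by norm_num) hk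

lemma e_add_period (n b r t : ℕ) (hr : 0 < r) :
    e (((n + r * t) * b : ℕ) / r) = e ((n * b : ℕ) / r) := by
  have hr' : (r : ℝ) ≠ 0 := by positivity
  have : (((n + r * t) * b : ℕ) : ℝ) / r = ((n * b : ℕ) : ℝ) / r + ((t * b : ℕ) : ℝ) := by
    push_cast
    field_simp
  rw [this, e_add, e_nat, mul_one]

lemma kd_periodic (a : ℕ → ℕ) (d r b m t : ℕ) (hr : 0 < r) :
    kd a d r b (m * (r * d + t)) = kd a d r b (m * t) := by
  unfold kd kapF
  congr 1
  · apply prod_congr rfl; intro p hp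
    rw [Nat.mem_primeFactors] at hp
    obtain ⟨c, hc⟩ := hp.2.1
    have : m * (r * d + t) = m * t + p * (m * r * c) := by
      nth_rewrite 1 [hc]; ring
    rw [this, kapN_add_mul p hp.1]
  · have : m * (r * d + t) = m * t + r * (m * d) := by ring
    rw [this, e_add_period _ _ _ _ hr]

lemma kd_complete (a : ℕ → ℕ) (d r b m : ℕ) (hd : 1 < d) (hsq : Squarefree d)
    (ha : ∀ p ∈ d.primeFactors, ¬ p ∣ a p) (hr : 0 < r) (hrd : r.Coprime d) :
    ∑ t ∈ range (r * d), kd a d r b (m * t) = 0 := by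
  obtain ⟨p, hp, hpd⟩ := Nat.exists_prime_and_dvd (show d ≠ 1 by omega)
  have hmem : p ∈ d.primeFactors := by
    rw [Nat.mem_primeFactors]; exact ⟨hp, hpd, by omega⟩
  have hfact : Fact p.Prime := ⟨hp⟩
  by_cases hm : p ∣ m
  · apply sum_eq_zero; intro t _
    unfold kd kapF
    rw [prod_eq_zero hmem, zero_mul]
    unfold kapN
    rw [if_pos (hm.mul_right t)]
  obtain ⟨d', hd'⟩ := hpd
  have hd'0 : 0 < d' := Nat.pos_of_ne_zero (by rintro rfl; simp at hd'; omega)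
  have hpd' : ¬ p ∣ d' := by
    intro h
    obtain ⟨c, hc⟩ := h
    have : p * p ∣ d := ⟨c, by rw [hd', hc]; ring⟩
    have := hsq p this
    exact hp.one_lt.ne' (Nat.isUnit_iff.1 this)
  have hpr : ¬ p ∣ r := by
    intro h
    have h2 : p ∣ Nat.gcd r d := Nat.dvd_gcd h ⟨d', hd'⟩
    rw [hrd] at h2
    exact hp.one_lt.ne' (Nat.dvd_one.1 h2)
  set R := r * d' with hR
  have hRd : r * d = R * p := by rw [hR, hd']; ring
  rw [hRd, sum_range_mul_eq R p (fun t => kd a d r b (m * t)), sum_comm]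
  apply sum_eq_zero; intro u _
  have h1 : ∀ v ∈ range p, kd a d r b (m * (R * v + u)) =
      kap p (a p : ZMod p) ((m : ZMod p) * R * (v : ZMod p) + m * u) *
        ((∏ q ∈ d.primeFactors.erase p, kapN q (a q) (m * u)) * e ((m * u * b : ℕ) / r)) := by
    intro v _
    unfold kd kapF
    rw [← mul_prod_erase _ _ hmem, mul_assoc]
    congr 1
    · rw [kapN_eq]
      congr 1
      push_cast
      ring
    · congr 1
      · apply prod_congr rfl; intro q hq
        rw [mem_erase, Nat.mem_primeFactors] at hq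
        have hqd' : q ∣ d' := by
          have h3 : q ∣ p * d' := by rw [← hd']; exact hq.2.2.1
          rcases (Nat.Prime.dvd_mul hq.2.1).1 h3 with h4 | h4
          · exact absurd ((Nat.prime_dvd_prime_iff_eq hq.2.1 hp).1 h4) hq.1
          · exact h4
        obtain ⟨c, hc⟩ := hqd'
        have : m * (R * v + u) = m * u + q * (m * r * c * v) := by
          rw [hR, hc]; ring
        rw [this, kapN_add_mul q hq.2.1]
      · have : m * (R * v + u) = m * u + r * (m * d' * v) := by rw [hR]; ring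
        rw [this, e_add_period _ _ _ _ hr]
  rw [sum_congr rfl h1, ← sum_mul]
  rw [sum_range_zmod p (fun v => kap p (a p : ZMod p) ((m : ZMod p) * R * v + m * u))]
  have hmr : (m : ZMod p) * R ≠ 0 := by
    apply mul_ne_zero
    · rw [Ne, ZMod.natCast_eq_zero_iff]; exact hm
    · rw [Ne, ZMod.natCast_eq_zero_iff, hR, hp.dvd_mul]
      push Not
      exact ⟨hpr, hpd'⟩
  have h2 : ∑ v : ZMod p, kap p (a p : ZMod p) ((m : ZMod p) * R * v + m * u) =
      ∑ w : ZMod p, kap p (a p : ZMod p) w := by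
    let eq1 : ZMod p ≃ ZMod p := (Equiv.mulLeft₀ ((m : ZMod p) * R) hmr).trans
      (Equiv.addRight ((m : ZMod p) * u))
    exact Fintype.sum_equiv eq1 _ _ (fun v => rfl)
  have ha' : (a p : ZMod p) ≠ 0 := by rw [Ne, ZMod.natCast_eq_zero_iff]; exact ha p hmem
  rw [h2, sum_kap p _ ha', zero_mul]

lemma kd_range (a : ℕ → ℕ) (d r b m k : ℕ) (hd : 1 < d) (hsq : Squarefree d)
    (ha : ∀ p ∈ d.primeFactors, ¬ p ∣ a p) (hr : 0 < r) (hrd : r.Coprime d)
    (hk : d.primeFactors.card ≤ k) (t : ℕ) :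
    ‖∑ s ∈ range t, kd a d r b (m * s)‖ ≤ 2 ^ k * (r * d) := by
  have h := periodic_sum_bound (fun s => kd a d r b (m * s)) (r * d) (2 ^ k)
    (Nat.mul_pos hr (by omega)) (fun s => kd_periodic a d r b m s hr)
    (kd_complete a d r b m hd hsq ha hr hrd) (fun s => kd_norm_le a d r b _ k hk) t
  push_cast at h
  exact h

/-- conditions on the moduli -/
structure Mods (DD : Finset ℕ) (Q k r : ℕ) (y0 : ℝ) : Prop where
  sq : ∀ d ∈ DD, Squarefree d
  one_lt : ∀ d ∈ DD, 1 < d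
  le : ∀ d ∈ DD, d ≤ Q
  ge : ∀ d ∈ DD, y0 ≤ d
  card : ∀ d ∈ DD, d.primeFactors.card ≤ k
  cop : ∀ d ∈ DD, r.Coprime d

lemma Mods.card_le {DD : Finset ℕ} {Q k r : ℕ} {y0 : ℝ} (h : Mods DD Q k r y0) :
    (DD.card : ℝ) ≤ Q := by
  have hsub : DD ⊆ Ioc 0 Q := by
    intro l hl
    rw [mem_Ioc]
    have := h.one_lt l hl
    exact ⟨by omega, h.le l hl⟩
  have := Finset.card_le_card hsub
  rw [Nat.card_Ioc, Nat.sub_zero] at this
  exact_mod_cast this

lemma prod_two_div_sqrt (d k : ℕ) (y0 : ℝ) (hy0 : 0 < y0) (hsq : Squarefree d) (hd : y0 ≤ d)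
    (hk : d.primeFactors.card ≤ k) : ∏ p ∈ d.primeFactors, (2 / √(p : ℝ)) ≤ 2 ^ k / √y0 := by
  rw [prod_div_distrib, prod_const]
  have h1 : ∏ p ∈ d.primeFactors, √(p : ℝ) = √(d : ℝ) := by
    have h2 : ∀ s : Finset ℕ, ∏ p ∈ s, √(p : ℝ) = √((∏ p ∈ s, p : ℕ) : ℝ) := by
      intro s
      induction s using Finset.induction_on with
      | empty => simp
      | insert q s hq ih =>
        rw [prod_insert hq, prod_insert hq, ih]
        push_cast
        rw [sqrt_mul (by positivity)]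
    rw [h2, Nat.prod_primeFactors_of_squarefree hsq]
  rw [h1]
  gcongr
  norm_num

/-- the averaged kernel of composite moduli has small operator norm -/
lemma opB_kernel2 (DD : Finset ℕ) (Q k r : ℕ) (y0 : ℝ) (hy0 : 0 < y0) (hD : Mods DD Q k r y0)
    (a : ℕ → ℕ → ℕ) (ha : ∀ d ∈ DD, ∀ p ∈ d.primeFactors, ¬ p ∣ a d p)
    (ε : ℕ → ℂ) (hε : ∀ d ∈ DD, ‖ε d‖ ≤ 1) (M N : ℕ) :
    OpB (fun m n => ∑ d ∈ DD, ε d * kapF (a d) d.primeFactors (m * n)) M N
      (9 * 2 ^ k / √y0 * (√(M + (Q : ℝ) ^ 2) * √(N + (Q : ℝ) ^ 2))) := by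
  intro x y
  have h1 : ∑ m ∈ range M, ∑ n ∈ range N, x m * y n *
      ∑ d ∈ DD, ε d * kapF (a d) d.primeFactors (m * n) =
      ∑ d ∈ DD, ε d * ∑ m ∈ range M, ∑ n ∈ range N, x m * y n *
        kapF (a d) d.primeFactors (m * n) := by
    calc _ = ∑ m ∈ range M, ∑ n ∈ range N, ∑ d ∈ DD, x m * y n *
          (ε d * kapF (a d) d.primeFactors (m * n)) := by
          simp only [mul_sum]
      _ = ∑ m ∈ range M, ∑ d ∈ DD, ∑ n ∈ range N, x m * y n *
          (ε d * kapF (a d) d.primeFactors (m * n)) := by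
          apply sum_congr rfl; intro m _; rw [sum_comm]
      _ = ∑ d ∈ DD, ∑ m ∈ range M, ∑ n ∈ range N, x m * y n *
          (ε d * kapF (a d) d.primeFactors (m * n)) := by
          rw [sum_comm]
      _ = _ := by
          apply sum_congr rfl; intro l _
          rw [mul_sum]
          apply sum_congr rfl; intro m _
          rw [mul_sum]
          apply sum_congr rfl; intro n _
          ring
  rw [h1]
  set A : ℕ → ℝ := fun d => ∑ b ∈ Cop d, ‖∑ n ∈ range M, x n * e (n * ((b : ℝ) / d))‖ ^ 2 with hA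
  set B : ℕ → ℝ := fun d => ∑ b ∈ Cop d, ‖∑ n ∈ range N, y n * e (n * ((b : ℝ) / d))‖ ^ 2 with hB
  have hA0 : ∀ l, 0 ≤ A l := fun l => by simp only [hA]; positivity
  have hB0 : ∀ l, 0 ≤ B l := fun l => by simp only [hB]; positivity
  have h2 : ∀ d ∈ DD, ‖∑ m ∈ range M, ∑ n ∈ range N, x m * y n *
      kapF (a d) d.primeFactors (m * n)‖ ≤ 2 ^ k / √y0 * (√(A d) * √(B d)) := by
    intro d hd
    have h := tensor_bound (a d) d.primeFactors
      (fun p hp => ⟨Nat.prime_of_mem_primeFactors hp, ha d hd p hp⟩) M N x y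
    have hFS : ∀ g : ℝ → ℝ, FS d.primeFactors g = ∑ b ∈ Cop d, g ((b : ℝ) / d) := by
      intro g
      unfold FS
      rw [Nat.prod_primeFactors_of_squarefree (hD.sq d hd)]
    rw [hFS, hFS] at h
    refine h.trans ?_
    apply mul_le_mul_of_nonneg_right _ (by positivity)
    exact prod_two_div_sqrt d k y0 hy0 (hD.sq d hd) (hD.ge d hd) (hD.card d hd)
  calc _ ≤ ∑ d ∈ DD, ‖ε d * ∑ m ∈ range M, ∑ n ∈ range N, x m * y n *
        kapF (a d) d.primeFactors (m * n)‖ := norm_sum_le _ _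
    _ ≤ ∑ d ∈ DD, 2 ^ k / √y0 * (√(A d) * √(B d)) := by
        apply sum_le_sum; intro l hl
        rw [norm_mul]
        calc _ ≤ 1 * ‖∑ m ∈ range M, ∑ n ∈ range N, x m * y n *
              kapF (a l) l.primeFactors (m * n)‖ := by
              gcongr; exact hε l hl
          _ ≤ _ := by rw [one_mul]; exact h2 l hl
    _ = 2 ^ k / √y0 * ∑ d ∈ DD, √(A d) * √(B d) := by rw [mul_sum]
    _ ≤ 2 ^ k / √y0 * (√(∑ d ∈ DD, √(A d) ^ 2) * √(∑ d ∈ DD, √(B d) ^ 2)) := by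
        gcongr
        exact sum_mul_le_sqrt_mul_sqrt _ _ _
    _ = 2 ^ k / √y0 * (√(∑ d ∈ DD, A d) * √(∑ d ∈ DD, B d)) := by
        congr 2
        · congr 1; apply sum_congr rfl; intro l _; exact sq_sqrt (hA0 l)
        · congr 1; apply sum_congr rfl; intro l _; exact sq_sqrt (hB0 l)
    _ ≤ 2 ^ k / √y0 * (√(9 * (M + (Q : ℝ) ^ 2) * ∑ n ∈ range M, ‖x n‖ ^ 2) *
          √(9 * (N + (Q : ℝ) ^ 2) * ∑ n ∈ range N, ‖y n‖ ^ 2)) := by
        have hP' : ∀ d ∈ DD, 0 < d ∧ d ≤ Q := fun d hd => by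
          have := hD.one_lt d hd
          exact ⟨by omega, hD.le d hd⟩
        gcongr
        · exact farey_sieve DD Q hP' M x
        · exact farey_sieve DD Q hP' N y
    _ = _ := by
        rw [sqrt_mul (by positivity), sqrt_mul (by positivity), sqrt_mul (by positivity),
          sqrt_mul (by positivity)]
        have : √(9 : ℝ) = 3 := by
          rw [show (9 : ℝ) = 3 ^ 2 by norm_num]; exact sqrt_sq (by norm_num)
        rw [this]; ring

/-- The mean value theorem over composite moduli. -/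
theorem core2 (DD : Finset ℕ) (Q k r : ℕ) (y0 : ℝ) (hy0 : 0 < y0) (hD : Mods DD Q k r y0)
    (a : ℕ → ℕ → ℕ) (ha : ∀ d ∈ DD, ∀ p ∈ d.primeFactors, ¬ p ∣ a d p)
    (hr : 0 < r) (b : ℕ) (N U L : ℕ) (hU : 1 ≤ U)
    (hU3 : U * U * U ≤ N) (hL : N + 1 < 2 ^ L) :
    ∑ d ∈ DD, ‖tw N (kd (a d) d r b) vM‖ ≤ 4 * 2 ^ k * L * r * U * Q ^ 2 +
      72 * 2 ^ k * L ^ 4 * √r * N / √y0 * √(1 + (Q : ℝ) ^ 2 / U + (Q : ℝ) ^ 4 / N) := by
  choose ε hε1 hε2 using fun d => exists_phase (tw N (kd (a d) d r b) vM)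
  set κ : ℕ → ℂ := fun n => ∑ d ∈ DD, ε d * kd (a d) d r b n with hκ
  have hrr : (1 : ℝ) ≤ r := by exact_mod_cast hr
  have hcard := hD.card_le
  have hQ0 : (0 : ℝ) ≤ Q := by positivity
  have hsum : ((∑ d ∈ DD, ‖tw N (kd (a d) d r b) vM‖ : ℝ) : ℂ) = tw N κ vM := by
    push_cast
    rw [sum_congr rfl (fun d _ => (hε2 d).symm)]
    unfold tw
    simp only [mul_sum, hκ]
    rw [sum_comm]
    apply sum_congr rfl; intro n _
    apply sum_congr rfl; intro d _
    ring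
  have hsum2 : ∑ d ∈ DD, ‖tw N (kd (a d) d r b) vM‖ = ‖tw N κ vM‖ := by
    rw [← hsum, Complex.norm_real, norm_eq_abs, abs_of_nonneg (by positivity)]
  rw [hsum2]
  set C : ℝ := 2 ^ k * r * Q ^ 2 with hC
  set T0 : ℝ := 36 * 2 ^ k * √r * N / √y0 * √(1 + (Q : ℝ) ^ 2 / U + (Q : ℝ) ^ 4 / N) with hT0
  have hT00 : 0 ≤ T0 := by positivity
  -- conditions for core1
  have hκ0 : κ 0 = 0 := by
    simp only [hκ]
    apply sum_eq_zero; intro d hd
    rw [kd_zero _ _ _ _ (hD.one_lt d hd), mul_zero]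
  have hQ1 : ∀ d ∈ DD, (1 : ℝ) ≤ Q := fun d hd => by
    have h1 := hD.one_lt d hd
    have h2 := hD.le d hd
    exact_mod_cast (by omega : 1 ≤ Q)
  have hκn : ∀ n, ‖κ n‖ ≤ C := by
    intro n
    simp only [hκ]
    calc _ ≤ ∑ d ∈ DD, ‖ε d * kd (a d) d r b n‖ := norm_sum_le _ _
      _ ≤ ∑ d ∈ DD, 2 ^ k * r * (Q : ℝ) := by
          apply sum_le_sum; intro d hd
          rw [norm_mul]
          calc _ ≤ 1 * 2 ^ k := by
                gcongr
                · exact hε1 d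
                · exact kd_norm_le (a d) d r b n k (hD.card d hd)
            _ ≤ 2 ^ k * r * (Q : ℝ) := by
                have := hQ1 d hd
                have h2 : (1 : ℝ) ≤ r * Q := by nlinarith
                have h3 : (0 : ℝ) < 2 ^ k := by positivity
                nlinarith
      _ = DD.card * (2 ^ k * r * (Q : ℝ)) := by rw [sum_const, nsmul_eq_mul]
      _ ≤ Q * (2 ^ k * r * (Q : ℝ)) := by gcongr
      _ = C := by rw [hC]; ring
  have hI : ∀ m t, ‖∑ s ∈ range t, κ (m * s)‖ ≤ C := by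
    intro m t
    have e1 : ∑ s ∈ range t, κ (m * s) = ∑ d ∈ DD, ε d * ∑ s ∈ range t, kd (a d) d r b (m * s) := by
      simp only [hκ, mul_sum]
      rw [sum_comm]
    rw [e1]
    calc _ ≤ ∑ d ∈ DD, ‖ε d * ∑ s ∈ range t, kd (a d) d r b (m * s)‖ := norm_sum_le _ _
      _ ≤ ∑ d ∈ DD, 2 ^ k * r * (Q : ℝ) := by
          apply sum_le_sum; intro d hd
          rw [norm_mul]
          calc _ ≤ 1 * ((2 : ℝ) ^ k * ((r : ℝ) * d)) := by
                gcongr
                · exact hε1 d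
                · exact kd_range (a d) d r b m k (hD.one_lt d hd) (hD.sq d hd) (ha d hd) hr
                    (hD.cop d hd) (hD.card d hd) t
            _ ≤ 2 ^ k * r * (Q : ℝ) := by
                have : (d : ℝ) ≤ Q := by exact_mod_cast hD.le d hd
                rw [one_mul, ← mul_assoc]
                gcongr
      _ = DD.card * (2 ^ k * r * (Q : ℝ)) := by rw [sum_const, nsmul_eq_mul]
      _ ≤ Q * (2 ^ k * r * (Q : ℝ)) := by gcongr
      _ = C := by rw [hC]; ring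
  have hop : ∀ i, OpB (fun m n => κ (m * n)) (2 ^ (i + 1)) (N / 2 ^ i + 1)
      (√r * (9 * 2 ^ k / √y0 * (√(((2 ^ (i + 1) : ℕ) : ℝ) + (Q : ℝ) ^ 2) *
        √(((N / 2 ^ i + 1 : ℕ) : ℝ) + (Q : ℝ) ^ 2)))) := by
    intro i
    have h := twist _ (2 ^ (i + 1)) (N / 2 ^ i + 1) _ (by positivity)
        (opB_kernel2 DD Q k r y0 hy0 hD a ha ε (fun l _ => hε1 l) (2 ^ (i + 1)) (N / 2 ^ i + 1)) r hr b
    have e1 : (fun m n => (∑ d ∈ DD, ε d * kapF (a d) d.primeFactors (m * n)) *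
        e ((m * n * b : ℕ) / r)) = fun m n => κ (m * n) := by
      ext m n
      simp only [hκ, kd]
      rw [sum_mul]
      apply sum_congr rfl; intro d _
      ring
    rw [e1] at h
    exact h
  have hII : ∀ f g : ℕ → ℝ, (∀ m, m ≤ N → |f m| ≤ L) → (∀ n, n ≤ N → |g n| ≤ L) →
      (∀ m, f m ≠ 0 → U < m ∧ m * U ≤ N) →
      ‖∑ m ∈ Ioc 0 N, ∑ n ∈ Ioc 0 (N / m), (f m : ℂ) * (g n : ℂ) * κ (m * n)‖ ≤
        L ^ 2 * (L : ℝ) ^ 2 * T0 := by
    intro f g hf hg hf0
    apply typeII1 (fun m n => κ (m * n)) N U L hL T0 hT00 _ _ (fun i _ _ _ => hop i) _ f g L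
      (by positivity) hf hg hf0
    · intro i; positivity
    · intro i h1 h2 h3
      have hn := block_numeric N U Q i hU h1 h2 h3
      calc _ = (9 * 2 ^ k * √r / √y0) * (√(((2 ^ (i + 1) : ℕ) : ℝ) + (Q : ℝ) ^ 2) *
              √(((N / 2 ^ i + 1 : ℕ) : ℝ) + (Q : ℝ) ^ 2) * (√(2 ^ i) * √(2 * N / 2 ^ i))) := by
            ring
        _ ≤ (9 * 2 ^ k * √r / √y0) *
            (4 * N * √(1 + (Q : ℝ) ^ 2 / U + (Q : ℝ) ^ 4 / N)) := by gcongr
        _ = T0 := by rw [hT0]; ring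
  have hfin := core1 κ N U L hU3 hL C _ hκ0 hκn hI hII
  refine hfin.trans (le_of_eq ?_)
  rw [hC, hT0]
  ring

end Pool.Agent.Lib.MP_2a816b_nt
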