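import Mathlib
import Pool.Agent.Lib.MP_2a816b_nt.Core2

/-!
# Expansion of additive characters of squarefree modulus
-/

open Finset Real

namespace Pool.Agent.Lib.MP_2a816b_nt

/-- the residue of `c / m` at the prime `p` -/
noncomputable def fam (c m p : ℕ) : ℕ := ((c : ZMod p) * ((m / p : ℕ) : ZMod p)⁻¹).val

lemma sqfree_not_dvd {m p : ℕ} (hp : p.Prime) (hsq : Squarefree m) (hpm : p ∣ m) :
    ¬ p ∣ m / p := by
  intro h
  obtain ⟨c, hc⟩ := h
  have : p * p ∣ m := ⟨c, by rw [mul_assoc, ← hc, Nat.mul_div_cancel' hpm]⟩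
  exact hp.one_lt.ne' (Nat.isUnit_iff.1 (hsq p this))

lemma fam_mul (c m p : ℕ) (hp : p.Prime) (hsq : Squarefree m) (hpm : p ∣ m) :
    ((fam c m p : ℕ) : ZMod p) * ((m / p : ℕ) : ZMod p) = c := by
  have : Fact p.Prime := ⟨hp⟩
  unfold fam
  rw [ZMod.natCast_zmod_val, mul_assoc, inv_mul_cancel₀, mul_one]
  rw [Ne, ZMod.natCast_eq_zero_iff]
  exact sqfree_not_dvd hp hsq hpm

lemma fam_not_dvd (c m p : ℕ) (hp : p.Prime) (hsq : Squarefree m) (hpm : p ∣ m)
    (hc : c.Coprime m) : ¬ p ∣ fam c m p := by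
  have : Fact p.Prime := ⟨hp⟩
  intro h
  have h1 := fam_mul c m p hp hsq hpm
  rw [(ZMod.natCast_eq_zero_iff _ _).2 h, zero_mul] at h1
  have h2 : p ∣ c := (ZMod.natCast_eq_zero_iff _ _).1 h1.symm
  have h3 : p ∣ Nat.gcd c m := Nat.dvd_gcd h2 hpm
  rw [hc] at h3
  exact hp.one_lt.ne' (Nat.dvd_one.1 h3)

lemma e_sum {ι : Type*} (s : Finset ι) (f : ι → ℝ) : e (∑ i ∈ s, f i) = ∏ i ∈ s, e (f i) := by
  classical
  induction s using Finset.induction_on with
  | empty => simp
  | insert a s ha ih => rw [sum_insert ha, prod_insert ha, e_add, ih]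

lemma fam_sum (c m : ℕ) (hsq : Squarefree m) :
    ∃ t : ℤ, ∑ p ∈ m.primeFactors, ((fam c m p : ℕ) : ℝ) / p = (c : ℝ) / m + t := by
  have hm0 : m ≠ 0 := hsq.ne_zero
  have hmr : (m : ℝ) ≠ 0 := by exact_mod_cast hm0
  obtain ⟨w, hw⟩ : ∃ w : ℕ → ℕ, ∀ p, w p = m / p := ⟨fun p => m / p, fun _ => rfl⟩
  have key : (m : ℤ) ∣ ∑ p ∈ m.primeFactors, ((fam c m p : ℕ) : ℤ) * ((w p : ℕ) : ℤ) - c := by
    have hprod : (m : ℤ) = ∏ p ∈ m.primeFactors, (p : ℤ) := by
      have := Nat.prod_primeFactors_of_squarefree hsq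
      nth_rewrite 1 [← this]
      push_cast
      rfl
    rw [hprod]
    apply Finset.prod_dvd_of_coprime
    · intro p hp q hq hpq
      rw [mem_coe, Nat.mem_primeFactors] at hp hq
      simp only [Function.onFun]
      rw [Nat.isCoprime_iff_coprime, Nat.coprime_primes hp.1 hq.1]
      exact hpq
    · intro q hq
      have hq' := hq
      rw [Nat.mem_primeFactors] at hq'
      have : Fact q.Prime := ⟨hq'.1⟩
      rw [← ZMod.intCast_zmod_eq_zero_iff_dvd]
      push_cast
      rw [sum_eq_single_of_mem q hq, hw, fam_mul c m q hq'.1 hsq hq'.2.1, sub_self]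
      intro p hp hpq
      rw [Nat.mem_primeFactors] at hp
      have : q ∣ m / p := by
        have h1 : q ∣ p * (m / p) := by rw [Nat.mul_div_cancel' hp.2.1]; exact hq'.2.1
        rcases (Nat.Prime.dvd_mul hq'.1).1 h1 with h2 | h2
        · exact absurd ((Nat.prime_dvd_prime_iff_eq hq'.1 hp.1).1 h2).symm hpq
        · exact h2
      rw [hw, (ZMod.natCast_eq_zero_iff _ _).2 this, mul_zero]
  obtain ⟨t, ht⟩ := key
  refine ⟨t, ?_⟩
  have h1 : ∑ p ∈ m.primeFactors, ((fam c m p : ℕ) : ℝ) / p =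
      (∑ p ∈ m.primeFactors, ((fam c m p : ℕ) : ℝ) * ((w p : ℕ) : ℝ)) / m := by
    rw [sum_div]
    apply sum_congr rfl; intro p hp
    rw [Nat.mem_primeFactors] at hp
    have hp0 : (p : ℝ) ≠ 0 := by exact_mod_cast hp.1.ne_zero
    have h2 : ((w p : ℕ) : ℝ) = m / p := by rw [hw]; exact Nat.cast_div hp.2.1 hp0
    rw [h2]
    field_simp
  rw [h1]
  have h3 : ∑ p ∈ m.primeFactors, ((fam c m p : ℕ) : ℝ) * ((w p : ℕ) : ℝ) = c + m * t := by
    have : ((∑ p ∈ m.primeFactors, ((fam c m p : ℕ) : ℤ) * ((w p : ℕ) : ℤ) - c : ℤ) : ℝ) =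
        ((m : ℤ) * t : ℤ) := by rw [ht]
    push_cast at this
    linarith
  rw [h3]
  field_simp

lemma e_fam (c m n : ℕ) (hsq : Squarefree m) :
    e (n * ((c : ℝ) / m)) = ∏ p ∈ m.primeFactors, e ((fam c m p : ℕ) * n / p) := by
  obtain ⟨t, ht⟩ := fam_sum c m hsq
  have h1 : (n : ℝ) * ((c : ℝ) / m) + ((n * t : ℤ) : ℝ) =
      ∑ p ∈ m.primeFactors, ((fam c m p : ℕ) : ℝ) * n / p := by
    have : ∑ p ∈ m.primeFactors, ((fam c m p : ℕ) : ℝ) * n / p =
        n * ∑ p ∈ m.primeFactors, ((fam c m p : ℕ) : ℝ) / p := by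
      rw [mul_sum]
      apply sum_congr rfl; intro p _
      ring
    rw [this, ht]
    push_cast
    ring
  rw [← e_sum, ← h1, e_add_int]

/-- the coefficient `μ(q)/φ(q)` -/
noncomputable def gq (q : ℕ) : ℂ := ∏ p ∈ q.primeFactors, (-1 / ((p : ℂ) - 1))

lemma gq_one : gq 1 = 1 := by unfold gq; simp

lemma totient_sqfree (q : ℕ) (hsq : Squarefree q) :
    (q.totient : ℝ) = ∏ p ∈ q.primeFactors, ((p : ℝ) - 1) := by
  have h1 := Nat.totient_mul_prod_primeFactors q
  rw [Nat.prod_primeFactors_of_squarefree hsq, mul_comm] at h1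
  have h2 := Nat.eq_of_mul_eq_mul_left (Nat.pos_of_ne_zero hsq.ne_zero) h1
  rw [h2]
  push_cast
  apply prod_congr rfl; intro p hp
  have := (Nat.prime_of_mem_primeFactors hp).one_lt
  rw [Nat.cast_sub this.le]
  simp

lemma norm_gq (q : ℕ) (hsq : Squarefree q) : ‖gq q‖ = 1 / q.totient := by
  unfold gq
  rw [norm_prod, totient_sqfree q hsq, one_div, ← prod_inv_distrib]
  apply prod_congr rfl; intro p hp
  have h2 : (2 : ℝ) ≤ p := by exact_mod_cast (Nat.prime_of_mem_primeFactors hp).two_le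
  have h4 : ((p : ℂ) - 1) = ((p - 1 : ℝ) : ℂ) := by push_cast; ring
  rw [norm_div, h4, Complex.norm_real, norm_neg, norm_one, norm_eq_abs, abs_of_pos (by linarith),
    one_div]

lemma sum_powerset_divisors (m : ℕ) (hsq : Squarefree m) (G : Finset ℕ → ℂ) :
    ∑ t ∈ m.primeFactors.powerset, G t = ∑ d ∈ m.divisors, G d.primeFactors := by
  refine sum_bij' (fun t _ => ∏ p ∈ t, p) (fun d _ => d.primeFactors) ?_ ?_ ?_ ?_ ?_
  · intro t ht
    rw [mem_powerset] at ht
    rw [Nat.mem_divisors]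
    refine ⟨?_, hsq.ne_zero⟩
    have := prod_dvd_prod_of_subset t m.primeFactors (fun p => p) ht
    rwa [Nat.prod_primeFactors_of_squarefree hsq] at this
  · intro d hd
    rw [Nat.mem_divisors] at hd
    rw [mem_powerset]
    exact Nat.primeFactors_mono hd.1 hd.2
  · intro t ht
    rw [mem_powerset] at ht
    exact Nat.primeFactors_prod (fun p hp => Nat.prime_of_mem_primeFactors (ht hp))
  · intro d hd
    rw [Nat.mem_divisors] at hd
    exact Nat.prod_primeFactors_of_squarefree (hsq.squarefree_of_dvd hd.1)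
  · intro t ht
    rw [mem_powerset] at ht
    rw [Nat.primeFactors_prod (fun p hp => Nat.prime_of_mem_primeFactors (ht hp))]

lemma primeFactors_sdiff (m d : ℕ) (hsq : Squarefree m) (hd : d ∣ m) :
    m.primeFactors \ d.primeFactors = (m / d).primeFactors := by
  obtain ⟨c, hc⟩ := hd
  have hm0 := hsq.ne_zero
  have hd0 : d ≠ 0 := by rintro rfl; simp at hc; exact hm0 hc
  have hc0 : c ≠ 0 := by rintro rfl; simp at hc; exact hm0 hc
  have h1 : m / d = c := by rw [hc]; exact Nat.mul_div_cancel_left c (Nat.pos_of_ne_zero hd0)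
  rw [h1]
  have hcop : d.Coprime c := by
    rw [hc] at hsq
    exact (Nat.squarefree_mul_iff.1 hsq).1
  ext p
  rw [mem_sdiff, Nat.mem_primeFactors, Nat.mem_primeFactors, Nat.mem_primeFactors]
  constructor
  · rintro ⟨⟨hp, hpm, _⟩, h2⟩
    refine ⟨hp, ?_, hc0⟩
    rw [hc] at hpm
    rcases (Nat.Prime.dvd_mul hp).1 hpm with h3 | h3
    · exact absurd ⟨hp, h3, hd0⟩ h2
    · exact h3
  · rintro ⟨hp, hpc, _⟩
    refine ⟨⟨hp, hc ▸ Dvd.dvd.mul_left hpc d, hm0⟩, ?_⟩
    rintro ⟨_, hpd, _⟩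
    have h3 : p ∣ Nat.gcd d c := Nat.dvd_gcd hpd hpc
    rw [hcop] at h3
    exact hp.one_lt.ne' (Nat.dvd_one.1 h3)

/-- the expansion of the additive character -/
lemma e_expand (c m n : ℕ) (hsq : Squarefree m) (hn : n.Coprime m) :
    e (n * ((c : ℝ) / m)) = ∑ d ∈ m.divisors, gq (m / d) * kapF (fam c m) d.primeFactors n := by
  rw [e_fam c m n hsq]
  have h1 : ∀ p ∈ m.primeFactors, e ((fam c m p : ℕ) * n / p) =
      kapN p (fam c m p) n + (-1 / ((p : ℂ) - 1)) := by
    intro p hp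
    rw [Nat.mem_primeFactors] at hp
    have : ¬ p ∣ n := by
      intro h
      have h3 : p ∣ Nat.gcd n m := Nat.dvd_gcd h hp.2.1
      rw [hn] at h3
      exact hp.1.one_lt.ne' (Nat.dvd_one.1 h3)
    unfold kapN
    rw [if_neg this]
    ring
  rw [prod_congr rfl h1, prod_add, sum_powerset_divisors m hsq
    (fun t => (∏ p ∈ t, kapN p (fam c m p) n) * ∏ p ∈ m.primeFactors \ t, (-1 / ((p : ℂ) - 1)))]
  apply sum_congr rfl; intro d hd
  rw [Nat.mem_divisors] at hd
  rw [primeFactors_sdiff m d hsq hd.1]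
  unfold gq kapF
  ring

lemma sum_vM_ncop' (r N k : ℕ) (hr : 0 < r) (hk : r.primeFactors.card ≤ k) :
    ∑ n ∈ (Ioc 0 N).filter (fun n => ¬ n.Coprime r), vM n ≤ k * Real.log N := by
  classical
  have hlog : 0 ≤ Real.log N := Real.log_natCast_nonneg N
  calc _ ≤ ∑ n ∈ Ioc 0 N, ∑ p ∈ r.primeFactors, (if p ∣ n then vM n else 0) := by
        rw [sum_filter]
        apply sum_le_sum; intro n _
        have hnn : ∀ p ∈ r.primeFactors, 0 ≤ (if p ∣ n then vM n else 0) := by
          intro p _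
          split_ifs
          · exact vM_nonneg n
          · exact le_refl _
        by_cases hc : n.Coprime r
        · rw [if_neg (not_not_intro hc)]
          exact sum_nonneg hnn
        · rw [if_pos hc]
          obtain ⟨p, hp, hpn, hpr⟩ := Nat.Prime.not_coprime_iff_dvd.1 hc
          have hmem : p ∈ r.primeFactors := by
            rw [Nat.mem_primeFactors]; exact ⟨hp, hpr, hr.ne'⟩
          have h3 := single_le_sum hnn hmem
          rwa [if_pos hpn] at h3
    _ = ∑ p ∈ r.primeFactors, ∑ n ∈ (Ioc 0 N).filter (fun n => p ∣ n), vM n := by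
        rw [sum_comm]
        apply sum_congr rfl; intro p _
        rw [sum_filter]
    _ ≤ ∑ p ∈ r.primeFactors, Real.log N := by
        apply sum_le_sum; intro p hp
        exact sum_vM_dvd p N (Nat.prime_of_mem_primeFactors hp)
    _ = r.primeFactors.card * Real.log N := by rw [sum_const, nsmul_eq_mul]
    _ ≤ k * Real.log N := by gcongr

lemma card_divisors_le_two_pow (m k : ℕ) (hsq : Squarefree m) (hk : m.primeFactors.card ≤ k) :
    m.divisors.card ≤ 2 ^ k := by
  have h : ∑ t ∈ m.primeFactors.powerset, (1 : ℂ) = ∑ d ∈ m.divisors, (1 : ℂ) :=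
    sum_powerset_divisors m hsq (fun _ => 1)
  rw [sum_const, sum_const, card_powerset, nsmul_eq_mul, nsmul_eq_mul, mul_one, mul_one] at h
  have h2 : 2 ^ m.primeFactors.card = m.divisors.card := by exact_mod_cast h
  rw [← h2]
  exact Nat.pow_le_pow_right (by norm_num) hk

/-- the exponential sum at `b/r + c/m` -/
lemma Sp_expand (c m b r N k : ℕ) (hsq : Squarefree m)
    (hk : m.primeFactors.card ≤ k) :
    ‖Sp N ((b : ℝ) / r + (c : ℝ) / m) -
      ∑ d ∈ m.divisors, gq (m / d) * tw N (kd (fam c m) d r b) vM‖ ≤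
      (1 + 4 ^ k) * (k * Real.log N) := by
  have hm0 : 0 < m := Nat.pos_of_ne_zero hsq.ne_zero
  have h1 : Sp N ((b : ℝ) / r + (c : ℝ) / m) -
      ∑ d ∈ m.divisors, gq (m / d) * tw N (kd (fam c m) d r b) vM =
      ∑ n ∈ (Ioc 0 N).filter (fun n => ¬ n.Coprime m), (vM n : ℂ) *
        (e (n * ((b : ℝ) / r + (c : ℝ) / m)) -
          ∑ d ∈ m.divisors, gq (m / d) * kd (fam c m) d r b n) := by
    have e1 : ∑ d ∈ m.divisors, gq (m / d) * tw N (kd (fam c m) d r b) vM =
        ∑ n ∈ Ioc 0 N, (vM n : ℂ) * ∑ d ∈ m.divisors, gq (m / d) * kd (fam c m) d r b n := by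
      unfold tw
      simp only [mul_sum]
      rw [sum_comm]
      apply sum_congr rfl; intro n _
      apply sum_congr rfl; intro d _
      ring
    rw [e1]
    unfold Sp
    rw [← sum_sub_distrib, sum_filter]
    apply sum_congr rfl; intro n _
    by_cases hn : n.Coprime m
    · rw [if_neg (by simpa using hn)]
      have e2 : e (n * ((b : ℝ) / r + (c : ℝ) / m)) =
          e (n * ((c : ℝ) / m)) * e ((n * b : ℕ) / r) := by
        rw [← e_add]; congr 1; push_cast; ring
      rw [e2, e_expand c m n hsq hn, sum_mul]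
      unfold kd
      rw [← mul_sub, sub_eq_zero.2, mul_zero]
      apply sum_congr rfl; intro d _
      ring
    · rw [if_pos hn]; ring
  rw [h1]
  have hpt : ∀ n : ℕ, ‖e (n * ((b : ℝ) / r + (c : ℝ) / m)) -
      ∑ d ∈ m.divisors, gq (m / d) * kd (fam c m) d r b n‖ ≤ 1 + 4 ^ k := by
    intro n
    refine (norm_sub_le _ _).trans ?_
    rw [norm_e]
    gcongr
    calc _ ≤ ∑ d ∈ m.divisors, ‖gq (m / d) * kd (fam c m) d r b n‖ := norm_sum_le _ _
      _ ≤ ∑ d ∈ m.divisors, (2 : ℝ) ^ k := by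
          apply sum_le_sum; intro d hd
          rw [Nat.mem_divisors] at hd
          have hdm : m / d ∣ m := Nat.div_dvd_of_dvd hd.1
          have hsq' : Squarefree (m / d) := hsq.squarefree_of_dvd hdm
          rw [norm_mul, norm_gq _ hsq']
          have h2 : (1 : ℝ) ≤ (m / d).totient := by
            exact_mod_cast Nat.totient_pos.2 (Nat.pos_of_ne_zero hsq'.ne_zero)
          have h3 : (1 : ℝ) / (m / d).totient ≤ 1 := by
            rw [div_le_one (by linarith)]; exact h2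
          have h4 : d.primeFactors.card ≤ k :=
            (card_le_card (Nat.primeFactors_mono hd.1 hd.2)).trans hk
          calc _ ≤ 1 * (2 : ℝ) ^ k := by
                gcongr
                exact kd_norm_le (fam c m) d r b n k h4
            _ = _ := one_mul _
      _ = m.divisors.card * (2 : ℝ) ^ k := by rw [sum_const, nsmul_eq_mul]
      _ ≤ (2 : ℝ) ^ k * (2 : ℝ) ^ k := by
          gcongr
          exact_mod_cast card_divisors_le_two_pow m k hsq hk
      _ = 4 ^ k := by rw [← mul_pow]; norm_num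
  calc _ ≤ ∑ n ∈ (Ioc 0 N).filter (fun n => ¬ n.Coprime m), vM n * (1 + 4 ^ k) := by
        refine (norm_sum_le _ _).trans ?_
        apply sum_le_sum; intro n _
        rw [norm_mul, Complex.norm_real, norm_eq_abs, abs_of_nonneg (vM_nonneg n)]
        exact mul_le_mul_of_nonneg_left (hpt n) (vM_nonneg n)
    _ = (∑ n ∈ (Ioc 0 N).filter (fun n => ¬ n.Coprime m), vM n) * (1 + 4 ^ k) := by rw [sum_mul]
    _ ≤ (k * Real.log N) * (1 + 4 ^ k) := by
        gcongr
        exact sum_vM_ncop' m N k hm0 hk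
    _ = _ := by ring

end Pool.Agent.Lib.MP_2a816b_nt
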