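import Mathlib
import Pool.Agent.Lib.MP_2a816b_nt.Core2

/-!
# The mean value theorem over composite moduli: dyadic summation
-/

open Finset Real

namespace Pool.Agent.Lib.MP_2a816b_nt

lemma dyadic_numeric (N U Q : ℕ) (z : ℝ) (j : ℕ) (hU : 1 ≤ U) (hN : 1 ≤ N) (hz : 0 < z)
    (hj : z ≤ 2 * 2 ^ j) (hjQ : 2 ^ j ≤ Q) :
    1 / √((2 : ℝ) ^ j) * √(1 + ((2 ^ (j + 1) : ℕ) : ℝ) ^ 2 / U + ((2 ^ (j + 1) : ℕ) : ℝ) ^ 4 / N) ≤
      4 * (1 / √z + √((Q : ℝ) / U) + √((Q : ℝ) ^ 3 / N)) := by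
  have hUr : (1 : ℝ) ≤ U := by exact_mod_cast hU
  have hNr : (1 : ℝ) ≤ N := by exact_mod_cast hN
  set y : ℝ := 2 ^ j with hy
  have hy0 : 0 < y := by positivity
  have hyQ : y ≤ Q := by
    have : ((2 ^ j : ℕ) : ℝ) ≤ Q := by exact_mod_cast hjQ
    push_cast at this
    exact this
  have e1 : ((2 ^ (j + 1) : ℕ) : ℝ) = 2 * y := by push_cast; rw [pow_succ]; ring
  rw [e1]
  have h1 : 1 / √y * √(1 + (2 * y) ^ 2 / U + (2 * y) ^ 4 / N) =
      √(1 / y + 4 * (y / U) + 16 * (y ^ 3 / N)) := by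
    rw [← sqrt_one, ← sqrt_div (by norm_num), sqrt_one, ← sqrt_mul (by positivity)]
    congr 1
    field_simp
    ring
  rw [h1]
  have h2 : 1 / y + 4 * (y / U) + 16 * (y ^ 3 / N) ≤
      (4 * (1 / √z + √((Q : ℝ) / U) + √((Q : ℝ) ^ 3 / N))) ^ 2 := by
    have a1 : 1 / y ≤ 2 * (1 / √z) ^ 2 := by
      rw [div_pow, sq_sqrt hz.le, one_pow, mul_one_div, div_le_div_iff₀ hy0 hz]
      linarith
    have a2 : y / U ≤ √((Q : ℝ) / U) ^ 2 := by
      rw [sq_sqrt (by positivity)]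
      gcongr
    have a3 : y ^ 3 / N ≤ √((Q : ℝ) ^ 3 / N) ^ 2 := by
      rw [sq_sqrt (by positivity)]
      gcongr
    have b1 : 0 ≤ 1 / √z := by positivity
    have b2 : 0 ≤ √((Q : ℝ) / U) := by positivity
    have b3 : 0 ≤ √((Q : ℝ) ^ 3 / N) := by positivity
    nlinarith [mul_nonneg b1 b2, mul_nonneg b1 b3, mul_nonneg b2 b3, sq_nonneg (1 / √z),
      sq_nonneg (√((Q : ℝ) / U)), sq_nonneg (√((Q : ℝ) ^ 3 / N))]
  calc _ ≤ √((4 * (1 / √z + √((Q : ℝ) / U) + √((Q : ℝ) ^ 3 / N))) ^ 2) := sqrt_le_sqrt h2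
    _ = _ := sqrt_sq (by positivity)

/-- The mean value theorem over composite moduli `z ≤ d ≤ Q`. -/
theorem core3 (DD : Finset ℕ) (Q k r : ℕ) (z : ℝ) (hz : 0 < z) (hD : Mods DD Q k r z)
    (a : ℕ → ℕ → ℕ) (ha : ∀ d ∈ DD, ∀ p ∈ d.primeFactors, ¬ p ∣ a d p)
    (hr : 0 < r) (b : ℕ) (N U L : ℕ) (hU : 1 ≤ U)
    (hU3 : U * U * U ≤ N) (hL : N + 1 < 2 ^ L) (hQN : Q ≤ N) :
    ∑ d ∈ DD, ‖tw N (kd (a d) d r b) vM‖ ≤ 16 * 2 ^ k * L ^ 2 * r * U * Q ^ 2 +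
      288 * 2 ^ k * L ^ 5 * √r * N * (1 / √z + √((Q : ℝ) / U) + √((Q : ℝ) ^ 3 / N)) := by
  have hN1 : 1 ≤ N := by
    have : 1 ≤ U * U * U := Nat.mul_pos (Nat.mul_pos hU hU) hU
    omega
  have hmaps : ∀ d ∈ DD, Nat.log 2 d ∈ range L := by
    intro d hd
    have h1 := hD.one_lt d hd
    have h2 := hD.le d hd
    rw [mem_range]
    apply Nat.log_lt_of_lt_pow (by omega)
    omega
  rw [← sum_fiberwise_of_maps_to hmaps]
  have hblock : ∀ j ∈ range L, ∑ d ∈ DD.filter (fun d => Nat.log 2 d = j),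
      ‖tw N (kd (a d) d r b) vM‖ ≤ 16 * 2 ^ k * L * r * U * Q ^ 2 +
      288 * 2 ^ k * L ^ 4 * √r * N * (1 / √z + √((Q : ℝ) / U) + √((Q : ℝ) ^ 3 / N)) := by
    intro j _
    rcases (DD.filter (fun d => Nat.log 2 d = j)).eq_empty_or_nonempty with h0 | ⟨d0, hd0⟩
    · rw [h0, sum_empty]; positivity
    have hlog : ∀ d ∈ DD.filter (fun d => Nat.log 2 d = j), 2 ^ j ≤ d ∧ d < 2 ^ (j + 1) := by
      intro d hd
      rw [mem_filter] at hd
      have h1 := hD.one_lt d hd.1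
      constructor
      · rw [← hd.2]; exact Nat.pow_log_le_self 2 (by omega)
      · rw [← hd.2]; exact Nat.lt_pow_succ_log_self (by norm_num) d
    have hM : Mods (DD.filter (fun d => Nat.log 2 d = j)) (2 ^ (j + 1)) k r ((2 : ℝ) ^ j) := by
      refine ⟨?_, ?_, ?_, ?_, ?_, ?_⟩
      · intro d hd; exact hD.sq d (mem_filter.1 hd).1
      · intro d hd; exact hD.one_lt d (mem_filter.1 hd).1
      · intro d hd; exact (hlog d hd).2.le
      · intro d hd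
        have := (hlog d hd).1
        exact_mod_cast this
      · intro d hd; exact hD.card d (mem_filter.1 hd).1
      · intro d hd; exact hD.cop d (mem_filter.1 hd).1
    have h := core2 _ (2 ^ (j + 1)) k r ((2 : ℝ) ^ j) (by positivity) hM a
      (fun d hd => ha d (mem_filter.1 hd).1) hr b N U L hU hU3 hL
    refine h.trans ?_
    have hd0' := mem_filter.1 hd0
    have hjQ : 2 ^ j ≤ Q := (hlog d0 hd0).1.trans (hD.le d0 hd0'.1)
    have hjz : z ≤ 2 * 2 ^ j := by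
      have h1 := hD.ge d0 hd0'.1
      have h2 := (hlog d0 hd0).2
      have h3 : (d0 : ℝ) ≤ 2 * 2 ^ j := by
        have : (d0 : ℝ) ≤ ((2 ^ (j + 1) : ℕ) : ℝ) := by exact_mod_cast h2.le
        push_cast at this
        rw [pow_succ] at this
        linarith
      linarith
    have hnum := dyadic_numeric N U Q z j hU hN1 hz hjz hjQ
    have e1 : ((2 ^ (j + 1) : ℕ) : ℝ) ^ 2 ≤ 4 * (Q : ℝ) ^ 2 := by
      have h3 : ((2 ^ j : ℕ) : ℝ) ≤ Q := by exact_mod_cast hjQ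
      have h4 : ((2 ^ (j + 1) : ℕ) : ℝ) = 2 * ((2 ^ j : ℕ) : ℝ) := by
        push_cast; rw [pow_succ]; ring
      rw [h4, mul_pow]
      have h0 : (0 : ℝ) ≤ ((2 ^ j : ℕ) : ℝ) := by positivity
      have h5 : ((2 ^ j : ℕ) : ℝ) ^ 2 ≤ (Q : ℝ) ^ 2 := by gcongr
      linarith
    apply add_le_add
    · calc _ ≤ 4 * 2 ^ k * L * r * U * (4 * (Q : ℝ) ^ 2) := by gcongr
        _ = _ := by ring
    · calc _ = (72 * 2 ^ k * L ^ 4 * √r * N) * (1 / √((2 : ℝ) ^ j) *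
            √(1 + ((2 ^ (j + 1) : ℕ) : ℝ) ^ 2 / U + ((2 ^ (j + 1) : ℕ) : ℝ) ^ 4 / N)) := by ring
        _ ≤ (72 * 2 ^ k * L ^ 4 * √r * N) *
            (4 * (1 / √z + √((Q : ℝ) / U) + √((Q : ℝ) ^ 3 / N))) := by gcongr
        _ = _ := by ring
  refine (sum_le_sum hblock).trans ?_
  rw [sum_const, card_range, nsmul_eq_mul]
  apply le_of_eq
  ring

end Pool.Agent.Lib.MP_2a816b_nt
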