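import Mathlib
import Pool.Agent.Lib.MP_2a816b_nt.PrimeSieve
import Pool.Agent.Lib.MP_2a816b_nt.Basic0

/-!
# Type I sums
-/

open Finset Real

namespace Pool.Agent.Lib.MP_2a816b_nt

/-- the twisted kernel -/
noncomputable def kq (l a r b n : ℕ) : ℂ := kapN l a n * e ((n * b : ℕ) / r)

lemma kq_complete (l : ℕ) (hl : l.Prime) (a r b m : ℕ) (ha : ¬ l ∣ a) (hr : 0 < r)
    (hrl : ¬ l ∣ r) : ∑ d ∈ range (r * l), kq l a r b (m * d) = 0 := by
  have : Fact l.Prime := ⟨hl⟩
  by_cases hm : l ∣ m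
  · apply sum_eq_zero; intro d _
    unfold kq kapN
    rw [if_pos (hm.mul_right d), zero_mul]
  · rw [sum_range_mul_eq, sum_comm]
    apply sum_eq_zero; intro u _
    have h1 : ∀ v ∈ range l, kq l a r b (m * (r * v + u)) =
        kap l (a : ZMod l) ((m : ZMod l) * r * (v : ZMod l) + m * u) * e ((m * u * b : ℕ) / r) := by
      intro v _
      unfold kq
      rw [kapN_eq]
      congr 1
      · congr 1
        push_cast
        ring
      · have hr' : (r : ℝ) ≠ 0 := by positivity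
        have : ((m * (r * v + u) * b : ℕ) : ℝ) / r = ((m * u * b : ℕ) : ℝ) / r +
            ((m * v * b : ℕ) : ℝ) := by
          push_cast
          field_simp
          ring
        rw [this, e_add, e_nat, mul_one]
    rw [sum_congr rfl h1, ← sum_mul]
    rw [sum_range_zmod l (fun v => kap l (a : ZMod l) ((m : ZMod l) * r * v + m * u))]
    have hmr : (m : ZMod l) * r ≠ 0 := by
      apply mul_ne_zero
      · rw [Ne, ZMod.natCast_eq_zero_iff]; exact hm
      · rw [Ne, ZMod.natCast_eq_zero_iff]; exact hrl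
    have h2 : ∑ v : ZMod l, kap l (a : ZMod l) ((m : ZMod l) * r * v + m * u) =
        ∑ w : ZMod l, kap l (a : ZMod l) w := by
      let eq1 : ZMod l ≃ ZMod l := (Equiv.mulLeft₀ ((m : ZMod l) * r) hmr).trans
        (Equiv.addRight ((m : ZMod l) * u))
      exact Fintype.sum_equiv eq1 _ _ (fun v => rfl)
    have ha' : (a : ZMod l) ≠ 0 := by rw [Ne, ZMod.natCast_eq_zero_iff]; exact ha
    rw [h2, sum_kap l _ ha', zero_mul]

lemma kq_periodic (l : ℕ) (hl : l.Prime) (a r b m : ℕ) (hr : 0 < r) (d : ℕ) :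
    kq l a r b (m * (r * l + d)) = kq l a r b (m * d) := by
  have : Fact l.Prime := ⟨hl⟩
  unfold kq
  rw [kapN_eq, kapN_eq]
  congr 1
  · congr 1
    push_cast
    rw [ZMod.natCast_self l]
    ring
  · have hr' : (r : ℝ) ≠ 0 := by positivity
    have : ((m * (r * l + d) * b : ℕ) : ℝ) / r = ((m * d * b : ℕ) : ℝ) / r +
        ((m * l * b : ℕ) : ℝ) := by
      push_cast
      field_simp
      ring
    rw [this, e_add, e_nat, mul_one]

lemma kq_norm_le (l : ℕ) (hl : l.Prime) (a r b n : ℕ) : ‖kq l a r b n‖ ≤ 2 := by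
  unfold kq
  rw [norm_mul, norm_e, mul_one]
  exact norm_kapN_le l hl a n

lemma typeI_range (l : ℕ) (hl : l.Prime) (a r b m : ℕ) (ha : ¬ l ∣ a) (hr : 0 < r)
    (hrl : ¬ l ∣ r) (t : ℕ) : ‖∑ d ∈ range t, kq l a r b (m * d)‖ ≤ 2 * (r * l) := by
  have h := periodic_sum_bound (fun d => kq l a r b (m * d)) (r * l) 2 (Nat.mul_pos hr hl.pos)
    (fun d => kq_periodic l hl a r b m hr d) (kq_complete l hl a r b m ha hr hrl)
    (fun d => kq_norm_le l hl a r b _) t
  push_cast at h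
  exact h

lemma kq_zero (l a r b : ℕ) : kq l a r b 0 = 0 := by
  unfold kq kapN
  rw [if_pos (dvd_zero l), zero_mul]

lemma typeI_one (l : ℕ) (hl : l.Prime) (a r b m : ℕ) (ha : ¬ l ∣ a) (hr : 0 < r)
    (hrl : ¬ l ∣ r) (t : ℕ) : ‖∑ d ∈ Ioc 0 t, kq l a r b (m * d)‖ ≤ 2 * (r * l) := by
  rw [sum_Ioc_range t (fun d => kq l a r b (m * d)) (by simp only [mul_zero]; exact kq_zero l a r b)]
  exact typeI_range l hl a r b m ha hr hrl (t + 1)

lemma typeI_log (l : ℕ) (hl : l.Prime) (a r b m : ℕ) (ha : ¬ l ∣ a) (hr : 0 < r)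
    (hrl : ¬ l ∣ r) (t : ℕ) : ‖∑ d ∈ Ioc 0 t, (Real.log d : ℂ) * kq l a r b (m * d)‖ ≤
      4 * Real.log (t + 1) * (r * l) := by
  have h0 : (Real.log (0 : ℕ) : ℂ) * kq l a r b (m * 0) = 0 := by
    rw [mul_zero, kq_zero, mul_zero]
  rw [sum_Ioc_range t (fun d => (Real.log d : ℂ) * kq l a r b (m * d)) h0]
  have h := abel_sum (fun d => kq l a r b (m * d)) (fun n : ℕ => Real.log n) (2 * (r * l))
    log_nat_mono (by simp) (fun k => typeI_range l hl a r b m ha hr hrl k) (t + 1)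
  refine h.trans (le_of_eq ?_)
  push_cast
  ring

end Pool.Agent.Lib.MP_2a816b_nt
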