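import Mathlib
import Pool.Agent.Lib.MP_2a816b_nt.TypeI
import Pool.Agent.Lib.MP_2a816b_nt.TypeII

/-!
# The mean value theorem over prime moduli
-/

open Finset Real

namespace Pool.Agent.Lib.MP_2a816b_nt

theorem core (P : Finset ℕ) (Q : ℕ) (y0 : ℝ) (hy0 : 0 < y0)
    (hP : ∀ l ∈ P, l.Prime ∧ l ≤ Q ∧ y0 ≤ l) (a : ℕ → ℕ) (ha : ∀ l ∈ P, ¬ l ∣ a l)
    (r : ℕ) (hr : 0 < r) (hrl : ∀ l ∈ P, ¬ l ∣ r) (b : ℕ) (N U L : ℕ) (hU : 1 ≤ U)
    (hU3 : U * U * U ≤ N) (hL : N + 1 < 2 ^ L) :
    ∑ l ∈ P, ‖tw N (kq l (a l) r b) vM‖ ≤ 8 * L * r * U * Q ^ 2 +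
      144 * L ^ 4 * √r * N / √y0 * √(1 + (Q : ℝ) ^ 2 / U + (Q : ℝ) ^ 4 / N) := by
  have hL0 : 1 ≤ L := by
    rcases Nat.eq_zero_or_pos L with h | h
    · subst h; omega
    · exact h
  have hLr : (1 : ℝ) ≤ L := by exact_mod_cast hL0
  have hrr : (1 : ℝ) ≤ r := by exact_mod_cast hr
  have hQr : ∀ l ∈ P, (l : ℝ) ≤ Q := fun l hl => by exact_mod_cast (hP l hl).2.1
  have hQ1 : ∀ l ∈ P, (1 : ℝ) ≤ Q := fun l hl => by
    have : (1 : ℝ) ≤ l := by exact_mod_cast (hP l hl).1.one_lt.le
    exact this.trans (hQr l hl)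
  -- the five pieces
  have h1 : ∀ l ∈ P, ‖tw N (kq l (a l) r b) (lo U vM)‖ ≤ 2 * (U * L) := by
    intro l hl
    unfold tw
    calc _ ≤ ∑ n ∈ Ioc 0 N, ‖((lo U vM n : ℝ) : ℂ) * kq l (a l) r b n‖ := norm_sum_le _ _
      _ ≤ ∑ n ∈ Ioc 0 N, 2 * |lo U vM n| := by
          apply sum_le_sum; intro n _
          rw [norm_mul, Complex.norm_real, norm_eq_abs, mul_comm]
          gcongr
          exact kq_norm_le l (hP l hl).1 _ _ _ _
      _ = 2 * ∑ n ∈ Ioc 0 N, |lo U vM n| := by rw [mul_sum]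
      _ ≤ 2 * (U * L) := by
          gcongr
          apply sum_lo_le N U vM L (by positivity)
          intro m hm
          rw [abs_of_nonneg (vM_nonneg m)]
          exact (vM_le_log m).trans (log_le_L hL (by omega))
  have h2 : ∀ l ∈ P, ‖tw N (kq l (a l) r b) (lo U muR * ArithmeticFunction.log)‖ ≤
      (U * 1) * (4 * L * (r * Q)) := by
    intro l hl
    rw [tw_mul]
    calc _ ≤ ∑ m ∈ Ioc 0 N, ‖∑ d ∈ Ioc 0 (N / m), ((lo U muR m : ℝ) : ℂ) *
            ((ArithmeticFunction.log d : ℝ) : ℂ) * kq l (a l) r b (m * d)‖ := norm_sum_le _ _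
      _ ≤ ∑ m ∈ Ioc 0 N, |lo U muR m| * (4 * L * (r * Q)) := by
          apply sum_le_sum; intro m _
          have e1 : ∑ d ∈ Ioc 0 (N / m), ((lo U muR m : ℝ) : ℂ) *
              ((ArithmeticFunction.log d : ℝ) : ℂ) * kq l (a l) r b (m * d) =
              ((lo U muR m : ℝ) : ℂ) * ∑ d ∈ Ioc 0 (N / m), (Real.log d : ℂ) *
                kq l (a l) r b (m * d) := by
            rw [mul_sum]
            apply sum_congr rfl; intro d _
            rw [ArithmeticFunction.log_apply]
            ring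
          rw [e1, norm_mul, Complex.norm_real, norm_eq_abs]
          gcongr
          refine (typeI_log l (hP l hl).1 (a l) r b m (ha l hl) hr (hrl l hl) (N / m)).trans ?_
          have e2 : Real.log ((N / m : ℕ) + 1) ≤ L := by
            have := log_le_L (n := N / m + 1) hL (by have := Nat.div_le_self N m; omega)
            push_cast at this
            exact this
          have := hQr l hl
          gcongr
      _ = (∑ m ∈ Ioc 0 N, |lo U muR m|) * (4 * L * (r * Q)) := by rw [sum_mul]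
      _ ≤ (U * 1) * (4 * L * (r * Q)) := by
          gcongr
          exact sum_lo_le N U muR 1 (by norm_num) (fun m _ => muR_abs_le m)
  have hcU : ∀ m, m ≤ N → |cU U m| ≤ L := fun m hm =>
    (cU_abs_le U m).trans (log_le_L hL (by omega))
  have h3 : ∀ l ∈ P, ‖tw N (kq l (a l) r b) (lo U (cU U) * zeR)‖ ≤
      (U * L) * (2 * (r * Q)) := by
    intro l hl
    rw [tw_mul]
    calc _ ≤ ∑ m ∈ Ioc 0 N, ‖∑ d ∈ Ioc 0 (N / m), ((lo U (cU U) m : ℝ) : ℂ) *
            ((zeR d : ℝ) : ℂ) * kq l (a l) r b (m * d)‖ := norm_sum_le _ _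
      _ ≤ ∑ m ∈ Ioc 0 N, |lo U (cU U) m| * (2 * (r * Q)) := by
          apply sum_le_sum; intro m _
          have e1 : ∑ d ∈ Ioc 0 (N / m), ((lo U (cU U) m : ℝ) : ℂ) *
              ((zeR d : ℝ) : ℂ) * kq l (a l) r b (m * d) =
              ((lo U (cU U) m : ℝ) : ℂ) * ∑ d ∈ Ioc 0 (N / m), kq l (a l) r b (m * d) := by
            rw [mul_sum]
            apply sum_congr rfl; intro d hd
            rw [mem_Ioc] at hd
            rw [zeR_apply, if_neg (by omega)]
            push_cast
            ring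
          rw [e1, norm_mul, Complex.norm_real, norm_eq_abs]
          gcongr
          refine (typeI_one l (hP l hl).1 (a l) r b m (ha l hl) hr (hrl l hl) (N / m)).trans ?_
          have := hQr l hl
          gcongr
      _ = (∑ m ∈ Ioc 0 N, |lo U (cU U) m|) * (2 * (r * Q)) := by rw [sum_mul]
      _ ≤ (U * L) * (2 * (r * Q)) := by
          gcongr
          exact sum_lo_le N U (cU U) L (by positivity) hcU
  have h4 : ∑ l ∈ P, ‖tw N (kq l (a l) r b) (hi U (cU U) * zeR)‖ ≤
      72 * L ^ 2 * √r * (L : ℝ) ^ 2 * N / √y0 * √(1 + (Q : ℝ) ^ 2 / U + (Q : ℝ) ^ 4 / N) := by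
    have := typeII P Q y0 hy0 hP a ha r hr b N U L hU hL (fun m => hi U (cU U) m)
      (fun d => zeR d) L (by positivity) ?_ ?_ ?_
    · refine le_trans (le_of_eq ?_) this
      apply sum_congr rfl; intro l _
      rw [tw_mul]
      rfl
    · intro m hm
      rw [hi_apply]
      split_ifs
      · exact hcU m hm
      · simp
    · intro n _
      rw [zeR_apply]
      split_ifs
      · simp
      · simpa using hLr
    · intro m hm
      rw [hi_apply] at hm
      by_cases hU' : U < m
      · rw [if_pos hU'] at hm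
        refine ⟨hU', ?_⟩
        have hm2 : m ≤ U * U := by
          by_contra hc
          exact hm (cU_eq_zero U m (by omega))
        calc m * U ≤ (U * U) * U := Nat.mul_le_mul_right U hm2
          _ ≤ N := hU3
      · rw [if_neg hU'] at hm
        exact absurd rfl hm
  have h5 : ∑ l ∈ P, ‖tw N (kq l (a l) r b) (hi U muR * (hi U vM * zeR))‖ ≤
      72 * L ^ 2 * √r * (L : ℝ) ^ 2 * N / √y0 * √(1 + (Q : ℝ) ^ 2 / U + (Q : ℝ) ^ 4 / N) := by
    have := typeII P Q y0 hy0 hP a ha r hr b N U L hU hL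
      (fun m => if m * U ≤ N then hi U muR m else 0)
      (fun d => (hi U vM * zeR) d) L (by positivity) ?_ ?_ ?_
    · refine le_trans (le_of_eq ?_) this
      apply sum_congr rfl; intro l _
      rw [tw_mul]
      congr 1
      apply sum_congr rfl; intro m hm
      rw [mem_Ioc] at hm
      by_cases hmU : m * U ≤ N
      · simp only [if_pos hmU]
        rfl
      · have hz : ∀ d ∈ Ioc 0 (N / m), (hi U vM * zeR) d = 0 := by
          intro d hd
          rw [mem_Ioc] at hd
          apply vz_eq_zero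
          have : N / m < U := by
            rw [Nat.div_lt_iff_lt_mul hm.1]
            rw [mul_comm]
            omega
          omega
        rw [sum_eq_zero, sum_eq_zero]
        · intro d hd
          rw [hz d hd]; simp
        · intro d hd
          rw [hz d hd]; simp
    · intro m _
      split_ifs
      · exact (hi_muR_abs_le U m).trans hLr
      · simp
    · intro n hn
      rw [abs_of_nonneg (vz_nonneg U n)]
      exact (vz_le U n).trans (log_le_L hL (by omega))
    · intro m hm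
      by_cases hmU : m * U ≤ N
      · rw [if_pos hmU, hi_apply] at hm
        refine ⟨?_, hmU⟩
        by_contra hc
        rw [if_neg hc] at hm
        exact hm rfl
      · rw [if_neg hmU] at hm
        exact absurd rfl hm
  -- assemble
  have hcard : (P.card : ℝ) ≤ Q := by
    have hsub : P ⊆ Ioc 0 Q := by
      intro l hl
      rw [mem_Ioc]
      exact ⟨(hP l hl).1.pos, (hP l hl).2.1⟩
    have := card_le_card hsub
    rw [Nat.card_Ioc, Nat.sub_zero] at this
    exact_mod_cast this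
  calc ∑ l ∈ P, ‖tw N (kq l (a l) r b) vM‖
      ≤ ∑ l ∈ P, (2 * (U * L) + (U * 1) * (4 * L * (r * Q)) + (U * L) * (2 * (r * Q)) +
        ‖tw N (kq l (a l) r b) (hi U (cU U) * zeR)‖ +
        ‖tw N (kq l (a l) r b) (hi U muR * (hi U vM * zeR))‖) := by
        apply sum_le_sum; intro l hl
        rw [tw_vM N U]
        refine (norm_add_le _ _).trans ?_
        gcongr
        refine (norm_sub_le _ _).trans ?_
        gcongr
        refine (norm_sub_le _ _).trans ?_
        refine add_le_add ?_ (h3 l hl)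
        exact (norm_add_le _ _).trans (add_le_add (h1 l hl) (h2 l hl))
    _ ≤ ∑ l ∈ P, (8 * L * r * U * Q +
        ‖tw N (kq l (a l) r b) (hi U (cU U) * zeR)‖ +
        ‖tw N (kq l (a l) r b) (hi U muR * (hi U vM * zeR))‖) := by
        apply sum_le_sum; intro l hl
        gcongr
        have hq := hQ1 l hl
        have hrq : (1 : ℝ) ≤ r * Q := by nlinarith
        have hUL : (0 : ℝ) ≤ U * L := by positivity
        nlinarith
    _ = P.card * (8 * L * r * U * Q) +
        ∑ l ∈ P, ‖tw N (kq l (a l) r b) (hi U (cU U) * zeR)‖ +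
        ∑ l ∈ P, ‖tw N (kq l (a l) r b) (hi U muR * (hi U vM * zeR))‖ := by
        rw [sum_add_distrib, sum_add_distrib, sum_const, nsmul_eq_mul]
    _ ≤ Q * (8 * L * r * U * Q) +
        (72 * L ^ 2 * √r * (L : ℝ) ^ 2 * N / √y0 * √(1 + (Q : ℝ) ^ 2 / U + (Q : ℝ) ^ 4 / N)) +
        (72 * L ^ 2 * √r * (L : ℝ) ^ 2 * N / √y0 * √(1 + (Q : ℝ) ^ 2 / U + (Q : ℝ) ^ 4 / N)) := by
        gcongr
    _ = _ := by ring

end Pool.Agent.Lib.MP_2a816b_nt
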