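import Mathlib
import Pool.Agent.Lib.MP_2a816b_nt.Core

/-!
# Exponential sums over short windows
-/

open Finset Real

namespace Pool.Agent.Lib.MP_2a816b_nt

/-- the discrete window -/
noncomputable def win (h : ℕ) (H : ℝ) (s i : ℕ) : ℝ := ∑ u ∈ range h, vM (s + 1 + i + u) - H

/-- exponential sum of the discrete window -/
noncomputable def Fw (h : ℕ) (H : ℝ) (s M : ℕ) (α : ℝ) : ℂ :=
  ∑ i ∈ range M, (win h H s i : ℂ) * e (i * α)

lemma norm_D_neg (h : ℕ) (α : ℝ) : ‖D h (-α)‖ = ‖D h α‖ := by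
  have : D h (-α) = (starRingEnd ℂ) (D h α) := by
    unfold D
    rw [map_sum]
    apply sum_congr rfl; intro u _
    rw [conj_e]; congr 1; ring
  rw [this, RCLike.norm_conj]

lemma Fw_approx (h : ℕ) (H : ℝ) (hH : 0 ≤ H) (s M : ℕ) (α : ℝ) (Lg : ℝ)
    (hLg : ∀ n, n ≤ s + M + h → Real.log n ≤ Lg) :
    ‖Fw h H s M α - e (-((s + 1 : ℕ) * α)) * D h (-α) * Sp (s + M) α‖ ≤
      h * ((s + 2 * h) * Lg) + H * ‖D M α‖ := by
  have hLg0 : 0 ≤ Lg := by
    have := hLg 0 (Nat.zero_le _)
    simpa using this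
  set g : ℕ → ℂ := fun n => (vM n : ℂ) * e (n * α) with hg
  have hgn : ∀ n, n ≤ s + M + h → ‖g n‖ ≤ Lg := by
    intro n hn
    simp only [hg]
    rw [norm_mul, norm_e, mul_one, Complex.norm_real, norm_eq_abs, abs_of_nonneg (vM_nonneg n)]
    exact (vM_le_log n).trans (hLg n hn)
  have h1 : Fw h H s M α = ∑ u ∈ range h, e (-((s + 1 + u : ℕ) * α)) *
      (∑ i ∈ range M, g (s + 1 + u + i)) - H * D M α := by
    unfold Fw win D
    calc ∑ i ∈ range M, ((∑ u ∈ range h, vM (s + 1 + i + u) - H : ℝ) : ℂ) * e (i * α)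
        = ∑ i ∈ range M, (∑ u ∈ range h, (vM (s + 1 + i + u) : ℂ) * e (i * α) - H * e (i * α)) := by
          apply sum_congr rfl; intro i _
          push_cast
          rw [sub_mul, sum_mul]
      _ = ∑ i ∈ range M, ∑ u ∈ range h, (vM (s + 1 + i + u) : ℂ) * e (i * α) -
            H * ∑ i ∈ range M, e (i * α) := by
          rw [sum_sub_distrib, mul_sum]
      _ = _ := by
          congr 1
          rw [sum_comm]
          apply sum_congr rfl; intro u _
          rw [mul_sum]
          apply sum_congr rfl; intro i _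
          simp only [hg]
          rw [show s + 1 + i + u = s + 1 + u + i by ring]
          have : e (i * α) = e (-((s + 1 + u : ℕ) * α)) * e ((s + 1 + u + i : ℕ) * α) := by
            rw [← e_add]; congr 1; push_cast; ring
          rw [this]; ring
  have h2 : e (-((s + 1 : ℕ) * α)) * D h (-α) * Sp (s + M) α =
      ∑ u ∈ range h, e (-((s + 1 + u : ℕ) * α)) * Sp (s + M) α := by
    rw [← sum_mul]
    congr 1
    unfold D
    rw [mul_sum]
    apply sum_congr rfl; intro u _
    rw [← e_add]; congr 1; push_cast; ring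
  have h3 : ∀ u ∈ range h, ‖(∑ i ∈ range M, g (s + 1 + u + i)) - Sp (s + M) α‖ ≤
      (s + 2 * h) * Lg := by
    intro u hu
    rw [mem_range] at hu
    have e1 : ∑ i ∈ range M, g (s + 1 + u + i) =
        ∑ n ∈ range (s + 1 + u + M), g n - ∑ n ∈ range (s + 1 + u), g n := by
      rw [sum_range_add]; ring
    have e2 : ∑ n ∈ range (s + 1 + u + M), g n = Sp (s + M) α + ∑ i ∈ range u, g (s + M + 1 + i) := by
      rw [Sp_eq_range, show s + 1 + u + M = s + M + 1 + u by ring, sum_range_add]
    have e3 : (∑ i ∈ range M, g (s + 1 + u + i)) - Sp (s + M) α =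
        ∑ i ∈ range u, g (s + M + 1 + i) - ∑ n ∈ range (s + 1 + u), g n := by
      rw [e1, e2]; ring
    rw [e3]
    calc _ ≤ ‖∑ i ∈ range u, g (s + M + 1 + i)‖ + ‖∑ n ∈ range (s + 1 + u), g n‖ := norm_sub_le _ _
      _ ≤ ∑ i ∈ range u, Lg + ∑ n ∈ range (s + 1 + u), Lg := by
          refine add_le_add ?_ ?_
          · refine (norm_sum_le _ _).trans (sum_le_sum fun i hi => ?_)
            rw [mem_range] at hi
            exact hgn _ (by omega)
          · refine (norm_sum_le _ _).trans (sum_le_sum fun i hi => ?_)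
            rw [mem_range] at hi
            by_cases hc : i ≤ s + M + h
            · exact hgn _ hc
            · omega
      _ = (u + (s + 1 + u)) * Lg := by
          rw [sum_const, sum_const, card_range, card_range, nsmul_eq_mul, nsmul_eq_mul]
          push_cast; ring
      _ ≤ (s + 2 * h) * Lg := by
          have : (u : ℝ) + 1 ≤ h := by exact_mod_cast hu
          exact mul_le_mul_of_nonneg_right (by linarith) hLg0
  rw [h1, h2]
  have h4 : ∑ u ∈ range h, e (-((s + 1 + u : ℕ) * α)) * (∑ i ∈ range M, g (s + 1 + u + i)) -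
      H * D M α - ∑ u ∈ range h, e (-((s + 1 + u : ℕ) * α)) * Sp (s + M) α =
      ∑ u ∈ range h, e (-((s + 1 + u : ℕ) * α)) *
        ((∑ i ∈ range M, g (s + 1 + u + i)) - Sp (s + M) α) - H * D M α := by
    simp only [mul_sub, sum_sub_distrib]
    ring
  rw [h4]
  calc _ ≤ ‖∑ u ∈ range h, e (-((s + 1 + u : ℕ) * α)) *
        ((∑ i ∈ range M, g (s + 1 + u + i)) - Sp (s + M) α)‖ + ‖(H : ℂ) * D M α‖ := norm_sub_le _ _
    _ ≤ ∑ u ∈ range h, (s + 2 * h) * Lg + H * ‖D M α‖ := by
        refine add_le_add ?_ ?_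
        · refine (norm_sum_le _ _).trans (sum_le_sum fun u hu => ?_)
          rw [norm_mul, norm_e, one_mul]
          exact h3 u hu
        · rw [norm_mul, Complex.norm_real, norm_eq_abs, abs_of_nonneg hH]
    _ = _ := by rw [sum_const, card_range, nsmul_eq_mul]

/-- Parseval for short windows modulo `l` -/
lemma sum_D_sq (l h : ℕ) (hl : 0 < l) (hh : h ≤ l) (β : ℝ) :
    ∑ a ∈ range l, ‖D h (β + a / l)‖ ^ 2 = l * h := by
  have : NeZero l := ⟨hl.ne'⟩
  set y : ZMod l → ℂ := fun d => if d.val < h then e (d.val * β) else 0 with hy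
  have h1 := parseval l y
  have h2 : ∀ g : ZMod l → ℂ, ∑ d : ZMod l, (if d.val < h then e (d.val * β) * g d else 0) =
      ∑ u ∈ range h, e (u * β) * g (u : ZMod l) := by
    intro g
    rw [← sum_range_zmod l (fun d : ZMod l => if d.val < h then e (d.val * β) * g d else 0)]
    have e1 : ∀ v ∈ range l, (if (v : ZMod l).val < h then e ((v : ZMod l).val * β) * g (v : ZMod l) else 0) =
        if v < h then e (v * β) * g (v : ZMod l) else 0 := by
      intro v hv
      rw [mem_range] at hv
      rw [ZMod.val_cast_of_lt hv]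
    rw [sum_congr rfl e1, ← sum_filter]
    apply sum_congr _ (fun _ _ => rfl)
    ext v
    rw [mem_filter, mem_range, mem_range]
    exact ⟨fun h => h.2, fun h => ⟨by omega, h⟩⟩
  have h3 : ∑ a ∈ range l, ‖D h (β + a / l)‖ ^ 2 =
      ∑ a : ZMod l, ‖∑ d : ZMod l, y d * ps l (a * d)‖ ^ 2 := by
    have e0 : ∑ a : ZMod l, ‖∑ d : ZMod l, y d * ps l (a * d)‖ ^ 2 =
        ∑ a ∈ range l, ‖∑ d : ZMod l, y d * ps l ((a : ZMod l) * d)‖ ^ 2 := by
      rw [sum_range_zmod l (fun a : ZMod l => ‖∑ d : ZMod l, y d * ps l (a * d)‖ ^ 2)]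
    rw [e0]
    apply sum_congr rfl; intro a _
    congr 2
    have e1 : ∀ d : ZMod l, y d * ps l ((a : ZMod l) * d) =
        if d.val < h then e (d.val * β) * ps l ((a : ZMod l) * d) else 0 := by
      intro d
      simp only [hy]
      split_ifs <;> simp
    rw [sum_congr rfl (fun d _ => e1 d), h2 (fun d => ps l ((a : ZMod l) * d))]
    unfold D
    apply sum_congr rfl; intro u _
    rw [← Nat.cast_mul, ps_natCast, ← e_add]
    congr 1
    push_cast
    ring
  rw [h3, h1]
  congr 1
  have e1 : ∀ d : ZMod l, ‖y d‖ ^ 2 = if d.val < h then 1 else 0 := by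
    intro d
    simp only [hy]
    split_ifs
    · rw [norm_e]; norm_num
    · simp
  rw [sum_congr rfl (fun d _ => e1 d)]
  have e2 : ∑ d : ZMod l, (if d.val < h then (1 : ℝ) else 0) = h := by
    rw [← sum_range_zmod l (fun d : ZMod l => if d.val < h then (1 : ℝ) else 0)]
    have e3 : ∀ v ∈ range l, (if (v : ZMod l).val < h then (1 : ℝ) else 0) =
        if v < h then 1 else 0 := by
      intro v hv
      rw [mem_range] at hv
      rw [ZMod.val_cast_of_lt hv]
    rw [sum_congr rfl e3, ← sum_filter]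
    have e4 : (range l).filter (fun v => v < h) = range h := by
      ext v
      rw [mem_filter, mem_range, mem_range]
      exact ⟨fun h => h.2, fun h => ⟨by omega, h⟩⟩
    rw [e4, sum_const, card_range]
    simp
  exact e2

end Pool.Agent.Lib.MP_2a816b_nt
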