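import Mathlib
import Pool.Agent.Lib.MP_2a816b_nt.Fam
import Pool.Agent.Lib.MP_2a816b_nt.Core3
import Pool.Agent.Lib.MP_2a816b_nt.Window

/-!
# The error functional, first range
-/

open Finset Real

namespace Pool.Agent.Lib.MP_2a816b_nt

lemma totient_ge (m k : ℕ) (hsq : Squarefree m) (hk : m.primeFactors.card ≤ k) :
    (m : ℝ) / 2 ^ k ≤ m.totient := by
  have h1 : (m : ℝ) = ∏ p ∈ m.primeFactors, (p : ℝ) := by
    have := Nat.prod_primeFactors_of_squarefree hsq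
    nth_rewrite 1 [← this]
    push_cast
    rfl
  rw [totient_sqfree m hsq, div_le_iff₀ (by positivity)]
  have h2 : (2 : ℝ) ^ m.primeFactors.card ≤ 2 ^ k := pow_le_pow_right₀ (by norm_num) hk
  calc (m : ℝ) = ∏ p ∈ m.primeFactors, (p : ℝ) := h1
    _ ≤ ∏ p ∈ m.primeFactors, (((p : ℝ) - 1) * 2) := by
        apply prod_le_prod
        · intro p _; positivity
        · intro p hp
          have : (2 : ℝ) ≤ p := by exact_mod_cast (Nat.prime_of_mem_primeFactors hp).two_le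
          linarith
    _ = (∏ p ∈ m.primeFactors, ((p : ℝ) - 1)) * 2 ^ m.primeFactors.card := by
        rw [prod_mul_distrib, prod_const]
    _ ≤ _ := by
        apply mul_le_mul_of_nonneg_left h2
        apply prod_nonneg
        intro p hp
        have : (2 : ℝ) ≤ p := by exact_mod_cast (Nat.prime_of_mem_primeFactors hp).two_le
        linarith

/-- reindexing a sum over divisors -/
lemma sum_div_reindex (MM : Finset ℕ) (Q : ℕ) (hMM : ∀ m ∈ MM, 0 < m ∧ m ≤ Q) (G : ℕ → ℕ → ℝ) :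
    ∑ m ∈ MM, ∑ d ∈ m.divisors.erase 1, G m d =
      ∑ m' ∈ Ioc 0 Q, ∑ d ∈ (Ioc 1 Q).filter (fun d => m' * d ∈ MM), G (m' * d) d := by
  classical
  rw [sum_sigma' MM (fun m => m.divisors.erase 1) (fun m d => G m d),
    sum_sigma' (Ioc 0 Q) (fun m' => (Ioc 1 Q).filter (fun d => m' * d ∈ MM))
      (fun m' d => G (m' * d) d)]
  refine sum_bij' (fun (x : Σ _ : ℕ, ℕ) _ => (⟨x.1 / x.2, x.2⟩ : Σ _ : ℕ, ℕ))
    (fun (x : Σ _ : ℕ, ℕ) _ => (⟨x.1 * x.2, x.2⟩ : Σ _ : ℕ, ℕ)) ?_ ?_ ?_ ?_ ?_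
  · rintro ⟨m, d⟩ hx
    simp only [mem_sigma, mem_erase, Nat.mem_divisors] at hx
    obtain ⟨hm, hd1, hdm, hm0⟩ := hx
    have hmQ := hMM m hm
    have hd0 : 0 < d := Nat.pos_of_ne_zero (by rintro rfl; simp at hdm; exact hm0 hdm)
    have hdm' : d ≤ m := Nat.le_of_dvd hmQ.1 hdm
    simp only [mem_sigma, mem_filter, mem_Ioc]
    refine ⟨⟨Nat.div_pos hdm' hd0, (Nat.div_le_self m d).trans hmQ.2⟩, ⟨by omega, by omega⟩, ?_⟩
    rw [Nat.div_mul_cancel hdm]; exact hm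
  · rintro ⟨m', d⟩ hx
    simp only [mem_sigma, mem_filter, mem_Ioc] at hx
    obtain ⟨⟨h1, h2⟩, ⟨h3, h4⟩, h5⟩ := hx
    simp only [mem_sigma, mem_erase, Nat.mem_divisors]
    refine ⟨h5, by omega, Dvd.intro_left m' rfl, ?_⟩
    have := Nat.mul_pos h1 (show 0 < d by omega)
    omega
  · rintro ⟨m, d⟩ hx
    simp only [mem_sigma, mem_erase, Nat.mem_divisors] at hx
    obtain ⟨hm, hd1, hdm, hm0⟩ := hx
    simp only [Nat.div_mul_cancel hdm]
  · rintro ⟨m', d⟩ hx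
    simp only [mem_sigma, mem_filter, mem_Ioc] at hx
    obtain ⟨⟨h1, h2⟩, ⟨h3, h4⟩, h5⟩ := hx
    simp only [Nat.mul_div_cancel m' (show 0 < d by omega)]
  · rintro ⟨m, d⟩ hx
    simp only [mem_sigma, mem_erase, Nat.mem_divisors] at hx
    obtain ⟨hm, hd1, hdm, hm0⟩ := hx
    simp only [Nat.div_mul_cancel hdm]

/-- `Δ` as a sum over the divisors -/
lemma Delta_bound (c m b r N k : ℕ) (hsq : Squarefree m) (hk : m.primeFactors.card ≤ k) :
    ‖Sp N ((b : ℝ) / r + (c : ℝ) / m) - gq m * Sp N ((b : ℝ) / r)‖ ≤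
      ∑ d ∈ m.divisors.erase 1, 1 / ((m / d).totient : ℝ) * ‖tw N (kd (fam c m) d r b) vM‖ +
      (1 + 4 ^ k) * (k * Real.log N) := by
  have hm0 : m ≠ 0 := hsq.ne_zero
  have h1mem : 1 ∈ m.divisors := by rw [Nat.mem_divisors]; exact ⟨one_dvd m, hm0⟩
  have hE := Sp_expand c m b r N k hsq hk
  have h1 : gq (m / 1) * tw N (kd (fam c m) 1 r b) vM = gq m * Sp N ((b : ℝ) / r) := by
    rw [Nat.div_one]
    congr 1
    unfold tw Sp
    apply sum_congr rfl; intro n _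
    congr 1
    unfold kd kapF
    rw [Nat.primeFactors_one, prod_empty, one_mul]
    congr 1
    push_cast
    ring
  rw [← add_sum_erase _ _ h1mem, h1] at hE
  have h2 : Sp N ((b : ℝ) / r + (c : ℝ) / m) - gq m * Sp N ((b : ℝ) / r) =
      (Sp N ((b : ℝ) / r + (c : ℝ) / m) - (gq m * Sp N ((b : ℝ) / r) +
        ∑ d ∈ m.divisors.erase 1, gq (m / d) * tw N (kd (fam c m) d r b) vM)) +
      ∑ d ∈ m.divisors.erase 1, gq (m / d) * tw N (kd (fam c m) d r b) vM := by ring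
  rw [h2]
  refine (norm_add_le _ _).trans ?_
  rw [add_comm]
  gcongr
  refine (norm_sum_le _ _).trans ?_
  apply sum_le_sum; intro d hd
  rw [mem_erase, Nat.mem_divisors] at hd
  have hdm : m / d ∣ m := Nat.div_dvd_of_dvd hd.2.1
  rw [norm_mul, norm_gq _ (hsq.squarefree_of_dvd hdm)]

lemma sum_inv_le (Q L : ℕ) (hQ : Q < 2 ^ L) : ∑ m ∈ Ioc 0 Q, (1 : ℝ) / m ≤ 1 + L := by
  have h := harmonic_le_one_add_log Q
  rw [harmonic_eq_sum_Icc] at h
  push_cast at h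
  have h2 : ∑ m ∈ Ioc 0 Q, (1 : ℝ) / m = ∑ i ∈ Icc 1 Q, (i : ℝ)⁻¹ := by
    apply sum_congr
    · ext m; rw [mem_Icc, mem_Ioc]; omega
    · intro m _; rw [one_div]
  rw [h2]
  refine h.trans ?_
  gcongr
  rcases Nat.eq_zero_or_pos Q with h0 | h0
  · subst h0; simp
  · have h1 : (Q : ℝ) ≤ 2 ^ L := by exact_mod_cast hQ.le
    have h2 : Real.log Q ≤ Real.log (2 ^ L) := Real.log_le_log (by exact_mod_cast h0) h1
    rw [Real.log_pow] at h2
    have h3 : Real.log 2 ≤ 1 := by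
      have := Real.log_two_lt_d9
      linarith
    calc Real.log Q ≤ L * Real.log 2 := h2
      _ ≤ L * 1 := by gcongr
      _ = L := mul_one _

/-- The supremum bound: `S(b/r + c/m)` is close to `μ(m)/φ(m) S(b/r)` on average over `m ≤ Q`, for an
arbitrary choice of the numerators `c`. -/
theorem sup_bound (MM : Finset ℕ) (Q k r : ℕ) (z : ℝ) (hz : 0 < z) (hD : Mods MM Q k r z)
    (hrough : ∀ m ∈ MM, ∀ p ∈ m.primeFactors, z ≤ p) (hr : 0 < r) (b : ℕ) (N U L : ℕ)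
    (hU : 1 ≤ U) (hU3 : U * U * U ≤ N) (hL : N + 1 < 2 ^ L) (hQN : Q ≤ N)
    (cm : ℕ → ℕ) (hcm : ∀ m ∈ MM, cm m ∈ Cop m) :
    ∑ m ∈ MM, ‖Sp N ((b : ℝ) / r + (cm m : ℝ) / m) - gq m * Sp N ((b : ℝ) / r)‖ ≤
    2 ^ k * (1 + L) * (16 * 2 ^ k * L ^ 2 * r * U * Q ^ 2 +
      288 * 2 ^ k * L ^ 5 * √r * N * (1 / √z + √((Q : ℝ) / U) + √((Q : ℝ) ^ 3 / N))) +
      Q * ((1 + 4 ^ k) * (k * L)) := by
  classical
  set B : ℝ := 16 * 2 ^ k * L ^ 2 * r * U * Q ^ 2 +
      288 * 2 ^ k * L ^ 5 * √r * N * (1 / √z + √((Q : ℝ) / U) + √((Q : ℝ) ^ 3 / N)) with hB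
  have hB0 : 0 ≤ B := by positivity
  have hlogN : Real.log N ≤ L := log_le_L hL (by omega)
  have hMM : ∀ m ∈ MM, 0 < m ∧ m ≤ Q := fun m hm => by
    have := hD.one_lt m hm
    exact ⟨by omega, hD.le m hm⟩
  have h1 : ∀ m ∈ MM, ‖Sp N ((b : ℝ) / r + (cm m : ℝ) / m) - gq m * Sp N ((b : ℝ) / r)‖ ≤
      ∑ d ∈ m.divisors.erase 1, 1 / ((m / d).totient : ℝ) *
        ‖tw N (kd (fam (cm m) m) d r b) vM‖ + (1 + 4 ^ k) * (k * L) := by
    intro m hm
    refine (Delta_bound (cm m) m b r N k (hD.sq m hm) (hD.card m hm)).trans ?_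
    gcongr
  refine (sum_le_sum h1).trans ?_
  rw [sum_add_distrib, sum_const, nsmul_eq_mul]
  have hcard := hD.card_le
  have h2 : ∑ m ∈ MM, ∑ d ∈ m.divisors.erase 1, 1 / ((m / d).totient : ℝ) *
        ‖tw N (kd (fam (cm m) m) d r b) vM‖ ≤ 2 ^ k * (1 + L) * B := by
    rw [sum_div_reindex MM Q hMM (fun m d => 1 / ((m / d).totient : ℝ) *
        ‖tw N (kd (fam (cm m) m) d r b) vM‖)]
    have h3 : ∀ m' ∈ Ioc 0 Q, ∑ d ∈ (Ioc 1 Q).filter (fun d => m' * d ∈ MM),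
        1 / ((m' * d / d).totient : ℝ) *
        ‖tw N (kd (fam (cm (m' * d)) (m' * d)) d r b) vM‖ ≤ (1 / m') * (2 ^ k * B) := by
      intro m' hm'
      rw [mem_Ioc] at hm'
      have hm'r : (0 : ℝ) < m' := by exact_mod_cast hm'.1
      rcases ((Ioc 1 Q).filter (fun d => m' * d ∈ MM)).eq_empty_or_nonempty with h0 | ⟨d0, hd0⟩
      · rw [h0, sum_empty]; positivity
      have hd0' := mem_filter.1 hd0
      have hsqm' : Squarefree m' := (hD.sq _ hd0'.2).squarefree_of_dvd (Dvd.intro d0 rfl)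
      have hcard' : m'.primeFactors.card ≤ k :=
        (card_le_card (Nat.primeFactors_mono (Dvd.intro d0 rfl) (hD.sq _ hd0'.2).ne_zero)).trans
          (hD.card _ hd0'.2)
      have hφ2 := totient_ge m' k hsqm' hcard'
      have hφ : (0 : ℝ) < m'.totient := by exact_mod_cast Nat.totient_pos.2 hm'.1
      have hMods : Mods ((Ioc 1 Q).filter (fun d => m' * d ∈ MM)) Q k r z := by
        refine ⟨?_, ?_, ?_, ?_, ?_, ?_⟩
        · intro d hd
          exact (hD.sq _ (mem_filter.1 hd).2).squarefree_of_dvd (Dvd.intro_left m' rfl)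
        · intro d hd; exact (mem_Ioc.1 (mem_filter.1 hd).1).1
        · intro d hd; exact (mem_Ioc.1 (mem_filter.1 hd).1).2
        · intro d hd
          have hd' := mem_filter.1 hd
          have hd1 := (mem_Ioc.1 hd'.1).1
          obtain ⟨p, hp, hpd⟩ := Nat.exists_prime_and_dvd (show d ≠ 1 by omega)
          have h4 : p ∈ (m' * d).primeFactors := by
            rw [Nat.mem_primeFactors]
            exact ⟨hp, hpd.mul_left m', (hD.sq _ hd'.2).ne_zero⟩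
          have h5 := hrough _ hd'.2 p h4
          have h6 : (p : ℝ) ≤ d := by exact_mod_cast Nat.le_of_dvd (by omega) hpd
          linarith
        · intro d hd
          have hd' := mem_filter.1 hd
          exact (card_le_card (Nat.primeFactors_mono (Dvd.intro_left m' rfl)
            (hD.sq _ hd'.2).ne_zero)).trans (hD.card _ hd'.2)
        · intro d hd
          have hd' := mem_filter.1 hd
          exact Nat.Coprime.coprime_mul_left_right (hD.cop _ hd'.2)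
      have hcore := core3 _ Q k r z hz hMods (fun d => fam (cm (m' * d)) (m' * d))
        (by
          intro d hd p hp
          have hd' := mem_filter.1 hd
          rw [Nat.mem_primeFactors] at hp
          have hcop : (cm (m' * d)).Coprime (m' * d) := by
            have := hcm _ hd'.2
            unfold Cop at this
            exact (mem_filter.1 this).2
          exact fam_not_dvd _ _ p hp.1 (hD.sq _ hd'.2) (hp.2.1.mul_left m') hcop)
        hr b N U L hU hU3 hL hQN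
      calc _ = ∑ d ∈ (Ioc 1 Q).filter (fun d => m' * d ∈ MM), 1 / (m'.totient : ℝ) *
            ‖tw N (kd (fam (cm (m' * d)) (m' * d)) d r b) vM‖ := by
            apply sum_congr rfl; intro d hd
            have hd1 := (mem_Ioc.1 (mem_filter.1 hd).1).1
            rw [Nat.mul_div_cancel m' (by omega)]
        _ = 1 / (m'.totient : ℝ) * ∑ d ∈ (Ioc 1 Q).filter (fun d => m' * d ∈ MM),
            ‖tw N (kd (fam (cm (m' * d)) (m' * d)) d r b) vM‖ := by rw [mul_sum]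
        _ ≤ 1 / (m'.totient : ℝ) * B := by gcongr
        _ ≤ (2 ^ k / m') * B := by
            gcongr ?_ * B
            rw [div_le_div_iff₀ hφ hm'r]
            rw [div_le_iff₀ (by positivity)] at hφ2
            linarith
        _ = _ := by ring
    refine (sum_le_sum h3).trans ?_
    rw [← sum_mul]
    have h4 := sum_inv_le Q L (by omega)
    calc _ ≤ (1 + (L : ℝ)) * (2 ^ k * B) := by gcongr
      _ = _ := by ring
  have h5 : (MM.card : ℝ) * ((1 + 4 ^ k) * (k * L)) ≤ Q * ((1 + 4 ^ k) * (k * L)) := by gcongr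
  gcongr

/-- The error functional bounded by the supremum bound (range `m ≤ Q`, `Q` below `N^(1/3)`). -/
theorem funct_a (MM : Finset ℕ) (Q k r : ℕ) (z : ℝ) (hz : 0 < z) (hD : Mods MM Q k r z)
    (hrough : ∀ m ∈ MM, ∀ p ∈ m.primeFactors, z ≤ p) (hr : 0 < r) (b : ℕ) (N U L h : ℕ)
    (hU : 1 ≤ U) (hU3 : U * U * U ≤ N) (hL : N + 1 < 2 ^ L) (hQN : Q ≤ N)
    (hhm : ∀ m ∈ MM, h ≤ m) :
    ∑ m ∈ MM, 1 / (m.totient : ℝ) * ∑ c ∈ Cop m, ‖D h ((b : ℝ) / r + (c : ℝ) / m)‖ ^ 2 *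
      ‖Sp N ((b : ℝ) / r + (c : ℝ) / m) - gq m * Sp N ((b : ℝ) / r)‖ ≤
    2 ^ k * h * (2 ^ k * (1 + L) * (16 * 2 ^ k * L ^ 2 * r * U * Q ^ 2 +
      288 * 2 ^ k * L ^ 5 * √r * N * (1 / √z + √((Q : ℝ) / U) + √((Q : ℝ) ^ 3 / N))) +
      Q * ((1 + 4 ^ k) * (k * L))) := by
  classical
  -- the maximising fractions
  have hmax : ∀ m, ∃ c, m ∈ MM → c ∈ Cop m ∧ ∀ c' ∈ Cop m,
      ‖Sp N ((b : ℝ) / r + (c' : ℝ) / m) - gq m * Sp N ((b : ℝ) / r)‖ ≤
      ‖Sp N ((b : ℝ) / r + (c : ℝ) / m) - gq m * Sp N ((b : ℝ) / r)‖ := by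
    intro m
    by_cases hm : m ∈ MM
    · have hne : (Cop m).Nonempty := by
        rw [← card_pos, card_Cop]
        have := hD.one_lt m hm
        exact Nat.totient_pos.2 (by omega)
      obtain ⟨c, hc, hc2⟩ := exists_max_image (Cop m)
        (fun c' => ‖Sp N ((b : ℝ) / r + (c' : ℝ) / m) - gq m * Sp N ((b : ℝ) / r)‖) hne
      exact ⟨c, fun _ => ⟨hc, hc2⟩⟩
    · exact ⟨0, fun h => absurd h hm⟩
  choose cm hcm using hmax
  have hsup := sup_bound MM Q k r z hz hD hrough hr b N U L hU hU3 hL hQN cm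
    (fun m hm => (hcm m hm).1)
  -- one modulus
  have h1 : ∀ m ∈ MM, 1 / (m.totient : ℝ) * ∑ c ∈ Cop m,
      ‖D h ((b : ℝ) / r + (c : ℝ) / m)‖ ^ 2 *
      ‖Sp N ((b : ℝ) / r + (c : ℝ) / m) - gq m * Sp N ((b : ℝ) / r)‖ ≤
      2 ^ k * h * ‖Sp N ((b : ℝ) / r + (cm m : ℝ) / m) - gq m * Sp N ((b : ℝ) / r)‖ := by
    intro m hm
    obtain ⟨hc1, hc2⟩ := hcm m hm
    have hm1 : 0 < m := by have := hD.one_lt m hm; omega
    have hmr : (0 : ℝ) < m := by exact_mod_cast hm1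
    have hφ : (0 : ℝ) < m.totient := by exact_mod_cast Nat.totient_pos.2 hm1
    have hφ2 := totient_ge m k (hD.sq m hm) (hD.card m hm)
    set Δ : ℝ := ‖Sp N ((b : ℝ) / r + (cm m : ℝ) / m) - gq m * Sp N ((b : ℝ) / r)‖ with hΔ
    have hsum : ∑ c ∈ Cop m, ‖D h ((b : ℝ) / r + (c : ℝ) / m)‖ ^ 2 *
        ‖Sp N ((b : ℝ) / r + (c : ℝ) / m) - gq m * Sp N ((b : ℝ) / r)‖ ≤ (m * h) * Δ := by
      calc _ ≤ ∑ c ∈ Cop m, ‖D h ((b : ℝ) / r + (c : ℝ) / m)‖ ^ 2 * Δ := by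
            apply sum_le_sum; intro c hc
            gcongr
            exact hc2 c hc
        _ = (∑ c ∈ Cop m, ‖D h ((b : ℝ) / r + (c : ℝ) / m)‖ ^ 2) * Δ := by rw [sum_mul]
        _ ≤ (∑ c ∈ range m, ‖D h ((b : ℝ) / r + (c : ℝ) / m)‖ ^ 2) * Δ := by
            gcongr
            unfold Cop
            exact filter_subset _ _
        _ = (m * h) * Δ := by rw [sum_D_sq m h hm1 (hhm m hm)]
    have hΔ0 : 0 ≤ Δ := norm_nonneg _
    have hmφ : (m : ℝ) / m.totient ≤ 2 ^ k := by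
      rw [div_le_iff₀ hφ]
      rw [div_le_iff₀ (by positivity)] at hφ2
      linarith
    calc _ ≤ 1 / (m.totient : ℝ) * ((m * h) * Δ) := by gcongr
      _ = (m / m.totient) * (h * Δ) := by ring
      _ ≤ 2 ^ k * (h * Δ) := by gcongr
      _ = 2 ^ k * h * Δ := by ring
  refine (sum_le_sum h1).trans ?_
  rw [← mul_sum]
  gcongr

end Pool.Agent.Lib.MP_2a816b_nt
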