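import Mathlib
import Pool.Agent.Lib.MP_2a816b_nt.Vaughan

/-!
# Elementary sums over primes and squarefree numbers
-/

open Finset Real

namespace Pool.Agent.Lib.MP_2a816b_nt

/-- squarefree numbers up to `R0` -/
def SqR (R0 : ℕ) : Finset ℕ := (Ioc 0 R0).filter Squarefree

/-- primes in `(A, B]` -/
def PrI (A B : ℕ) : Finset ℕ := (Ioc A B).filter Nat.Prime

lemma sum_inv_sq_le (K : ℕ) : ∑ m ∈ Ioc 0 K, (1 : ℝ) / (m : ℝ) ^ 2 ≤ 2 := by
  have h := sum_Ioo_inv_sq_le (α := ℝ) 0 (K + 1)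
  have e : Ioo 0 (K + 1) = Ioc 0 K := by
    ext m; rw [mem_Ioo, mem_Ioc]; omega
  rw [e] at h
  simpa using h

/-- `∑_{r ≤ R0, squarefree} 1/φ(r) ≥ (1/2) log (R0+1)` -/
lemma sum_inv_totient_ge (R0 : ℕ) :
    Real.log (R0 + 1) / 2 ≤ ∑ r ∈ SqR R0, 1 / (r.totient : ℝ) := by
  classical
  have h1 : Real.log (R0 + 1) ≤ ∑ n ∈ Ioc 0 R0, (1 : ℝ) / n := by
    have h := log_add_one_le_harmonic R0
    rw [harmonic_eq_sum_Icc] at h
    push_cast at h
    refine h.trans (le_of_eq ?_)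
    apply sum_congr
    · ext m; rw [mem_Icc, mem_Ioc]; omega
    · intro m _; rw [one_div]
  -- representation n = b^2 a
  have hrep : ∀ n : ℕ, ∃ p : ℕ × ℕ, n ∈ Ioc 0 R0 → p ∈ SqR R0 ×ˢ Ioc 0 R0 ∧ p.2 ^ 2 * p.1 = n := by
    intro n
    by_cases hn : n ∈ Ioc 0 R0
    · rw [mem_Ioc] at hn
      obtain ⟨a, b, ha, hb, hab, hsq⟩ := Nat.sq_mul_squarefree_of_pos hn.1
      refine ⟨(a, b), fun _ => ⟨?_, hab⟩⟩
      rw [mem_product]
      unfold SqR
      rw [mem_filter, mem_Ioc, mem_Ioc]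
      have h2 : a ≤ n := by
        rw [← hab]
        exact Nat.le_mul_of_pos_left a (by positivity)
      have h3 : b ≤ n := by
        rw [← hab]
        calc b ≤ b ^ 2 := Nat.le_self_pow (by norm_num) b
          _ ≤ b ^ 2 * a := Nat.le_mul_of_pos_right _ ha
      exact ⟨⟨⟨ha, h2.trans hn.2⟩, hsq⟩, hb, h3.trans hn.2⟩
    · exact ⟨(0, 0), fun h => absurd h hn⟩
  choose p hp using hrep
  have h2 : ∑ n ∈ Ioc 0 R0, (1 : ℝ) / n ≤
      ∑ q ∈ SqR R0 ×ˢ Ioc 0 R0, (1 : ℝ) / ((q.2 : ℝ) ^ 2 * q.1) := by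
    have e1 : ∑ n ∈ Ioc 0 R0, (1 : ℝ) / n =
        ∑ q ∈ (Ioc 0 R0).image p, (1 : ℝ) / ((q.2 : ℝ) ^ 2 * q.1) := by
      rw [sum_image]
      · apply sum_congr rfl; intro n hn
        have h3 := (hp n hn).2
        have h4 : (n : ℝ) = ((p n).2 : ℝ) ^ 2 * (p n).1 := by
          nth_rewrite 1 [← h3]
          push_cast
          ring
        rw [← h4]
      · intro n hn m hm hnm
        rw [mem_coe] at hn hm
        rw [← (hp n hn).2, ← (hp m hm).2, hnm]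
    rw [e1]
    apply sum_le_sum_of_subset_of_nonneg
    · intro q hq
      rw [mem_image] at hq
      obtain ⟨n, hn, rfl⟩ := hq
      exact (hp n hn).1
    · intro q _ _; positivity
  have h3 : ∑ q ∈ SqR R0 ×ˢ Ioc 0 R0, (1 : ℝ) / ((q.2 : ℝ) ^ 2 * q.1) ≤
      2 * ∑ r ∈ SqR R0, 1 / (r.totient : ℝ) := by
    rw [sum_product, mul_sum]
    apply sum_le_sum; intro r hr
    unfold SqR at hr
    rw [mem_filter, mem_Ioc] at hr
    have hr0 : (0 : ℝ) < r := by exact_mod_cast hr.1.1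
    have hφ : (0 : ℝ) < r.totient := by exact_mod_cast Nat.totient_pos.2 hr.1.1
    have e1 : ∑ m ∈ Ioc 0 R0, (1 : ℝ) / ((m : ℝ) ^ 2 * r) =
        (∑ m ∈ Ioc 0 R0, (1 : ℝ) / (m : ℝ) ^ 2) * (1 / r) := by
      rw [sum_mul]
      apply sum_congr rfl; intro m _
      rw [div_mul_div_comm, one_mul]
    rw [e1]
    have h4 : (1 : ℝ) / r ≤ 1 / r.totient := by
      apply one_div_le_one_div_of_le hφ
      exact_mod_cast Nat.totient_le r
    have := sum_inv_sq_le R0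
    gcongr
  linarith

/-- Chebyshev in a block -/
lemma theta_block (y : ℝ) (hy : 10 ^ 8 ≤ y) : y ≤ Chebyshev.theta (4 * y) - Chebyshev.theta y := by
  set z : ℝ := √(√y) with hz
  have hy0 : 0 < y := by linarith
  have hz1 : z ^ 2 = √y := sq_sqrt (sqrt_nonneg y)
  have hz2 : z ^ 4 = y := by
    have : z ^ 4 = (z ^ 2) ^ 2 := by ring
    rw [this, hz1, sq_sqrt hy0.le]
  have hz0 : 0 ≤ z := sqrt_nonneg _
  have hz100 : 100 ≤ z := by
    by_contra hc
    push Not at hc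
    have : z ^ 4 < 100 ^ 4 := by gcongr
    rw [hz2] at this
    linarith
  have h1 := Chebyshev.theta_ge' (x := 4 * y) (by linarith)
  have h2 := Chebyshev.theta_le_log4_mul_x (x := y) hy0.le
  have h3 : Real.log 4 = 2 * Real.log 2 := by
    rw [show (4 : ℝ) = 2 ^ 2 by norm_num, Real.log_pow]; norm_num
  have h4 := Real.log_two_gt_d9
  have h4' := Real.log_two_lt_d9
  have h5 : √(4 * y) = 2 * z ^ 2 := by
    rw [sqrt_mul (by norm_num), hz1]
    congr 1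
    rw [show (4 : ℝ) = 2 ^ 2 by norm_num, sqrt_sq (by norm_num)]
  have h6 : Real.log (4 * y) ≤ 8 * z := by
    have e1 : (4 : ℝ) * y ≤ (2 * z) ^ 4 := by
      have : (2 * z) ^ 4 = 16 * y := by rw [mul_pow, hz2]; norm_num
      rw [this]; linarith
    calc Real.log (4 * y) ≤ Real.log ((2 * z) ^ 4) := Real.log_le_log (by linarith) e1
      _ = 4 * Real.log (2 * z) := by rw [Real.log_pow]; norm_num
      _ ≤ 4 * (2 * z) := by
          have := Real.log_le_sub_one_of_pos (x := 2 * z) (by linarith)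
          linarith
      _ = 8 * z := by ring
  have h7 : Real.log (4 * y + 2) ≤ 8 * z := by
    have e1 : (4 : ℝ) * y + 2 ≤ (2 * z) ^ 4 := by
      have : (2 * z) ^ 4 = 16 * y := by rw [mul_pow, hz2]; norm_num
      rw [this]; linarith
    calc Real.log (4 * y + 2) ≤ Real.log ((2 * z) ^ 4) := Real.log_le_log (by linarith) e1
      _ = 4 * Real.log (2 * z) := by rw [Real.log_pow]; norm_num
      _ ≤ 4 * (2 * z) := by
          have := Real.log_le_sub_one_of_pos (x := 2 * z) (by linarith)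
          linarith
      _ = 8 * z := by ring
  have h8 : 2 * √(4 * y) * Real.log (4 * y) ≤ 32 * z ^ 3 := by
    rw [h5]
    calc 2 * (2 * z ^ 2) * Real.log (4 * y) ≤ 2 * (2 * z ^ 2) * (8 * z) := by gcongr
      _ = 32 * z ^ 3 := by ring
  rw [h3] at h2
  have h9 : 32 * z ^ 3 ≤ 0.32 * y := by
    rw [← hz2]
    have : 0 ≤ z ^ 3 := by positivity
    nlinarith
  have h10 : 8 * z ≤ 0.001 * y := by
    rw [← hz2]
    have e1 : (100 : ℝ) ^ 3 ≤ z ^ 3 := by gcongr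
    nlinarith
  have h11 : (4 * y - 1) * Real.log 2 - 2 * Real.log 2 * y = (2 * y - 1) * Real.log 2 := by ring
  have h12 : (2 * y - 1) * 0.6931 ≤ (2 * y - 1) * Real.log 2 := by
    apply mul_le_mul_of_nonneg_left _ (by linarith)
    linarith
  nlinarith

lemma theta_sub (A B : ℕ) (hAB : A ≤ B) :
    Chebyshev.theta B - Chebyshev.theta A = ∑ p ∈ PrI A B, Real.log p := by
  unfold Chebyshev.theta PrI
  rw [Nat.floor_natCast, Nat.floor_natCast, sum_filter, sum_filter, sum_filter,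
    ← Finset.sum_Ioc_consecutive _ (Nat.zero_le A) hAB]
  ring

lemma PrI_union (A B C : ℕ) (hAB : A ≤ B) (hBC : B ≤ C) (f : ℕ → ℝ) :
    ∑ p ∈ PrI A C, f p = ∑ p ∈ PrI A B, f p + ∑ p ∈ PrI B C, f p := by
  unfold PrI
  rw [sum_filter, sum_filter, sum_filter, Finset.sum_Ioc_consecutive _ hAB hBC]

lemma prime_block (y : ℝ) (hy : 10 ^ 8 ≤ y) :
    1 / (4 * Real.log (4 * y)) ≤ ∑ p ∈ PrI ⌊y⌋₊ ⌊4 * y⌋₊, (1 : ℝ) / p := by
  have hy0 : 0 < y := by linarith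
  have h1 := theta_block y hy
  have hfl : ⌊y⌋₊ ≤ ⌊4 * y⌋₊ := Nat.floor_le_floor (by linarith)
  rw [Chebyshev.theta_eq_theta_coe_floor (4 * y), Chebyshev.theta_eq_theta_coe_floor y,
    theta_sub _ _ hfl] at h1
  have hlog : 0 < Real.log (4 * y) := Real.log_pos (by linarith)
  have h2 : ∑ p ∈ PrI ⌊y⌋₊ ⌊4 * y⌋₊, Real.log p ≤
      (4 * y * Real.log (4 * y)) * ∑ p ∈ PrI ⌊y⌋₊ ⌊4 * y⌋₊, (1 : ℝ) / p := by
    rw [mul_sum]
    apply sum_le_sum; intro p hp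
    unfold PrI at hp
    rw [mem_filter, mem_Ioc] at hp
    have hp0 : (0 : ℝ) < p := by exact_mod_cast hp.2.pos
    have hp1 : (1 : ℝ) ≤ p := by exact_mod_cast hp.2.one_lt.le
    have hple : (p : ℝ) ≤ 4 * y := (Nat.le_floor_iff (by linarith)).1 hp.1.2
    have h3 : Real.log p ≤ Real.log (4 * y) := Real.log_le_log hp0 hple
    rw [mul_one_div, le_div_iff₀ hp0]
    calc Real.log p * p ≤ Real.log (4 * y) * (4 * y) := by gcongr
      _ = _ := by ring
  have h3 : y ≤ (4 * y * Real.log (4 * y)) * ∑ p ∈ PrI ⌊y⌋₊ ⌊4 * y⌋₊, (1 : ℝ) / p := h1.trans h2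
  rw [div_le_iff₀ (by positivity)]
  have h4 : y * 1 ≤ y * ((∑ p ∈ PrI ⌊y⌋₊ ⌊4 * y⌋₊, (1 : ℝ) / p) * (4 * Real.log (4 * y))) := by
    rw [mul_one]
    refine h3.trans (le_of_eq ?_)
    ring
  exact le_of_mul_le_mul_left h4 hy0

/-- reciprocal sum of primes in `(Y, Q]` -/
lemma sum_inv_prime_ge (Y Q : ℝ) (J : ℕ) (hY : 10 ^ 8 ≤ Y) (hQ : 4 ^ J * Y ≤ Q) :
    J / (4 * Real.log Q) ≤ ∑ p ∈ PrI ⌊Y⌋₊ ⌊Q⌋₊, (1 : ℝ) / p := by
  have hY0 : 0 < Y := by linarith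
  have h41 : ∀ j : ℕ, (1 : ℝ) ≤ 4 ^ j := fun j => one_le_pow₀ (by norm_num)
  have key : ∀ j : ℕ, j ≤ J → j / (4 * Real.log Q) ≤ ∑ p ∈ PrI ⌊Y⌋₊ ⌊4 ^ j * Y⌋₊, (1 : ℝ) / p := by
    intro j
    induction j with
    | zero => intro _; simp [PrI]
    | succ j ih =>
      intro hj
      have h1 := ih (by omega)
      have h2 : 10 ^ 8 ≤ 4 ^ j * Y := by
        calc (10 : ℝ) ^ 8 ≤ 1 * Y := by rw [one_mul]; exact hY
          _ ≤ 4 ^ j * Y := by gcongr; exact h41 j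
      have h3 := prime_block (4 ^ j * Y) h2
      have e1 : 4 * (4 ^ j * Y) = 4 ^ (j + 1) * Y := by rw [pow_succ]; ring
      rw [e1] at h3
      have h4 : 4 ^ (j + 1) * Y ≤ Q := by
        refine le_trans ?_ hQ
        gcongr
        · norm_num
      have h5 : ⌊Y⌋₊ ≤ ⌊4 ^ j * Y⌋₊ := by
        apply Nat.floor_le_floor
        have := h41 j
        nlinarith
      have h6 : ⌊4 ^ j * Y⌋₊ ≤ ⌊4 ^ (j + 1) * Y⌋₊ := by
        apply Nat.floor_le_floor
        rw [← e1]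
        have : 0 ≤ 4 ^ j * Y := by positivity
        linarith
      rw [PrI_union _ _ _ h5 h6]
      have hlog1 : 0 < Real.log (4 ^ (j + 1) * Y) := Real.log_pos (by rw [← e1]; linarith)
      have hlog2 : Real.log (4 ^ (j + 1) * Y) ≤ Real.log Q := Real.log_le_log (by positivity) h4
      have h7 : 1 / (4 * Real.log Q) ≤ 1 / (4 * Real.log (4 ^ (j + 1) * Y)) := by
        apply one_div_le_one_div_of_le (by positivity)
        linarith
      have h8 : ((j + 1 : ℕ) : ℝ) / (4 * Real.log Q) = j / (4 * Real.log Q) + 1 / (4 * Real.log Q) := by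
        push_cast; ring
      rw [h8]
      linarith
  have h1 := key J le_rfl
  have h5 : ⌊Y⌋₊ ≤ ⌊4 ^ J * Y⌋₊ := by
    apply Nat.floor_le_floor
    have := h41 J
    nlinarith
  rw [PrI_union _ _ _ h5 (Nat.floor_le_floor hQ)]
  have : 0 ≤ ∑ p ∈ PrI ⌊4 ^ J * Y⌋₊ ⌊Q⌋₊, (1 : ℝ) / p := by positivity
  linarith

/-- Chebyshev's lower bound -/
lemma psi_lower (N : ℕ) : N * Real.log 2 - Real.log (N + 1) ≤ ∑ n ∈ Ioc 0 N, vM n := by
  have h := Chebyshev.psi_ge N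
  unfold Chebyshev.psi at h
  rw [Nat.floor_natCast] at h
  exact h

end Pool.Agent.Lib.MP_2a816b_nt
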