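import Mathlib
import Pool.Agent.Lib.MP_2a816b_nt.Expo

/-!
# The divisor bound
-/

open Finset Real

namespace Pool.Agent.Lib.MP_2a816b_nt

/-- `τ(n) ≤ C n^δ` -/
theorem divisor_bound (δ : ℝ) (hδ : 0 < δ) : ∃ C : ℝ, 1 ≤ C ∧ ∀ n : ℕ, 0 < n →
    (n.divisors.card : ℝ) ≤ C * (n : ℝ) ^ δ := by
  classical
  set P0 : ℕ := ⌈(2 : ℝ) ^ (1 / δ)⌉₊ with hP0
  set c1 : ℝ := min 1 (δ * Real.log 2) with hc1
  have hlog2 : 0 < Real.log 2 := Real.log_pos (by norm_num)
  have hc10 : 0 < c1 := lt_min one_pos (by positivity)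
  have hc11 : c1 ≤ 1 := min_le_left _ _
  have hC1 : 1 ≤ 1 / c1 := by rw [le_div_iff₀ hc10]; linarith
  refine ⟨(1 / c1) ^ P0, one_le_pow₀ hC1, ?_⟩
  intro n hn
  rw [Nat.card_divisors hn.ne']
  push_cast
  set c : ℕ → ℝ := fun p => if p < P0 then 1 / c1 else 1 with hc
  have h1 : ∀ p ∈ n.primeFactors, ((n.factorization p : ℕ) : ℝ) + 1 ≤
      c p * ((p : ℝ) ^ (n.factorization p)) ^ δ := by
    intro p hp
    have hpp := Nat.prime_of_mem_primeFactors hp
    have hp2 : (2 : ℝ) ≤ p := by exact_mod_cast hpp.two_le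
    have hp0 : (0 : ℝ) < p := by linarith
    generalize n.factorization p = v
    have e1 : ((p : ℝ) ^ v) ^ δ = ((p : ℝ) ^ δ) ^ v := by
      rw [← rpow_natCast, ← rpow_mul hp0.le, mul_comm, rpow_mul hp0.le, rpow_natCast]
    rw [e1]
    simp only [hc]
    split_ifs with h
    · -- small primes
      have h2 : (2 : ℝ) ^ δ ≤ (p : ℝ) ^ δ := rpow_le_rpow (by norm_num) hp2 hδ.le
      have h3 : ((2 : ℝ) ^ δ) ^ v ≤ ((p : ℝ) ^ δ) ^ v := by gcongr
      have h4 : 1 + v * (δ * Real.log 2) ≤ ((2 : ℝ) ^ δ) ^ v := by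
        have h5 : ((2 : ℝ) ^ δ) ^ v = Real.exp (v * (δ * Real.log 2)) := by
          rw [rpow_def_of_pos (by norm_num : (0 : ℝ) < 2), ← Real.exp_nat_mul]
          congr 1; ring
        rw [h5]
        have := Real.add_one_le_exp (v * (δ * Real.log 2))
        linarith
      have h5 : c1 * (v + 1) ≤ 1 + v * (δ * Real.log 2) := by
        have a1 : c1 * v ≤ (δ * Real.log 2) * v := by
          apply mul_le_mul_of_nonneg_right (min_le_right _ _) (by positivity)
        nlinarith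
      rw [div_mul_eq_mul_div, one_mul, le_div_iff₀ hc10]
      linarith
    · -- large primes
      push Not at h
      have h2 : (2 : ℝ) ≤ (p : ℝ) ^ δ := by
        have h3 : (2 : ℝ) ^ (1 / δ) ≤ p := by
          refine (Nat.le_ceil _).trans ?_
          exact_mod_cast h
        calc (2 : ℝ) = ((2 : ℝ) ^ (1 / δ)) ^ δ := by
              rw [← rpow_mul (by norm_num), one_div, inv_mul_cancel₀ hδ.ne', rpow_one]
          _ ≤ (p : ℝ) ^ δ := rpow_le_rpow (by positivity) h3 hδ.le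
      rw [one_mul]
      have h3 : (v : ℝ) + 1 ≤ 2 ^ v := by
        have : v + 1 ≤ 2 ^ v := Nat.lt_two_pow_self
        exact_mod_cast this
      calc (v : ℝ) + 1 ≤ 2 ^ v := h3
        _ ≤ ((p : ℝ) ^ δ) ^ v := by gcongr
  have h2 : ∏ p ∈ n.primeFactors, (((n.factorization p : ℕ) : ℝ) + 1) ≤
      (∏ p ∈ n.primeFactors, c p) * ∏ p ∈ n.primeFactors, ((p : ℝ) ^ (n.factorization p)) ^ δ := by
    rw [← prod_mul_distrib]
    apply prod_le_prod
    · intro p _; positivity
    · exact h1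
  have h3 : ∏ p ∈ n.primeFactors, ((p : ℝ) ^ (n.factorization p)) ^ δ = (n : ℝ) ^ δ := by
    rw [finsetProd_rpow _ _ (fun p _ => by positivity)]
    congr 1
    have := Nat.prod_factorization_pow_eq_self hn.ne'
    unfold Finsupp.prod at this
    rw [Nat.support_factorization] at this
    have h6 := congrArg (fun m : ℕ => (m : ℝ)) this
    simp only [Nat.cast_prod, Nat.cast_pow] at h6
    exact h6
  have h4 : ∏ p ∈ n.primeFactors, c p ≤ (1 / c1) ^ P0 := by
    simp only [hc]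
    rw [prod_ite, prod_const, prod_const_one, mul_one]
    have h5 : (n.primeFactors.filter (fun p => p < P0)).card ≤ P0 := by
      have hsub : n.primeFactors.filter (fun p => p < P0) ⊆ range P0 := by
        intro p hp
        rw [mem_range]
        exact (mem_filter.1 hp).2
      have := card_le_card hsub
      rwa [card_range] at this
    exact pow_le_pow_right₀ hC1 h5
  rw [h3] at h2
  refine h2.trans ?_
  gcongr

/-- norm of a Dirichlet product sequence -/
lemma conv_norm (N J : ℕ) (y v t : ℕ → ℂ) (τm : ℝ) (hτ0 : 0 ≤ τm)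
    (hτ : ∀ k, 0 < k → k < N * J → (k.divisors.card : ℝ) ≤ τm)
    (ht : ∀ k, t k = if k = 0 then 0 else
      ∑ q ∈ (range N ×ˢ range J).filter (fun q => q.1 * q.2 = k), y q.1 * (starRingEnd ℂ) (v q.2)) :
    ∑ k ∈ range (N * J), ‖t k‖ ^ 2 ≤
      τm * ((∑ n ∈ range N, ‖y n‖ ^ 2) * ∑ j ∈ range J, ‖v j‖ ^ 2) := by
  classical
  have h1 : ∀ k ∈ range (N * J), ‖t k‖ ^ 2 ≤
      τm * ∑ q ∈ (range N ×ˢ range J).filter (fun q => q.1 * q.2 = k),
        ‖y q.1‖ ^ 2 * ‖v q.2‖ ^ 2 := by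
    intro k hk
    rw [mem_range] at hk
    rw [ht k]
    by_cases hk0 : k = 0
    · rw [if_pos hk0]
      simp only [norm_zero, ne_eq, OfNat.ofNat_ne_zero, not_false_eq_true, zero_pow]
      positivity
    rw [if_neg hk0]
    set S := (range N ×ˢ range J).filter (fun q => q.1 * q.2 = k) with hS
    have hcard : (S.card : ℝ) ≤ τm := by
      refine le_trans ?_ (hτ k (Nat.pos_of_ne_zero hk0) hk)
      have h2 : S.card ≤ k.divisors.card := by
        apply card_le_card_of_injOn (fun q => q.1)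
        · intro q hq
          rw [mem_coe, hS, mem_filter] at hq
          rw [mem_coe, Nat.mem_divisors]
          exact ⟨Dvd.intro q.2 hq.2, hk0⟩
        · intro q hq q' hq' h
          rw [mem_coe, hS, mem_filter] at hq hq'
          simp only at h
          have h3 : q.1 * q.2 = q.1 * q'.2 := by rw [hq.2, h, hq'.2]
          have h4 : 0 < q.1 := Nat.pos_of_ne_zero (by
            intro h5
            rw [h5, zero_mul] at hq
            exact hk0 hq.2.symm)
          exact Prod.ext h (Nat.eq_of_mul_eq_mul_left h4 h3)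
      exact_mod_cast h2
    calc ‖∑ q ∈ S, y q.1 * (starRingEnd ℂ) (v q.2)‖ ^ 2
        ≤ (∑ q ∈ S, 1 * (‖y q.1‖ * ‖v q.2‖)) ^ 2 := by
          gcongr
          refine (norm_sum_le _ _).trans (le_of_eq ?_)
          apply sum_congr rfl; intro q _
          rw [norm_mul, RCLike.norm_conj, one_mul]
      _ ≤ (∑ q ∈ S, (1 : ℝ) ^ 2) * ∑ q ∈ S, (‖y q.1‖ * ‖v q.2‖) ^ 2 :=
          sum_mul_sq_le_sq_mul_sq _ _ _
      _ = S.card * ∑ q ∈ S, ‖y q.1‖ ^ 2 * ‖v q.2‖ ^ 2 := by
          rw [one_pow, sum_const, nsmul_eq_mul, mul_one]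
          congr 1
          apply sum_congr rfl; intro q _
          rw [mul_pow]
      _ ≤ _ := by gcongr
  refine (sum_le_sum h1).trans ?_
  rw [← mul_sum]
  apply mul_le_mul_of_nonneg_left _ hτ0
  have hmaps : ∀ q ∈ range N ×ˢ range J, q.1 * q.2 ∈ range (N * J) := by
    intro q hq
    rw [mem_product, mem_range, mem_range] at hq
    rw [mem_range]
    exact Nat.mul_lt_mul_of_lt_of_le hq.1 hq.2.le (by omega)
  rw [sum_fiberwise_of_maps_to hmaps (fun q : ℕ × ℕ => ‖y q.1‖ ^ 2 * ‖v q.2‖ ^ 2), sum_product,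
    sum_mul_sum]

end Pool.Agent.Lib.MP_2a816b_nt
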