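import Mathlib

/-!
# Primes in short intervals: the objects of problem MP_2a816b_nt
-/

namespace Pool.Agent.Lib.MP_2a816b_nt

/-- `ψ(x;H) = ∑ Λ(n)` over the integers `n ≥ 1` with `x - H/2 ≤ n ≤ x + H/2`. -/
noncomputable def psiWindow (x H : ℝ) : ℝ :=
  ∑ n ∈ (Finset.Icc 1 ⌊x + H / 2⌋₊).filter (fun n : ℕ => x - H / 2 ≤ (n : ℝ)),
    ArithmeticFunction.vonMangoldt n

/-- The mean square `(1/X) ∫_1^X |ψ(x;H) - H|² dx`. -/
noncomputable def meanSquare (X H : ℝ) : ℝ :=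
  (1 / X) * ∫ x in (1 : ℝ)..X, |psiWindow x H - H| ^ 2

end Pool.Agent.Lib.MP_2a816b_nt
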