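import Mathlib
import Pool.Agent.Lib.MP_2a816b_nt.Ramanujan
import Pool.Agent.Lib.MP_2a816b_nt.LargeSieve

/-!
# The large sieve at the fractions `b/r + a/l`
-/

open Finset Real

namespace Pool.Agent.Lib.MP_2a816b_nt

/-- distinct fractions `b/r + a/l` are distinct modulo one -/
lemma frac_ne (R0 r r' l l' a a' b b' : ℕ) (hr : 0 < r) (hr' : 0 < r') (hrR : r ≤ R0)
    (hrR' : r' ≤ R0) (hl : l.Prime) (hl' : l'.Prime) (hlR : R0 < l) (hlR' : R0 < l')
    (ha : a ∈ Ico 1 l) (ha' : a' ∈ Ico 1 l') (hb : b ∈ Cop r) (hb' : b' ∈ Cop r') (m : ℤ)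
    (hz : ((b : ℤ) * l + a * r) * (r' * l') - ((b' : ℤ) * l' + a' * r') * (r * l) -
      m * (r * l * (r' * l')) = 0) : r = r' ∧ l = l' ∧ b = b' ∧ a = a' := by
  rw [mem_Ico] at ha ha'
  unfold Cop at hb hb'
  rw [mem_filter, mem_range] at hb hb'
  have hndvd : ∀ (p t : ℕ), p.Prime → 0 < t → t < p → ¬ p ∣ t := fun p t _ h0 h1 h => by
    have := Nat.le_of_dvd h0 h
    omega
  have hll : l = l' := by
    by_contra hne
    -- l divides a * r * r' * l'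
    have h1 : (l : ℤ) ∣ (a : ℤ) * r * (r' * l') := by
      refine ⟨-(b * (r' * l')) + (b' * l' + a' * r') * r + m * (r * (r' * l')), ?_⟩
      linear_combination hz
    have h2 : l ∣ a * r * (r' * l') := by exact_mod_cast h1
    rw [hl.dvd_mul, hl.dvd_mul, hl.dvd_mul] at h2
    rcases h2 with (h | h) | (h | h)
    · exact hndvd l a hl (by omega) ha.2 h
    · exact hndvd l r hl hr (by omega) h
    · exact hndvd l r' hl hr' (by omega) h
    · exact hne ((Nat.prime_dvd_prime_iff_eq hl hl').1 h)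
  subst hll
  have hl0 : (l : ℤ) ≠ 0 := by exact_mod_cast hl.pos.ne'
  have hz2 : (l : ℤ) * (((b : ℤ) * l + a * r) * r' - ((b' : ℤ) * l + a' * r') * r -
      m * (r * (r' * l))) = 0 := by linear_combination hz
  have hz3 : ((b : ℤ) * l + a * r) * r' - ((b' : ℤ) * l + a' * r') * r - m * (r * (r' * l)) = 0 := by
    rcases mul_eq_zero.1 hz2 with h | h
    · exact absurd h hl0
    · exact h
  have haa : a = a' := by
    have h1 : (l : ℤ) ∣ ((a : ℤ) - a') * (r * r') := by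
      refine ⟨-(b * r') + b' * r + m * (r * r'), ?_⟩
      linear_combination hz3
    have hprime : Prime (l : ℤ) := Nat.prime_iff_prime_int.1 hl
    rcases hprime.dvd_or_dvd h1 with h | h
    · obtain ⟨c, hc⟩ := h
      have hlpos : (0 : ℤ) < l := by exact_mod_cast hl.pos
      have hc0 : c = 0 := by
        by_contra hc0
        have h6 : (l : ℤ) ≤ |(l : ℤ) * c| := by
          rw [abs_mul, abs_of_pos hlpos]
          have : 1 ≤ |c| := Int.one_le_abs hc0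
          nlinarith
        rw [← hc] at h6
        have h7 : |(a : ℤ) - a'| < l := by
          rw [abs_lt]
          constructor <;> omega
        omega
      rw [hc0, mul_zero] at hc
      omega
    · exfalso
      have h2 : l ∣ r * r' := by exact_mod_cast h
      rcases hl.dvd_mul.1 h2 with h3 | h3
      · exact hndvd l r hl hr (by omega) h3
      · exact hndvd l r' hl hr' (by omega) h3
  subst haa
  have hz4 : (l : ℤ) * ((b : ℤ) * r' - b' * r - m * (r * r')) = 0 := by linear_combination hz3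
  have hz5 : (b : ℤ) * r' - b' * r - m * (r * r') = 0 := by
    rcases mul_eq_zero.1 hz4 with h | h
    · exact absurd h hl0
    · exact h
  have hrr : r = r' := by
    apply Nat.dvd_antisymm
    · have h1 : (r : ℤ) ∣ (b : ℤ) * r' := by
        refine ⟨b' + m * r', ?_⟩
        linear_combination hz5
      have h2 : r ∣ b * r' := by exact_mod_cast h1
      exact (Nat.Coprime.symm hb.2).dvd_of_dvd_mul_left h2
    · have h1 : (r' : ℤ) ∣ (b' : ℤ) * r := by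
        refine ⟨b - m * r, ?_⟩
        linear_combination -hz5
      have h2 : r' ∣ b' * r := by exact_mod_cast h1
      exact (Nat.Coprime.symm hb'.2).dvd_of_dvd_mul_left h2
  subst hrr
  refine ⟨rfl, rfl, ?_, rfl⟩
  have hrpos : (0 : ℤ) < r := by exact_mod_cast hr
  have hz6 : (b : ℤ) - b' = m * r := by
    have h1 : (r : ℤ) * ((b : ℤ) - b' - m * r) = 0 := by linear_combination hz5
    rcases mul_eq_zero.1 h1 with h | h
    · exact absurd h hrpos.ne'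
    · linear_combination h
  have hm0 : m = 0 := by
    by_contra hc0
    have h6 : (r : ℤ) ≤ |m * r| := by
      rw [abs_mul, abs_of_pos hrpos]
      have : 1 ≤ |m| := Int.one_le_abs hc0
      nlinarith
    rw [← hz6] at h6
    have h7 : |(b : ℤ) - b'| < r := by
      rw [abs_lt]
      constructor <;> omega
    omega
  rw [hm0, zero_mul] at hz6
  omega

lemma frac_sieve (R : Finset ℕ) (G : ℕ → Finset ℕ) (R0 Q : ℕ) (hR : ∀ r ∈ R, 0 < r ∧ r ≤ R0)
    (hG : ∀ r ∈ R, ∀ l ∈ G r, l.Prime ∧ R0 < l ∧ l ≤ Q) (M : ℕ) (x : ℕ → ℂ) :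
    ∑ r ∈ R, ∑ l ∈ G r, ∑ b ∈ Cop r, ∑ a ∈ Ico 1 l,
      ‖∑ n ∈ range M, x n * e (n * ((b : ℝ) / r + (a : ℝ) / l))‖ ^ 2 ≤
      9 * (M + ((R0 : ℝ) * Q) ^ 2) * ∑ n ∈ range M, ‖x n‖ ^ 2 := by
  classical
  set F : ℕ → ℕ → ℕ → ℕ → ℝ := fun r l b a =>
    ‖∑ n ∈ range M, x n * e (n * ((b : ℝ) / r + (a : ℝ) / l))‖ ^ 2 with hF
  set T : Finset (Σ _ : ℕ, Σ _ : ℕ, ℕ × ℕ) :=
    R.sigma (fun r => (G r).sigma (fun l => Cop r ×ˢ Ico 1 l)) with hT
  have h1 : ∑ r ∈ R, ∑ l ∈ G r, ∑ b ∈ Cop r, ∑ a ∈ Ico 1 l, F r l b a =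
      ∑ p ∈ T, F p.1 p.2.1 p.2.2.1 p.2.2.2 := by
    rw [hT, sum_sigma]
    apply sum_congr rfl; intro r _
    rw [sum_sigma]
    apply sum_congr rfl; intro l _
    rw [sum_product]
  change ∑ r ∈ R, ∑ l ∈ G r, ∑ b ∈ Cop r, ∑ a ∈ Ico 1 l, F r l b a ≤ _
  rw [h1]
  rcases T.eq_empty_or_nonempty with h0 | ⟨p0, hp0⟩
  · rw [h0, sum_empty]
    positivity
  have hmem : ∀ p ∈ T, (0 < p.1 ∧ p.1 ≤ R0) ∧ (p.2.1.Prime ∧ R0 < p.2.1 ∧ p.2.1 ≤ Q) ∧
      p.2.2.1 ∈ Cop p.1 ∧ p.2.2.2 ∈ Ico 1 p.2.1 := by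
    rintro ⟨r, l, b, a⟩ hp
    simp only [hT, mem_sigma, mem_product] at hp
    exact ⟨hR r hp.1, hG r hp.1 l hp.2.1, hp.2.2.1, hp.2.2.2⟩
  have hR1 : (1 : ℝ) ≤ R0 := by
    have := (hmem p0 hp0).1
    exact_mod_cast (by omega : 1 ≤ R0)
  have hQ1 : (1 : ℝ) ≤ Q := by
    have := (hmem p0 hp0).2.1
    exact_mod_cast (by omega : 1 ≤ Q)
  have hRQ : (1 : ℝ) ≤ (R0 : ℝ) * Q := by nlinarith
  have hsep : Sep T (fun p : (Σ _ : ℕ, Σ _ : ℕ, ℕ × ℕ) =>
      (p.2.2.1 : ℝ) / p.1 + (p.2.2.2 : ℝ) / p.2.1) (1 / ((R0 : ℝ) * Q) ^ 2) := by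
    rintro ⟨r, l, b, a⟩ hi ⟨r', l', b', a'⟩ hj hne m
    obtain ⟨⟨hr, hrR⟩, ⟨hl, hlR, hlQ⟩, hb, ha⟩ := hmem _ hi
    obtain ⟨⟨hr', hrR'⟩, ⟨hl', hlR', hlQ'⟩, hb', ha'⟩ := hmem _ hj
    simp only at *
    have hrp : (0 : ℝ) < r := by exact_mod_cast hr
    have hrp' : (0 : ℝ) < r' := by exact_mod_cast hr'
    have hlp : (0 : ℝ) < l := by exact_mod_cast hl.pos
    have hlp' : (0 : ℝ) < l' := by exact_mod_cast hl'.pos
    set z : ℤ := ((b : ℤ) * l + a * r) * (r' * l') - ((b' : ℤ) * l' + a' * r') * (r * l) -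
      m * (r * l * (r' * l')) with hz
    have hz0 : z ≠ 0 := by
      intro h
      obtain ⟨e1, e2, e3, e4⟩ := frac_ne R0 r r' l l' a a' b b' hr hr' hrR hrR' hl hl' hlR hlR'
        ha ha' hb hb' m h
      apply hne
      subst e1 e2 e3 e4
      rfl
    have h1 : (1 : ℝ) ≤ |(z : ℝ)| := by
      have : 1 ≤ |z| := Int.one_le_abs hz0
      exact_mod_cast this
    have h2 : ((b : ℝ) / r + (a : ℝ) / l) - ((b' : ℝ) / r' + (a' : ℝ) / l') - m =
        z / ((r * l) * (r' * l')) := by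
      rw [hz]; push_cast; field_simp
    rw [h2, abs_div, abs_of_pos (by positivity : (0 : ℝ) < (r * l) * (r' * l'))]
    have hle : ((r : ℝ) * l) * (r' * l') ≤ ((R0 : ℝ) * Q) ^ 2 := by
      have a1 : (l : ℝ) ≤ Q := by exact_mod_cast hlQ
      have a2 : (l' : ℝ) ≤ Q := by exact_mod_cast hlQ'
      have a3 : (r : ℝ) ≤ R0 := by exact_mod_cast hrR
      have a4 : (r' : ℝ) ≤ R0 := by exact_mod_cast hrR'
      rw [sq]
      gcongr
    calc 1 / ((R0 : ℝ) * Q) ^ 2 ≤ 1 / (((r : ℝ) * l) * (r' * l')) :=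
          one_div_le_one_div_of_le (by positivity) hle
      _ ≤ |(z : ℝ)| / (((r : ℝ) * l) * (r' * l')) := by gcongr
  have h := large_sieve T (fun p : (Σ _ : ℕ, Σ _ : ℕ, ℕ × ℕ) =>
      (p.2.2.1 : ℝ) / p.1 + (p.2.2.2 : ℝ) / p.2.1) (1 / ((R0 : ℝ) * Q) ^ 2) (by positivity)
    (by rw [div_le_one (by positivity)]; nlinarith) hsep M x
  have e1 : 1 / (1 / ((R0 : ℝ) * Q) ^ 2) = ((R0 : ℝ) * Q) ^ 2 := by
    rw [one_div_one_div]
  rw [e1] at h
  exact h

end Pool.Agent.Lib.MP_2a816b_nt
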