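import Mathlib
import Pool.Agent.Lib.MP_2a816b_nt.Window
import Pool.Agent.Lib.MP_2a816b_nt.Ramanujan

/-!
# Local lower bounds
-/

open Finset Real

namespace Pool.Agent.Lib.MP_2a816b_nt

/-- relation between the error functional and the exponential sums -/
lemma Sp_good (l : ℕ) (hl : l.Prime) (a r b N : ℕ) :
    ‖Sp N (b / r + a / l) + Sp N (b / r) / ((l : ℂ) - 1)‖ ≤
      ‖tw N (kq l a r b) vM‖ + 2 * Real.log N := by
  have hfact : Fact l.Prime := ⟨hl⟩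
  have h1 : Sp N (b / r + a / l) + Sp N (b / r) / ((l : ℂ) - 1) =
      tw N (kq l a r b) vM + ∑ n ∈ (Ioc 0 N).filter (fun n => l ∣ n),
        (vM n : ℂ) * ((e (a * n / l) + 1 / ((l : ℂ) - 1)) * e ((n * b : ℕ) / r)) := by
    unfold Sp tw
    rw [sum_filter, sum_div, ← sum_add_distrib, ← sum_add_distrib]
    apply sum_congr rfl; intro n _
    have e1 : e (n * (b / r + a / l)) = e (a * n / l) * e ((n * b : ℕ) / r) := by
      rw [← e_add]; congr 1; push_cast; ring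
    have e2 : e (n * (b / r)) = e ((n * b : ℕ) / r) := by
      congr 1; push_cast; ring
    unfold kq kapN
    rw [e1, e2]
    split_ifs
    · ring
    · ring
  rw [h1]
  refine (norm_add_le _ _).trans ?_
  gcongr
  calc _ ≤ ∑ n ∈ (Ioc 0 N).filter (fun n => l ∣ n),
        ‖(vM n : ℂ) * ((e (a * n / l) + 1 / ((l : ℂ) - 1)) * e ((n * b : ℕ) / r))‖ :=
        norm_sum_le _ _
    _ ≤ ∑ n ∈ (Ioc 0 N).filter (fun n => l ∣ n), 2 * vM n := by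
        apply sum_le_sum; intro n _
        rw [norm_mul, norm_mul, norm_e, mul_one, Complex.norm_real, norm_eq_abs,
          abs_of_nonneg (vM_nonneg n), mul_comm]
        have h3 : ‖(1 : ℂ) / ((l : ℂ) - 1)‖ ≤ 1 := by
          have h4 : ((l : ℂ) - 1) = ((l - 1 : ℝ) : ℂ) := by push_cast; ring
          have h2 : (2 : ℝ) ≤ l := by exact_mod_cast hl.two_le
          rw [norm_div, h4, Complex.norm_real, norm_one, norm_eq_abs, abs_of_pos (by linarith),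
            div_le_one (by linarith)]
          linarith
        have h5 : ‖e (a * n / l) + 1 / ((l : ℂ) - 1)‖ ≤ 2 := by
          refine (norm_add_le _ _).trans ?_
          rw [norm_e]
          linarith
        have := vM_nonneg n
        gcongr
    _ = 2 * ∑ n ∈ (Ioc 0 N).filter (fun n => l ∣ n), vM n := by rw [mul_sum]
    _ ≤ 2 * Real.log N := by
        gcongr
        exact sum_vM_dvd l N hl

/-- Cauchy-Schwarz with Ramanujan sums -/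
lemma sum_Sp_sq (r N : ℕ) (hr : 0 < r) (hsq : Squarefree r)
    (hpos : 0 ≤ ∑ n ∈ Ioc 0 N, vM n - 2 * (r : ℝ) ^ 2 * Real.log N) :
    (∑ n ∈ Ioc 0 N, vM n - 2 * (r : ℝ) ^ 2 * Real.log N) ^ 2 / r.totient ≤
      ∑ b ∈ Cop r, ‖Sp N (b / r)‖ ^ 2 := by
  have hφ : (0 : ℝ) < r.totient := by exact_mod_cast Nat.totient_pos.2 hr
  have hr1 : (1 : ℝ) ≤ r := by exact_mod_cast hr
  have hlog : 0 ≤ Real.log N := Real.log_natCast_nonneg N
  have h1 : ∑ b ∈ Cop r, Sp N (b / r) = ∑ n ∈ Ioc 0 N, (vM n : ℂ) * cR r n := by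
    unfold Sp cR
    rw [sum_comm]
    apply sum_congr rfl; intro n _
    rw [mul_sum]
  set m : ℂ := ((ArithmeticFunction.moebius r : ℤ) : ℂ) with hm
  have h2 : ∑ n ∈ Ioc 0 N, (vM n : ℂ) * cR r n = m * ((∑ n ∈ Ioc 0 N, vM n : ℝ) : ℂ) +
      ∑ n ∈ (Ioc 0 N).filter (fun n => ¬ n.Coprime r), (vM n : ℂ) * (cR r n - m) := by
    push_cast
    rw [sum_filter, mul_sum, ← sum_add_distrib]
    apply sum_congr rfl; intro n _
    by_cases hc : n.Coprime r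
    · rw [if_neg (by simpa using hc), (cR_norm_one r n hr hsq hc).1, add_zero, mul_comm]
    · rw [if_pos hc]; ring
  have hm1 : ‖m‖ = 1 := (cR_norm_one r 1 hr hsq (Nat.coprime_one_left r)).2
  have h3 : ‖∑ n ∈ (Ioc 0 N).filter (fun n => ¬ n.Coprime r), (vM n : ℂ) * (cR r n - m)‖ ≤
      2 * (r : ℝ) ^ 2 * Real.log N := by
    calc _ ≤ ∑ n ∈ (Ioc 0 N).filter (fun n => ¬ n.Coprime r), ‖(vM n : ℂ) * (cR r n - m)‖ :=
          norm_sum_le _ _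
      _ ≤ ∑ n ∈ (Ioc 0 N).filter (fun n => ¬ n.Coprime r), (2 * r) * vM n := by
          apply sum_le_sum; intro n _
          rw [norm_mul, Complex.norm_real, norm_eq_abs, abs_of_nonneg (vM_nonneg n), mul_comm]
          have h4 : ‖cR r n - m‖ ≤ 2 * r := by
            refine (norm_sub_le _ _).trans ?_
            rw [hm1]
            have := cR_norm_le r n
            linarith
          have := vM_nonneg n
          gcongr
      _ = (2 * r) * ∑ n ∈ (Ioc 0 N).filter (fun n => ¬ n.Coprime r), vM n := by rw [mul_sum]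
      _ ≤ (2 * r) * (r * Real.log N) := by
          gcongr
          exact sum_vM_ncop r N hr
      _ = _ := by ring
  have hψ0 : 0 ≤ ∑ n ∈ Ioc 0 N, vM n := sum_nonneg (fun n _ => vM_nonneg n)
  have h5 : ∑ n ∈ Ioc 0 N, vM n - 2 * (r : ℝ) ^ 2 * Real.log N ≤ ‖∑ b ∈ Cop r, Sp N (b / r)‖ := by
    rw [h1, h2]
    have h6 : ‖m * ((∑ n ∈ Ioc 0 N, vM n : ℝ) : ℂ)‖ = ∑ n ∈ Ioc 0 N, vM n := by
      rw [norm_mul, hm1, one_mul, Complex.norm_real, norm_eq_abs, abs_of_nonneg hψ0]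
    have h7 := norm_sub_norm_le (m * ((∑ n ∈ Ioc 0 N, vM n : ℝ) : ℂ))
      (-(∑ n ∈ (Ioc 0 N).filter (fun n => ¬ n.Coprime r), (vM n : ℂ) * (cR r n - m)))
    rw [norm_neg, sub_neg_eq_add, h6] at h7
    linarith
  have h8 : ‖∑ b ∈ Cop r, Sp N (b / r)‖ ^ 2 ≤ r.totient * ∑ b ∈ Cop r, ‖Sp N (b / r)‖ ^ 2 := by
    calc ‖∑ b ∈ Cop r, Sp N (b / r)‖ ^ 2 ≤ (∑ b ∈ Cop r, 1 * ‖Sp N (b / r)‖) ^ 2 := by
          gcongr
          simp only [one_mul]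
          exact norm_sum_le _ _
      _ ≤ (∑ b ∈ Cop r, (1 : ℝ) ^ 2) * ∑ b ∈ Cop r, ‖Sp N (b / r)‖ ^ 2 := sum_mul_sq_le_sq_mul_sq _ _ _
      _ = _ := by rw [one_pow, sum_const, card_Cop, nsmul_eq_mul, mul_one]
  rw [div_le_iff₀ hφ]
  calc (∑ n ∈ Ioc 0 N, vM n - 2 * (r : ℝ) ^ 2 * Real.log N) ^ 2
      ≤ ‖∑ b ∈ Cop r, Sp N (b / r)‖ ^ 2 := by gcongr
    _ ≤ _ := by rw [mul_comm]; exact h8

/-- distance of a fraction to the integers -/
lemma D_frac_le (M r l a b : ℕ) (hl : l.Prime) (ha : a ∈ Ico 1 l) (hr : 0 < r) (hlr : ¬ l ∣ r) :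
    ‖D M ((b : ℝ) / r + (a : ℝ) / l)‖ ≤ r * l := by
  rw [mem_Ico] at ha
  have hr' : (0 : ℝ) < r := by exact_mod_cast hr
  have hl' : (0 : ℝ) < l := by exact_mod_cast hl.pos
  set α : ℝ := (b : ℝ) / r + (a : ℝ) / l with hα
  have h1 : 1 / ((r : ℝ) * l) ≤ nn α := by
    unfold nn
    set z : ℤ := (b : ℤ) * l + a * r - round α * (r * l) with hz
    have hz0 : z ≠ 0 := by
      intro h
      have h2 : (l : ℤ) ∣ (a : ℤ) * r := by
        refine ⟨round α * r - b, ?_⟩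
        rw [hz] at h
        linear_combination h
      have h3 : l ∣ a * r := by exact_mod_cast h2
      rcases (Nat.Prime.dvd_mul hl).1 h3 with h4 | h4
      · have := Nat.le_of_dvd (by omega) h4
        omega
      · exact hlr h4
    have h2 : (1 : ℝ) ≤ |(z : ℝ)| := by
      have : 1 ≤ |z| := Int.one_le_abs hz0
      exact_mod_cast this
    have h3 : α - round α = z / (r * l) := by
      rw [hz, hα]; push_cast; field_simp
    rw [h3, abs_div, abs_of_pos (by positivity : (0 : ℝ) < r * l)]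
    gcongr
  have h2 := norm_D_mul_nn M α
  have h4 : ‖D M α‖ * (2 * (1 / ((r : ℝ) * l))) ≤ 1 := by
    refine le_trans ?_ h2
    gcongr
  have h5 : ‖D M α‖ * (2 * (1 / ((r : ℝ) * l))) = 2 * ‖D M α‖ / (r * l) := by ring
  rw [h5, div_le_one (by positivity)] at h4
  have := norm_nonneg (D M α)
  linarith

set_option maxHeartbeats 4000000 in
/-- the local lower bound for one pair `(r, l)` -/
lemma local_lower (h : ℕ) (H : ℝ) (hH : 0 ≤ H) (s M r l : ℕ) (Lg : ℝ)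
    (hLg : ∀ n, n ≤ s + M + h → Real.log n ≤ Lg) (hh1 : 1 ≤ h) (hl : l.Prime) (h2 : 2 * h ≤ l)
    (hr : 0 < r) (hsq : Squarefree r) (hlr : ¬ l ∣ r)
    (hψ : (↑(s + M) : ℝ) / 2 ≤ ∑ n ∈ Ioc 0 (s + M), vM n - 2 * (r : ℝ) ^ 2 * Real.log ↑(s + M))
    (hgood : ∀ b ∈ Cop r, ∀ a ∈ Ico 1 l, ‖Sp (s + M) (b / r + a / l) +
      Sp (s + M) (b / r) / ((l : ℂ) - 1)‖ ≤ (↑(s + M) : ℝ) / (8 * (l * r)))
    (hErr : h * ((s + 2 * h) * Lg) + H * (r * l) ≤ √h * (↑(s + M) : ℝ) / (12 * (l * r))) :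
    (h : ℝ) * (↑(s + M) : ℝ) ^ 2 / (64 * (l * r.totient)) ≤
      ∑ b ∈ Cop r, ∑ a ∈ Ico 1 l, ‖Fw h H s M (b / r + a / l)‖ ^ 2 := by
  set N : ℕ := s + M with hN
  have hl' : (0 : ℝ) < l := by exact_mod_cast hl.pos
  have hl2 : (2 : ℝ) ≤ l := by exact_mod_cast hl.two_le
  have hr' : (0 : ℝ) < r := by exact_mod_cast hr
  have hφ : (0 : ℝ) < r.totient := by exact_mod_cast Nat.totient_pos.2 hr
  have hφr : (r.totient : ℝ) ≤ r := by exact_mod_cast Nat.totient_le r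
  have hh0 : (0 : ℝ) < h := by exact_mod_cast hh1
  set Er : ℝ := h * ((s + 2 * h) * Lg) + H * (r * l) with hEr
  have hLg0 : 0 ≤ Lg := by
    have := hLg 0 (Nat.zero_le _)
    simpa using this
  have hEr0 : 0 ≤ Er := by positivity
  set el : ℝ := (N : ℝ) / (8 * (l * r)) with hel
  have hel0 : 0 ≤ el := by positivity
  -- pointwise
  have hpt : ∀ b ∈ Cop r, ∀ a ∈ Ico 1 l, ‖D h (b / r + a / l)‖ ^ 2 *
      (‖Sp N (b / r)‖ ^ 2 / (4 * l ^ 2) - el ^ 2 / 2) - Er ^ 2 ≤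
      ‖Fw h H s M (b / r + a / l)‖ ^ 2 := by
    intro b hb a ha
    set α : ℝ := (b : ℝ) / r + (a : ℝ) / l with hα
    have e1 := Fw_approx h H hH s M α Lg hLg
    have e2 : ‖D M α‖ ≤ r * l := D_frac_le M r l a b hl ha hr hlr
    have e3 : ‖Fw h H s M α - e (-((s + 1 : ℕ) * α)) * D h (-α) * Sp (s + M) α‖ ≤ Er := by
      refine e1.trans ?_
      rw [hEr]
      gcongr
    have e4 : ‖D h α‖ * ‖Sp N α‖ ≤ ‖Fw h H s M α‖ + Er := by
      have e5 : ‖e (-((s + 1 : ℕ) * α)) * D h (-α) * Sp (s + M) α‖ = ‖D h α‖ * ‖Sp N α‖ := by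
        rw [norm_mul, norm_mul, norm_e, one_mul, norm_D_neg]
      have e6 := norm_sub_norm_le (e (-((s + 1 : ℕ) * α)) * D h (-α) * Sp (s + M) α) (Fw h H s M α)
      rw [norm_sub_rev, e5] at e6
      linarith
    have e7 : ‖D h α‖ ^ 2 * ‖Sp N α‖ ^ 2 ≤ 2 * ‖Fw h H s M α‖ ^ 2 + 2 * Er ^ 2 := by
      have a1 : (‖D h α‖ * ‖Sp N α‖) ^ 2 ≤ (‖Fw h H s M α‖ + Er) ^ 2 := by
        gcongr
      nlinarith [sq_nonneg (‖Fw h H s M α‖ - Er)]
    have e8 : ‖Sp N (b / r)‖ / l ≤ ‖Sp N α‖ + el := by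
      have b1 := hgood b hb a ha
      have b2 := norm_sub_norm_le (Sp N (b / r) / ((l : ℂ) - 1)) (-(Sp N α))
      rw [norm_neg, sub_neg_eq_add, add_comm (Sp N (b / r) / ((l : ℂ) - 1))] at b2
      have b3 : ‖Sp N (b / r) / ((l : ℂ) - 1)‖ = ‖Sp N (b / r)‖ / ((l : ℝ) - 1) := by
        have h4 : ((l : ℂ) - 1) = ((l - 1 : ℝ) : ℂ) := by push_cast; ring
        rw [norm_div, h4, Complex.norm_real, norm_eq_abs, abs_of_pos (by linarith)]
      rw [b3] at b2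
      have b4 : ‖Sp N (b / r)‖ / l ≤ ‖Sp N (b / r)‖ / ((l : ℝ) - 1) := by
        apply div_le_div_of_nonneg_left (norm_nonneg _) (by linarith) (by linarith)
      linarith
    have e9 : ‖Sp N (b / r)‖ ^ 2 / l ^ 2 ≤ 2 * ‖Sp N α‖ ^ 2 + 2 * el ^ 2 := by
      have a1 : (‖Sp N (b / r)‖ / l) ^ 2 ≤ (‖Sp N α‖ + el) ^ 2 := by
        gcongr
      rw [div_pow] at a1
      nlinarith [sq_nonneg (‖Sp N α‖ - el)]
    have e10 : ‖D h α‖ ^ 2 * (‖Sp N (b / r)‖ ^ 2 / (4 * l ^ 2) - el ^ 2 / 2) ≤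
        ‖D h α‖ ^ 2 * (‖Sp N α‖ ^ 2 / 2) := by
      apply mul_le_mul_of_nonneg_left _ (by positivity)
      have : ‖Sp N (b / r)‖ ^ 2 / (4 * l ^ 2) = (‖Sp N (b / r)‖ ^ 2 / l ^ 2) / 4 := by ring
      rw [this]
      linarith
    have e11 : ‖D h α‖ ^ 2 * (‖Sp N α‖ ^ 2 / 2) = (‖D h α‖ ^ 2 * ‖Sp N α‖ ^ 2) / 2 := by ring
    rw [e11] at e10
    linarith
  -- Parseval
  have hD : ∀ b : ℕ, (l : ℝ) * h / 2 ≤ ∑ a ∈ Ico 1 l, ‖D h (b / r + a / l)‖ ^ 2 ∧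
      ∑ a ∈ Ico 1 l, ‖D h (b / r + a / l)‖ ^ 2 ≤ l * h := by
    intro b
    have c1 := sum_D_sq l h hl.pos (by omega) (b / r)
    have c2 : ∑ a ∈ range l, ‖D h ((b : ℝ) / r + a / l)‖ ^ 2 =
        ‖D h ((b : ℝ) / r)‖ ^ 2 + ∑ a ∈ Ico 1 l, ‖D h ((b : ℝ) / r + a / l)‖ ^ 2 := by
      rw [range_eq_Ico, sum_eq_sum_Ico_succ_bot hl.pos]
      simp
    have c3 : ‖D h ((b : ℝ) / r)‖ ^ 2 ≤ h ^ 2 := by
      gcongr; exact norm_D_le _ _
    have c4 : (2 : ℝ) * h ≤ l := by exact_mod_cast h2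
    constructor
    · nlinarith
    · have : 0 ≤ ‖D h ((b : ℝ) / r)‖ ^ 2 := by positivity
      linarith
  have hinner : ∀ b ∈ Cop r, (h : ℝ) / (8 * l) * ‖Sp N (b / r)‖ ^ 2 - l * h * el ^ 2 / 2 - l * Er ^ 2 ≤
      ∑ a ∈ Ico 1 l, ‖Fw h H s M (b / r + a / l)‖ ^ 2 := by
    intro b hb
    have d1 : ∑ a ∈ Ico 1 l, (‖D h ((b : ℝ) / r + a / l)‖ ^ 2 *
      (‖Sp N (b / r)‖ ^ 2 / (4 * l ^ 2) - el ^ 2 / 2) - Er ^ 2) ≤
      ∑ a ∈ Ico 1 l, ‖Fw h H s M (b / r + a / l)‖ ^ 2 :=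
      sum_le_sum (fun a ha => hpt b hb a ha)
    refine le_trans ?_ d1
    rw [sum_sub_distrib, ← sum_mul, sum_const, Nat.card_Ico, nsmul_eq_mul]
    obtain ⟨d2, d3⟩ := hD b
    set W := ∑ a ∈ Ico 1 l, ‖D h ((b : ℝ) / r + a / l)‖ ^ 2 with hW
    have d4 : ((l - 1 : ℕ) : ℝ) ≤ l := by exact_mod_cast Nat.sub_le l 1
    have d5 : ((l - 1 : ℕ) : ℝ) * Er ^ 2 ≤ l * Er ^ 2 := by gcongr
    have d6 : (h : ℝ) / (8 * l) * ‖Sp N (b / r)‖ ^ 2 ≤ W * (‖Sp N (b / r)‖ ^ 2 / (4 * l ^ 2)) := by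
      calc (h : ℝ) / (8 * l) * ‖Sp N (b / r)‖ ^ 2 = (l * h / 2) * (‖Sp N (b / r)‖ ^ 2 / (4 * l ^ 2)) := by
            field_simp; ring
        _ ≤ _ := by gcongr
    have d7 : W * (el ^ 2 / 2) ≤ l * h * (el ^ 2 / 2) := by gcongr
    have d8 : W * (‖Sp N (b / r)‖ ^ 2 / (4 * l ^ 2) - el ^ 2 / 2) =
        W * (‖Sp N (b / r)‖ ^ 2 / (4 * l ^ 2)) - W * (el ^ 2 / 2) := by ring
    rw [d8]
    linarith
  have hsum := sum_le_sum hinner
  refine le_trans ?_ hsum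
  rw [sum_sub_distrib, sum_sub_distrib, ← mul_sum, sum_const, sum_const, card_Cop, nsmul_eq_mul,
    nsmul_eq_mul]
  have hpos : 0 ≤ ∑ n ∈ Ioc 0 N, vM n - 2 * (r : ℝ) ^ 2 * Real.log N :=
    le_trans (by positivity) hψ
  have f1 := sum_Sp_sq r N hr hsq hpos
  have f2 : (N : ℝ) ^ 2 / (4 * r.totient) ≤ ∑ b ∈ Cop r, ‖Sp N (b / r)‖ ^ 2 := by
    refine le_trans ?_ f1
    rw [div_le_div_iff₀ (by positivity) hφ]
    have : ((N : ℝ) / 2) ^ 2 ≤ (∑ n ∈ Ioc 0 N, vM n - 2 * (r : ℝ) ^ 2 * Real.log N) ^ 2 := by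
      gcongr
    nlinarith
  have f3 : (h : ℝ) / (8 * l) * ((N : ℝ) ^ 2 / (4 * r.totient)) ≤
      (h : ℝ) / (8 * l) * ∑ b ∈ Cop r, ‖Sp N (b / r)‖ ^ 2 := by gcongr
  have f4 : (r.totient : ℝ) * (l * h * el ^ 2 / 2) ≤ h * N ^ 2 / (128 * (l * r.totient)) := by
    have g1 : (r.totient : ℝ) * (l * h * el ^ 2 / 2) = (h * N ^ 2 / (128 * l)) * (r.totient / r ^ 2) := by
      rw [hel]; field_simp; ring
    have g2 : h * (N : ℝ) ^ 2 / (128 * (l * r.totient)) = (h * N ^ 2 / (128 * l)) * (1 / r.totient) := by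
      field_simp
    rw [g1, g2]
    apply mul_le_mul_of_nonneg_left _ (by positivity)
    rw [div_le_div_iff₀ (by positivity) hφ]
    nlinarith
  have f5 : (r.totient : ℝ) * (l * Er ^ 2) ≤ h * N ^ 2 / (144 * (l * r.totient)) := by
    have g0 : Er ^ 2 ≤ (√h * (N : ℝ) / (12 * (l * r))) ^ 2 := by gcongr
    have g3 : (√h * (N : ℝ) / (12 * (l * r))) ^ 2 = h * N ^ 2 / (144 * (l ^ 2 * r ^ 2)) := by
      rw [div_pow, mul_pow, sq_sqrt hh0.le]; ring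
    rw [g3] at g0
    have g1 : (r.totient : ℝ) * (l * Er ^ 2) ≤ (h * N ^ 2 / (144 * l)) * (r.totient / r ^ 2) := by
      calc (r.totient : ℝ) * (l * Er ^ 2) ≤ r.totient * (l * (h * N ^ 2 / (144 * (l ^ 2 * r ^ 2)))) := by
            gcongr
        _ = _ := by field_simp
    have g2 : h * (N : ℝ) ^ 2 / (144 * (l * r.totient)) = (h * N ^ 2 / (144 * l)) * (1 / r.totient) := by
      field_simp
    rw [g2]
    refine g1.trans ?_
    apply mul_le_mul_of_nonneg_left _ (by positivity)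
    rw [div_le_div_iff₀ (by positivity) hφ]
    nlinarith
  set Z : ℝ := h * (N : ℝ) ^ 2 / (l * r.totient) with hZ
  have hZ0 : 0 ≤ Z := by positivity
  have k1 : (h : ℝ) * (N : ℝ) ^ 2 / (64 * (l * r.totient)) = Z / 64 := by rw [hZ]; ring
  have k2 : (h : ℝ) / (8 * l) * ((N : ℝ) ^ 2 / (4 * r.totient)) = Z / 32 := by rw [hZ]; field_simp; ring
  have k3 : (h : ℝ) * (N : ℝ) ^ 2 / (128 * (l * r.totient)) = Z / 128 := by rw [hZ]; ring
  have k4 : (h : ℝ) * (N : ℝ) ^ 2 / (144 * (l * r.totient)) = Z / 144 := by rw [hZ]; ring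
  rw [k1]
  rw [k2] at f3
  rw [k3] at f4
  rw [k4] at f5
  linarith

end Pool.Agent.Lib.MP_2a816b_nt
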