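import Mathlib
import Pool.Agent.Lib.MP_2a816b_nt.Local
import Pool.Agent.Lib.MP_2a816b_nt.FracSieve

/-!
# The discrete lower bound
-/

open Finset Real

namespace Pool.Agent.Lib.MP_2a816b_nt

/-- the good prime moduli -/
def GoodMod (N r l : ℕ) : Prop := ∀ b ∈ Cop r, ∀ a ∈ Ico 1 l,
  ‖Sp N (b / r + a / l) + Sp N (b / r) / ((l : ℂ) - 1)‖ ≤ (N : ℝ) / (8 * (l * r))

lemma bad_sum (P : Finset ℕ) (Q : ℕ) (y0 : ℝ) (hy0 : 0 < y0)
    (hP : ∀ l ∈ P, l.Prime ∧ l ≤ Q ∧ y0 ≤ l)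
    (r : ℕ) (hr : 0 < r) (hrl : ∀ l ∈ P, ¬ l ∣ r) (N U L : ℕ) (hU : 1 ≤ U)
    (hU3 : U * U * U ≤ N) (hL : N + 1 < 2 ^ L) (hbad : ∀ l ∈ P, ¬ GoodMod N r l)
    (hlog : ∀ l ∈ P, 2 * Real.log N ≤ (N : ℝ) / (16 * (l * r))) :
    ∑ l ∈ P, (1 : ℝ) / l ≤ 16 * r ^ 2 / N * (8 * L * r * U * Q ^ 2 +
      144 * L ^ 4 * √r * N / √y0 * √(1 + (Q : ℝ) ^ 2 / U + (Q : ℝ) ^ 4 / N)) := by
  classical
  have hN0 : 0 < N := by
    have : 1 ≤ U * U * U := Nat.mul_pos (Nat.mul_pos hU hU) hU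
    omega
  have hN : (0 : ℝ) < N := by exact_mod_cast hN0
  have hr' : (0 : ℝ) < r := by exact_mod_cast hr
  set CB : ℝ := 8 * L * r * U * Q ^ 2 +
      144 * L ^ 4 * √r * N / √y0 * √(1 + (Q : ℝ) ^ 2 / U + (Q : ℝ) ^ 4 / N) with hCB
  have hCB0 : 0 ≤ CB := by positivity
  -- witnesses
  have hw : ∀ l : ℕ, ∃ b a : ℕ, l ∈ P → b ∈ Cop r ∧ a ∈ Ico 1 l ∧
      (N : ℝ) / (16 * (l * r)) ≤ ‖tw N (kq l a r b) vM‖ := by
    intro l
    by_cases hl : l ∈ P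
    · have h1 := hbad l hl
      unfold GoodMod at h1
      push Not at h1
      obtain ⟨b, hb, a, ha, h2⟩ := h1
      refine ⟨b, a, fun _ => ⟨hb, ha, ?_⟩⟩
      have h3 := Sp_good l (hP l hl).1 a r b N
      have h4 := hlog l hl
      have hl' : (0 : ℝ) < l := by exact_mod_cast (hP l hl).1.pos
      have h5 : (N : ℝ) / (8 * (l * r)) = (N : ℝ) / (16 * (l * r)) + (N : ℝ) / (16 * (l * r)) := by
        field_simp; ring
      linarith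
    · exact ⟨0, 0, fun h => absurd h hl⟩
  choose bw aw hw using hw
  have hbound : ∀ b : ℕ, ∑ l ∈ P, ‖tw N (kq l (aw l) r b) vM‖ ≤ CB := by
    intro b
    apply core P Q y0 hy0 hP aw _ r hr hrl b N U L hU hU3 hL
    intro l hl h
    obtain ⟨_, ha, _⟩ := hw l hl
    rw [mem_Ico] at ha
    have := Nat.le_of_dvd (by omega) h
    omega
  have h1 : ∑ l ∈ P, (N : ℝ) / (16 * (l * r)) ≤ r * CB := by
    calc ∑ l ∈ P, (N : ℝ) / (16 * (l * r)) ≤ ∑ l ∈ P, ∑ b ∈ Cop r, ‖tw N (kq l (aw l) r b) vM‖ := by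
          apply sum_le_sum; intro l hl
          obtain ⟨hb, _, h2⟩ := hw l hl
          refine h2.trans ?_
          exact single_le_sum (f := fun b => ‖tw N (kq l (aw l) r b) vM‖)
            (fun _ _ => norm_nonneg _) hb
      _ = ∑ b ∈ Cop r, ∑ l ∈ P, ‖tw N (kq l (aw l) r b) vM‖ := sum_comm
      _ ≤ ∑ b ∈ Cop r, CB := sum_le_sum (fun b _ => hbound b)
      _ = (Cop r).card * CB := by rw [sum_const, nsmul_eq_mul]
      _ ≤ r * CB := by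
          gcongr
          rw [card_Cop]
          exact Nat.totient_le r
  have h2 : ∑ l ∈ P, (1 : ℝ) / l = (16 * r / N) * ∑ l ∈ P, (N : ℝ) / (16 * (l * r)) := by
    rw [mul_sum]
    apply sum_congr rfl; intro l hl
    have hl' : (0 : ℝ) < l := by exact_mod_cast (hP l hl).1.pos
    field_simp
  rw [h2]
  calc (16 * r / N) * ∑ l ∈ P, (N : ℝ) / (16 * (l * r)) ≤ (16 * r / N) * (r * CB) := by gcongr
    _ = _ := by ring

/-- the discrete lower bound -/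
theorem discrete_lower (h : ℕ) (H : ℝ) (hH : 0 ≤ H) (s M : ℕ) (L U Q R0 : ℕ) (y0 σ : ℝ)
    (R P : Finset ℕ)
    (hR : ∀ r ∈ R, 0 < r ∧ r ≤ R0 ∧ Squarefree r)
    (hP : ∀ l ∈ P, l.Prime ∧ l ≤ Q ∧ y0 ≤ l ∧ R0 < l ∧ 2 * h ≤ l)
    (hy0 : 0 < y0) (hh1 : 1 ≤ h) (hU : 1 ≤ U) (hU3 : U * U * U ≤ s + M)
    (hL : s + M + h + 1 < 2 ^ L)
    (hψ : ∀ r ∈ R, (↑(s + M) : ℝ) / 2 ≤
      ∑ n ∈ Ioc 0 (s + M), vM n - 2 * (r : ℝ) ^ 2 * Real.log ↑(s + M))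
    (hErr : ∀ r ∈ R, ∀ l ∈ P, h * ((s + 2 * h) * L) + H * (r * l) ≤
      √h * (↑(s + M) : ℝ) / (12 * (l * r)))
    (hlog : ∀ r ∈ R, ∀ l ∈ P, 2 * Real.log ↑(s + M) ≤ (↑(s + M) : ℝ) / (16 * (l * r)))
    (hσ : σ ≤ ∑ l ∈ P, (1 : ℝ) / l)
    (hsmall : ∀ r ∈ R, 16 * r ^ 2 / (↑(s + M) : ℝ) * (8 * L * r * U * Q ^ 2 +
      144 * L ^ 4 * √r * ↑(s + M) / √y0 * √(1 + (Q : ℝ) ^ 2 / U + (Q : ℝ) ^ 4 / ↑(s + M))) ≤ σ / 2)
    (hMN : (R0 * Q : ℝ) ^ 2 ≤ ↑(s + M)) :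
    (h : ℝ) * (↑(s + M) : ℝ) * σ * (∑ r ∈ R, 1 / (r.totient : ℝ)) / 2304 ≤
      ∑ i ∈ range M, (win h H s i) ^ 2 := by
  classical
  set N : ℕ := s + M with hN
  have hN0 : 0 < N := by
    have : 1 ≤ U * U * U := Nat.mul_pos (Nat.mul_pos hU hU) hU
    omega
  have hNr : (0 : ℝ) < N := by exact_mod_cast hN0
  set G : ℕ → Finset ℕ := fun r => P.filter (fun l => GoodMod N r l) with hG
  have hLg : ∀ n, n ≤ s + M + h → Real.log n ≤ (L : ℝ) := fun n hn =>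
    log_le_L (N := s + M + h) hL (by omega)
  have hlr : ∀ r ∈ R, ∀ l ∈ P, ¬ l ∣ r := by
    intro r hr l hl hd
    have h1 := hR r hr
    have h2 := hP l hl
    have := Nat.le_of_dvd h1.1 hd
    omega
  -- local lower bounds
  have h1 : ∀ r ∈ R, ∀ l ∈ G r, (h : ℝ) * (N : ℝ) ^ 2 / (64 * (l * r.totient)) ≤
      ∑ b ∈ Cop r, ∑ a ∈ Ico 1 l, ‖Fw h H s M (b / r + a / l)‖ ^ 2 := by
    intro r hr l hl
    rw [hG, mem_filter] at hl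
    have hPl := hP l hl.1
    exact local_lower h H hH s M r l L hLg hh1 hPl.1 hPl.2.2.2.2 (hR r hr).1 (hR r hr).2.2
      (hlr r hr l hl.1) (hψ r hr) hl.2 (hErr r hr l hl.1)
  -- large sieve
  have h2 : ∑ r ∈ R, ∑ l ∈ G r, ∑ b ∈ Cop r, ∑ a ∈ Ico 1 l, ‖Fw h H s M (b / r + a / l)‖ ^ 2 ≤
      9 * (M + ((R0 : ℝ) * Q) ^ 2) * ∑ i ∈ range M, ‖(win h H s i : ℂ)‖ ^ 2 := by
    apply frac_sieve R G R0 Q (fun r hr => ⟨(hR r hr).1, (hR r hr).2.1⟩)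
    intro r _ l hl
    rw [hG, mem_filter] at hl
    have hPl := hP l hl.1
    exact ⟨hPl.1, hPl.2.2.2.1, hPl.2.1⟩
  -- good moduli
  have h3 : ∀ r ∈ R, σ / 2 ≤ ∑ l ∈ G r, (1 : ℝ) / l := by
    intro r hr
    have hb := bad_sum (P.filter (fun l => ¬ GoodMod N r l)) Q y0 hy0
      (fun l hl => by
        have := hP l (mem_filter.1 hl).1
        exact ⟨this.1, this.2.1, this.2.2.1⟩) r (hR r hr).1
      (fun l hl => hlr r hr l (mem_filter.1 hl).1) N U L hU hU3 (by omega)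
      (fun l hl => (mem_filter.1 hl).2) (fun l hl => hlog r hr l (mem_filter.1 hl).1)
    have hs := sum_filter_add_sum_filter_not P (fun l => GoodMod N r l) (fun l : ℕ => (1 : ℝ) / l)
    have := hsmall r hr
    simp only [hG]
    linarith
  have hσ' : ∀ r ∈ R, (h : ℝ) * (N : ℝ) ^ 2 / 64 * (σ / 2) * (1 / r.totient) ≤
      ∑ l ∈ G r, ∑ b ∈ Cop r, ∑ a ∈ Ico 1 l, ‖Fw h H s M (b / r + a / l)‖ ^ 2 := by
    intro r hr
    have hφ : (0 : ℝ) < r.totient := by exact_mod_cast Nat.totient_pos.2 (hR r hr).1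
    calc (h : ℝ) * (N : ℝ) ^ 2 / 64 * (σ / 2) * (1 / r.totient)
        ≤ (h : ℝ) * (N : ℝ) ^ 2 / 64 * (∑ l ∈ G r, (1 : ℝ) / l) * (1 / r.totient) := by
          gcongr; exact h3 r hr
      _ = ∑ l ∈ G r, (h : ℝ) * (N : ℝ) ^ 2 / (64 * (l * r.totient)) := by
          rw [mul_sum, sum_mul]
          apply sum_congr rfl; intro l hl
          rw [hG, mem_filter] at hl
          have hl' : (0 : ℝ) < l := by exact_mod_cast (hP l hl.1).1.pos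
          field_simp
      _ ≤ _ := sum_le_sum (fun l hl => h1 r hr l hl)
  have h4 := (sum_le_sum hσ').trans h2
  rw [← mul_sum] at h4
  have h5 : ∑ i ∈ range M, ‖(win h H s i : ℂ)‖ ^ 2 = ∑ i ∈ range M, (win h H s i) ^ 2 := by
    apply sum_congr rfl; intro i _
    rw [Complex.norm_real, norm_eq_abs, sq_abs]
  rw [h5] at h4
  set V := ∑ i ∈ range M, (win h H s i) ^ 2 with hV
  set Φ := ∑ r ∈ R, 1 / (r.totient : ℝ) with hΦ
  have hV0 : 0 ≤ V := sum_nonneg (fun i _ => sq_nonneg _)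
  have h6 : 9 * ((M : ℝ) + ((R0 : ℝ) * Q) ^ 2) * V ≤ 18 * N * V := by
    have hMN' : (M : ℝ) ≤ N := by rw [hN]; exact_mod_cast Nat.le_add_left M s
    apply mul_le_mul_of_nonneg_right _ hV0
    linarith
  have h7 : (h : ℝ) * (N : ℝ) ^ 2 / 64 * (σ / 2) * Φ ≤ 18 * N * V := h4.trans h6
  have h8 : (N : ℝ) * ((h : ℝ) * N * σ * Φ / 2304) ≤ N * V := by nlinarith
  exact le_of_mul_le_mul_left h8 hNr

end Pool.Agent.Lib.MP_2a816b_nt
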