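import Mathlib
import Pool.Agent.Lib.MP_2a816b_nt.Discrete
import Pool.Agent.Lib.MP_2a816b_nt.Sums

/-!
# Choice of the parameters
-/

open Finset Real Filter

namespace Pool.Agent.Lib.MP_2a816b_nt

lemma ev_pow (C a b : ℝ) (k : ℕ) (hab : a < b) :
    ∀ᶠ X : ℝ in atTop, C * (Real.log X) ^ k * X ^ a ≤ X ^ b := by
  have h := isLittleO_log_rpow_rpow_atTop (s := b - a) (k : ℝ) (sub_pos.2 hab)
  have h2 := h.bound (c := 1 / (|C| + 1)) (by positivity)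
  filter_upwards [h2, eventually_ge_atTop (1 : ℝ)] with X hX hX1
  have hX0 : 0 < X := by linarith
  have hlog : 0 ≤ Real.log X := Real.log_nonneg hX1
  rw [norm_of_nonneg (rpow_nonneg hlog _), norm_of_nonneg (rpow_nonneg hX0.le _),
    rpow_natCast] at hX
  have h3 : X ^ b = X ^ (b - a) * X ^ a := by rw [← rpow_add hX0]; congr 1; ring
  rw [h3]
  apply mul_le_mul_of_nonneg_right _ (by positivity)
  calc C * Real.log X ^ k ≤ (|C| + 1) * Real.log X ^ k := by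
        gcongr
        have := le_abs_self C
        linarith
    _ ≤ (|C| + 1) * (1 / (|C| + 1) * X ^ (b - a)) := by gcongr
    _ = X ^ (b - a) := by
        have : |C| + 1 ≠ 0 := by positivity
        field_simp

/-- a numerical bound for the exceptional moduli -/
lemma small_numeric (ε X L r U Q N y0 aR aQ aY aU : ℝ) (hε : 0 < ε) (hX : 1 ≤ X)
    (hlog : 0 ≤ Real.log X) (hL0 : 0 ≤ L)
    (hL : L ≤ 3 * Real.log X) (hr0 : 1 ≤ r) (hr : r ≤ X ^ aR) (hU1 : X ^ aU / 2 ≤ U)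
    (hU2 : U ≤ X ^ aU) (hQ0 : 0 ≤ Q) (hQ : Q ≤ X ^ aQ) (hN : X / 2 ≤ N) (hy0 : y0 = X ^ aY)
    (hW0 : 0 ≤ 2 * aQ - aU) (hW1 : 2 * aQ + aU ≤ 1)
    (E8 : 10 ^ 6 / ε * Real.log X ^ 1 * X ^ (3 * aR + aU + 2 * aQ) ≤ X ^ (1 : ℝ))
    (E9 : 10 ^ 9 / ε * Real.log X ^ 4 * X ^ (3 * aR + aQ - aU / 2) ≤ X ^ (aY / 2)) :
    16 * r ^ 2 / N * (8 * L * r * U * Q ^ 2 +
      144 * L ^ 4 * √r * N / √y0 * √(1 + Q ^ 2 / U + Q ^ 4 / N)) ≤ ε / 500 := by
  have hX0 : 0 < X := by linarith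
  have hN0 : 0 < N := by linarith
  have hXU : 0 < X ^ aU := by positivity
  have hU0 : 0 < U := by linarith
  set ell := Real.log X with hell
  -- first term
  have t1 : 16 * r ^ 2 / N * (8 * L * r * U * Q ^ 2) ≤ ε / 1000 := by
    have e1 : 16 * r ^ 2 / N * (8 * L * r * U * Q ^ 2) = 128 * L * (r ^ 3 * U * Q ^ 2) / N := by
      ring
    have e2 : r ^ 3 * U * Q ^ 2 ≤ X ^ (3 * aR + aU + 2 * aQ) := by
      have : X ^ (3 * aR + aU + 2 * aQ) = (X ^ aR) ^ 3 * X ^ aU * (X ^ aQ) ^ 2 := by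
        rw [rpow_add hX0, rpow_add hX0]
        congr 1
        · congr 1
          rw [mul_comm, rpow_mul hX0.le]; norm_cast
        · rw [mul_comm, rpow_mul hX0.le]; norm_cast
      rw [this]
      gcongr
    rw [e1, div_le_iff₀ hN0]
    rw [rpow_one, pow_one] at E8
    have e3 : 10 ^ 6 * (ell * X ^ (3 * aR + aU + 2 * aQ)) ≤ ε * X := by
      have : 10 ^ 6 / ε * ell * X ^ (3 * aR + aU + 2 * aQ) =
        (10 ^ 6 * (ell * X ^ (3 * aR + aU + 2 * aQ))) / ε := by ring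
      rw [this, div_le_iff₀ hε] at E8
      linarith
    calc 128 * L * (r ^ 3 * U * Q ^ 2) ≤ 128 * (3 * ell) * X ^ (3 * aR + aU + 2 * aQ) := by gcongr
      _ = 384 * (ell * X ^ (3 * aR + aU + 2 * aQ)) := by ring
      _ ≤ ε / 1000 * (X / 2) := by nlinarith
      _ ≤ ε / 1000 * N := by gcongr
  have t2 : 16 * r ^ 2 / N * (144 * L ^ 4 * √r * N / √y0 * √(1 + Q ^ 2 / U + Q ^ 4 / N)) ≤
      ε / 1000 := by
    have s1 : √(1 + Q ^ 2 / U + Q ^ 4 / N) ≤ 3 * X ^ (aQ - aU / 2) := by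
      have u1 : Q ^ 2 / U ≤ 2 * X ^ (2 * aQ - aU) := by
        rw [div_le_iff₀ hU0]
        have v1 : X ^ (2 * aQ - aU) * X ^ aU = (X ^ aQ) ^ 2 := by
          rw [← rpow_add hX0, ← rpow_natCast, ← rpow_mul hX0.le]
          congr 1
          push_cast; ring
        calc Q ^ 2 ≤ (X ^ aQ) ^ 2 := by gcongr
          _ = 2 * X ^ (2 * aQ - aU) * (X ^ aU / 2) := by rw [← v1]; ring
          _ ≤ 2 * X ^ (2 * aQ - aU) * U := by gcongr
      have u2 : Q ^ 4 / N ≤ 2 * X ^ (2 * aQ - aU) := by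
        rw [div_le_iff₀ hN0]
        have v1 : (X ^ aQ) ^ 4 ≤ X ^ (2 * aQ - aU) * X := by
          have : X ^ (2 * aQ - aU) * X = X ^ (2 * aQ - aU + 1) := by
            rw [rpow_add hX0, rpow_one]
          rw [this, ← rpow_natCast, ← rpow_mul hX0.le]
          apply rpow_le_rpow_of_exponent_le hX
          push_cast
          linarith
        calc Q ^ 4 ≤ (X ^ aQ) ^ 4 := by gcongr
          _ ≤ X ^ (2 * aQ - aU) * X := v1
          _ = 2 * X ^ (2 * aQ - aU) * (X / 2) := by ring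
          _ ≤ _ := by gcongr
      have u3 : 1 ≤ X ^ (2 * aQ - aU) := one_le_rpow hX hW0
      have u4 : 1 + Q ^ 2 / U + Q ^ 4 / N ≤ (3 * X ^ (aQ - aU / 2)) ^ 2 := by
        have v1 : (3 * X ^ (aQ - aU / 2)) ^ 2 = 9 * X ^ (2 * aQ - aU) := by
          rw [mul_pow, ← rpow_natCast (X ^ (aQ - aU / 2)), ← rpow_mul hX0.le]
          norm_num
          congr 1
          ring
        rw [v1]; linarith
      calc _ ≤ √((3 * X ^ (aQ - aU / 2)) ^ 2) := sqrt_le_sqrt u4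
        _ = _ := sqrt_sq (by positivity)
    have s2 : √y0 = X ^ (aY / 2) := by
      rw [hy0, sqrt_eq_rpow, ← rpow_mul hX0.le]
      congr 1; ring
    have s3 : √r ≤ r := by
      rw [sqrt_le_left (by linarith)]
      nlinarith
    have hY2 : 0 < X ^ (aY / 2) := by positivity
    have e1 : 16 * r ^ 2 / N * (144 * L ^ 4 * √r * N / √y0 * √(1 + Q ^ 2 / U + Q ^ 4 / N)) =
        2304 * L ^ 4 * (r ^ 2 * √r) * √(1 + Q ^ 2 / U + Q ^ 4 / N) / √y0 := by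
      field_simp
      ring
    rw [e1, s2, div_le_iff₀ hY2]
    have e3 : 10 ^ 9 * (ell ^ 4 * X ^ (3 * aR + aQ - aU / 2)) ≤ ε * X ^ (aY / 2) := by
      have : 10 ^ 9 / ε * ell ^ 4 * X ^ (3 * aR + aQ - aU / 2) =
        (10 ^ 9 * (ell ^ 4 * X ^ (3 * aR + aQ - aU / 2))) / ε := by ring
      rw [this, div_le_iff₀ hε] at E9
      linarith
    have e4 : X ^ (3 * aR + aQ - aU / 2) = (X ^ aR) ^ 3 * X ^ (aQ - aU / 2) := by
      rw [add_sub_assoc, rpow_add hX0]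
      congr 1
      rw [mul_comm, rpow_mul hX0.le]; norm_cast
    have e5 : r ^ 2 * √r ≤ (X ^ aR) ^ 3 := by
      calc r ^ 2 * √r ≤ r ^ 2 * r := by gcongr
        _ = r ^ 3 := by ring
        _ ≤ _ := by gcongr
    calc 2304 * L ^ 4 * (r ^ 2 * √r) * √(1 + Q ^ 2 / U + Q ^ 4 / N)
        ≤ 2304 * (3 * ell) ^ 4 * (X ^ aR) ^ 3 * (3 * X ^ (aQ - aU / 2)) := by gcongr
      _ = 559872 * (ell ^ 4 * X ^ (3 * aR + aQ - aU / 2)) := by rw [e4]; ring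
      _ ≤ ε / 1000 * X ^ (aY / 2) := by
          have : 0 ≤ ell ^ 4 * X ^ (3 * aR + aQ - aU / 2) := by positivity
          nlinarith
  rw [mul_add]
  linarith

/-- lower bound for `ψ` -/
lemma psi_numeric (X ell N r aR : ℝ) (N' : ℕ) (hNN : (N' : ℝ) = N) (hX : 1 ≤ X) (hell : 0 ≤ ell)
    (haR : 0 ≤ aR) (hN1 : X / 2 ≤ N) (hr0 : 1 ≤ r) (hr : r ≤ X ^ aR)
    (hlogN : Real.log N ≤ 3 * ell) (hlogN1 : Real.log (N + 1) ≤ 3 * ell)
    (E4 : 100 * ell * X ^ (2 * aR) ≤ X) :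
    N / 2 ≤ ∑ n ∈ Ioc 0 N', vM n - 2 * r ^ 2 * Real.log N := by
  have hX0 : 0 < X := lt_of_lt_of_le one_pos hX
  have h1 := psi_lower N'
  rw [hNN] at h1
  have h2 := Real.log_two_gt_d9
  have h3 : r ^ 2 ≤ X ^ (2 * aR) := by
    have : X ^ (2 * aR) = (X ^ aR) ^ 2 := by rw [mul_comm, rpow_mul hX0.le]; norm_cast
    rw [this]
    gcongr
  have h4 : 1 ≤ X ^ (2 * aR) := one_le_rpow hX (by linarith)
  have hlogNpos : 0 ≤ Real.log N := by rw [← hNN]; exact Real.log_natCast_nonneg N'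
  have h5 : 2 * r ^ 2 * Real.log N ≤ 6 * (ell * X ^ (2 * aR)) := by
    calc 2 * r ^ 2 * Real.log N ≤ 2 * X ^ (2 * aR) * (3 * ell) := by gcongr
      _ = _ := by ring
  have h6 : Real.log (N + 1) ≤ 3 * (ell * X ^ (2 * aR)) := by
    refine hlogN1.trans ?_
    have : ell * 1 ≤ ell * X ^ (2 * aR) := by gcongr
    linarith
  have hNpos : 0 < N := by linarith
  have h7 : N * 0.69 ≤ N * Real.log 2 := by
    apply mul_le_mul_of_nonneg_left _ hNpos.le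
    linarith
  have h8 : 100 * (ell * X ^ (2 * aR)) ≤ X := by linarith
  linarith

/-- the error terms -/
lemma err_numeric (X ell H h s L N r l aH aQ aR : ℝ) (hX : 1 ≤ X) (hell : 0 ≤ ell)
    (hH1 : 1 ≤ H) (hH : H ≤ X ^ aH) (hh1 : 1 ≤ h) (hh2 : h ≤ 2 * H) (hs0 : 0 ≤ s)
    (hs : s ≤ 4 * H) (hL0 : 0 ≤ L) (hL : L ≤ 3 * ell) (hr0 : 1 ≤ r) (hl0 : 0 < l)
    (hr : r ≤ X ^ aR) (hl : l ≤ X ^ aQ) (hf : X ^ (1 - aQ - aR) / 2 ≤ N / (l * r))
    (E5 : 3000 * ell * X ^ (2 * aH) ≤ X ^ (1 - aQ - aR))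
    (E6 : 100 * X ^ (aH + aR + aQ) ≤ X ^ (1 - aQ - aR)) :
    h * ((s + 2 * h) * L) + H * (r * l) ≤ √h * N / (12 * (l * r)) := by
  have hX0 : 0 < X := lt_of_lt_of_le one_pos hX
  have h1 : h * ((s + 2 * h) * L) ≤ 48 * (ell * X ^ (2 * aH)) := by
    have hH2 : H * H ≤ X ^ (2 * aH) := by
      have : X ^ (2 * aH) = X ^ aH * X ^ aH := by rw [← rpow_add hX0]; congr 1; ring
      rw [this]
      gcongr
    calc h * ((s + 2 * h) * L) ≤ (2 * H) * ((4 * H + 2 * (2 * H)) * (3 * ell)) := by gcongr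
      _ = 48 * (ell * (H * H)) := by ring
      _ ≤ _ := by gcongr
  have h2 : H * (r * l) ≤ X ^ (aH + aR + aQ) := by
    rw [rpow_add hX0, rpow_add hX0, mul_assoc]
    gcongr
  have h3 : √h * N / (12 * (l * r)) = √h * (N / (l * r)) / 12 := by
    field_simp
  have h4 : (1 : ℝ) ≤ √h := by rw [one_le_sqrt]; exact hh1
  have h5 : X ^ (1 - aQ - aR) / 24 ≤ √h * (N / (l * r)) / 12 := by
    have h6 : 0 ≤ X ^ (1 - aQ - aR) := by positivity
    have h7 : 1 * (X ^ (1 - aQ - aR) / 2) ≤ √h * (N / (l * r)) := by gcongr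
    linarith
  have hT : 0 ≤ X ^ (1 - aQ - aR) := by positivity
  rw [h3]
  linarith

/-- the sum over primes -/
lemma sigma_numeric (ε X ell aQ aY : ℝ) (hε : 0 < ε) (hX : 1 ≤ X) (hell : ell = Real.log X)
    (hell0 : 0 < ell) (haQ0 : 0 < aQ) (haQ1 : aQ ≤ 1 / 3) (hQY : ε / 16 + aY = aQ)
    (E2 : 10 ^ 8 ≤ X ^ aY) (E12 : 2 ^ 10 ≤ X ^ (ε / 32)) :
    ε / 250 ≤ ∑ l ∈ PrI ⌊X ^ aY⌋₊ ⌊X ^ aQ⌋₊, (1 : ℝ) / l := by
  have hX0 : 0 < X := lt_of_lt_of_le one_pos hX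
  set J : ℕ := ⌊(ε / 16) * ell / Real.log 4⌋₊ with hJ
  have hl4 : 0 < Real.log 4 := Real.log_pos (by norm_num)
  have h0 : 0 ≤ (ε / 16) * ell / Real.log 4 := by positivity
  have h1 : (J : ℝ) ≤ (ε / 16) * ell / Real.log 4 := Nat.floor_le h0
  have h2 : (ε / 16) * ell / Real.log 4 < J + 1 := Nat.lt_floor_add_one _
  have h3 : (4 : ℝ) ^ J * X ^ aY ≤ X ^ aQ := by
    have e1 : (4 : ℝ) ^ J ≤ X ^ (ε / 16) := by
      rw [← rpow_natCast, rpow_def_of_pos (by norm_num : (0 : ℝ) < 4), rpow_def_of_pos hX0]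
      apply Real.exp_le_exp.2
      rw [le_div_iff₀ hl4] at h1
      rw [← hell]
      linarith
    calc (4 : ℝ) ^ J * X ^ aY ≤ X ^ (ε / 16) * X ^ aY := by gcongr
      _ = X ^ aQ := by rw [← rpow_add hX0, hQY]
  have h4 := sum_inv_prime_ge (X ^ aY) (X ^ aQ) J E2 h3
  refine le_trans ?_ h4
  rw [Real.log_rpow hX0, ← hell]
  have e2 : Real.log 4 = 2 * Real.log 2 := by
    rw [show (4 : ℝ) = 2 ^ 2 by norm_num, Real.log_pow]; norm_num
  have hlog4 : Real.log 4 ≤ 1.4 := by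
    have := Real.log_two_lt_d9
    rw [e2]; linarith
  have h5 : 5 ≤ (ε / 32) * ell / Real.log 4 := by
    have e1 : Real.log (2 ^ 10) ≤ Real.log (X ^ (ε / 32)) := Real.log_le_log (by norm_num) E12
    rw [Real.log_rpow hX0, Real.log_pow, ← hell] at e1
    rw [le_div_iff₀ hl4, e2]
    push_cast at e1
    linarith
  have h6 : (ε / 32) * ell / Real.log 4 ≤ J := by
    have : (ε / 16) * ell / Real.log 4 = 2 * ((ε / 32) * ell / Real.log 4) := by ring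
    rw [this] at h2
    linarith
  have h7 : (ε / 32) * ell / 1.4 ≤ J := by
    refine le_trans ?_ h6
    gcongr
  rw [le_div_iff₀ (by positivity)]
  calc ε / 250 * (4 * (aQ * ell)) ≤ ε / 250 * (4 * (1 / 3 * ell)) := by gcongr
    _ ≤ (ε / 32) * ell / 1.4 := by
        have h8 : 0 ≤ ε * ell := by positivity
        have e1 : ε / 250 * (4 * (1 / 3 * ell)) = (ε * ell) * (4 / 750) := by ring
        have e2 : (ε / 32) * ell / 1.4 = (ε * ell) * (1 / 44.8) := by ring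
        rw [e1, e2]
        exact mul_le_mul_of_nonneg_left (by norm_num) h8
    _ ≤ J := h7

/-- properties of the binary length `L` -/
lemma L_numeric (X ell : ℝ) (hX : 0 < X) (hell : ell = Real.log X) (hell4 : 4 ≤ ell) :
    ((⌈2 * ell⌉₊ + 3 : ℕ) : ℝ) ≤ 3 * ell ∧ 8 * X ≤ (2 : ℝ) ^ (⌈2 * ell⌉₊ + 3) := by
  constructor
  · have : (⌈2 * ell⌉₊ : ℝ) < 2 * ell + 1 := Nat.ceil_lt_add_one (by positivity)
    push_cast; linarith
  · rw [pow_add]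
    have : X ≤ (2 : ℝ) ^ ⌈2 * ell⌉₊ := by
      have h1 : (2 : ℝ) ^ (2 * ell) ≤ (2 : ℝ) ^ ((⌈2 * ell⌉₊ : ℕ) : ℝ) :=
        rpow_le_rpow_of_exponent_le (by norm_num) (Nat.le_ceil _)
      rw [rpow_natCast] at h1
      refine le_trans ?_ h1
      have h2 : X = Real.exp ell := by rw [hell, Real.exp_log hX]
      rw [rpow_def_of_pos (by norm_num)]
      nth_rewrite 1 [h2]
      apply Real.exp_le_exp.2
      have := Real.log_two_gt_d9
      nlinarith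
    linarith

/-- the list of eventual inequalities -/
def Big (ε X : ℝ) : Prop :=
  1 ≤ X ∧ 4 ≤ Real.log X ∧
  4 * X ^ (1 / 3 - ε) ≤ X ^ (1 / 3 - 9 * ε / 16) ∧
  10 ^ 8 ≤ X ^ (1 / 3 - 9 * ε / 16) ∧
  2 * X ^ (3 * (1 / 3 - ε / 8)) ≤ X ∧
  100 * Real.log X * X ^ (2 * (ε / 64)) ≤ X ∧
  3000 * Real.log X * X ^ (2 * (1 / 3 - ε)) ≤ X ^ (1 - (1 / 3 - ε / 2) - ε / 64) ∧
  100 * X ^ (1 / 3 - ε + ε / 64 + (1 / 3 - ε / 2)) ≤ X ^ (1 - (1 / 3 - ε / 2) - ε / 64) ∧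
  1000 * Real.log X ≤ X ^ (1 - (1 / 3 - ε / 2) - ε / 64) ∧
  10 ^ 6 / ε * Real.log X ^ 1 * X ^ (3 * (ε / 64) + (1 / 3 - ε / 8) + 2 * (1 / 3 - ε / 2)) ≤
    X ^ (1 : ℝ) ∧
  10 ^ 9 / ε * Real.log X ^ 4 * X ^ (3 * (ε / 64) + (1 / 3 - ε / 2) - (1 / 3 - ε / 8) / 2) ≤
    X ^ ((1 / 3 - 9 * ε / 16) / 2) ∧
  2 * X ^ (2 * (ε / 64) + 2 * (1 / 3 - ε / 2)) ≤ X ∧
  2 * X ^ (1 / 3 - ε) ≤ X ∧
  2 ^ 10 ≤ X ^ (ε / 32)

lemma eventually_big (ε : ℝ) (hε : 0 < ε) (hε6 : ε ≤ 1 / 6) : ∃ X0 : ℝ, ∀ X, X0 ≤ X → Big ε X := by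
  rw [← eventually_atTop]
  have E1 := ev_pow 4 (1 / 3 - ε) (1 / 3 - 9 * ε / 16) 0 (by linarith)
  have E2 := ev_pow (10 ^ 8) 0 (1 / 3 - 9 * ε / 16) 0 (by linarith)
  have E3 := ev_pow 2 (3 * (1 / 3 - ε / 8)) 1 0 (by linarith)
  have E4 := ev_pow 100 (2 * (ε / 64)) 1 1 (by linarith)
  have E5 := ev_pow 3000 (2 * (1 / 3 - ε)) (1 - (1 / 3 - ε / 2) - ε / 64) 1 (by linarith)
  have E6 := ev_pow 100 (1 / 3 - ε + ε / 64 + (1 / 3 - ε / 2)) (1 - (1 / 3 - ε / 2) - ε / 64) 0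
    (by linarith)
  have E7 := ev_pow 1000 0 (1 - (1 / 3 - ε / 2) - ε / 64) 1 (by linarith)
  have E8 := ev_pow (10 ^ 6 / ε) (3 * (ε / 64) + (1 / 3 - ε / 8) + 2 * (1 / 3 - ε / 2)) 1 1
    (by linarith)
  have E9 := ev_pow (10 ^ 9 / ε) (3 * (ε / 64) + (1 / 3 - ε / 2) - (1 / 3 - ε / 8) / 2)
    ((1 / 3 - 9 * ε / 16) / 2) 4 (by linarith)
  have E10 := ev_pow 2 (2 * (ε / 64) + 2 * (1 / 3 - ε / 2)) 1 0 (by linarith)
  have E11 := ev_pow 2 (1 / 3 - ε) 1 0 (by linarith)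
  have E12 := ev_pow (2 ^ 10) 0 (ε / 32) 0 (by linarith)
  filter_upwards [E1, E2, E3, E4, E5, E6, E7, E8, E9, E10, E11, E12,
    eventually_ge_atTop (Real.exp 4), eventually_ge_atTop (1 : ℝ)] with X F1 F2 F3 F4 F5 F6 F7 F8 F9
    F10 F11 F12 F13 F14
  have F13' : 4 ≤ Real.log X := by
    have := Real.log_le_log (Real.exp_pos 4) F13
    rwa [Real.log_exp] at this
  rw [pow_zero, mul_one] at F1 F2 F3 F6 F10 F11 F12
  rw [pow_one] at F4 F5 F7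
  rw [rpow_zero, mul_one] at F2 F7 F12
  rw [rpow_one] at F3 F4 F10 F11
  exact ⟨F14, F13', F1, F2, F3, F4, F5, F6, F7, F8, F9, F10, F11, F12⟩

set_option maxHeartbeats 4000000 in
/-- the discrete lower bound with all parameters chosen -/
theorem discrete_final (ε : ℝ) (hε : 0 < ε) (hε6 : ε ≤ 1 / 6) (X : ℝ) (hB : Big ε X) (H : ℝ)
    (hH1 : 1 ≤ H) (hHX : H ≤ X ^ (1 / 3 - ε)) (h s M : ℕ) (hh1 : H / 2 ≤ h) (hh2 : (h : ℝ) ≤ 2 * H)
    (hs : (s : ℝ) ≤ 4 * H) (hM1 : X / 2 ≤ M) (hM2 : (M : ℝ) ≤ X) :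
    ε ^ 2 / 10 ^ 9 * H * X * Real.log X ≤ ∑ i ∈ range M, (win h H s i) ^ 2 := by
  obtain ⟨hX1, hell4, E1, E2, E3, E4, E5, E6, E7, E8, E9, E10, E11, E12⟩ := hB
  have hX0 : 0 < X := lt_of_lt_of_le one_pos hX1
  obtain ⟨hL3, hL2⟩ := L_numeric X (Real.log X) hX0 rfl hell4
  set L : ℕ := ⌈2 * Real.log X⌉₊ + 3 with hLdef
  set ell := Real.log X with hell
  have hell0 : 0 < ell := by linarith
  have hHX2 : 2 * H ≤ X := by linarith
  set N : ℕ := s + M with hN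
  have hNr : (N : ℝ) = s + M := by rw [hN]; push_cast; ring
  have hs0 : (0 : ℝ) ≤ s := by positivity
  have hN1 : X / 2 ≤ N := by rw [hNr]; linarith
  have hN2 : (N : ℝ) ≤ 3 * X := by rw [hNr]; linarith
  have hNpos : (0 : ℝ) < N := by linarith
  have hLN : s + M + h + 1 < 2 ^ L := by
    have : ((s + M + h + 1 : ℕ) : ℝ) < ((2 ^ L : ℕ) : ℝ) := by
      push_cast
      linarith
    exact_mod_cast this
  have hh1' : 1 ≤ h := by
    have : (0 : ℝ) < h := by linarith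
    exact_mod_cast this
  have hhr : (1 : ℝ) ≤ h := by exact_mod_cast hh1'
  have hlogN : Real.log N ≤ 3 * ell := (log_le_L (N := s + M + h) hLN (by omega)).trans hL3
  have hlogN1 : Real.log ((N : ℝ) + 1) ≤ 3 * ell := by
    have := log_le_L (N := s + M + h) (n := N + 1) hLN (by omega)
    push_cast at this
    exact this.trans hL3
  set R0 : ℕ := ⌊X ^ (ε / 64)⌋₊ with hR0
  set Q : ℕ := ⌊X ^ (1 / 3 - ε / 2)⌋₊ with hQ
  set U : ℕ := ⌊X ^ (1 / 3 - ε / 8)⌋₊ with hU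
  have hR0le : (R0 : ℝ) ≤ X ^ (ε / 64) := Nat.floor_le (by positivity)
  have hQle : (Q : ℝ) ≤ X ^ (1 / 3 - ε / 2) := Nat.floor_le (by positivity)
  have hUle : (U : ℝ) ≤ X ^ (1 / 3 - ε / 8) := Nat.floor_le (by positivity)
  have hXaU : 1 ≤ X ^ (1 / 3 - ε / 8) := one_le_rpow hX1 (by linarith)
  have hU1 : 1 ≤ U := by rw [hU]; exact Nat.le_floor (by simpa using hXaU)
  have hU1r : (1 : ℝ) ≤ U := by exact_mod_cast hU1
  have hUge : X ^ (1 / 3 - ε / 8) / 2 ≤ U := by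
    have : X ^ (1 / 3 - ε / 8) < U + 1 := Nat.lt_floor_add_one _
    linarith
  have hYpos : 0 < X ^ (1 / 3 - 9 * ε / 16) := by positivity
  -- properties of the sets
  have hRprop : ∀ r ∈ SqR R0, 0 < r ∧ r ≤ R0 ∧ Squarefree r := by
    intro r hr
    unfold SqR at hr
    rw [mem_filter, mem_Ioc] at hr
    exact ⟨hr.1.1, hr.1.2, hr.2⟩
  have hRr : ∀ r ∈ SqR R0, (1 : ℝ) ≤ r ∧ (r : ℝ) ≤ X ^ (ε / 64) := by
    intro r hr
    obtain ⟨h1, h2, _⟩ := hRprop r hr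
    refine ⟨by exact_mod_cast h1, le_trans ?_ hR0le⟩
    exact_mod_cast h2
  have hRY : X ^ (ε / 64) ≤ X ^ (1 / 3 - 9 * ε / 16) :=
    rpow_le_rpow_of_exponent_le hX1 (by linarith)
  have hPprop : ∀ l ∈ PrI ⌊X ^ (1 / 3 - 9 * ε / 16)⌋₊ Q, l.Prime ∧ l ≤ Q ∧
      X ^ (1 / 3 - 9 * ε / 16) ≤ l ∧ R0 < l ∧ 2 * h ≤ l := by
    intro l hl
    unfold PrI at hl
    rw [mem_filter, mem_Ioc] at hl
    have hYl : X ^ (1 / 3 - 9 * ε / 16) < l := Nat.lt_of_floor_lt hl.1.1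
    refine ⟨hl.2, hl.1.2, hYl.le, ?_, ?_⟩
    · have : (R0 : ℝ) < l := lt_of_le_of_lt (hR0le.trans hRY) hYl
      exact_mod_cast this
    · have : ((2 * h : ℕ) : ℝ) ≤ l := by
        push_cast
        linarith
      exact_mod_cast this
  have hPr : ∀ l ∈ PrI ⌊X ^ (1 / 3 - 9 * ε / 16)⌋₊ Q, (0 : ℝ) < l ∧ (l : ℝ) ≤ X ^ (1 / 3 - ε / 2) := by
    intro l hl
    obtain ⟨h1, h2, _⟩ := hPprop l hl
    refine ⟨by exact_mod_cast h1.pos, le_trans ?_ hQle⟩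
    exact_mod_cast h2
  have hXsplit : X ^ (1 - (1 / 3 - ε / 2) - ε / 64) * (X ^ (1 / 3 - ε / 2) * X ^ (ε / 64)) = X := by
    rw [← rpow_add hX0, ← rpow_add hX0]
    have : 1 - (1 / 3 - ε / 2) - ε / 64 + (1 / 3 - ε / 2 + ε / 64) = 1 := by ring
    rw [this, rpow_one]
  have hfrac : ∀ r ∈ SqR R0, ∀ l ∈ PrI ⌊X ^ (1 / 3 - 9 * ε / 16)⌋₊ Q,
      X ^ (1 - (1 / 3 - ε / 2) - ε / 64) / 2 ≤ (N : ℝ) / (l * r) := by
    intro r hr l hl
    have h1 := (hRr r hr).1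
    have h2 := (hPr l hl).1
    have h3 : 0 < (l : ℝ) * r := mul_pos h2 (by linarith)
    rw [le_div_iff₀ h3]
    have h4 : (l : ℝ) * r ≤ X ^ (1 / 3 - ε / 2) * X ^ (ε / 64) :=
      mul_le_mul (hPr l hl).2 (hRr r hr).2 (by linarith) (by positivity)
    calc X ^ (1 - (1 / 3 - ε / 2) - ε / 64) / 2 * (l * r)
        ≤ X ^ (1 - (1 / 3 - ε / 2) - ε / 64) / 2 * (X ^ (1 / 3 - ε / 2) * X ^ (ε / 64)) :=
          mul_le_mul_of_nonneg_left h4 (by positivity)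
      _ = (X ^ (1 - (1 / 3 - ε / 2) - ε / 64) * (X ^ (1 / 3 - ε / 2) * X ^ (ε / 64))) / 2 := by ring
      _ = X / 2 := by rw [hXsplit]
      _ ≤ N := hN1
  -- the main application
  have hmain := discrete_lower h H (by linarith) s M L U Q R0 (X ^ (1 / 3 - 9 * ε / 16)) (ε / 250)
    (SqR R0) (PrI ⌊X ^ (1 / 3 - 9 * ε / 16)⌋₊ Q) hRprop hPprop hYpos hh1' hU1 ?_ hLN ?_ ?_ ?_ ?_ ?_ ?_
  · -- conclusion
    have hΦ := sum_inv_totient_ge R0
    have hR0' : X ^ (ε / 64) ≤ (R0 : ℝ) + 1 := (Nat.lt_floor_add_one _).le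
    have hΦ2 : ε / 64 * ell / 2 ≤ ∑ r ∈ SqR R0, 1 / (r.totient : ℝ) := by
      refine le_trans ?_ hΦ
      have : Real.log (X ^ (ε / 64)) ≤ Real.log (R0 + 1) := Real.log_le_log (by positivity) hR0'
      rw [Real.log_rpow hX0] at this
      linarith
    refine le_trans ?_ hmain
    have hHpos : 0 < H := by linarith
    calc ε ^ 2 / 10 ^ 9 * H * X * ell ≤ (H / 2) * (X / 2) * (ε / 250) * (ε / 64 * ell / 2) / 2304 := by
          have e1 : (H / 2) * (X / 2) * (ε / 250) * (ε / 64 * ell / 2) / 2304 =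
            (ε ^ 2 * H * X * ell) / 294912000 := by ring
          have e2 : ε ^ 2 / 10 ^ 9 * H * X * ell = (ε ^ 2 * H * X * ell) / 10 ^ 9 := by ring
          rw [e1, e2]
          have : 0 ≤ ε ^ 2 * H * X * ell := by positivity
          apply div_le_div_of_nonneg_left this (by norm_num) (by norm_num)
      _ ≤ _ := by
          rw [← hN]
          gcongr
  · -- U^3 ≤ N
    have h1 : ((U * U * U : ℕ) : ℝ) ≤ (N : ℝ) := by
      push_cast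
      have h2 : X ^ (3 * (1 / 3 - ε / 8)) =
          X ^ (1 / 3 - ε / 8) * X ^ (1 / 3 - ε / 8) * X ^ (1 / 3 - ε / 8) := by
        rw [← rpow_add hX0, ← rpow_add hX0]; congr 1; ring
      calc (U : ℝ) * U * U ≤ X ^ (1 / 3 - ε / 8) * X ^ (1 / 3 - ε / 8) * X ^ (1 / 3 - ε / 8) := by
            gcongr
        _ ≤ X / 2 := by rw [← h2]; linarith
        _ ≤ N := hN1
    exact_mod_cast h1
  · -- psi
    intro r hr
    exact psi_numeric X ell N r (ε / 64) N rfl hX1 hell0.le (by positivity) hN1 (hRr r hr).1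
      (hRr r hr).2 hlogN hlogN1 E4
  · -- error
    intro r hr l hl
    exact err_numeric X ell H h s L N r l (1 / 3 - ε) (1 / 3 - ε / 2) (ε / 64) hX1 hell0.le hH1 hHX
      hhr hh2 hs0 hs (by positivity) hL3 (hRr r hr).1 (hPr l hl).1 (hRr r hr).2 (hPr l hl).2
      (hfrac r hr l hl) E5 E6
  · -- logarithm
    intro r hr l hl
    have hf := hfrac r hr l hl
    have h3 : (N : ℝ) / (16 * (l * r)) = ((N : ℝ) / (l * r)) / 16 := by
      rw [div_div, mul_comm (16 : ℝ)]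
    rw [← hN, h3]
    linarith
  · -- sum over primes
    exact sigma_numeric ε X ell (1 / 3 - ε / 2) (1 / 3 - 9 * ε / 16) hε hX1 rfl hell0 (by linarith)
      (by linarith) (by ring) E2 E12
  · -- bad moduli
    intro r hr
    have hb := small_numeric ε X L r U Q N (X ^ (1 / 3 - 9 * ε / 16)) (ε / 64) (1 / 3 - ε / 2)
      (1 / 3 - 9 * ε / 16) (1 / 3 - ε / 8) hε hX1 hell0.le (by positivity) hL3
      (hRr r hr).1 (hRr r hr).2 hUge hUle (by positivity) hQle hN1 rfl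
      (by linarith) (by linarith) E8 E9
    refine hb.trans (le_of_eq ?_)
    ring
  · -- R0 Q
    have h1 : ((R0 : ℝ) * Q) ^ 2 ≤ X ^ (2 * (ε / 64) + 2 * (1 / 3 - ε / 2)) := by
      have e1 : X ^ (2 * (ε / 64) + 2 * (1 / 3 - ε / 2)) =
          (X ^ (ε / 64) * X ^ (1 / 3 - ε / 2)) ^ 2 := by
        rw [mul_pow, rpow_add hX0]
        congr 1
        · rw [mul_comm, rpow_mul hX0.le]; norm_cast
        · rw [mul_comm, rpow_mul hX0.le]; norm_cast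
      rw [e1]
      gcongr
    rw [← hN]
    linarith

end Pool.Agent.Lib.MP_2a816b_nt
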