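import Mathlib
import Pool.Agent.Lib.MP_2a816b_nt.Defs
import Pool.Agent.Lib.MP_2a816b_nt.Params

/-!
# From the integral to the discrete sums
-/

open Finset Real MeasureTheory

namespace Pool.Agent.Lib.MP_2a816b_nt

/-- the window as a discrete window -/
lemma psiWindow_eq (H t : ℝ) (hH : 1 ≤ H) (ht0 : 0 ≤ t) (ht1 : t ≤ 1) (K : ℕ) (hK : H + 1 ≤ K) :
    ∃ h s : ℕ, H / 2 ≤ h ∧ (h : ℝ) ≤ 2 * H ∧ (s : ℝ) ≤ K + 1 ∧
      ∀ i : ℕ, psiWindow (K + i + t) H - H = win h H s i := by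
  set j0 : ℤ := ⌈t - H / 2⌉ with hj0
  set j1 : ℤ := ⌊t + H / 2⌋ with hj1
  have a1 : (j0 : ℝ) < t - H / 2 + 1 := Int.ceil_lt_add_one _
  have a2 : t - H / 2 ≤ (j0 : ℝ) := Int.le_ceil _
  have a3 : (j1 : ℝ) ≤ t + H / 2 := Int.floor_le _
  have a4 : t + H / 2 < (j1 : ℝ) + 1 := Int.lt_floor_add_one _
  have hh0 : 0 < j1 - j0 + 1 := by
    have : (0 : ℝ) < ((j1 - j0 + 1 : ℤ) : ℝ) := by push_cast; linarith
    exact_mod_cast this
  have hs0 : 0 ≤ (K : ℤ) + j0 - 1 := by
    have : (-1 : ℝ) < (((K : ℤ) + j0 - 1 : ℤ) : ℝ) := by push_cast; linarith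
    have h2 : (-1 : ℤ) < (K : ℤ) + j0 - 1 := by exact_mod_cast this
    omega
  obtain ⟨h, hh⟩ := Int.eq_ofNat_of_zero_le hh0.le
  obtain ⟨s, hs⟩ := Int.eq_ofNat_of_zero_le hs0
  have hhr : (h : ℝ) = (j1 : ℝ) - j0 + 1 := by
    have : ((j1 - j0 + 1 : ℤ) : ℝ) = ((h : ℤ) : ℝ) := by rw [hh]
    push_cast at this
    linarith
  have hsr : (s : ℝ) = (K : ℝ) + j0 - 1 := by
    have : (((K : ℤ) + j0 - 1 : ℤ) : ℝ) = ((s : ℤ) : ℝ) := by rw [hs]
    push_cast at this
    linarith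
  have hh1 : 1 ≤ h := by omega
  have hh1r : (1 : ℝ) ≤ h := by exact_mod_cast hh1
  refine ⟨h, s, ?_, ?_, ?_, ?_⟩
  · by_cases hc : H < 2
    · linarith
    · push Not at hc
      linarith
  · linarith
  · linarith
  · intro i
    unfold psiWindow win
    congr 1
    have hset : (Finset.Icc 1 ⌊(K : ℝ) + i + t + H / 2⌋₊).filter
        (fun n : ℕ => (K : ℝ) + i + t - H / 2 ≤ (n : ℝ)) =
        (range h).image (fun u => s + 1 + i + u) := by
      ext n
      rw [mem_filter, Finset.mem_Icc, mem_image]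
      constructor
      · rintro ⟨⟨_, h2⟩, h3⟩
        rw [Nat.le_floor_iff (by positivity)] at h2
        have b1 : j0 ≤ (n : ℤ) - K - i := by
          rw [hj0, Int.ceil_le]; push_cast; linarith
        have b2 : (n : ℤ) - K - i ≤ j1 := by
          rw [hj1, Int.le_floor]; push_cast; linarith
        refine ⟨n - (s + 1 + i), ?_, ?_⟩
        · rw [mem_range]; omega
        · omega
      · rintro ⟨u, hu, rfl⟩
        rw [mem_range] at hu
        have b3 : ((s : ℤ) + 1 + i + u : ℤ) - K - i ≤ j1 := by omega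
        have b4 : j0 ≤ ((s : ℤ) + 1 + i + u : ℤ) - K - i := by omega
        have b5 : (((s : ℤ) + 1 + i + u - K - i : ℤ) : ℝ) ≤ t + H / 2 := by
          rw [← Int.le_floor]; exact b3
        have b6 : t - H / 2 ≤ (((s : ℤ) + 1 + i + u - K - i : ℤ) : ℝ) := by
          rw [← Int.ceil_le]; exact b4
        push_cast at b5 b6
        refine ⟨⟨by omega, ?_⟩, ?_⟩
        · rw [Nat.le_floor_iff (by positivity)]; push_cast; linarith
        · push_cast; linarith
    rw [hset, sum_image (fun a _ b _ hab => by omega)]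
    rfl

lemma psiWindow_bounded (X H : ℝ) :
    ∃ g : ℝ → ℝ, Measurable g ∧ (∃ C, ∀ x, |g x| ≤ C) ∧
      ∀ x, 0 ≤ x + H / 2 → x ≤ X → psiWindow x H = g x := by
  set B : ℕ := ⌊X + H / 2⌋₊ with hB
  refine ⟨fun x => ∑ n ∈ Finset.Icc 1 B, if x - H / 2 ≤ (n : ℝ) ∧ (n : ℝ) ≤ x + H / 2 then
    ArithmeticFunction.vonMangoldt n else 0, ?_, ?_, ?_⟩
  · apply Finset.measurable_sum
    intro n _
    apply Measurable.ite _ measurable_const measurable_const
    have : {x : ℝ | x - H / 2 ≤ (n : ℝ) ∧ (n : ℝ) ≤ x + H / 2} =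
        Set.Icc ((n : ℝ) - H / 2) ((n : ℝ) + H / 2) := by
      ext x
      rw [Set.mem_Icc]
      change (x - H / 2 ≤ (n : ℝ) ∧ (n : ℝ) ≤ x + H / 2) ↔ _
      constructor
      · rintro ⟨h1, h2⟩; constructor <;> linarith
      · rintro ⟨h1, h2⟩; constructor <;> linarith
    rw [this]
    exact measurableSet_Icc
  · refine ⟨∑ n ∈ Finset.Icc 1 B, ArithmeticFunction.vonMangoldt n, ?_⟩
    intro x
    refine (abs_sum_le_sum_abs _ _).trans ?_
    apply sum_le_sum; intro n _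
    have := ArithmeticFunction.vonMangoldt_nonneg (n := n)
    split_ifs
    · rw [abs_of_nonneg this]
    · rw [abs_zero]; exact this
  · intro x hx0 hxX
    unfold psiWindow
    simp only
    rw [← sum_filter]
    apply sum_congr _ (fun _ _ => rfl)
    ext n
    rw [mem_filter, mem_filter, Finset.mem_Icc, Finset.mem_Icc, Nat.le_floor_iff hx0]
    constructor
    · rintro ⟨⟨h1, h2⟩, h3⟩
      refine ⟨⟨h1, ?_⟩, h3, h2⟩
      rw [hB]
      apply Nat.le_floor
      linarith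
    · rintro ⟨⟨h1, _⟩, h3, h2⟩
      exact ⟨⟨h1, h2⟩, h3⟩

lemma sq_integrable (X H a b : ℝ) (hH : 0 ≤ H) (ha : 0 ≤ a) (hab : a ≤ b) (hbX : b ≤ X) :
    IntervalIntegrable (fun x => (psiWindow x H - H) ^ 2) volume a b := by
  obtain ⟨g, hg, ⟨C, hC⟩, hgx⟩ := psiWindow_bounded X H
  have h1 : IntervalIntegrable (fun x => (g x - H) ^ 2) volume a b := by
    rw [intervalIntegrable_iff_integrableOn_Ioc_of_le hab]
    have hm : Measurable (fun x => (g x - H) ^ 2) := (hg.sub measurable_const).pow_const 2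
    refine Measure.integrableOn_of_bounded (M := (C + |H|) ^ 2) (by simp) hm.aestronglyMeasurable ?_
    filter_upwards with x
    rw [norm_pow, norm_eq_abs]
    have h2 : |g x - H| ≤ C + |H| := (abs_sub _ _).trans (by have := hC x; linarith)
    gcongr
  apply h1.congr
  intro x hx
  rw [Set.uIoc_of_le hab] at hx
  simp only
  rw [hgx x (by have := hx.1; linarith) (hx.2.trans hbX)]

/-- the mean square lower bound for `ε ≤ 1/6` -/
theorem meanSquare_lower_big (ε : ℝ) (hε : 0 < ε) (hε6 : ε ≤ 1 / 6) (X : ℝ) (hB : Big ε X) (H : ℝ)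
    (hH1 : 1 ≤ H) (hHX : H ≤ X ^ (1 / 3 - ε)) :
    ε ^ 2 / 10 ^ 9 * H * Real.log X ≤ meanSquare X H := by
  have hB' := hB
  obtain ⟨hX1, _, E1, E2, _⟩ := hB
  have hX0 : 0 < X := lt_of_lt_of_le one_pos hX1
  -- X is much bigger than H
  have hXX : X ^ (1 / 3 - 9 * ε / 16) * X ^ (1 / 3 - 9 * ε / 16) ≤ X := by
    rw [← rpow_add hX0]
    nth_rewrite 2 [← rpow_one X]
    exact rpow_le_rpow_of_exponent_le hX1 (by linarith)
  have hbig : 4 * H * 10 ^ 8 ≤ X := by
    refine le_trans ?_ hXX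
    have : 4 * H ≤ X ^ (1 / 3 - 9 * ε / 16) := by linarith
    gcongr
  set K : ℕ := ⌈H⌉₊ + 1 with hK
  have hK1 : H + 1 ≤ K := by
    rw [hK]; push_cast
    have := Nat.le_ceil H
    linarith
  have hK2 : (K : ℝ) < H + 2 := by
    rw [hK]; push_cast
    have := Nat.ceil_lt_add_one (show 0 ≤ H by linarith)
    linarith
  have hfl : X < (⌊X⌋₊ : ℝ) + 1 := Nat.lt_floor_add_one X
  have hfl2 : (⌊X⌋₊ : ℝ) ≤ X := Nat.floor_le hX0.le
  have hKX : K ≤ ⌊X⌋₊ := by
    have : (K : ℝ) < (⌊X⌋₊ : ℝ) + 1 := by linarith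
    have : K < ⌊X⌋₊ + 1 := by exact_mod_cast this
    omega
  obtain ⟨M, hM⟩ := Nat.exists_eq_add_of_le hKX
  have hMr : (⌊X⌋₊ : ℝ) = K + M := by rw [hM]; push_cast; ring
  set C : ℝ := ε ^ 2 / 10 ^ 9 * H * X * Real.log X with hC
  set F : ℝ → ℝ := fun x => (psiWindow x H - H) ^ 2 with hF
  have hint : ∀ a b : ℝ, 0 ≤ a → a ≤ b → b ≤ X → IntervalIntegrable F volume a b :=
    fun a b ha hab hb => sq_integrable X H a b (by linarith) ha hab hb
  -- pointwise discrete bound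
  have hpt : ∀ t ∈ Set.Icc (0 : ℝ) 1, C ≤ ∑ i ∈ range M, F (K + i + t) := by
    intro t ht
    obtain ⟨h, s, h1, h2, h3, h4⟩ := psiWindow_eq H t hH1 ht.1 ht.2 K hK1
    have h5 : ∑ i ∈ range M, F (K + i + t) = ∑ i ∈ range M, (win h H s i) ^ 2 := by
      apply sum_congr rfl; intro i _
      simp only [hF]
      rw [h4 i]
    rw [h5]
    exact discrete_final ε hε hε6 X hB' H hH1 hHX h s M h1 h2 (by linarith) (by linarith)
      (by linarith)
  -- integrate
  have hstep : ∀ i ∈ range M, ∫ t in (0 : ℝ)..1, F (K + i + t) =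
      ∫ x in ((K + i : ℕ) : ℝ)..((K + (i + 1) : ℕ) : ℝ), F x := by
    intro i _
    rw [intervalIntegral.integral_comp_add_left (fun x => F x) ((K : ℝ) + i)]
    congr 1 <;> push_cast <;> ring
  have hint01 : ∀ i ∈ range M, IntervalIntegrable (fun t => F (K + i + t)) volume 0 1 := by
    intro i hi
    rw [mem_range] at hi
    have h1 : IntervalIntegrable F volume ((K : ℝ) + i + 0) ((K : ℝ) + i + 1) := by
      apply hint
      · positivity
      · linarith
      · have : (i : ℝ) + 1 ≤ M := by exact_mod_cast hi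
        linarith
    have h2 := h1.comp_add_left ((K : ℝ) + i)
    have e1 : (K : ℝ) + i + 0 - (K + i) = 0 := by ring
    have e2 : (K : ℝ) + i + 1 - (K + i) = 1 := by ring
    rw [e1, e2] at h2
    exact h2
  have h1 : C ≤ ∑ i ∈ range M, ∫ t in (0 : ℝ)..1, F (K + i + t) := by
    rw [← intervalIntegral.integral_finsetSum hint01]
    calc C = ∫ t in (0 : ℝ)..1, C := by simp
      _ ≤ _ := by
        apply intervalIntegral.integral_mono_on (by norm_num)
        · exact intervalIntegrable_const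
        · have e : (fun u => ∑ i ∈ range M, F (K + i + u)) =
              ∑ i ∈ range M, fun t => F (K + i + t) := by
            ext u; rw [Finset.sum_apply]
          rw [e]
          exact IntervalIntegrable.sum _ hint01
        · intro t ht; exact hpt t ht
  rw [sum_congr rfl hstep] at h1
  have h2 : ∑ i ∈ range M, ∫ x in ((K + i : ℕ) : ℝ)..((K + (i + 1) : ℕ) : ℝ), F x =
      ∫ x in ((K + 0 : ℕ) : ℝ)..((K + M : ℕ) : ℝ), F x := by
    apply intervalIntegral.sum_integral_adjacent_intervals (a := fun i => ((K + i : ℕ) : ℝ))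
    intro i hi
    apply hint
    · positivity
    · push_cast; linarith
    · have : (i : ℝ) + 1 ≤ M := by exact_mod_cast hi
      push_cast; linarith
  rw [h2] at h1
  have hKM : ((K + M : ℕ) : ℝ) ≤ X := by push_cast; linarith
  have hK0 : (1 : ℝ) ≤ ((K + 0 : ℕ) : ℝ) := by
    push_cast; linarith
  have hKM2 : ((K + 0 : ℕ) : ℝ) ≤ ((K + M : ℕ) : ℝ) := by
    push_cast
    have : (0 : ℝ) ≤ M := by positivity
    linarith
  have hFnn : ∀ x, 0 ≤ F x := fun x => sq_nonneg _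
  have h3 : ∫ x in ((K + 0 : ℕ) : ℝ)..((K + M : ℕ) : ℝ), F x ≤ ∫ x in (1 : ℝ)..X, F x := by
    apply intervalIntegral.integral_mono_interval hK0 hKM2 hKM
    · exact Filter.Eventually.of_forall hFnn
    · exact hint 1 X (by norm_num) hX1 le_rfl
  have h4 : meanSquare X H = (1 / X) * ∫ x in (1 : ℝ)..X, F x := by
    unfold meanSquare
    simp only [hF, sq_abs]
  rw [h4]
  have h5 : C ≤ ∫ x in (1 : ℝ)..X, F x := h1.trans h3
  have h6 : ε ^ 2 / 10 ^ 9 * H * Real.log X = (1 / X) * C := by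
    rw [hC]; field_simp
  rw [h6]
  gcongr

/-- Unconditional lower bound of the right order for the variance of primes in short intervals. -/
theorem meanSquare_lower (ε : ℝ) (hε : 0 < ε) :
    ∃ c > 0, ∃ X0 : ℝ, ∀ X : ℝ, X0 ≤ X → ∀ H : ℝ, 1 ≤ H → H ≤ X ^ (1 / 3 - ε) →
      c * H * Real.log X ≤ meanSquare X H := by
  set δ : ℝ := min ε (1 / 6) with hδ
  have hδ0 : 0 < δ := lt_min hε (by norm_num)
  have hδ6 : δ ≤ 1 / 6 := min_le_right _ _
  obtain ⟨X0, hX0⟩ := eventually_big δ hδ0 hδ6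
  refine ⟨δ ^ 2 / 10 ^ 9, by positivity, X0, ?_⟩
  intro X hX H hH1 hHX
  have hB := hX0 X hX
  refine meanSquare_lower_big δ hδ0 hδ6 X hB H hH1 (hHX.trans ?_)
  apply rpow_le_rpow_of_exponent_le hB.1
  have := min_le_left ε (1 / 6)
  rw [← hδ] at this
  linarith

end Pool.Agent.Lib.MP_2a816b_nt
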