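import Mathlib
import Pool.Agent.Lib.MP_2a816b_nt.Integral

/-!
# From the integral to the discrete sums, sharp form
-/

open Finset Real MeasureTheory

namespace Pool.Agent.Lib.MP_2a816b_nt

/-- the window as a discrete window, with the exact length up to one -/
lemma psiWindow_eq_sharp (H t : ℝ) (hH : 1 ≤ H) (ht0 : 0 ≤ t) (ht1 : t ≤ 1) (K : ℕ)
    (hK : H + 1 ≤ K) :
    ∃ h s : ℕ, H - 1 ≤ h ∧ (h : ℝ) ≤ H + 1 ∧ 1 ≤ h ∧ (s : ℝ) ≤ K + 1 ∧
      ∀ i : ℕ, psiWindow (K + i + t) H - H = win h H s i := by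
  set j0 : ℤ := ⌈t - H / 2⌉ with hj0
  set j1 : ℤ := ⌊t + H / 2⌋ with hj1
  have a1 : (j0 : ℝ) < t - H / 2 + 1 := Int.ceil_lt_add_one _
  have a2 : t - H / 2 ≤ (j0 : ℝ) := Int.le_ceil _
  have a3 : (j1 : ℝ) ≤ t + H / 2 := Int.floor_le _
  have a4 : t + H / 2 < (j1 : ℝ) + 1 := Int.lt_floor_add_one _
  have hh0 : 0 < j1 - j0 + 1 := by
    have : (0 : ℝ) < ((j1 - j0 + 1 : ℤ) : ℝ) := by push_cast; linarith
    exact_mod_cast this
  have hs0 : 0 ≤ (K : ℤ) + j0 - 1 := by
    have : (-1 : ℝ) < (((K : ℤ) + j0 - 1 : ℤ) : ℝ) := by push_cast; linarith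
    have h2 : (-1 : ℤ) < (K : ℤ) + j0 - 1 := by exact_mod_cast this
    omega
  obtain ⟨h, hh⟩ := Int.eq_ofNat_of_zero_le hh0.le
  obtain ⟨s, hs⟩ := Int.eq_ofNat_of_zero_le hs0
  have hhr : (h : ℝ) = (j1 : ℝ) - j0 + 1 := by
    have : ((j1 - j0 + 1 : ℤ) : ℝ) = ((h : ℤ) : ℝ) := by rw [hh]
    push_cast at this
    linarith
  have hsr : (s : ℝ) = (K : ℝ) + j0 - 1 := by
    have : (((K : ℤ) + j0 - 1 : ℤ) : ℝ) = ((s : ℤ) : ℝ) := by rw [hs]
    push_cast at this
    linarith
  have hh1 : 1 ≤ h := by omega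
  refine ⟨h, s, ?_, ?_, hh1, ?_, ?_⟩
  · linarith
  · linarith
  · linarith
  · intro i
    unfold psiWindow win
    congr 1
    have hset : (Finset.Icc 1 ⌊(K : ℝ) + i + t + H / 2⌋₊).filter
        (fun n : ℕ => (K : ℝ) + i + t - H / 2 ≤ (n : ℝ)) =
        (range h).image (fun u => s + 1 + i + u) := by
      ext n
      rw [mem_filter, Finset.mem_Icc, mem_image]
      constructor
      · rintro ⟨⟨_, h2⟩, h3⟩
        rw [Nat.le_floor_iff (by positivity)] at h2
        have b1 : j0 ≤ (n : ℤ) - K - i := by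
          rw [hj0, Int.ceil_le]; push_cast; linarith
        have b2 : (n : ℤ) - K - i ≤ j1 := by
          rw [hj1, Int.le_floor]; push_cast; linarith
        refine ⟨n - (s + 1 + i), ?_, ?_⟩
        · rw [mem_range]; omega
        · omega
      · rintro ⟨u, hu, rfl⟩
        rw [mem_range] at hu
        have b3 : ((s : ℤ) + 1 + i + u : ℤ) - K - i ≤ j1 := by omega
        have b4 : j0 ≤ ((s : ℤ) + 1 + i + u : ℤ) - K - i := by omega
        have b5 : (((s : ℤ) + 1 + i + u - K - i : ℤ) : ℝ) ≤ t + H / 2 := by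
          rw [← Int.le_floor]; exact b3
        have b6 : t - H / 2 ≤ (((s : ℤ) + 1 + i + u - K - i : ℤ) : ℝ) := by
          rw [← Int.ceil_le]; exact b4
        push_cast at b5 b6
        refine ⟨⟨by omega, ?_⟩, ?_⟩
        · rw [Nat.le_floor_iff (by positivity)]; push_cast; linarith
        · push_cast; linarith
    rw [hset, sum_image (fun a _ b _ hab => by omega)]
    rfl

/-- A lower bound for all discrete windows gives a lower bound for the mean square. -/
theorem meanSquare_of_discrete (X H C : ℝ) (hH1 : 1 ≤ H) (hbig : 4 * H + 4 ≤ X)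
    (hpt : ∀ h s M : ℕ, H - 1 ≤ h → (h : ℝ) ≤ H + 1 → 1 ≤ h → (s : ℝ) ≤ H + 3 → (M : ℝ) ≤ X →
      X ≤ M + H + 3 → C ≤ ∑ i ∈ range M, (win h H s i) ^ 2) :
    (1 / X) * C ≤ meanSquare X H := by
  have hX1 : 1 ≤ X := by linarith
  have hX0 : 0 < X := by linarith
  set K : ℕ := ⌈H⌉₊ + 1 with hK
  have hK1 : H + 1 ≤ K := by
    rw [hK]; push_cast
    have := Nat.le_ceil H
    linarith
  have hK2 : (K : ℝ) < H + 2 := by
    rw [hK]; push_cast
    have := Nat.ceil_lt_add_one (show 0 ≤ H by linarith)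
    linarith
  have hfl : X < (⌊X⌋₊ : ℝ) + 1 := Nat.lt_floor_add_one X
  have hfl2 : (⌊X⌋₊ : ℝ) ≤ X := Nat.floor_le hX0.le
  have hKX : K ≤ ⌊X⌋₊ := by
    have : (K : ℝ) < (⌊X⌋₊ : ℝ) + 1 := by linarith
    have : K < ⌊X⌋₊ + 1 := by exact_mod_cast this
    omega
  obtain ⟨M, hM⟩ := Nat.exists_eq_add_of_le hKX
  have hMr : (⌊X⌋₊ : ℝ) = K + M := by rw [hM]; push_cast; ring
  set F : ℝ → ℝ := fun x => (psiWindow x H - H) ^ 2 with hF
  have hint : ∀ a b : ℝ, 0 ≤ a → a ≤ b → b ≤ X → IntervalIntegrable F volume a b :=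
    fun a b ha hab hb => sq_integrable X H a b (by linarith) ha hab hb
  -- pointwise discrete bound
  have hpt' : ∀ t ∈ Set.Icc (0 : ℝ) 1, C ≤ ∑ i ∈ range M, F (K + i + t) := by
    intro t ht
    obtain ⟨h, s, h1, h2, h0, h3, h4⟩ := psiWindow_eq_sharp H t hH1 ht.1 ht.2 K hK1
    have h5 : ∑ i ∈ range M, F (K + i + t) = ∑ i ∈ range M, (win h H s i) ^ 2 := by
      apply sum_congr rfl; intro i _
      simp only [hF]
      rw [h4 i]
    rw [h5]
    exact hpt h s M h1 h2 h0 (by linarith) (by linarith) (by linarith)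
  -- integrate
  have hstep : ∀ i ∈ range M, ∫ t in (0 : ℝ)..1, F (K + i + t) =
      ∫ x in ((K + i : ℕ) : ℝ)..((K + (i + 1) : ℕ) : ℝ), F x := by
    intro i _
    rw [intervalIntegral.integral_comp_add_left (fun x => F x) ((K : ℝ) + i)]
    congr 1 <;> push_cast <;> ring
  have hint01 : ∀ i ∈ range M, IntervalIntegrable (fun t => F (K + i + t)) volume 0 1 := by
    intro i hi
    rw [mem_range] at hi
    have h1 : IntervalIntegrable F volume ((K : ℝ) + i + 0) ((K : ℝ) + i + 1) := by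
      apply hint
      · positivity
      · linarith
      · have : (i : ℝ) + 1 ≤ M := by exact_mod_cast hi
        linarith
    have h2 := h1.comp_add_left ((K : ℝ) + i)
    have e1 : (K : ℝ) + i + 0 - (K + i) = 0 := by ring
    have e2 : (K : ℝ) + i + 1 - (K + i) = 1 := by ring
    rw [e1, e2] at h2
    exact h2
  have h1 : C ≤ ∑ i ∈ range M, ∫ t in (0 : ℝ)..1, F (K + i + t) := by
    rw [← intervalIntegral.integral_finsetSum hint01]
    calc C = ∫ t in (0 : ℝ)..1, C := by simp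
      _ ≤ _ := by
        apply intervalIntegral.integral_mono_on (by norm_num)
        · exact intervalIntegrable_const
        · have e : (fun u => ∑ i ∈ range M, F (K + i + u)) =
              ∑ i ∈ range M, fun t => F (K + i + t) := by
            ext u; rw [Finset.sum_apply]
          rw [e]
          exact IntervalIntegrable.sum _ hint01
        · intro t ht; exact hpt' t ht
  rw [sum_congr rfl hstep] at h1
  have h2 : ∑ i ∈ range M, ∫ x in ((K + i : ℕ) : ℝ)..((K + (i + 1) : ℕ) : ℝ), F x =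
      ∫ x in ((K + 0 : ℕ) : ℝ)..((K + M : ℕ) : ℝ), F x := by
    apply intervalIntegral.sum_integral_adjacent_intervals (a := fun i => ((K + i : ℕ) : ℝ))
    intro i hi
    apply hint
    · positivity
    · push_cast; linarith
    · have : (i : ℝ) + 1 ≤ M := by exact_mod_cast hi
      push_cast; linarith
  rw [h2] at h1
  have hKM : ((K + M : ℕ) : ℝ) ≤ X := by push_cast; linarith
  have hK0 : (1 : ℝ) ≤ ((K + 0 : ℕ) : ℝ) := by
    push_cast; linarith
  have hKM2 : ((K + 0 : ℕ) : ℝ) ≤ ((K + M : ℕ) : ℝ) := by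
    push_cast
    have : (0 : ℝ) ≤ M := by positivity
    linarith
  have hFnn : ∀ x, 0 ≤ F x := fun x => sq_nonneg _
  have h3 : ∫ x in ((K + 0 : ℕ) : ℝ)..((K + M : ℕ) : ℝ), F x ≤ ∫ x in (1 : ℝ)..X, F x := by
    apply intervalIntegral.integral_mono_interval hK0 hKM2 hKM
    · exact Filter.Eventually.of_forall hFnn
    · exact hint 1 X (by norm_num) hX1 le_rfl
  have h4 : meanSquare X H = (1 / X) * ∫ x in (1 : ℝ)..X, F x := by
    unfold meanSquare
    simp only [hF, sq_abs]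
  rw [h4]
  have h5 : C ≤ ∫ x in (1 : ℝ)..X, F x := h1.trans h3
  gcongr

/-- If there are too few primes on average the variance is large. -/
lemma few_primes (X H ε₁ : ℝ) (hε0 : 0 < ε₁) (hε1 : ε₁ ≤ 1) (hH1 : 1 ≤ H) (h s M : ℕ)
    (h2 : (h : ℝ) ≤ H + 1) (h3 : (s : ℝ) ≤ H + 3) (h4 : (M : ℝ) ≤ X) (h5 : X ≤ M + H + 3)
    (hM0 : 0 < M) (Lg : ℝ) (hLg : ∀ n, n ≤ s + M + h → Real.log n ≤ Lg) (hLg0 : 0 ≤ Lg)
    (hbig : (H + 1) * (H + 3 + (H + 1) * Lg) + (H + 3) * H + X ≤ ε₁ / 2 * (H * X))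
    (hψ : ∑ n ∈ Ioc 0 (s + M), vM n ≤ (1 - ε₁) * (s + M)) :
    ε₁ ^ 2 / 4 * (H ^ 2 * X) ≤ ∑ i ∈ range M, (win h H s i) ^ 2 := by
  have hH0 : 0 < H := by linarith
  have hMr : (0 : ℝ) < M := by exact_mod_cast hM0
  have hX0 : 0 < X := by linarith
  -- the sum of the windows
  have hsum : ∑ i ∈ range M, win h H s i ≤ -(ε₁ / 2 * (H * X)) := by
    have e1 : ∑ i ∈ range M, win h H s i =
        ∑ u ∈ range h, ∑ i ∈ range M, vM (s + 1 + i + u) - M * H := by
      unfold win
      rw [sum_sub_distrib, sum_comm, sum_const, card_range, nsmul_eq_mul]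
    have e2 : ∀ u ∈ range h, ∑ i ∈ range M, vM (s + 1 + i + u) ≤
        ∑ n ∈ Ioc 0 (s + M), vM n + h * Lg := by
      intro u hu
      rw [mem_range] at hu
      have e3 : ∑ i ∈ range M, vM (s + 1 + i + u) = ∑ n ∈ Ioc (s + u) (s + u + M), vM n := by
        have e0 : Ioc (s + u) (s + u + M) = Ico (s + u + 1) (s + u + M + 1) := by
          ext n; rw [mem_Ioc, mem_Ico]; omega
        rw [e0, sum_Ico_eq_sum_range]
        have : s + u + M + 1 - (s + u + 1) = M := by omega
        rw [this]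
        apply sum_congr rfl; intro i _
        congr 1
        omega
      have e4 : Ioc (s + u) (s + u + M) ⊆ Ioc 0 (s + M) ∪ Ioc (s + M) (s + M + h) := by
        intro n hn
        rw [mem_Ioc] at hn
        rw [mem_union, mem_Ioc, mem_Ioc]
        omega
      have hdisj : Disjoint (Ioc 0 (s + M)) (Ioc (s + M) (s + M + h)) := by
        rw [disjoint_left]
        intro n hn hn'
        rw [mem_Ioc] at hn hn'
        omega
      rw [e3]
      calc ∑ n ∈ Ioc (s + u) (s + u + M), vM n ≤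
            ∑ n ∈ Ioc 0 (s + M) ∪ Ioc (s + M) (s + M + h), vM n :=
            sum_le_sum_of_subset_of_nonneg e4 (fun n _ _ => vM_nonneg n)
        _ = ∑ n ∈ Ioc 0 (s + M), vM n + ∑ n ∈ Ioc (s + M) (s + M + h), vM n :=
            sum_union hdisj
        _ ≤ _ := by
            gcongr
            calc ∑ n ∈ Ioc (s + M) (s + M + h), vM n ≤ ∑ n ∈ Ioc (s + M) (s + M + h), Lg := by
                  apply sum_le_sum; intro n hn
                  rw [mem_Ioc] at hn
                  exact (vM_le_log n).trans (hLg n (by omega))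
              _ = h * Lg := by
                  rw [sum_const, Nat.card_Ioc, nsmul_eq_mul]
                  congr 2
                  omega
    rw [e1]
    have e5 : ∑ u ∈ range h, ∑ i ∈ range M, vM (s + 1 + i + u) ≤
        h * ((1 - ε₁) * (s + M) + h * Lg) := by
      calc _ ≤ ∑ u ∈ range h, ((1 - ε₁) * (s + M) + h * Lg) := by
            apply sum_le_sum; intro u hu
            have := e2 u hu
            linarith
        _ = _ := by rw [sum_const, card_range, nsmul_eq_mul]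
    have e6 : (h : ℝ) * ((1 - ε₁) * (s + M) + h * Lg) ≤
        (H + 1) * ((1 - ε₁) * M + (H + 3 + (H + 1) * Lg)) := by
      have hs : (1 - ε₁) * (s : ℝ) ≤ H + 3 := by
        have : (0 : ℝ) ≤ s := Nat.cast_nonneg _
        nlinarith
      have hh : (h : ℝ) * Lg ≤ (H + 1) * Lg := by gcongr
      have hpos : 0 ≤ (1 - ε₁) * (s + M) + h * Lg := by
        have : 0 ≤ 1 - ε₁ := by linarith
        positivity
      calc (h : ℝ) * ((1 - ε₁) * (s + M) + h * Lg) ≤
            (H + 1) * ((1 - ε₁) * (s + M) + h * Lg) := by gcongr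
        _ ≤ (H + 1) * ((1 - ε₁) * M + (H + 3 + (H + 1) * Lg)) := by
            apply mul_le_mul_of_nonneg_left _ (by positivity)
            have : (1 - ε₁) * ((s : ℝ) + M) = (1 - ε₁) * s + (1 - ε₁) * M := by ring
            rw [this]
            linarith
    have hHM : H * X ≤ H * M + (H + 3) * H := by nlinarith
    have h6 : (1 - ε₁) * (M : ℝ) ≤ X := by nlinarith
    have h7 : ε₁ * (H * X) ≤ ε₁ * (H * M) + (H + 3) * H := by
      have : ε₁ * (H * X) ≤ ε₁ * (H * M + (H + 3) * H) := by gcongr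
      have h8 : 0 ≤ (H + 3) * H := by positivity
      nlinarith
    nlinarith
  have hcs : (∑ i ∈ range M, win h H s i) ^ 2 ≤ M * ∑ i ∈ range M, (win h H s i) ^ 2 := by
    have := sq_sum_le_card_mul_sum_sq (s := range M) (f := fun i => win h H s i)
    rw [card_range] at this
    exact this
  have hsq : (ε₁ / 2 * (H * X)) ^ 2 ≤ (∑ i ∈ range M, win h H s i) ^ 2 := by
    have h0 : 0 ≤ ε₁ / 2 * (H * X) := by positivity
    nlinarith
  have hfin : (ε₁ / 2 * (H * X)) ^ 2 ≤ X * ∑ i ∈ range M, (win h H s i) ^ 2 := by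
    have h0 : 0 ≤ ∑ i ∈ range M, (win h H s i) ^ 2 := sum_nonneg fun _ _ => sq_nonneg _
    calc _ ≤ M * ∑ i ∈ range M, (win h H s i) ^ 2 := hsq.trans hcs
      _ ≤ _ := by gcongr
  have e : (ε₁ / 2 * (H * X)) ^ 2 = X * (ε₁ ^ 2 / 4 * (H ^ 2 * X)) := by ring
  rw [e] at hfin
  exact le_of_mul_le_mul_left hfin hX0

end Pool.Agent.Lib.MP_2a816b_nt
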