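import Mathlib

/-!
# Small numerical facts, kept out of the large contexts
-/

open Real

namespace Pool.Agent.Lib.MP_2a816b_nt

lemma nl1 {e D0 d0 S : ℝ} (he : 0 < e) (h4 : d0 * e ≤ 2 * S) (h5 : D0 ≤ d0) :
    e * D0 ≤ 2 * S := by nlinarith

lemma nl2 {S e : ℝ} (hS : 0 < S) (he : 1 ≤ e) : 2 * S ≤ 2 * S * e := by nlinarith

lemma nl3 {S e : ℝ} (he : 1 ≤ e) : (2 * S) ^ 2 * e ≤ 4 * S ^ 2 * e ^ 2 := by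
  have he0 : 0 ≤ e := by linarith
  have h1 : 0 ≤ 4 * S ^ 2 * e * (e - 1) := by
    apply mul_nonneg (mul_nonneg (by positivity) he0) (by linarith)
  nlinarith

lemma nl4 {e : ℝ} (he : 1 ≤ e) : e ≤ e * e := by nlinarith

lemma nl5 {S R w : ℝ} (hR : 1 ≤ R) (h0 : 0 ≤ S * w) : 4 * S * w ≤ S * (4 * R * w) := by nlinarith

lemma nl6 {T u c1 c0 s : ℝ} (h1 : T ≤ u) (h2 : u ≤ (c1 - c0) * s + 2) (h0 : 0 ≤ c0 * s) :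
    T ≤ c1 * s + 2 := by nlinarith

lemma nl7 {c1 A S : ℝ} (h1 : 2 ≤ c1 * A) (h2 : A ≤ 2 * S) (h0 : 0 ≤ c1) : 1 ≤ c1 * S := by
  nlinarith

lemma nl8 {c1 r S : ℝ} (h1 : 1 ≤ c1 * S) (h2 : 1 ≤ r) : 1 ≤ c1 * r * S := by nlinarith

lemma nl9 {W U u : ℝ} (h1 : U ≤ 2 * u) (h0 : 0 ≤ W) : W * 2 * U ≤ 4 * W * u := by nlinarith

lemma nl10 {u U N : ℝ} (h1 : u * U ≤ N) (hN : 0 < N) : 2 * u * U ≤ 4 * N := by nlinarith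

lemma nl11 {B : ℝ} (h : 2 ≤ B) : 2 ≤ B ^ 2 := by nlinarith

lemma nl12 {lam m : ℝ} (h1 : 3 * lam * m ≤ 1) (hm : 1 ≤ m) (hl : 0 < lam) : lam ≤ 1 / 3 := by
  nlinarith

lemma nl13 {lam m i x : ℝ} (h1 : 3 * lam * m ≤ 1) (him : i ≤ m) (hl : 0 < lam)
    (h2 : i * x ≤ i * (1 + 2 * lam)) : 0 ≤ i + 1 - i * x := by nlinarith

lemma nl14 {lam m i : ℝ} (h1 : 3 * lam * m ≤ 1) (him : i ≤ m) (hl : 0 < lam) (hi : 0 ≤ i) :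
    0 ≤ 1 - 2 * lam * i := by nlinarith

lemma nl15 {x y lam : ℝ} (g5 : -lam + 1 ≤ y) (g6 : x * y = 1) (g7 : 0 < x) :
    x * (1 - lam) ≤ 1 := by nlinarith

lemma nl16 {lam m i : ℝ} (h1 : lam * i ≤ lam * m) (h2 : lam ≤ lam * m) (h3 : 0 ≤ lam * i * lam) :
    1 - 3 * lam * m ≤ (1 - 2 * lam * i) * (1 - lam) := by nlinarith

lemma nl17 {k w : ℝ} (h7 : 1 ≤ w) (h8 : 0 ≤ k) : k ≤ k * w := by nlinarith

lemma nl18 {κ y : ℝ} (h1 : 0 ≤ κ * y) : 1 - (κ + y) ≤ (1 - κ) * (1 - y) := by nlinarith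

lemma nl19 {l A i : ℝ} (h2 : l ≤ A) (hl : 0 < l) (hi : 1 ≤ i) : 2 * l ≤ (i + 1) * A := by
  nlinarith

lemma nl20 {c : ℝ} (hc : 1 ≤ c) : √c ≤ c := by
  rw [Real.sqrt_le_left (by linarith)]
  nlinarith

end Pool.Agent.Lib.MP_2a816b_nt
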