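import Mathlib

/-!
# Numerical lemmas for the choice of the parameters
-/

open Real

namespace Pool.Agent.Lib.MP_2a816b_nt

lemma pw {X c ν A B : ℝ} (hX : 1 ≤ X) (hc : c ≤ X ^ ν) (h : A + ν ≤ B) : c * X ^ A ≤ X ^ B := by
  have hX0 : 0 < X := by linarith
  calc c * X ^ A ≤ X ^ ν * X ^ A := by gcongr
    _ = X ^ (ν + A) := (rpow_add hX0 _ _).symm
    _ ≤ X ^ B := rpow_le_rpow_of_exponent_le hX (by linarith)

lemma sqrt_pw (X a : ℝ) (hX : 0 ≤ X) : √(X ^ a) = X ^ (a / 2) := by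
  rw [Real.sqrt_eq_rpow, ← rpow_mul hX]
  congr 1
  ring

lemma sqrt_four_pw (X a : ℝ) (hX : 0 ≤ X) : √(4 * X ^ a) = 2 * X ^ (a / 2) := by
  rw [Real.sqrt_mul (by norm_num), sqrt_pw X a hX]
  congr 1
  rw [show (4 : ℝ) = 2 ^ 2 by norm_num, Real.sqrt_sq (by norm_num)]

lemma w_num (X L h s R0 Q : ℝ) (θ a2 β : ℝ) (hX : 1 ≤ X)
    (hL : 0 ≤ L) (hh0 : 0 ≤ h) (hh : h ≤ 2 * X ^ θ) (hs0 : 0 ≤ s) (hs : s ≤ 4 * X ^ θ)
    (hR0 : 0 ≤ R0) (hR1 : R0 ≤ X ^ a2) (hQ0 : 0 ≤ Q) (hQ : Q ≤ X ^ β) :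
    (R0 * Q) ^ 2 * (h * ((s + 2 * h) * L) + X ^ θ * (R0 * Q)) ^ 2 ≤
      512 * (1 + L) ^ 2 * (X ^ (2 * a2 + 2 * β + 4 * θ) + X ^ (4 * a2 + 4 * β + 2 * θ)) := by
  have hX0 : 0 < X := by linarith
  set A : ℝ := 1 + L with hA
  have hA1 : 1 ≤ A := by linarith
  have hLA : L ≤ A := by linarith
  have h1 : R0 * Q ≤ X ^ (a2 + β) := by
    rw [rpow_add hX0]; gcongr
  have h2 : h * ((s + 2 * h) * L) ≤ 16 * A * X ^ (2 * θ) := by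
    have e1 : X ^ (2 * θ) = X ^ θ * X ^ θ := by rw [← rpow_add hX0]; congr 1; ring
    rw [e1]
    calc _ ≤ (2 * X ^ θ) * ((4 * X ^ θ + 2 * (2 * X ^ θ)) * A) := by gcongr
      _ = _ := by ring
  have h3 : X ^ θ * (R0 * Q) ≤ X ^ (θ + (a2 + β)) := by
    rw [rpow_add hX0 θ]; gcongr
  have h0 : 0 ≤ R0 * Q := by positivity
  have h4 : (h * ((s + 2 * h) * L) + X ^ θ * (R0 * Q)) ^ 2 ≤
      512 * A ^ 2 * X ^ (4 * θ) + 2 * X ^ (2 * θ + 2 * (a2 + β)) := by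
    have e1 : X ^ (4 * θ) = (X ^ (2 * θ)) ^ 2 := by
      rw [← rpow_natCast, ← rpow_mul hX0.le]; congr 1; push_cast; ring
    have e2 : X ^ (2 * θ + 2 * (a2 + β)) = (X ^ (θ + (a2 + β))) ^ 2 := by
      rw [← rpow_natCast, ← rpow_mul hX0.le]; congr 1; push_cast; ring
    rw [e1, e2]
    calc _ ≤ (16 * A * X ^ (2 * θ) + X ^ (θ + (a2 + β))) ^ 2 := by gcongr
      _ ≤ 2 * (16 * A * X ^ (2 * θ)) ^ 2 + 2 * (X ^ (θ + (a2 + β))) ^ 2 := by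
          nlinarith [sq_nonneg (16 * A * X ^ (2 * θ) - X ^ (θ + (a2 + β)))]
      _ = _ := by ring
  have e3 : (X ^ (a2 + β)) ^ 2 = X ^ (2 * (a2 + β)) := by
    rw [← rpow_natCast, ← rpow_mul hX0.le]; congr 1; push_cast; ring
  calc _ ≤ (X ^ (a2 + β)) ^ 2 * (512 * A ^ 2 * X ^ (4 * θ) + 2 * X ^ (2 * θ + 2 * (a2 + β))) := by
        gcongr
    _ = 512 * A ^ 2 * (X ^ (2 * (a2 + β)) * X ^ (4 * θ)) +
        2 * (X ^ (2 * (a2 + β)) * X ^ (2 * θ + 2 * (a2 + β))) := by rw [e3]; ring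
    _ = 512 * A ^ 2 * X ^ (2 * a2 + 2 * β + 4 * θ) + 2 * X ^ (4 * a2 + 4 * β + 2 * θ) := by
        rw [← rpow_add hX0, ← rpow_add hX0]
        congr 3 <;> ring
    _ ≤ 512 * A ^ 2 * X ^ (2 * a2 + 2 * β + 4 * θ) +
        512 * A ^ 2 * X ^ (4 * a2 + 4 * β + 2 * θ) := by
        gcongr
        nlinarith
    _ = _ := by ring

/-- combination of the main inequality and the error bounds -/
lemma final_combine (ε₁ κ H h P X G g ell T S E : ℝ) (h0 : 0 < ε₁) (h1 : ε₁ ≤ 1 / 10)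
    (hκ : κ ≤ ε₁) (hH : 0 < H) (hX : 0 < X) (hell : 0 < ell)
    (hh : (1 - ε₁) * H ≤ h) (hP : (1 - 2 * ε₁) * X ≤ P) (hT : T ≤ (1 + ε₁) * X)
    (hG : g * ell ≤ G) (hg0 : 0 ≤ g) (hg1 : g ≤ 1) (hE : E ≤ ε₁ * (H * X ^ 2 * ell)) (hS : 0 ≤ S)
    (hmain : (1 - ε₁) * (h * (1 - κ) * P ^ 2 * G) ≤ T * S + E) :
    (g - 10 * ε₁) * (H * X * ell) ≤ S := by
  have hε1 : 0 < 1 - ε₁ := by linarith
  have hε2 : 0 < 1 - 2 * ε₁ := by linarith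
  have hh0 : 0 ≤ h := le_trans (by positivity) hh
  have e1 : (1 - ε₁) * (((1 - ε₁) * H) * (1 - ε₁) * ((1 - 2 * ε₁) * X) ^ 2 * (g * ell)) ≤
      (1 - ε₁) * (h * (1 - κ) * P ^ 2 * G) := by
    have : 1 - ε₁ ≤ 1 - κ := by linarith
    have hκ0 : 0 ≤ 1 - κ := by linarith
    gcongr
  have e2 : 1 - 7 * ε₁ ≤ (1 - ε₁) ^ 3 * (1 - 2 * ε₁) ^ 2 := by
    have h3 : (1 - ε₁) ^ 3 = 1 - 3 * ε₁ + 3 * ε₁ ^ 2 - ε₁ ^ 3 := by ring
    have h4 : 1 - 3 * ε₁ ≤ (1 - ε₁) ^ 3 := by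
      rw [h3]
      have : 0 ≤ ε₁ ^ 2 * (3 - ε₁) := by
        apply mul_nonneg (by positivity) (by linarith)
      nlinarith
    have h5 : 1 - 4 * ε₁ ≤ (1 - 2 * ε₁) ^ 2 := by nlinarith [sq_nonneg ε₁]
    calc 1 - 7 * ε₁ ≤ (1 - 3 * ε₁) * (1 - 4 * ε₁) := by nlinarith [sq_nonneg ε₁]
      _ ≤ (1 - ε₁) ^ 3 * (1 - 2 * ε₁) ^ 2 := by
        apply mul_le_mul h4 h5 (by linarith) (by positivity)
  have e3 : (1 - 7 * ε₁) * (H * X ^ 2 * (g * ell)) ≤ T * S + E := by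
    calc _ ≤ ((1 - ε₁) ^ 3 * (1 - 2 * ε₁) ^ 2) * (H * X ^ 2 * (g * ell)) := by gcongr
      _ = (1 - ε₁) * (((1 - ε₁) * H) * (1 - ε₁) * ((1 - 2 * ε₁) * X) ^ 2 * (g * ell)) := by ring
      _ ≤ _ := e1.trans hmain
  have e4 : T * S ≤ (1 + ε₁) * X * S := by gcongr
  have e5 : X * ((1 - 7 * ε₁) * g * (H * X * ell)) ≤ X * ((1 + ε₁) * S + ε₁ * (H * X * ell)) := by
    calc _ = (1 - 7 * ε₁) * (H * X ^ 2 * (g * ell)) := by ring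
      _ ≤ T * S + E := e3
      _ ≤ (1 + ε₁) * X * S + ε₁ * (H * X ^ 2 * ell) := add_le_add e4 hE
      _ = _ := by ring
  have e6 := le_of_mul_le_mul_left e5 hX
  set W := H * X * ell with hW
  have hW0 : 0 < W := by positivity
  by_cases hneg : g - 8 * ε₁ ≤ 0
  · have : (g - 10 * ε₁) * W ≤ 0 := by
      apply mul_nonpos_of_nonpos_of_nonneg _ hW0.le
      linarith
    linarith
  · push Not at hneg
    have e7 : (g - 8 * ε₁) * W ≤ (1 + ε₁) * S := by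
      have : ε₁ * g * W ≤ ε₁ * 1 * W := by gcongr
      nlinarith
    have e8 : (1 + ε₁) * ((g - 10 * ε₁) * W) ≤ (g - 8 * ε₁) * W := by
      have h9 : (1 + ε₁) * (g - 10 * ε₁) ≤ g - 8 * ε₁ := by nlinarith [sq_nonneg ε₁]
      calc _ = ((1 + ε₁) * (g - 10 * ε₁)) * W := by ring
        _ ≤ _ := by gcongr
    have h1ε : 0 < 1 + ε₁ := by linarith
    exact le_of_mul_le_mul_left (e8.trans e7) h1ε

end Pool.Agent.Lib.MP_2a816b_nt
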