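import Mathlib
import Pool.Agent.Lib.MP_2a816b_nt.Basic0
import Pool.Agent.Lib.MP_2a816b_nt.Nl
import Pool.Agent.Lib.MP_2a816b_nt.Num1

/-!
# The parameters for the full range
-/

open Finset Real Filter

namespace Pool.Agent.Lib.MP_2a816b_nt

lemma ev_pow2 (C a b : ℝ) (k : ℕ) (hab : a < b) :
    ∀ᶠ X : ℝ in atTop, C * (Real.log X) ^ k * X ^ a ≤ X ^ b := by
  have h := isLittleO_log_rpow_rpow_atTop (s := b - a) (k : ℝ) (sub_pos.2 hab)
  have h2 := h.bound (c := 1 / (|C| + 1)) (by positivity)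
  filter_upwards [h2, eventually_ge_atTop (1 : ℝ)] with X hX hX1
  have hX0 : 0 < X := by linarith
  have hlog : 0 ≤ Real.log X := Real.log_nonneg hX1
  rw [norm_of_nonneg (rpow_nonneg hlog _), norm_of_nonneg (rpow_nonneg hX0.le _),
    rpow_natCast] at hX
  have h3 : X ^ b = X ^ (b - a) * X ^ a := by rw [← rpow_add hX0]; congr 1; ring
  rw [h3]
  apply mul_le_mul_of_nonneg_right _ (by positivity)
  calc C * Real.log X ^ k ≤ (|C| + 1) * Real.log X ^ k := by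
        gcongr
        have := le_abs_self C
        linarith
    _ ≤ (|C| + 1) * (1 / (|C| + 1) * X ^ (b - a)) := by gcongr
    _ = X ^ (b - a) := by
        have : |C| + 1 ≠ 0 := by positivity
        field_simp

lemma rough_card' (z m Q k : ℕ) (hm : 0 < m) (hmQ : m ≤ Q) (hz : ∀ p ∈ m.primeFactors, z < p)
    (hQ : Q < (z + 1) ^ (k + 1)) : m.primeFactors.card ≤ k := by
  by_contra hc
  push Not at hc
  have h1 : (z + 1) ^ m.primeFactors.card ≤ ∏ p ∈ m.primeFactors, p := by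
    rw [← prod_const]
    exact prod_le_prod' fun p hp => hz p hp
  have h2 : ∏ p ∈ m.primeFactors, p ≤ m := Nat.le_of_dvd hm (Nat.prod_primeFactors_dvd m)
  have h3 : (z + 1) ^ (k + 1) ≤ (z + 1) ^ m.primeFactors.card :=
    Nat.pow_le_pow_right (by omega) hc
  omega

/-- the lower bound for the density -/
noncomputable def Gd (z R0 M1 Q : ℕ) : ℝ :=
  Real.log Q - Real.log (M1 * R0) - 1 - (2 * Real.log z + 4) / Real.log R0 * (Real.log Q + 1)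
    - 2 / ((z : ℝ) + 1) * (Real.log Q + 1)

/-- integer part of a power -/
noncomputable def fl (X a : ℝ) : ℕ := ⌊X ^ a⌋₊

lemma fl_le (X a : ℝ) (hX : 0 ≤ X) : (fl X a : ℝ) ≤ X ^ a := Nat.floor_le (by positivity)

lemma fl_pos (X a : ℝ) (hX : 1 ≤ X) (ha : 0 ≤ a) : 1 ≤ fl X a := by
  unfold fl
  exact Nat.le_floor (by simpa using one_le_rpow hX ha)

lemma fl_ge (X a : ℝ) (hX : 1 ≤ X) (ha : 0 ≤ a) : X ^ a / 2 ≤ fl X a := by
  have h1 : (1 : ℝ) ≤ fl X a := by exact_mod_cast fl_pos X a hX ha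
  have h2 : X ^ a < fl X a + 1 := Nat.lt_floor_add_one _
  linarith

lemma fl_mono (X a b : ℝ) (hX : 1 ≤ X) (hab : a ≤ b) : fl X a ≤ fl X b :=
  Nat.floor_le_floor (rpow_le_rpow_of_exponent_le hX hab)

/-- the bound for the number of prime factors -/
noncomputable def kk (ε : ℝ) : ℕ := ⌈64000 / ε ^ 2⌉₊

/-- the constant -/
noncomputable def Cc (ε Cτ : ℝ) : ℝ := 10 ^ 15 * 16 ^ kk ε * (kk ε + 1) * Cτ / ε ^ 3

/-- the eventual inequalities -/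
def Bg (ε Cτ X : ℝ) : Prop :=
  1 ≤ X ∧ 10 ^ 9 / ε ^ 3 ≤ Real.log X ∧ Cc ε Cτ * Real.log X ^ 10 ≤ X ^ (ε ^ 2 / 256000)

lemma ev_Bg (ε Cτ : ℝ) (hε : 0 < ε) : ∃ X0 : ℝ, ∀ X, X0 ≤ X → Bg ε Cτ X := by
  rw [← eventually_atTop]
  have E1 := ev_pow2 (Cc ε Cτ) 0 (ε ^ 2 / 256000) 10 (by positivity)
  filter_upwards [E1, eventually_ge_atTop (Real.exp (10 ^ 9 / ε ^ 3)),
    eventually_ge_atTop (1 : ℝ)] with X F1 F2 F3
  have F2' : 10 ^ 9 / ε ^ 3 ≤ Real.log X := by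
    have := Real.log_le_log (Real.exp_pos _) F2
    rwa [Real.log_exp] at this
  rw [rpow_zero, mul_one] at F1
  exact ⟨F3, F2', F1⟩

lemma Bg_const {ε Cτ X c0 : ℝ} (hB : Bg ε Cτ X)
    (h : c0 ≤ Cc ε Cτ * Real.log X ^ 10) : c0 ≤ X ^ (ε ^ 2 / 256000) := h.trans hB.2.2

/-- the basic inequality between constants -/
lemma Cc_ge (ε Cτ ell : ℝ) (hε : 0 < ε) (hε1 : ε ≤ 1 / 12) (hCτ : 1 ≤ Cτ) (hell : 1 ≤ ell)
    (c0 : ℝ) (j : ℕ) (hj : j ≤ 10)
    (h : c0 ≤ 10 ^ 15 * 16 ^ kk ε * (kk ε + 1) * Cτ / ε ^ 3 * ell ^ j) :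
    c0 ≤ Cc ε Cτ * ell ^ 10 := by
  refine h.trans ?_
  unfold Cc
  gcongr

lemma Gd_ge (ε X θ β : ℝ) (hε : 0 < ε) (hε1 : ε ≤ 1 / 12) (hX : 1 ≤ X)
    (hell : 10 ^ 9 / ε ^ 3 ≤ Real.log X)
    (hz : 2 * Real.log X ≤ X ^ (ε ^ 2 / 64000)) (hθ0 : 0 ≤ θ)
    (hβ0 : 0 ≤ β) (hβ1 : β ≤ 1 / 2) :
    (β - θ - ε / 7) * Real.log X ≤
      Gd (fl X (ε ^ 2 / 64000)) (fl X (ε / 1000)) (fl X (θ + ε / 16)) (fl X β) := by
  have hX0 : 0 < X := by linarith
  set ell := Real.log X with hl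
  have hε3 : 0 < ε ^ 3 := by positivity
  have hε31 : ε ^ 3 ≤ 1 := pow_le_one₀ hε.le (by linarith)
  have hell9 : 10 ^ 9 ≤ ell := by
    refine le_trans ?_ hell
    rw [le_div_iff₀ hε3]
    nlinarith
  have hell1 : 1 ≤ ell := by linarith
  -- logarithms
  have l2 : Real.log 2 ≤ 1 := by
    have := Real.log_two_lt_d9
    linarith
  have hlog : ∀ a, Real.log (X ^ a) = a * ell := fun a => Real.log_rpow hX0 a
  have hlow : ∀ a, 0 ≤ a → a * ell - 1 ≤ Real.log (fl X a) := by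
    intro a ha
    have h1 := fl_ge X a hX ha
    have h2 : Real.log (X ^ a / 2) ≤ Real.log (fl X a) := Real.log_le_log (by positivity) h1
    rw [Real.log_div (by positivity) (by norm_num), hlog] at h2
    linarith
  have hup : ∀ a, 0 ≤ a → Real.log (fl X a) ≤ a * ell := by
    intro a ha
    have h1 := fl_le X a hX0.le
    have h2 : (0 : ℝ) < fl X a := by exact_mod_cast fl_pos X a hX ha
    have h3 := Real.log_le_log h2 h1
    rwa [hlog] at h3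
  have hnn : ∀ a, 0 ≤ a → 0 ≤ Real.log (fl X a) := by
    intro a ha
    apply Real.log_nonneg
    exact_mod_cast fl_pos X a hX ha
  set z := fl X (ε ^ 2 / 64000) with hz'
  set R0 := fl X (ε / 1000) with hR0
  set M1 := fl X (θ + ε / 16) with hM1
  set Q := fl X β with hQ
  have hM1p : (0 : ℝ) < M1 := by exact_mod_cast fl_pos X (θ + ε / 16) hX (by positivity)
  have hR0p : (0 : ℝ) < R0 := by exact_mod_cast fl_pos X (ε / 1000) hX (by positivity)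
  have b1 := hlow β hβ0
  have b2 := hup β hβ0
  have b3 := hup (θ + ε / 16) (by positivity)
  have b4 := hup (ε / 1000) (by positivity)
  have b5 := hlow (ε / 1000) (by positivity)
  have b6 := hup (ε ^ 2 / 64000) (by positivity)
  have b7 := hnn (ε ^ 2 / 64000) (by positivity)
  have b8 := hnn β hβ0
  rw [← hQ] at b1 b2 b8
  rw [← hM1] at b3
  rw [← hR0] at b4 b5
  rw [← hz'] at b6 b7
  -- R0
  have hR0log : ε / 2000 * ell ≤ Real.log R0 := by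
    have h1 : 1 ≤ ε / 2000 * ell := by
      have : ε / 2000 * (10 ^ 9 / ε ^ 3) ≤ ε / 2000 * ell := by gcongr
      refine le_trans ?_ this
      have e1 : ε / 2000 * (10 ^ 9 / ε ^ 3) = 500000 / ε ^ 2 := by field_simp; norm_num
      rw [e1, le_div_iff₀ (by positivity)]
      nlinarith
    linarith
  have hR0logp : 0 < Real.log R0 := lt_of_lt_of_le (by positivity) hR0log
  have hQ1 : Real.log Q + 1 ≤ ell := by
    have : β * ell ≤ 1 / 2 * ell := by gcongr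
    linarith
  -- the two error terms
  have t1 : (2 * Real.log z + 4) / Real.log R0 * (Real.log Q + 1) ≤ ε / 16 * ell + 8000 / ε := by
    have h1 : (2 * Real.log z + 4) / Real.log R0 ≤
        (2 * (ε ^ 2 / 64000 * ell) + 4) / (ε / 2000 * ell) := by
      gcongr
    calc _ ≤ (2 * (ε ^ 2 / 64000 * ell) + 4) / (ε / 2000 * ell) * ell := by gcongr
      _ = ε / 16 * ell + 8000 / ε := by field_simp; ring
  have t2 : 2 / ((z : ℝ) + 1) * (Real.log Q + 1) ≤ 1 := by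
    have h1 : X ^ (ε ^ 2 / 64000) < (z : ℝ) + 1 := Nat.lt_floor_add_one _
    have h2 : 0 < (z : ℝ) + 1 := by positivity
    rw [div_mul_eq_mul_div, div_le_one h2]
    linarith
  unfold Gd
  rw [Real.log_mul hM1p.ne' hR0p.ne']
  have t3 : 8000 / ε + 3 ≤ ε / 500 * ell := by
    have h1 : ε / 500 * (10 ^ 9 / ε ^ 3) ≤ ε / 500 * ell := by gcongr
    refine le_trans ?_ h1
    have e1 : ε / 500 * (10 ^ 9 / ε ^ 3) = 2000000 / ε ^ 2 := by field_simp; norm_num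
    have e2 : 8000 / ε + 3 = (8000 * ε + 3 * ε ^ 2) / ε ^ 2 := by field_simp
    rw [e1, e2]
    gcongr
    nlinarith
  have hεell : 0 ≤ ε * ell := by positivity
  nlinarith


lemma psi_le_trivial (N L : ℕ) (X : ℝ) (hL : N + 1 < 2 ^ L) (hN : (N : ℝ) ≤ 2 * X) :
    ∑ n ∈ Ioc 0 N, vM n ≤ 2 * X * (1 + L) := by
  have h0 : (0 : ℝ) ≤ L := Nat.cast_nonneg L
  calc ∑ n ∈ Ioc 0 N, vM n ≤ ∑ n ∈ Ioc 0 N, (L : ℝ) := by
        apply sum_le_sum; intro n hn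
        rw [mem_Ioc] at hn
        exact (vM_le_log n).trans (log_le_L hL (by omega))
    _ = N * L := by rw [sum_const, Nat.card_Ioc, nsmul_eq_mul, Nat.sub_zero]
    _ ≤ 2 * X * (1 + L) := by
        have h1 : (0 : ℝ) ≤ N := Nat.cast_nonneg N
        apply mul_le_mul hN (by linarith) h0 (by linarith)

/-- common data of the discrete problem -/
structure Dat (ε Cτ X θ : ℝ) (h N L : ℕ) : Prop where
  hε : 0 < ε
  hε1 : ε ≤ 1 / 12
  hCτ : 1 ≤ Cτ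
  hB : Bg ε Cτ X
  hθ0 : ε ≤ θ
  hθ1 : θ ≤ 1 / 3 - ε
  hh : (h : ℝ) ≤ X ^ θ + 1
  hN1 : X / 2 ≤ N
  hN2 : (N : ℝ) ≤ 2 * X
  hL : N + 1 < 2 ^ L
  hL3 : (L : ℝ) ≤ 3 * Real.log X

namespace Dat

variable {ε Cτ X θ : ℝ} {h N L : ℕ}

lemma hX (d : Dat ε Cτ X θ h N L) : 1 ≤ X := d.hB.1

lemma hell (d : Dat ε Cτ X θ h N L) : 10 ^ 9 ≤ Real.log X := by
  have hε3 : 0 < ε ^ 3 := pow_pos d.hε 3
  have hε31 : ε ^ 3 ≤ 1 := pow_le_one₀ d.hε.le (by linarith [d.hε1])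
  refine le_trans ?_ d.hB.2.1
  rw [le_div_iff₀ hε3]
  nlinarith

/-- constants are at most `X ^ ν` -/
lemma const (d : Dat ε Cτ X θ h N L) (c0 : ℝ) (j : ℕ) (hj : j ≤ 10)
    (hc : c0 ≤ 10 ^ 15 * 16 ^ kk ε * (kk ε + 1) * Cτ / ε ^ 3 * Real.log X ^ j) :
    c0 ≤ X ^ (ε ^ 2 / 256000) := by
  apply Bg_const d.hB
  exact Cc_ge ε Cτ _ d.hε d.hε1 d.hCτ (by linarith [d.hell]) c0 j hj hc

lemma base_ge (d : Dat ε Cτ X θ h N L) : 10 ^ 15 * 16 ^ kk ε * (kk ε + 1) ≤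
    10 ^ 15 * 16 ^ kk ε * (kk ε + 1) * Cτ / ε ^ 3 := by
  have hε3 : 0 < ε ^ 3 := pow_pos d.hε 3
  have hε31 : ε ^ 3 ≤ 1 := pow_le_one₀ d.hε.le (by linarith [d.hε1])
  have h1 := d.hCτ
  rw [le_div_iff₀ hε3]
  gcongr
  linarith

lemma base_ge' (d : Dat ε Cτ X θ h N L) : (10 : ℝ) ^ 15 * (kk ε + 1) / ε ^ 3 ≤
    10 ^ 15 * 16 ^ kk ε * (kk ε + 1) * Cτ / ε ^ 3 := by
  have hε3 : 0 < ε ^ 3 := pow_pos d.hε 3
  have h1 := d.hCτ
  have h2 : (1 : ℝ) ≤ 16 ^ kk ε := one_le_pow₀ (by norm_num)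
  have h3 : (0 : ℝ) ≤ kk ε := Nat.cast_nonneg _
  apply div_le_div_of_nonneg_right _ hε3.le
  calc (10 : ℝ) ^ 15 * (kk ε + 1) = 10 ^ 15 * 1 * (kk ε + 1) * 1 := by ring
    _ ≤ 10 ^ 15 * 16 ^ kk ε * (kk ε + 1) * Cτ := by gcongr

lemma hA (d : Dat ε Cτ X θ h N L) : (1 : ℝ) + L ≤ 4 * Real.log X := by
  have := d.hell
  have := d.hL3
  linarith

lemma hX0 (d : Dat ε Cτ X θ h N L) : 0 < X := by linarith [d.hX]

lemma hXθ (d : Dat ε Cτ X θ h N L) : 1 ≤ X ^ θ := one_le_rpow d.hX (by linarith [d.hε, d.hθ0])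

lemma hh2 (d : Dat ε Cτ X θ h N L) : (h : ℝ) ≤ 2 * X ^ θ := by linarith [d.hh, d.hXθ]

lemma hε2 (d : Dat ε Cτ X θ h N L) : ε ^ 2 ≤ ε / 12 := by nlinarith [d.hε, d.hε1]

lemma hε2' (d : Dat ε Cτ X θ h N L) : 0 < ε ^ 2 := pow_pos d.hε 2

/-- `Q < (z+1)^(k+1)` -/
lemma hkQ (d : Dat ε Cτ X θ h N L) (β : ℝ) (hβ0 : 0 ≤ β) (hβ : β ≤ 1 / 2) :
    fl X β < (fl X (ε ^ 2 / 64000) + 1) ^ (kk ε + 1) := by
  have hX := d.hX
  have hX0 := d.hX0
  have h1 : X ^ (ε ^ 2 / 64000) < (fl X (ε ^ 2 / 64000) : ℝ) + 1 := Nat.lt_floor_add_one _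
  have h2 : X ≤ (X ^ (ε ^ 2 / 64000)) ^ (kk ε + 1) := by
    rw [← rpow_natCast, ← rpow_mul hX0.le]
    nth_rewrite 1 [← rpow_one X]
    apply rpow_le_rpow_of_exponent_le hX
    have h3 : 64000 / ε ^ 2 ≤ (kk ε : ℝ) := Nat.le_ceil _
    have h4 := d.hε2'
    push_cast
    rw [div_le_iff₀ h4] at h3
    have : ε ^ 2 / 64000 * ((kk ε : ℝ) + 1) = ((kk ε : ℝ) * ε ^ 2) / 64000 + ε ^ 2 / 64000 := by
      ring
    rw [this]
    linarith
  have h5 : (fl X β : ℝ) ≤ X := by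
    refine (fl_le X β hX0.le).trans ?_
    nth_rewrite 2 [← rpow_one X]
    exact rpow_le_rpow_of_exponent_le hX (by linarith)
  have h6 : (fl X β : ℝ) < ((fl X (ε ^ 2 / 64000) + 1 : ℕ) : ℝ) ^ (kk ε + 1) := by
    push_cast
    calc (fl X β : ℝ) ≤ X := h5
      _ ≤ (X ^ (ε ^ 2 / 64000)) ^ (kk ε + 1) := h2
      _ < _ := by
        apply pow_lt_pow_left₀ h1 (by positivity) (by omega)
  exact_mod_cast h6

/-- `h ≤ M1` -/
lemma hhM (d : Dat ε Cτ X θ h N L) : h ≤ fl X (θ + ε / 16) := by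
  have hX := d.hX
  have h1 := fl_ge X (θ + ε / 16) hX (by linarith [d.hε, d.hθ0])
  have h2 : 4 * X ^ θ ≤ X ^ (θ + ε / 16) := by
    apply pw hX (d.const 4 0 (by norm_num) _)
    · have := d.hε2; have := d.hε; linarith
    · have hb := d.base_ge
      rw [pow_zero, mul_one]
      refine le_trans ?_ hb
      have h2 : (1 : ℝ) ≤ 16 ^ kk ε := one_le_pow₀ (by norm_num)
      have h3 : (0 : ℝ) ≤ kk ε := Nat.cast_nonneg _
      calc (4 : ℝ) ≤ 10 ^ 15 * 1 * 1 := by norm_num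
        _ ≤ 10 ^ 15 * 16 ^ kk ε * (kk ε + 1) := by gcongr; linarith
  have h3 : (h : ℝ) ≤ fl X (θ + ε / 16) := by
    have := d.hh2
    linarith
  exact_mod_cast h3

/-- integer powers below `N` -/
lemma le_N (d : Dat ε Cτ X θ h N L) (a : ℝ) (ha : a + ε ^ 2 / 256000 ≤ 1) :
    X ^ a ≤ N := by
  have hX := d.hX
  have h1 : 2 * X ^ a ≤ X ^ (1 : ℝ) := by
    apply pw hX (d.const 2 0 (by norm_num) _) ha
    have hb := d.base_ge
    rw [pow_zero, mul_one]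
    refine le_trans ?_ hb
    have h2 : (1 : ℝ) ≤ 16 ^ kk ε := one_le_pow₀ (by norm_num)
    have h3 : (0 : ℝ) ≤ kk ε := Nat.cast_nonneg _
    calc (2 : ℝ) ≤ 10 ^ 15 * 1 * 1 := by norm_num
      _ ≤ 10 ^ 15 * 16 ^ kk ε * (kk ε + 1) := by gcongr; linarith
  rw [rpow_one] at h1
  have := d.hN1
  linarith

lemma fl_le_N (d : Dat ε Cτ X θ h N L) (a : ℝ) (ha : a + ε ^ 2 / 256000 ≤ 1) : fl X a ≤ N := by
  have h1 := (fl_le X a d.hX0.le).trans (d.le_N a ha)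
  exact_mod_cast h1

lemma fl3_le_N (d : Dat ε Cτ X θ h N L) (a : ℝ) (ha : 3 * a + ε ^ 2 / 256000 ≤ 1) :
    fl X a * fl X a * fl X a ≤ N := by
  have h1 := fl_le X a d.hX0.le
  have h2 := d.le_N (3 * a) ha
  have e1 : X ^ (3 * a) = X ^ a * X ^ a * X ^ a := by
    rw [← rpow_add d.hX0, ← rpow_add d.hX0]; congr 1; ring
  have h3 : ((fl X a * fl X a * fl X a : ℕ) : ℝ) ≤ (N : ℝ) := by
    push_cast
    refine le_trans ?_ h2
    rw [e1]
    have := d.hX0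
    gcongr
  exact_mod_cast h3

end Dat


/-- conditions on the exponent `β` of the moduli -/
structure Bet (ε θ β : ℝ) : Prop where
  b1 : θ + ε / 2 ≤ β
  b2 : β ≤ 1 / 2
  b3 : 4 * β + θ ≤ 2 - ε / 4

namespace Dat

variable {ε Cτ X θ : ℝ} {h N L : ℕ}

lemma hell0 (d : Dat ε Cτ X θ h N L) : 0 < Real.log X := by linarith [d.hell]

lemma nu (d : Dat ε Cτ X θ h N L) :
    (10 : ℝ) ^ 15 * (kk ε + 1) / ε ^ 3 * Real.log X ≤ X ^ (ε ^ 2 / 256000) := by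
  apply d.const _ 1 (by norm_num)
  rw [pow_one]
  exact mul_le_mul_of_nonneg_right d.base_ge' d.hell0.le

lemma nu2 (d : Dat ε Cτ X θ h N L) :
    (10 : ℝ) ^ 15 / ε ^ 2 * Real.log X ≤ X ^ (ε ^ 2 / 256000) := by
  refine le_trans ?_ d.nu
  have hε := d.hε
  have hε1 := d.hε1
  have hε31 : ε ^ 3 ≤ ε ^ 2 := by
    have : ε ^ 3 = ε ^ 2 * ε := by ring
    rw [this]
    exact mul_le_of_le_one_right (by positivity) (by linarith)
  have hk0 : (0 : ℝ) ≤ kk ε := Nat.cast_nonneg _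
  apply mul_le_mul_of_nonneg_right _ d.hell0.le
  have h1 : (10 : ℝ) ^ 15 ≤ 10 ^ 15 * (kk ε + 1) := by linarith
  exact div_le_div₀ (by positivity) h1 (by positivity) hε31

lemma nu1ell (d : Dat ε Cτ X θ h N L) :
    (10 : ℝ) ^ 15 / ε * Real.log X ≤ X ^ (ε ^ 2 / 256000) := by
  refine le_trans ?_ d.nu2
  have hε := d.hε
  have hε1 := d.hε1
  have hε21 : ε ^ 2 ≤ ε := by nlinarith
  apply mul_le_mul_of_nonneg_right _ d.hell0.le
  exact div_le_div_of_nonneg_left (by positivity) (by positivity) hε21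

lemma nu1 (d : Dat ε Cτ X θ h N L) : (10 : ℝ) ^ 15 / ε ≤ X ^ (ε ^ 2 / 256000) := by
  refine le_trans ?_ d.nu1ell
  have hε := d.hε
  exact le_mul_of_one_le_right (by positivity) (by linarith [d.hell])

lemma nuell (d : Dat ε Cτ X θ h N L) : (10 : ℝ) ^ 15 * Real.log X ≤ X ^ (ε ^ 2 / 256000) := by
  refine le_trans ?_ d.nu1ell
  have hε := d.hε
  have hε1 := d.hε1
  apply mul_le_mul_of_nonneg_right _ d.hell0.le
  rw [le_div_iff₀ hε]
  nlinarith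

lemma nu0 (d : Dat ε Cτ X θ h N L) : (10 : ℝ) ^ 15 ≤ X ^ (ε ^ 2 / 256000) := by
  refine le_trans ?_ d.nuell
  exact le_mul_of_one_le_right (by positivity) (by linarith [d.hell])

lemma nu_le (d : Dat ε Cτ X θ h N L) (a : ℝ) (ha : ε ^ 2 / 256000 ≤ a) :
    X ^ (ε ^ 2 / 256000) ≤ X ^ a := rpow_le_rpow_of_exponent_le d.hX ha

lemma hXθ0 (d : Dat ε Cτ X θ h N L) : 0 < X ^ θ := by linarith [d.hXθ]

lemma kappa_le (d : Dat ε Cτ X θ h N L) :
    9 * (kk ε : ℝ) * ((h : ℝ) / fl X (θ + ε / 16) + 1 / fl X (ε ^ 2 / 64000)) ≤ ε / 100 := by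
  have hε := d.hε
  have hε1 := d.hε1
  have hX := d.hX
  have hX0 := d.hX0
  have hε2 := d.hε2
  have hε2' := d.hε2'
  have hθ0 := d.hθ0
  have hk0 : (0 : ℝ) ≤ kk ε := Nat.cast_nonneg _
  have hM1ge := fl_ge X (θ + ε / 16) hX (by linarith)
  have hzge := fl_ge X (ε ^ 2 / 64000) hX (by linarith)
  have hM1p : (0 : ℝ) < fl X (θ + ε / 16) := by exact_mod_cast fl_pos X _ hX (by linarith)
  have hz0 : (0 : ℝ) < fl X (ε ^ 2 / 64000) := by exact_mod_cast fl_pos X _ hX (by linarith)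
  have h5 : 0 < X ^ (-(ε ^ 2 / 64000)) := by positivity
  have h1 : (h : ℝ) / fl X (θ + ε / 16) ≤ 4 * X ^ (-(ε ^ 2 / 64000)) := by
    rw [div_le_iff₀ hM1p]
    have e1 : X ^ θ ≤ X ^ (-(ε ^ 2 / 64000)) * X ^ (θ + ε / 16) := by
      rw [← rpow_add hX0]
      exact rpow_le_rpow_of_exponent_le hX (by linarith)
    have h2 := d.hh2
    calc (h : ℝ) ≤ 2 * (X ^ (-(ε ^ 2 / 64000)) * X ^ (θ + ε / 16)) := by linarith
      _ = 4 * X ^ (-(ε ^ 2 / 64000)) * (X ^ (θ + ε / 16) / 2) := by ring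
      _ ≤ _ := mul_le_mul_of_nonneg_left hM1ge (by positivity)
  have h4 : X ^ (-(ε ^ 2 / 64000)) * X ^ (ε ^ 2 / 64000) = 1 := by
    rw [← rpow_add hX0]
    simp
  have h2 : 1 / (fl X (ε ^ 2 / 64000) : ℝ) ≤ 2 * X ^ (-(ε ^ 2 / 64000)) := by
    rw [div_le_iff₀ hz0]
    calc (1 : ℝ) = 2 * X ^ (-(ε ^ 2 / 64000)) * (X ^ (ε ^ 2 / 64000) / 2) := by linarith
      _ ≤ _ := mul_le_mul_of_nonneg_left hzge (by positivity)
  have h3 : 5400 * (kk ε + 1) / ε ≤ X ^ (ε ^ 2 / 64000) := by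
    refine le_trans ?_ (d.nu.trans (d.nu_le _ (by linarith)))
    have h6 : 5400 * ((kk ε : ℝ) + 1) / ε ≤ (10 : ℝ) ^ 15 * (kk ε + 1) / ε ^ 3 := by
      have hε31 : ε ^ 3 ≤ ε := by
        have : ε ^ 3 = ε * ε ^ 2 := by ring
        rw [this]
        exact mul_le_of_le_one_right hε.le (by linarith)
      apply div_le_div₀ (by positivity) _ (by positivity) hε31
      nlinarith
    refine h6.trans ?_
    exact le_mul_of_one_le_right (by positivity) (by linarith [d.hell])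
  have h6 : 5400 * (kk ε + 1) / ε * X ^ (-(ε ^ 2 / 64000)) ≤ 1 := by
    calc _ ≤ X ^ (ε ^ 2 / 64000) * X ^ (-(ε ^ 2 / 64000)) :=
          mul_le_mul_of_nonneg_right h3 h5.le
      _ = 1 := by rw [mul_comm]; exact h4
  have h7 : 5400 * ((kk ε : ℝ) + 1) * X ^ (-(ε ^ 2 / 64000)) ≤ ε := by
    have : 5400 * ((kk ε : ℝ) + 1) * X ^ (-(ε ^ 2 / 64000)) =
      ε * (5400 * (kk ε + 1) / ε * X ^ (-(ε ^ 2 / 64000))) := by field_simp
    rw [this]
    exact mul_le_of_le_one_right hε.le h6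
  calc _ ≤ 9 * ((kk ε : ℝ) + 1) * (4 * X ^ (-(ε ^ 2 / 64000)) + 2 * X ^ (-(ε ^ 2 / 64000))) := by
        apply mul_le_mul _ (add_le_add h1 h2) (by positivity) (by positivity)
        linarith
    _ = (5400 * ((kk ε : ℝ) + 1) * X ^ (-(ε ^ 2 / 64000))) / 100 := by ring
    _ ≤ ε / 100 := by linarith

lemma hlogN (d : Dat ε Cτ X θ h N L) : Real.log N ≤ 3 * Real.log X :=
  (log_le_L d.hL (by omega)).trans d.hL3

lemma P_ge (d : Dat ε Cτ X θ h N L) (Ψ : ℝ) (hψ : (1 - ε / 100) * N ≤ Ψ)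
    (hXM : X ≤ N + 4 * X ^ θ) :
    (1 - 2 * (ε / 100)) * X ≤ Ψ - 2 * (fl X (ε / 1000) : ℝ) ^ 2 * Real.log N := by
  have hε := d.hε
  have hε1 := d.hε1
  have hX := d.hX
  have hX0 := d.hX0
  have hε2 := d.hε2
  have hε2' := d.hε2'
  have hθ0 := d.hθ0
  have hθ1 := d.hθ1
  have hXθ0 := d.hXθ0
  have hR0le := fl_le X (ε / 1000) hX0.le
  have hlogN := d.hlogN
  have hell0 := d.hell0
  set ell := Real.log X with hell
  have h1 : 2 * (fl X (ε / 1000) : ℝ) ^ 2 * Real.log N ≤ 6 * ell * X ^ (2 * (ε / 1000)) := by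
    have e1 : X ^ (2 * (ε / 1000)) = (X ^ (ε / 1000)) ^ 2 := by
      rw [← rpow_natCast, ← rpow_mul hX0.le]; congr 1; push_cast; ring
    rw [e1]
    calc 2 * (fl X (ε / 1000) : ℝ) ^ 2 * Real.log N ≤ 2 * (X ^ (ε / 1000)) ^ 2 * (3 * ell) := by
          gcongr
      _ = _ := by ring
  have h2 : 1000 / ε * X ^ θ ≤ X ^ (1 : ℝ) := by
    apply pw hX _ (by linarith : θ + ε ^ 2 / 256000 ≤ 1)
    refine le_trans ?_ d.nu1
    exact div_le_div_of_nonneg_right (by norm_num) hε.le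
  have h3 : 1200 / ε * ell * X ^ (2 * (ε / 1000)) ≤ X ^ (1 : ℝ) := by
    apply pw hX _ (by linarith : 2 * (ε / 1000) + ε ^ 2 / 256000 ≤ 1)
    refine le_trans ?_ d.nu1ell
    exact mul_le_mul_of_nonneg_right (div_le_div_of_nonneg_right (by norm_num) hε.le) hell0.le
  rw [rpow_one] at h2 h3
  have h4 : X ^ θ ≤ ε / 1000 * X := by
    calc X ^ θ = ε / 1000 * (1000 / ε * X ^ θ) := by field_simp
      _ ≤ _ := mul_le_mul_of_nonneg_left h2 (by positivity)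
  have h5 : 6 * ell * X ^ (2 * (ε / 1000)) ≤ ε / 200 * X := by
    calc 6 * ell * X ^ (2 * (ε / 1000)) = ε / 200 * (1200 / ε * ell * X ^ (2 * (ε / 1000))) := by
          field_simp; ring
      _ ≤ _ := mul_le_mul_of_nonneg_left h3 (by positivity)
  have h6 : (1 - ε / 100) * (X - 4 * X ^ θ) ≤ (1 - ε / 100) * (N : ℝ) := by
    have : 0 ≤ 1 - ε / 100 := by linarith
    apply mul_le_mul_of_nonneg_left _ this
    linarith
  have h7 : (1 - ε / 100) * (4 * X ^ θ) ≤ 4 * X ^ θ := by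
    apply mul_le_of_le_one_left (by positivity) (by linarith)
  nlinarith

lemma T_le (d : Dat ε Cτ X θ h N L) (β M : ℝ) (hb : Bet ε θ β) (hMX : M ≤ X) :
    M + (fl X (1 - ε ^ 2 / 256000) : ℝ) + ((fl X (ε / 1000) : ℝ) * fl X β) ^ 4 /
      fl X (1 - ε ^ 2 / 256000) ≤ (1 + ε / 100) * X := by
  have hε := d.hε
  have hε1 := d.hε1
  have hX := d.hX
  have hX0 := d.hX0
  have hε2 := d.hε2
  have hε2' := d.hε2'
  have hθ0 := d.hθ0
  have hθ1 := d.hθ1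
  obtain ⟨hb1, hb2, hb3⟩ := hb
  have hR0le := fl_le X (ε / 1000) hX0.le
  have hQle := fl_le X β hX0.le
  have hKle := fl_le X (1 - ε ^ 2 / 256000) hX0.le
  have hKge := fl_ge X (1 - ε ^ 2 / 256000) hX (by linarith)
  have hK0 : (0 : ℝ) < fl X (1 - ε ^ 2 / 256000) := by
    exact_mod_cast fl_pos X _ hX (by linarith)
  have h1 : ((fl X (ε / 1000) : ℝ) * fl X β) ^ 4 / fl X (1 - ε ^ 2 / 256000) ≤
      2 * X ^ (1 - ε ^ 2 / 256000) := by
    rw [div_le_iff₀ hK0]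
    have e1 : X ^ (4 * (ε / 1000 + β)) = (X ^ (ε / 1000) * X ^ β) ^ 4 := by
      rw [← rpow_add hX0, ← rpow_natCast, ← rpow_mul hX0.le]; congr 1; push_cast; ring
    calc ((fl X (ε / 1000) : ℝ) * fl X β) ^ 4 ≤ (X ^ (ε / 1000) * X ^ β) ^ 4 := by gcongr
      _ = X ^ (4 * (ε / 1000 + β)) := e1.symm
      _ ≤ X ^ (1 - ε ^ 2 / 256000 + (1 - ε ^ 2 / 256000)) :=
        rpow_le_rpow_of_exponent_le hX (by linarith)
      _ = 2 * X ^ (1 - ε ^ 2 / 256000) * (X ^ (1 - ε ^ 2 / 256000) / 2) := by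
        rw [rpow_add hX0]; ring
      _ ≤ _ := mul_le_mul_of_nonneg_left hKge (by positivity)
  have h2 : 300 / ε * X ^ (1 - ε ^ 2 / 256000) ≤ X ^ (1 : ℝ) := by
    apply pw hX _ (by linarith : 1 - ε ^ 2 / 256000 + ε ^ 2 / 256000 ≤ 1)
    refine le_trans ?_ d.nu1
    exact div_le_div_of_nonneg_right (by norm_num) hε.le
  rw [rpow_one] at h2
  have h3 : 3 * X ^ (1 - ε ^ 2 / 256000) ≤ ε / 100 * X := by
    calc 3 * X ^ (1 - ε ^ 2 / 256000) = ε / 100 * (300 / ε * X ^ (1 - ε ^ 2 / 256000)) := by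
          field_simp; ring
      _ ≤ _ := mul_le_mul_of_nonneg_left h2 (by positivity)
  linarith

lemma e20 (d : Dat ε Cτ X θ h N L) : X ^ (2 + θ) = X ^ θ * X ^ 2 := by
  rw [add_comm, rpow_add d.hX0]
  congr 1
  norm_num

lemma E1_le (d : Dat ε Cτ X θ h N L) (Ψ : ℝ) (hΨ0 : 0 ≤ Ψ) (hΨ : Ψ ≤ 2 * X * (1 + L)) :
    2 * ((fl X (ε / 1000) : ℝ) ^ 2 * Ψ * X ^ (1 + θ - (ε / 500 + ε ^ 2 / 128000))) ≤
      ε / 200 * (X ^ θ * X ^ 2 * Real.log X) := by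
  have hε := d.hε
  have hX := d.hX
  have hX0 := d.hX0
  have hε2 := d.hε2
  have hε2' := d.hε2'
  have hR0le := fl_le X (ε / 1000) hX0.le
  have hell0 := d.hell0
  have hA := d.hA
  set ell := Real.log X with hell
  set a := 1 + θ - (ε / 500 + ε ^ 2 / 128000) with ha
  have e1 : X ^ (2 + θ - ε ^ 2 / 128000) = (X ^ (ε / 1000)) ^ 2 * X * X ^ a := by
    have e0 : (X ^ (ε / 1000)) ^ 2 = X ^ (2 * (ε / 1000)) := by
      rw [← rpow_natCast, ← rpow_mul hX0.le]; congr 1; push_cast; ring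
    calc X ^ (2 + θ - ε ^ 2 / 128000) = X ^ (2 * (ε / 1000) + 1 + a) := by
          congr 1; rw [ha]; ring
      _ = X ^ (2 * (ε / 1000)) * X ^ (1 : ℝ) * X ^ a := by rw [rpow_add hX0, rpow_add hX0]
      _ = _ := by rw [rpow_one, e0]
  have h1 : 3200 / ε * X ^ (2 + θ - ε ^ 2 / 128000) ≤ X ^ (2 + θ) := by
    apply pw hX _ (by linarith : 2 + θ - ε ^ 2 / 128000 + ε ^ 2 / 256000 ≤ 2 + θ)
    refine le_trans ?_ d.nu1
    exact div_le_div_of_nonneg_right (by norm_num) hε.le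
  have hΨ' : Ψ ≤ 2 * X * (4 * ell) := hΨ.trans (by gcongr)
  have hXa : 0 < X ^ a := by positivity
  calc _ ≤ 2 * ((X ^ (ε / 1000)) ^ 2 * (2 * X * (4 * ell)) * X ^ a) := by gcongr
    _ = 16 * ell * ((X ^ (ε / 1000)) ^ 2 * X * X ^ a) := by ring
    _ = 16 * ell * X ^ (2 + θ - ε ^ 2 / 128000) := by rw [e1]
    _ = ε / 200 * (3200 / ε * X ^ (2 + θ - ε ^ 2 / 128000) * ell) := by field_simp; ring
    _ ≤ ε / 200 * (X ^ (2 + θ) * ell) := by
        apply mul_le_mul_of_nonneg_left _ (by positivity)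
        exact mul_le_mul_of_nonneg_right h1 hell0.le
    _ = _ := by rw [d.e20]

lemma E2_le (d : Dat ε Cτ X θ h N L) (β s : ℝ) (hb : Bet ε θ β) (hs0 : 0 ≤ s)
    (hs : s ≤ X ^ θ + 3) :
    ((fl X (ε / 1000) : ℝ) * fl X β) ^ 2 * (h * ((s + 2 * h) * L) +
      X ^ θ * (fl X (ε / 1000) * fl X β)) ^ 2 / (ε / 100) ≤
      ε / 200 * (X ^ θ * X ^ 2 * Real.log X) := by
  have hε := d.hε
  have hε1 := d.hε1
  have hX := d.hX
  have hX0 := d.hX0
  have hε2 := d.hε2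
  have hε2' := d.hε2'
  have hθ0 := d.hθ0
  have hθ1 := d.hθ1
  have hXθ := d.hXθ
  obtain ⟨hb1, hb2, hb3⟩ := hb
  have hR0le := fl_le X (ε / 1000) hX0.le
  have hQle := fl_le X β hX0.le
  have hell0 := d.hell0
  have hA := d.hA
  have hL0 : (0 : ℝ) ≤ L := Nat.cast_nonneg L
  have hν2 := d.nu2
  set ell := Real.log X with hell
  have hs4 : s ≤ 4 * X ^ θ := by linarith
  have h1 := w_num X L h s (fl X (ε / 1000)) (fl X β) θ (ε / 1000) β hX hL0 (Nat.cast_nonneg _)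
    d.hh2 hs0 hs4 (Nat.cast_nonneg _) hR0le (Nat.cast_nonneg _) hQle
  have hc : 327680000 / ε ^ 2 * ell ≤ X ^ (ε ^ 2 / 256000) := by
    refine le_trans ?_ hν2
    exact mul_le_mul_of_nonneg_right (div_le_div_of_nonneg_right (by norm_num) hε2'.le) hell0.le
  have h2 : 327680000 / ε ^ 2 * ell * X ^ (2 * (ε / 1000) + 2 * β + 4 * θ) ≤ X ^ (2 + θ) :=
    pw hX hc (by linarith)
  have h3 : 327680000 / ε ^ 2 * ell * X ^ (4 * (ε / 1000) + 4 * β + 2 * θ) ≤ X ^ (2 + θ) :=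
    pw hX hc (by linarith)
  rw [div_le_iff₀ (by positivity)]
  set Y1 := X ^ (2 * (ε / 1000) + 2 * β + 4 * θ) with hY1
  set Y2 := X ^ (4 * (ε / 1000) + 4 * β + 2 * θ) with hY2
  have hY10 : 0 < Y1 := by positivity
  have hY20 : 0 < Y2 := by positivity
  calc _ ≤ 512 * (1 + (L : ℝ)) ^ 2 * (Y1 + Y2) := h1
    _ ≤ 512 * (4 * ell) ^ 2 * (Y1 + Y2) := by gcongr
    _ = ε ^ 2 / 40000 * ell * (327680000 / ε ^ 2 * ell * Y1 + 327680000 / ε ^ 2 * ell * Y2) := by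
      field_simp; ring
    _ ≤ ε ^ 2 / 40000 * ell * (X ^ (2 + θ) + X ^ (2 + θ)) :=
      mul_le_mul_of_nonneg_left (add_le_add h2 h3) (by positivity)
    _ = ε / 200 * (X ^ θ * X ^ 2 * ell) * (ε / 100) := by rw [d.e20]; ring

lemma two_le_R0 (d : Dat ε Cτ X θ h N L) : 2 ≤ fl X (ε / 1000) := by
  have hR0ge := fl_ge X (ε / 1000) d.hX (by linarith [d.hε])
  have h2 := d.nu_le (ε / 1000) (by linarith [d.hε2, d.hε])
  have h0 := d.nu0
  have h3 : (2 : ℝ) ≤ fl X (ε / 1000) := by linarith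
  exact_mod_cast h3

lemma M1R0_le (d : Dat ε Cτ X θ h N L) (β : ℝ) (hb : Bet ε θ β) :
    fl X (θ + ε / 16) * fl X (ε / 1000) ≤ fl X β := by
  have hε := d.hε
  have hX := d.hX
  have hX0 := d.hX0
  have hε2 := d.hε2
  have hθ0 := d.hθ0
  have h0 := d.nu0
  have h1 : 2 * X ^ (θ + ε / 16 + ε / 1000) ≤ X ^ β :=
    pw hX (by linarith : (2 : ℝ) ≤ X ^ (ε ^ 2 / 256000)) (by linarith [hb.b1])
  have hQge := fl_ge X β hX (by linarith [hb.b1])
  have h2 : ((fl X (θ + ε / 16) * fl X (ε / 1000) : ℕ) : ℝ) ≤ (fl X β : ℝ) := by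
    push_cast
    calc (fl X (θ + ε / 16) : ℝ) * fl X (ε / 1000) ≤ X ^ (θ + ε / 16) * X ^ (ε / 1000) :=
          mul_le_mul (fl_le X _ hX0.le) (fl_le X _ hX0.le) (Nat.cast_nonneg _) (by positivity)
      _ = X ^ (θ + ε / 16 + ε / 1000) := by rw [← rpow_add hX0]
      _ ≤ X ^ β / 2 := by linarith
      _ ≤ fl X β := hQge
  exact_mod_cast h2

end Dat

end Pool.Agent.Lib.MP_2a816b_nt
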