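import Mathlib
import Pool.Agent.Lib.MP_2a816b_nt.FR1

/-!
# The full range: choice of the parameters
-/

open Finset Real Filter

namespace Pool.Agent.Lib.MP_2a816b_nt


/-! small numerical facts, kept out of the large contexts -/

lemma n7a (c n h : ℝ) (hn : 1 ≤ n) (hh : 0 < h) : (c * n + 1) * h ≤ (c + 1) * (h * n) := by
  nlinarith [mul_nonneg hh.le (by linarith : (0 : ℝ) ≤ n - 1)]

lemma n7b (c : ℝ) (hc : 1 ≤ c) : c + 1 ≤ 10 ^ 9 * (15 * c ^ 2) := by nlinarith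

lemma n7c (c : ℝ) (hc : 1 ≤ c) : √c ≤ c := by
  rw [Real.sqrt_le_left (by linarith)]
  nlinarith

lemma n7d (a b : ℝ) (ha : 1 ≤ a) (hb : 1 ≤ b) : 1 ≤ a * b := by nlinarith

/-- the range of the steps -/
noncomputable def Ce (ε : ℝ) : ℕ := ⌈400 / ε⌉₊

/-- the fineness of the steps -/
noncomputable def ne (ε : ℝ) : ℕ := 15 * Ce ε ^ 2

/-- the length of the blocks -/
noncomputable def le (ε : ℝ) : ℝ := ε / (1200 * ((Ce ε * ne ε : ℕ) : ℝ))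

/-- the constant for the number of blocks -/
noncomputable def Ge (ε : ℝ) : ℝ := 1 / le ε + 1

/-- the second constant -/
noncomputable def C2 (ε Cτ : ℝ) : ℝ := 10 ^ 9 * 32 ^ kk ε * (kk ε + 1) * Cτ * Ge ε *
  ((Ce ε : ℝ) + 1) ^ 2 * ((Ce ε * ne ε : ℕ) : ℝ)

lemma ev_C2 (ε Cτ : ℝ) (hε : 0 < ε) : ∃ X0 : ℝ, ∀ X, X0 ≤ X →
    C2 ε Cτ * Real.log X ^ 10 ≤ X ^ (ε ^ 2 / 256000) := by
  rw [← eventually_atTop]
  have E1 := ev_pow2 (C2 ε Cτ) 0 (ε ^ 2 / 256000) 10 (by positivity)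
  filter_upwards [E1] with X F1
  rw [rpow_zero, mul_one] at F1
  exact F1

lemma Ce_pos (ε : ℝ) (hε : 0 < ε) : 0 < Ce ε := Nat.ceil_pos.2 (by positivity)

lemma Ce_ge (ε : ℝ) : 400 / ε ≤ (Ce ε : ℝ) := Nat.le_ceil _

lemma ne_pos (ε : ℝ) (hε : 0 < ε) : 0 < ne ε := by
  have := Ce_pos ε hε
  unfold ne; positivity

lemma le_pos (ε : ℝ) (hε : 0 < ε) : 0 < le ε := by
  have h1 := Nat.mul_pos (Ce_pos ε hε) (ne_pos ε hε)
  have h2 : (0 : ℝ) < ((Ce ε * ne ε : ℕ) : ℝ) := by exact_mod_cast h1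
  unfold le; positivity

lemma le_mul (ε : ℝ) (hε : 0 < ε) : 3 * le ε * ((Ce ε * ne ε : ℕ) : ℝ) = ε / 400 := by
  have h1 := Nat.mul_pos (Ce_pos ε hε) (ne_pos ε hε)
  have h2 : (0 : ℝ) < ((Ce ε * ne ε : ℕ) : ℝ) := by exact_mod_cast h1
  unfold le
  field_simp
  norm_num

lemma le_le (ε : ℝ) (hε : 0 < ε) (hε1 : ε ≤ 1 / 12) : le ε ≤ 1 / 2 := by
  have h1 := Nat.mul_pos (Ce_pos ε hε) (ne_pos ε hε)
  have h2 : (1 : ℝ) ≤ ((Ce ε * ne ε : ℕ) : ℝ) := by exact_mod_cast h1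
  have h3 := le_mul ε hε
  have h4 := le_pos ε hε
  nlinarith

lemma kap1_le (ε : ℝ) (hε : 0 < ε) : 1 / (Ce ε : ℝ) + 15 * Ce ε / ne ε ≤ ε / 200 := by
  have h1 : (0 : ℝ) < Ce ε := by exact_mod_cast Ce_pos ε hε
  have h2 := Ce_ge ε
  have h3 : (1 : ℝ) / (Ce ε : ℝ) + 15 * Ce ε / ne ε = 2 / Ce ε := by
    unfold ne
    push_cast
    field_simp
    norm_num
  rw [h3, div_le_iff₀ h1]
  rw [div_le_iff₀ hε] at h2
  linarith

lemma Ge_ge (ε : ℝ) (hε : 0 < ε) : 1 ≤ Ge ε := by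
  have := le_pos ε hε
  unfold Ge
  have : 0 ≤ 1 / le ε := by positivity
  linarith

lemma C2_ge_aux (ε Cτ : ℝ) (hε : 0 < ε) (hCτ : 1 ≤ Cτ) :
    10 ^ 9 * ((ne ε : ℕ) : ℝ) ≤ C2 ε Cτ := by
  have h1 : (1 : ℝ) ≤ 32 ^ kk ε := one_le_pow₀ (by norm_num)
  have h2 : (0 : ℝ) ≤ kk ε := Nat.cast_nonneg _
  have h3 := Ge_ge ε hε
  have h4 : (1 : ℝ) ≤ Ce ε := by exact_mod_cast Ce_pos ε hε
  have h5 : (1 : ℝ) ≤ ((Ce ε : ℝ) + 1) ^ 2 := one_le_pow₀ (by linarith)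
  have h6 : ((ne ε : ℕ) : ℝ) ≤ ((Ce ε * ne ε : ℕ) : ℝ) := by
    push_cast
    exact le_mul_of_one_le_left (Nat.cast_nonneg _) h4
  unfold C2
  calc (10 : ℝ) ^ 9 * ((ne ε : ℕ) : ℝ) = 10 ^ 9 * 1 * 1 * 1 * 1 * 1 * ((ne ε : ℕ) : ℝ) := by ring
    _ ≤ _ := by gcongr; linarith

namespace Dat

variable {ε Cτ X θ : ℝ} {h N L : ℕ}

lemma mu (d : Dat ε Cτ X θ h N L) (hC : C2 ε Cτ * Real.log X ^ 10 ≤ X ^ (ε ^ 2 / 256000)) :
    10 ^ 9 * ((ne ε : ℕ) : ℝ) ≤ X ^ (ε ^ 2 / 256000) := by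
  have h1 := C2_ge_aux ε Cτ d.hε d.hCτ
  refine (h1.trans ?_).trans hC
  have h2 : 0 ≤ C2 ε Cτ := le_trans (by positivity) h1
  have h3 : (1 : ℝ) ≤ Real.log X ^ 10 := one_le_pow₀ (by linarith [d.hell])
  exact le_mul_of_one_le_right h2 h3

/-- `h n ≤ A` -/
lemma hn_le_A (d : Dat ε Cτ X θ h N L)
    (hC : C2 ε Cτ * Real.log X ^ 10 ≤ X ^ (ε ^ 2 / 256000)) :
    h * ne ε ≤ fl X (θ + ε / 16) := by
  have hX := d.hX
  have hX0 := d.hX0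
  have h1 := fl_ge X (θ + ε / 16) hX (by linarith [d.hε, d.hθ0])
  have h2 := d.mu hC
  have hn1 : (1 : ℝ) ≤ ne ε := by exact_mod_cast ne_pos ε d.hε
  have h3 : (4 * (ne ε : ℝ)) * X ^ θ ≤ X ^ (θ + ε / 16) := by
    apply pw hX (le_trans _ h2)
    · have := d.hε2; have := d.hε; linarith
    · gcongr; norm_num
  have h4 := d.hh2
  have h5 : ((h * ne ε : ℕ) : ℝ) ≤ (fl X (θ + ε / 16) : ℝ) := by
    push_cast
    calc (h : ℝ) * ne ε ≤ (2 * X ^ θ) * ne ε := by gcongr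
      _ = (4 * (ne ε : ℝ)) * X ^ θ / 2 := by ring
      _ ≤ X ^ (θ + ε / 16) / 2 := by linarith
      _ ≤ _ := h1
  exact_mod_cast h5

/-- the loss in the mass of the weights -/
lemma kapW_le (d : Dat ε Cτ X θ h N L)
    (hC : C2 ε Cτ * Real.log X ^ 10 ≤ X ^ (ε ^ 2 / 256000)) :
    (kk ε : ℝ) / fl X (ε ^ 2 / 64000) + 2 * (1 + kk ε) * ((h * ne ε : ℕ) : ℝ) /
      fl X (θ + ε / 16) ≤ ε / 400 := by
  have hε := d.hε
  have hε1 := d.hε1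
  have hX := d.hX
  have hX0 := d.hX0
  have hε2 := d.hε2
  have hε2' := d.hε2'
  have hθ0 := d.hθ0
  have hk0 : (0 : ℝ) ≤ kk ε := Nat.cast_nonneg _
  have hAge := fl_ge X (θ + ε / 16) hX (by linarith)
  have hzge := fl_ge X (ε ^ 2 / 64000) hX (by linarith)
  have hA0 : (0 : ℝ) < fl X (θ + ε / 16) := by exact_mod_cast fl_pos X _ hX (by linarith)
  have hz0 : (0 : ℝ) < fl X (ε ^ 2 / 64000) := by exact_mod_cast fl_pos X _ hX (by linarith)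
  have hmu := d.mu hC
  have hnu := d.nu
  have hell := d.hell
  have hn0 : (0 : ℝ) ≤ ne ε := Nat.cast_nonneg _
  have hk1 : (10 : ℝ) ^ 6 * (kk ε + 1) / ε ≤ X ^ (ε ^ 2 / 256000) := by
    refine le_trans ?_ hnu
    have h6 : (10 : ℝ) ^ 6 * ((kk ε : ℝ) + 1) / ε ≤ (10 : ℝ) ^ 15 * (kk ε + 1) / ε ^ 3 := by
      have hε31 : ε ^ 3 ≤ ε := by
        have : ε ^ 3 = ε * ε ^ 2 := by ring
        rw [this]
        exact mul_le_of_le_one_right hε.le (by linarith)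
      apply div_le_div₀ (by positivity) _ (by positivity) hε31
      nlinarith
    refine h6.trans ?_
    exact le_mul_of_one_le_right (by positivity) (by linarith)
  have hk2 : (10 : ℝ) ^ 6 * (kk ε + 1) ≤ ε * X ^ (ε ^ 2 / 256000) := by
    rw [div_le_iff₀ hε] at hk1
    linarith
  -- first term
  have h1 : (kk ε : ℝ) / fl X (ε ^ 2 / 64000) ≤ ε / 800 := by
    rw [div_le_iff₀ hz0]
    have h2 : X ^ (ε ^ 2 / 256000) ≤ X ^ (ε ^ 2 / 64000) := d.nu_le _ (by linarith)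
    have h3 : ε * X ^ (ε ^ 2 / 256000) ≤ ε * X ^ (ε ^ 2 / 64000) := by gcongr
    have h4 : ε / 800 * (X ^ (ε ^ 2 / 64000) / 2) ≤ ε / 800 * (fl X (ε ^ 2 / 64000) : ℝ) := by
      gcongr
    linarith
  -- second term
  have h2 : 2 * (1 + (kk ε : ℝ)) * ((h * ne ε : ℕ) : ℝ) / fl X (θ + ε / 16) ≤ ε / 800 := by
    rw [div_le_iff₀ hA0]
    have e1 : X ^ (θ + ε / 16) = X ^ θ * X ^ (ε / 16) := rpow_add hX0 _ _
    have e2 : X ^ (ε ^ 2 / 256000) * X ^ (ε ^ 2 / 256000) ≤ X ^ (ε / 16) := by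
      rw [← rpow_add hX0]
      exact rpow_le_rpow_of_exponent_le hX (by linarith)
    have h3 := d.hh2
    have hXθ := d.hXθ0
    push_cast
    calc 2 * (1 + (kk ε : ℝ)) * (h * ne ε) ≤ 2 * (1 + (kk ε : ℝ)) * ((2 * X ^ θ) * ne ε) := by
          gcongr
      _ = (10 ^ 6 * (kk ε + 1)) * (10 ^ 9 * ne ε) * X ^ θ * (4 / 10 ^ 15) := by ring
      _ ≤ (ε * X ^ (ε ^ 2 / 256000)) * (X ^ (ε ^ 2 / 256000)) * X ^ θ * (4 / 10 ^ 15) := by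
          gcongr
      _ = ε * (4 / 10 ^ 15) * (X ^ θ * (X ^ (ε ^ 2 / 256000) * X ^ (ε ^ 2 / 256000))) := by ring
      _ ≤ ε * (4 / 10 ^ 15) * (X ^ θ * X ^ (ε / 16)) := by gcongr
      _ = ε * (8 / 10 ^ 15) * (X ^ (θ + ε / 16) / 2) := by rw [e1]; ring
      _ ≤ ε * (8 / 10 ^ 15) * (fl X (θ + ε / 16) : ℝ) := by gcongr
      _ ≤ ε / 800 * (fl X (θ + ε / 16) : ℝ) := by
          apply mul_le_mul_of_nonneg_right _ hA0.le
          linarith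
  linarith

end Dat

end Pool.Agent.Lib.MP_2a816b_nt
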