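import Mathlib
import Pool.Agent.Lib.MP_2a816b_nt.Nl
import Pool.Agent.Lib.MP_2a816b_nt.Num1

/-!
# Numerical bound for the functional of the step weights
-/

open Real

namespace Pool.Agent.Lib.MP_2a816b_nt

lemma step_num (X L h U0 U B D0 N A G Λ c1 τ0 τ' C3 lg Ψ : ℝ) (k : ℕ) (θ a2 u β a5 a4 : ℝ)
    (hX : 1 ≤ X) (hL : 0 ≤ L) (hh1 : X ^ θ / 2 ≤ h) (hh : h ≤ 2 * X ^ θ)
    (hU0 : 0 ≤ U0) (hU0' : U0 ≤ X ^ a2) (hU1 : X ^ u / 2 ≤ U) (hU2 : U ≤ X ^ u)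
    (hB0 : 0 ≤ B) (hB : B ≤ X ^ β) (hD1 : X ^ a5 / 2 ≤ D0) (hD2 : D0 ≤ X ^ a5)
    (hN0 : 0 ≤ N) (hN2 : N ≤ 2 * X) (hA : X ^ (θ + a4) / 2 ≤ A) (hAh : h ≤ A)
    (hG : 1 ≤ G) (hΛ0 : 0 ≤ Λ) (hΛ : Λ ≤ (1 + L) * G) (hC3 : 1 ≤ C3) (hc0 : 0 ≤ c1)
    (hc1 : c1 ≤ C3 / h) (hτ0 : 0 ≤ τ0) (hτ : √τ0 ≤ τ')
    (hτ1 : 1 ≤ τ') (hlg0 : 0 ≤ lg) (hlg : lg ≤ L) (hΨ0 : 0 ≤ Ψ) (hΨ : Ψ ≤ 2 * X * (1 + L)) :
    h ^ 2 * (Λ * U0 * (4 ^ k * (1 + L) * (32 * 2 ^ k * L * U0 * U * c1 * B ^ 2 +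
      144 * 2 ^ k * L ^ 4 * U0 * √τ0 *
      √(c1 * N) * (√(c1 * N) / √D0 + √(c1 * B * √N) + √(N / U) + B))) +
      2 ^ k * (c1 + 2 / A) * (B * ((1 + 4 ^ k) * (k * lg))) +
      2 ^ k * 2 ^ k * (2 ^ k * D0 * (Ψ * (2 ^ k * (2 * 2 ^ k * D0)))) * (2 / A)) ≤
    4608 * 32 ^ k * (k + 1) * (1 + L) ^ 6 * G * C3 ^ 2 * (τ' *
      (X ^ (2 * a2 + u + θ + 2 * β) + X ^ (2 * a2 + 1 + θ - a5 / 2) +
       X ^ (2 * a2 + θ + 3 / 4 + β / 2) + X ^ (2 * a2 + 3 * θ / 2 + 1 - u / 2) +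
       X ^ (2 * a2 + 3 * θ / 2 + 1 / 2 + β)) + X ^ (θ + β) + X ^ (1 + θ + 2 * a5 - a4)) := by
  have hX0 : 0 < X := by linarith
  have hXθ : 0 < X ^ θ := by positivity
  have hh0 : 0 < h := by linarith
  have hA0 : 0 < A := by linarith
  have hD00 : 0 < D0 := lt_of_lt_of_le (by positivity) hD1
  have hUp : 0 < U := lt_of_lt_of_le (by positivity) hU1
  have hC0 : 0 < C3 := by linarith
  have hA1 : 1 ≤ 1 + L := by linarith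
  set a : ℝ := 1 + L with ha
  have hLA : L ≤ a := by linarith
  have h4 : (4 : ℝ) ^ k = 2 ^ k * 2 ^ k := by rw [← mul_pow]; norm_num
  have h32 : (32 : ℝ) ^ k = 2 ^ k * 2 ^ k * 2 ^ k * 2 ^ k * 2 ^ k := by
    rw [← mul_pow, ← mul_pow, ← mul_pow, ← mul_pow]; norm_num
  have h2k : (1 : ℝ) ≤ 2 ^ k := one_le_pow₀ (by norm_num)
  have h41 : (1 : ℝ) ≤ 4 ^ k := one_le_pow₀ (by norm_num)
  have hk0 : (0 : ℝ) ≤ k := Nat.cast_nonneg k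
  -- basic bounds
  have hhc : h * c1 ≤ C3 := by
    calc h * c1 ≤ h * (C3 / h) := by gcongr
      _ = C3 := by field_simp
  have hc1' : c1 ≤ 2 * C3 * X ^ (-θ) := by
    refine hc1.trans ?_
    rw [div_le_iff₀ hh0]
    have e1 : X ^ (-θ) * X ^ θ = 1 := by rw [← rpow_add hX0]; simp
    calc C3 = 2 * C3 * (X ^ (-θ) * (X ^ θ / 2)) := by
          have : X ^ (-θ) * (X ^ θ / 2) = 1 / 2 := by rw [← mul_div_assoc, e1]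
          rw [this]; ring
      _ ≤ 2 * C3 * (X ^ (-θ) * h) := by gcongr
      _ = _ := by ring
  have hsC : √C3 ≤ C3 := nl20 hC3
  have s1 : √(c1 * N) ≤ 2 * C3 * X ^ ((1 - θ) / 2) := by
    have h1 : c1 * N ≤ C3 * (4 * X ^ (1 - θ)) := by
      have e1 : X ^ (1 - θ) = X * X ^ (-θ) := by
        rw [sub_eq_add_neg, rpow_add hX0, rpow_one]
      rw [e1]
      calc c1 * N ≤ (2 * C3 * X ^ (-θ)) * (2 * X) := by gcongr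
        _ = _ := by ring
    calc √(c1 * N) ≤ √(C3 * (4 * X ^ (1 - θ))) := Real.sqrt_le_sqrt h1
      _ = √C3 * (2 * X ^ ((1 - θ) / 2)) := by
          rw [Real.sqrt_mul hC0.le, sqrt_four_pw X _ hX0.le]
      _ ≤ C3 * (2 * X ^ ((1 - θ) / 2)) := by gcongr
      _ = _ := by ring
  have s2 : 1 / √D0 ≤ 2 * X ^ (-(a5 / 2)) := by
    have h1 : X ^ (a5 / 2) / 2 ≤ √D0 := by
      apply Real.le_sqrt_of_sq_le
      have h2 : (X ^ (a5 / 2) / 2) ^ 2 = X ^ a5 / 4 := by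
        rw [div_pow, ← rpow_natCast, ← rpow_mul hX0.le]
        norm_num
      rw [h2]
      have : 0 < X ^ a5 := by positivity
      linarith
    have h3 : 0 < X ^ (a5 / 2) := by positivity
    rw [rpow_neg hX0.le, div_le_iff₀ (by positivity)]
    calc (1 : ℝ) = 2 * (X ^ (a5 / 2))⁻¹ * (X ^ (a5 / 2) / 2) := by field_simp
      _ ≤ _ := by gcongr
  have hsN : √N ≤ 2 * X ^ (1 / 2 : ℝ) := by
    have h1 := sqrt_four_pw X 1 hX0.le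
    rw [rpow_one] at h1
    rw [← h1]
    apply Real.sqrt_le_sqrt
    linarith
  have s3 : √(c1 * B * √N) ≤ 2 * C3 * X ^ ((β + 1 / 2 - θ) / 2) := by
    have h1 : c1 * B * √N ≤ C3 * (4 * X ^ (β + 1 / 2 - θ)) := by
      have e1 : X ^ (β + 1 / 2 - θ) = X ^ β * X ^ (1 / 2 : ℝ) * X ^ (-θ) := by
        rw [sub_eq_add_neg, rpow_add hX0, rpow_add hX0]
      rw [e1]
      calc c1 * B * √N ≤ (2 * C3 * X ^ (-θ)) * X ^ β * (2 * X ^ (1 / 2 : ℝ)) := by gcongr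
        _ = _ := by ring
    calc √(c1 * B * √N) ≤ √(C3 * (4 * X ^ (β + 1 / 2 - θ))) := Real.sqrt_le_sqrt h1
      _ = √C3 * (2 * X ^ ((β + 1 / 2 - θ) / 2)) := by
          rw [Real.sqrt_mul hC0.le, sqrt_four_pw X _ hX0.le]
      _ ≤ C3 * (2 * X ^ ((β + 1 / 2 - θ) / 2)) := by gcongr
      _ = _ := by ring
  have s4 : √(N / U) ≤ 2 * X ^ ((1 - u) / 2) := by
    rw [← sqrt_four_pw X _ hX0.le]
    apply Real.sqrt_le_sqrt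
    rw [div_le_iff₀ hUp, rpow_sub hX0, rpow_one]
    have h3 : 0 < X ^ u := by positivity
    calc N ≤ 2 * X := hN2
      _ = 4 * (X / X ^ u) * (X ^ u / 2) := by field_simp; ring
      _ ≤ _ := by gcongr
  have hh2 : h ^ 2 ≤ 4 * X ^ (2 * θ) := by
    have e1 : X ^ (2 * θ) = (X ^ θ) ^ 2 := by
      rw [← rpow_natCast, ← rpow_mul hX0.le]; congr 1; push_cast; ring
    rw [e1]
    calc h ^ 2 ≤ (2 * X ^ θ) ^ 2 := by gcongr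
      _ = _ := by ring
  -- the powers
  set Z1 := X ^ (2 * a2 + u + θ + 2 * β) with hZ1
  set Z2 := X ^ (2 * a2 + 1 + θ - a5 / 2) with hZ2
  set Z3 := X ^ (2 * a2 + θ + 3 / 4 + β / 2) with hZ3
  set Z4 := X ^ (2 * a2 + 3 * θ / 2 + 1 - u / 2) with hZ4
  set Z5 := X ^ (2 * a2 + 3 * θ / 2 + 1 / 2 + β) with hZ5
  set Z6 := X ^ (θ + β) with hZ6
  set Z7 := X ^ (1 + θ + 2 * a5 - a4) with hZ7
  have hZ1' : 0 < Z1 := by positivity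
  have hZ2' : 0 < Z2 := by positivity
  have hZ3' : 0 < Z3 := by positivity
  have hZ4' : 0 < Z4 := by positivity
  have hZ5' : 0 < Z5 := by positivity
  have hZ6' : 0 < Z6 := by positivity
  have hZ7' : 0 < Z7 := by positivity
  -- first product
  have t1 : h ^ 2 * U0 * (32 * 2 ^ k * L * U0 * U * c1 * B ^ 2) ≤
      64 * 2 ^ k * a ^ 4 * C3 ^ 2 * Z1 := by
    have e1 : Z1 = (X ^ a2) ^ 2 * X ^ u * X ^ θ * (X ^ β) ^ 2 := by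
      rw [hZ1, rpow_add hX0, rpow_add hX0, rpow_add hX0]
      have g1 : X ^ (2 * a2) = (X ^ a2) ^ 2 := by
        rw [← rpow_natCast, ← rpow_mul hX0.le]; congr 1; push_cast; ring
      have g2 : X ^ (2 * β) = (X ^ β) ^ 2 := by
        rw [← rpow_natCast, ← rpow_mul hX0.le]; congr 1; push_cast; ring
      rw [g1, g2]
    rw [e1]
    calc h ^ 2 * U0 * (32 * 2 ^ k * L * U0 * U * c1 * B ^ 2) =
        32 * 2 ^ k * L * U0 ^ 2 * U * h * (h * c1) * B ^ 2 := by ring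
      _ ≤ 32 * 2 ^ k * a * (X ^ a2) ^ 2 * X ^ u * (2 * X ^ θ) * C3 * (X ^ β) ^ 2 := by gcongr
      _ = 64 * 2 ^ k * a ^ 1 * C3 ^ 1 * ((X ^ a2) ^ 2 * X ^ u * X ^ θ * (X ^ β) ^ 2) := by ring
      _ ≤ _ := by gcongr <;> norm_num
  -- second product
  have w1 : h ^ 2 * U0 ^ 2 * (√(c1 * N) * (√(c1 * N) / √D0)) ≤ 32 * C3 ^ 2 * Z2 := by
    have e1 : Z2 = (X ^ a2) ^ 2 * X ^ (2 * θ) * (X ^ ((1 - θ) / 2)) ^ 2 * X ^ (-(a5 / 2)) := by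
      rw [← rpow_natCast, ← rpow_natCast, ← rpow_mul hX0.le, ← rpow_mul hX0.le,
        ← rpow_add hX0, ← rpow_add hX0, ← rpow_add hX0, hZ2]
      congr 1; push_cast; ring
    rw [e1]
    calc h ^ 2 * U0 ^ 2 * (√(c1 * N) * (√(c1 * N) / √D0)) =
        h ^ 2 * U0 ^ 2 * (√(c1 * N) * √(c1 * N) * (1 / √D0)) := by ring
      _ ≤ (4 * X ^ (2 * θ)) * (X ^ a2) ^ 2 * ((2 * C3 * X ^ ((1 - θ) / 2)) *
          (2 * C3 * X ^ ((1 - θ) / 2)) * (2 * X ^ (-(a5 / 2)))) := by gcongr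
      _ = _ := by ring
  have w2 : h ^ 2 * U0 ^ 2 * (√(c1 * N) * √(c1 * B * √N)) ≤ 32 * C3 ^ 2 * Z3 := by
    have e1 : Z3 = (X ^ a2) ^ 2 * X ^ (2 * θ) * X ^ ((1 - θ) / 2) * X ^ ((β + 1 / 2 - θ) / 2) := by
      rw [← rpow_natCast, ← rpow_mul hX0.le,
        ← rpow_add hX0, ← rpow_add hX0, ← rpow_add hX0, hZ3]
      congr 1; push_cast; ring
    rw [e1]
    calc h ^ 2 * U0 ^ 2 * (√(c1 * N) * √(c1 * B * √N)) ≤
        (4 * X ^ (2 * θ)) * (X ^ a2) ^ 2 * ((2 * C3 * X ^ ((1 - θ) / 2)) *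
          (2 * C3 * X ^ ((β + 1 / 2 - θ) / 2))) := by gcongr
      _ = 16 * C3 ^ 2 * ((X ^ a2) ^ 2 * X ^ (2 * θ) * X ^ ((1 - θ) / 2) *
          X ^ ((β + 1 / 2 - θ) / 2)) := by ring
      _ ≤ _ := by gcongr; norm_num
  have w3 : h ^ 2 * U0 ^ 2 * (√(c1 * N) * √(N / U)) ≤ 32 * C3 ^ 2 * Z4 := by
    have e1 : Z4 = (X ^ a2) ^ 2 * X ^ (2 * θ) * X ^ ((1 - θ) / 2) * X ^ ((1 - u) / 2) := by
      rw [← rpow_natCast, ← rpow_mul hX0.le,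
        ← rpow_add hX0, ← rpow_add hX0, ← rpow_add hX0, hZ4]
      congr 1; push_cast; ring
    rw [e1]
    calc h ^ 2 * U0 ^ 2 * (√(c1 * N) * √(N / U)) ≤
        (4 * X ^ (2 * θ)) * (X ^ a2) ^ 2 * ((2 * C3 * X ^ ((1 - θ) / 2)) *
          (2 * X ^ ((1 - u) / 2))) := by gcongr
      _ = 16 * C3 ^ 1 * ((X ^ a2) ^ 2 * X ^ (2 * θ) * X ^ ((1 - θ) / 2) *
          X ^ ((1 - u) / 2)) := by ring
      _ ≤ _ := by gcongr <;> norm_num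
  have w4 : h ^ 2 * U0 ^ 2 * (√(c1 * N) * B) ≤ 32 * C3 ^ 2 * Z5 := by
    have e1 : Z5 = (X ^ a2) ^ 2 * X ^ (2 * θ) * X ^ ((1 - θ) / 2) * X ^ β := by
      rw [← rpow_natCast, ← rpow_mul hX0.le,
        ← rpow_add hX0, ← rpow_add hX0, ← rpow_add hX0, hZ5]
      congr 1; push_cast; ring
    rw [e1]
    calc h ^ 2 * U0 ^ 2 * (√(c1 * N) * B) ≤
        (4 * X ^ (2 * θ)) * (X ^ a2) ^ 2 * ((2 * C3 * X ^ ((1 - θ) / 2)) * X ^ β) := by gcongr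
      _ = 8 * C3 ^ 1 * ((X ^ a2) ^ 2 * X ^ (2 * θ) * X ^ ((1 - θ) / 2) * X ^ β) := by ring
      _ ≤ _ := by gcongr <;> norm_num
  have t2 : h ^ 2 * U0 * (144 * 2 ^ k * L ^ 4 * U0 * √τ0 *
      √(c1 * N) * (√(c1 * N) / √D0 + √(c1 * B * √N) + √(N / U) + B)) ≤
      4608 * 2 ^ k * a ^ 4 * C3 ^ 2 * τ' * (Z2 + Z3 + Z4 + Z5) := by
    calc h ^ 2 * U0 * (144 * 2 ^ k * L ^ 4 * U0 * √τ0 *
      √(c1 * N) * (√(c1 * N) / √D0 + √(c1 * B * √N) + √(N / U) + B)) =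
        144 * 2 ^ k * L ^ 4 * √τ0 * (h ^ 2 * U0 ^ 2 * (√(c1 * N) * (√(c1 * N) / √D0)) +
          h ^ 2 * U0 ^ 2 * (√(c1 * N) * √(c1 * B * √N)) +
          h ^ 2 * U0 ^ 2 * (√(c1 * N) * √(N / U)) + h ^ 2 * U0 ^ 2 * (√(c1 * N) * B)) := by ring
      _ ≤ 144 * 2 ^ k * a ^ 4 * τ' * (32 * C3 ^ 2 * Z2 + 32 * C3 ^ 2 * Z3 + 32 * C3 ^ 2 * Z4 +
          32 * C3 ^ 2 * Z5) := by gcongr
      _ = _ := by ring
  have hcA : h * (c1 + 2 / A) ≤ 3 * C3 := by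
    have h1 : h * (2 / A) ≤ 2 := by
      rw [← mul_div_assoc, div_le_iff₀ hA0]
      linarith
    rw [mul_add]
    linarith
  have t3 : h ^ 2 * (2 ^ k * (c1 + 2 / A) * (B * ((1 + 4 ^ k) * (k * lg)))) ≤
      12 * 2 ^ k * 4 ^ k * (k + 1) * a * C3 * Z6 := by
    have e1 : Z6 = X ^ θ * X ^ β := by rw [hZ6, rpow_add hX0]
    rw [e1]
    have hk1 : (k : ℝ) ≤ k + 1 := by linarith
    calc h ^ 2 * (2 ^ k * (c1 + 2 / A) * (B * ((1 + 4 ^ k) * (k * lg)))) =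
        2 ^ k * h * (h * (c1 + 2 / A)) * (B * ((1 + 4 ^ k) * (k * lg))) := by ring
      _ ≤ 2 ^ k * (2 * X ^ θ) * (3 * C3) * (X ^ β * ((4 ^ k + 4 ^ k) * ((k + 1) * a))) := by
          gcongr
          linarith
      _ = _ := by ring
  have t4 : h ^ 2 * (2 ^ k * 2 ^ k * (2 ^ k * D0 * (Ψ * (2 ^ k * (2 * 2 ^ k * D0)))) * (2 / A)) ≤
      64 * 32 ^ k * a * Z7 := by
    have h1 : h ^ 2 * D0 ^ 2 / A ≤ 8 * X ^ (θ + 2 * a5 - a4) := by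
      rw [div_le_iff₀ hA0]
      have e1 : X ^ (θ + 2 * a5 - a4) * X ^ (θ + a4) = X ^ (2 * θ) * (X ^ a5) ^ 2 := by
        rw [← rpow_natCast, ← rpow_mul hX0.le, ← rpow_add hX0, ← rpow_add hX0]
        congr 1; push_cast; ring
      calc h ^ 2 * D0 ^ 2 ≤ (4 * X ^ (2 * θ)) * (X ^ a5) ^ 2 := by gcongr
        _ = 8 * X ^ (θ + 2 * a5 - a4) * (X ^ (θ + a4) / 2) := by
            have : 8 * X ^ (θ + 2 * a5 - a4) * (X ^ (θ + a4) / 2) =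
              4 * (X ^ (θ + 2 * a5 - a4) * X ^ (θ + a4)) := by ring
            rw [this, e1]; ring
        _ ≤ _ := by gcongr
    have e2 : Z7 = X * X ^ (θ + 2 * a5 - a4) := by
      rw [hZ7]
      nth_rewrite 2 [← rpow_one X]
      rw [← rpow_add hX0]; congr 1; ring
    rw [e2]
    calc h ^ 2 * (2 ^ k * 2 ^ k * (2 ^ k * D0 * (Ψ * (2 ^ k * (2 * 2 ^ k * D0)))) * (2 / A)) =
        4 * (2 ^ k * 2 ^ k * 2 ^ k * 2 ^ k * 2 ^ k) * (h ^ 2 * D0 ^ 2 / A) * Ψ := by ring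
      _ = 4 * 32 ^ k * (h ^ 2 * D0 ^ 2 / A) * Ψ := by rw [h32]
      _ ≤ 4 * 32 ^ k * (8 * X ^ (θ + 2 * a5 - a4)) * (2 * X * a) := by gcongr
      _ = _ := by ring
  have hmain : h ^ 2 * (Λ * U0 * (4 ^ k * a * (32 * 2 ^ k * L * U0 * U * c1 * B ^ 2 +
      144 * 2 ^ k * L ^ 4 * U0 * √τ0 *
      √(c1 * N) * (√(c1 * N) / √D0 + √(c1 * B * √N) + √(N / U) + B)))) ≤
      (a * G) * (4 ^ k * a) * (64 * 2 ^ k * a ^ 4 * C3 ^ 2 * Z1 +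
        4608 * 2 ^ k * a ^ 4 * C3 ^ 2 * τ' * (Z2 + Z3 + Z4 + Z5)) := by
    calc _ = Λ * (4 ^ k * a) * (h ^ 2 * U0 * (32 * 2 ^ k * L * U0 * U * c1 * B ^ 2) +
        h ^ 2 * U0 * (144 * 2 ^ k * L ^ 4 * U0 * √τ0 *
      √(c1 * N) * (√(c1 * N) / √D0 + √(c1 * B * √N) + √(N / U) + B))) := by ring
      _ ≤ (a * G) * (4 ^ k * a) * (64 * 2 ^ k * a ^ 4 * C3 ^ 2 * Z1 +
        4608 * 2 ^ k * a ^ 4 * C3 ^ 2 * τ' * (Z2 + Z3 + Z4 + Z5)) := by gcongr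
  have hG0 : 0 ≤ G := by linarith
  have hp8 : (2 : ℝ) ^ k * 4 ^ k ≤ 32 ^ k := by
    rw [← mul_pow]
    apply pow_le_pow_left₀ (by norm_num) (by norm_num)
  have hk1 : (1 : ℝ) ≤ k + 1 := by linarith
  have f1 : (a * G) * (4 ^ k * a) * (64 * 2 ^ k * a ^ 4 * C3 ^ 2 * Z1 +
        4608 * 2 ^ k * a ^ 4 * C3 ^ 2 * τ' * (Z2 + Z3 + Z4 + Z5)) ≤
      4608 * 32 ^ k * (k + 1) * a ^ 6 * G * C3 ^ 2 * (τ' * (Z1 + Z2 + Z3 + Z4 + Z5)) := by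
    calc _ = (2 ^ k * 4 ^ k) * a ^ 6 * G * C3 ^ 2 * (64 * 1 * Z1 + 4608 * τ' * (Z2 + Z3 + Z4 + Z5)) := by
          ring
      _ ≤ 32 ^ k * a ^ 6 * G * C3 ^ 2 * (4608 * τ' * Z1 + 4608 * τ' * (Z2 + Z3 + Z4 + Z5)) := by
          gcongr
          norm_num
      _ = 4608 * 32 ^ k * 1 * a ^ 6 * G * C3 ^ 2 * (τ' * (Z1 + Z2 + Z3 + Z4 + Z5)) := by ring
      _ ≤ _ := by gcongr
  have f2 : 12 * 2 ^ k * 4 ^ k * (k + 1) * a * C3 * Z6 ≤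
      4608 * 32 ^ k * (k + 1) * a ^ 6 * G * C3 ^ 2 * Z6 := by
    calc 12 * 2 ^ k * 4 ^ k * (k + 1) * a * C3 * Z6 =
        12 * (2 ^ k * 4 ^ k) * (k + 1) * a ^ 1 * 1 * C3 ^ 1 * Z6 := by ring
      _ ≤ _ := by
          gcongr <;> norm_num
  have f3 : 64 * 32 ^ k * a * Z7 ≤ 4608 * 32 ^ k * (k + 1) * a ^ 6 * G * C3 ^ 2 * Z7 := by
    have hC2 : 1 ≤ C3 ^ 2 := one_le_pow₀ hC3
    calc 64 * 32 ^ k * a * Z7 = 64 * 32 ^ k * 1 * a ^ 1 * 1 * 1 * Z7 := by ring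
      _ ≤ _ := by
          gcongr
          · norm_num
          · norm_num
  calc _ = h ^ 2 * (Λ * U0 * (4 ^ k * a * (32 * 2 ^ k * L * U0 * U * c1 * B ^ 2 +
      144 * 2 ^ k * L ^ 4 * U0 * √τ0 *
      √(c1 * N) * (√(c1 * N) / √D0 + √(c1 * B * √N) + √(N / U) + B)))) +
      h ^ 2 * (2 ^ k * (c1 + 2 / A) * (B * ((1 + 4 ^ k) * (k * lg)))) +
      h ^ 2 * (2 ^ k * 2 ^ k * (2 ^ k * D0 * (Ψ * (2 ^ k * (2 * 2 ^ k * D0)))) * (2 / A)) := by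
        ring
    _ ≤ _ := by
        refine (add_le_add (add_le_add (hmain.trans f1) (t3.trans f2)) (t4.trans f3)).trans ?_
        apply le_of_eq
        ring

end Pool.Agent.Lib.MP_2a816b_nt
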