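import Mathlib
import Pool.Agent.Lib.MP_00e05b_nt.QSum
import Pool.Agent.Lib.MP_00e05b_nt.SharpCount
import Pool.Agent.Lib.MP_2a816b_nt.Ramanujan
import Pool.Agent.Lib.MP_2a816b_nt.Nl

/-!
# The points `a/(rs)`
-/

open Finset

namespace Pool.Agent.Lib.MP_2a816b_nt

open Pool.Agent.Lib.MP_00e05b_nt (DD mem_DD Ab mem_Ab card_Ab_upper card_Ab_lower)

/-- the rough parts attached to `r` -/
noncomputable def MS (z U0 A B r : ℕ) : Finset ℕ := by
  classical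
  exact (Finset.Ioc 0 B).filter (fun s => (r, s) ∈ DD z U0 A B)

lemma mem_MS {z U0 A B r s : ℕ} : s ∈ MS z U0 A B r ↔ (r, s) ∈ DD z U0 A B := by
  classical
  unfold MS
  rw [mem_filter, mem_Ioc]
  constructor
  · exact fun h => h.2
  · intro h
    have h' := h
    rw [mem_DD] at h'
    exact ⟨⟨h'.2.2.1, h'.2.2.2.1⟩, h⟩

lemma sum_DD_eq {E : Type} [AddCommMonoid E] (z U0 A B : ℕ) (f : ℕ → ℕ → E) :
    ∑ p ∈ DD z U0 A B, f p.1 p.2 = ∑ r ∈ Finset.Ioc 0 U0, ∑ s ∈ MS z U0 A B r, f r s := by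
  classical
  rw [sum_sigma']
  refine sum_bij' (fun (p : ℕ × ℕ) _ => (⟨p.1, p.2⟩ : Σ _ : ℕ, ℕ))
    (fun (x : Σ _ : ℕ, ℕ) _ => (x.1, x.2)) ?_ ?_ ?_ ?_ ?_
  · intro p hp
    have hp' := hp
    rw [mem_DD] at hp'
    rw [mem_sigma, mem_Ioc]
    exact ⟨⟨hp'.1, hp'.2.1⟩, mem_MS.2 hp⟩
  · intro x hx
    rw [mem_sigma] at hx
    exact mem_MS.1 hx.2
  · intro p _; rfl
  · intro x _; rfl
  · intro p _; rfl

lemma DD_coprime {z U0 A B : ℕ} {r s : ℕ} (h : (r, s) ∈ DD z U0 A B) : r.Coprime s := by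
  rw [mem_DD] at h
  obtain ⟨_, _, _, _, _, _, h7, h8, _, _⟩ := h
  by_contra hc
  obtain ⟨p, hp, h1, h2⟩ := Nat.Prime.not_coprime_iff_dvd.1 hc
  have := h7 p hp h1
  have := h8 p hp h2
  omega

lemma DD_inj {z U0 A B : ℕ} {r s r' s' : ℕ} (h : (r, s) ∈ DD z U0 A B)
    (h' : (r', s') ∈ DD z U0 A B) (hq : r * s = r' * s') : r = r' ∧ s = s' := by
  have key : ∀ {r s r' s' : ℕ}, (r, s) ∈ DD z U0 A B → (r', s') ∈ DD z U0 A B →
      r * s = r' * s' → r ∣ r' := by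
    intro r s r' s' h h' hq
    rw [mem_DD] at h h'
    have hcop : r.Coprime s' := by
      by_contra hc
      obtain ⟨p, hp, h1, h2⟩ := Nat.Prime.not_coprime_iff_dvd.1 hc
      have := h.2.2.2.2.2.2.1 p hp h1
      have := h'.2.2.2.2.2.2.2.1 p hp h2
      omega
    exact hcop.dvd_of_dvd_mul_right (hq ▸ dvd_mul_right r s)
  have h1 := key h h' hq
  have h2 := key h' h hq.symm
  have hr : r = r' := Nat.dvd_antisymm h1 h2
  subst hr
  rw [mem_DD] at h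
  exact ⟨rfl, Nat.eq_of_mul_eq_mul_left h.1 hq⟩

/-- the index type -/
abbrev Ix := Σ _ : ℕ × ℕ, Σ _ : ℕ, ℕ

/-- the points -/
noncomputable def PP (z U0 A B : ℕ) (c0 c1 : ℝ) : Finset Ix :=
  (DD z U0 A B).sigma (fun p => (Cop p.1).sigma (fun b => Ab c0 c1 p.1 p.2 b))

/-- the frequency of a point -/
noncomputable def xP (i : Ix) : ℝ := (i.2.2 : ℝ) / ((i.1.1 : ℝ) * i.1.2)

lemma mem_PP {z U0 A B : ℕ} {c0 c1 : ℝ} {i : Ix} : i ∈ PP z U0 A B c0 c1 ↔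
    i.1 ∈ DD z U0 A B ∧ i.2.1 ∈ Cop i.1.1 ∧ i.2.2 ∈ Ab c0 c1 i.1.1 i.1.2 i.2.1 := by
  unfold PP
  rw [mem_sigma, mem_sigma]

lemma sum_PP {E : Type} [AddCommMonoid E] (z U0 A B : ℕ) (c0 c1 : ℝ) (f : ℕ → ℕ → ℕ → ℕ → E) :
    ∑ i ∈ PP z U0 A B c0 c1, f i.1.1 i.1.2 i.2.1 i.2.2 =
      ∑ p ∈ DD z U0 A B, ∑ b ∈ Cop p.1, ∑ a ∈ Ab c0 c1 p.1 p.2 b, f p.1 p.2 b a := by
  unfold PP
  rw [sum_sigma]
  apply sum_congr rfl; intro p _
  rw [sum_sigma]

lemma PP_sep {z U0 A B : ℕ} {c0 c1 : ℝ} (hc1 : 0 ≤ c1) (i j : Ix)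
    (hi : i ∈ PP z U0 A B c0 c1) (hj : j ∈ PP z U0 A B c0 c1) (hij : i ≠ j) :
    1 / (B : ℝ) ^ 2 ≤ |xP i - xP j| := by
  rw [mem_PP] at hi hj
  obtain ⟨⟨r, s⟩, b, a⟩ := i
  obtain ⟨⟨r', s'⟩, b', a'⟩ := j
  simp only at hi hj
  obtain ⟨hi1, hi2, hi3⟩ := hi
  obtain ⟨hj1, hj2, hj3⟩ := hj
  have di := mem_DD.1 hi1
  have dj := mem_DD.1 hj1
  simp only at di dj
  have hr0 : 0 < r := di.1
  have hs0 : 0 < s := di.2.2.1
  have hr0' : 0 < r' := dj.1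
  have hs0' : 0 < s' := dj.2.2.1
  rw [mem_Ab hc1 hr0 hs0] at hi3
  rw [mem_Ab hc1 hr0' hs0'] at hj3
  have hcop := DD_coprime hi1
  have hcop' := DD_coprime hj1
  -- numerators are prime to the denominators
  have key : ∀ {r s b a : ℕ}, r.Coprime s → b ∈ Cop r → a.Coprime s → a ≡ b * s [MOD r] →
      a.Coprime (r * s) := by
    intro r s b a hc hb ha hm
    apply Nat.Coprime.mul_right _ ha
    have h1 : (b * s).Coprime r := by
      apply Nat.Coprime.mul_left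
      · unfold Cop at hb; exact (mem_filter.1 hb).2
      · exact hc.symm
    have h2 : Nat.gcd a r = Nat.gcd (b * s) r := hm.gcd_eq
    unfold Nat.Coprime at h1 ⊢
    rw [h2, h1]
  have ha := key hcop hi2 hi3.2.2.1 hi3.2.2.2
  have ha' := key hcop' hj2 hj3.2.2.1 hj3.2.2.2
  have hr : (0 : ℝ) < r := by exact_mod_cast hr0
  have hs : (0 : ℝ) < s := by exact_mod_cast hs0
  have hr' : (0 : ℝ) < r' := by exact_mod_cast hr0'
  have hs' : (0 : ℝ) < s' := by exact_mod_cast hs0'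
  have hne : (a : ℤ) * (r' * s') - a' * (r * s) ≠ 0 := by
    intro h0
    have h1 : a * (r' * s') = a' * (r * s) := by
      have : (a : ℤ) * (r' * s') = a' * (r * s) := by linarith
      exact_mod_cast this
    have hd1 : r * s ∣ r' * s' := by
      have : r * s ∣ a * (r' * s') := by rw [h1]; exact dvd_mul_left _ _
      exact ha.symm.dvd_of_dvd_mul_left this
    have hd2 : r' * s' ∣ r * s := by
      have : r' * s' ∣ a' * (r * s) := by rw [← h1]; exact dvd_mul_left _ _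
      exact ha'.symm.dvd_of_dvd_mul_left this
    have hq := Nat.dvd_antisymm hd1 hd2
    obtain ⟨rfl, rfl⟩ := DD_inj hi1 hj1 hq
    have haa : a = a' := by
      exact Nat.eq_of_mul_eq_mul_right (Nat.mul_pos hr0 hs0) h1
    subst haa
    have hbb : b * s ≡ b' * s [MOD r] := hi3.2.2.2.symm.trans hj3.2.2.2
    have hbb' : b ≡ b' [MOD r] := Nat.ModEq.cancel_right_of_coprime hcop hbb
    have hb1 : b < r := by unfold Cop at hi2; exact mem_range.1 (mem_filter.1 hi2).1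
    have hb2 : b' < r := by unfold Cop at hj2; exact mem_range.1 (mem_filter.1 hj2).1
    have : b = b' := Nat.ModEq.eq_of_lt_of_lt hbb' hb1 hb2
    subst this
    exact hij rfl
  have h1 : (1 : ℝ) ≤ |((a : ℤ) * (r' * s') - a' * (r * s) : ℤ)| := by
    have := Int.one_le_abs hne
    exact_mod_cast this
  have hx : xP ⟨(r, s), b, a⟩ - xP ⟨(r', s'), b', a'⟩ =
      (((a : ℤ) * (r' * s') - a' * (r * s) : ℤ) : ℝ) / ((r * s) * (r' * s')) := by
    unfold xP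
    push_cast
    field_simp
  rw [hx, abs_div, abs_of_pos (by positivity : (0 : ℝ) < (r * s) * (r' * s'))]
  have hB1 : ((r : ℝ) * s) ≤ B := by exact_mod_cast di.2.2.2.2.2.2.2.2.2
  have hB2 : ((r' : ℝ) * s') ≤ B := by exact_mod_cast dj.2.2.2.2.2.2.2.2.2
  have hB3 : ((r : ℝ) * s) * (r' * s') ≤ (B : ℝ) ^ 2 := by
    rw [sq]
    gcongr
  have hpos : (0 : ℝ) < ((r : ℝ) * s) * (r' * s') := by positivity
  have habs : (|(((a : ℤ) * (r' * s') - a' * (r * s) : ℤ) : ℝ)|) =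
      ((|((a : ℤ) * (r' * s') - a' * (r * s) : ℤ)| : ℤ) : ℝ) := by push_cast; rfl
  rw [habs]
  gcongr

lemma PP_coprime {z U0 A B : ℕ} {c0 c1 : ℝ} (hc1 : 0 ≤ c1) {i : Ix}
    (hi : i ∈ PP z U0 A B c0 c1) : 0 < i.1.1 ∧ 0 < i.1.2 ∧ i.1.1 * i.1.2 ≤ B ∧
      c0 ≤ xP i ∧ xP i ≤ c1 := by
  rw [mem_PP] at hi
  obtain ⟨h1, _, h3⟩ := hi
  have d := mem_DD.1 h1
  have hr0 : 0 < i.1.1 := d.1
  have hs0 : 0 < i.1.2 := d.2.2.1
  rw [mem_Ab hc1 hr0 hs0] at h3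
  exact ⟨hr0, hs0, d.2.2.2.2.2.2.2.2.2, h3.1, h3.2.1⟩

lemma card_PP {z U0 A B : ℕ} {c0 c1 : ℝ} (hc0 : 0 < c0) (hc1 : c1 ≤ 1) (hB : 0 < B) :
    ((PP z U0 A B c0 c1).card : ℝ) ≤ (B : ℝ) ^ 2 := by
  classical
  have hBr : (0 : ℝ) < B := by exact_mod_cast hB
  have hB1 : (1 : ℝ) ≤ B := by exact_mod_cast hB
  rcases (PP z U0 A B c0 c1).eq_empty_or_nonempty with h0 | ⟨i0, hi0⟩
  · rw [h0]; simp
  have hc1' : 0 ≤ c1 := by
    by_contra hneg
    push Not at hneg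
    have hi := hi0
    rw [mem_PP] at hi
    have d := mem_DD.1 hi.1
    have h3 := hi.2.2
    unfold Pool.Agent.Lib.MP_00e05b_nt.Ab at h3
    rw [mem_filter, mem_Ico] at h3
    have hr : (0 : ℝ) < i0.1.1 := by exact_mod_cast d.1
    have hs : (0 : ℝ) < i0.1.2 := by exact_mod_cast d.2.2.1
    have h4 : ⌊c1 * ((i0.1.1 : ℝ) * i0.1.2)⌋₊ = 0 := by
      apply Nat.floor_eq_zero.2
      have : c1 * ((i0.1.1 : ℝ) * i0.1.2) ≤ 0 := by
        apply mul_nonpos_of_nonpos_of_nonneg hneg.le (by positivity)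
      linarith
    have h5 : 0 < ⌈c0 * ((i0.1.1 : ℝ) * i0.1.2)⌉₊ := Nat.ceil_pos.2 (by positivity)
    omega
  -- the map i ↦ ⌊B² x_i⌋ is injective
  have h1 : (PP z U0 A B c0 c1).card ≤ (Icc 1 (B ^ 2)).card := by
    apply card_le_card_of_injOn (fun i => ⌈(B : ℝ) ^ 2 * xP i⌉₊)
    · intro i hi
      rw [mem_coe] at hi
      obtain ⟨_, _, _, h4, h5⟩ := PP_coprime hc1' hi
      rw [mem_coe, mem_Icc]
      constructor
      · apply Nat.ceil_pos.2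
        have : 0 < xP i := lt_of_lt_of_le hc0 h4
        positivity
      · apply Nat.ceil_le.2
        push_cast
        have : xP i ≤ 1 := h5.trans hc1
        calc (B : ℝ) ^ 2 * xP i ≤ (B : ℝ) ^ 2 * 1 := by gcongr
          _ = _ := mul_one _
    · intro i hi j hj hij
      by_contra hne
      rw [mem_coe] at hi hj
      have hsep := PP_sep hc1' i j hi hj hne
      simp only at hij
      have hxi : 0 < xP i := lt_of_lt_of_le hc0 (PP_coprime hc1' hi).2.2.2.1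
      have hxj : 0 < xP j := lt_of_lt_of_le hc0 (PP_coprime hc1' hj).2.2.2.1
      have e1 := Nat.ceil_lt_add_one (a := (B : ℝ) ^ 2 * xP i) (by positivity)
      have e2 := Nat.le_ceil ((B : ℝ) ^ 2 * xP i)
      have e3 := Nat.ceil_lt_add_one (a := (B : ℝ) ^ 2 * xP j) (by positivity)
      have e4 := Nat.le_ceil ((B : ℝ) ^ 2 * xP j)
      rw [hij] at e1 e2
      have h3 : |(B : ℝ) ^ 2 * xP i - (B : ℝ) ^ 2 * xP j| < 1 := by
        rw [abs_lt]; constructor <;> linarith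
      rw [← mul_sub, abs_mul, abs_of_pos (by positivity : (0 : ℝ) < (B : ℝ) ^ 2)] at h3
      have h4 : (B : ℝ) ^ 2 * (1 / (B : ℝ) ^ 2) ≤ (B : ℝ) ^ 2 * |xP i - xP j| := by gcongr
      rw [mul_one_div, div_self (by positivity)] at h4
      linarith
  rw [Nat.card_Icc, Nat.add_sub_cancel] at h1
  exact_mod_cast h1

end Pool.Agent.Lib.MP_2a816b_nt
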