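import Mathlib
import Pool.Agent.Lib.MP_2a816b_nt.FunctA
import Pool.Agent.Lib.MP_2a816b_nt.NumPts

/-!
# Sums over the numerators (after helper89)
-/

open Finset Real

namespace Pool.Agent.Lib.MP_2a816b_nt

open Pool.Agent.Lib.MP_00e05b_nt (DD mem_DD Ab mem_Ab card_Ab_upper card_Ab_lower)



/-- product function -/
noncomputable def pf (f : (p : ℕ) → ZMod p → ℂ) (I : Finset ℕ) (a : ℕ) : ℂ := ∏ p ∈ I, f p (a : ZMod p)

lemma pf_complete (f : (p : ℕ) → ZMod p → ℂ) (d : ℕ) (hd : 1 < d) (hsq : Squarefree d)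
    (hf : ∀ p ∈ d.primeFactors, ∀ g : ZMod p ≃ ZMod p,
      ∑ x ∈ range p, f p (g (x : ZMod p)) = 0) (m t : ℕ) (hm : m.Coprime d) :
    ∑ j ∈ range d, pf f d.primeFactors (t + m * j) = 0 := by
  obtain ⟨p, hp, hpd⟩ := Nat.exists_prime_and_dvd (show d ≠ 1 by omega)
  have hfact : Fact p.Prime := ⟨hp⟩
  have hmem : p ∈ d.primeFactors := by
    rw [Nat.mem_primeFactors]; exact ⟨hp, hpd, by omega⟩
  obtain ⟨d', hd'⟩ := hpd
  have hd'0 : 0 < d' := Nat.pos_of_ne_zero (by rintro rfl; simp at hd'; omega)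
  have hpd' : ¬ p ∣ d' := by
    intro h
    obtain ⟨c, hc⟩ := h
    have h2 : p * p ∣ d := ⟨c, by rw [hd', hc]; ring⟩
    exact hp.one_lt.ne' (Nat.isUnit_iff.1 (hsq p h2))
  have hpm : ¬ p ∣ m := by
    intro h
    have h3 : p ∣ Nat.gcd m d := Nat.dvd_gcd h ⟨d', hd'⟩
    rw [hm] at h3
    exact hp.one_lt.ne' (Nat.dvd_one.1 h3)
  have e0 : d = d' * p := by rw [hd']; ring
  have e1 : ∑ j ∈ range d, pf f d.primeFactors (t + m * j) =
      ∑ j ∈ range (d' * p), pf f d.primeFactors (t + m * j) := by rw [← e0]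
  rw [e1, sum_range_mul_eq, sum_comm]
  apply sum_eq_zero; intro u _
  have h1 : ∀ v ∈ range p, pf f d.primeFactors (t + m * (d' * v + u)) =
      f p ((m : ZMod p) * d' * (v : ZMod p) + (t + m * u)) *
        ∏ q ∈ d.primeFactors.erase p, f q ((t + m * u : ℕ) : ZMod q) := by
    intro v _
    unfold pf
    rw [← mul_prod_erase _ _ hmem]
    congr 1
    · congr 1
      push_cast
      ring
    · apply prod_congr rfl; intro q hq
      rw [mem_erase, Nat.mem_primeFactors] at hq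
      congr 1
      have hqd' : q ∣ d' := by
        have h4 : q ∣ p * d' := by rw [← hd']; exact hq.2.2.1
        rcases (Nat.Prime.dvd_mul hq.2.1).1 h4 with h5 | h5
        · exact absurd ((Nat.prime_dvd_prime_iff_eq hq.2.1 hp).1 h5) hq.1
        · exact h5
      have h6 : ((d' : ℕ) : ZMod q) = 0 := (ZMod.natCast_eq_zero_iff _ _).2 hqd'
      push_cast
      rw [h6]
      ring
  rw [sum_congr rfl h1, ← sum_mul]
  have hmr : (m : ZMod p) * d' ≠ 0 := by
    apply mul_ne_zero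
    · rw [Ne, ZMod.natCast_eq_zero_iff]; exact hpm
    · rw [Ne, ZMod.natCast_eq_zero_iff]; exact hpd'
  have h2 := hf p hmem ((Equiv.mulLeft₀ ((m : ZMod p) * d') hmr).trans
    (Equiv.addRight ((t : ZMod p) + m * u)))
  have h3 : ∑ v ∈ range p, f p ((m : ZMod p) * d' * (v : ZMod p) + (t + m * u)) = 0 := h2
  rw [h3, zero_mul]

lemma pf_periodic (f : (p : ℕ) → ZMod p → ℂ) (d : ℕ) (m t j : ℕ) :
    pf f d.primeFactors (t + m * (d + j)) = pf f d.primeFactors (t + m * j) := by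
  unfold pf
  apply prod_congr rfl; intro q hq
  rw [Nat.mem_primeFactors] at hq
  congr 1
  have h6 : ((d : ℕ) : ZMod q) = 0 := (ZMod.natCast_eq_zero_iff _ _).2 hq.2.1
  push_cast
  rw [h6]
  ring

lemma ap_image (m t U : ℕ) (hm : 0 < m) :
    (range U).filter (fun a => a ≡ t [MOD m]) =
      (range ((U - t % m + m - 1) / m)).image (fun j => t % m + m * j) := by
  ext a
  rw [mem_filter, mem_range, mem_image]
  have htm : t % m < m := Nat.mod_lt _ hm
  constructor
  · rintro ⟨h1, h2⟩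
    have h3 : a % m = t % m := h2
    have h4 : a = t % m + m * (a / m) := by
      rw [← h3]; exact (Nat.mod_add_div a m).symm
    refine ⟨a / m, ?_, h4.symm⟩
    rw [mem_range, Nat.lt_iff_add_one_le, Nat.le_div_iff_mul_le hm]
    have h5 : m * (a / m) + 1 ≤ U - t % m := by omega
    calc (a / m + 1) * m = m * (a / m) + m := by ring
      _ ≤ U - t % m + m - 1 := by omega
  · rintro ⟨j, hj, rfl⟩
    rw [mem_range, Nat.lt_iff_add_one_le, Nat.le_div_iff_mul_le hm] at hj
    constructor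
    · have : (j + 1) * m = m * j + m := by ring
      omega
    · unfold Nat.ModEq
      rw [Nat.add_mul_mod_self_left, Nat.mod_mod]

lemma pf_range (f : (p : ℕ) → ZMod p → ℂ) (d : ℕ) (hd : 1 < d) (hsq : Squarefree d)
    (hf : ∀ p ∈ d.primeFactors, ∀ g : ZMod p ≃ ZMod p,
      ∑ x ∈ range p, f p (g (x : ZMod p)) = 0) (Bd : ℝ)
    (hB : ∀ a, ‖pf f d.primeFactors a‖ ≤ Bd) (m t : ℕ) (hm0 : 0 < m) (hm : m.Coprime d) (U : ℕ) :
    ‖∑ a ∈ (range U).filter (fun a => a ≡ t [MOD m]), pf f d.primeFactors a‖ ≤ Bd * d := by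
  rw [ap_image m t U hm0, sum_image]
  · exact periodic_sum_bound (fun j => pf f d.primeFactors (t % m + m * j)) d Bd (by omega)
      (fun j => pf_periodic f d m (t % m) j) (pf_complete f d hd hsq hf m (t % m) hm)
      (fun j => hB _) _
  · intro a _ b _ hab
    exact Nat.eq_of_mul_eq_mul_left hm0 (Nat.add_left_cancel hab)

lemma pf_Ico (f : (p : ℕ) → ZMod p → ℂ) (d : ℕ) (hd : 1 < d) (hsq : Squarefree d)
    (hf : ∀ p ∈ d.primeFactors, ∀ g : ZMod p ≃ ZMod p,
      ∑ x ∈ range p, f p (g (x : ZMod p)) = 0) (Bd : ℝ)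
    (hB : ∀ a, ‖pf f d.primeFactors a‖ ≤ Bd) (m t : ℕ) (hm0 : 0 < m) (hm : m.Coprime d) (L U : ℕ) :
    ‖∑ a ∈ (Ico L U).filter (fun a => a ≡ t [MOD m]), pf f d.primeFactors a‖ ≤ 2 * Bd * d := by
  have hB0 : 0 ≤ Bd := (norm_nonneg _).trans (hB 0)
  rcases Nat.lt_or_ge U L with h | h
  · rw [Ico_eq_empty_of_le h.le, filter_empty, sum_empty, norm_zero]
    positivity
  · have h1 := pf_range f d hd hsq hf Bd hB m t hm0 hm U
    have h2 := pf_range f d hd hsq hf Bd hB m t hm0 hm L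
    have h3 : ∑ a ∈ (Ico L U).filter (fun a => a ≡ t [MOD m]), pf f d.primeFactors a =
        ∑ a ∈ (range U).filter (fun a => a ≡ t [MOD m]), pf f d.primeFactors a -
        ∑ a ∈ (range L).filter (fun a => a ≡ t [MOD m]), pf f d.primeFactors a := by
      rw [sum_filter, sum_filter, sum_filter, sum_Ico_eq_sub _ h]
    rw [h3]
    refine (norm_sub_le _ _).trans ?_
    linarith

/-- with coprimality to further primes -/
lemma pf_Ico_cop (f : (p : ℕ) → ZMod p → ℂ) (d : ℕ) (hd : 1 < d) (hsq : Squarefree d)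
    (hf : ∀ p ∈ d.primeFactors, ∀ g : ZMod p ≃ ZMod p,
      ∑ x ∈ range p, f p (g (x : ZMod p)) = 0) (Bd : ℝ)
    (hB : ∀ a, ‖pf f d.primeFactors a‖ ≤ Bd) (L U : ℕ) (P : Finset ℕ)
    (hP : ∀ p ∈ P, p.Prime ∧ ¬ p ∣ d) :
    ∀ (m t : ℕ), 0 < m → m.Coprime d → (∀ p ∈ P, ¬ p ∣ m) →
    ‖∑ a ∈ (Ico L U).filter (fun a => a ≡ t [MOD m] ∧ ∀ p ∈ P, ¬ p ∣ a), pf f d.primeFactors a‖ ≤
      2 ^ P.card * (2 * Bd * d) := by
  classical
  induction P using Finset.induction_on with
  | empty =>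
    intro m t hm0 hm _
    simpa using pf_Ico f d hd hsq hf Bd hB m t hm0 hm L U
  | insert p P hpP ih =>
    intro m t hm0 hm hmP
    have hpp := hP p (mem_insert_self p P)
    have ih' := ih (fun q hq => hP q (mem_insert_of_mem hq))
    have h1 := ih' m t hm0 hm (fun q hq => hmP q (mem_insert_of_mem hq))
    -- the class modulo m * p
    have hmp : m.Coprime p := by
      rw [Nat.coprime_comm, Nat.Prime.coprime_iff_not_dvd hpp.1]
      exact hmP p (mem_insert_self p P)
    obtain ⟨t', ht'1, ht'2⟩ := Nat.chineseRemainder hmp t 0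
    have h2 := ih' (m * p) t' (Nat.mul_pos hm0 hpp.1.pos) (by
        apply Nat.Coprime.mul_left hm
        rw [Nat.Prime.coprime_iff_not_dvd hpp.1]
        exact hpp.2) (by
        intro q hq hqd
        have hq' := hP q (mem_insert_of_mem hq)
        rcases (Nat.Prime.dvd_mul hq'.1).1 hqd with h | h
        · exact hmP q (mem_insert_of_mem hq) h
        · have := (Nat.prime_dvd_prime_iff_eq hq'.1 hpp.1).1 h
          subst this
          exact hpP hq)
    have h3 : ∑ a ∈ (Ico L U).filter (fun a => a ≡ t [MOD m] ∧ ∀ q ∈ insert p P, ¬ q ∣ a),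
        pf f d.primeFactors a =
        ∑ a ∈ (Ico L U).filter (fun a => a ≡ t [MOD m] ∧ ∀ q ∈ P, ¬ q ∣ a), pf f d.primeFactors a -
        ∑ a ∈ (Ico L U).filter (fun a => a ≡ t' [MOD m * p] ∧ ∀ q ∈ P, ¬ q ∣ a),
          pf f d.primeFactors a := by
      rw [sum_filter, sum_filter, sum_filter, ← sum_sub_distrib]
      apply sum_congr rfl; intro a _
      have hiff : a ≡ t' [MOD m * p] ↔ (a ≡ t [MOD m] ∧ p ∣ a) := by
        rw [← Nat.modEq_and_modEq_iff_modEq_mul hmp]
        constructor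
        · rintro ⟨g1, g2⟩
          exact ⟨g1.trans ht'1, (Nat.modEq_zero_iff_dvd).1 (g2.trans ht'2)⟩
        · rintro ⟨g1, g2⟩
          exact ⟨g1.trans ht'1.symm, ((Nat.modEq_zero_iff_dvd).2 g2).trans ht'2.symm⟩
      simp only [hiff, forall_mem_insert]
      by_cases c1 : a ≡ t [MOD m]
      · by_cases c2 : p ∣ a
        · by_cases c3 : ∀ q ∈ P, ¬ q ∣ a
          · simp [c1, c2]
          · simp [c2, c3]
        · by_cases c3 : ∀ q ∈ P, ¬ q ∣ a
          · simp [c1, c2]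
          · simp [c3]
      · simp [c1]
    rw [h3, card_insert_of_notMem hpP, pow_succ]
    refine (norm_sub_le _ _).trans ?_
    linarith




/-- the numerator modulo `s` attached to `a` -/
noncomputable def numc (r s a : ℕ) : ℕ := ((a : ZMod s) * (r : ZMod s)⁻¹).val

lemma numc_mul (r s a : ℕ) (hs : 0 < s) (hrs : r.Coprime s) : numc r s a * r ≡ a [MOD s] := by
  have : NeZero s := ⟨hs.ne'⟩
  rw [← ZMod.natCast_eq_natCast_iff]
  push_cast
  unfold numc
  rw [ZMod.natCast_zmod_val, mul_assoc, ZMod.inv_mul_of_unit, mul_one]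
  rw [ZMod.isUnit_iff_coprime]
  exact hrs

lemma numc_mem (r s a : ℕ) (hs : 0 < s) (hrs : r.Coprime s) (has : a.Coprime s) :
    numc r s a ∈ Cop s := by
  have : NeZero s := ⟨hs.ne'⟩
  unfold Cop
  rw [mem_filter, mem_range]
  refine ⟨ZMod.val_lt _, ?_⟩
  have h1 : Nat.gcd (numc r s a * r) s = Nat.gcd a s := (numc_mul r s a hs hrs).gcd_eq
  have h2 : Nat.gcd (numc r s a * r) s = 1 := by rw [h1]; exact has
  exact Nat.Coprime.coprime_mul_right h2

lemma numc_frac (r s a b : ℕ) (hr : 0 < r) (hs : 0 < s) (hrs : r.Coprime s)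
    (hab : a ≡ b * s [MOD r]) :
    ∃ t : ℤ, (a : ℝ) / (r * s) = (b : ℝ) / r + (numc r s a : ℝ) / s + t := by
  set c := numc r s a with hc
  have hcr' : c * r ≡ a [MOD s] := numc_mul r s a hs hrs
  have hd1 : (r : ℤ) ∣ a - b * s - c * r := by
    have h1 : (r : ℤ) ∣ a - b * s := by
      have := (Nat.modEq_iff_dvd.1 hab.symm)
      push_cast at this
      exact this
    exact dvd_sub h1 (dvd_mul_left _ _)
  have hd2 : (s : ℤ) ∣ a - b * s - c * r := by
    have h1 : (s : ℤ) ∣ a - c * r := by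
      have := (Nat.modEq_iff_dvd.1 hcr')
      push_cast at this
      exact this
    have h2 : (a : ℤ) - b * s - c * r = (a - c * r) - b * s := by ring
    rw [h2]
    exact dvd_sub h1 (dvd_mul_left _ _)
  have hcopz : IsCoprime (r : ℤ) (s : ℤ) := Nat.isCoprime_iff_coprime.2 hrs
  obtain ⟨t, ht⟩ := hcopz.mul_dvd hd1 hd2
  refine ⟨t, ?_⟩
  have hr' : (r : ℝ) ≠ 0 := by exact_mod_cast hr.ne'
  have hs' : (s : ℝ) ≠ 0 := by exact_mod_cast hs.ne'
  have h3 : (a : ℝ) = b * s + c * r + r * s * t := by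
    have : ((a : ℤ) - b * s - c * r : ℤ) = r * s * t := ht
    have h4 : ((a : ℝ) - b * s - c * r) = r * s * t := by exact_mod_cast this
    linarith
  rw [h3]
  field_simp

/-- the residue at `p` -/
noncomputable def vv (r s n p : ℕ) : ℕ := (((r : ZMod p) * ((s / p : ℕ) : ZMod p))⁻¹ * (n : ZMod p)).val

/-- the local functions of `a` -/
noncomputable def fA (r s n : ℕ) (p : ℕ) (x : ZMod p) : ℂ :=
  if p ∣ n then 0 else kapN p (vv r s n p) x.val

lemma kapN_mod (p : ℕ) (hp : p.Prime) (v a a' : ℕ) (h : (a : ZMod p) = a') :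
    kapN p v a = kapN p v a' := by
  have : Fact p.Prime := ⟨hp⟩
  rw [kapN_eq, kapN_eq, h]

lemma unit_rs (r s p : ℕ) (hp : p.Prime) (hps : p ∣ s) (hsq : Squarefree s) (hrs : r.Coprime s) :
    (r : ZMod p) * ((s / p : ℕ) : ZMod p) ≠ 0 := by
  have : Fact p.Prime := ⟨hp⟩
  apply mul_ne_zero
  · rw [Ne, ZMod.natCast_eq_zero_iff]
    intro h
    have h3 : p ∣ Nat.gcd r s := Nat.dvd_gcd h hps
    rw [hrs] at h3
    exact hp.one_lt.ne' (Nat.dvd_one.1 h3)
  · rw [Ne, ZMod.natCast_eq_zero_iff]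
    exact sqfree_not_dvd hp hsq hps

lemma fA_sum (r s n p : ℕ) (hp : p.Prime) (hps : p ∣ s) (hsq : Squarefree s) (hrs : r.Coprime s)
    (g : ZMod p ≃ ZMod p) : ∑ x ∈ range p, fA r s n p (g (x : ZMod p)) = 0 := by
  have : Fact p.Prime := ⟨hp⟩
  rw [sum_range_zmod p (fun x => fA r s n p (g x))]
  have h1 : ∑ x : ZMod p, fA r s n p (g x) = ∑ x : ZMod p, fA r s n p x :=
    Fintype.sum_equiv g _ _ (fun _ => rfl)
  rw [h1]
  unfold fA
  by_cases hn : p ∣ n
  · simp [hn]
  · simp only [hn, if_false]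
    have h2 : ∀ x : ZMod p, kapN p (vv r s n p) x.val = kap p ((vv r s n p : ℕ) : ZMod p) x := by
      intro x
      rw [kapN_eq, ZMod.natCast_zmod_val]
    simp_rw [h2]
    apply sum_kap
    unfold vv
    rw [ZMod.natCast_zmod_val]
    apply mul_ne_zero
    · exact inv_ne_zero (unit_rs r s p hp hps hsq hrs)
    · rw [Ne, ZMod.natCast_eq_zero_iff]; exact hn

lemma fA_eq (r s a n p : ℕ) (hp : p.Prime) (hps : p ∣ s) (hsq : Squarefree s) (hrs : r.Coprime s)
    (hs : 0 < s) (ha : ¬ p ∣ a) : fA r s n p (a : ZMod p) = kapN p (fam (numc r s a) s p) n := by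
  have hfact : Fact p.Prime := ⟨hp⟩
  unfold fA
  by_cases hn : p ∣ n
  · rw [if_pos hn]
    unfold kapN
    rw [if_pos hn]
  · rw [if_neg hn]
    rw [kapN_mod p hp (vv r s n p) (a : ZMod p).val a (by rw [ZMod.natCast_zmod_val])]
    rw [kapN_eq, kapN_eq]
    unfold kap
    have hn' : (n : ZMod p) ≠ 0 := by rw [Ne, ZMod.natCast_eq_zero_iff]; exact hn
    have ha' : (a : ZMod p) ≠ 0 := by rw [Ne, ZMod.natCast_eq_zero_iff]; exact ha
    rw [if_neg ha', if_neg hn']
    congr 2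
    have h1 := fam_mul (numc r s a) s p hp hsq hps
    have h2 : (numc r s a : ZMod p) * r = a := by
      have h3 := (numc_mul r s a hs hrs).of_dvd hps
      rw [← ZMod.natCast_eq_natCast_iff] at h3
      push_cast at h3
      exact h3
    have hu := unit_rs r s p hp hps hsq hrs
    have h4 : ((fam (numc r s a) s p : ℕ) : ZMod p) * ((r : ZMod p) * ((s / p : ℕ) : ZMod p)) = a := by
      rw [← h2, ← h1]; ring
    have h5 : ((fam (numc r s a) s p : ℕ) : ZMod p) =
        a * ((r : ZMod p) * ((s / p : ℕ) : ZMod p))⁻¹ := by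
      rw [← h4, mul_assoc, mul_inv_cancel₀ hu, mul_one]
    rw [h5]
    unfold vv
    rw [ZMod.natCast_zmod_val]
    ring

lemma norm_fA_le (r s n p : ℕ) (hp : p.Prime) (x : ZMod p) : ‖fA r s n p x‖ ≤ 2 := by
  unfold fA
  split_ifs
  · simp
  · exact norm_kapN_le p hp _ _

/-- For a fixed `n` the sum over the numerators of the kernel of a divisor `d > 1` is small. -/
lemma sum_kapF_Ab (c0 c1 : ℝ) (r s b d n k : ℕ) (hr : 0 < r) (hs : 0 < s) (hsq : Squarefree s)
    (hrs : r.Coprime s) (hk : s.primeFactors.card ≤ k) (hd : 1 < d) (hds : d ∣ s) :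
    ‖∑ a ∈ Ab c0 c1 r s b, kapF (fam (numc r s a) s) d.primeFactors n‖ ≤
      2 ^ k * (2 * 2 ^ k * d) := by
  classical
  have hdsq : Squarefree d := hsq.squarefree_of_dvd hds
  have hd0 : d ≠ 0 := by omega
  have hsub : d.primeFactors ⊆ s.primeFactors := Nat.primeFactors_mono hds hs.ne'
  set P : Finset ℕ := s.primeFactors \ d.primeFactors with hP
  have hPk : P.card ≤ k := (card_le_card sdiff_subset).trans hk
  have h1 : ∑ a ∈ Ab c0 c1 r s b, kapF (fam (numc r s a) s) d.primeFactors n =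
      ∑ a ∈ (Ico ⌈c0 * (r * s)⌉₊ (⌊c1 * (r * s)⌋₊ + 1)).filter
        (fun a => a ≡ b * s [MOD r] ∧ ∀ p ∈ P, ¬ p ∣ a), pf (fA r s n) d.primeFactors a := by
    unfold Pool.Agent.Lib.MP_00e05b_nt.Ab
    rw [sum_filter, sum_filter]
    apply sum_congr rfl; intro a _
    have hcop : a.Coprime s ↔ ∀ p ∈ s.primeFactors, ¬ p ∣ a := by
      constructor
      · intro h p hp hpa
        rw [Nat.mem_primeFactors] at hp
        have h3 : p ∣ Nat.gcd a s := Nat.dvd_gcd hpa hp.2.1
        rw [h] at h3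
        exact hp.1.one_lt.ne' (Nat.dvd_one.1 h3)
      · intro h
        by_contra hc
        obtain ⟨p, hp, h1, h2⟩ := Nat.Prime.not_coprime_iff_dvd.1 hc
        exact h p (by rw [Nat.mem_primeFactors]; exact ⟨hp, h2, hs.ne'⟩) h1
    by_cases c1' : a.Coprime s ∧ a ≡ b * s [MOD r]
    · have c2 : a ≡ b * s [MOD r] ∧ ∀ p ∈ P, ¬ p ∣ a :=
        ⟨c1'.2, fun p hp => hcop.1 c1'.1 p (mem_sdiff.1 hp).1⟩
      rw [if_pos c1', if_pos c2]
      unfold kapF pf
      apply prod_congr rfl; intro p hp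
      have hp' := hp
      rw [Nat.mem_primeFactors] at hp'
      rw [fA_eq r s a n p hp'.1 (hp'.2.1.trans hds) hsq hrs hs (hcop.1 c1'.1 p (hsub hp))]
    · rw [if_neg c1']
      by_cases c2 : a ≡ b * s [MOD r] ∧ ∀ p ∈ P, ¬ p ∣ a
      · rw [if_pos c2]
        -- some prime of d divides a
        have : ¬ a.Coprime s := fun h => c1' ⟨h, c2.1⟩
        rw [hcop] at this
        push Not at this
        obtain ⟨p, hp, hpa⟩ := this
        have hpd : p ∈ d.primeFactors := by
          by_contra hc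
          exact c2.2 p (mem_sdiff.2 ⟨hp, hc⟩) hpa
        have hpp := Nat.prime_of_mem_primeFactors hpd
        have hfact : Fact p.Prime := ⟨hpp⟩
        symm
        unfold pf
        apply prod_eq_zero hpd
        unfold fA
        split_ifs
        · rfl
        · rw [(ZMod.natCast_eq_zero_iff a p).2 hpa, ZMod.val_zero]
          unfold kapN
          rw [if_pos (dvd_zero p)]
      · rw [if_neg c2]
  rw [h1]
  have hB : ∀ a, ‖pf (fA r s n) d.primeFactors a‖ ≤ 2 ^ k := by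
    intro a
    unfold pf
    rw [norm_prod]
    calc ∏ p ∈ d.primeFactors, ‖fA r s n p (a : ZMod p)‖ ≤ ∏ p ∈ d.primeFactors, (2 : ℝ) := by
          apply prod_le_prod
          · intro p _; exact norm_nonneg _
          · intro p hp
            exact norm_fA_le r s n p (Nat.prime_of_mem_primeFactors hp) _
      _ = 2 ^ d.primeFactors.card := by rw [prod_const]
      _ ≤ 2 ^ k := pow_le_pow_right₀ (by norm_num) ((card_le_card hsub).trans hk)
  have h2 := pf_Ico_cop (fA r s n) d hd hdsq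
    (fun p hp g => by
      rw [Nat.mem_primeFactors] at hp
      exact fA_sum r s n p hp.1 (hp.2.1.trans hds) hsq hrs g) (2 ^ k) hB
    ⌈c0 * (r * s)⌉₊ (⌊c1 * (r * s)⌋₊ + 1) P
    (fun p hp => by
      rw [hP, mem_sdiff] at hp
      refine ⟨Nat.prime_of_mem_primeFactors hp.1, fun h => hp.2 ?_⟩
      rw [Nat.mem_primeFactors]
      exact ⟨Nat.prime_of_mem_primeFactors hp.1, h, hd0⟩) r (b * s) hr
    (Nat.Coprime.coprime_dvd_right hds hrs)
    (fun p hp h => by
      rw [hP, mem_sdiff] at hp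
      have hp' := hp.1
      rw [Nat.mem_primeFactors] at hp'
      have h3 : p ∣ Nat.gcd r s := Nat.dvd_gcd h hp'.2.1
      rw [hrs] at h3
      exact hp'.1.one_lt.ne' (Nat.dvd_one.1 h3))
  refine h2.trans ?_
  have h3 : (2 : ℝ) ^ P.card ≤ 2 ^ k := pow_le_pow_right₀ (by norm_num) hPk
  gcongr

end Pool.Agent.Lib.MP_2a816b_nt
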