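import Mathlib
import Pool.Agent.Lib.MP_2a816b_nt.Core3
import Pool.Agent.Lib.MP_2a816b_nt.NumPts

/-!
# The mean value theorem for averages over a set of numerators (after helper89)
-/

open Finset Real

namespace Pool.Agent.Lib.MP_2a816b_nt

open Pool.Agent.Lib.MP_00e05b_nt (DD mem_DD Ab mem_Ab card_Ab_upper card_Ab_lower)



lemma opB_swap {K : ℕ → ℕ → ℂ} {M N : ℕ} {B : ℝ} (h : OpB K M N B) :
    OpB (fun n m => K m n) N M B := by
  intro y x
  have h1 := h x y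
  have e1 : ∑ n ∈ range N, ∑ m ∈ range M, y n * x m * K m n =
      ∑ m ∈ range M, ∑ n ∈ range N, x m * y n * K m n := by
    rw [sum_comm]
    apply sum_congr rfl; intro m _
    apply sum_congr rfl; intro n _
    ring
  rw [e1]
  refine h1.trans (le_of_eq ?_)
  ring

/-- averaging an operator over dilates of the first variable -/
lemma opB_conv (K : ℕ → ℂ) (hK0 : K 0 = 0) (I : Finset ℕ) (Am : ℕ) (hI : ∀ a ∈ I, 0 < a ∧ a ≤ Am)
    (M N T : ℕ) (hT : Am * M ≤ T) (τ0 : ℝ) (hτ0 : 0 ≤ τ0)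
    (hτ : ∀ t, 0 < t → t < T → (((I.filter (fun a => a ∣ t)).card : ℕ) : ℝ) ≤ τ0) (B : ℝ) (hB : 0 ≤ B)
    (h : OpB (fun t n => K (t * n)) T N B) :
    OpB (fun m n => ∑ a ∈ I, K (a * (m * n))) M N (√(τ0 * I.card) * B) := by
  classical
  intro x y
  set s : Finset (ℕ × ℕ) := (I ×ˢ range M).filter (fun p => 0 < p.2) with hs
  set x' : ℕ → ℂ := fun t => ∑ p ∈ s.filter (fun p => p.1 * p.2 = t), x p.2 with hx'
  have hmem : ∀ p ∈ s, p.1 ∈ I ∧ p.2 < M ∧ 0 < p.2 := by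
    intro p hp
    rw [hs, mem_filter, mem_product, mem_range] at hp
    exact ⟨hp.1.1, hp.1.2, hp.2⟩
  have hmaps : ∀ p ∈ s, p.1 * p.2 ∈ range T := by
    intro p hp
    obtain ⟨h1, h2, h3⟩ := hmem p hp
    rw [mem_range]
    have h4 := hI p.1 h1
    calc p.1 * p.2 < p.1 * M := Nat.mul_lt_mul_of_pos_left h2 h4.1
      _ ≤ Am * M := Nat.mul_le_mul_right M h4.2
      _ ≤ T := hT
  have e1 : ∑ m ∈ range M, ∑ n ∈ range N, x m * y n * ∑ a ∈ I, K (a * (m * n)) =
      ∑ t ∈ range T, ∑ n ∈ range N, x' t * y n * K (t * n) := by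
    calc _ = ∑ m ∈ range M, ∑ a ∈ I, ∑ n ∈ range N, x m * y n * K (a * (m * n)) := by
          apply sum_congr rfl; intro m _
          rw [sum_comm]
          apply sum_congr rfl; intro n _
          rw [mul_sum]
      _ = ∑ a ∈ I, ∑ m ∈ range M, ∑ n ∈ range N, x m * y n * K (a * (m * n)) := by rw [sum_comm]
      _ = ∑ p ∈ I ×ˢ range M, ∑ n ∈ range N, x p.2 * y n * K (p.1 * (p.2 * n)) := by
          rw [sum_product]
      _ = ∑ p ∈ s, ∑ n ∈ range N, x p.2 * y n * K (p.1 * (p.2 * n)) := by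
          rw [hs, sum_filter]
          apply sum_congr rfl; intro p _
          split_ifs with h0
          · rfl
          · have : p.2 = 0 := by omega
            rw [this]
            apply sum_eq_zero; intro n _
            rw [zero_mul, mul_zero, hK0, mul_zero]
      _ = ∑ t ∈ range T, ∑ p ∈ s.filter (fun p => p.1 * p.2 = t),
            ∑ n ∈ range N, x p.2 * y n * K (p.1 * (p.2 * n)) :=
          (sum_fiberwise_of_maps_to hmaps _).symm
      _ = _ := by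
          apply sum_congr rfl; intro t _
          rw [sum_comm]
          apply sum_congr rfl; intro n _
          simp only [hx', sum_mul]
          apply sum_congr rfl; intro p hp
          rw [← (mem_filter.1 hp).2, mul_assoc p.1 p.2 n]
  have e2 : ∑ t ∈ range T, ‖x' t‖ ^ 2 ≤ (τ0 * I.card) * ∑ m ∈ range M, ‖x m‖ ^ 2 := by
    have h1 : ∀ t ∈ range T, ‖x' t‖ ^ 2 ≤
        τ0 * ∑ p ∈ s.filter (fun p => p.1 * p.2 = t), ‖x p.2‖ ^ 2 := by
      intro t ht
      rw [mem_range] at ht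
      rcases Nat.eq_zero_or_pos t with h0 | h0
      · have hem : s.filter (fun p => p.1 * p.2 = t) = ∅ := by
          rw [filter_eq_empty_iff]
          intro p hp hpt
          obtain ⟨g1, g2, g3⟩ := hmem p hp
          have := Nat.mul_pos (hI p.1 g1).1 g3
          omega
        simp only [hx', hem, sum_empty, norm_zero]
        norm_num
      · have hcard : ((s.filter (fun p => p.1 * p.2 = t)).card : ℝ) ≤ τ0 := by
          refine le_trans ?_ (hτ t h0 ht)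
          have h2 : (s.filter (fun p => p.1 * p.2 = t)).card ≤ (I.filter (fun a => a ∣ t)).card := by
            apply card_le_card_of_injOn (fun p => p.1)
            · intro p hp
              rw [mem_coe, mem_filter] at hp
              rw [mem_coe, mem_filter]
              exact ⟨(hmem p hp.1).1, Dvd.intro p.2 hp.2⟩
            · intro p hp q hq hpq
              rw [mem_coe, mem_filter] at hp hq
              simp only at hpq
              have h3 : p.1 * p.2 = p.1 * q.2 := by rw [hp.2, hpq, hq.2]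
              exact Prod.ext hpq (Nat.eq_of_mul_eq_mul_left (hI p.1 (hmem p hp.1).1).1 h3)
          exact_mod_cast h2
        calc ‖x' t‖ ^ 2 ≤ (∑ p ∈ s.filter (fun p => p.1 * p.2 = t), ‖x p.2‖) ^ 2 := by
              gcongr
              exact norm_sum_le _ _
          _ ≤ ((s.filter (fun p => p.1 * p.2 = t)).card : ℝ) *
              ∑ p ∈ s.filter (fun p => p.1 * p.2 = t), ‖x p.2‖ ^ 2 := sq_sum_le_card_mul_sum_sq
          _ ≤ _ := by gcongr
    calc _ ≤ ∑ t ∈ range T, τ0 * ∑ p ∈ s.filter (fun p => p.1 * p.2 = t), ‖x p.2‖ ^ 2 :=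
          sum_le_sum h1
      _ = τ0 * ∑ p ∈ s, ‖x p.2‖ ^ 2 := by
          rw [← mul_sum, sum_fiberwise_of_maps_to hmaps]
      _ ≤ τ0 * ∑ p ∈ I ×ˢ range M, ‖x p.2‖ ^ 2 := by
          apply mul_le_mul_of_nonneg_left _ hτ0
          apply sum_le_sum_of_subset_of_nonneg (filter_subset _ _)
          intro p _ _; positivity
      _ = (τ0 * I.card) * ∑ m ∈ range M, ‖x m‖ ^ 2 := by
          rw [sum_product]
          simp only [sum_const, nsmul_eq_mul]
          ring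
  rw [e1]
  have hT0 : 0 ≤ τ0 * I.card := by positivity
  calc _ ≤ B * (√(∑ t ∈ range T, ‖x' t‖ ^ 2) * √(∑ n ∈ range N, ‖y n‖ ^ 2)) := h x' y
    _ ≤ B * (√((τ0 * I.card) * ∑ m ∈ range M, ‖x m‖ ^ 2) * √(∑ n ∈ range N, ‖y n‖ ^ 2)) := by
        gcongr
    _ = _ := by
        rw [sqrt_mul hT0]
        ring

lemma kapN_mul_left (p : ℕ) (hp : p.Prime) (v a n : ℕ) (ha : ¬ p ∣ a) :
    kapN p v (a * n) = kapN p (a * v) n := by
  unfold kapN
  by_cases hn : p ∣ n
  · rw [if_pos hn, if_pos (hn.mul_left a)]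
  · rw [if_neg hn, if_neg (by rw [hp.dvd_mul]; tauto)]
    congr 2
    push_cast
    ring

lemma kapN_mul_zero (p v a n : ℕ) (h : p ∣ a) : kapN p v (a * n) = 0 := by
  unfold kapN
  rw [if_pos (h.mul_right n)]

lemma kapF_mul (v : ℕ → ℕ) (d : ℕ) (hd : d ≠ 0) (a n : ℕ) : kapF v d.primeFactors (a * n) =
    if a.Coprime d then kapF (fun p => a * v p) d.primeFactors n else 0 := by
  unfold kapF
  split_ifs with h
  · apply prod_congr rfl; intro p hp
    rw [Nat.mem_primeFactors] at hp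
    apply kapN_mul_left p hp.1
    intro hpa
    have h3 : p ∣ Nat.gcd a d := Nat.dvd_gcd hpa hp.2.1
    rw [h] at h3
    exact hp.1.one_lt.ne' (Nat.dvd_one.1 h3)
  · obtain ⟨p, hp, h1, h2⟩ := Nat.Prime.not_coprime_iff_dvd.1 h
    exact prod_eq_zero (Nat.mem_primeFactors.2 ⟨hp, h2, hd⟩) (kapN_mul_zero p _ _ _ h1)

/-- the kernel averaged over the numerators in `I` -/
noncomputable def kI (I : Finset ℕ) (v : ℕ → ℕ) (d r b n : ℕ) : ℂ :=
  (∑ a ∈ I, kapF v d.primeFactors (a * n)) * e ((n * b : ℕ) / r)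

lemma kI_eq (I : Finset ℕ) (v : ℕ → ℕ) (d r b n : ℕ) (hd : d ≠ 0) : kI I v d r b n =
    ∑ a ∈ I.filter (fun a => a.Coprime d), kd (fun p => a * v p) d r b n := by
  unfold kI kd
  rw [sum_filter, sum_mul]
  apply sum_congr rfl; intro a _
  rw [kapF_mul v d hd]
  split_ifs <;> simp

lemma kI_zero (I : Finset ℕ) (v : ℕ → ℕ) (d r b : ℕ) (hd : 1 < d) : kI I v d r b 0 = 0 := by
  rw [kI_eq _ _ _ _ _ _ (by omega)]
  apply sum_eq_zero; intro a _
  exact kd_zero _ d r b hd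

lemma kI_norm (I : Finset ℕ) (v : ℕ → ℕ) (d r b n k : ℕ) (hk : d.primeFactors.card ≤ k) :
    ‖kI I v d r b n‖ ≤ I.card * 2 ^ k := by
  unfold kI
  rw [norm_mul, norm_e, mul_one]
  refine (norm_sum_le _ _).trans ?_
  calc _ ≤ ∑ a ∈ I, (2 : ℝ) ^ k := by
        apply sum_le_sum; intro a _
        refine (norm_kapF_le v d.primeFactors (fun p hp => Nat.prime_of_mem_primeFactors hp) _).trans ?_
        exact pow_le_pow_right₀ (by norm_num) hk
    _ = _ := by rw [sum_const, nsmul_eq_mul]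

lemma kI_range (I : Finset ℕ) (v : ℕ → ℕ) (d r b m k : ℕ) (hd : 1 < d) (hsq : Squarefree d)
    (hv : ∀ p ∈ d.primeFactors, ¬ p ∣ v p) (hr : 0 < r) (hrd : r.Coprime d)
    (hk : d.primeFactors.card ≤ k) (t : ℕ) :
    ‖∑ s ∈ range t, kI I v d r b (m * s)‖ ≤ I.card * (2 ^ k * (r * d)) := by
  have e1 : ∑ s ∈ range t, kI I v d r b (m * s) = ∑ a ∈ I.filter (fun a => a.Coprime d),
      ∑ s ∈ range t, kd (fun p => a * v p) d r b (m * s) := by
    rw [sum_comm]
    apply sum_congr rfl; intro s _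
    exact kI_eq _ _ _ _ _ _ (by omega)
  rw [e1]
  refine (norm_sum_le _ _).trans ?_
  calc _ ≤ ∑ a ∈ I.filter (fun a => a.Coprime d), (2 : ℝ) ^ k * (r * d) := by
        apply sum_le_sum; intro a ha
        apply kd_range _ d r b m k hd hsq _ hr hrd hk t
        intro p hp hpa
        have hp' := hp
        rw [Nat.mem_primeFactors] at hp'
        rcases (Nat.Prime.dvd_mul hp'.1).1 hpa with h1 | h1
        · have h3 : p ∣ Nat.gcd a d := Nat.dvd_gcd h1 hp'.2.1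
          rw [(mem_filter.1 ha).2] at h3
          exact hp'.1.one_lt.ne' (Nat.dvd_one.1 h3)
        · exact hv p hp h1
    _ = (I.filter (fun a => a.Coprime d)).card * ((2 : ℝ) ^ k * (r * d)) := by
        rw [sum_const, nsmul_eq_mul]
    _ ≤ _ := by
        gcongr
        exact filter_subset _ _

/-- the size of the type II blocks -/
lemma block_numA (N U Q Am i : ℕ) (hU : 1 ≤ U) (hAm : 1 ≤ Am) (h1 : 2 ^ i ≤ N) (h2 : U < 2 ^ (i + 1))
    (h3 : 2 ^ i * U ≤ N) :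
    (if 2 ^ i * 2 ^ i ≤ N then
      √(((Am * 2 ^ (i + 1) : ℕ) : ℝ) + (Q : ℝ) ^ 2) * √(((N / 2 ^ i + 1 : ℕ) : ℝ) + (Q : ℝ) ^ 2)
    else
      √(((Am * (N / 2 ^ i + 1) : ℕ) : ℝ) + (Q : ℝ) ^ 2) * √(((2 ^ (i + 1) : ℕ) : ℝ) + (Q : ℝ) ^ 2)) ≤
      √(4 * Am * N + 2 * Am * √N * Q ^ 2 + 4 * N * Q ^ 2 / U + Q ^ 4) := by
  have hUr : (1 : ℝ) ≤ U := by exact_mod_cast hU
  have hAr : (1 : ℝ) ≤ Am := by exact_mod_cast hAm
  obtain ⟨u, hu⟩ : ∃ u : ℝ, u = 2 ^ i := ⟨_, rfl⟩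
  have hu0 : 0 < u := by rw [hu]; positivity
  have hu1 : 1 ≤ u := by rw [hu]; exact one_le_pow₀ (by norm_num)
  have hN : u ≤ N := by rw [hu]; exact_mod_cast h1
  have hN0 : (0 : ℝ) < N := by linarith
  have e1 : ((2 ^ (i + 1) : ℕ) : ℝ) = 2 * u := by push_cast; rw [pow_succ, hu]; ring
  have e1' : ((Am * 2 ^ (i + 1) : ℕ) : ℝ) = Am * (2 * u) := by rw [Nat.cast_mul, e1]
  have e2 : ((N / 2 ^ i + 1 : ℕ) : ℝ) ≤ 2 * N / u := by
    have h4 : ((N / 2 ^ i : ℕ) : ℝ) ≤ N / u := by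
      have := @Nat.cast_div_le ℝ _ _ _ N (2 ^ i)
      push_cast at this
      rw [hu]; exact this
    have h5 : 1 ≤ N / u := by rw [le_div_iff₀ hu0]; linarith
    push_cast
    have h6 : 2 * N / u = N / u + N / u := by ring
    rw [h6]
    linarith
  have e2' : ((Am * (N / 2 ^ i + 1) : ℕ) : ℝ) ≤ Am * (2 * N / u) := by
    rw [Nat.cast_mul]
    gcongr
  have hUu : (U : ℝ) ≤ 2 * u := by rw [← e1]; exact_mod_cast h2.le
  have hUN : u * U ≤ N := by rw [hu]; exact_mod_cast h3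
  have hsN : √(N : ℝ) * √(N : ℝ) = N := mul_self_sqrt hN0.le
  have hsN0 : 0 < √(N : ℝ) := sqrt_pos.2 hN0
  have hQ2 : (0 : ℝ) ≤ (Q : ℝ) ^ 2 := by positivity
  have hg : N * (Q : ℝ) ^ 2 * 2 / u ≤ 4 * N * Q ^ 2 / U := by
    rw [div_le_div_iff₀ hu0 (by linarith)]
    have h0 : 0 ≤ N * (Q : ℝ) ^ 2 := by positivity
    have h9 := nl9 hUu h0
    linarith
  split_ifs with hc
  · have hcu : u ≤ √N := by
      apply le_sqrt_of_sq_le
      rw [sq, hu]
      exact_mod_cast hc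
    rw [← sqrt_mul (by positivity)]
    apply sqrt_le_sqrt
    rw [e1']
    calc (Am * (2 * u) + (Q : ℝ) ^ 2) * (((N / 2 ^ i + 1 : ℕ) : ℝ) + (Q : ℝ) ^ 2) ≤
        (Am * (2 * u) + (Q : ℝ) ^ 2) * (2 * N / u + (Q : ℝ) ^ 2) := by gcongr
      _ = 4 * Am * N + 2 * Am * u * Q ^ 2 + N * (Q : ℝ) ^ 2 * 2 / u + Q ^ 4 := by
          field_simp
          ring
      _ ≤ 4 * Am * N + 2 * Am * √N * Q ^ 2 + 4 * N * Q ^ 2 / U + Q ^ 4 := by gcongr
  · have hcu : √N ≤ u := by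
      rw [sqrt_le_left hu0.le, sq, hu]
      push Not at hc
      exact_mod_cast hc.le
    rw [← sqrt_mul (by positivity)]
    apply sqrt_le_sqrt
    rw [e1]
    have g1 : N / u ≤ √N := by
      rw [div_le_iff₀ hu0]
      calc (N : ℝ) = √N * √N := hsN.symm
        _ ≤ √N * u := by gcongr
    have g2 : 2 * u ≤ 4 * N / U := by
      rw [le_div_iff₀ (by linarith)]
      exact nl10 hUN hN0
    calc (((Am * (N / 2 ^ i + 1) : ℕ) : ℝ) + (Q : ℝ) ^ 2) * (2 * u + (Q : ℝ) ^ 2) ≤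
        (Am * (2 * N / u) + (Q : ℝ) ^ 2) * (2 * u + (Q : ℝ) ^ 2) := by gcongr
      _ = 4 * Am * N + 2 * Am * (N / u) * Q ^ 2 + (2 * u) * Q ^ 2 + Q ^ 4 := by
          field_simp
          ring
      _ ≤ 4 * Am * N + 2 * Am * √N * Q ^ 2 + (4 * N / U) * Q ^ 2 + Q ^ 4 := by gcongr
      _ = _ := by ring

/-- The mean value theorem for averages over a set of numerators. -/
theorem coreA (DD : Finset ℕ) (Q k r : ℕ) (y0 : ℝ) (hy0 : 0 < y0) (hD : Mods DD Q k r y0)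
    (v : ℕ → ℕ → ℕ) (hv : ∀ d ∈ DD, ∀ p ∈ d.primeFactors, ¬ p ∣ v d p)
    (hr : 0 < r) (b : ℕ) (N U L : ℕ) (hU : 1 ≤ U) (hU3 : U * U * U ≤ N) (hL : N + 1 < 2 ^ L)
    (I : Finset ℕ) (Am : ℕ) (hAm : 1 ≤ Am) (hI : ∀ a ∈ I, 0 < a ∧ a ≤ Am) (τ0 : ℝ) (hτ0 : 0 ≤ τ0)
    (hτ : ∀ t, 0 < t → t < 2 * (Am * N) → (((I.filter (fun a => a ∣ t)).card : ℕ) : ℝ) ≤ τ0) :
    ∑ d ∈ DD, ‖tw N (kI I (v d) d r b) vM‖ ≤ 4 * 2 ^ k * L * r * U * I.card * Q ^ 2 +
      18 * 2 ^ k * L ^ 4 * √r / √y0 * √(τ0 * I.card) * √(2 * N) *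
        √(4 * Am * N + 2 * Am * √N * Q ^ 2 + 4 * N * Q ^ 2 / U + Q ^ 4) := by
  choose ε hε1 hε2 using fun d => exists_phase (tw N (kI I (v d) d r b) vM)
  set κ : ℕ → ℂ := fun n => ∑ d ∈ DD, ε d * kI I (v d) d r b n with hκ
  have hrr : (1 : ℝ) ≤ r := by exact_mod_cast hr
  have hcard := hD.card_le
  have hQ0 : (0 : ℝ) ≤ Q := by positivity
  have hI0 : (0 : ℝ) ≤ I.card := by positivity
  have hN1 : 1 ≤ N := by
    have : 1 ≤ U * U * U := Nat.mul_pos (Nat.mul_pos hU hU) hU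
    omega
  have hNr : (1 : ℝ) ≤ N := by exact_mod_cast hN1
  have hsum : ((∑ d ∈ DD, ‖tw N (kI I (v d) d r b) vM‖ : ℝ) : ℂ) = tw N κ vM := by
    push_cast
    rw [sum_congr rfl (fun d _ => (hε2 d).symm)]
    unfold tw
    simp only [mul_sum, hκ]
    rw [sum_comm]
    apply sum_congr rfl; intro n _
    apply sum_congr rfl; intro d _
    ring
  have hsum2 : ∑ d ∈ DD, ‖tw N (kI I (v d) d r b) vM‖ = ‖tw N κ vM‖ := by
    rw [← hsum, Complex.norm_real, norm_eq_abs, abs_of_nonneg (by positivity)]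
  rw [hsum2]
  set C : ℝ := 2 ^ k * r * I.card * Q ^ 2 with hC
  set YY : ℝ := √(4 * Am * N + 2 * Am * √N * Q ^ 2 + 4 * N * Q ^ 2 / U + Q ^ 4) with hYY
  set T0 : ℝ := 9 * 2 ^ k * √r / √y0 * √(τ0 * I.card) * √(2 * N) * YY with hT0
  have hYY0 : 0 ≤ YY := by positivity
  have hT00 : 0 ≤ T0 := by positivity
  have hQ1 : ∀ d ∈ DD, (1 : ℝ) ≤ Q := fun d hd => by
    have h1 := hD.one_lt d hd
    have h2 := hD.le d hd
    exact_mod_cast (by omega : 1 ≤ Q)
  have hκ0 : κ 0 = 0 := by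
    simp only [hκ]
    apply sum_eq_zero; intro d hd
    rw [kI_zero _ _ _ _ _ (hD.one_lt d hd), mul_zero]
  have hκn : ∀ n, ‖κ n‖ ≤ C := by
    intro n
    simp only [hκ]
    calc _ ≤ ∑ d ∈ DD, ‖ε d * kI I (v d) d r b n‖ := norm_sum_le _ _
      _ ≤ ∑ d ∈ DD, 2 ^ k * r * I.card * (Q : ℝ) := by
          apply sum_le_sum; intro d hd
          rw [norm_mul]
          have h2 := hQ1 d hd
          calc _ ≤ 1 * (I.card * (2 : ℝ) ^ k) := by
                gcongr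
                · exact hε1 d
                · exact kI_norm I (v d) d r b n k (hD.card d hd)
            _ = 2 ^ k * 1 * I.card * 1 := by ring
            _ ≤ 2 ^ k * r * I.card * (Q : ℝ) := by gcongr
      _ = DD.card * (2 ^ k * r * I.card * (Q : ℝ)) := by rw [sum_const, nsmul_eq_mul]
      _ ≤ Q * (2 ^ k * r * I.card * (Q : ℝ)) := by gcongr
      _ = C := by rw [hC]; ring
  have hI' : ∀ m t, ‖∑ s ∈ range t, κ (m * s)‖ ≤ C := by
    intro m t
    have e1 : ∑ s ∈ range t, κ (m * s) = ∑ d ∈ DD, ε d * ∑ s ∈ range t, kI I (v d) d r b (m * s) := by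
      simp only [hκ, mul_sum]
      rw [sum_comm]
    rw [e1]
    calc _ ≤ ∑ d ∈ DD, ‖ε d * ∑ s ∈ range t, kI I (v d) d r b (m * s)‖ := norm_sum_le _ _
      _ ≤ ∑ d ∈ DD, 2 ^ k * r * I.card * (Q : ℝ) := by
          apply sum_le_sum; intro d hd
          rw [norm_mul]
          calc _ ≤ 1 * (I.card * ((2 : ℝ) ^ k * ((r : ℝ) * d))) := by
                gcongr
                · exact hε1 d
                · exact kI_range I (v d) d r b m k (hD.one_lt d hd) (hD.sq d hd) (hv d hd) hr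
                    (hD.cop d hd) (hD.card d hd) t
            _ ≤ 1 * (I.card * ((2 : ℝ) ^ k * ((r : ℝ) * Q))) := by
                have : (d : ℝ) ≤ Q := by exact_mod_cast hD.le d hd
                gcongr
            _ = _ := by ring
      _ = DD.card * (2 ^ k * r * I.card * (Q : ℝ)) := by rw [sum_const, nsmul_eq_mul]
      _ ≤ Q * (2 ^ k * r * I.card * (Q : ℝ)) := by gcongr
      _ = C := by rw [hC]; ring
  -- operator bounds
  set K0 : ℕ → ℂ := fun j => ∑ d ∈ DD, ε d * kapF (v d) d.primeFactors j with hK0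
  have hK00 : K0 0 = 0 := by
    simp only [hK0]
    apply sum_eq_zero; intro d hd
    have := kd_zero (v d) d 1 0 (hD.one_lt d hd)
    unfold kd at this
    simp only [mul_zero, Nat.cast_zero, Nat.cast_one, zero_div] at this
    rcases mul_eq_zero.1 this with h | h
    · rw [h, mul_zero]
    · exact absurd h (by have := norm_e 0; intro h2; rw [h2] at this; simp at this)
  have hκK : ∀ m n, κ (m * n) = (∑ a ∈ I, K0 (a * (m * n))) * e ((m * n * b : ℕ) / r) := by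
    intro m n
    simp only [hκ, hK0, kI]
    rw [sum_comm, sum_mul]
    apply sum_congr rfl; intro d _
    rw [← mul_sum]
    ring
  set Bd : ℕ → ℝ := fun i => √r * (√(τ0 * I.card) * (9 * 2 ^ k / √y0 *
    (if 2 ^ i * 2 ^ i ≤ N then
      √(((Am * 2 ^ (i + 1) : ℕ) : ℝ) + (Q : ℝ) ^ 2) * √(((N / 2 ^ i + 1 : ℕ) : ℝ) + (Q : ℝ) ^ 2)
    else
      √(((Am * (N / 2 ^ i + 1) : ℕ) : ℝ) + (Q : ℝ) ^ 2) * √(((2 ^ (i + 1) : ℕ) : ℝ) + (Q : ℝ) ^ 2))))
    with hBd
  have hBd0 : ∀ i, 0 ≤ Bd i := by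
    intro i
    simp only [hBd]
    split_ifs <;> positivity
  have hop : ∀ i, 2 ^ i ≤ N → OpB (fun m n => κ (m * n)) (2 ^ (i + 1)) (N / 2 ^ i + 1) (Bd i) := by
    intro i hi
    have e1 : (fun m n => κ (m * n)) = fun m n => (∑ a ∈ I, K0 (a * (m * n))) *
        e ((m * n * b : ℕ) / r) := by
      ext m n; exact hκK m n
    rw [e1]
    simp only [hBd]
    split_ifs with hc
    · have h1 := opB_kernel2 DD Q k r y0 hy0 hD v hv ε (fun d _ => hε1 d) (Am * 2 ^ (i + 1))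
        (N / 2 ^ i + 1)
      have h2 := opB_conv K0 hK00 I Am hI (2 ^ (i + 1)) (N / 2 ^ i + 1) (Am * 2 ^ (i + 1)) le_rfl
        τ0 hτ0 (fun t ht0 ht => hτ t ht0 (by
          refine ht.trans_le ?_
          rw [pow_succ]
          calc Am * (2 ^ i * 2) = 2 * (Am * 2 ^ i) := by ring
            _ ≤ 2 * (Am * N) := by gcongr)) _ (by positivity) h1
      exact twist (fun m n => ∑ a ∈ I, K0 (a * (m * n))) _ _ _ (by positivity) h2 r hr b
    · have h1 := opB_kernel2 DD Q k r y0 hy0 hD v hv ε (fun d _ => hε1 d)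
        (Am * (N / 2 ^ i + 1)) (2 ^ (i + 1))
      have h2 := opB_conv K0 hK00 I Am hI (N / 2 ^ i + 1) (2 ^ (i + 1)) (Am * (N / 2 ^ i + 1)) le_rfl
        τ0 hτ0 (fun t ht0 ht => hτ t ht0 (by
          refine ht.trans_le ?_
          have h5 : N / 2 ^ i ≤ N := Nat.div_le_self _ _
          calc Am * (N / 2 ^ i + 1) ≤ Am * (N + N) := by gcongr
            _ = 2 * (Am * N) := by ring)) _ (by positivity) h1
      have h3 := opB_swap h2
      have e2 : (fun n m => ∑ a ∈ I, K0 (a * (m * n))) = fun m n => ∑ a ∈ I, K0 (a * (m * n)) := by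
        ext m n
        apply sum_congr rfl; intro a _
        rw [mul_comm n m]
      rw [e2] at h3
      exact twist (fun m n => ∑ a ∈ I, K0 (a * (m * n))) _ _ _ (by positivity) h3 r hr b
  have hII : ∀ f g : ℕ → ℝ, (∀ m, m ≤ N → |f m| ≤ L) → (∀ n, n ≤ N → |g n| ≤ L) →
      (∀ m, f m ≠ 0 → U < m ∧ m * U ≤ N) →
      ‖∑ m ∈ Ioc 0 N, ∑ n ∈ Ioc 0 (N / m), (f m : ℂ) * (g n : ℂ) * κ (m * n)‖ ≤
        L ^ 2 * (L : ℝ) ^ 2 * T0 := by
    intro f g hf hg hf0
    apply typeII1 (fun m n => κ (m * n)) N U L hL T0 hT00 Bd hBd0 (fun i h1 _ _ => hop i h1) _ f g L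
      (by positivity) hf hg hf0
    intro i h1 h2 h3
    have hn := block_numA N U Q Am i hU hAm h1 h2 h3
    rw [← hYY] at hn
    have e3 : √((2 : ℝ) ^ i) * √(2 * N / 2 ^ i) = √(2 * N) := by
      rw [← sqrt_mul (by positivity)]
      congr 1
      field_simp
    rw [e3]
    simp only [hBd]
    calc _ ≤ √r * (√(τ0 * I.card) * (9 * 2 ^ k / √y0 * YY)) * √(2 * N) := by gcongr
      _ = T0 := by rw [hT0]; ring
  have hfin := core1 κ N U L hU3 hL C _ hκ0 hκn hI' hII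
  refine hfin.trans (le_of_eq ?_)
  rw [hC, hT0]
  ring

end Pool.Agent.Lib.MP_2a816b_nt
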