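import Mathlib
import Pool.Agent.Lib.MP_2a816b_nt.NumPts

/-!
# Blocks of moduli and of numerators (after helper89)
-/

open Finset Real

namespace Pool.Agent.Lib.MP_2a816b_nt

open Pool.Agent.Lib.MP_00e05b_nt (DD mem_DD Ab mem_Ab card_Ab_upper card_Ab_lower)

/-- the bound for one block -/
noncomputable def BG (k L r U : ℕ) (cI τ0 S Am D0 N : ℝ) : ℝ :=
  4 ^ k * (1 + L) / S * (16 * 2 ^ k * L * r * U * cI * S ^ 2 +
    18 * 2 ^ k * L ^ 4 * √r * √(τ0 * cI) * √(2 * N) / √S *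
      (2 * √(Am * N) * √(2 * S / D0) + S * √(8 * Am * √N) + 4 * S * √(N / U) + 4 * S ^ 2))

lemma BG_nonneg (k L r U : ℕ) {cI τ0 S Am D0 N : ℝ} (hcI : 0 ≤ cI) (hS : 0 ≤ S) :
    0 ≤ BG k L r U cI τ0 S Am D0 N := by
  unfold BG; positivity

lemma BG_mono (k L r U : ℕ) {cI τ0 S Am D0 M N : ℝ} (hcI : 0 ≤ cI) (hS : 0 ≤ S)
    (hAm : 0 ≤ Am) (hMN : M ≤ N) :
    BG k L r U cI τ0 S Am D0 M ≤ BG k L r U cI τ0 S Am D0 N := by
  unfold BG
  have h1 : √M ≤ √N := Real.sqrt_le_sqrt hMN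
  gcongr

lemma sqrt_add4 {a b c d : ℝ} (ha : 0 ≤ a) (hb : 0 ≤ b) (hc : 0 ≤ c) (hd : 0 ≤ d) :
    √(a + b + c + d) ≤ √a + √b + √c + √d := by
  rw [Real.sqrt_le_left (by positivity)]
  have h1 := Real.mul_self_sqrt ha
  have h2 := Real.mul_self_sqrt hb
  have h3 := Real.mul_self_sqrt hc
  have h4 := Real.mul_self_sqrt hd
  have g1 := Real.sqrt_nonneg a
  have g2 := Real.sqrt_nonneg b
  have g3 := Real.sqrt_nonneg c
  have g4 := Real.sqrt_nonneg d
  nlinarith [mul_nonneg g1 g2, mul_nonneg g1 g3, mul_nonneg g1 g4, mul_nonneg g2 g3,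
    mul_nonneg g2 g4, mul_nonneg g3 g4]

/-- the block of `s` -/
noncomputable def jb (lam : ℝ) (s : ℕ) : ℕ := ⌊Real.log s / lam⌋₊

lemma jb_le (lam : ℝ) (hlam : 0 < lam) (s : ℕ) (hs : 0 < s) :
    Real.exp (jb lam s * lam) ≤ s := by
  have hs' : (0 : ℝ) < s := by exact_mod_cast hs
  rw [← Real.le_log_iff_exp_le hs']
  have h0 : 0 ≤ Real.log s / lam := div_nonneg (Real.log_natCast_nonneg s) hlam.le
  have h1 := Nat.floor_le h0
  unfold jb
  calc _ ≤ Real.log s / lam * lam := mul_le_mul_of_nonneg_right h1 hlam.le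
    _ = Real.log s := by field_simp

lemma lt_jb (lam : ℝ) (hlam : 0 < lam) (s : ℕ) (hs : 0 < s) :
    (s : ℝ) < Real.exp ((jb lam s + 1) * lam) := by
  have hs' : (0 : ℝ) < s := by exact_mod_cast hs
  rw [← Real.log_lt_iff_lt_exp hs']
  have h1 := Nat.lt_floor_add_one (Real.log s / lam)
  unfold jb
  calc Real.log s = Real.log s / lam * lam := by field_simp
    _ < _ := mul_lt_mul_of_pos_right h1 hlam

/-- the weights -/
noncomputable def wB (lam c0 c1 : ℝ) (r s a : ℕ) : ℝ :=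
  if c0 * (r * Real.exp ((jb lam s + 1) * lam)) ≤ a ∧
    (a : ℝ) ≤ c1 * (r * Real.exp (jb lam s * lam)) then 1 else 0

lemma wB_nonneg (lam c0 c1 : ℝ) (r s a : ℕ) : 0 ≤ wB lam c0 c1 r s a := by
  unfold wB; split_ifs <;> norm_num

lemma wB_le_one (lam c0 c1 : ℝ) (r s a : ℕ) : wB lam c0 c1 r s a ≤ 1 := by
  unfold wB; split_ifs <;> norm_num

lemma wB_eq_one {lam c0 c1 c0' c1' : ℝ} (hlam : 0 < lam) (_hc0 : 0 ≤ c0) (hc0' : 0 < c0')
    (h0 : c0 * Real.exp lam ≤ c0') (hc1' : 0 ≤ c1') (h1 : c1' * Real.exp lam ≤ c1) (r s a : ℕ)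
    (ha0 : c0' ≤ (a : ℝ) / ((r : ℝ) * s)) (ha1 : (a : ℝ) / ((r : ℝ) * s) ≤ c1') :
    wB lam c0 c1 r s a = 1 := by
  have hrs0 : (r : ℝ) * s ≠ 0 := by
    intro h
    rw [h, div_zero] at ha0
    linarith
  have hr : r ≠ 0 := by rintro rfl; simp at hrs0
  have hs : s ≠ 0 := by rintro rfl; simp at hrs0
  have hr' : (0 : ℝ) < r := by exact_mod_cast Nat.pos_of_ne_zero hr
  have hs' : (0 : ℝ) < s := by exact_mod_cast Nat.pos_of_ne_zero hs
  have hrs : 0 < (r : ℝ) * s := by positivity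
  rw [le_div_iff₀ hrs] at ha0
  rw [div_le_iff₀ hrs] at ha1
  have h2 := jb_le lam hlam s (Nat.pos_of_ne_zero hs)
  have h3 := (lt_jb lam hlam s (Nat.pos_of_ne_zero hs)).le
  have h4 : Real.exp ((jb lam s + 1) * lam) = Real.exp lam * Real.exp (jb lam s * lam) := by
    rw [← Real.exp_add]; congr 1; ring
  unfold wB
  rw [if_pos]
  constructor
  · rw [h4]
    calc c0 * (r * (Real.exp lam * Real.exp (jb lam s * lam))) =
        (c0 * Real.exp lam) * (r * Real.exp (jb lam s * lam)) := by ring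
      _ ≤ c0' * (r * s) := by gcongr
      _ ≤ a := ha0
  · calc (a : ℝ) ≤ c1' * (r * s) := ha1
      _ ≤ c1' * (r * (Real.exp lam * Real.exp (jb lam s * lam))) := by
          rw [← h4]; gcongr
      _ = (c1' * Real.exp lam) * (r * Real.exp (jb lam s * lam)) := by ring
      _ ≤ c1 * (r * Real.exp (jb lam s * lam)) := by gcongr

/-- the numerators attached to a block and a residue class -/
noncomputable def IB (lam c0 c1 : ℝ) (r j ϱ : ℕ) : Finset ℕ :=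
  (Finset.Ico ⌈c0 * (r * Real.exp ((j + 1) * lam))⌉₊ (⌊c1 * (r * Real.exp (j * lam))⌋₊ + 1)).filter
    (fun a => a % r = ϱ)

lemma mem_IB {lam c0 c1 : ℝ} (hc1 : 0 ≤ c1) {r j ϱ a : ℕ} : a ∈ IB lam c0 c1 r j ϱ ↔
    c0 * (r * Real.exp ((j + 1) * lam)) ≤ a ∧ (a : ℝ) ≤ c1 * (r * Real.exp (j * lam)) ∧
      a % r = ϱ := by
  unfold IB
  rw [mem_filter, mem_Ico, Nat.ceil_le, Nat.lt_add_one_iff, Nat.le_floor_iff (by positivity)]
  tauto

/-- the weighted sum over the numerators -/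
lemma sum_Ab_wB {lam c0 c1 : ℝ} (hlam : 0 < lam) (hc0 : 0 ≤ c0) (hc1 : 0 ≤ c1) {r s b : ℕ}
    (hr : 0 < r) (hs : 0 < s) (f : ℕ → ℂ) :
    ∑ a ∈ Ab c0 c1 r s b, (wB lam c0 c1 r s a : ℂ) * f a =
      ∑ a ∈ (IB lam c0 c1 r (jb lam s) (b * s % r)).filter (fun a => a.Coprime s), f a := by
  have hr' : (0 : ℝ) < r := by exact_mod_cast hr
  have hs' : (0 : ℝ) < s := by exact_mod_cast hs
  have h1 : ∀ a, (wB lam c0 c1 r s a : ℂ) * f a =
      if c0 * (r * Real.exp ((jb lam s + 1) * lam)) ≤ a ∧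
        (a : ℝ) ≤ c1 * (r * Real.exp (jb lam s * lam)) then f a else 0 := by
    intro a
    unfold wB
    split_ifs <;> simp
  rw [sum_congr rfl (fun a _ => h1 a), ← sum_filter]
  apply sum_congr _ (fun _ _ => rfl)
  have h2 := jb_le lam hlam s hs
  have h3 := (lt_jb lam hlam s hs).le
  ext a
  rw [mem_filter, mem_filter, mem_Ab hc1 hr hs, mem_IB hc1, le_div_iff₀ (by positivity),
    div_le_iff₀ (by positivity)]
  unfold Nat.ModEq
  constructor
  · rintro ⟨⟨_, _, h6, h7⟩, h8, h9⟩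
    exact ⟨⟨h8, h9, h7⟩, h6⟩
  · rintro ⟨⟨h4, h5, h6⟩, h7⟩
    refine ⟨⟨?_, ?_, h7, h6⟩, h4, h5⟩
    · refine le_trans ?_ h4
      gcongr
    · refine h5.trans ?_
      gcongr

lemma IB_eq_Ab {lam c0 c1 : ℝ} (hc1 : 0 ≤ c1) {r s j b : ℕ}
    (hr : 0 < r) (hs : 0 < s) :
    (IB lam c0 c1 r j (b * s % r)).filter (fun a => a.Coprime s) =
      Ab (c0 * Real.exp ((j + 1) * lam) / s) (c1 * Real.exp (j * lam) / s) r s b := by
  have hr' : (0 : ℝ) < r := by exact_mod_cast hr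
  have hs' : (0 : ℝ) < s := by exact_mod_cast hs
  ext a
  rw [mem_filter, mem_Ab (by positivity) hr hs, mem_IB hc1, le_div_iff₀ (by positivity),
    div_le_iff₀ (by positivity)]
  have e1 : c0 * Real.exp ((j + 1) * lam) / s * (r * s) = c0 * (r * Real.exp ((j + 1) * lam)) := by
    field_simp
  have e2 : c1 * Real.exp (j * lam) / s * (r * s) = c1 * (r * Real.exp (j * lam)) := by
    field_simp
  rw [e1, e2]
  unfold Nat.ModEq
  tauto

lemma card_IB (lam c0 c1 : ℝ) (hc1 : 0 ≤ c1) (r j ϱ : ℕ) (hr : 0 < r) :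
    ((IB lam c0 c1 r j ϱ).card : ℝ) ≤ c1 * Real.exp (j * lam) + 1 := by
  have hr' : (0 : ℝ) < r := by exact_mod_cast hr
  have h1 : (IB lam c0 c1 r j ϱ).card ≤ (range (⌊c1 * Real.exp (j * lam)⌋₊ + 1)).card := by
    apply card_le_card_of_injOn (fun a => a / r)
    · intro a ha
      rw [mem_coe, mem_IB hc1] at ha
      rw [mem_coe, mem_range, Nat.lt_add_one_iff, Nat.le_floor_iff (by positivity)]
      calc ((a / r : ℕ) : ℝ) ≤ a / r := Nat.cast_div_le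
        _ ≤ c1 * (r * Real.exp (j * lam)) / r := by gcongr; exact ha.2.1
        _ = _ := by field_simp
    · intro a ha a' ha' h
      rw [mem_coe, mem_IB hc1] at ha ha'
      simp only at h
      rw [← Nat.div_add_mod a r, ← Nat.div_add_mod a' r, h, ha.2.2, ha'.2.2]
  rw [card_range] at h1
  have h2 : ((⌊c1 * Real.exp (j * lam)⌋₊ : ℕ) : ℝ) ≤ c1 * Real.exp (j * lam) :=
    Nat.floor_le (by positivity)
  have h3 : ((IB lam c0 c1 r j ϱ).card : ℝ) ≤ ((⌊c1 * Real.exp (j * lam)⌋₊ + 1 : ℕ) : ℝ) := by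
    exact_mod_cast h1
  push_cast at h3
  linarith

/-- the uniform bound for the blocks -/
noncomputable def GB (k L U0 U : ℕ) (τ0 c1 B D0 N : ℝ) : ℝ :=
  4 ^ k * (1 + L) * (32 * 2 ^ k * L * U0 * U * c1 * B ^ 2 + 144 * 2 ^ k * L ^ 4 * U0 * √τ0 *
    √(c1 * N) * (√(c1 * N) / √D0 + √(c1 * B * √N) + √(N / U) + B))

lemma BG_le_GB (k L r U U0 : ℕ) {cI τ0 S Am D0 N c1 B : ℝ} (hr1 : 1 ≤ r) (hrU : r ≤ U0)
    (_hcI0 : 0 ≤ cI) (hτ0 : 0 ≤ τ0) (hS : 0 < S) (hSB : S ≤ B) (hc1 : 0 ≤ c1) (hcI : cI ≤ 2 * c1 * S)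
    (_hAm0 : 0 ≤ Am) (hAm : Am ≤ 2 * c1 * r * S) (hD0 : 0 < D0) (hN : 0 ≤ N) :
    BG k L r U cI τ0 S Am D0 N ≤ GB k L U0 U τ0 c1 B D0 N := by
  have hrr : (1 : ℝ) ≤ r := by exact_mod_cast hr1
  have hrU' : (r : ℝ) ≤ U0 := by exact_mod_cast hrU
  have hB0 : 0 ≤ B := hS.le.trans hSB
  have hsS := Real.sqrt_pos.2 hS
  set R : ℝ := √(r : ℝ) with hR
  have hR1 : 1 ≤ R := Real.one_le_sqrt.2 hrr
  have hRR : R * R = r := Real.mul_self_sqrt (by positivity)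
  set Z : ℝ := √(c1 * N) / √D0 + √(c1 * B * √N) + √(N / U) + B with hZ
  have hZ0 : 0 ≤ Z := by positivity
  have e1 : √(τ0 * cI) * √(2 * N) / √S ≤ 2 * √τ0 * √(c1 * N) := by
    rw [div_le_iff₀ hsS]
    calc √(τ0 * cI) * √(2 * N) ≤ √(τ0 * (2 * c1 * S)) * √(2 * N) := by gcongr
      _ = 2 * √τ0 * √(c1 * N) * √S := by
          rw [← Real.sqrt_mul (by positivity)]
          have : τ0 * (2 * c1 * S) * (2 * N) = 2 ^ 2 * (τ0 * ((c1 * N) * S)) := by ring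
          rw [this, Real.sqrt_mul (by positivity), Real.sqrt_sq (by norm_num),
            Real.sqrt_mul hτ0, Real.sqrt_mul (by positivity)]
          ring
  have e2 : 2 * √(Am * N) * √(2 * S / D0) + S * √(8 * Am * √N) + 4 * S * √(N / U) + 4 * S ^ 2 ≤
      S * (4 * R * Z) := by
    have f1 : 2 * √(Am * N) * √(2 * S / D0) ≤ S * (4 * R * (√(c1 * N) / √D0)) := by
      calc 2 * √(Am * N) * √(2 * S / D0) ≤ 2 * √((2 * c1 * r * S) * N) * √(2 * S / D0) := by gcongr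
        _ = S * (4 * R * (√(c1 * N) / √D0)) := by
            rw [mul_assoc, ← Real.sqrt_mul (by positivity)]
            have : 2 * c1 * r * S * N * (2 * S / D0) = (2 * S) ^ 2 * (r * ((c1 * N) / D0)) := by
              field_simp
            rw [this, Real.sqrt_mul (by positivity), Real.sqrt_sq (by positivity),
              Real.sqrt_mul (by positivity), Real.sqrt_div (by positivity)]
            ring
    have f2 : √(8 * Am * √N) ≤ 4 * R * √(c1 * B * √N) := by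
      calc √(8 * Am * √N) ≤ √(8 * (2 * c1 * r * S) * √N) := by gcongr
        _ ≤ √(8 * (2 * c1 * r * B) * √N) := by gcongr
        _ = _ := by
            have : 8 * (2 * c1 * r * B) * √N = 4 ^ 2 * (r * (c1 * B * √N)) := by ring
            rw [this, Real.sqrt_mul (by positivity), Real.sqrt_sq (by norm_num),
              Real.sqrt_mul (by positivity)]
            ring
    have f3 : 4 * S * √(N / U) ≤ S * (4 * R * √(N / U)) := by
      have h0 : 0 ≤ S * √(N / U) := by positivity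
      exact nl5 hR1 h0
    have f4 : 4 * S ^ 2 ≤ S * (4 * R * B) := by
      calc 4 * S ^ 2 = S * (4 * 1 * S) := by ring
        _ ≤ S * (4 * R * B) := by gcongr
    calc _ ≤ S * (4 * R * (√(c1 * N) / √D0)) + S * (4 * R * √(c1 * B * √N)) +
          S * (4 * R * √(N / U)) + S * (4 * R * B) := by gcongr
      _ = _ := by rw [hZ]; ring
  unfold BG GB
  rw [← hR, ← hZ]
  calc 4 ^ k * (1 + (L : ℝ)) / S * (16 * 2 ^ k * L * r * U * cI * S ^ 2 +
    18 * 2 ^ k * L ^ 4 * R * √(τ0 * cI) * √(2 * N) / √S *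
      (2 * √(Am * N) * √(2 * S / D0) + S * √(8 * Am * √N) + 4 * S * √(N / U) + 4 * S ^ 2)) =
      4 ^ k * (1 + (L : ℝ)) / S * (16 * 2 ^ k * L * r * U * cI * S ^ 2 +
    18 * 2 ^ k * L ^ 4 * R * (√(τ0 * cI) * √(2 * N) / √S) *
      (2 * √(Am * N) * √(2 * S / D0) + S * √(8 * Am * √N) + 4 * S * √(N / U) + 4 * S ^ 2)) := by ring
    _ ≤ 4 ^ k * (1 + (L : ℝ)) / S * (16 * 2 ^ k * L * r * U * (2 * c1 * S) * S ^ 2 +
    18 * 2 ^ k * L ^ 4 * R * (2 * √τ0 * √(c1 * N)) * (S * (4 * R * Z))) := by gcongr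
    _ = 4 ^ k * (1 + (L : ℝ)) * (32 * 2 ^ k * L * r * U * c1 * S ^ 2 +
    144 * 2 ^ k * L ^ 4 * (R * R) * √τ0 * √(c1 * N) * Z) := by field_simp; ring
    _ ≤ 4 ^ k * (1 + (L : ℝ)) * (32 * 2 ^ k * L * U0 * U * c1 * B ^ 2 +
    144 * 2 ^ k * L ^ 4 * U0 * √τ0 * √(c1 * N) * Z) := by
        rw [hRR]
        gcongr

end Pool.Agent.Lib.MP_2a816b_nt
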