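import Mathlib
import Pool.Agent.Lib.MP_2a816b_nt.NumA
import Pool.Agent.Lib.MP_2a816b_nt.NumB
import Pool.Agent.Lib.MP_2a816b_nt.NumD

/-!
# The large divisors, averaged over a block of numerators (after helper89)
-/

open Finset Real

namespace Pool.Agent.Lib.MP_2a816b_nt

open Pool.Agent.Lib.MP_00e05b_nt (DD mem_DD Ab mem_Ab card_Ab_upper card_Ab_lower)



/-- the inverse of `r s / p` modulo `p` -/
noncomputable def uu (r s p : ℕ) : ℕ := (((r : ZMod p) * ((s / p : ℕ) : ZMod p))⁻¹).val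

lemma uu_not_dvd (r s p : ℕ) (hp : p.Prime) (hps : p ∣ s) (hsq : Squarefree s)
    (hrs : r.Coprime s) : ¬ p ∣ uu r s p := by
  have : Fact p.Prime := ⟨hp⟩
  intro h
  rw [← ZMod.natCast_eq_zero_iff] at h
  unfold uu at h
  rw [ZMod.natCast_zmod_val] at h
  exact inv_ne_zero (unit_rs r s p hp hps hsq hrs) h

lemma kapN_fam (r s a n p : ℕ) (hp : p.Prime) (hps : p ∣ s) (hsq : Squarefree s)
    (hrs : r.Coprime s) (hs : 0 < s) (ha : ¬ p ∣ a) :
    kapN p (fam (numc r s a) s p) n = kapN p (uu r s p) (a * n) := by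
  have hfact : Fact p.Prime := ⟨hp⟩
  have ha' : (a : ZMod p) ≠ 0 := by rw [Ne, ZMod.natCast_eq_zero_iff]; exact ha
  rw [kapN_eq, kapN_eq]
  have h1 := fam_mul (numc r s a) s p hp hsq hps
  have h2 : (numc r s a : ZMod p) * r = a := by
    have h3 := (numc_mul r s a hs hrs).of_dvd hps
    rw [← ZMod.natCast_eq_natCast_iff] at h3
    push_cast at h3
    exact h3
  have hu := unit_rs r s p hp hps hsq hrs
  have h4 : ((fam (numc r s a) s p : ℕ) : ZMod p) * ((r : ZMod p) * ((s / p : ℕ) : ZMod p)) = a := by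
    rw [← h2, ← h1]; ring
  have h5 : ((fam (numc r s a) s p : ℕ) : ZMod p) =
      a * ((r : ZMod p) * ((s / p : ℕ) : ZMod p))⁻¹ := by
    rw [← h4, mul_assoc, mul_inv_cancel₀ hu, mul_one]
  have h6 : ((uu r s p : ℕ) : ZMod p) = ((r : ZMod p) * ((s / p : ℕ) : ZMod p))⁻¹ := by
    unfold uu
    rw [ZMod.natCast_zmod_val]
  rw [h5, h6, Nat.cast_mul]
  unfold kap
  by_cases hn : (n : ZMod p) = 0
  · rw [if_pos hn, if_pos (by rw [hn, mul_zero])]
  · rw [if_neg hn, if_neg (mul_ne_zero ha' hn)]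
    congr 2
    ring

lemma coprime_iff_prime (a s : ℕ) (hs : s ≠ 0) : a.Coprime s ↔ ∀ p ∈ s.primeFactors, ¬ p ∣ a := by
  constructor
  · intro h p hp hpa
    rw [Nat.mem_primeFactors] at hp
    have h3 : p ∣ Nat.gcd a s := Nat.dvd_gcd hpa hp.2.1
    rw [h] at h3
    exact hp.1.one_lt.ne' (Nat.dvd_one.1 h3)
  · intro h
    by_contra hc
    obtain ⟨p, hp, h1, h2⟩ := Nat.Prime.not_coprime_iff_dvd.1 hc
    exact h p (by rw [Nat.mem_primeFactors]; exact ⟨hp, h2, hs⟩) h1

/-- the sum over the numerators prime to `s` as an averaged kernel -/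
lemma sum_kd_kI (I : Finset ℕ) (r s d b n : ℕ) (hs : 0 < s) (hsq : Squarefree s)
    (hrs : r.Coprime s) (hds : d ∣ s) :
    ∑ a ∈ I.filter (fun a => a.Coprime s), kd (fam (numc r s a) s) d r b n =
      kI (I.filter (fun a => a.Coprime (s / d))) (uu r s) d r b n := by
  have hd0 : d ≠ 0 := by rintro rfl; simp at hds; omega
  unfold kI kd
  rw [← sum_mul]
  congr 1
  rw [sum_filter, sum_filter]
  apply sum_congr rfl; intro a _
  have hsd : s = (s / d) * d := (Nat.div_mul_cancel hds).symm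
  have hcop : a.Coprime s ↔ a.Coprime (s / d) ∧ a.Coprime d := by
    have h1 := Nat.coprime_mul_iff_right (k := a) (m := s / d) (n := d)
    rwa [← hsd] at h1
  by_cases h1 : a.Coprime s
  · have h2 := hcop.1 h1
    rw [if_pos h1, if_pos h2.1]
    unfold kapF
    apply prod_congr rfl; intro p hp
    rw [Nat.mem_primeFactors] at hp
    have hps : p ∣ s := hp.2.1.trans hds
    apply kapN_fam r s a n p hp.1 hps hsq hrs hs
    exact (coprime_iff_prime a s hs.ne').1 h1 p (Nat.mem_primeFactors.2 ⟨hp.1, hps, hs.ne'⟩)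
  · rw [if_neg h1]
    by_cases h2 : a.Coprime (s / d)
    · rw [if_pos h2, kapF_mul _ d hd0, if_neg (fun h3 => h1 (hcop.2 ⟨h2, h3⟩))]
    · rw [if_neg h2]

/-- the large divisors in one block, fixed cutoff -/
theorem blockA (MM : Finset ℕ) (Q k r : ℕ) (D0 : ℕ) (hD0 : 1 ≤ D0) (hD : Mods MM Q k r 1)
    (S : ℝ) (hS : 1 ≤ S) (hblk : ∀ s ∈ MM, S ≤ s ∧ (s : ℝ) ≤ 2 * S)
    (hr : 0 < r) (b : ℕ) (N U L : ℕ) (hU : 1 ≤ U) (hU3 : U * U * U ≤ N) (hL : N + 1 < 2 ^ L)
    (hQN : Q ≤ N)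
    (I : Finset ℕ) (Am : ℕ) (hAm : 1 ≤ Am) (hI : ∀ a ∈ I, 0 < a ∧ a ≤ Am) (τ0 : ℝ) (hτ0 : 0 ≤ τ0)
    (hτ : ∀ t, 0 < t → t < 2 * (Am * N) → (t.divisors.card : ℝ) ≤ τ0) :
    ∑ s ∈ MM, 1 / (s.totient : ℝ) * ∑ d ∈ s.divisors.filter (fun d => D0 < d),
      1 / ((s / d).totient : ℝ) *
        ‖tw N (kI (I.filter (fun a => a.Coprime (s / d))) (uu r s) d r b) vM‖ ≤
      BG k L r U I.card τ0 S Am D0 N := by
  classical
  have hS0 : 0 < S := by linarith
  have hD0r : (1 : ℝ) ≤ D0 := by exact_mod_cast hD0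
  have hUr : (1 : ℝ) ≤ U := by exact_mod_cast hU
  have hMM : ∀ m ∈ MM, 0 < m ∧ m ≤ Q := fun m hm => by
    have := hD.one_lt m hm
    exact ⟨by omega, hD.le m hm⟩
  set F : ℝ := 16 * 2 ^ k * L * r * U * I.card * S ^ 2 +
    18 * 2 ^ k * L ^ 4 * √r * √(τ0 * I.card) * √(2 * N) / √S *
      (2 * √(Am * N) * √(2 * S / D0) + S * √(8 * Am * √N) + 4 * S * √((N : ℝ) / U) + 4 * S ^ 2) with hF
  have hF0 : 0 ≤ F := by positivity
  have h0 : ∀ s ∈ MM, 1 / (s.totient : ℝ) * ∑ d ∈ s.divisors.filter (fun d => D0 < d),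
      1 / ((s / d).totient : ℝ) *
        ‖tw N (kI (I.filter (fun a => a.Coprime (s / d))) (uu r s) d r b) vM‖ =
      ∑ d ∈ s.divisors.erase 1, if D0 < d then 1 / (s.totient : ℝ) * (1 / ((s / d).totient : ℝ) *
        ‖tw N (kI (I.filter (fun a => a.Coprime (s / d))) (uu r s) d r b) vM‖) else 0 := by
    intro s _
    rw [← sum_filter, mul_sum]
    apply sum_congr _ (fun _ _ => rfl)
    ext d
    rw [mem_filter, mem_filter, mem_erase]
    constructor
    · rintro ⟨h1, h2⟩; exact ⟨⟨by omega, h1⟩, h2⟩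
    · rintro ⟨h1, h2⟩; exact ⟨h1.2, h2⟩
  rw [sum_congr rfl h0]
  rw [sum_div_reindex MM Q hMM (fun s d => if D0 < d then 1 / (s.totient : ℝ) *
      (1 / ((s / d).totient : ℝ) *
        ‖tw N (kI (I.filter (fun a => a.Coprime (s / d))) (uu r s) d r b) vM‖) else 0)]
  have h3 : ∀ e ∈ Ioc 0 Q, (∑ d ∈ (Ioc 1 Q).filter (fun d => e * d ∈ MM),
        if D0 < d then 1 / ((e * d).totient : ℝ) * (1 / ((e * d / d).totient : ℝ) *
        ‖tw N (kI (I.filter (fun a => a.Coprime (e * d / d))) (uu r (e * d)) d r b) vM‖) else 0) ≤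
        (1 / e) * (4 ^ k / S * F) := by
    intro e he
    rw [mem_Ioc] at he
    have her : (0 : ℝ) < e := by exact_mod_cast he.1
    have her1 : (1 : ℝ) ≤ e := by exact_mod_cast he.1
    rw [← sum_filter]
    set E : Finset ℕ := ((Ioc 1 Q).filter (fun d => e * d ∈ MM)).filter (fun d => D0 < d) with hE
    rcases E.eq_empty_or_nonempty with h0 | ⟨d0, hd0⟩
    · rw [h0, sum_empty]; positivity
    have hEm : ∀ d ∈ E, 1 < d ∧ d ≤ Q ∧ e * d ∈ MM ∧ D0 < d := by
      intro d hd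
      rw [hE, mem_filter, mem_filter, mem_Ioc] at hd
      exact ⟨hd.1.1.1, hd.1.1.2, hd.1.2, hd.2⟩
    have hd0' := hEm d0 hd0
    have hsqe : Squarefree e := (hD.sq _ hd0'.2.2.1).squarefree_of_dvd (Dvd.intro d0 rfl)
    have hcarde : e.primeFactors.card ≤ k :=
      (card_le_card (Nat.primeFactors_mono (Dvd.intro d0 rfl) (hD.sq _ hd0'.2.2.1).ne_zero)).trans
        (hD.card _ hd0'.2.2.1)
    have hφ2 := totient_ge e k hsqe hcarde
    have hφ : (0 : ℝ) < e.totient := by exact_mod_cast Nat.totient_pos.2 he.1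
    have hφe : 1 / (e.totient : ℝ) ≤ 2 ^ k / e := by
      rw [div_le_div_iff₀ hφ her]
      rw [div_le_iff₀ (by positivity)] at hφ2
      linarith
    have hEd : ∀ d ∈ E, S / e ≤ d ∧ (d : ℝ) ≤ 2 * S / e := by
      intro d hd
      have h4 := hblk _ (hEm d hd).2.2.1
      push_cast at h4
      constructor
      · rw [div_le_iff₀ her]; linarith [h4.1]
      · rw [le_div_iff₀ her]; linarith [h4.2]
    have heS : (e : ℝ) ≤ 2 * S / D0 := by
      have h4 := (hEd d0 hd0).2
      rw [le_div_iff₀ her] at h4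
      rw [le_div_iff₀ (by linarith)]
      have h5 : (D0 : ℝ) ≤ d0 := by exact_mod_cast hd0'.2.2.2.le
      exact nl1 her h4 h5
    -- moduli
    set Qe : ℕ := ⌊2 * S / e⌋₊ with hQe
    have hQe' : (Qe : ℝ) ≤ 2 * S / e := Nat.floor_le (by positivity)
    have hMods : Mods E Qe k r (S / e) := by
      refine ⟨?_, ?_, ?_, ?_, ?_, ?_⟩
      · intro d hd
        exact (hD.sq _ (hEm d hd).2.2.1).squarefree_of_dvd (Dvd.intro_left e rfl)
      · intro d hd; exact (hEm d hd).1
      · intro d hd; exact Nat.le_floor (hEd d hd).2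
      · intro d hd; exact (hEd d hd).1
      · intro d hd
        exact (card_le_card (Nat.primeFactors_mono (Dvd.intro_left e rfl)
          (hD.sq _ (hEm d hd).2.2.1).ne_zero)).trans (hD.card _ (hEm d hd).2.2.1)
      · intro d hd
        exact Nat.Coprime.coprime_mul_left_right (hD.cop _ (hEm d hd).2.2.1)
    have hcore := coreA E Qe k r (S / e) (by positivity) hMods (fun d => uu r (e * d))
      (by
        intro d hd p hp
        have hd' := hEm d hd
        rw [Nat.mem_primeFactors] at hp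
        exact uu_not_dvd r _ p hp.1 (hp.2.1.mul_left e) (hD.sq _ hd'.2.2.1) (hD.cop _ hd'.2.2.1))
      hr b N U L hU hU3 hL (I.filter (fun a => a.Coprime e)) Am hAm
      (fun a ha => hI a (mem_filter.1 ha).1) τ0 hτ0 (by
        intro t ht0 ht
        refine le_trans ?_ (hτ t ht0 ht)
        have hsub : (I.filter (fun a => a.Coprime e)).filter (fun a => a ∣ t) ⊆ t.divisors := by
          intro a ha
          rw [Nat.mem_divisors]
          exact ⟨(mem_filter.1 ha).2, ht0.ne'⟩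
        exact_mod_cast card_le_card hsub)
    have hcI : (((I.filter (fun a => a.Coprime e)).card : ℕ) : ℝ) ≤ I.card := by
      exact_mod_cast card_le_card (filter_subset _ _)
    -- the bound of coreA
    have hB : 4 * 2 ^ k * L * r * U * (((I.filter (fun a => a.Coprime e)).card : ℕ) : ℝ) * Qe ^ 2 +
        18 * 2 ^ k * L ^ 4 * √r / √(S / e) *
          √(τ0 * (((I.filter (fun a => a.Coprime e)).card : ℕ) : ℝ)) * √(2 * N) *
        √(4 * Am * N + 2 * Am * √N * Qe ^ 2 + 4 * N * Qe ^ 2 / U + Qe ^ 4) ≤ F := by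
      have a1 : (Qe : ℝ) ≤ 2 * S := by
        refine hQe'.trans ?_
        rw [div_le_iff₀ her]
        exact nl2 hS0 her1
      have a2 : √(4 * Am * N + 2 * Am * √N * Qe ^ 2 + 4 * N * Qe ^ 2 / U + Qe ^ 4) ≤
          2 * √(Am * N) + 1 / e * (S * √(8 * Am * √N) + 4 * S * √((N : ℝ) / U) + 4 * S ^ 2) := by
        have b1 : 4 * Am * N + 2 * Am * √N * (Qe : ℝ) ^ 2 + 4 * N * Qe ^ 2 / U + Qe ^ 4 ≤
            (2 : ℝ) ^ 2 * (Am * N) + (S / e) ^ 2 * (8 * Am * √N) + (4 * S / e) ^ 2 * (N / U) +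
              ((2 * S / e) ^ 2) ^ 2 := by
          have c1 : (Qe : ℝ) ^ 2 ≤ (2 * S / e) ^ 2 := by gcongr
          have c2 : (Qe : ℝ) ^ 4 ≤ ((2 * S / e) ^ 2) ^ 2 := by
            calc (Qe : ℝ) ^ 4 = ((Qe : ℝ) ^ 2) ^ 2 := by ring
              _ ≤ _ := by gcongr
          calc _ ≤ 4 * Am * N + 2 * Am * √N * (2 * S / e) ^ 2 + 4 * N * (2 * S / e) ^ 2 / U +
                ((2 * S / e) ^ 2) ^ 2 := by gcongr
            _ = _ := by ring
        refine (Real.sqrt_le_sqrt b1).trans ((sqrt_add4 (by positivity) (by positivity)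
          (by positivity) (by positivity)).trans ?_)
        rw [Real.sqrt_mul (by positivity) (Am * (N : ℝ)), Real.sqrt_sq (by norm_num),
          Real.sqrt_mul (by positivity) (8 * Am * √(N : ℝ)), Real.sqrt_sq (by positivity),
          Real.sqrt_mul (by positivity) ((N : ℝ) / U), Real.sqrt_sq (by positivity),
          Real.sqrt_sq (by positivity)]
        have b2 : (2 * S / e) ^ 2 ≤ 1 / e * (4 * S ^ 2) := by
          rw [div_pow, div_mul_eq_mul_div, one_mul, div_le_div_iff₀ (by positivity) her]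
          exact nl3 her1
        calc _ ≤ 2 * √(Am * N) + S / e * √(8 * Am * √N) + 4 * S / e * √((N : ℝ) / U) +
              1 / e * (4 * S ^ 2) := by gcongr
          _ = _ := by ring
      have a3 : 1 / √(S / e) = √e / √S := by
        rw [Real.sqrt_div hS0.le, one_div, inv_div]
      have a4 : √(e : ℝ) * (1 / e) ≤ 1 := by
        rw [mul_one_div, div_le_one her]
        calc √(e : ℝ) ≤ √((e : ℝ) * e) := Real.sqrt_le_sqrt (nl4 her1)
          _ = e := Real.sqrt_mul_self her.le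
      have a5 : √(e : ℝ) ≤ √(2 * S / D0) := Real.sqrt_le_sqrt heS
      set Z : ℝ := S * √(8 * Am * √N) + 4 * S * √((N : ℝ) / U) + 4 * S ^ 2 with hZ
      have hZ0 : 0 ≤ Z := by positivity
      have a6 : √(e : ℝ) * (2 * √(Am * N) + 1 / e * Z) ≤ 2 * √(Am * N) * √(2 * S / D0) + Z := by
        calc √(e : ℝ) * (2 * √(Am * N) + 1 / e * Z) =
            2 * √(Am * N) * √(e : ℝ) + (√(e : ℝ) * (1 / e)) * Z := by ring
          _ ≤ 2 * √(Am * N) * √(2 * S / D0) + 1 * Z := by gcongr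
          _ = _ := by ring
      have g1 : 4 * 2 ^ k * L * r * U * (((I.filter (fun a => a.Coprime e)).card : ℕ) : ℝ) * (Qe : ℝ) ^ 2 ≤
          16 * 2 ^ k * L * r * U * I.card * S ^ 2 := by
        calc _ ≤ 4 * 2 ^ k * L * r * U * (I.card : ℝ) * (2 * S) ^ 2 := by gcongr
          _ = _ := by ring
      have g2 : 18 * 2 ^ k * L ^ 4 * √r / √(S / e) *
          √(τ0 * (((I.filter (fun a => a.Coprime e)).card : ℕ) : ℝ)) * √(2 * N) *
        √(4 * Am * N + 2 * Am * √N * (Qe : ℝ) ^ 2 + 4 * N * Qe ^ 2 / U + Qe ^ 4) ≤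
          18 * 2 ^ k * L ^ 4 * √r * √(τ0 * I.card) * √(2 * N) / √S *
          (2 * √(Am * N) * √(2 * S / D0) + Z) := by
        calc _ = 18 * 2 ^ k * L ^ 4 * √r * (1 / √(S / e)) *
              √(τ0 * (((I.filter (fun a => a.Coprime e)).card : ℕ) : ℝ)) * √(2 * N) *
              √(4 * Am * N + 2 * Am * √N * (Qe : ℝ) ^ 2 + 4 * N * Qe ^ 2 / U + Qe ^ 4) := by ring
          _ ≤ 18 * 2 ^ k * L ^ 4 * √r * (√e / √S) * √(τ0 * I.card) * √(2 * N) *
              (2 * √(Am * N) + 1 / e * Z) := by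
              rw [a3]
              gcongr
          _ = 18 * 2 ^ k * L ^ 4 * √r * √(τ0 * I.card) * √(2 * N) / √S *
              (√(e : ℝ) * (2 * √(Am * N) + 1 / e * Z)) := by ring
          _ ≤ _ := by gcongr
      rw [hF]
      have g3 : 2 * √(Am * N) * √(2 * S / D0) + S * √(8 * Am * √N) + 4 * S * √((N : ℝ) / U) +
          4 * S ^ 2 = 2 * √(Am * N) * √(2 * S / D0) + Z := by rw [hZ]; ring
      rw [g3]
      exact add_le_add g1 g2
    have hcore' := hcore.trans hB
    calc _ = ∑ d ∈ E, 1 / ((e * d).totient : ℝ) * (1 / (e.totient : ℝ) *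
          ‖tw N (kI (I.filter (fun a => a.Coprime e)) (uu r (e * d)) d r b) vM‖) := by
          apply sum_congr rfl; intro d hd
          have hd1 := (hEm d hd).1
          rw [Nat.mul_div_cancel e (by omega)]
      _ ≤ ∑ d ∈ E, (2 ^ k / S) * ((2 ^ k / e) *
          ‖tw N (kI (I.filter (fun a => a.Coprime e)) (uu r (e * d)) d r b) vM‖) := by
          apply sum_le_sum; intro d hd
          have hd' := hEm d hd
          have hs0 : 0 < e * d := (hMM _ hd'.2.2.1).1
          have hφs : (0 : ℝ) < (e * d).totient := by exact_mod_cast Nat.totient_pos.2 hs0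
          have hφ3 := totient_ge (e * d) k (hD.sq _ hd'.2.2.1) (hD.card _ hd'.2.2.1)
          have h5 : 1 / ((e * d).totient : ℝ) ≤ 2 ^ k / S := by
            rw [div_le_div_iff₀ hφs hS0]
            rw [div_le_iff₀ (by positivity)] at hφ3
            have := (hblk _ hd'.2.2.1).1
            linarith
          gcongr
      _ = (2 ^ k / S) * (2 ^ k / e) * ∑ d ∈ E,
          ‖tw N (kI (I.filter (fun a => a.Coprime e)) (uu r (e * d)) d r b) vM‖ := by
          rw [mul_sum]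
          apply sum_congr rfl; intro d _
          ring
      _ ≤ (2 ^ k / S) * (2 ^ k / e) * F := by gcongr
      _ = _ := by
          have : (4 : ℝ) ^ k = 2 ^ k * 2 ^ k := by rw [← mul_pow]; norm_num
          rw [this]; ring
  refine (sum_le_sum h3).trans ?_
  rw [← sum_mul]
  have h4 := sum_inv_le Q L (by omega)
  calc _ ≤ (1 + (L : ℝ)) * (4 ^ k / S * F) := by gcongr
    _ = _ := by unfold BG; rw [hF]; ring

end Pool.Agent.Lib.MP_2a816b_nt
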