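import Mathlib
import Pool.Agent.Lib.MP_2a816b_nt.NumC
import Pool.Agent.Lib.MP_2a816b_nt.NumD

/-!
# The error functional with block weights (after helper89)
-/

open Finset

namespace Pool.Agent.Lib.MP_2a816b_nt

open Pool.Agent.Lib.MP_00e05b_nt (DD mem_DD Ab mem_Ab card_Ab_upper card_Ab_lower)

lemma Sp_shift_int (N : ℕ) (x : ℝ) (m : ℤ) : Sp N (x + m) = Sp N x := by
  unfold Sp
  apply sum_congr rfl; intro n _
  congr 1
  have : (n : ℝ) * (x + m) = n * x + ((n * m : ℤ) : ℝ) := by push_cast; ring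
  rw [this, e_add_int]

lemma tw_sumK (N : ℕ) (S : Finset ℕ) (K : ℕ → ℕ → ℂ) :
    ∑ a ∈ S, tw N (K a) vM = tw N (fun n => ∑ a ∈ S, K a n) vM := by
  unfold tw
  rw [sum_comm]
  apply sum_congr rfl; intro n _
  rw [mul_sum]

lemma tw_sum_Ab (N : ℕ) (c0 c1 : ℝ) (r s b d k : ℕ)
    (hr : 0 < r) (hs : 0 < s) (hsq : Squarefree s)
    (hrs : r.Coprime s) (hk : s.primeFactors.card ≤ k) (hd : 1 < d) (hds : d ∣ s) :
    ‖∑ a ∈ Ab c0 c1 r s b, tw N (kd (fam (numc r s a) s) d r b) vM‖ ≤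
      (∑ n ∈ Ioc 0 N, vM n) * (2 ^ k * (2 * 2 ^ k * d)) := by
  have h1 : ∑ a ∈ Ab c0 c1 r s b, tw N (kd (fam (numc r s a) s) d r b) vM =
      ∑ n ∈ Ioc 0 N, ((vM n : ℂ) * e ((n * b : ℕ) / r) *
        ∑ a ∈ Ab c0 c1 r s b, kapF (fam (numc r s a) s) d.primeFactors n) := by
    unfold tw kd
    rw [sum_comm]
    apply sum_congr rfl; intro n _
    rw [mul_sum]
    apply sum_congr rfl; intro a _
    ring
  rw [h1, sum_mul]
  refine (norm_sum_le _ _).trans ?_
  apply sum_le_sum; intro n _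
  rw [norm_mul, norm_mul, norm_e, mul_one, Complex.norm_real,
    Real.norm_eq_abs, abs_of_nonneg (vM_nonneg n)]
  have g3 := vM_nonneg n
  have g4 := sum_kapF_Ab c0 c1 r s b d n k hr hs hsq hrs hk hd hds
  gcongr

/-- The error functional with block weights, divisors split at `D0`. -/
theorem FA_S (z U0 A B k D0 : ℕ) (hA : 1 ≤ A) (hD0 : 1 ≤ D0)
    (hk : ∀ p ∈ DD z U0 A B, p.2.primeFactors.card ≤ k)
    (lam c0 c1 : ℝ) (hlam : 0 < lam) (hlam2 : Real.exp lam ≤ 2) (hc0 : 0 < c0) (hc01 : c0 ≤ c1)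
    (hcA : 2 ≤ c1 * A)
    (N U L : ℕ) (hU : 1 ≤ U) (hU3 : U * U * U ≤ N) (hL : N + 1 < 2 ^ L) (hQN : B ≤ N)
    (τ0 : ℝ) (hτ0 : 0 ≤ τ0)
    (hτ : ∀ t : ℕ, 0 < t → (t : ℝ) < 4 * c1 * U0 * B * N → (t.divisors.card : ℝ) ≤ τ0)
    (r : ℕ) (hr : r ∈ Finset.Ioc 0 U0) (b : ℕ) :
    ‖∑ s ∈ MS z U0 A B r, gq s *
      ∑ a ∈ Ab c0 c1 r s b, (wB lam c0 c1 r s a : ℂ) *
        (Sp N ((a : ℝ) / (r * s)) - gq s * Sp N ((b : ℝ) / r))‖ ≤
      (Real.log B / lam + 1) * U0 * GB k L U0 U τ0 c1 B D0 N +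
      2 ^ k * (c1 + 2 / A) * (B * ((1 + 4 ^ k) * (k * Real.log N))) +
      2 ^ k * 2 ^ k * (2 ^ k * D0 * ((∑ n ∈ Ioc 0 N, vM n) * (2 ^ k * (2 * 2 ^ k * D0)))) *
        (2 / A) := by
  classical
  rw [mem_Ioc] at hr
  have hAr : (1 : ℝ) ≤ A := by exact_mod_cast hA
  have hlog : 0 ≤ Real.log N := Real.log_natCast_nonneg N
  have hc1p : 0 < c1 := hc0.trans_le hc01
  have hc1 : 0 ≤ c1 := hc1p.le
  set Ψ : ℝ := ∑ n ∈ Ioc 0 N, vM n with hΨ
  have hΨ0 : 0 ≤ Ψ := sum_nonneg (fun n _ => vM_nonneg n)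
  have hD : ∀ s ∈ MS z U0 A B r, 0 < s ∧ s ≤ B ∧ Squarefree s ∧ A < s ∧
      r.Coprime s ∧ s.primeFactors.card ≤ k := by
    intro s hs
    rw [mem_MS] at hs
    have hd := mem_DD.1 hs
    simp only at hd
    exact ⟨hd.2.2.1, hd.2.2.2.1, hd.2.2.2.2.2.1, hd.2.2.2.2.2.2.2.2.1, DD_coprime hs, hk _ hs⟩
  have hmods : Mods (MS z U0 A B r) B k r 1 := by
    refine ⟨?_, ?_, ?_, ?_, ?_, ?_⟩
    · intro s hs; exact (hD s hs).2.2.1
    · intro s hs; have := (hD s hs).2.2.2.1; omega
    · intro s hs; exact (hD s hs).2.1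
    · intro s hs
      have := (hD s hs).1
      exact_mod_cast this
    · intro s hs; exact (hD s hs).2.2.2.2.2
    · intro s hs; exact (hD s hs).2.2.2.2.1
  set er : ℝ := (1 + 4 ^ k) * (k * Real.log N) with her
  have her0 : 0 ≤ er := by positivity
  set sm : ℝ := 2 ^ k * D0 * (Ψ * (2 ^ k * (2 * 2 ^ k * D0))) with hsm
  have hsm0 : 0 ≤ sm := by positivity
  set IS : ℕ → Finset ℕ := fun s => IB lam c0 c1 r (jb lam s) (b * s % r) with hIS
  set Gs : ℕ → ℝ := fun s => 1 / (s.totient : ℝ) * ∑ d ∈ s.divisors.filter (fun d => D0 < d),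
      1 / ((s / d).totient : ℝ) *
        ‖tw N (kI ((IS s).filter (fun a => a.Coprime (s / d))) (uu r s) d r b) vM‖ with hGs
  have hGs0 : ∀ s, 0 ≤ Gs s := fun s => mul_nonneg (by positivity)
    (sum_nonneg fun d _ => mul_nonneg (by positivity) (norm_nonneg _))
  -- one modulus
  have hone : ∀ s ∈ MS z U0 A B r, ‖gq s *
      ∑ a ∈ Ab c0 c1 r s b, (wB lam c0 c1 r s a : ℂ) *
        (Sp N ((a : ℝ) / (r * s)) - gq s * Sp N ((b : ℝ) / r))‖ ≤
      2 ^ k * (c1 + 2 / A) * er + Gs s + 2 ^ k * 2 ^ k * sm * (((s : ℝ) ^ 2)⁻¹) := by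
    intro s hs
    obtain ⟨hs0, hsB, hsq, hAs, hcop, hks⟩ := hD s hs
    have hsr : (0 : ℝ) < s := by exact_mod_cast hs0
    have hφs : (0 : ℝ) < s.totient := by exact_mod_cast Nat.totient_pos.2 hs0
    have hφ2 := totient_ge s k hsq hks
    have hAs' : (A : ℝ) ≤ s := by exact_mod_cast hAs.le
    have hg : ‖gq s‖ ≤ 2 ^ k / s := by
      rw [norm_gq s hsq, div_le_div_iff₀ hφs hsr]
      rw [div_le_iff₀ (by positivity)] at hφ2
      linarith
    rw [sum_Ab_wB hlam hc0.le hc1 hr.1 hs0]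
    set T : Finset ℕ := (IS s).filter (fun a => a.Coprime s) with hT
    have hTAb : T = Ab (c0 * Real.exp ((jb lam s + 1) * lam) / s)
        (c1 * Real.exp (jb lam s * lam) / s) r s b := IB_eq_Ab hc1 hr.1 hs0
    have hTsub : T ⊆ Ab c0 c1 r s b := by
      have g2 := jb_le lam hlam s hs0
      have g3 := (lt_jb lam hlam s hs0).le
      have hr' : (0 : ℝ) < r := by exact_mod_cast hr.1
      intro a ha
      rw [hT, mem_filter, hIS, mem_IB hc1] at ha
      rw [mem_Ab hc1 hr.1 hs0, le_div_iff₀ (by positivity), div_le_iff₀ (by positivity)]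
      refine ⟨?_, ?_, ha.2, ha.1.2.2⟩
      · refine le_trans ?_ ha.1.1
        gcongr
      · refine ha.1.2.1.trans ?_
        gcongr
    have hcu := card_Ab_upper c0 c1 hc0.le hc01 r s b hr.1 hs0
    have hcu' : (T.card : ℝ) ≤ c1 * s + 2 := by
      have h1 : (T.card : ℝ) ≤ (Ab c0 c1 r s b).card := by exact_mod_cast card_le_card hTsub
      exact nl6 h1 hcu (by positivity)
    have hgc : ‖gq s‖ * T.card ≤ 2 ^ k * (c1 + 2 / A) := by
      calc ‖gq s‖ * T.card ≤ (2 ^ k / s) * (c1 * s + 2) := by gcongr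
        _ = 2 ^ k * (c1 + 2 / s) := by field_simp
        _ ≤ _ := by gcongr
    have hTmem : ∀ a ∈ T, a.Coprime s ∧ a ≡ b * s [MOD r] := by
      intro a ha
      have := hTsub ha
      rw [mem_Ab hc1 hr.1 hs0] at this
      exact ⟨this.2.2.1, this.2.2.2⟩
    -- the decomposition
    have hdec : ∀ a ∈ T, ‖(Sp N ((a : ℝ) / (r * s)) - gq s * Sp N ((b : ℝ) / r)) -
        ∑ d ∈ s.divisors.erase 1, gq (s / d) * tw N (kd (fam (numc r s a) s) d r b) vM‖ ≤ er := by
      intro a ha
      obtain ⟨t, ht⟩ := numc_frac r s a b hr.1 hs0 hcop (hTmem a ha).2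
      rw [ht, Sp_shift_int]
      have h1 := Sp_expand (numc r s a) s b r N k hsq hks
      have h1mem : 1 ∈ s.divisors := by rw [Nat.mem_divisors]; exact ⟨one_dvd s, hs0.ne'⟩
      rw [← add_sum_erase _ _ h1mem] at h1
      have h2 : gq (s / 1) * tw N (kd (fam (numc r s a) s) 1 r b) vM = gq s * Sp N ((b : ℝ) / r) := by
        rw [Nat.div_one]
        congr 1
        unfold tw Sp
        apply sum_congr rfl; intro n _
        congr 1
        unfold kd kapF
        rw [Nat.primeFactors_one, prod_empty, one_mul]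
        congr 1
        push_cast
        ring
      rw [h2] at h1
      rw [sub_sub]
      exact h1
    -- small divisors
    have hsmall : ∀ d ∈ (s.divisors.erase 1).filter (fun d => ¬ D0 < d),
        ‖gq (s / d) * ∑ a ∈ T, tw N (kd (fam (numc r s a) s) d r b) vM‖ ≤ sm / s := by
      intro d hd
      rw [mem_filter, mem_erase, Nat.mem_divisors] at hd
      obtain ⟨⟨hd1, hds, _⟩, hdD⟩ := hd
      have hd0 : 0 < d := Nat.pos_of_dvd_of_pos hds hs0
      have hdr : (0 : ℝ) < d := by exact_mod_cast hd0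
      have hdD' : (d : ℝ) ≤ D0 := by exact_mod_cast not_lt.1 hdD
      have hdm : s / d ∣ s := Nat.div_dvd_of_dvd hds
      have hsq' : Squarefree (s / d) := hsq.squarefree_of_dvd hdm
      have hks' : (s / d).primeFactors.card ≤ k :=
        (card_le_card (Nat.primeFactors_mono hdm hs0.ne')).trans hks
      have hφ3 := totient_ge (s / d) k hsq' hks'
      have hsd0 : 0 < s / d := Nat.pos_of_ne_zero hsq'.ne_zero
      have hφ4 : (0 : ℝ) < (s / d).totient := by exact_mod_cast Nat.totient_pos.2 hsd0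
      have hcast : ((s / d : ℕ) : ℝ) = s / d := Nat.cast_div hds hdr.ne'
      have hg2 : ‖gq (s / d)‖ ≤ 2 ^ k * D0 / s := by
        rw [norm_gq _ hsq', div_le_div_iff₀ hφ4 hsr, one_mul]
        rw [hcast, div_le_iff₀ (by positivity), div_le_iff₀ hdr] at hφ3
        calc (s : ℝ) ≤ (s / d).totient * 2 ^ k * d := hφ3
          _ ≤ (s / d).totient * 2 ^ k * D0 := by gcongr
          _ = _ := by ring
      have hw := tw_sum_Ab N (c0 * Real.exp ((jb lam s + 1) * lam) / s)
        (c1 * Real.exp (jb lam s * lam) / s) r s b d k hr.1 hs0 hsq hcop hks (by omega) hds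
      rw [← hTAb] at hw
      rw [norm_mul]
      calc _ ≤ (2 ^ k * D0 / s) * (Ψ * (2 ^ k * (2 * 2 ^ k * d))) := by gcongr
        _ ≤ (2 ^ k * D0 / s) * (Ψ * (2 ^ k * (2 * 2 ^ k * D0))) := by gcongr
        _ = _ := by rw [hsm]; ring
    -- large divisors
    have hlarge : ∀ d ∈ (s.divisors.erase 1).filter (fun d => D0 < d),
        ‖gq (s / d) * ∑ a ∈ T, tw N (kd (fam (numc r s a) s) d r b) vM‖ =
        1 / ((s / d).totient : ℝ) *
          ‖tw N (kI ((IS s).filter (fun a => a.Coprime (s / d))) (uu r s) d r b) vM‖ := by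
      intro d hd
      rw [mem_filter, mem_erase, Nat.mem_divisors] at hd
      obtain ⟨⟨hd1, hds, _⟩, hdD⟩ := hd
      have hdm : s / d ∣ s := Nat.div_dvd_of_dvd hds
      have hsq' : Squarefree (s / d) := hsq.squarefree_of_dvd hdm
      rw [norm_mul, norm_gq _ hsq', tw_sumK]
      congr 2
      unfold tw
      apply sum_congr rfl; intro n _
      change (vM n : ℂ) * ∑ a ∈ T, kd (fam (numc r s a) s) d r b n = _
      rw [hT, sum_kd_kI (IS s) r s d b n hs0 hsq hcop hds]
    -- assemble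
    have hsum : ‖∑ a ∈ T, (Sp N ((a : ℝ) / (r * s)) - gq s * Sp N ((b : ℝ) / r))‖ ≤
        T.card * er + (∑ d ∈ s.divisors.filter (fun d => D0 < d),
      1 / ((s / d).totient : ℝ) *
        ‖tw N (kI ((IS s).filter (fun a => a.Coprime (s / d))) (uu r s) d r b) vM‖) +
        2 ^ k * (sm / s) := by
      have e1 : ∑ a ∈ T, (Sp N ((a : ℝ) / (r * s)) - gq s * Sp N ((b : ℝ) / r)) =
          ∑ a ∈ T, ((Sp N ((a : ℝ) / (r * s)) - gq s * Sp N ((b : ℝ) / r)) -
            ∑ d ∈ s.divisors.erase 1, gq (s / d) * tw N (kd (fam (numc r s a) s) d r b) vM) +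
          (∑ d ∈ (s.divisors.erase 1).filter (fun d => D0 < d),
            gq (s / d) * ∑ a ∈ T, tw N (kd (fam (numc r s a) s) d r b) vM +
          ∑ d ∈ (s.divisors.erase 1).filter (fun d => ¬ D0 < d),
            gq (s / d) * ∑ a ∈ T, tw N (kd (fam (numc r s a) s) d r b) vM) := by
        rw [sum_filter_add_sum_filter_not]
        have e2 : ∑ d ∈ s.divisors.erase 1, gq (s / d) *
            ∑ a ∈ T, tw N (kd (fam (numc r s a) s) d r b) vM =
            ∑ a ∈ T, ∑ d ∈ s.divisors.erase 1, gq (s / d) *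
              tw N (kd (fam (numc r s a) s) d r b) vM := by
          rw [sum_comm]
          apply sum_congr rfl; intro d _
          rw [mul_sum]
        rw [e2, ← sum_add_distrib]
        apply sum_congr rfl; intro a _
        ring
      rw [e1]
      have n1 : ‖∑ a ∈ T, ((Sp N ((a : ℝ) / (r * s)) - gq s * Sp N ((b : ℝ) / r)) -
            ∑ d ∈ s.divisors.erase 1, gq (s / d) * tw N (kd (fam (numc r s a) s) d r b) vM)‖ ≤
          T.card * er := by
        refine (norm_sum_le _ _).trans ((sum_le_sum hdec).trans ?_)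
        rw [sum_const, nsmul_eq_mul]
      have n2 : ‖∑ d ∈ (s.divisors.erase 1).filter (fun d => D0 < d),
            gq (s / d) * ∑ a ∈ T, tw N (kd (fam (numc r s a) s) d r b) vM‖ ≤
          ∑ d ∈ s.divisors.filter (fun d => D0 < d), 1 / ((s / d).totient : ℝ) *
        ‖tw N (kI ((IS s).filter (fun a => a.Coprime (s / d))) (uu r s) d r b) vM‖ := by
        refine (norm_sum_le _ _).trans ?_
        rw [sum_congr rfl hlarge]
        apply sum_le_sum_of_subset_of_nonneg
        · intro d hd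
          rw [mem_filter, mem_erase] at hd
          rw [mem_filter]
          exact ⟨hd.1.2, hd.2⟩
        · intro d _ _
          exact mul_nonneg (by positivity) (norm_nonneg _)
      have n3 : ‖∑ d ∈ (s.divisors.erase 1).filter (fun d => ¬ D0 < d),
            gq (s / d) * ∑ a ∈ T, tw N (kd (fam (numc r s a) s) d r b) vM‖ ≤
          2 ^ k * (sm / s) := by
        refine (norm_sum_le _ _).trans ((sum_le_sum hsmall).trans ?_)
        rw [sum_const, nsmul_eq_mul]
        have h5 : (((s.divisors.erase 1).filter (fun d => ¬ D0 < d)).card : ℝ) ≤ 2 ^ k := by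
          have h6 := (card_filter_le (s.divisors.erase 1) (fun d => ¬ D0 < d)).trans
            ((card_le_card (erase_subset 1 s.divisors)).trans (card_divisors_le_two_pow s k hsq hks))
          exact_mod_cast h6
        gcongr
      refine (norm_add_le _ _).trans ?_
      have := norm_add_le (∑ d ∈ (s.divisors.erase 1).filter (fun d => D0 < d),
            gq (s / d) * ∑ a ∈ T, tw N (kd (fam (numc r s a) s) d r b) vM)
          (∑ d ∈ (s.divisors.erase 1).filter (fun d => ¬ D0 < d),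
            gq (s / d) * ∑ a ∈ T, tw N (kd (fam (numc r s a) s) d r b) vM)
      linarith
    rw [norm_mul]
    calc ‖gq s‖ * ‖∑ a ∈ T, (Sp N ((a : ℝ) / (r * s)) - gq s * Sp N ((b : ℝ) / r))‖
        ≤ ‖gq s‖ * (T.card * er + (∑ d ∈ s.divisors.filter (fun d => D0 < d),
      1 / ((s / d).totient : ℝ) *
        ‖tw N (kI ((IS s).filter (fun a => a.Coprime (s / d))) (uu r s) d r b) vM‖) +
        2 ^ k * (sm / s)) := by
          gcongr
      _ = (‖gq s‖ * T.card) * er + ‖gq s‖ * (∑ d ∈ s.divisors.filter (fun d => D0 < d),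
      1 / ((s / d).totient : ℝ) *
        ‖tw N (kI ((IS s).filter (fun a => a.Coprime (s / d))) (uu r s) d r b) vM‖) +
          ‖gq s‖ * (2 ^ k * (sm / s)) := by ring
      _ ≤ 2 ^ k * (c1 + 2 / A) * er + Gs s + (2 ^ k / s) * (2 ^ k * (sm / s)) := by
          have h7 : ‖gq s‖ * (∑ d ∈ s.divisors.filter (fun d => D0 < d),
              1 / ((s / d).totient : ℝ) *
              ‖tw N (kI ((IS s).filter (fun a => a.Coprime (s / d))) (uu r s) d r b) vM‖) = Gs s := by
            rw [norm_gq s hsq]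
          rw [h7]
          gcongr
      _ = _ := by field_simp
  refine (norm_sum_le _ _).trans ((sum_le_sum hone).trans ?_)
  have e9 : ∑ s ∈ MS z U0 A B r, (2 ^ k * (c1 + 2 / A) * er + Gs s +
      2 ^ k * 2 ^ k * sm * (((s : ℝ) ^ 2)⁻¹)) =
      (MS z U0 A B r).card * (2 ^ k * (c1 + 2 / A) * er) + ∑ s ∈ MS z U0 A B r, Gs s +
      2 ^ k * 2 ^ k * sm * ∑ s ∈ MS z U0 A B r, (((s : ℝ) ^ 2)⁻¹) := by
    rw [sum_add_distrib, ← mul_sum (MS z U0 A B r) (fun s : ℕ => (((s : ℝ) ^ 2)⁻¹)),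
      sum_add_distrib, sum_const, nsmul_eq_mul]
  rw [e9]
  have hcardMS : ((MS z U0 A B r).card : ℝ) ≤ B := hmods.card_le
  have hsq2 : ∑ s ∈ MS z U0 A B r, (((s : ℝ) ^ 2)⁻¹) ≤ 2 / A := by
    calc ∑ s ∈ MS z U0 A B r, (((s : ℝ) ^ 2)⁻¹) ≤ ∑ s ∈ Ioo A (B + 1), (((s : ℝ) ^ 2)⁻¹) := by
          apply sum_le_sum_of_subset_of_nonneg
          · intro s hs
            have := hD s hs
            rw [mem_Ioo]
            exact ⟨this.2.2.2.1, by omega⟩
          · intro s _ _
            positivity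
      _ ≤ 2 / ((A : ℝ) + 1) := sum_Ioo_inv_sq_le A (B + 1)
      _ ≤ 2 / A := by
          apply div_le_div_of_nonneg_left (by norm_num) (by linarith)
          linarith
  -- the blocks
  have hGsum : ∑ s ∈ MS z U0 A B r, Gs s ≤
      (Real.log B / lam + 1) * U0 * GB k L U0 U τ0 c1 B D0 N := by
    have hGB0 : 0 ≤ GB k L U0 U τ0 c1 B D0 N := by
      have : 0 ≤ GB k L U0 U τ0 c1 B D0 N := by unfold GB; positivity
      positivity
    have hlB : 0 ≤ Real.log B / lam := div_nonneg (Real.log_natCast_nonneg B) hlam.le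
    set J : ℕ := ⌊Real.log B / lam⌋₊ + 1 with hJ
    have hmaps : ∀ s ∈ MS z U0 A B r, (jb lam s, b * s % r) ∈ range J ×ˢ range r := by
      intro s hs
      obtain ⟨hs0, hsB, _⟩ := hD s hs
      rw [mem_product, mem_range, mem_range]
      refine ⟨?_, Nat.mod_lt _ hr.1⟩
      rw [hJ, Nat.lt_add_one_iff]
      unfold jb
      apply Nat.floor_le_floor
      have : Real.log s ≤ Real.log B := Real.log_le_log (by exact_mod_cast hs0) (by exact_mod_cast hsB)
      gcongr
    rw [← sum_fiberwise_of_maps_to hmaps]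
    have hfib : ∀ q ∈ range J ×ˢ range r,
        ∑ s ∈ (MS z U0 A B r).filter (fun s => (jb lam s, b * s % r) = q), Gs s ≤
        GB k L U0 U τ0 c1 B D0 N := by
      rintro ⟨j, ϱ⟩ _
      set MM := (MS z U0 A B r).filter (fun s => (jb lam s, b * s % r) = (j, ϱ)) with hMM
      rcases MM.eq_empty_or_nonempty with h0 | ⟨s0, hs0⟩
      · rw [h0, sum_empty]; exact hGB0
      have hMMm : ∀ s ∈ MM, s ∈ MS z U0 A B r ∧ jb lam s = j ∧ b * s % r = ϱ := by
        intro s hs
        rw [hMM, mem_filter, Prod.mk.injEq] at hs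
        exact ⟨hs.1, hs.2.1, hs.2.2⟩
      set S : ℝ := Real.exp (j * lam) with hS
      have hS0 : 0 < S := Real.exp_pos _
      have hS2 : Real.exp (((j : ℝ) + 1) * lam) ≤ 2 * S := by
        have : Real.exp (((j : ℝ) + 1) * lam) = Real.exp lam * S := by
          rw [hS, ← Real.exp_add]; congr 1; ring
        rw [this]; gcongr
      have hblk : ∀ s ∈ MM, S ≤ s ∧ (s : ℝ) ≤ 2 * S := by
        intro s hs
        obtain ⟨h1, h2, _⟩ := hMMm s hs
        have h3 := jb_le lam hlam s (hD s h1).1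
        have h4 := (lt_jb lam hlam s (hD s h1).1).le
        rw [h2] at h3 h4
        exact ⟨h3, h4.trans hS2⟩
      have hs0' := hMMm s0 hs0
      have hA2S : (A : ℝ) ≤ 2 * S := by
        have h1 : (A : ℝ) ≤ s0 := by exact_mod_cast (hD s0 hs0'.1).2.2.2.1.le
        exact h1.trans (hblk s0 hs0).2
      have hSB : S ≤ B := (hblk s0 hs0).1.trans (by exact_mod_cast (hD s0 hs0'.1).2.1)
      have hS1 : 1 ≤ S := Real.one_le_exp (by positivity)
      have hc1S : 1 ≤ c1 * S := nl7 hcA hA2S hc1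
      have hrr : (1 : ℝ) ≤ r := by exact_mod_cast hr.1
      have hrU : (r : ℝ) ≤ U0 := by exact_mod_cast hr.2
      have hc1rS : 1 ≤ c1 * r * S := nl8 hc1S hrr
      set Am : ℕ := ⌊c1 * (r * S)⌋₊ with hAm
      have hAm1 : 1 ≤ Am := Nat.le_floor (by push_cast; linarith)
      have hAmle : (Am : ℝ) ≤ c1 * r * S := by
        have := Nat.floor_le (a := c1 * (r * S)) (by positivity)
        rw [hAm]; linarith
      have hIm : ∀ a ∈ IB lam c0 c1 r j ϱ, 0 < a ∧ a ≤ Am := by
        intro a ha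
        rw [mem_IB hc1] at ha
        constructor
        · have h1 : 0 < c0 * (r * Real.exp ((j + 1) * lam)) := by
            have := Real.exp_pos (((j : ℝ) + 1) * lam)
            positivity
          have h2 : (0 : ℝ) < a := h1.trans_le ha.1
          exact_mod_cast h2
        · exact Nat.le_floor ha.2.1
      have hIcard : ((IB lam c0 c1 r j ϱ).card : ℝ) ≤ 2 * c1 * S := by
        have := card_IB lam c0 c1 hc1 r j ϱ hr.1
        rw [← hS] at this
        linarith
      have hmodsM : Mods MM B k r 1 :=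
        ⟨fun s hs => hmods.sq s (hMMm s hs).1, fun s hs => hmods.one_lt s (hMMm s hs).1,
          fun s hs => hmods.le s (hMMm s hs).1, fun s hs => hmods.ge s (hMMm s hs).1,
          fun s hs => hmods.card s (hMMm s hs).1, fun s hs => hmods.cop s (hMMm s hs).1⟩
      have hb := blockA MM B k r D0 hD0 hmodsM S hS1 hblk hr.1 b N U L hU hU3 hL hQN
        (IB lam c0 c1 r j ϱ) Am hAm1 hIm τ0 hτ0 (by
          intro t ht0 ht
          apply hτ t ht0
          have h1 : (t : ℝ) < ((2 * (Am * N) : ℕ) : ℝ) := by exact_mod_cast ht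
          refine h1.trans_le ?_
          push_cast
          calc 2 * ((Am : ℝ) * N) ≤ 2 * ((c1 * r * S) * N) := by gcongr
            _ ≤ 2 * ((c1 * U0 * B) * N) := by gcongr
            _ ≤ 4 * c1 * U0 * B * N := by
                have : 0 ≤ (c1 * U0 * B) * N := by positivity
                linarith)
      have e3 : ∑ s ∈ MM, Gs s = ∑ s ∈ MM, 1 / (s.totient : ℝ) *
          ∑ d ∈ s.divisors.filter (fun d => D0 < d), 1 / ((s / d).totient : ℝ) *
          ‖tw N (kI ((IB lam c0 c1 r j ϱ).filter (fun a => a.Coprime (s / d))) (uu r s) d r b) vM‖ := by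
        apply sum_congr rfl; intro s hs
        obtain ⟨_, h2, h3⟩ := hMMm s hs
        simp only [hGs, hIS, h2, h3]
      rw [e3]
      refine hb.trans ?_
      apply BG_le_GB k L r U U0 hr.1 hr.2 (by positivity) hτ0 hS0 hSB hc1 hIcard (by positivity)
        _ (by exact_mod_cast hD0) (by positivity)
      have : 0 ≤ c1 * r * S := by positivity
      linarith
    refine (sum_le_sum hfib).trans ?_
    rw [sum_const, card_product, card_range, card_range, nsmul_eq_mul]
    have hJ1 : (J : ℝ) ≤ Real.log B / lam + 1 := by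
      rw [hJ]; push_cast
      have := Nat.floor_le hlB
      linarith
    have hrU : (r : ℝ) ≤ U0 := by exact_mod_cast hr.2
    push_cast
    gcongr
  have hpos : 0 ≤ 2 ^ k * (c1 + 2 / A) * er := by positivity
  calc _ ≤ B * (2 ^ k * (c1 + 2 / A) * er) +
        (Real.log B / lam + 1) * U0 * GB k L U0 U τ0 c1 B D0 N +
        2 ^ k * 2 ^ k * sm * (2 / A) := by
        gcongr
    _ = _ := by ring

end Pool.Agent.Lib.MP_2a816b_nt
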