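import Mathlib
import Pool.Agent.Lib.MP_2a816b_nt.NumD
import Pool.Agent.Lib.MP_2a816b_nt.Window

/-!
# Step weights below the Fejer kernel
-/

open Finset Real

namespace Pool.Agent.Lib.MP_2a816b_nt

open Pool.Agent.Lib.MP_00e05b_nt (DD mem_DD Ab mem_Ab card_Ab_upper card_Ab_lower)

lemma norm_e_sub_le (x y : ℝ) : ‖e x - e y‖ ≤ 2 * π * |x - y| := by
  have h1 : e x - e y = e y * (e (x - y) - 1) := by
    rw [mul_sub, ← e_add, mul_one]; congr 2; ring
  rw [h1, norm_mul, norm_e, one_mul, norm_e_sub_one]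
  have h2 : |sin (π * (x - y))| ≤ |π * (x - y)| := abs_sin_le_abs
  rw [abs_mul, abs_of_pos pi_pos] at h2
  linarith

lemma D_lip (h : ℕ) (x y : ℝ) : ‖D h x - D h y‖ ≤ π * h ^ 2 * |x - y| := by
  unfold D
  rw [← sum_sub_distrib]
  have h1 : ∀ u ∈ range h, ‖e (u * x) - e (u * y)‖ ≤ 2 * π * |x - y| * u := by
    intro u _
    refine (norm_e_sub_le _ _).trans (le_of_eq ?_)
    rw [← mul_sub, abs_mul, Nat.abs_cast]; ring
  have h2 : ∑ u ∈ range h, (u : ℝ) ≤ h ^ 2 / 2 := by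
    have := Finset.sum_range_id_mul_two h
    have h3 : (∑ u ∈ range h, (u : ℝ)) * 2 = (h : ℝ) * ((h - 1 : ℕ) : ℝ) := by
      have h0 : (((∑ i ∈ range h, i) * 2 : ℕ) : ℝ) = ((h * (h - 1) : ℕ) : ℝ) := by rw [this]
      rw [Nat.cast_mul, Nat.cast_mul, Nat.cast_sum] at h0
      simpa using h0
    have h4 : ((h - 1 : ℕ) : ℝ) ≤ h := by exact_mod_cast Nat.sub_le h 1
    have h5 : (h : ℝ) * ((h - 1 : ℕ) : ℝ) ≤ h * h := by gcongr
    nlinarith
  calc ‖∑ u ∈ range h, (e (u * x) - e (u * y))‖ ≤ ∑ u ∈ range h, 2 * π * |x - y| * u :=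
        (norm_sum_le _ _).trans (sum_le_sum h1)
    _ = 2 * π * |x - y| * ∑ u ∈ range h, (u : ℝ) := by rw [mul_sum]
    _ ≤ 2 * π * |x - y| * (h ^ 2 / 2) := by
        have := pi_pos
        gcongr
    _ = _ := by ring

lemma D_sq_lip (h : ℕ) (x y : ℝ) : ‖D h x‖ ^ 2 ≤ ‖D h y‖ ^ 2 + 7 * h ^ 3 * |x - y| := by
  have h1 := D_lip h x y
  have h2 := norm_D_le h x
  have h3 := norm_D_le h y
  have h4 : ‖D h x‖ - ‖D h y‖ ≤ ‖D h x - D h y‖ := norm_sub_norm_le _ _
  have h5 : ‖D h x‖ ^ 2 - ‖D h y‖ ^ 2 = (‖D h x‖ + ‖D h y‖) * (‖D h x‖ - ‖D h y‖) := by ring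
  have h6 : (‖D h x‖ + ‖D h y‖) * (‖D h x‖ - ‖D h y‖) ≤ (2 * h) * (π * h ^ 2 * |x - y|) := by
    have g1 := norm_nonneg (D h x)
    have g2 := norm_nonneg (D h y)
    have g3 : 0 ≤ π * h ^ 2 * |x - y| := by have := pi_pos; positivity
    calc (‖D h x‖ + ‖D h y‖) * (‖D h x‖ - ‖D h y‖) ≤
        (‖D h x‖ + ‖D h y‖) * (π * h ^ 2 * |x - y|) := by gcongr; linarith
      _ ≤ (2 * h) * (π * h ^ 2 * |x - y|) := by gcongr; linarith
  have h7 : (2 * (h : ℝ)) * (π * h ^ 2 * |x - y|) ≤ 7 * h ^ 3 * |x - y| := by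
    have hp := pi_lt_d2
    have h8 : (2 * (h : ℝ)) * (π * h ^ 2 * |x - y|) = (2 * π) * ((h : ℝ) ^ 3 * |x - y|) := by ring
    have h9 : 7 * (h : ℝ) ^ 3 * |x - y| = 7 * ((h : ℝ) ^ 3 * |x - y|) := by ring
    rw [h8, h9]
    apply mul_le_mul_of_nonneg_right _ (by positivity)
    linarith
  linarith

/-- the values of the step function -/
noncomputable def vS (h n i : ℕ) : ℝ := max (‖D h ((i : ℝ) / (h * n))‖ ^ 2 - 7 * h ^ 2 / n) 0

lemma vS_nonneg (h n i : ℕ) : 0 ≤ vS h n i := le_max_right _ _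

lemma vS_le (h n i : ℕ) : vS h n i ≤ h ^ 2 := by
  unfold vS
  apply max_le _ (by positivity)
  have h1 := norm_D_le h ((i : ℝ) / (h * n))
  have h2 : ‖D h ((i : ℝ) / (h * n))‖ ^ 2 ≤ (h : ℝ) ^ 2 := by gcongr
  have h3 : 0 ≤ 7 * (h : ℝ) ^ 2 / n := by positivity
  linarith

lemma vS_le_D (h n i : ℕ) (hh : 0 < h) (hn : 0 < n) (x : ℝ) (h0 : (i : ℝ) / (h * n) ≤ x)
    (h1 : x ≤ (i + 1 : ℝ) / (h * n)) : vS h n i ≤ ‖D h x‖ ^ 2 := by
  unfold vS
  apply max_le _ (by positivity)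
  have hhr : (0 : ℝ) < h := by exact_mod_cast hh
  have hnr : (0 : ℝ) < n := by exact_mod_cast hn
  have h2 := D_sq_lip h ((i : ℝ) / (h * n)) x
  have h3 : |(i : ℝ) / (h * n) - x| ≤ 1 / (h * n) := by
    rw [abs_sub_comm, abs_of_nonneg (by linarith)]
    have : (i + 1 : ℝ) / (h * n) = (i : ℝ) / (h * n) + 1 / (h * n) := by ring
    linarith
  have h4 : 7 * (h : ℝ) ^ 3 * |(i : ℝ) / (h * n) - x| ≤ 7 * h ^ 2 / n := by
    calc 7 * (h : ℝ) ^ 3 * |(i : ℝ) / (h * n) - x| ≤ 7 * (h : ℝ) ^ 3 * (1 / (h * n)) := by gcongr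
      _ = _ := by field_simp
  linarith

/-- the weights -/
noncomputable def wS (lam : ℝ) (h n C r s a : ℕ) : ℝ :=
  ∑ i ∈ Ioc 0 (C * n), vS h n i * wB lam ((i : ℝ) / (h * n)) ((i + 1 : ℝ) / (h * n)) r s a

lemma wS_nonneg (lam : ℝ) (h n C r s a : ℕ) : 0 ≤ wS lam h n C r s a :=
  sum_nonneg fun i _ => mul_nonneg (vS_nonneg _ _ _) (wB_nonneg _ _ _ _ _ _)

lemma wB_cases (lam c0 c1 : ℝ) (r s a : ℕ) : wB lam c0 c1 r s a = 0 ∨
    (wB lam c0 c1 r s a = 1 ∧ c0 * (r * Real.exp ((jb lam s + 1) * lam)) ≤ a ∧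
    (a : ℝ) ≤ c1 * (r * Real.exp (jb lam s * lam))) := by
  unfold wB
  split_ifs with h
  · exact Or.inr ⟨rfl, h⟩
  · exact Or.inl rfl

lemma wB_excl (lam : ℝ) (hlam : 0 < lam) (h n r s a i j : ℕ) (hh : 0 < h) (hn : 0 < n)
    (hr : 0 < r) (hij : i < j)
    (h1 : wB lam ((i : ℝ) / (h * n)) ((i + 1 : ℝ) / (h * n)) r s a ≠ 0) :
    wB lam ((j : ℝ) / (h * n)) ((j + 1 : ℝ) / (h * n)) r s a = 0 := by
  have hhr : (0 : ℝ) < h := by exact_mod_cast hh
  have hnr : (0 : ℝ) < n := by exact_mod_cast hn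
  have hrr : (0 : ℝ) < r := by exact_mod_cast hr
  rcases wB_cases lam ((i : ℝ) / (h * n)) ((i + 1 : ℝ) / (h * n)) r s a with g | ⟨_, _, g⟩
  · exact absurd g h1
  rcases wB_cases lam ((j : ℝ) / (h * n)) ((j + 1 : ℝ) / (h * n)) r s a with f | ⟨_, f, _⟩
  · exact f
  exfalso
  have e1 : (i + 1 : ℝ) ≤ j := by exact_mod_cast hij
  have e2 : Real.exp (jb lam s * lam) < Real.exp ((jb lam s + 1) * lam) := by
    apply Real.exp_lt_exp.2
    have : (jb lam s + 1 : ℝ) * lam = jb lam s * lam + lam := by ring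
    linarith
  have e3 : (i + 1 : ℝ) / (h * n) * (r * Real.exp (jb lam s * lam)) <
      (j : ℝ) / (h * n) * (r * Real.exp ((jb lam s + 1) * lam)) := by
    have : (0 : ℝ) < (i + 1 : ℝ) / (h * n) := by positivity
    calc (i + 1 : ℝ) / (h * n) * (r * Real.exp (jb lam s * lam)) <
        (i + 1 : ℝ) / (h * n) * (r * Real.exp ((jb lam s + 1) * lam)) := by gcongr
      _ ≤ _ := by gcongr
  linarith

lemma wS_le (lam : ℝ) (hlam : 0 < lam) (h n C r s a : ℕ) (hh : 0 < h) (hn : 0 < n)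
    (hr : 0 < r) (hs : 0 < s) : wS lam h n C r s a ≤ ‖D h ((a : ℝ) / (r * s))‖ ^ 2 := by
  classical
  have hrr : (0 : ℝ) < r := by exact_mod_cast hr
  have hsr : (0 : ℝ) < s := by exact_mod_cast hs
  by_cases hex : ∃ i ∈ Ioc 0 (C * n),
      wB lam ((i : ℝ) / (h * n)) ((i + 1 : ℝ) / (h * n)) r s a ≠ 0
  · obtain ⟨i, hi, hi2⟩ := hex
    have h1 : wS lam h n C r s a = vS h n i *
        wB lam ((i : ℝ) / (h * n)) ((i + 1 : ℝ) / (h * n)) r s a := by
      unfold wS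
      apply sum_eq_single_of_mem i hi
      intro j _ hji
      rcases lt_or_gt_of_ne hji with h2 | h2
      · have : wB lam ((j : ℝ) / (h * n)) ((j + 1 : ℝ) / (h * n)) r s a = 0 := by
          by_contra h3
          exact hi2 (wB_excl lam hlam h n r s a j i hh hn hr h2 h3)
        rw [this, mul_zero]
      · rw [wB_excl lam hlam h n r s a i j hh hn hr h2 hi2, mul_zero]
    rw [h1]
    rcases wB_cases lam ((i : ℝ) / (h * n)) ((i + 1 : ℝ) / (h * n)) r s a with g | ⟨g1, g2, g3⟩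
    · exact absurd g hi2
    rw [g1, mul_one]
    have f1 := jb_le lam hlam s hs
    have f2 := (lt_jb lam hlam s hs).le
    apply vS_le_D h n i hh hn
    · rw [le_div_iff₀ (by positivity)]
      refine le_trans ?_ g2
      gcongr
    · rw [div_le_iff₀ (by positivity)]
      refine g3.trans ?_
      gcongr
  · push Not at hex
    have : wS lam h n C r s a = 0 := by
      unfold wS
      apply sum_eq_zero; intro i hi
      rw [hex i hi, mul_zero]
    rw [this]; positivity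

/-- the mass of the Fejer kernel near the origin -/
lemma sum_D_near (h n C : ℕ) (hh : 0 < h) (hn : 0 < n) (hC : 0 < C) (hCh : 2 * C < h) :
    (h * n : ℝ) * h - h ^ 2 - (h * n : ℝ) * h / C ≤
      2 * ∑ i ∈ Ioc 0 (C * n), ‖D h ((i : ℝ) / (h * n))‖ ^ 2 := by
  classical
  have hhr : (0 : ℝ) < h := by exact_mod_cast hh
  have hnr : (0 : ℝ) < n := by exact_mod_cast hn
  have hCr : (0 : ℝ) < C := by exact_mod_cast hC
  set l : ℕ := h * n with hl
  set m : ℕ := C * n with hm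
  have hl0 : 0 < l := Nat.mul_pos hh hn
  have hm0 : 0 < m := Nat.mul_pos hC hn
  have hml : 2 * m < l := by
    rw [hl, hm]
    calc 2 * (C * n) = (2 * C) * n := by ring
      _ < h * n := Nat.mul_lt_mul_of_pos_right hCh hn
  have hlr : (0 : ℝ) < l := by exact_mod_cast hl0
  have elr : (l : ℝ) = h * n := by rw [hl]; push_cast; ring
  set F : ℕ → ℝ := fun a => ‖D h ((a : ℝ) / l)‖ ^ 2 with hF
  have hF0 : ∀ a, 0 ≤ F a := fun a => by simp only [hF]; positivity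
  have h1 : ∑ a ∈ range l, F a = l * h := by
    have := sum_D_sq l h hl0 (by rw [hl]; exact Nat.le_mul_of_pos_right h hn) 0
    simpa only [zero_add] using this
  have h2 : F 0 ≤ h ^ 2 := by
    simp only [hF]
    have := norm_D_le h (((0 : ℕ) : ℝ) / l)
    gcongr
  have hsym : ∀ a, a ≤ l → F (l - a) = F a := by
    intro a ha
    simp only [hF]
    congr 1
    rw [Nat.cast_sub ha, sub_div, div_self hlr.ne']
    have e1 : (1 : ℝ) - a / l = -((a : ℝ) / l) + ((1 : ℤ) : ℝ) := by push_cast; ring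
    rw [e1]
    have e2 : D h (-((a : ℝ) / l) + ((1 : ℤ) : ℝ)) = D h (-((a : ℝ) / l)) := by
      unfold D
      apply sum_congr rfl; intro u _
      have : (u : ℝ) * (-((a : ℝ) / l) + ((1 : ℤ) : ℝ)) = u * (-((a : ℝ) / l)) + ((u : ℤ) : ℝ) := by
        push_cast; ring
      rw [this, e_add_int]
    rw [e2, norm_D_neg]
  have hsub : range l ⊆ ({0} ∪ Ioc 0 m) ∪ ((Ioc 0 m).image (fun a => l - a) ∪ Ioo m (l - m)) := by
    intro a ha
    rw [mem_range] at ha
    simp only [mem_union, mem_singleton, mem_Ioc, mem_image, mem_Ioo]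
    by_cases g1 : a ≤ m
    · left; omega
    · right
      by_cases g2 : a < l - m
      · right; omega
      · left; exact ⟨l - a, by omega, by omega⟩
  have h3 : ∑ a ∈ range l, F a ≤ (F 0 + ∑ a ∈ Ioc 0 m, F a) +
      (∑ a ∈ Ioc 0 m, F a + ∑ a ∈ Ioo m (l - m), F a) := by
    have u1 : ∀ s t : Finset ℕ, ∑ a ∈ s ∪ t, F a ≤ ∑ a ∈ s, F a + ∑ a ∈ t, F a := by
      intro s t
      have := sum_union_inter (s₁ := s) (s₂ := t) (f := F)
      have h0 : 0 ≤ ∑ a ∈ s ∩ t, F a := sum_nonneg fun a _ => hF0 a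
      linarith
    refine (sum_le_sum_of_subset_of_nonneg hsub (fun a _ _ => hF0 a)).trans ?_
    refine (u1 _ _).trans (add_le_add ?_ ?_)
    · refine (u1 _ _).trans ?_
      rw [sum_singleton]
    · refine (u1 _ _).trans ?_
      apply add_le_add _ le_rfl
      rw [sum_image]
      · apply le_of_eq
        apply sum_congr rfl; intro a ha
        rw [mem_Ioc] at ha
        exact hsym a (by omega)
      · intro a ha b hb hab
        rw [mem_coe, mem_Ioc] at ha hb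
        simp only at hab
        omega
  have htail : ∑ a ∈ Ioo m (l - m), F a ≤ (h * n : ℝ) * h / C := by
    have t1 : ∀ a ∈ Ioo m (l - m), F a ≤ (l : ℝ) ^ 2 / 4 * (((a : ℝ) ^ 2)⁻¹ +
        ((((l - a : ℕ) : ℝ)) ^ 2)⁻¹) := by
      intro a ha
      rw [mem_Ioo] at ha
      have ha0 : (0 : ℝ) < a := by exact_mod_cast (by omega : 0 < a)
      have hla : (0 : ℝ) < ((l - a : ℕ) : ℝ) := by exact_mod_cast (by omega : 0 < l - a)
      have hcast : ((l - a : ℕ) : ℝ) = l - a := Nat.cast_sub (by omega)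
      have g1 := norm_D_mul_nn h ((a : ℝ) / l)
      set N := ‖D h ((a : ℝ) / l)‖ with hN
      have hN0 : 0 ≤ N := norm_nonneg _
      -- lower bound for the distance to the integers
      have g2 : (a : ℝ) / l ≤ nn ((a : ℝ) / l) ∨ ((l - a : ℕ) : ℝ) / l ≤ nn ((a : ℝ) / l) := by
        have hx0 : 0 < (a : ℝ) / l := by positivity
        have hx1 : (a : ℝ) / l < 1 := by
          rw [div_lt_one hlr]; rw [hcast] at hla; linarith
        unfold nn
        set t : ℤ := round ((a : ℝ) / l) with ht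
        rcases le_or_gt t 0 with g3 | g3
        · left
          have g4 : (t : ℝ) ≤ 0 := by exact_mod_cast g3
          rw [abs_of_nonneg (by linarith)]
          linarith
        · right
          have g4 : (1 : ℝ) ≤ t := by exact_mod_cast g3
          rw [abs_of_nonpos (by linarith), hcast, sub_div, div_self hlr.ne']
          linarith
      rcases g2 with g3 | g3
      · have g4 : N * (2 * ((a : ℝ) / l)) ≤ 1 := by
          refine le_trans ?_ g1
          gcongr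
        have g5 : N ≤ l / (2 * a) := by
          rw [le_div_iff₀ (by positivity)]
          calc N * (2 * a) = (N * (2 * ((a : ℝ) / l))) * l := by field_simp
            _ ≤ 1 * l := by gcongr
            _ = l := one_mul _
        calc F a = N ^ 2 := rfl
          _ ≤ (l / (2 * a)) ^ 2 := by gcongr
          _ = (l : ℝ) ^ 2 / 4 * (((a : ℝ) ^ 2)⁻¹) := by field_simp; norm_num
          _ ≤ _ := by
              apply mul_le_mul_of_nonneg_left _ (by positivity)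
              have : 0 ≤ ((((l - a : ℕ) : ℝ)) ^ 2)⁻¹ := by positivity
              linarith
      · have g4 : N * (2 * (((l - a : ℕ) : ℝ) / l)) ≤ 1 := by
          refine le_trans ?_ g1
          gcongr
        have g5 : N ≤ l / (2 * ((l - a : ℕ) : ℝ)) := by
          rw [le_div_iff₀ (by positivity)]
          calc N * (2 * ((l - a : ℕ) : ℝ)) = (N * (2 * (((l - a : ℕ) : ℝ) / l))) * l := by field_simp
            _ ≤ 1 * l := by gcongr
            _ = l := one_mul _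
        calc F a = N ^ 2 := rfl
          _ ≤ (l / (2 * ((l - a : ℕ) : ℝ))) ^ 2 := by gcongr
          _ = (l : ℝ) ^ 2 / 4 * ((((l - a : ℕ) : ℝ) ^ 2)⁻¹) := by field_simp; norm_num
          _ ≤ _ := by
              apply mul_le_mul_of_nonneg_left _ (by positivity)
              have : 0 ≤ (((a : ℝ)) ^ 2)⁻¹ := by positivity
              linarith
    have t2 : ∑ a ∈ Ioo m (l - m), ((((l - a : ℕ) : ℝ)) ^ 2)⁻¹ =
        ∑ a ∈ Ioo m (l - m), ((a : ℝ) ^ 2)⁻¹ := by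
      refine sum_bij' (fun a _ => l - a) (fun a _ => l - a) ?_ ?_ ?_ ?_ ?_
      · intro a ha; rw [mem_Ioo] at ha ⊢; omega
      · intro a ha; rw [mem_Ioo] at ha ⊢; omega
      · intro a ha; rw [mem_Ioo] at ha; omega
      · intro a ha; rw [mem_Ioo] at ha; omega
      · intro a _; rfl
    have t3 : ∑ a ∈ Ioo m (l - m), ((a : ℝ) ^ 2)⁻¹ ≤ 2 / ((m : ℝ) + 1) :=
      sum_Ioo_inv_sq_le m (l - m)
    have hmr : (0 : ℝ) < m := by exact_mod_cast hm0
    calc ∑ a ∈ Ioo m (l - m), F a ≤ ∑ a ∈ Ioo m (l - m), (l : ℝ) ^ 2 / 4 * (((a : ℝ) ^ 2)⁻¹ +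
        ((((l - a : ℕ) : ℝ)) ^ 2)⁻¹) := sum_le_sum t1
      _ = (l : ℝ) ^ 2 / 4 * (2 * ∑ a ∈ Ioo m (l - m), ((a : ℝ) ^ 2)⁻¹) := by
          rw [← mul_sum, sum_add_distrib, t2]; ring
      _ ≤ (l : ℝ) ^ 2 / 4 * (2 * (2 / ((m : ℝ) + 1))) := by gcongr
      _ ≤ (l : ℝ) ^ 2 / 4 * (2 * (2 / (m : ℝ))) := by gcongr; linarith
      _ = (h * n : ℝ) * h / C := by
          rw [elr, hm]; push_cast; field_simp; norm_num
  rw [← elr]
  have h5 : ∑ i ∈ Ioc 0 m, ‖D h ((i : ℝ) / l)‖ ^ 2 = ∑ a ∈ Ioc 0 m, F a := rfl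
  rw [h5]
  rw [← elr] at htail
  linarith

lemma sum_vS (h n C : ℕ) (hh : 0 < h) (hn : 0 < n) (hC : 0 < C) (hCh : 2 * C < h) :
    (h * n : ℝ) * h / 2 * (1 - (1 / C + 15 * C / n)) ≤ ∑ i ∈ Ioc 0 (C * n), vS h n i := by
  have hhr : (0 : ℝ) < h := by exact_mod_cast hh
  have hnr : (0 : ℝ) < n := by exact_mod_cast hn
  have hCr : (1 : ℝ) ≤ C := by exact_mod_cast hC
  have h1 := sum_D_near h n C hh hn hC hCh
  have h2 : ∑ i ∈ Ioc 0 (C * n), ‖D h ((i : ℝ) / (h * n))‖ ^ 2 - C * n * (7 * h ^ 2 / n) ≤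
      ∑ i ∈ Ioc 0 (C * n), vS h n i := by
    have e1 : (C * n : ℝ) * (7 * h ^ 2 / n) = ∑ i ∈ Ioc 0 (C * n), 7 * (h : ℝ) ^ 2 / n := by
      rw [sum_const, Nat.card_Ioc, nsmul_eq_mul, Nat.sub_zero]; push_cast; ring
    rw [e1, ← sum_sub_distrib]
    apply sum_le_sum; intro i _
    exact le_max_left _ _
  have e2 : (C * n : ℝ) * (7 * h ^ 2 / n) = 7 * C * h ^ 2 := by field_simp
  rw [e2] at h2
  have e3 : (h * n : ℝ) * h / 2 * (1 - (1 / C + 15 * C / n)) =
      ((h * n : ℝ) * h - (h * n : ℝ) * h / C) / 2 - 15 * C * h ^ 2 / 2 := by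
    field_simp
    ring
  rw [e3]
  have : (h : ℝ) ^ 2 ≤ C * h ^ 2 := by nlinarith [sq_nonneg (h : ℝ)]
  nlinarith

end Pool.Agent.Lib.MP_2a816b_nt
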