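import Mathlib
import Pool.Agent.Lib.MP_2a816b_nt.NumE
import Pool.Agent.Lib.MP_2a816b_nt.Step

/-!
# The error functional of the step weights
-/

open Finset Real

namespace Pool.Agent.Lib.MP_2a816b_nt

open Pool.Agent.Lib.MP_00e05b_nt (DD mem_DD Ab mem_Ab card_Ab_upper card_Ab_lower)

/-- restricting the weights to the range of one step -/
lemma sum_Ab_wB_sub {lam c0 c1 c0' c1' : ℝ} (hlam : 0 < lam) (hc0' : 0 ≤ c0')
    (hc1' : 0 ≤ c1') (h0 : c0 ≤ c0') (h1 : c1' ≤ c1) {r s b : ℕ}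
    (hr : 0 < r) (hs : 0 < s) (f : ℕ → ℂ) :
    ∑ a ∈ Ab c0 c1 r s b, (wB lam c0' c1' r s a : ℂ) * f a =
      ∑ a ∈ Ab c0' c1' r s b, (wB lam c0' c1' r s a : ℂ) * f a := by
  have hr' : (0 : ℝ) < r := by exact_mod_cast hr
  have hs' : (0 : ℝ) < s := by exact_mod_cast hs
  symm
  apply sum_subset
  · intro a ha
    rw [mem_Ab hc1' hr hs] at ha
    rw [mem_Ab (hc1'.trans h1) hr hs]
    exact ⟨h0.trans ha.1, ha.2.1.trans h1, ha.2.2⟩
  · intro a ha hna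
    rw [mem_Ab (hc1'.trans h1) hr hs] at ha
    rw [mem_Ab hc1' hr hs] at hna
    rcases wB_cases lam c0' c1' r s a with g | ⟨_, g2, g3⟩
    · rw [g]; simp
    · exfalso
      apply hna
      have f1 := jb_le lam hlam s hs
      have f2 := (lt_jb lam hlam s hs).le
      refine ⟨?_, ?_, ha.2.2⟩
      · rw [le_div_iff₀ (by positivity)]
        refine le_trans ?_ g2
        gcongr
      · rw [div_le_iff₀ (by positivity)]
        refine g3.trans ?_
        gcongr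

/-- the bound for the functional of one step -/
noncomputable def FSb (k D0 U0 U A B N L : ℕ) (lam c1 τ0 : ℝ) : ℝ :=
  (Real.log B / lam + 1) * U0 * GB k L U0 U τ0 c1 B D0 N +
      2 ^ k * (c1 + 2 / A) * (B * ((1 + 4 ^ k) * (k * Real.log N))) +
      2 ^ k * 2 ^ k * (2 ^ k * D0 * ((∑ n ∈ Ioc 0 N, vM n) * (2 ^ k * (2 * 2 ^ k * D0)))) *
        (2 / A)

/-- the error functional of the step weights -/
theorem FA_W (z U0 A B k D0 : ℕ) (hA : 1 ≤ A) (hD0 : 1 ≤ D0)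
    (hk : ∀ p ∈ DD z U0 A B, p.2.primeFactors.card ≤ k)
    (lam : ℝ) (hlam : 0 < lam) (hlam2 : Real.exp lam ≤ 2)
    (h n C : ℕ) (hh : 0 < h) (hn : 0 < n) (hlA : h * n ≤ A)
    (N U L : ℕ) (hU : 1 ≤ U) (hU3 : U * U * U ≤ N) (hL : N + 1 < 2 ^ L) (hQN : B ≤ N)
    (τ0 : ℝ) (hτ0 : 0 ≤ τ0)
    (hτ : ∀ t : ℕ, 0 < t → (t : ℝ) < 4 * ((C * n + 1 : ℝ) / (h * n)) * U0 * B * N →
      (t.divisors.card : ℝ) ≤ τ0)
    (r : ℕ) (hr : r ∈ Finset.Ioc 0 U0) (b : ℕ) :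
    ‖∑ s ∈ MS z U0 A B r, gq s *
      ∑ a ∈ Ab (1 / (h * n)) ((C * n + 1 : ℝ) / (h * n)) r s b, (wS lam h n C r s a : ℂ) *
        (Sp N ((a : ℝ) / (r * s)) - gq s * Sp N ((b : ℝ) / r))‖ ≤
      C * n * (h ^ 2 * FSb k D0 U0 U A B N L lam ((C * n + 1 : ℝ) / (h * n)) τ0) := by
  have hhr : (0 : ℝ) < h := by exact_mod_cast hh
  have hnr : (0 : ℝ) < n := by exact_mod_cast hn
  have hr' := mem_Ioc.1 hr
  have hAr : (1 : ℝ) ≤ A := by exact_mod_cast hA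
  set m : ℕ := C * n with hm
  have hmr : ((C * n : ℝ)) = m := by rw [hm]; push_cast; ring
  rw [hmr] at hτ ⊢
  set c0 : ℝ := 1 / (h * n) with hc0
  set c1 : ℝ := (m + 1 : ℝ) / (h * n) with hc1
  have hB0 : ∀ i ∈ Ioc 0 m, ‖∑ s ∈ MS z U0 A B r, gq s *
      ∑ a ∈ Ab c0 c1 r s b, (wB lam ((i : ℝ) / (h * n)) ((i + 1 : ℝ) / (h * n)) r s a : ℂ) *
        (Sp N ((a : ℝ) / (r * s)) - gq s * Sp N ((b : ℝ) / r))‖ ≤
      FSb k D0 U0 U A B N L lam c1 τ0 := by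
    intro i hi
    rw [mem_Ioc] at hi
    have hi1 : (1 : ℝ) ≤ i := by exact_mod_cast hi.1
    have him : (i : ℝ) ≤ m := by exact_mod_cast hi.2
    have g1 : ∑ s ∈ MS z U0 A B r, gq s *
      ∑ a ∈ Ab c0 c1 r s b, (wB lam ((i : ℝ) / (h * n)) ((i + 1 : ℝ) / (h * n)) r s a : ℂ) *
        (Sp N ((a : ℝ) / (r * s)) - gq s * Sp N ((b : ℝ) / r)) =
      ∑ s ∈ MS z U0 A B r, gq s *
      ∑ a ∈ Ab ((i : ℝ) / (h * n)) ((i + 1 : ℝ) / (h * n)) r s b,
        (wB lam ((i : ℝ) / (h * n)) ((i + 1 : ℝ) / (h * n)) r s a : ℂ) *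
        (Sp N ((a : ℝ) / (r * s)) - gq s * Sp N ((b : ℝ) / r)) := by
      apply sum_congr rfl; intro s hs
      have hs0 : 0 < s := (mem_DD.1 (mem_MS.1 hs)).2.2.1
      congr 1
      apply sum_Ab_wB_sub hlam (by positivity) (by positivity)
      · rw [hc0]; gcongr
      · rw [hc1]; gcongr
      · exact hr'.1
      · exact hs0
    rw [g1]
    have hci : (i + 1 : ℝ) / (h * n) ≤ c1 := by rw [hc1]; gcongr
    have hcA : 2 ≤ (i + 1 : ℝ) / (h * n) * A := by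
      rw [div_mul_eq_mul_div, le_div_iff₀ (by positivity)]
      have h2 : (h * n : ℝ) ≤ A := by exact_mod_cast hlA
      exact nl19 h2 (by positivity) hi1
    have g2 := FA_S z U0 A B k D0 hA hD0 hk lam ((i : ℝ) / (h * n)) ((i + 1 : ℝ) / (h * n)) hlam
      hlam2 (by positivity) (by gcongr; linarith) hcA N U L hU hU3 hL hQN τ0 hτ0
      (fun t ht0 ht => hτ t ht0 (ht.trans_le (by gcongr))) r hr b
    refine g2.trans ?_
    unfold FSb
    have hlB : 0 ≤ Real.log B / lam := div_nonneg (Real.log_natCast_nonneg B) hlam.le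
    have hlogN : 0 ≤ Real.log N := Real.log_natCast_nonneg N
    have hGB : GB k L U0 U τ0 ((i + 1 : ℝ) / (h * n)) B D0 N ≤ GB k L U0 U τ0 c1 B D0 N := by
      unfold GB
      gcongr
    have hsum0 : 0 ≤ ∑ n ∈ Ioc 0 N, vM n := sum_nonneg fun n _ => vM_nonneg n
    gcongr
  have e1 : ∑ s ∈ MS z U0 A B r, gq s *
      ∑ a ∈ Ab c0 c1 r s b, (wS lam h n C r s a : ℂ) *
        (Sp N ((a : ℝ) / (r * s)) - gq s * Sp N ((b : ℝ) / r)) =
      ∑ i ∈ Ioc 0 m, (vS h n i : ℂ) * ∑ s ∈ MS z U0 A B r, gq s *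
      ∑ a ∈ Ab c0 c1 r s b, (wB lam ((i : ℝ) / (h * n)) ((i + 1 : ℝ) / (h * n)) r s a : ℂ) *
        (Sp N ((a : ℝ) / (r * s)) - gq s * Sp N ((b : ℝ) / r)) := by
    simp only [mul_sum]
    rw [sum_comm]
    apply sum_congr rfl; intro s _
    rw [sum_comm]
    apply sum_congr rfl; intro a _
    unfold wS
    push_cast
    rw [sum_mul, mul_sum]
    apply sum_congr rfl; intro i _
    ring
  rw [e1]
  have hF0 : 0 ≤ FSb k D0 U0 U A B N L lam c1 τ0 ∨ Ioc 0 m = ∅ := by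
    rcases (Ioc 0 m).eq_empty_or_nonempty with h0 | ⟨i, hi⟩
    · exact Or.inr h0
    · exact Or.inl ((norm_nonneg _).trans (hB0 i hi))
  rcases hF0 with hF0 | hemp
  · calc _ ≤ ∑ i ∈ Ioc 0 m, (h : ℝ) ^ 2 * FSb k D0 U0 U A B N L lam c1 τ0 := by
          refine (norm_sum_le _ _).trans ?_
          apply sum_le_sum; intro i hi
          rw [norm_mul, Complex.norm_real, norm_eq_abs, abs_of_nonneg (vS_nonneg _ _ _)]
          have g1 := vS_le h n i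
          have g2 := hB0 i hi
          have g3 := vS_nonneg h n i
          gcongr
      _ = m * ((h : ℝ) ^ 2 * FSb k D0 U0 U A B N L lam c1 τ0) := by
          rw [sum_const, Nat.card_Ioc, nsmul_eq_mul, Nat.sub_zero]
  · have hm0 : m = 0 := by
      by_contra hne
      have : m ∈ Ioc 0 m := by rw [mem_Ioc]; omega
      rw [hemp] at this
      simp at this
    rw [hemp, sum_empty, norm_zero, hm0, Nat.cast_zero, zero_mul]

end Pool.Agent.Lib.MP_2a816b_nt
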