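import Mathlib
import Pool.Agent.Lib.MP_2a816b_nt.FR1b
import Pool.Agent.Lib.MP_2a816b_nt.Step3
import Pool.Agent.Lib.MP_2a816b_nt.Num2

/-!
# The functional with all parameters chosen
-/

open Finset Real Filter

namespace Pool.Agent.Lib.MP_2a816b_nt

open Pool.Agent.Lib.MP_00e05b_nt (DD mem_DD Ab mem_Ab card_Ab_upper card_Ab_lower)

lemma exp_le_one_add_two' (x : ℝ) (h0 : 0 ≤ x) (h1 : x ≤ 1 / 2) : Real.exp x ≤ 1 + 2 * x := by
  have h2 : Real.exp x ≤ 1 / (1 - x) := by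
    rw [le_div_iff₀ (by linarith)]
    have h3 := Real.add_one_le_exp (-x)
    have h4 : Real.exp x * Real.exp (-x) = 1 := by rw [← Real.exp_add]; simp
    have h5 := Real.exp_pos x
    nlinarith
  refine h2.trans ?_
  rw [div_le_iff₀ (by linarith)]
  nlinarith

set_option maxHeartbeats 2000000 in
/-- the functional with all parameters chosen -/
theorem FA_W_final {ε Cτ X θ : ℝ} {h N L : ℕ} (d : Dat ε Cτ X θ h N L)
    (hC : C2 ε Cτ * Real.log X ^ 10 ≤ X ^ (ε ^ 2 / 256000))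
    (hdiv : ∀ n : ℕ, 0 < n → (n.divisors.card : ℝ) ≤ Cτ * (n : ℝ) ^ (ε / 1000))
    (hh1 : X ^ θ - 1 ≤ h) (r : ℕ) (hr : r ∈ Ioc 0 (fl X (ε / 1000))) (b : ℕ) :
    ‖∑ s ∈ MS (fl X (ε ^ 2 / 64000)) (fl X (ε / 1000)) (fl X (θ + ε / 16))
        (fl X ((1 - θ) / 2 - ε / 8)) r, gq s *
      ∑ a ∈ Ab (1 / (h * ne ε)) ((Ce ε * ne ε + 1 : ℝ) / (h * ne ε)) r s b,
        (wS (le ε) h (ne ε) (Ce ε) r s a : ℂ) *
        (Sp N ((a : ℝ) / (r * s)) - gq s * Sp N ((b : ℝ) / r))‖ ≤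
    X ^ (1 + θ - (ε / 500 + ε ^ 2 / 128000)) / 2 := by
  have hε := d.hε
  have hε1 := d.hε1
  have hX := d.hX
  have hX0 := d.hX0
  have hε2 := d.hε2
  have hε2' := d.hε2'
  have hθ0 := d.hθ0
  have hθ1 := d.hθ1
  have hCτ := d.hCτ
  have hXθ := d.hXθ
  have hnp := ne_pos ε hε
  have hCp := Ce_pos ε hε
  have hCr : (1 : ℝ) ≤ Ce ε := by exact_mod_cast hCp
  have hnr : (1 : ℝ) ≤ ne ε := by exact_mod_cast hnp
  have hlep := le_pos ε hε
  have hnu0 := d.nu0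
  have hθbig : (10 : ℝ) ^ 15 ≤ X ^ θ := hnu0.trans (d.nu_le θ (by linarith))
  have hhge : X ^ θ / 2 ≤ (h : ℝ) := by linarith
  have hh0r : (0 : ℝ) < h := by linarith
  have hh0 : 0 < h := by exact_mod_cast hh0r
  set β : ℝ := (1 - θ) / 2 - ε / 8 with hβ
  have hβ0 : 0 ≤ β := by rw [hβ]; linarith
  have hβ1 : β ≤ 1 / 2 := by rw [hβ]; linarith
  set c1 : ℝ := (Ce ε * ne ε + 1 : ℝ) / (h * ne ε) with hc1
  have hc10 : 0 ≤ c1 := by positivity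
  have hc1le : c1 ≤ ((Ce ε : ℝ) + 1) / h := by
    rw [hc1, div_le_div_iff₀ (by positivity) hh0r]
    exact n7a _ _ _ hnr hh0r
  -- divisor bound
  set τ0 : ℝ := Cτ * X ^ (ε / 500) with hτ0def
  have hτ00 : 0 ≤ τ0 := by positivity
  have hμ := d.mu hC
  have hCeμ : ((Ce ε : ℝ) + 1) ≤ X ^ (ε ^ 2 / 256000) := by
    refine le_trans ?_ hμ
    have h1 : (ne ε : ℝ) = 15 * (Ce ε : ℝ) ^ 2 := by unfold ne; push_cast; ring
    rw [h1]
    exact n7b _ hCr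
  have hτ : ∀ t : ℕ, 0 < t → (t : ℝ) < 4 * c1 * fl X (ε / 1000) * fl X β * N →
      (t.divisors.card : ℝ) ≤ τ0 := by
    intro t ht0 ht
    refine (hdiv t ht0).trans ?_
    have h2 : (t : ℝ) ≤ X ^ (2 : ℝ) := by
      refine ht.le.trans ?_
      have hU0le := fl_le X (ε / 1000) hX0.le
      have hBle := fl_le X β hX0.le
      have hN2 := d.hN2
      have hc1' : 4 * c1 ≤ 1 := by
        have h3 : 4 * (((Ce ε : ℝ) + 1) / h) ≤ 1 := by
          rw [← mul_div_assoc, div_le_one hh0r]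
          have h4 : 8 * X ^ (ε ^ 2 / 256000) ≤ X ^ θ :=
            pw hX (by linarith : (8 : ℝ) ≤ X ^ (ε ^ 2 / 256000)) (by linarith)
          linarith
        linarith
      have e1 : 2 * X ^ (ε / 1000 + β + 1) ≤ X ^ (2 : ℝ) :=
        pw hX (by linarith : (2 : ℝ) ≤ X ^ (ε ^ 2 / 256000)) (by linarith)
      calc 4 * c1 * fl X (ε / 1000) * fl X β * N ≤
          1 * X ^ (ε / 1000) * X ^ β * (2 * X) := by gcongr
        _ = 2 * X ^ (ε / 1000 + β + 1) := by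
            rw [rpow_add hX0, rpow_add hX0, rpow_one]; ring
        _ ≤ _ := e1
    calc Cτ * (t : ℝ) ^ (ε / 1000) ≤ Cτ * (X ^ (2 : ℝ)) ^ (ε / 1000) := by gcongr
      _ = τ0 := by
        rw [hτ0def, ← rpow_mul hX0.le]
        congr 2; ring
  have hsτ : √τ0 ≤ Cτ * X ^ (ε / 1000) := by
    rw [hτ0def, Real.sqrt_mul (by linarith), sqrt_pw X _ hX0.le]
    have h1 : √Cτ ≤ Cτ := n7c _ hCτ
    have h2 : ε / 500 / 2 = ε / 1000 := by ring
    rw [h2]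
    gcongr
  have hexp : Real.exp (le ε) ≤ 2 := by
    have := exp_le_one_add_two' (le ε) hlep.le (le_le ε hε hε1)
    have := le_le ε hε hε1
    linarith
  have hBN : fl X β ≤ N := d.fl_le_N _ (by linarith)
  have h1 := FA_W (fl X (ε ^ 2 / 64000)) (fl X (ε / 1000)) (fl X (θ + ε / 16)) (fl X β) (kk ε)
    (fl X (ε / 64)) (fl_pos X _ hX (by linarith)) (fl_pos X _ hX (by linarith))
    (by
      rintro ⟨r, s⟩ hp
      have hd := mem_DD.1 hp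
      simp only at hd
      obtain ⟨_, _, hs0, hsB, _, _, _, hsz, _⟩ := hd
      apply rough_card' _ s _ (kk ε) hs0 hsB _ (d.hkQ β hβ0 hβ1)
      intro p hp
      rw [Nat.mem_primeFactors] at hp
      exact hsz p hp.1 hp.2.1)
    (le ε) hlep hexp h (ne ε) (Ce ε) hh0 hnp (d.hn_le_A hC) N (fl X (θ + ε / 8)) L
    (fl_pos X _ hX (by linarith)) (d.fl3_le_N _ (by linarith)) d.hL hBN
    τ0 hτ00 hτ r hr b
  refine h1.trans ?_
  have hL0 : (0 : ℝ) ≤ L := Nat.cast_nonneg L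
  have hΨ := psi_le_trivial N L X d.hL d.hN2
  have hΨ0 : 0 ≤ ∑ n ∈ Ioc 0 N, vM n := sum_nonneg fun n _ => vM_nonneg n
  have hlogN : Real.log N ≤ L := log_le_L d.hL (by omega)
  have hlogN0 : 0 ≤ Real.log N := Real.log_natCast_nonneg N
  have hlogB : Real.log (fl X β) ≤ L := log_le_L d.hL (by omega)
  have hlogB0 : 0 ≤ Real.log (fl X β) := Real.log_natCast_nonneg _
  have hΛ : Real.log (fl X β) / le ε + 1 ≤ (1 + L) * Ge ε := by
    unfold Ge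
    have : Real.log (fl X β) / le ε ≤ L / le ε := by gcongr
    have e1 : (1 + (L : ℝ)) * (1 / le ε + 1) = L / le ε + 1 / le ε + L + 1 := by ring
    rw [e1]
    have : 0 ≤ 1 / le ε := by positivity
    linarith
  have hhA : (h : ℝ) ≤ fl X (θ + ε / 16) := by exact_mod_cast d.hhM
  have b1 := step_num X L h (fl X (ε / 1000)) (fl X (θ + ε / 8)) (fl X β) (fl X (ε / 64)) N
    (fl X (θ + ε / 16)) (Ge ε) (Real.log (fl X β) / le ε + 1) c1 τ0 (Cτ * X ^ (ε / 1000))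
    ((Ce ε : ℝ) + 1) (Real.log N) (∑ n ∈ Ioc 0 N, vM n) (kk ε) θ (ε / 1000) (θ + ε / 8) β (ε / 64)
    (ε / 16) hX hL0 hhge d.hh2 (Nat.cast_nonneg _) (fl_le X _ hX0.le)
    (fl_ge X _ hX (by linarith)) (fl_le X _ hX0.le) (Nat.cast_nonneg _) (fl_le X _ hX0.le)
    (fl_ge X _ hX (by linarith)) (fl_le X _ hX0.le) (Nat.cast_nonneg _) d.hN2
    (fl_ge X _ hX (by linarith)) hhA (Ge_ge ε hε) (by positivity) hΛ (by linarith) hc10 hc1le hτ00
    hsτ (by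
      have h1x : 1 ≤ X ^ (ε / 1000) := one_le_rpow hX (by linarith)
      exact n7d _ _ hCτ h1x) hlogN0 hlogN hΨ0 hΨ
  -- constants
  have hA := d.hA
  have hA1 : (1 : ℝ) ≤ 1 + L := by linarith
  set mC : ℝ := ((Ce ε * ne ε : ℕ) : ℝ) with hmC
  have hmC' : (Ce ε : ℝ) * ne ε = mC := by rw [hmC]; push_cast; ring
  have hGe := Ge_ge ε hε
  have hmC0 : 0 ≤ mC := Nat.cast_nonneg _
  have hk0 : (0 : ℝ) ≤ kk ε := Nat.cast_nonneg _
  set K0 : ℝ := 4608 * 32 ^ kk ε * (kk ε + 1) * (1 + (L : ℝ)) ^ 6 * Ge ε *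
    ((Ce ε : ℝ) + 1) ^ 2 with hK0
  have hK00 : 0 ≤ K0 := by positivity
  have hCC : 14 * (mC * K0 * Cτ) ≤ X ^ (ε ^ 2 / 256000) := by
    refine le_trans ?_ hC
    have hell0 : 0 ≤ Real.log X := by linarith [d.hell]
    have hell1 : 1 ≤ Real.log X := by linarith [d.hell]
    unfold C2
    rw [← hmC]
    calc 14 * (mC * K0 * Cτ) ≤ 14 * (mC * (4608 * 32 ^ kk ε * (kk ε + 1) * (4 * Real.log X) ^ 6 *
          Ge ε * ((Ce ε : ℝ) + 1) ^ 2) * Cτ) := by rw [hK0]; gcongr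
      _ = 264241152 * 32 ^ kk ε * (kk ε + 1) * Cτ * Ge ε * ((Ce ε : ℝ) + 1) ^ 2 * mC *
          Real.log X ^ 6 := by ring
      _ ≤ 10 ^ 9 * 32 ^ kk ε * (kk ε + 1) * Cτ * Ge ε * ((Ce ε : ℝ) + 1) ^ 2 * mC *
          Real.log X ^ 10 := by
          gcongr
          · norm_num
          · norm_num
  set T : ℝ := X ^ (1 + θ - (ε / 500 + ε ^ 2 / 128000)) with hT
  have hterm : ∀ a, a + ε ^ 2 / 256000 ≤ 1 + θ - (ε / 500 + ε ^ 2 / 128000) →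
      mC * K0 * Cτ * X ^ a ≤ T / 14 := by
    intro a ha
    have := pw hX hCC ha
    linarith
  have c1' := hterm (ε / 1000 + (2 * (ε / 1000) + (θ + ε / 8) + θ + 2 * β))
    (by rw [hβ]; linarith)
  have c2' := hterm (ε / 1000 + (2 * (ε / 1000) + 1 + θ - ε / 64 / 2)) (by linarith)
  have c3' := hterm (ε / 1000 + (2 * (ε / 1000) + θ + 3 / 4 + β / 2)) (by rw [hβ]; linarith)
  have c4' := hterm (ε / 1000 + (2 * (ε / 1000) + 3 * θ / 2 + 1 - (θ + ε / 8) / 2)) (by linarith)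
  have c5' := hterm (ε / 1000 + (2 * (ε / 1000) + 3 * θ / 2 + 1 / 2 + β)) (by rw [hβ]; linarith)
  have c6' := hterm (θ + β) (by rw [hβ]; linarith)
  have c7' := hterm (1 + θ + 2 * (ε / 64) - ε / 16) (by linarith)
  rw [rpow_add hX0 (ε / 1000)] at c1' c2' c3' c4' c5'
  set Z1 := X ^ (2 * (ε / 1000) + (θ + ε / 8) + θ + 2 * β) with hZ1
  set Z2 := X ^ (2 * (ε / 1000) + 1 + θ - ε / 64 / 2) with hZ2
  set Z3 := X ^ (2 * (ε / 1000) + θ + 3 / 4 + β / 2) with hZ3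
  set Z4 := X ^ (2 * (ε / 1000) + 3 * θ / 2 + 1 - (θ + ε / 8) / 2) with hZ4
  set Z5 := X ^ (2 * (ε / 1000) + 3 * θ / 2 + 1 / 2 + β) with hZ5
  set Z6 := X ^ (θ + β) with hZ6
  set Z7 := X ^ (1 + θ + 2 * (ε / 64) - ε / 16) with hZ7
  have hZ6' : 0 < Z6 := by positivity
  have hZ7' : 0 < Z7 := by positivity
  have hb1 : (h : ℝ) ^ 2 * FSb (kk ε) (fl X (ε / 64)) (fl X (ε / 1000)) (fl X (θ + ε / 8))
      (fl X (θ + ε / 16)) (fl X β) N L (le ε) c1 τ0 ≤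
      K0 * (Cτ * X ^ (ε / 1000) * (Z1 + Z2 + Z3 + Z4 + Z5) + Z6 + Z7) := by
    unfold FSb GB
    exact b1
  calc (Ce ε : ℝ) * ne ε * ((h : ℝ) ^ 2 * FSb (kk ε) (fl X (ε / 64)) (fl X (ε / 1000))
        (fl X (θ + ε / 8)) (fl X (θ + ε / 16)) (fl X β) N L (le ε) c1 τ0) ≤
      mC * (K0 * (Cτ * X ^ (ε / 1000) * (Z1 + Z2 + Z3 + Z4 + Z5) + Z6 + Z7)) := by
        rw [hmC']
        exact mul_le_mul_of_nonneg_left hb1 hmC0
    _ ≤ mC * (K0 * (Cτ * X ^ (ε / 1000) * (Z1 + Z2 + Z3 + Z4 + Z5) + Cτ * Z6 + Cτ * Z7)) := by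
        have g1 : Z6 ≤ Cτ * Z6 := le_mul_of_one_le_left hZ6'.le hCτ
        have g2 : Z7 ≤ Cτ * Z7 := le_mul_of_one_le_left hZ7'.le hCτ
        gcongr
    _ = mC * K0 * Cτ * (X ^ (ε / 1000) * Z1) + mC * K0 * Cτ * (X ^ (ε / 1000) * Z2) +
        mC * K0 * Cτ * (X ^ (ε / 1000) * Z3) + mC * K0 * Cτ * (X ^ (ε / 1000) * Z4) +
        mC * K0 * Cτ * (X ^ (ε / 1000) * Z5) + mC * K0 * Cτ * Z6 + mC * K0 * Cτ * Z7 := by ring
    _ ≤ T / 2 := by linarith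

end Pool.Agent.Lib.MP_2a816b_nt
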