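import Mathlib
import Pool.Agent.Lib.MP_2a816b_nt.NumPts
import Pool.Agent.Lib.MP_2a816b_nt.LargeSieve2
import Pool.Agent.Lib.MP_2a816b_nt.Local
import Pool.Agent.Lib.MP_2a816b_nt.Fam
import Pool.Agent.Lib.MP_2a816b_nt.FunctA

/-!
# The main inequality with weights on the numerators
-/

open Finset Real

namespace Pool.Agent.Lib.MP_2a816b_nt

open Pool.Agent.Lib.MP_00e05b_nt (DD mem_DD Ab mem_Ab)

lemma conj_gq0 (m : ℕ) : (starRingEnd ℂ) (gq m) = gq m := by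
  unfold gq
  rw [map_prod]
  apply prod_congr rfl; intro p _
  rw [map_div₀, map_neg, map_one, map_sub, map_one, Complex.conj_natCast]

/-- a weighted Cauchy-Schwarz argument -/
lemma abstract_cs_w {ι : Type*} (T : Finset ι) (F u S G Er : ι → ℂ) (w : ι → ℝ) (W E1 η : ℝ)
    (hη : 0 < η) (hw0 : ∀ i ∈ T, 0 ≤ w i) (hw : ∀ i ∈ T, w i ≤ ‖u i‖ ^ 2)
    (hF : ∀ i ∈ T, F i = u i * S i + Er i)
    (hW : ∑ i ∈ T, ‖Er i‖ ^ 2 ≤ W)
    (hE1 : ‖∑ i ∈ T, (w i : ℂ) * (S i - G i) * (starRingEnd ℂ) (G i)‖ ≤ E1) :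
    (1 - η) * ∑ i ∈ T, w i * ‖G i‖ ^ 2 ≤ ∑ i ∈ T, ‖F i‖ ^ 2 + 2 * E1 + W / η := by
  set Z : ℝ := ∑ i ∈ T, w i * ‖G i‖ ^ 2 with hZ
  set V : ℝ := ∑ i ∈ T, ‖F i‖ ^ 2 with hV
  have hZ0 : 0 ≤ Z := sum_nonneg fun i hi => mul_nonneg (hw0 i hi) (by positivity)
  have hV0 : 0 ≤ V := by positivity
  have hE10 : 0 ≤ E1 := (norm_nonneg _).trans hE1
  have hW0 : 0 ≤ W := le_trans (by positivity) hW
  set c : ι → ℂ := fun i => ((w i / ‖u i‖ ^ 2 : ℝ) : ℂ) * ((starRingEnd ℂ) (u i) *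
    (starRingEnd ℂ) (G i)) with hc
  have hcn : ∑ i ∈ T, ‖c i‖ ^ 2 ≤ Z := by
    rw [hZ]
    apply sum_le_sum; intro i hi
    simp only [hc]
    have h1 := hw0 i hi
    have h2 := hw i hi
    rw [norm_mul, norm_mul, RCLike.norm_conj, RCLike.norm_conj, Complex.norm_real, norm_eq_abs,
      abs_of_nonneg (by positivity), mul_pow, mul_pow, ← mul_assoc]
    apply mul_le_mul_of_nonneg_right _ (by positivity)
    rcases eq_or_lt_of_le (sq_nonneg ‖u i‖) with h3 | h3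
    · rw [← h3]; simp; exact h1
    · have h4 : (w i / ‖u i‖ ^ 2) ^ 2 * ‖u i‖ ^ 2 = w i * (w i / ‖u i‖ ^ 2) := by
        field_simp
      rw [h4]
      have h5 : w i / ‖u i‖ ^ 2 ≤ 1 := by rw [div_le_one h3]; exact h2
      exact mul_le_of_le_one_right h1 h5
  have h1 : ∑ i ∈ T, F i * c i = (Z : ℂ) +
      ∑ i ∈ T, (w i : ℂ) * (S i - G i) * (starRingEnd ℂ) (G i) +
      ∑ i ∈ T, Er i * c i := by
    rw [hZ]
    push_cast
    rw [← sum_add_distrib, ← sum_add_distrib]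
    apply sum_congr rfl; intro i hi
    rw [hF i hi]
    have e1 : u i * (starRingEnd ℂ) (u i) = (‖u i‖ : ℂ) ^ 2 := Complex.mul_conj' _
    have e2 : G i * (starRingEnd ℂ) (G i) = (‖G i‖ : ℂ) ^ 2 := Complex.mul_conj' _
    have e3 : ((w i / ‖u i‖ ^ 2 : ℝ) : ℂ) * (‖u i‖ : ℂ) ^ 2 = (w i : ℂ) := by
      rcases eq_or_lt_of_le (norm_nonneg (u i)) with h3 | h3
      · have h4 := hw i hi
        rw [← h3] at h4
        have h5 : w i = 0 := le_antisymm (by simpa using h4) (hw0 i hi)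
        rw [h5, ← h3]; simp
      · have h4 : ((‖u i‖ : ℝ) : ℂ) ≠ 0 := by exact_mod_cast h3.ne'
        push_cast
        field_simp
    have e4 : (u i * S i + Er i) * c i =
        ((w i / ‖u i‖ ^ 2 : ℝ) : ℂ) * (u i * (starRingEnd ℂ) (u i)) * S i *
          (starRingEnd ℂ) (G i) + Er i * c i := by
      simp only [hc]; ring
    rw [e4, e1, e3, ← e2]
    ring
  have h2 : ‖∑ i ∈ T, Er i * c i‖ ≤ √W * √Z := by
    calc _ ≤ ∑ i ∈ T, ‖Er i‖ * ‖c i‖ := by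
          refine (norm_sum_le _ _).trans (le_of_eq ?_)
          apply sum_congr rfl; intro i _; rw [norm_mul]
      _ ≤ √(∑ i ∈ T, ‖Er i‖ ^ 2) * √(∑ i ∈ T, ‖c i‖ ^ 2) := sum_mul_le_sqrt_mul_sqrt _ _ _
      _ ≤ √W * √Z := by gcongr
  have h3 : ‖∑ i ∈ T, F i * c i‖ ≤ √V * √Z := by
    calc _ ≤ ∑ i ∈ T, ‖F i‖ * ‖c i‖ := by
          refine (norm_sum_le _ _).trans (le_of_eq ?_)
          apply sum_congr rfl; intro i _; rw [norm_mul]
      _ ≤ √(∑ i ∈ T, ‖F i‖ ^ 2) * √(∑ i ∈ T, ‖c i‖ ^ 2) := sum_mul_le_sqrt_mul_sqrt _ _ _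
      _ ≤ √V * √Z := by gcongr
  have h4 : Z - E1 - √W * √Z ≤ √V * √Z := by
    have e1 : (Z : ℂ) = ∑ i ∈ T, F i * c i -
        (∑ i ∈ T, (w i : ℂ) * (S i - G i) * (starRingEnd ℂ) (G i)) -
        ∑ i ∈ T, Er i * c i := by rw [h1]; ring
    have e2 : Z = ‖(Z : ℂ)‖ := by rw [Complex.norm_real, norm_eq_abs, abs_of_nonneg hZ0]
    have e3 : ‖(Z : ℂ)‖ ≤ √V * √Z + E1 + √W * √Z := by
      rw [e1]
      refine (norm_sub_le _ _).trans ?_
      refine add_le_add ?_ h2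
      refine (norm_sub_le _ _).trans ?_
      exact add_le_add h3 hE1
    rw [← e2] at e3
    linarith
  set a := √V with ha
  set b := √Z with hb
  set w' := √W with hw'
  have ha0 : 0 ≤ a := sqrt_nonneg _
  have hb0 : 0 ≤ b := sqrt_nonneg _
  have hw0' : 0 ≤ w' := sqrt_nonneg _
  have ha2 : a ^ 2 = V := sq_sqrt hV0
  have hb2 : b ^ 2 = Z := sq_sqrt hZ0
  have hw2 : w' ^ 2 = W := sq_sqrt hW0
  rw [← ha2, ← hw2, ← hb2]
  rw [← hb2] at h4
  have h5 : 2 * (w' * b) ≤ η * b ^ 2 + w' ^ 2 / η := by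
    have h6 : 0 ≤ (η * b - w') ^ 2 / η := by positivity
    have h7 : (η * b - w') ^ 2 / η = η * b ^ 2 - 2 * (w' * b) + w' ^ 2 / η := by
      field_simp; ring
    linarith
  nlinarith [sq_nonneg (a - b)]

/-- the large sieve at the points `a/(rs)` and their negatives -/
lemma points_sieve2 (z U0 A B K : ℕ) (c0 c1 : ℝ) (hK : 0 < K) (hB : 0 < B) (hc0 : 0 < c0)
    (hc0B : 1 / (B : ℝ) ^ 2 ≤ c0) (hc1 : c1 ≤ 1 / 4) (hB4 : 1 / (B : ℝ) ^ 2 ≤ 1 / 2) (M : ℕ)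
    (x : ℕ → ℂ) :
    ∑ i ∈ PP z U0 A B c0 c1, (‖∑ n ∈ range M, x n * e (n * xP i)‖ ^ 2 +
      ‖∑ n ∈ range M, x n * e (n * -xP i)‖ ^ 2) ≤
      (M + K + (B : ℝ) ^ 4 / K) * ∑ n ∈ range M, ‖x n‖ ^ 2 := by
  classical
  have hBr : (0 : ℝ) < B := by exact_mod_cast hB
  rcases (PP z U0 A B c0 c1).eq_empty_or_nonempty with h0 | ⟨i0, hi0⟩
  · rw [h0, sum_empty]; positivity
  have hc1' : 0 ≤ c1 := by
    by_contra hneg
    push Not at hneg
    have hi := hi0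
    rw [mem_PP] at hi
    have d := mem_DD.1 hi.1
    have h3 := hi.2.2
    unfold Pool.Agent.Lib.MP_00e05b_nt.Ab at h3
    rw [mem_filter, mem_Ico] at h3
    have hr : (0 : ℝ) < i0.1.1 := by exact_mod_cast d.1
    have hs : (0 : ℝ) < i0.1.2 := by exact_mod_cast d.2.2.1
    have h4 : ⌊c1 * ((i0.1.1 : ℝ) * i0.1.2)⌋₊ = 0 := by
      apply Nat.floor_eq_zero.2
      have : c1 * ((i0.1.1 : ℝ) * i0.1.2) ≤ 0 := by
        apply mul_nonpos_of_nonpos_of_nonneg hneg.le (by positivity)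
      linarith
    have h5 : 0 < ⌈c0 * ((i0.1.1 : ℝ) * i0.1.2)⌉₊ := Nat.ceil_pos.2 (by positivity)
    omega
  set δ : ℝ := 1 / (B : ℝ) ^ 2 with hδ
  have hδ0 : 0 < δ := by positivity
  set α : Ix × Bool → ℝ := fun p => if p.2 then xP p.1 else -xP p.1 with hα
  set g : Ix × Bool → ℝ := fun p => ‖∑ n ∈ range M, x n * e (n * α p)‖ ^ 2 with hg
  have hsep : Sep (PP z U0 A B c0 c1 ×ˢ (univ : Finset Bool)) α δ := by
    rintro ⟨i, σ⟩ hi ⟨j, τ⟩ hj hne m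
    rw [mem_product] at hi hj
    have hi' := hi.1
    have hj' := hj.1
    simp only at hi' hj'
    obtain ⟨_, _, _, hi1, hi2⟩ := PP_coprime hc1' hi'
    obtain ⟨_, _, _, hj1, hj2⟩ := PP_coprime hc1' hj'
    -- the difference of the two frequencies
    have hm : m = 0 ∨ m ≤ -1 ∨ 1 ≤ m := by omega
    have hhalf : δ ≤ 1 / 2 := hB4
    have hαi : |α (i, σ)| ≤ 1 / 4 := by
      simp only [hα]
      split_ifs <;> rw [abs_le] <;> constructor <;> linarith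
    have hαj : |α (j, τ)| ≤ 1 / 4 := by
      simp only [hα]
      split_ifs <;> rw [abs_le] <;> constructor <;> linarith
    rw [abs_le] at hαi hαj
    rcases hm with hm | hm | hm
    · rw [hm, Int.cast_zero, sub_zero]
      cases σ <;> cases τ
      · have hij : i ≠ j := fun h => hne (by rw [h])
        have := PP_sep hc1' i j hi' hj' hij
        simp only [hα, Bool.false_eq_true, if_false]
        have e : -xP i - -xP j = -(xP i - xP j) := by ring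
        rw [e, abs_neg]; exact this
      · simp only [hα, Bool.false_eq_true, if_false, if_true]
        have e : |-xP i - xP j| = xP i + xP j := by
          have e1 : -xP i - xP j = -(xP i + xP j) := by ring
          rw [e1, abs_neg, abs_of_nonneg (by linarith)]
        rw [e]; linarith
      · simp only [hα, Bool.false_eq_true, if_false, if_true]
        have e : |xP i - -xP j| = xP i + xP j := by
          rw [sub_neg_eq_add, abs_of_nonneg (by linarith)]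
        rw [e]; linarith
      · have hij : i ≠ j := fun h => hne (by rw [h])
        have := PP_sep hc1' i j hi' hj' hij
        simp only [hα, if_true]
        exact this
    · have hm' : (m : ℝ) ≤ -1 := by exact_mod_cast hm
      rw [abs_of_nonneg (by linarith)]
      linarith
    · have hm' : (1 : ℝ) ≤ m := by exact_mod_cast hm
      rw [abs_of_nonpos (by linarith)]
      linarith
  have h1 := large_sieve_sharp (PP z U0 A B c0 c1 ×ˢ (univ : Finset Bool)) α δ hδ0 hsep M K hK x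
  have h2 : ∑ p ∈ PP z U0 A B c0 c1 ×ˢ (univ : Finset Bool),
      ‖∑ n ∈ range M, x n * e (n * α p)‖ ^ 2 =
      ∑ i ∈ PP z U0 A B c0 c1, (‖∑ n ∈ range M, x n * e (n * xP i)‖ ^ 2 +
      ‖∑ n ∈ range M, x n * e (n * -xP i)‖ ^ 2) := by
    rw [sum_product]
    apply sum_congr rfl; intro i _
    rw [Fintype.sum_bool]
    simp only [hα, if_true, Bool.false_eq_true, if_false]
  rw [h2] at h1
  refine h1.trans (le_of_eq ?_)
  congr 2
  rw [hδ]
  field_simp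

lemma Fw_neg (h : ℕ) (H : ℝ) (s M : ℕ) (α : ℝ) : ‖Fw h H s M (-α)‖ = ‖Fw h H s M α‖ := by
  have : Fw h H s M (-α) = (starRingEnd ℂ) (Fw h H s M α) := by
    unfold Fw
    rw [map_sum]
    apply sum_congr rfl; intro i _
    rw [map_mul, Complex.conj_ofReal, conj_e]
    congr 2; ring
  rw [this, RCLike.norm_conj]

/-- The main inequality with weights on the numerators. -/
theorem main3 (h : ℕ) (H : ℝ) (hH : 0 ≤ H) (s M : ℕ) (z U0 A B K L : ℕ)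
    (c0 c1 η FA κ : ℝ) (hη : 0 < η) (hη1 : η ≤ 1) (hK : 0 < K) (hB : 2 ≤ B)
    (hc0 : 0 < c0) (hc0B : 1 / (B : ℝ) ^ 2 ≤ c0) (hc01 : c0 ≤ c1) (hc1 : c1 ≤ 1 / 4)
    (w : ℕ → ℕ → ℕ → ℝ) (hw0 : ∀ r s a, 0 ≤ w r s a)
    (hwD : ∀ r s a, 0 < r → 0 < s → w r s a ≤ ‖D h ((a : ℝ) / (r * s))‖ ^ 2)
    (hκ1 : κ ≤ 1)
    (hwlow : ∀ p ∈ DD z U0 A B, ∀ b, h / 2 * (1 - κ) * p.2 ≤
      ∑ a ∈ Ab c0 c1 p.1 p.2 b, w p.1 p.2 a)
    (hFA0 : 0 ≤ FA) (hL : s + M + h + 1 < 2 ^ L)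
    (hψ : 0 ≤ ∑ n ∈ Ioc 0 (s + M), vM n - 2 * (U0 : ℝ) ^ 2 * Real.log ↑(s + M))
    (hFA : ∀ r ∈ Ioc 0 U0, ∀ b, ‖∑ q ∈ MS z U0 A B r, gq q *
      ∑ a ∈ Ab c0 c1 r q b, (w r q a : ℂ) *
      (Sp (s + M) ((a : ℝ) / (r * q)) - gq q * Sp (s + M) ((b : ℝ) / r))‖ ≤ FA) :
    (1 - η) * (h * (1 - κ) *
      (∑ n ∈ Ioc 0 (s + M), vM n - 2 * (U0 : ℝ) ^ 2 * Real.log ↑(s + M)) ^ 2 *
      ∑ p ∈ DD z U0 A B, 1 / ((p.1.totient : ℝ) * p.2.totient)) ≤
    (M + K + (B : ℝ) ^ 4 / K) * ∑ i ∈ range M, (win h H s i) ^ 2 +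
      4 * ((U0 : ℝ) ^ 2 * (∑ n ∈ Ioc 0 (s + M), vM n) * FA) +
      2 * ((B : ℝ) ^ 2 * (h * ((s + 2 * h) * L) + H / c0) ^ 2) / η := by
  classical
  have hB0 : 0 < B := by omega
  have hBr : (0 : ℝ) < B := by exact_mod_cast hB0
  have hc1p : 0 ≤ c1 := hc0.le.trans hc01
  set N : ℕ := s + M with hN
  have hLg : ∀ n, n ≤ s + M + h → Real.log n ≤ (L : ℝ) := fun n hn =>
    log_le_L (N := s + M + h) hL (by omega)
  set T := PP z U0 A B c0 c1 with hT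
  set u : Ix → ℂ := fun i => e (-((s + 1 : ℕ) * xP i)) * D h (-(xP i)) with hu
  set F : Ix → ℂ := fun i => Fw h H s M (xP i) with hF
  set G : Ix → ℂ := fun i => gq i.1.2 * Sp N ((i.2.1 : ℝ) / i.1.1) with hG
  set S : Ix → ℂ := fun i => Sp N (xP i) with hS
  set Er : Ix → ℂ := fun i => F i - u i * S i with hEr
  set ww : Ix → ℝ := fun i => w i.1.1 i.1.2 i.2.2 with hww
  have hun : ∀ i, ‖u i‖ = ‖D h (xP i)‖ := by
    intro i
    simp only [hu]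
    rw [norm_mul, norm_e, one_mul, norm_D_neg]
  set ψ0 : ℝ := ∑ n ∈ Ioc 0 N, vM n with hψ0
  have hψ00 : 0 ≤ ψ0 := sum_nonneg (fun n _ => vM_nonneg n)
  set w0 : ℝ := h * ((s + 2 * h) * L) + H / c0 with hw0'
  -- error of the window approximation
  have hErn : ∀ i ∈ T, ‖Er i‖ ≤ w0 := by
    intro i hi
    obtain ⟨_, _, _, h4, h5⟩ := PP_coprime hc1p hi
    have e1 := Fw_approx h H hH s M (xP i) L hLg
    have e2 : ‖D M (xP i)‖ ≤ 1 / c0 := by
      have h6 := norm_D_mul_nn M (xP i)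
      have h7 : xP i ≤ nn (xP i) := by
        unfold nn
        have h8 : round (xP i) = 0 := by
          rw [round_eq_zero_iff]
          constructor <;> linarith
        rw [h8, Int.cast_zero, sub_zero]
        exact le_abs_self _
      rw [le_div_iff₀ hc0]
      have h9 : ‖D M (xP i)‖ * c0 ≤ ‖D M (xP i)‖ * (2 * nn (xP i)) := by
        gcongr
        linarith
      linarith
    refine e1.trans ?_
    rw [hw0']
    have e3 : H * ‖D M (xP i)‖ ≤ H / c0 := by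
      rw [div_eq_mul_one_div]; gcongr
    linarith
  have hcardT : (T.card : ℝ) ≤ (B : ℝ) ^ 2 := card_PP hc0 (by linarith) hB0
  have hL0 : (0 : ℝ) ≤ L := by positivity
  have hw00 : 0 ≤ w0 := by positivity
  have hW : ∑ i ∈ T, ‖Er i‖ ^ 2 ≤ (B : ℝ) ^ 2 * w0 ^ 2 := by
    calc _ ≤ ∑ i ∈ T, w0 ^ 2 := by
          apply sum_le_sum; intro i hi
          have := hErn i hi
          gcongr
      _ = T.card * w0 ^ 2 := by rw [sum_const, nsmul_eq_mul]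
      _ ≤ _ := by gcongr
  -- the functional
  have hE1 : ‖∑ i ∈ T, (ww i : ℂ) * (S i - G i) * (starRingEnd ℂ) (G i)‖ ≤
      (U0 : ℝ) ^ 2 * ψ0 * FA := by
    have e1 : ∑ i ∈ T, (ww i : ℂ) * (S i - G i) * (starRingEnd ℂ) (G i) =
        ∑ r ∈ Ioc 0 U0, ∑ b ∈ Cop r, (starRingEnd ℂ) (Sp N ((b : ℝ) / r)) *
          ∑ q ∈ MS z U0 A B r, gq q * ∑ a ∈ Ab c0 c1 r q b, (w r q a : ℂ) *
            (Sp N ((a : ℝ) / (r * q)) - gq q * Sp N ((b : ℝ) / r)) := by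
      have e2 := sum_PP z U0 A B c0 c1 (fun r q b a => (w r q a : ℂ) *
        (Sp N ((a : ℝ) / (r * q)) - gq q * Sp N ((b : ℝ) / r)) *
        (starRingEnd ℂ) (gq q * Sp N ((b : ℝ) / r)))
      have e3 := sum_DD_eq z U0 A B (fun r q => ∑ b ∈ Cop r, ∑ a ∈ Ab c0 c1 r q b,
        (w r q a : ℂ) * (Sp N ((a : ℝ) / (r * q)) - gq q * Sp N ((b : ℝ) / r)) *
        (starRingEnd ℂ) (gq q * Sp N ((b : ℝ) / r)))
      refine (e2.trans e3).trans ?_
      apply sum_congr rfl; intro r _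
      rw [sum_comm]
      apply sum_congr rfl; intro b _
      rw [mul_sum]
      apply sum_congr rfl; intro q _
      rw [mul_sum, mul_sum]
      apply sum_congr rfl; intro a _
      rw [map_mul, conj_gq0]
      ring
    rw [e1]
    have hSp : ∀ β : ℝ, ‖Sp N β‖ ≤ ψ0 := by
      intro β
      unfold Sp
      refine (norm_sum_le _ _).trans (le_of_eq ?_)
      apply sum_congr rfl; intro n _
      rw [norm_mul, norm_e, mul_one, Complex.norm_real, norm_eq_abs, abs_of_nonneg (vM_nonneg n)]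
    calc _ ≤ ∑ r ∈ Ioc 0 U0, ∑ b ∈ Cop r, ψ0 * FA := by
          refine (norm_sum_le _ _).trans ?_
          apply sum_le_sum; intro r hr
          refine (norm_sum_le _ _).trans ?_
          apply sum_le_sum; intro b _
          rw [norm_mul, RCLike.norm_conj]
          exact mul_le_mul (hSp _) (hFA r hr b) (norm_nonneg _) hψ00
      _ ≤ ∑ r ∈ Ioc 0 U0, (U0 : ℝ) * (ψ0 * FA) := by
          apply sum_le_sum; intro r hr
          rw [mem_Ioc] at hr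
          rw [sum_const, nsmul_eq_mul, card_Cop]
          have a1 : (r.totient : ℝ) ≤ U0 := by
            exact_mod_cast (Nat.totient_le r).trans hr.2
          gcongr
      _ = _ := by
          rw [sum_const, nsmul_eq_mul, Nat.card_Ioc, Nat.sub_zero]; ring
  have hcs := abstract_cs_w T F u S G Er ww _ _ η hη (fun i _ => hw0 _ _ _)
    (fun i hi => by
      obtain ⟨h1, h2, _⟩ := PP_coprime hc1p hi
      rw [hun i]
      exact hwD _ _ _ h1 h2) (fun i _ => by simp only [hEr]; ring) hW hE1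
  -- the large sieve
  have hls : 2 * ∑ i ∈ T, ‖F i‖ ^ 2 ≤ (M + K + (B : ℝ) ^ 4 / K) *
      ∑ i ∈ range M, (win h H s i) ^ 2 := by
    have hB4 : 1 / (B : ℝ) ^ 2 ≤ 1 / 2 := by
      apply one_div_le_one_div_of_le (by norm_num)
      have h2B : (2 : ℝ) ≤ B := by exact_mod_cast hB
      exact nl11 h2B
    have h1 := points_sieve2 z U0 A B K c0 c1 hK hB0 hc0 hc0B hc1 hB4 M
      (fun n => (win h H s n : ℂ))
    have h2 : ∑ i ∈ T, (‖∑ n ∈ range M, (win h H s n : ℂ) * e (n * xP i)‖ ^ 2 +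
        ‖∑ n ∈ range M, (win h H s n : ℂ) * e (n * -xP i)‖ ^ 2) = 2 * ∑ i ∈ T, ‖F i‖ ^ 2 := by
      rw [mul_sum]
      apply sum_congr rfl; intro i _
      have e1 : ∑ n ∈ range M, (win h H s n : ℂ) * e (n * xP i) = F i := rfl
      have e2 : ∑ n ∈ range M, (win h H s n : ℂ) * e (n * -xP i) = Fw h H s M (-xP i) := rfl
      rw [e1, e2, Fw_neg]
      simp only [hF]
      ring
    rw [← h2]
    refine h1.trans (le_of_eq ?_)
    congr 1
    apply sum_congr rfl; intro i _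
    rw [Complex.norm_real, norm_eq_abs, sq_abs]
  -- lower bound for Z
  have hκ' : 0 ≤ 1 - κ := by linarith
  have hZ : h / 2 * (1 - κ) * (ψ0 - 2 * (U0 : ℝ) ^ 2 * Real.log N) ^ 2 *
      ∑ p ∈ DD z U0 A B, 1 / ((p.1.totient : ℝ) * p.2.totient) ≤
      ∑ i ∈ T, ww i * ‖G i‖ ^ 2 := by
    have e1 : ∑ i ∈ T, ww i * ‖G i‖ ^ 2 = ∑ p ∈ DD z U0 A B, ∑ b ∈ Cop p.1,
        ∑ a ∈ Ab c0 c1 p.1 p.2 b, w p.1 p.2 a * (‖gq p.2‖ ^ 2 * ‖Sp N ((b : ℝ) / p.1)‖ ^ 2) := by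
      rw [← sum_PP z U0 A B c0 c1 (fun r q b a => w r q a * (‖gq q‖ ^ 2 *
        ‖Sp N ((b : ℝ) / r)‖ ^ 2))]
      apply sum_congr rfl; intro i _
      simp only [hG, hww]
      rw [norm_mul, mul_pow]
    rw [e1, mul_sum]
    apply sum_le_sum
    rintro ⟨r, q⟩ hp
    have hd := mem_DD.1 hp
    obtain ⟨hr0, hrU, hq0, hqB, hrsq, hqsq, _⟩ := hd
    simp only at hr0 hrU hq0 hqB hrsq hqsq
    simp only
    have hqr : (0 : ℝ) < q := by exact_mod_cast hq0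
    have hφ : (0 : ℝ) < q.totient := by exact_mod_cast Nat.totient_pos.2 hq0
    have hφm : (q.totient : ℝ) ≤ q := by exact_mod_cast Nat.totient_le q
    have hφr : (0 : ℝ) < r.totient := by exact_mod_cast Nat.totient_pos.2 hr0
    have hg : ‖gq q‖ = 1 / q.totient := norm_gq q hqsq
    have f5 : (1 : ℝ) / (q * q.totient) ≤ ‖gq q‖ ^ 2 := by
      rw [hg, div_pow, one_pow]
      apply one_div_le_one_div_of_le (by positivity)
      rw [sq]
      gcongr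
    have f1 : ∀ b ∈ Cop r, (h / 2 * (1 - κ) / q.totient) * ‖Sp N ((b : ℝ) / r)‖ ^ 2 ≤
        ∑ a ∈ Ab c0 c1 r q b, w r q a * (‖gq q‖ ^ 2 * ‖Sp N ((b : ℝ) / r)‖ ^ 2) := by
      intro b _
      rw [← sum_mul]
      have f4 := hwlow _ hp b
      simp only at f4
      calc (h / 2 * (1 - κ) / q.totient) * ‖Sp N ((b : ℝ) / r)‖ ^ 2 =
          (h / 2 * (1 - κ) * q) * (1 / (q * q.totient) * ‖Sp N ((b : ℝ) / r)‖ ^ 2) := by
            field_simp
        _ ≤ _ := by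
            apply mul_le_mul f4
            · gcongr
            · positivity
            · exact sum_nonneg fun a _ => hw0 _ _ _
    have a1 : (r : ℝ) ≤ U0 := by exact_mod_cast hrU
    have a2 : 2 * (r : ℝ) ^ 2 * Real.log N ≤ 2 * (U0 : ℝ) ^ 2 * Real.log N := by
      have := Real.log_natCast_nonneg N
      gcongr
    have f6 := sum_Sp_sq r N hr0 hrsq (by linarith)
    have f7 : (ψ0 - 2 * (U0 : ℝ) ^ 2 * Real.log N) ^ 2 * (1 / r.totient) ≤
        ∑ b ∈ Cop r, ‖Sp N ((b : ℝ) / r)‖ ^ 2 := by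
      refine le_trans ?_ f6
      rw [mul_one_div]
      gcongr
    calc _ = (h / 2 * (1 - κ) / q.totient) *
          ((ψ0 - 2 * (U0 : ℝ) ^ 2 * Real.log N) ^ 2 * (1 / r.totient)) := by
          field_simp
      _ ≤ (h / 2 * (1 - κ) / q.totient) * ∑ b ∈ Cop r, ‖Sp N ((b : ℝ) / r)‖ ^ 2 := by gcongr
      _ = ∑ b ∈ Cop r, (h / 2 * (1 - κ) / q.totient) * ‖Sp N ((b : ℝ) / r)‖ ^ 2 := by
          rw [mul_sum]
      _ ≤ _ := sum_le_sum f1
  have hη' : 0 ≤ 1 - η := by linarith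
  have hfin : (1 - η) * (h / 2 * (1 - κ) * (ψ0 - 2 * (U0 : ℝ) ^ 2 * Real.log N) ^ 2 *
      ∑ p ∈ DD z U0 A B, 1 / ((p.1.totient : ℝ) * p.2.totient)) ≤
      ∑ i ∈ T, ‖F i‖ ^ 2 + 2 * ((U0 : ℝ) ^ 2 * ψ0 * FA) + (B : ℝ) ^ 2 * w0 ^ 2 / η :=
    (mul_le_mul_of_nonneg_left hZ hη').trans hcs
  have e5 : (1 - η) * (h * (1 - κ) * (ψ0 - 2 * (U0 : ℝ) ^ 2 * Real.log N) ^ 2 *
      ∑ p ∈ DD z U0 A B, 1 / ((p.1.totient : ℝ) * p.2.totient)) =
      2 * ((1 - η) * (h / 2 * (1 - κ) * (ψ0 - 2 * (U0 : ℝ) ^ 2 * Real.log N) ^ 2 *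
      ∑ p ∈ DD z U0 A B, 1 / ((p.1.totient : ℝ) * p.2.totient))) := by ring
  rw [e5]
  calc _ ≤ 2 * (∑ i ∈ T, ‖F i‖ ^ 2 + 2 * ((U0 : ℝ) ^ 2 * ψ0 * FA) + (B : ℝ) ^ 2 * w0 ^ 2 / η) := by
        linarith
    _ = 2 * ∑ i ∈ T, ‖F i‖ ^ 2 + 4 * ((U0 : ℝ) ^ 2 * ψ0 * FA) +
        2 * ((B : ℝ) ^ 2 * w0 ^ 2) / η := by ring
    _ ≤ _ := by linarith

end Pool.Agent.Lib.MP_2a816b_nt
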