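import Mathlib
import Pool.Agent.Lib.MP_2a816b_nt.Step

/-!
# The step weights: mass and error functional
-/

open Finset Real

namespace Pool.Agent.Lib.MP_2a816b_nt

open Pool.Agent.Lib.MP_00e05b_nt (DD mem_DD Ab mem_Ab card_Ab_upper card_Ab_lower)

lemma exp_le_one_add_two (x : ℝ) (h0 : 0 ≤ x) (h1 : x ≤ 1 / 2) : Real.exp x ≤ 1 + 2 * x := by
  have h2 : Real.exp x ≤ 1 / (1 - x) := by
    rw [le_div_iff₀ (by linarith)]
    have h3 := Real.add_one_le_exp (-x)
    have h4 : Real.exp x * Real.exp (-x) = 1 := by rw [← Real.exp_add]; simp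
    have h5 := Real.exp_pos x
    nlinarith
  refine h2.trans ?_
  rw [div_le_iff₀ (by linarith)]
  nlinarith

/-- the number of numerators of one step -/
lemma count_step (lam : ℝ) (hlam : 0 < lam) (l i m r s b k : ℕ) (z : ℝ) (hz : 0 < z) (hkz : k ≤ z)
    (hl : 0 < l) (hi0 : 0 < i) (him : i ≤ m) (hlm : 3 * lam * m ≤ 1)
    (hr : 0 < r) (hs : 0 < s) (hrs : r.Coprime s) (hk : s.primeFactors.card ≤ k)
    (hrough : ∀ p ∈ s.primeFactors, z ≤ p) :
    (s : ℝ) / l * (1 - 3 * lam * m) * (1 - k / z) - 2 * (1 + k) ≤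
      ∑ a ∈ Ab ((i : ℝ) / l) ((i + 1 : ℝ) / l) r s b,
        wB lam ((i : ℝ) / l) ((i + 1 : ℝ) / l) r s a := by
  have hlr : (0 : ℝ) < l := by exact_mod_cast hl
  have hsr : (0 : ℝ) < s := by exact_mod_cast hs
  have hir : (1 : ℝ) ≤ i := by exact_mod_cast hi0
  have him' : (i : ℝ) ≤ m := by exact_mod_cast him
  have hm1 : (1 : ℝ) ≤ m := hir.trans him'
  have hlam1 : lam ≤ 1 / 3 := nl12 hlm hm1 hlam
  have h1 := sum_Ab_wB (c0 := (i : ℝ) / l) (c1 := (i + 1 : ℝ) / l) (b := b) hlam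
    (by positivity) (by positivity) hr hs (fun _ => 1)
  have h2 : ∑ a ∈ Ab ((i : ℝ) / l) ((i + 1 : ℝ) / l) r s b,
      wB lam ((i : ℝ) / l) ((i + 1 : ℝ) / l) r s a =
      (((IB lam ((i : ℝ) / l) ((i + 1 : ℝ) / l) r (jb lam s) (b * s % r)).filter
        (fun a => a.Coprime s)).card : ℝ) := by
    simp only [mul_one, sum_const, nsmul_eq_mul] at h1
    exact_mod_cast h1
  rw [h2, IB_eq_Ab (by positivity) hr hs]
  set E : ℝ := Real.exp (jb lam s * lam) with hE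
  have hE0 : 0 < E := Real.exp_pos _
  have hE1 : Real.exp ((jb lam s + 1) * lam) = Real.exp lam * E := by
    rw [hE, ← Real.exp_add]; congr 1; ring
  have hEs : E ≤ s := jb_le lam hlam s hs
  have hsE : (s : ℝ) < Real.exp lam * E := by rw [← hE1]; exact lt_jb lam hlam s hs
  have hel := exp_le_one_add_two lam hlam.le (by linarith)
  have hel1 : 1 ≤ Real.exp lam := Real.one_le_exp hlam.le
  rw [hE1]
  have hg : 0 ≤ (i + 1 : ℝ) - i * Real.exp lam := by
    have h9 : (i : ℝ) * Real.exp lam ≤ i * (1 + 2 * lam) := by gcongr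
    exact nl13 hlm him' hlam h9
  have h01 : (i : ℝ) / l * (Real.exp lam * E) / s ≤ (i + 1 : ℝ) / l * E / s := by
    apply div_le_div_of_nonneg_right _ hsr.le
    have : (i + 1 : ℝ) / l * E - (i : ℝ) / l * (Real.exp lam * E) =
        ((i + 1 : ℝ) - i * Real.exp lam) * (E / l) := by ring
    have h3 : 0 ≤ ((i + 1 : ℝ) - i * Real.exp lam) * (E / l) := by positivity
    linarith
  have h3 := card_Ab_lower ((i : ℝ) / l * (Real.exp lam * E) / s) ((i + 1 : ℝ) / l * E / s)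
    (by positivity) h01 r s b k z hz hr hs hrs hk hrough
  refine le_trans ?_ h3
  have h4 : ((i + 1 : ℝ) / l * E / s - (i : ℝ) / l * (Real.exp lam * E) / s) * s =
      ((i + 1 : ℝ) - i * Real.exp lam) * E / l := by field_simp
  rw [h4]
  have h5 : s * (1 - 3 * lam * m) ≤ ((i + 1 : ℝ) - i * Real.exp lam) * E := by
    have g1 : 1 - 2 * lam * i ≤ (i + 1 : ℝ) - i * Real.exp lam := by
      have : (i : ℝ) * Real.exp lam ≤ i * (1 + 2 * lam) := by gcongr
      linarith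
    have g2 : 0 ≤ 1 - 2 * lam * i := nl14 hlm him' hlam (by linarith)
    have g3 : s * (1 - lam) ≤ E := by
      have g4 : Real.exp lam * (1 - lam) ≤ 1 := by
        have g5 := Real.add_one_le_exp (-lam)
        have g6 : Real.exp lam * Real.exp (-lam) = 1 := by rw [← Real.exp_add]; simp
        have g7 := Real.exp_pos lam
        exact nl15 g5 g6 g7
      have g8 : 0 ≤ 1 - lam := by linarith
      calc s * (1 - lam) ≤ (Real.exp lam * E) * (1 - lam) := by gcongr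
        _ = (Real.exp lam * (1 - lam)) * E := by ring
        _ ≤ 1 * E := by gcongr
        _ = E := one_mul E
    calc s * (1 - 3 * lam * m) ≤ s * ((1 - 2 * lam * i) * (1 - lam)) := by
          apply mul_le_mul_of_nonneg_left _ hsr.le
          have g9 : lam * i ≤ lam * m := by gcongr
          have g10 : lam ≤ lam * m := le_mul_of_one_le_right hlam.le hm1
          have g11 : 0 ≤ lam * i * lam := by positivity
          exact nl16 g9 g10 g11
      _ = (1 - 2 * lam * i) * (s * (1 - lam)) := by ring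
      _ ≤ (1 - 2 * lam * i) * E := by gcongr
      _ ≤ _ := by gcongr
  have hkz' : 0 ≤ 1 - k / z := by
    rw [sub_nonneg, div_le_one hz]; exact hkz
  have h6 : (s : ℝ) / l * (1 - 3 * lam * m) ≤ ((i + 1 : ℝ) - i * Real.exp lam) * E / l := by
    rw [div_mul_eq_mul_div]
    gcongr
  have := mul_le_mul_of_nonneg_right h6 hkz'
  linarith

/-- the mass of the weights -/
lemma wS_lower (lam : ℝ) (hlam : 0 < lam) (h n C k A : ℕ) (z : ℝ) (hz : 0 < z) (hkz : k ≤ z)
    (hh : 0 < h) (hn : 0 < n) (hC : 0 < C) (hCh : 2 * C < h) (hA : 0 < A)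
    (hκ1 : 1 / (C : ℝ) + 15 * C / n ≤ 1)
    (hy : 3 * lam * ((C * n : ℕ) : ℝ) + k / z + 2 * (1 + k) * ((h * n : ℕ) : ℝ) / A ≤ 1)
    (r s b : ℕ) (hr : 0 < r) (hs : A < s) (hrs : r.Coprime s) (hk : s.primeFactors.card ≤ k)
    (hrough : ∀ p ∈ s.primeFactors, z ≤ p) :
    (h : ℝ) / 2 * (1 - ((1 / (C : ℝ) + 15 * C / n) +
      (3 * lam * ((C * n : ℕ) : ℝ) + k / z + 2 * (1 + k) * ((h * n : ℕ) : ℝ) / A))) * s ≤
      ∑ a ∈ Ab (1 / (h * n)) ((C * n + 1 : ℝ) / (h * n)) r s b, wS lam h n C r s a := by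
  have hhr : (0 : ℝ) < h := by exact_mod_cast hh
  have hnr : (0 : ℝ) < n := by exact_mod_cast hn
  have hCr : (1 : ℝ) ≤ C := by exact_mod_cast hC
  have hAr : (0 : ℝ) < A := by exact_mod_cast hA
  have hs0 : 0 < s := by omega
  have hsr : (0 : ℝ) < s := by exact_mod_cast hs0
  have hAs : (A : ℝ) ≤ s := by exact_mod_cast hs.le
  have elr : ((h * n : ℕ) : ℝ) = h * n := by push_cast; ring
  set m : ℕ := C * n with hm
  have hmr : ((C * n : ℝ)) = m := by rw [hm]; push_cast; ring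
  set y : ℝ := 3 * lam * (m : ℝ) + k / z + 2 * (1 + k) * ((h * n : ℕ) : ℝ) / A with hydef
  have hkz0 : 0 ≤ k / z := by positivity
  have hA0 : 0 ≤ 2 * (1 + (k : ℝ)) * ((h * n : ℕ) : ℝ) / A := by positivity
  have hlm : 3 * lam * m ≤ 1 := by linarith
  have h1 : ∑ a ∈ Ab (1 / (h * n)) ((C * n + 1 : ℝ) / (h * n)) r s b, wS lam h n C r s a =
      ∑ i ∈ Ioc 0 m, vS h n i * ∑ a ∈ Ab (1 / (h * n)) ((C * n + 1 : ℝ) / (h * n)) r s b,
        wB lam ((i : ℝ) / (h * n)) ((i + 1 : ℝ) / (h * n)) r s a := by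
    unfold wS
    rw [sum_comm]
    apply sum_congr rfl; intro i _
    rw [mul_sum]
  have h2 : ∀ i ∈ Ioc 0 m, (s : ℝ) / (h * n) * (1 - y) ≤
      ∑ a ∈ Ab (1 / (h * n)) ((C * n + 1 : ℝ) / (h * n)) r s b,
        wB lam ((i : ℝ) / (h * n)) ((i + 1 : ℝ) / (h * n)) r s a := by
    intro i hi
    rw [mem_Ioc] at hi
    have hi1 : (1 : ℝ) ≤ i := by exact_mod_cast hi.1
    have him : (i : ℝ) ≤ m := by exact_mod_cast hi.2
    have g1 := count_step lam hlam (h * n) i m r s b k z hz hkz (Nat.mul_pos hh hn) hi.1 hi.2 hlm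
      hr hs0 hrs hk hrough
    rw [elr] at g1
    have g2 : ∑ a ∈ Ab ((i : ℝ) / (h * n)) ((i + 1 : ℝ) / (h * n)) r s b,
        wB lam ((i : ℝ) / (h * n)) ((i + 1 : ℝ) / (h * n)) r s a ≤
        ∑ a ∈ Ab (1 / (h * n)) ((C * n + 1 : ℝ) / (h * n)) r s b,
        wB lam ((i : ℝ) / (h * n)) ((i + 1 : ℝ) / (h * n)) r s a := by
      apply sum_le_sum_of_subset_of_nonneg
      · intro a ha
        rw [mem_Ab (by positivity) hr hs0] at ha
        rw [mem_Ab (by positivity) hr hs0]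
        refine ⟨le_trans ?_ ha.1, ha.2.1.trans ?_, ha.2.2⟩
        · gcongr
        · rw [hmr]; gcongr
      · intro a _ _
        exact wB_nonneg _ _ _ _ _ _
    refine le_trans ?_ (g1.trans g2)
    -- numerics
    have g3 : 0 ≤ 1 - 3 * lam * m := by linarith
    have g4 : 1 - (3 * lam * m + k / z) ≤ (1 - 3 * lam * m) * (1 - k / z) := by
      have : 0 ≤ 3 * lam * m * (k / z) := by positivity
      linarith
    have g5 : 2 * (1 + (k : ℝ)) ≤ (s : ℝ) / (h * n) * (2 * (1 + k) * ((h * n : ℕ) : ℝ) / A) := by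
      rw [elr]
      have : (s : ℝ) / (h * n) * (2 * (1 + k) * (h * n) / A) = 2 * (1 + (k : ℝ)) * (s / A) := by
        field_simp
      rw [this]
      have h7 : (1 : ℝ) ≤ s / A := by rw [one_le_div hAr]; exact hAs
      have h8 : (0 : ℝ) ≤ 2 * (1 + k) := by positivity
      exact nl17 h7 h8
    have g6 : 0 ≤ (s : ℝ) / (h * n) := by positivity
    have g7 := mul_le_mul_of_nonneg_left g4 g6
    calc (s : ℝ) / (h * n) * (1 - y) = (s : ℝ) / (h * n) * (1 - (3 * lam * m + k / z)) -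
          (s : ℝ) / (h * n) * (2 * (1 + k) * ((h * n : ℕ) : ℝ) / A) := by rw [hydef]; ring
      _ ≤ (s : ℝ) / (h * n) * ((1 - 3 * lam * m) * (1 - k / z)) - 2 * (1 + (k : ℝ)) :=
          sub_le_sub g7 g5
      _ = _ := by ring
  have hy0 : 0 ≤ y := by positivity
  have hsv := sum_vS h n C hh hn hC hCh
  rw [← hm] at hsv
  set κ1 : ℝ := 1 / (C : ℝ) + 15 * C / n with hκ
  have hκ0 : 0 ≤ κ1 := by positivity
  rw [h1]
  have h3 : (∑ i ∈ Ioc 0 m, vS h n i) * ((s : ℝ) / (h * n) * (1 - y)) ≤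
      ∑ i ∈ Ioc 0 m, vS h n i * ∑ a ∈ Ab (1 / (h * n)) ((C * n + 1 : ℝ) / (h * n)) r s b,
        wB lam ((i : ℝ) / (h * n)) ((i + 1 : ℝ) / (h * n)) r s a := by
    rw [sum_mul]
    apply sum_le_sum; intro i hi
    exact mul_le_mul_of_nonneg_left (h2 i hi) (vS_nonneg _ _ _)
  refine le_trans ?_ h3
  have hy1 : 0 ≤ 1 - y := by linarith
  have h4 : (h * n : ℝ) * h / 2 * (1 - κ1) * ((s : ℝ) / (h * n) * (1 - y)) ≤
      (∑ i ∈ Ioc 0 m, vS h n i) * ((s : ℝ) / (h * n) * (1 - y)) := by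
    apply mul_le_mul_of_nonneg_right hsv (by positivity)
  refine le_trans ?_ h4
  have h5 : (h * n : ℝ) * h / 2 * (1 - κ1) * ((s : ℝ) / (h * n) * (1 - y)) =
      (h : ℝ) / 2 * ((1 - κ1) * (1 - y)) * s := by field_simp
  rw [h5]
  have h6 : 1 - (κ1 + y) ≤ (1 - κ1) * (1 - y) := nl18 (mul_nonneg hκ0 hy0)
  gcongr

end Pool.Agent.Lib.MP_2a816b_nt
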