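import Mathlib
import Pool.Agent.Lib.MP_2a816b_nt.FR1b
import Pool.Agent.Lib.MP_2a816b_nt.Step2
import Pool.Agent.Lib.MP_2a816b_nt.Main3

/-!
# The full range: final result
-/

open Finset Real Filter

namespace Pool.Agent.Lib.MP_2a816b_nt

open Pool.Agent.Lib.MP_00e05b_nt (DD mem_DD Ab mem_Ab sum_DD)

/-! small numerical facts, kept out of the large contexts -/

lemma n8a (c : ℝ) (h : 1 ≤ c) : c + 1 ≤ 15 * c ^ 2 := by nlinarith

lemma n8b (x b : ℝ) (h1 : x ≤ b) (h2 : 2 ≤ b) : x ≤ b ^ 2 := by nlinarith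

lemma n8c (c n h : ℝ) (h1 : 4 * (c + 1) ≤ h) (hn : 1 ≤ n) : (c * n + 1) * 4 ≤ 1 * (h * n) := by
  have h2 : 4 * (c + 1) * n ≤ h * n := mul_le_mul_of_nonneg_right h1 (by linarith)
  linarith

lemma n8d (r b : ℝ) (hr : 2 ≤ r) (hb : 0 ≤ b) : b ≤ r * b := le_mul_of_one_le_left hb (by linarith)

lemma n8e (r : ℝ) (hr : 2 ≤ r) : 2 ≤ r ^ 2 := by nlinarith

lemma n8f (ε x h : ℝ) (h1 : 100 ≤ x * ε) (h2 : x - 1 ≤ h) : (1 - ε / 100) * x ≤ h := by
  have h3 : (1 - ε / 100) * x = x - (x * ε) / 100 := by ring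
  rw [h3]; linarith

/-- many primes on average -/
theorem discrete_many3 {ε Cτ X θ : ℝ} {h s M L : ℕ} (d : Dat ε Cτ X θ h (s + M) L)
    (hC : C2 ε Cτ * Real.log X ^ 10 ≤ X ^ (ε ^ 2 / 256000))
    (hFAW : ∀ r ∈ Ioc 0 (fl X (ε / 1000)), ∀ b : ℕ,
      ‖∑ q ∈ MS (fl X (ε ^ 2 / 64000)) (fl X (ε / 1000)) (fl X (θ + ε / 16))
        (fl X ((1 - θ) / 2 - ε / 8)) r, gq q *
      ∑ a ∈ Ab (1 / (h * ne ε)) ((Ce ε * ne ε + 1 : ℝ) / (h * ne ε)) r q b,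
        (wS (le ε) h (ne ε) (Ce ε) r q a : ℂ) *
        (Sp (s + M) ((a : ℝ) / (r * q)) - gq q * Sp (s + M) ((b : ℝ) / r))‖ ≤
      X ^ (1 + θ - (ε / 500 + ε ^ 2 / 128000)) / 2)
    (hb : Bet ε θ ((1 - θ) / 2 - ε / 8)) (hh1 : X ^ θ - 1 ≤ h)
    (hs : (s : ℝ) ≤ X ^ θ + 3) (hMX : (M : ℝ) ≤ X) (hXM : X ≤ M + X ^ θ + 3)
    (hLb : s + M + h + 1 < 2 ^ L)
    (hψ : (1 - ε / 100) * ((s + M : ℕ) : ℝ) ≤ ∑ n ∈ Ioc 0 (s + M), vM n) :
    ((1 - θ) / 2 - ε / 8 - θ - ε / 7 - 10 * (ε / 100)) * (X ^ θ * X * Real.log X) ≤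
      ∑ i ∈ range M, (win h (X ^ θ) s i) ^ 2 := by
  have hε := d.hε
  have hε1 := d.hε1
  have hX := d.hX
  have hX0 := d.hX0
  have hε2 := d.hε2
  have hε2' := d.hε2'
  have hθ0 := d.hθ0
  have hθ1 := d.hθ1
  have hXθ := d.hXθ
  have hXθ0 := d.hXθ0
  have hell0 := d.hell0
  have hb1 := hb.b1
  have hb2 := hb.b2
  set β : ℝ := (1 - θ) / 2 - ε / 8 with hβ
  have hs0 : (0 : ℝ) ≤ s := Nat.cast_nonneg _
  have hNcast : (((s + M : ℕ)) : ℝ) = (s : ℝ) + M := by push_cast; ring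
  have hPge := d.P_ge _ hψ (by rw [hNcast]; linarith)
  have hP0 : 0 ≤ ∑ n ∈ Ioc 0 (s + M), vM n -
      2 * (fl X (ε / 1000) : ℝ) ^ 2 * Real.log ↑(s + M) := by
    refine le_trans ?_ hPge
    have : 0 ≤ 1 - 2 * (ε / 100) := by linarith
    positivity
  have hnp := ne_pos ε hε
  have hCp := Ce_pos ε hε
  have hCr : (1 : ℝ) ≤ Ce ε := by exact_mod_cast hCp
  have hnr : (1 : ℝ) ≤ ne ε := by exact_mod_cast hnp
  have hlep := le_pos ε hε
  have hnu0 := d.nu0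
  have hμ := d.mu hC
  have hθν := d.nu_le θ (by linarith)
  have hθbig : (10 : ℝ) ^ 15 ≤ X ^ θ := hnu0.trans hθν
  have hhge : X ^ θ / 2 ≤ (h : ℝ) := by linarith
  have hh0r : (0 : ℝ) < h := by linarith
  have hh0 : 0 < h := by exact_mod_cast hh0r
  have hne : (ne ε : ℝ) = 15 * (Ce ε : ℝ) ^ 2 := by unfold ne; push_cast; ring
  -- h is large
  have hCh4 : 4 * ((Ce ε : ℝ) + 1) ≤ h := by
    have h1 : (Ce ε : ℝ) + 1 ≤ ne ε := by rw [hne]; exact n8a _ hCr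
    have h2 : 10 ^ 9 * (ne ε : ℝ) ≤ X ^ θ := hμ.trans hθν
    linarith
  have hCh : 2 * Ce ε < h := by
    have : 2 * (Ce ε : ℝ) < h := by linarith
    exact_mod_cast this
  have hhnr : (0 : ℝ) < (h : ℝ) * ne ε := by positivity
  have hAge := d.hn_le_A hC
  have hM1R0 := d.M1R0_le β hb
  have hR02 := d.two_le_R0
  have hA1 : 1 ≤ fl X (θ + ε / 16) := fl_pos X _ hX (by linarith)
  have hAB : fl X (θ + ε / 16) ≤ fl X β := by
    refine le_trans ?_ hM1R0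
    exact Nat.le_mul_of_pos_right _ (by omega)
  have hB2 : 2 ≤ fl X β := by
    have : 1 * 2 ≤ fl X (θ + ε / 16) * fl X (ε / 1000) := Nat.mul_le_mul hA1 hR02
    omega
  have hBr : (2 : ℝ) ≤ fl X β := by exact_mod_cast hB2
  have hhnA : (h : ℝ) * ne ε ≤ fl X (θ + ε / 16) := by
    have : ((h * ne ε : ℕ) : ℝ) ≤ (fl X (θ + ε / 16) : ℝ) := by exact_mod_cast hAge
    push_cast at this
    exact this
  have hhnB : (h : ℝ) * ne ε ≤ fl X β := by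
    have : (fl X (θ + ε / 16) : ℝ) ≤ fl X β := by exact_mod_cast hAB
    linarith
  set c0 : ℝ := 1 / (h * ne ε) with hc0
  set c1 : ℝ := (Ce ε * ne ε + 1 : ℝ) / (h * ne ε) with hc1
  have hc00 : 0 < c0 := by positivity
  have hc0B : 1 / (fl X β : ℝ) ^ 2 ≤ c0 := by
    rw [hc0]
    exact one_div_le_one_div_of_le hhnr (n8b _ _ hhnB hBr)
  have hc01 : c0 ≤ c1 := by
    rw [hc0, hc1]
    apply div_le_div_of_nonneg_right _ hhnr.le
    have : 0 ≤ (Ce ε : ℝ) * ne ε := by positivity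
    linarith
  have hc1le : c1 ≤ 1 / 4 := by
    rw [hc1, div_le_div_iff₀ hhnr (by norm_num)]
    exact n8c _ _ _ hCh4 hnr
  have hz1 : 1 ≤ fl X (ε ^ 2 / 64000) := fl_pos X _ hX (by positivity)
  have hz0 : (0 : ℝ) < fl X (ε ^ 2 / 64000) := by exact_mod_cast hz1
  have hκ1 := kap1_le ε hε
  have hκ2 := d.kapW_le hC
  have hlm := le_mul ε hε
  have hk0 : (0 : ℝ) ≤ kk ε := Nat.cast_nonneg _
  have hsec : 0 ≤ 2 * (1 + (kk ε : ℝ)) * ((h * ne ε : ℕ) : ℝ) / fl X (θ + ε / 16) := by positivity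
  have hkz : (kk ε : ℝ) ≤ fl X (ε ^ 2 / 64000) := by
    have h1 : (kk ε : ℝ) / fl X (ε ^ 2 / 64000) ≤ 1 := by linarith
    rwa [div_le_one hz0] at h1
  have hDDs : ∀ p ∈ DD (fl X (ε ^ 2 / 64000)) (fl X (ε / 1000)) (fl X (θ + ε / 16)) (fl X β),
      ∀ q ∈ p.2.primeFactors, fl X (ε ^ 2 / 64000) < q := by
    rintro ⟨r, q⟩ hp p' hp'
    have hd := mem_DD.1 hp
    simp only at hd hp'
    obtain ⟨_, _, hs0, hsB, _, _, _, hsz, _⟩ := hd
    rw [Nat.mem_primeFactors] at hp'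
    exact hsz p' hp'.1 hp'.2.1
  have hmain := main3 h (X ^ θ) hXθ0.le s M (fl X (ε ^ 2 / 64000)) (fl X (ε / 1000))
    (fl X (θ + ε / 16)) (fl X β) (fl X (1 - ε ^ 2 / 256000)) L c0 c1 (ε / 100)
    (X ^ (1 + θ - (ε / 500 + ε ^ 2 / 128000)) / 2) (ε / 100) (by positivity) (by linarith)
    (fl_pos X _ hX (by linarith)) hB2 hc00 hc0B hc01 hc1le
    (fun r s a => wS (le ε) h (ne ε) (Ce ε) r s a) (fun r s a => wS_nonneg _ _ _ _ _ _ _)
    (fun r s a hr hs => wS_le (le ε) hlep h (ne ε) (Ce ε) r s a hh0 hnp hr hs)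
    (by linarith)
    (by
      rintro ⟨r, q⟩ hp b
      have hd := mem_DD.1 hp
      have hrough := hDDs _ hp
      simp only at hd hrough ⊢
      obtain ⟨hr0, _, hs0, hsB, _, _, _, hsz, hAs, _⟩ := hd
      have hcop := DD_coprime hp
      have hcard : q.primeFactors.card ≤ kk ε :=
        rough_card' _ q _ (kk ε) hs0 hsB hrough (d.hkQ β (by linarith) hb2)
      have h1 := wS_lower (le ε) hlep h (ne ε) (Ce ε) (kk ε) (fl X (θ + ε / 16))
        (fl X (ε ^ 2 / 64000)) hz0 hkz hh0 hnp hCp hCh (by omega) (by linarith)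
        (by rw [hlm]; linarith) r q b hr0 hAs hcop hcard
        (fun p hp => by exact_mod_cast (hrough p hp).le)
      refine le_trans ?_ h1
      apply mul_le_mul_of_nonneg_right _ (Nat.cast_nonneg _)
      apply mul_le_mul_of_nonneg_left _ (by positivity)
      rw [hlm]
      linarith)
    (by positivity) hLb hP0
    hFAW
  have hT := d.T_le β M hb hMX
  have hΨ := psi_le_trivial (s + M) L X d.hL d.hN2
  have hΨ0 : 0 ≤ ∑ n ∈ Ioc 0 (s + M), vM n := sum_nonneg fun n _ => vM_nonneg n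
  have hE1 := d.E1_le _ hΨ0 hΨ
  have hE2 := d.E2_le β s hb hs0 hs
  have hG := Gd_ge ε X θ β hε hε1 hX d.hB.2.1 (by
      have h4 := d.nuell.trans (d.nu_le (ε ^ 2 / 64000) (by linarith))
      linarith) (by linarith) (by linarith) hb2
  have hG2 := sum_DD (fl X (ε ^ 2 / 64000)) (fl X (ε / 1000)) (fl X (θ + ε / 16)) (fl X β) hz1
    hR02 hA1 hM1R0
  have hG3 : (β - θ - ε / 7) * Real.log X ≤
      ∑ p ∈ DD (fl X (ε ^ 2 / 64000)) (fl X (ε / 1000)) (fl X (θ + ε / 16)) (fl X β),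
        1 / ((p.1.totient : ℝ) * p.2.totient) := by
    refine hG.trans ?_
    unfold Gd
    exact hG2
  -- the factor of the large sieve
  have hR0r : (2 : ℝ) ≤ fl X (ε / 1000) := by exact_mod_cast hR02
  have hK0 : (0 : ℝ) < fl X (1 - ε ^ 2 / 256000) := by
    exact_mod_cast fl_pos X _ hX (by linarith)
  have hT' : M + (fl X (1 - ε ^ 2 / 256000) : ℝ) + (fl X β : ℝ) ^ 4 /
      fl X (1 - ε ^ 2 / 256000) ≤ (1 + ε / 100) * X := by
    refine le_trans ?_ hT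
    have hBle := n8d (fl X (ε / 1000)) (fl X β) hR0r (Nat.cast_nonneg _)
    gcongr
  -- the error terms
  have hE1' : 4 * ((fl X (ε / 1000) : ℝ) ^ 2 * (∑ n ∈ Ioc 0 (s + M), vM n) *
      (X ^ (1 + θ - (ε / 500 + ε ^ 2 / 128000)) / 2)) ≤
      ε / 200 * (X ^ θ * X ^ 2 * Real.log X) := by
    refine le_trans (le_of_eq ?_) hE1
    ring
  have hE2' : 2 * ((fl X β : ℝ) ^ 2 * (h * ((s + 2 * h) * L) + X ^ θ / c0) ^ 2) / (ε / 100) ≤
      ε / 200 * (X ^ θ * X ^ 2 * Real.log X) := by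
    refine le_trans ?_ hE2
    apply div_le_div_of_nonneg_right _ (by positivity)
    have e1 : X ^ θ / c0 = X ^ θ * (h * ne ε) := by
      rw [hc0]; field_simp
    rw [e1]
    have e2 : (h : ℝ) * ne ε ≤ fl X (ε / 1000) * fl X β :=
      hhnB.trans (n8d _ _ hR0r (Nat.cast_nonneg _))
    have hL0 : (0 : ℝ) ≤ L := Nat.cast_nonneg L
    have e3 : (h * ((s + 2 * h) * L) + X ^ θ * (h * ne ε) : ℝ) ^ 2 ≤
        (h * ((s + 2 * h) * L) + X ^ θ * (fl X (ε / 1000) * fl X β)) ^ 2 := by gcongr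
    have e4 : 2 * (fl X β : ℝ) ^ 2 ≤ ((fl X (ε / 1000) : ℝ) * fl X β) ^ 2 := by
      rw [mul_pow]
      have : (2 : ℝ) ≤ (fl X (ε / 1000) : ℝ) ^ 2 := n8e _ hR0r
      gcongr
    calc 2 * ((fl X β : ℝ) ^ 2 * (h * ((s + 2 * h) * L) + X ^ θ * (h * ne ε)) ^ 2) =
        (2 * (fl X β : ℝ) ^ 2) * (h * ((s + 2 * h) * L) + X ^ θ * (h * ne ε)) ^ 2 := by ring
      _ ≤ _ := by gcongr
  rw [add_assoc] at hmain
  have hE := add_le_add hE1' hE2'
  have e1 : ε / 200 * (X ^ θ * X ^ 2 * Real.log X) + ε / 200 * (X ^ θ * X ^ 2 * Real.log X) =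
      ε / 100 * (X ^ θ * X ^ 2 * Real.log X) := by ring
  rw [e1] at hE
  refine final_combine (ε / 100) (ε / 100) (X ^ θ) h _ X _ (β - θ - ε / 7) (Real.log X)
    _ _ _ (by positivity) (by linarith) le_rfl hXθ0 hX0 hell0
    ?_ hPge hT' hG3 (by linarith) (by linarith) hE (sum_nonneg fun _ _ => sq_nonneg _) hmain
  -- h
  have h2 : 100 / ε ≤ X ^ θ := by
    refine le_trans ?_ (d.nu1.trans hθν)
    exact div_le_div_of_nonneg_right (by norm_num) hε.le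
  rw [div_le_iff₀ hε] at h2
  exact n8f _ _ _ h2 hh1

end Pool.Agent.Lib.MP_2a816b_nt
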