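import Mathlib
import Pool.Agent.Lib.MP_2a816b_nt.FR2
import Pool.Agent.Lib.MP_2a816b_nt.FR3
import Pool.Agent.Lib.MP_2a816b_nt.Final2
import Pool.Agent.Lib.MP_2a816b_nt.Divisor

/-!
# The full range: final result
-/

open Finset Real Filter

namespace Pool.Agent.Lib.MP_2a816b_nt

/-- few primes on average -/
theorem discrete_few {ε Cτ X θ : ℝ} {h s M L : ℕ} (d : Dat ε Cτ X θ h (s + M) L)
    (hs : (s : ℝ) ≤ X ^ θ + 3) (hMX : (M : ℝ) ≤ X) (hXM : X ≤ M + X ^ θ + 3)
    (hLb : s + M + h + 1 < 2 ^ L)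
    (hψ : ∑ n ∈ Ioc 0 (s + M), vM n ≤ (1 - ε / 100) * ((s + M : ℕ) : ℝ)) :
    X ^ θ * X * Real.log X ≤ ∑ i ∈ range M, (win h (X ^ θ) s i) ^ 2 := by
  have hε := d.hε
  have hε1 := d.hε1
  have hX := d.hX
  have hX0 := d.hX0
  have hε2 := d.hε2
  have hε2' := d.hε2'
  have hθ0 := d.hθ0
  have hθ1 := d.hθ1
  have hell9 := d.hell
  have hXθ := d.hXθ
  have hXθ0 := d.hXθ0
  have hell0 := d.hell0
  have hν1ell := d.nu1ell
  have hν1 := d.nu1
  have hν0 := d.nu0
  have hν2 := d.nu2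
  have hνθ := d.nu_le θ (by linarith)
  have hMr : 0 < M := by
    have h1 : 20 * X ^ θ ≤ X ^ (1 : ℝ) :=
      pw hX (by linarith) (by linarith : θ + ε ^ 2 / 256000 ≤ 1)
    rw [rpow_one] at h1
    have : (0 : ℝ) < M := by linarith
    exact_mod_cast this
  have hX3 : X ^ θ * X ^ θ * Real.log X * 24 ≤ X := by
    have h1 : 24 * Real.log X * X ^ (θ + θ) ≤ X ^ (1 : ℝ) := by
      apply pw hX _ (by linarith : θ + θ + ε ^ 2 / 256000 ≤ 1)
      refine le_trans ?_ d.nuell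
      exact mul_le_mul_of_nonneg_right (by norm_num) hell0.le
    rw [rpow_one, rpow_add hX0] at h1
    linarith
  have hXH' : 400 ≤ X ^ θ * ε := by
    rw [← div_le_iff₀ hε]
    refine le_trans ?_ (hν1.trans hνθ)
    exact div_le_div_of_nonneg_right (by norm_num) hε.le
  have hlog : ∀ n, n ≤ s + M + h → Real.log n ≤ 3 * Real.log X := fun n hn =>
    (log_le_L hLb (by omega)).trans d.hL3
  set W := X ^ θ with hW
  set ell := Real.log X with hell
  have hbig : (W + 1) * (W + 3 + (W + 1) * (3 * ell)) + (W + 3) * W + X ≤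
      (ε / 100) / 2 * (W * X) := by
    have h1 : (W + 1) * (W + 3 + (W + 1) * (3 * ell)) + (W + 3) * W ≤ 24 * (W * W * ell) := by
      have a1 : (W + 1) * (W + 3 + (W + 1) * (3 * ell)) ≤ 2 * W * (4 * W + 2 * W * (3 * ell)) := by
        gcongr <;> linarith
      have a2 : (W + 3) * W ≤ 4 * W * W := by gcongr; linarith
      have a3 : W * W * 1 ≤ W * W * ell := by gcongr; linarith
      nlinarith
    have h3 : 2 * X ≤ (ε / 100) / 2 * (W * X) := by
      have : (ε / 100) / 2 * (W * X) = (W * ε) / 200 * X := by ring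
      rw [this]
      have : 2 ≤ W * ε / 200 := by linarith
      gcongr
    linarith
  have hψ' : ∑ n ∈ Ioc 0 (s + M), vM n ≤ (1 - ε / 100) * ((s : ℝ) + M) := by
    have : (((s + M : ℕ)) : ℝ) = (s : ℝ) + M := by push_cast; ring
    rwa [this] at hψ
  have hfew := few_primes X W (ε / 100) (by positivity) (by linarith) hXθ h s M d.hh hs hMX
    (by linarith) hMr (3 * ell) hlog (by positivity) hbig hψ'
  refine le_trans ?_ hfew
  have h5 : ell ≤ (ε / 100) ^ 2 / 4 * W := by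
    have h6 : (10 : ℝ) ^ 15 / ε ^ 2 * ell ≤ W := hν2.trans hνθ
    calc ell ≤ 25000000000 * ell := by linarith
      _ = (ε / 100) ^ 2 / 4 * ((10 : ℝ) ^ 15 / ε ^ 2 * ell) := by field_simp; norm_num
      _ ≤ _ := mul_le_mul_of_nonneg_left h6 (by positivity)
  calc W * X * ell ≤ W * X * ((ε / 100) ^ 2 / 4 * W) := by gcongr
    _ = _ := by ring

/-- the mean square -/
theorem meanSquare_full (ε Cτ X θ : ℝ) (hε : 0 < ε) (hε1 : ε ≤ 1 / 12) (hCτ : 1 ≤ Cτ)
    (hB : Bg ε Cτ X) (hC : C2 ε Cτ * Real.log X ^ 10 ≤ X ^ (ε ^ 2 / 256000))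
    (hdiv : ∀ n : ℕ, 0 < n → (n.divisors.card : ℝ) ≤ Cτ * (n : ℝ) ^ (ε / 1000))
    (hθ0 : ε ≤ θ) (hθ1 : θ ≤ 1 / 3 - ε) :
    ((1 - θ) / 2 - ε / 8 - θ - ε / 4) * (X ^ θ * Real.log X) ≤ meanSquare X (X ^ θ) := by
  have hb : Bet ε θ ((1 - θ) / 2 - ε / 8) := ⟨by linarith, by linarith, by linarith⟩
  have hX : 1 ≤ X := hB.1
  have hX0 : 0 < X := by linarith
  have hXθ : 1 ≤ X ^ θ := one_le_rpow hX (by linarith)
  have hε2 : ε ^ 2 ≤ ε / 12 := by nlinarith
  have hε2' : 0 < ε ^ 2 := by positivity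
  have hell9 : 10 ^ 9 ≤ Real.log X := by
    have hε3 : 0 < ε ^ 3 := by positivity
    have hε31 : ε ^ 3 ≤ 1 := pow_le_one₀ hε.le (by linarith)
    refine le_trans ?_ hB.2.1
    rw [le_div_iff₀ hε3]
    nlinarith
  obtain ⟨hL3, hL2⟩ := L_numeric X (Real.log X) hX0 rfl (by linarith)
  set L : ℕ := ⌈2 * Real.log X⌉₊ + 3 with hLdef
  -- X is much bigger than H
  have hbig : 40 * X ^ θ ≤ X := by
    have h1 : (40 : ℝ) ≤ X ^ (ε ^ 2 / 256000) := by
      apply Bg_const hB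
      apply Cc_ge ε Cτ _ hε hε1 hCτ (by linarith) 40 0 (by norm_num)
      have hε3 : 0 < ε ^ 3 := by positivity
      have hε31 : ε ^ 3 ≤ 1 := pow_le_one₀ hε.le (by linarith)
      have h2 : (1 : ℝ) ≤ 16 ^ kk ε := one_le_pow₀ (by norm_num)
      have h3 : (0 : ℝ) ≤ kk ε := Nat.cast_nonneg _
      rw [pow_zero, mul_one, le_div_iff₀ hε3]
      calc 40 * ε ^ 3 ≤ 10 ^ 15 * 1 * 1 * 1 := by linarith
        _ ≤ 10 ^ 15 * 16 ^ kk ε * (kk ε + 1) * Cτ := by gcongr; linarith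
    have h2 := pw hX h1 (by linarith : θ + ε ^ 2 / 256000 ≤ 1)
    rwa [rpow_one] at h2
  set β : ℝ := (1 - θ) / 2 - ε / 8 with hβ
  have hmain := meanSquare_of_discrete X (X ^ θ)
    ((β - θ - ε / 4) * (X ^ θ * X * Real.log X)) hXθ (by linarith) (by
      intro h s M hh1 hh2 hh hs hMX hXM
      have hs0 : (0 : ℝ) ≤ s := Nat.cast_nonneg _
      have hNcast : (((s + M : ℕ)) : ℝ) = (s : ℝ) + M := by push_cast; ring
      have hLb : s + M + h + 1 < 2 ^ L := by
        have : ((s + M + h + 1 : ℕ) : ℝ) < ((2 ^ L : ℕ) : ℝ) := by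
          push_cast
          linarith
        exact_mod_cast this
      have d : Dat ε Cτ X θ h (s + M) L := by
        refine ⟨hε, hε1, hCτ, hB, hθ0, hθ1, hh2, ?_, ?_, by omega, hL3⟩
        · rw [hNcast]; linarith
        · rw [hNcast]; linarith
      have hell0 := d.hell0
      have hpos : 0 < X ^ θ * X * Real.log X := by positivity
      by_cases hψ : (1 - ε / 100) * ((s + M : ℕ) : ℝ) ≤ ∑ n ∈ Ioc 0 (s + M), vM n
      · have h1 := discrete_many3 d hC (fun r hr b => FA_W_final d hC hdiv hh1 r hr b) hb hh1 hs hMX (by linarith) hLb hψ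
        refine le_trans ?_ h1
        apply mul_le_mul_of_nonneg_right _ hpos.le
        linarith
      · push Not at hψ
        have h1 := discrete_few d hs hMX (by linarith) hLb hψ.le
        refine le_trans ?_ h1
        have h2 : β - θ - ε / 4 ≤ 1 := by linarith [hb.b2]
        calc (β - θ - ε / 4) * (X ^ θ * X * Real.log X) ≤ 1 * (X ^ θ * X * Real.log X) := by
              gcongr
          _ = _ := one_mul _)
  refine le_trans (le_of_eq ?_) hmain
  field_simp

/-- The full range, with an additive loss. -/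
theorem full_aux (ε : ℝ) (hε : 0 < ε) (hε1 : ε ≤ 1 / 12) :
    ∃ X₀ : ℝ, ∀ X : ℝ, X₀ ≤ X → ∀ H : ℝ, X ^ ε ≤ H → H ≤ X ^ (1 / 3 - ε) →
      1 / 2 * (H * Real.log (X / H ^ 3)) - ε * (H * Real.log X) ≤ meanSquare X H := by
  obtain ⟨Cτ, hCτ, hdiv⟩ := divisor_bound (ε / 1000) (by positivity)
  obtain ⟨X0, hX0⟩ := ev_Bg ε Cτ hε
  obtain ⟨X1, hX1⟩ := ev_C2 ε Cτ hε
  refine ⟨max (max X0 X1) 2, ?_⟩
  intro X hX H hH1 hH2
  have hB := hX0 X ((le_max_left _ _).trans ((le_max_left _ _).trans hX))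
  have hC := hX1 X ((le_max_right _ _).trans ((le_max_left _ _).trans hX))
  have hX2 : 2 ≤ X := (le_max_right _ _).trans hX
  have hXp : 0 < X := by linarith
  have hlogX : 0 < Real.log X := Real.log_pos (by linarith)
  have hHp : 0 < H := lt_of_lt_of_le (by positivity) hH1
  set θ : ℝ := Real.log H / Real.log X with hθ
  have hHθ : H = X ^ θ := by
    rw [rpow_def_of_pos hXp, hθ, mul_div_cancel₀ _ hlogX.ne', Real.exp_log hHp]
  have hlogH : Real.log H = θ * Real.log X := by rw [hθ]; field_simp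
  have hθ0 : ε ≤ θ := by
    have := Real.log_le_log (by positivity) hH1
    rw [Real.log_rpow hXp, hlogH] at this
    exact le_of_mul_le_mul_right this hlogX
  have hθ1 : θ ≤ 1 / 3 - ε := by
    have := Real.log_le_log hHp hH2
    rw [Real.log_rpow hXp, hlogH] at this
    exact le_of_mul_le_mul_right this hlogX
  have h1 := meanSquare_full ε Cτ X θ hε hε1 hCτ hB hC hdiv hθ0 hθ1
  rw [← hHθ] at h1
  refine le_trans ?_ h1
  have e1 : Real.log (X / H ^ 3) = (1 - 3 * θ) * Real.log X := by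
    rw [Real.log_div hXp.ne' (by positivity), Real.log_pow, hlogH]
    push_cast; ring
  rw [e1]
  have h2 : 0 ≤ H * Real.log X := by positivity
  nlinarith

/-- The full range. -/
theorem full_final (ε : ℝ) (hε : 0 < ε) :
    ∃ X₀ : ℝ, ∀ X : ℝ, X₀ ≤ X → ∀ H : ℝ, X ^ ε ≤ H → H ≤ X ^ (1 / 3 - ε) →
      (1 / 2 - ε) * H * Real.log (X / H ^ 3) ≤ meanSquare X H := by
  set δ : ℝ := min (ε ^ 2) (1 / 12) with hδ
  have hδ0 : 0 < δ := lt_min (by positivity) (by norm_num)
  have hδ1 : δ ≤ 1 / 12 := min_le_right _ _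
  have hδ2 : δ ≤ ε ^ 2 := min_le_left _ _
  obtain ⟨Xb, hb⟩ := full_aux δ hδ0 hδ1
  refine ⟨max Xb 2, ?_⟩
  intro X hX H hH hH2
  have hXb : Xb ≤ X := (le_max_left _ _).trans hX
  have hX2 : 2 ≤ X := (le_max_right _ _).trans hX
  have hXp : 0 < X := by linarith
  have hX1 : 1 < X := by linarith
  have hlogX : 0 < Real.log X := Real.log_pos hX1
  have hHp : 0 < H := lt_of_lt_of_le (by positivity) hH
  set θ : ℝ := Real.log H / Real.log X with hθ
  have hlogH : Real.log H = θ * Real.log X := by rw [hθ]; field_simp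
  have hθ0 : ε ≤ θ := by
    have := Real.log_le_log (by positivity) hH
    rw [Real.log_rpow hXp, hlogH] at this
    exact le_of_mul_le_mul_right this hlogX
  have e1 : Real.log (X / H ^ 3) = (1 - 3 * θ) * Real.log X := by
    rw [Real.log_div hXp.ne' (by positivity), Real.log_pow, hlogH]
    push_cast; ring
  rw [e1]
  have hHX : 0 < H * Real.log X := by positivity
  have hθ1 : θ ≤ 1 / 3 - ε := by
    have := Real.log_le_log hHp hH2
    rw [Real.log_rpow hXp, hlogH] at this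
    exact le_of_mul_le_mul_right this hlogX
  have hε6 : ε ≤ 1 / 6 := by linarith
  have hδ3 : δ ≤ ε / 6 := by nlinarith
  have h1 := hb X hXb H ((rpow_le_rpow_of_exponent_le hX1.le (by linarith)).trans hH)
    (hH2.trans (rpow_le_rpow_of_exponent_le hX1.le (by linarith)))
  rw [e1] at h1
  refine le_trans ?_ h1
  have h3 : (1 / 2 - ε) * (1 - 3 * θ) ≤ 1 / 2 * (1 - 3 * θ) - δ := by nlinarith
  calc (1 / 2 - ε) * H * ((1 - 3 * θ) * Real.log X) =
        ((1 / 2 - ε) * (1 - 3 * θ)) * (H * Real.log X) := by ring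
    _ ≤ (1 / 2 * (1 - 3 * θ) - δ) * (H * Real.log X) := by gcongr
    _ = _ := by ring

end Pool.Agent.Lib.MP_2a816b_nt
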