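import Mathlib
import Pool.Agent.Lib.MP_2a816b_nt.FunctA
import Pool.Agent.Lib.MP_2a816b_nt.Sums

/-!
# Wide windows: trigonometric lemmas and the difference of two windows
-/

open Finset Real

namespace Pool.Agent.Lib.MP_2a816b_nt

/-- lower bound of the kernel for `α ≤ 1/(2h)` -/
lemma D_lower_half (h : ℕ) (α : ℝ) (h0 : 0 < α) (h1 : α * (2 * h) ≤ 1) :
    (h : ℝ) / 2 ≤ ‖D h α‖ := by
  have hD := D_mul h α
  have h2 : ‖D h α‖ * ‖e α - 1‖ = ‖e (h * α) - 1‖ := by rw [← norm_mul, hD]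
  have h3 : ‖e α - 1‖ ≤ 2 * (π * α) := by
    rw [norm_e_sub_one]
    have := abs_sin_le_one (π * α)
    have h4 : |sin (π * α)| ≤ |π * α| := abs_sin_le_abs (x := π * α)
    rw [abs_of_pos (show 0 < π * α by positivity)] at h4
    linarith
  have h5 := four_nn_le (h * α)
  have h6 : nn (h * α) = h * α := by
    unfold nn
    rcases Nat.eq_zero_or_pos h with hh | hh
    · subst hh; simp
    have hr : (0 : ℝ) < h := by exact_mod_cast hh
    rcases lt_or_eq_of_le h1 with h7 | h7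
    · have h8 : round ((h : ℝ) * α) = 0 := by
        rw [round_eq_zero_iff]
        constructor
        · have : 0 < (h : ℝ) * α := by positivity
          linarith
        · linarith
      rw [h8, Int.cast_zero, sub_zero, abs_of_pos (by positivity)]
    · have h8 : (h : ℝ) * α = 1 / 2 := by linarith
      rw [h8]
      have h9 : round ((1 : ℝ) / 2) = 1 := by
        rw [round_eq]
        norm_num
      rw [h9]; norm_num
  rw [h6] at h5
  have hpi : π ≤ 4 := pi_le_four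
  have hn : 0 ≤ ‖D h α‖ := norm_nonneg _
  have h7 : 4 * (h * α) ≤ ‖D h α‖ * (2 * (π * α)) := by
    calc _ ≤ ‖e (h * α) - 1‖ := h5
      _ = ‖D h α‖ * ‖e α - 1‖ := h2.symm
      _ ≤ _ := by gcongr
  have h8 : 4 * (h * α) ≤ ‖D h α‖ * 8 * α := by
    calc _ ≤ ‖D h α‖ * (2 * (π * α)) := h7
      _ ≤ ‖D h α‖ * (2 * (4 * α)) := by gcongr
      _ = _ := by ring
  have h9 : (4 * h) * α ≤ (‖D h α‖ * 8) * α := by linarith
  have := le_of_mul_le_mul_right h9 h0
  linarith

/-- `∑_{a ≤ n} |e(aθ) - 1|² ≥ n/8` unless `θ` is very close to an integer -/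
lemma sum_e_sub_one (n : ℕ) (hn : 4 ≤ n) (θ : ℝ) (hθ : ∀ m : ℤ, 1 / (n : ℝ) ≤ |θ - m|) :
    (n : ℝ) / 8 ≤ ∑ a ∈ Ioc 0 n, ‖e (a * θ) - 1‖ ^ 2 := by
  have hnr : (4 : ℝ) ≤ n := by exact_mod_cast hn
  have hn0 : (0 : ℝ) < n := by linarith
  -- the step
  obtain ⟨k, hk1, hk2, hk3⟩ : ∃ k : ℕ, 1 ≤ k ∧ 2 * k ≤ n ∧ 1 / 4 ≤ nn (k * θ) := by
    set t : ℝ := nn θ with ht
    have ht0 : 1 / (n : ℝ) ≤ t := hθ (round θ)
    have htpos : 0 < t := lt_of_lt_of_le (by positivity) ht0
    by_cases hc : 1 / 4 ≤ t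
    · exact ⟨1, le_rfl, by omega, by rw [Nat.cast_one, one_mul]; exact hc⟩
    push Not at hc
    refine ⟨⌈1 / (4 * t)⌉₊, Nat.ceil_pos.2 (by positivity), ?_, ?_⟩
    · have h1 : (⌈1 / (4 * t)⌉₊ : ℝ) < 1 / (4 * t) + 1 := Nat.ceil_lt_add_one (by positivity)
      have h2 : 1 / (4 * t) ≤ n / 4 := by
        rw [div_le_iff₀ (by positivity)]
        rw [div_le_iff₀ hn0] at ht0
        nlinarith
      have h3 : (2 : ℝ) * ⌈1 / (4 * t)⌉₊ < n + 1 := by linarith
      have h4 : 2 * ⌈1 / (4 * t)⌉₊ < n + 1 := by exact_mod_cast h3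
      omega
    · set k := ⌈1 / (4 * t)⌉₊ with hk
      have h1 : (k : ℝ) < 1 / (4 * t) + 1 := Nat.ceil_lt_add_one (by positivity)
      have h0 : 1 / (4 * t) ≤ k := Nat.le_ceil _
      have h2 : 1 / 4 ≤ k * t := by
        rw [div_le_iff₀ (by positivity)] at h0
        linarith
      have h3 : k * t ≤ 1 / 2 := by
        have e1 : (1 / (4 * t) + 1) * t = 1 / 4 + t := by field_simp
        have e2 : (k : ℝ) * t ≤ (1 / (4 * t) + 1) * t := by gcongr
        linarith
      -- the distance of `kθ` to any integer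
      have h4 : |(k : ℝ) * θ - k * round θ| = k * t := by
        rw [← mul_sub, abs_mul, Nat.abs_cast]
        rfl
      set m : ℤ := round ((k : ℝ) * θ) with hm
      have h5 : nn (k * θ) = |(k : ℝ) * θ - m| := rfl
      rw [h5]
      by_cases hmk : m = k * round θ
      · have : ((m : ℤ) : ℝ) = k * round θ := by rw [hmk]; push_cast; ring
        rw [this, h4]; exact h2
      · have h6 : (1 : ℝ) ≤ |(m : ℝ) - k * round θ| := by
          have h7 : (m - k * round θ : ℤ) ≠ 0 := sub_ne_zero.2 hmk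
          have h8 : (1 : ℤ) ≤ |m - k * round θ| := Int.one_le_abs h7
          have h9 : ((1 : ℤ) : ℝ) ≤ ((|m - k * round θ| : ℤ) : ℝ) := by exact_mod_cast h8
          push_cast at h9
          exact h9
        have h7 : |(m : ℝ) - k * round θ| ≤ |(k : ℝ) * θ - m| + |(k : ℝ) * θ - k * round θ| := by
          have : (m : ℝ) - k * round θ = -((k : ℝ) * θ - m) + ((k : ℝ) * θ - k * round θ) := by ring
          rw [this]
          refine (abs_add_le _ _).trans ?_
          rw [abs_neg]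
        rw [h4] at h7
        linarith
  -- pairs
  set f : ℕ → ℝ := fun a => ‖e (a * θ) - 1‖ ^ 2 with hf
  have hf0 : ∀ a, 0 ≤ f a := fun a => by positivity
  have hpair : ∀ a : ℕ, 1 / 2 ≤ f a + f (a + k) := by
    intro a
    have h1 := four_nn_le (k * θ)
    have h2 : ‖e (k * θ) - 1‖ ≤ ‖e (a * θ) - 1‖ + ‖e ((a + k : ℕ) * θ) - 1‖ := by
      have h3 : e ((a + k : ℕ) * θ) = e (a * θ) * e (k * θ) := by
        rw [← e_add]; congr 1; push_cast; ring
      have h4 : e (a * θ) * (e (k * θ) - 1) = (e ((a + k : ℕ) * θ) - 1) - (e (a * θ) - 1) := by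
        rw [h3]; ring
      have h5 : ‖e (k * θ) - 1‖ = ‖e (a * θ) * (e (k * θ) - 1)‖ := by
        rw [norm_mul, norm_e, one_mul]
      rw [h5, h4]
      refine (norm_sub_le _ _).trans ?_
      linarith
    have h3 : 1 ≤ ‖e (a * θ) - 1‖ + ‖e ((a + k : ℕ) * θ) - 1‖ := by linarith
    simp only [hf]
    nlinarith [sq_nonneg (‖e (a * θ) - 1‖ - ‖e ((a + k : ℕ) * θ) - 1‖)]
  have h1 : ∑ a ∈ Ioc 0 (n - k), (f a + f (a + k)) ≤ 2 * ∑ a ∈ Ioc 0 n, f a := by
    rw [sum_add_distrib, two_mul]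
    apply add_le_add
    · apply sum_le_sum_of_subset_of_nonneg
      · intro a; rw [mem_Ioc, mem_Ioc]; omega
      · intro a _ _; exact hf0 a
    · have h2 : ∑ a ∈ Ioc 0 (n - k), f (a + k) = ∑ a ∈ (Ioc 0 (n - k)).image (fun a => a + k), f a := by
        rw [sum_image]
        intro a _ b _ hab
        simpa using hab
      rw [h2]
      apply sum_le_sum_of_subset_of_nonneg
      · intro a ha
        rw [mem_image] at ha
        obtain ⟨b, hb, rfl⟩ := ha
        rw [mem_Ioc] at hb ⊢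
        omega
      · intro a _ _; exact hf0 a
  have h2 : ((n - k : ℕ) : ℝ) * (1 / 2) ≤ ∑ a ∈ Ioc 0 (n - k), (f a + f (a + k)) := by
    calc _ = ∑ a ∈ Ioc 0 (n - k), (1 / 2 : ℝ) := by
          rw [sum_const, nsmul_eq_mul, Nat.card_Ioc, Nat.sub_zero]
      _ ≤ _ := sum_le_sum fun a _ => hpair a
  have h3 : (n : ℝ) / 2 ≤ ((n - k : ℕ) : ℝ) := by
    rw [Nat.cast_sub (by omega)]
    have : (2 : ℝ) * k ≤ n := by exact_mod_cast hk2
    linarith
  have h4 : ∑ a ∈ Ioc 0 n, ‖e (a * θ) - 1‖ ^ 2 = ∑ a ∈ Ioc 0 n, f a := rfl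
  rw [h4]
  linarith

/-- the difference of two windows of length `h` at distance `h0` -/
lemma win_diff (h h0 : ℕ) (H : ℝ) (s i : ℕ) :
    win h H s (i + h0) - win h H s i =
      ∑ u ∈ range h0, (vM (s + 1 + i + h + u) - vM (s + 1 + i + u)) := by
  unfold win
  rw [sum_sub_distrib]
  have h1 : ∑ u ∈ range (h0 + h), vM (s + 1 + i + u) =
      ∑ u ∈ range h0, vM (s + 1 + i + u) + ∑ u ∈ range h, vM (s + 1 + i + (h0 + u)) :=
    sum_range_add (fun u => vM (s + 1 + i + u)) h0 h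
  have h2 : ∑ u ∈ range (h + h0), vM (s + 1 + i + u) =
      ∑ u ∈ range h, vM (s + 1 + i + u) + ∑ u ∈ range h0, vM (s + 1 + i + (h + u)) :=
    sum_range_add (fun u => vM (s + 1 + i + u)) h h0
  have h3 : ∑ u ∈ range h, vM (s + 1 + (i + h0) + u) =
      ∑ u ∈ range h, vM (s + 1 + i + (h0 + u)) := by
    apply sum_congr rfl; intro u _; congr 1; ring
  have h4 : ∑ u ∈ range h0, vM (s + 1 + i + h + u) = ∑ u ∈ range h0, vM (s + 1 + i + (h + u)) := by
    apply sum_congr rfl; intro u _; congr 1; ring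
  rw [add_comm h0 h] at h1
  rw [h3, h4]
  linarith

/-- the difference of windows has bounded energy -/
lemma win_diff_energy (h h0 : ℕ) (H : ℝ) (s M M' : ℕ) (hM : M' + h0 ≤ M) :
    ∑ i ∈ range M', (win h H s (i + h0) - win h H s i) ^ 2 ≤
      4 * ∑ i ∈ range M, (win h H s i) ^ 2 := by
  set f : ℕ → ℝ := fun i => (win h H s i) ^ 2 with hf
  have hf0 : ∀ i, 0 ≤ f i := fun i => sq_nonneg _
  have h1 : ∑ i ∈ range M', f i ≤ ∑ i ∈ range M, f i := by
    apply sum_le_sum_of_subset_of_nonneg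
    · intro a; rw [mem_range, mem_range]; omega
    · intro a _ _; exact hf0 a
  have h2 : ∑ i ∈ range M', f (i + h0) ≤ ∑ i ∈ range M, f i := by
    have h3 : ∑ i ∈ range M', f (i + h0) = ∑ a ∈ (range M').image (fun a => a + h0), f a := by
      rw [sum_image]
      intro a _ b _ hab
      simpa using hab
    rw [h3]
    apply sum_le_sum_of_subset_of_nonneg
    · intro a ha
      rw [mem_image] at ha
      obtain ⟨b, hb, rfl⟩ := ha
      rw [mem_range] at hb ⊢
      omega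
    · intro a _ _; exact hf0 a
  have h3 : ∑ i ∈ range M', (win h H s (i + h0) - win h H s i) ^ 2 ≤
      ∑ i ∈ range M', (2 * f (i + h0) + 2 * f i) := by
    apply sum_le_sum; intro i _
    simp only [hf]
    nlinarith [sq_nonneg (win h H s (i + h0) + win h H s i)]
  rw [sum_add_distrib, ← mul_sum, ← mul_sum] at h3
  linarith

end Pool.Agent.Lib.MP_2a816b_nt
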