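import Mathlib
import Pool.Agent.Lib.MP_2a816b_nt.WideA

/-!
# Wide windows: the exponential sum of the difference of two windows
-/

open Finset Real

namespace Pool.Agent.Lib.MP_2a816b_nt

lemma Sp_sub (t K : ℕ) (α : ℝ) :
    Sp (t + K) α - Sp t α = ∑ i ∈ range K, (vM (t + 1 + i) : ℂ) * e ((t + 1 + i : ℕ) * α) := by
  have h1 : Sp (t + K) α = Sp t α + ∑ n ∈ Ioc t (t + K), (vM n : ℂ) * e (n * α) := by
    unfold Sp
    rw [← Finset.sum_Ioc_consecutive _ (Nat.zero_le t) (Nat.le_add_right t K)]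
  rw [h1, add_sub_cancel_left]
  have h2 : Ioc t (t + K) = (range K).image (fun i => t + 1 + i) := by
    ext n
    rw [mem_Ioc, mem_image]
    constructor
    · rintro ⟨a, b⟩
      exact ⟨n - (t + 1), by rw [mem_range]; omega, by omega⟩
    · rintro ⟨i, hi, rfl⟩
      rw [mem_range] at hi
      omega
  rw [h2, sum_image (fun a _ b _ hab => by omega)]

lemma sum_shift (t K : ℕ) (α : ℝ) :
    ∑ i ∈ range K, (vM (t + 1 + i) : ℂ) * e (i * α) =
      e (-((t + 1 : ℕ) * α)) * (Sp (t + K) α - Sp t α) := by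
  rw [Sp_sub, mul_sum]
  apply sum_congr rfl; intro i _
  have : e (i * α) = e (-((t + 1 : ℕ) * α)) * e ((t + 1 + i : ℕ) * α) := by
    rw [← e_add]; congr 1; push_cast; ring
  rw [this]; ring

lemma Sp_near (N u : ℕ) (α Lg : ℝ) (hLg : ∀ n, n ≤ N + u → Real.log n ≤ Lg) :
    ‖Sp (N + u) α - Sp N α‖ ≤ u * Lg := by
  rw [Sp_sub]
  refine (norm_sum_le _ _).trans ?_
  calc _ ≤ ∑ i ∈ range u, Lg := by
        apply sum_le_sum; intro i hi
        rw [mem_range] at hi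
        rw [norm_mul, norm_e, mul_one, Complex.norm_real, norm_eq_abs, abs_of_nonneg (vM_nonneg _)]
        exact (vM_le_log _).trans (hLg _ (by omega))
    _ = u * Lg := by rw [sum_const, card_range, nsmul_eq_mul]

/-- the exponential sum of the difference of two windows -/
lemma diff_fourier (h h0 s M' : ℕ) (H α Lg : ℝ)
    (hLg : ∀ n, n ≤ s + h + h0 + M' → Real.log n ≤ Lg) (hLg0 : 0 ≤ Lg) :
    ‖∑ i ∈ range M', ((win h H s (i + h0) - win h H s i : ℝ) : ℂ) * e (i * α) -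
      (D h0 (-α) * e (-((s + 1 : ℕ) * α))) *
        (e (-(h * α)) * (Sp (s + h + M') α - Sp (s + h) α) - (Sp (s + M') α - Sp s α))‖ ≤
      4 * h0 * (h0 * Lg) := by
  have h1 : ∑ i ∈ range M', ((win h H s (i + h0) - win h H s i : ℝ) : ℂ) * e (i * α) =
      ∑ u ∈ range h0, (e (-((s + h + u + 1 : ℕ) * α)) *
        (Sp (s + h + u + M') α - Sp (s + h + u) α) -
        e (-((s + u + 1 : ℕ) * α)) * (Sp (s + u + M') α - Sp (s + u) α)) := by
    have e1 : ∀ i ∈ range M', ((win h H s (i + h0) - win h H s i : ℝ) : ℂ) * e (i * α) =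
        ∑ u ∈ range h0, ((vM (s + h + u + 1 + i) : ℂ) * e (i * α) -
          (vM (s + u + 1 + i) : ℂ) * e (i * α)) := by
      intro i _
      rw [win_diff]
      push_cast
      rw [sum_mul]
      apply sum_congr rfl; intro u _
      have a1 : s + 1 + i + h + u = s + h + u + 1 + i := by ring
      have a2 : s + 1 + i + u = s + u + 1 + i := by ring
      rw [a1, a2]
      ring
    rw [sum_congr rfl e1, sum_comm]
    apply sum_congr rfl; intro u _
    rw [sum_sub_distrib, sum_shift, sum_shift]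
  have h2 : (D h0 (-α) * e (-((s + 1 : ℕ) * α))) *
        (e (-(h * α)) * (Sp (s + h + M') α - Sp (s + h) α) - (Sp (s + M') α - Sp s α)) =
      ∑ u ∈ range h0, (e (-((s + h + u + 1 : ℕ) * α)) *
        (Sp (s + h + M') α - Sp (s + h) α) -
        e (-((s + u + 1 : ℕ) * α)) * (Sp (s + M') α - Sp s α)) := by
    unfold D
    rw [sum_mul, sum_mul]
    apply sum_congr rfl; intro u _
    have a1 : e (-((s + h + u + 1 : ℕ) * α)) =
        e (u * -α) * e (-((s + 1 : ℕ) * α)) * e (-(h * α)) := by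
      rw [← e_add, ← e_add]; congr 1; push_cast; ring
    have a2 : e (-((s + u + 1 : ℕ) * α)) = e (u * -α) * e (-((s + 1 : ℕ) * α)) := by
      rw [← e_add]; congr 1; push_cast; ring
    rw [a1, a2]
    ring
  rw [h1, h2, ← sum_sub_distrib]
  refine (norm_sum_le _ _).trans ?_
  calc _ ≤ ∑ u ∈ range h0, 4 * (h0 * Lg) := by
        apply sum_le_sum; intro u hu
        rw [mem_range] at hu
        have hur : (u : ℝ) ≤ h0 := by exact_mod_cast hu.le
        have b1 := Sp_near (s + h + M') u α Lg (fun n hn => hLg n (by omega))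
        have b2 := Sp_near (s + h) u α Lg (fun n hn => hLg n (by omega))
        have b3 := Sp_near (s + M') u α Lg (fun n hn => hLg n (by omega))
        have b4 := Sp_near s u α Lg (fun n hn => hLg n (by omega))
        have c1 : s + h + M' + u = s + h + u + M' := by ring
        have c2 : s + M' + u = s + u + M' := by ring
        rw [c1] at b1
        rw [c2] at b3
        have hu2 : (u : ℝ) * Lg ≤ h0 * Lg := by gcongr
        have e1 : e (-((s + h + u + 1 : ℕ) * α)) * (Sp (s + h + u + M') α - Sp (s + h + u) α) -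
            e (-((s + u + 1 : ℕ) * α)) * (Sp (s + u + M') α - Sp (s + u) α) -
            (e (-((s + h + u + 1 : ℕ) * α)) * (Sp (s + h + M') α - Sp (s + h) α) -
            e (-((s + u + 1 : ℕ) * α)) * (Sp (s + M') α - Sp s α)) =
            e (-((s + h + u + 1 : ℕ) * α)) * ((Sp (s + h + u + M') α - Sp (s + h + M') α) -
              (Sp (s + h + u) α - Sp (s + h) α)) -
            e (-((s + u + 1 : ℕ) * α)) * ((Sp (s + u + M') α - Sp (s + M') α) -
              (Sp (s + u) α - Sp s α)) := by ring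
        rw [e1]
        refine (norm_sub_le _ _).trans ?_
        rw [norm_mul, norm_mul, norm_e, norm_e, one_mul, one_mul]
        have d1 := norm_sub_le (Sp (s + h + u + M') α - Sp (s + h + M') α)
              (Sp (s + h + u) α - Sp (s + h) α)
        have d2 := norm_sub_le (Sp (s + u + M') α - Sp (s + M') α) (Sp (s + u) α - Sp s α)
        linarith
    _ = 4 * h0 * (h0 * Lg) := by
        rw [sum_const, card_range, nsmul_eq_mul]; ring

/-- the sum `ψ(N)` -/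
noncomputable def ps0 (N : ℕ) : ℝ := ∑ n ∈ Ioc 0 N, vM n

lemma ps0_sub (t K : ℕ) : ps0 (t + K) - ps0 t = ∑ n ∈ Ioc t (t + K), vM n := by
  unfold ps0
  rw [← Finset.sum_Ioc_consecutive _ (Nat.zero_le t) (Nat.le_add_right t K)]
  ring

lemma ps0_near (t K : ℕ) (Lg : ℝ) (hLg : ∀ n, n ≤ t + K → Real.log n ≤ Lg) :
    0 ≤ ps0 (t + K) - ps0 t ∧ ps0 (t + K) - ps0 t ≤ K * Lg := by
  rw [ps0_sub]
  constructor
  · exact sum_nonneg fun n _ => vM_nonneg n
  · calc _ ≤ ∑ n ∈ Ioc t (t + K), Lg := by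
          apply sum_le_sum; intro n hn
          rw [mem_Ioc] at hn
          exact (vM_le_log n).trans (hLg n hn.2)
      _ = K * Lg := by
          rw [sum_const, Nat.card_Ioc, nsmul_eq_mul, Nat.add_sub_cancel_left]

/-- lower bound at one fraction -/
lemma diff_lower (h h0 s M' : ℕ) (H α Lg : ℝ) (G : ℂ) (E : ℝ)
    (hLg : ∀ n, n ≤ s + h + h0 + M' → Real.log n ≤ Lg) (hLg0 : 0 ≤ Lg)
    (hE : ∀ N ∈ ({s + h + M', s + h, s + M', s} : Finset ℕ), ‖Sp N α - G * ps0 N‖ ≤ E) :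
    ‖e (-(h * α)) - 1‖ ^ 2 * ‖D h0 α‖ * ‖G‖ * (ps0 (s + M') - ps0 s) ≤
      ‖∑ i ∈ range M', ((win h H s (i + h0) - win h H s i : ℝ) : ℂ) * e (i * α)‖ *
        ‖e (-(h * α)) - 1‖ + 2 * (4 * h0 * (h0 * Lg) + 4 * h0 * E + h0 * ‖G‖ * (h * Lg)) := by
  set F : ℂ := ∑ i ∈ range M', ((win h H s (i + h0) - win h H s i : ℝ) : ℂ) * e (i * α) with hF
  set u : ℂ := D h0 (-α) * e (-((s + 1 : ℕ) * α)) with hu
  have hun : ‖u‖ = ‖D h0 α‖ := by
    rw [hu, norm_mul, norm_e, mul_one, norm_D_neg]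
  have hunle : ‖u‖ ≤ h0 := by rw [hun]; exact norm_D_le _ _
  have h1 := diff_fourier h h0 s M' H α Lg hLg hLg0
  rw [← hF, ← hu] at h1
  have q1 := hE (s + h + M') (by simp)
  have q2 := hE (s + h) (by simp)
  have q3 := hE (s + M') (by simp)
  have q4 := hE s (by simp)
  set z : ℂ := e (-(h * α)) with hz
  have hzn : ‖z‖ = 1 := norm_e _
  set P : ℝ := ps0 (s + M') - ps0 s with hP
  set δ : ℝ := (ps0 (s + h + M') - ps0 (s + M')) - (ps0 (s + h) - ps0 s) with hδ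
  have hδ1 : |δ| ≤ h * Lg := by
    have a1 := ps0_near (s + M') h Lg (fun n hn => hLg n (by omega))
    have a2 := ps0_near s h Lg (fun n hn => hLg n (by omega))
    have c1 : s + M' + h = s + h + M' := by ring
    rw [c1] at a1
    rw [hδ, abs_le]
    constructor <;> linarith [a1.1, a1.2, a2.1, a2.2]
  have hP0 : 0 ≤ P := (ps0_near s M' Lg (fun n hn => hLg n (by omega))).1
  -- the main term
  have h2 : z * (Sp (s + h + M') α - Sp (s + h) α) - (Sp (s + M') α - Sp s α) =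
      G * (z - 1) * P + (G * z * δ + (z * ((Sp (s + h + M') α - G * ps0 (s + h + M')) -
        (Sp (s + h) α - G * ps0 (s + h))) - ((Sp (s + M') α - G * ps0 (s + M')) -
        (Sp s α - G * ps0 s)))) := by
    rw [hP, hδ]
    push_cast
    ring
  have hEr : ‖G * z * δ + (z * ((Sp (s + h + M') α - G * ps0 (s + h + M')) -
        (Sp (s + h) α - G * ps0 (s + h))) - ((Sp (s + M') α - G * ps0 (s + M')) -
        (Sp s α - G * ps0 s)))‖ ≤ ‖G‖ * (h * Lg) + 4 * E := by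
    refine (norm_add_le _ _).trans ?_
    apply add_le_add
    · rw [norm_mul, norm_mul, hzn, mul_one, Complex.norm_real, norm_eq_abs]
      gcongr
    · refine (norm_sub_le _ _).trans ?_
      rw [norm_mul, hzn, one_mul]
      have d1 := norm_sub_le (Sp (s + h + M') α - G * ps0 (s + h + M'))
        (Sp (s + h) α - G * ps0 (s + h))
      have d2 := norm_sub_le (Sp (s + M') α - G * ps0 (s + M')) (Sp s α - G * ps0 s)
      linarith
  set er : ℂ := G * z * δ + (z * ((Sp (s + h + M') α - G * ps0 (s + h + M')) -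
        (Sp (s + h) α - G * ps0 (s + h))) - ((Sp (s + M') α - G * ps0 (s + M')) -
        (Sp s α - G * ps0 s))) with her
  rw [h2] at h1
  have h3 : ‖u * (G * (z - 1) * P)‖ ≤ ‖F‖ + (4 * h0 * (h0 * Lg) + h0 * (‖G‖ * (h * Lg) + 4 * E)) := by
    have e1 : u * (G * (z - 1) * P) = F - (F - u * (G * (z - 1) * P + er)) - u * er := by ring
    rw [e1]
    refine (norm_sub_le _ _).trans ?_
    have e2 := norm_sub_le F (F - u * (G * (z - 1) * P + er))
    have e3 : ‖u * er‖ ≤ h0 * (‖G‖ * (h * Lg) + 4 * E) := by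
      rw [norm_mul]; gcongr
    linarith
  have h4 : ‖u * (G * (z - 1) * P)‖ = ‖D h0 α‖ * ‖G‖ * ‖z - 1‖ * P := by
    have e1 : ‖u * (G * (z - 1) * P)‖ = ‖u‖ * (‖G‖ * ‖z - 1‖ * ‖((P : ℝ) : ℂ)‖) := by
      rw [norm_mul u, norm_mul (G * (z - 1)), norm_mul G]
    rw [e1, hun, Complex.norm_real, norm_eq_abs, abs_of_nonneg hP0]
    ring
  rw [h4] at h3
  have h5 : ‖z - 1‖ ≤ 2 := by
    refine (norm_sub_le _ _).trans ?_
    rw [hzn]; norm_num
  have h50 : 0 ≤ ‖z - 1‖ := norm_nonneg _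
  have hE0 : 0 ≤ E := (norm_nonneg _).trans q1
  set R : ℝ := 4 * h0 * (h0 * Lg) + h0 * (‖G‖ * (h * Lg) + 4 * E) with hR
  have hR0 : 0 ≤ R := by positivity
  calc ‖z - 1‖ ^ 2 * ‖D h0 α‖ * ‖G‖ * P = (‖D h0 α‖ * ‖G‖ * ‖z - 1‖ * P) * ‖z - 1‖ := by ring
    _ ≤ (‖F‖ + R) * ‖z - 1‖ := by gcongr
    _ = ‖F‖ * ‖z - 1‖ + R * ‖z - 1‖ := by ring
    _ ≤ ‖F‖ * ‖z - 1‖ + R * 2 := by gcongr
    _ = _ := by rw [hR]; ring

lemma gq_prime (p : ℕ) (hp : p.Prime) : ‖gq p‖ = 1 / ((p : ℝ) - 1) := by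
  rw [norm_gq p hp.prime.squarefree, Nat.totient_prime hp, Nat.cast_sub hp.one_lt.le, Nat.cast_one]

/-- The main inequality for wide windows. -/
theorem wide_main (MM GG : Finset ℕ) (B h h0 s M M' : ℕ) (H Lg : ℝ) (E : ℕ → ℝ)
    (hGM : GG ⊆ MM) (hh0 : 0 < h0) (hM : M' + h0 ≤ M)
    (hpr : ∀ p ∈ MM, p.Prime ∧ 8 * h0 ≤ p ∧ p ≤ B)
    (hgood : ∀ p ∈ GG, ∀ m : ℤ, 1 / ((p / (2 * h0) : ℕ) : ℝ) ≤ |(h : ℝ) / p - m|)
    (hLg : ∀ n, n ≤ s + h + h0 + M' → Real.log n ≤ Lg) (hLg0 : 0 ≤ Lg)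
    (hE : ∀ p ∈ MM, ∀ a ∈ Ioc 0 (p / (2 * h0)), ∀ N ∈ ({s + h + M', s + h, s + M', s} : Finset ℕ),
      ‖Sp N ((a : ℝ) / p) - gq p * ps0 N‖ ≤ E p)
    (hErr : ∑ p ∈ MM, (4 * B * (h0 * Lg) + 4 * B * E p + 2 * (h * Lg)) ≤
      GG.card * (ps0 (s + M') - ps0 s) / 128) :
    (GG.card * (ps0 (s + M') - ps0 s) / 128) ^ 2 ≤
      72 * (M' + (B : ℝ) ^ 2) * (MM.card * B / h0) * ∑ i ∈ range M, (win h H s i) ^ 2 := by
  classical
  have hh0r : (0 : ℝ) < h0 := by exact_mod_cast hh0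
  set P : ℝ := ps0 (s + M') - ps0 s with hP
  have hP0 : 0 ≤ P := (ps0_near s M' Lg (fun n hn => hLg n (by omega))).1
  set F : ℝ → ℂ := fun α => ∑ i ∈ range M', ((win h H s (i + h0) - win h H s i : ℝ) : ℂ) *
    e (i * α) with hF
  set A : ℕ → ℕ := fun p => p / (2 * h0) with hA
  have hAle : ∀ p, (A p : ℝ) * (2 * h0) ≤ p := by
    intro p
    have : p / (2 * h0) * (2 * h0) ≤ p := Nat.div_mul_le_self _ _
    have h2 : ((p / (2 * h0) * (2 * h0) : ℕ) : ℝ) ≤ p := by exact_mod_cast this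
    push_cast at h2
    exact h2
  have hA4 : ∀ p ∈ MM, 4 ≤ A p := by
    intro p hp
    have := (hpr p hp).2.1
    simp only [hA]
    rw [Nat.le_div_iff_mul_le (by omega)]
    omega
  have hAge : ∀ p ∈ MM, (p : ℝ) ≤ 4 * h0 * A p := by
    intro p hp
    have h4 := hA4 p hp
    have h1 : p < (A p + 1) * (2 * h0) := by
      simp only [hA]
      exact Nat.lt_mul_of_div_lt (Nat.lt_succ_self _) (by omega)
    have h2 : (p : ℝ) < (A p + 1) * (2 * h0) := by exact_mod_cast h1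
    have h3 : (4 : ℝ) ≤ A p := by exact_mod_cast h4
    nlinarith
  -- one prime
  have hone : ∀ p ∈ GG, P / 64 ≤ ∑ a ∈ Ioc 0 (A p),
      ‖e (-(h * ((a : ℝ) / p))) - 1‖ ^ 2 * ‖D h0 ((a : ℝ) / p)‖ * ‖gq p‖ * P := by
    intro p hp
    have hpM := hGM hp
    obtain ⟨hpp, hp8, hpB⟩ := hpr p hpM
    have hp0 : (0 : ℝ) < p := by exact_mod_cast hpp.pos
    have hp1 : (0 : ℝ) < (p : ℝ) - 1 := by
      have : (1 : ℝ) < p := by exact_mod_cast hpp.one_lt
      linarith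
    have hs := sum_e_sub_one (A p) (hA4 p hpM) ((h : ℝ) / p) (hgood p hp)
    have hs2 : ∑ a ∈ Ioc 0 (A p), ‖e ((a : ℝ) * ((h : ℝ) / p)) - 1‖ ^ 2 =
        ∑ a ∈ Ioc 0 (A p), ‖e (-(h * ((a : ℝ) / p))) - 1‖ ^ 2 := by
      apply sum_congr rfl; intro a _
      rw [norm_e_sub_one, norm_e_sub_one]
      have : π * -(h * ((a : ℝ) / p)) = -(π * ((a : ℝ) * ((h : ℝ) / p))) := by ring
      rw [this, sin_neg, abs_neg]
    rw [hs2] at hs
    have h1 : ∀ a ∈ Ioc 0 (A p), ‖e (-(h * ((a : ℝ) / p))) - 1‖ ^ 2 * (h0 / 2 * (1 / p) * P) ≤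
        ‖e (-(h * ((a : ℝ) / p))) - 1‖ ^ 2 * ‖D h0 ((a : ℝ) / p)‖ * ‖gq p‖ * P := by
      intro a ha
      rw [mem_Ioc] at ha
      have ha0 : (0 : ℝ) < a := by exact_mod_cast ha.1
      have ha1 : (a : ℝ) ≤ A p := by exact_mod_cast ha.2
      have hD := D_lower_half h0 ((a : ℝ) / p) (by positivity) (by
        have := hAle p
        rw [div_mul_eq_mul_div, div_le_one hp0]
        calc (a : ℝ) * (2 * h0) ≤ A p * (2 * h0) := by gcongr
          _ ≤ p := this)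
      have hg : 1 / (p : ℝ) ≤ ‖gq p‖ := by
        rw [gq_prime p hpp]
        apply one_div_le_one_div_of_le hp1
        linarith
      calc _ ≤ ‖e (-(h * ((a : ℝ) / p))) - 1‖ ^ 2 * (‖D h0 ((a : ℝ) / p)‖ * ‖gq p‖ * P) := by
            gcongr
        _ = _ := by ring
    refine le_trans ?_ (sum_le_sum h1)
    rw [← sum_mul]
    have h2 := hAge p hpM
    have h3 : 0 ≤ h0 / 2 * (1 / (p : ℝ)) * P := by positivity
    calc P / 64 = (p / (4 * h0)) / 8 * (h0 / 2 * (1 / (p : ℝ)) * P) := by field_simp; ring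
      _ ≤ (A p : ℝ) / 8 * (h0 / 2 * (1 / (p : ℝ)) * P) := by
          gcongr
          rw [div_le_iff₀ (by positivity)]
          linarith
      _ ≤ _ := by gcongr
  -- sum over the good primes
  have h1 : GG.card * P / 64 ≤ ∑ p ∈ MM, ∑ a ∈ Ioc 0 (A p),
      ‖e (-(h * ((a : ℝ) / p))) - 1‖ ^ 2 * ‖D h0 ((a : ℝ) / p)‖ * ‖gq p‖ * P := by
    calc GG.card * P / 64 = ∑ p ∈ GG, P / 64 := by rw [sum_const, nsmul_eq_mul]; ring
      _ ≤ _ := sum_le_sum hone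
      _ ≤ _ := by
          apply sum_le_sum_of_subset_of_nonneg hGM
          intro p _ _
          positivity
  have h2 : ∀ p ∈ MM, ∑ a ∈ Ioc 0 (A p),
      ‖e (-(h * ((a : ℝ) / p))) - 1‖ ^ 2 * ‖D h0 ((a : ℝ) / p)‖ * ‖gq p‖ * P ≤
      ∑ a ∈ Ioc 0 (A p), ‖F ((a : ℝ) / p)‖ * ‖e (-(h * ((a : ℝ) / p))) - 1‖ +
      (4 * B * (h0 * Lg) + 4 * B * E p + 2 * (h * Lg)) := by
    intro p hp
    obtain ⟨hpp, hp8, hpB⟩ := hpr p hp
    have hp0 : (0 : ℝ) < p := by exact_mod_cast hpp.pos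
    have hp2 : (2 : ℝ) ≤ p := by exact_mod_cast hpp.two_le
    have hpB' : (p : ℝ) ≤ B := by exact_mod_cast hpB
    have hA1 : 1 ∈ Ioc 0 (A p) := by
      rw [mem_Ioc]; have := hA4 p hp; omega
    have hE0 : 0 ≤ E p := (norm_nonneg _).trans (hE p hp 1 hA1 s (by simp))
    have h3 : ∀ a ∈ Ioc 0 (A p),
        ‖e (-(h * ((a : ℝ) / p))) - 1‖ ^ 2 * ‖D h0 ((a : ℝ) / p)‖ * ‖gq p‖ * P ≤
        ‖F ((a : ℝ) / p)‖ * ‖e (-(h * ((a : ℝ) / p))) - 1‖ +
        2 * (4 * h0 * (h0 * Lg) + 4 * h0 * E p + h0 * ‖gq p‖ * (h * Lg)) := by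
      intro a ha
      exact diff_lower h h0 s M' H ((a : ℝ) / p) Lg (gq p) (E p) hLg hLg0 (hE p hp a ha)
    refine (sum_le_sum h3).trans ?_
    rw [sum_add_distrib, sum_const, Nat.card_Ioc, Nat.sub_zero, nsmul_eq_mul]
    have hAB : (A p : ℝ) * (2 * h0) ≤ B := (hAle p).trans hpB'
    have hg : (A p : ℝ) * (2 * h0) * ‖gq p‖ ≤ 2 := by
      rw [gq_prime p hpp, mul_one_div, div_le_iff₀ (by linarith)]
      have := hAle p
      linarith
    have hgn : 0 ≤ ‖gq p‖ := norm_nonneg _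
    have e1 : (A p : ℝ) * (2 * (4 * h0 * (h0 * Lg) + 4 * h0 * E p + h0 * ‖gq p‖ * (h * Lg))) =
        4 * ((A p : ℝ) * (2 * h0)) * (h0 * Lg) + 4 * ((A p : ℝ) * (2 * h0)) * E p +
        ((A p : ℝ) * (2 * h0) * ‖gq p‖) * (h * Lg) := by ring
    rw [e1]
    gcongr
  have h3 : GG.card * P / 128 ≤ ∑ p ∈ MM, ∑ a ∈ Ioc 0 (A p),
      ‖F ((a : ℝ) / p)‖ * ‖e (-(h * ((a : ℝ) / p))) - 1‖ := by
    have := h1.trans (sum_le_sum h2)
    rw [sum_add_distrib] at this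
    linarith
  -- Cauchy-Schwarz
  set W : ℝ := ∑ i ∈ range M, (win h H s i) ^ 2 with hW
  have h4 : (∑ p ∈ MM, ∑ a ∈ Ioc 0 (A p),
      ‖F ((a : ℝ) / p)‖ * ‖e (-(h * ((a : ℝ) / p))) - 1‖) ^ 2 ≤
      (∑ p ∈ MM, ∑ a ∈ Ioc 0 (A p), ‖F ((a : ℝ) / p)‖ ^ 2) *
      (∑ p ∈ MM, ∑ a ∈ Ioc 0 (A p), ‖e (-(h * ((a : ℝ) / p))) - 1‖ ^ 2) := by
    rw [sum_sigma' MM (fun p => Ioc 0 (A p)) (fun p a => ‖F ((a : ℝ) / p)‖ *
        ‖e (-(h * ((a : ℝ) / p))) - 1‖),
      sum_sigma' MM (fun p => Ioc 0 (A p)) (fun p a => ‖F ((a : ℝ) / p)‖ ^ 2),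
      sum_sigma' MM (fun p => Ioc 0 (A p)) (fun p a => ‖e (-(h * ((a : ℝ) / p))) - 1‖ ^ 2)]
    exact sum_mul_sq_le_sq_mul_sq _ _ _
  have h5 : ∑ p ∈ MM, ∑ a ∈ Ioc 0 (A p), ‖e (-(h * ((a : ℝ) / p))) - 1‖ ^ 2 ≤
      2 * (MM.card * B / h0) := by
    calc _ ≤ ∑ p ∈ MM, ∑ a ∈ Ioc 0 (A p), (4 : ℝ) := by
          apply sum_le_sum; intro p _
          apply sum_le_sum; intro a _
          have e1 : ‖e (-(h * ((a : ℝ) / p))) - 1‖ ≤ 2 := by
            refine (norm_sub_le _ _).trans ?_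
            rw [norm_e]; norm_num
          have e2 : 0 ≤ ‖e (-(h * ((a : ℝ) / p))) - 1‖ := norm_nonneg _
          nlinarith
      _ ≤ ∑ p ∈ MM, (2 * (B / h0) : ℝ) := by
          apply sum_le_sum; intro p hp
          rw [sum_const, Nat.card_Ioc, Nat.sub_zero, nsmul_eq_mul]
          have e1 := hAle p
          have e2 : (p : ℝ) ≤ B := by exact_mod_cast (hpr p hp).2.2
          rw [← mul_div_assoc, le_div_iff₀ hh0r]
          linarith
      _ = _ := by rw [sum_const, nsmul_eq_mul]; ring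
  have h6 : ∑ p ∈ MM, ∑ a ∈ Ioc 0 (A p), ‖F ((a : ℝ) / p)‖ ^ 2 ≤
      36 * (M' + (B : ℝ) ^ 2) * W := by
    have hls := farey_sieve MM B (fun p hp => ⟨(hpr p hp).1.pos, (hpr p hp).2.2⟩) M'
      (fun i => ((win h H s (i + h0) - win h H s i : ℝ) : ℂ))
    have e1 : ∑ p ∈ MM, ∑ a ∈ Ioc 0 (A p), ‖F ((a : ℝ) / p)‖ ^ 2 ≤
        ∑ p ∈ MM, ∑ a ∈ Cop p, ‖F ((a : ℝ) / p)‖ ^ 2 := by
      apply sum_le_sum; intro p hp
      apply sum_le_sum_of_subset_of_nonneg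
      · intro a ha
        rw [mem_Ioc] at ha
        unfold Cop
        rw [mem_filter, mem_range]
        obtain ⟨hpp, hp8, hpB⟩ := hpr p hp
        have hlt : a < p := by
          have : A p < p := Nat.div_lt_self hpp.pos (by omega)
          omega
        refine ⟨hlt, ?_⟩
        rw [Nat.coprime_comm, hpp.coprime_iff_not_dvd]
        exact fun hd => absurd (Nat.le_of_dvd (by omega) hd) (by omega)
      · intro a _ _; positivity
    have e2 := win_diff_energy h h0 H s M M' hM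
    have e3 : ∑ n ∈ range M', ‖((win h H s (n + h0) - win h H s n : ℝ) : ℂ)‖ ^ 2 =
        ∑ i ∈ range M', (win h H s (i + h0) - win h H s i) ^ 2 := by
      apply sum_congr rfl; intro i _
      rw [Complex.norm_real, norm_eq_abs, sq_abs]
    rw [e3] at hls
    calc _ ≤ ∑ p ∈ MM, ∑ a ∈ Cop p, ‖F ((a : ℝ) / p)‖ ^ 2 := e1
      _ ≤ 9 * (M' + (B : ℝ) ^ 2) * ∑ i ∈ range M', (win h H s (i + h0) - win h H s i) ^ 2 := hls
      _ ≤ 9 * (M' + (B : ℝ) ^ 2) * (4 * W) := by gcongr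
      _ = _ := by ring
  have hW0 : 0 ≤ W := sum_nonneg fun i _ => sq_nonneg _
  have h30 : 0 ≤ GG.card * P / 128 := by positivity
  calc (GG.card * P / 128) ^ 2 ≤ (∑ p ∈ MM, ∑ a ∈ Ioc 0 (A p),
      ‖F ((a : ℝ) / p)‖ * ‖e (-(h * ((a : ℝ) / p))) - 1‖) ^ 2 := by gcongr
    _ ≤ (36 * (M' + (B : ℝ) ^ 2) * W) * (2 * (MM.card * B / h0)) := by
        refine h4.trans ?_
        gcongr
    _ = _ := by ring

end Pool.Agent.Lib.MP_2a816b_nt
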