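import Mathlib
import Pool.Agent.Lib.MP_2a816b_nt.WideB

/-!
# Wide windows: the supremum bound for all lengths, and the exceptional primes
-/

open Finset Real

namespace Pool.Agent.Lib.MP_2a816b_nt

lemma ps0_le (N : ℕ) (Lg : ℝ) (hLg : ∀ n, n ≤ N → Real.log n ≤ Lg) : ps0 N ≤ N * Lg := by
  have h := (ps0_near 0 N Lg (fun n hn => hLg n (by omega))).2
  rw [zero_add] at h
  have h0 : ps0 0 = 0 := by unfold ps0; simp
  rw [h0, sub_zero] at h
  exact h

lemma norm_Sp_le_ps0 (N : ℕ) (α : ℝ) : ‖Sp N α‖ ≤ ps0 N := by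
  unfold Sp ps0
  refine (norm_sum_le _ _).trans (le_of_eq ?_)
  apply sum_congr rfl; intro n _
  rw [norm_mul, norm_e, mul_one, Complex.norm_real, norm_eq_abs, abs_of_nonneg (vM_nonneg n)]

lemma Sp_zero_eq (N : ℕ) : Sp N 0 = ps0 N := by
  unfold Sp ps0
  push_cast
  apply sum_congr rfl; intro n _
  rw [mul_zero, e_zero, mul_one]

lemma mods_primes (A B : ℕ) (y : ℝ) (hy : y ≤ A + 1) : Mods (PrI A B) B 1 1 y := by
  unfold PrI
  refine ⟨?_, ?_, ?_, ?_, ?_, ?_⟩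
  · intro d hd; exact (mem_filter.1 hd).2.prime.squarefree
  · intro d hd; exact (mem_filter.1 hd).2.one_lt
  · intro d hd; exact (mem_Ioc.1 (mem_filter.1 hd).1).2
  · intro d hd
    have h1 := (mem_Ioc.1 (mem_filter.1 hd).1).1
    have h2 : (A : ℝ) + 1 ≤ d := by exact_mod_cast h1
    linarith
  · intro d hd
    have h1 := (mem_filter.1 hd).2
    rw [Nat.Prime.primeFactors h1, card_singleton]
  · intro d _; exact Nat.coprime_one_left d

/-- the supremum bound for primes, length at least `√X` -/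
lemma sup_primes_big (T κ X y : ℝ) (A B N L : ℕ) (hT : 1 ≤ T) (hTX : T ^ 3 = X) (hκ0 : 0 < κ)
    (hκ1 : κ ≤ 1) (hyT : y = T * κ ^ 2) (hTκ : 1 ≤ T * κ ^ 4) (hyA : y ≤ A + 1)
    (hB : (B : ℝ) ≤ 4 * y) (hN : (N : ℝ) ≤ 4 * X) (hBN : B ≤ N) (hN1 : 1 ≤ N)
    (hL : N + 1 < 2 ^ L) (c : ℕ → ℕ) (hc : ∀ p ∈ PrI A B, c p ∈ Cop p) :
    ∑ p ∈ PrI A B, ‖Sp N ((c p : ℝ) / p) - gq p * ps0 N‖ ≤ 110000 * L ^ 6 * (X * κ) := by
  have hT0 : 0 < T := by linarith
  have hX0 : 0 < X := by rw [← hTX]; positivity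
  have hy0 : 0 < y := by rw [hyT]; positivity
  have hL1 : 1 ≤ L := by
    by_contra hcon
    have : L = 0 := by omega
    subst this
    simp at hL
  have hLr : (1 : ℝ) ≤ L := by exact_mod_cast hL1
  have hNr : (1 : ℝ) ≤ N := by exact_mod_cast hN1
  -- the cube root
  obtain ⟨U, hU1, hU2, hU3⟩ : ∃ U : ℕ, 1 ≤ U ∧ U * U * U ≤ N ∧ (N : ℝ) ≤ 8 * U ^ 3 := by
    have hex : ∃ U : ℕ, N < (U + 1) ^ 3 := ⟨N, by
      calc N < N + 1 := Nat.lt_succ_self N
        _ ≤ (N + 1) ^ 3 := Nat.le_self_pow (by norm_num) _⟩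
    classical
    set U := Nat.find hex with hU
    have h1 : N < (U + 1) ^ 3 := Nat.find_spec hex
    have h2 : 1 ≤ U := by
      by_contra hcon
      have h0 : U = 0 := by omega
      rw [h0] at h1
      simp at h1
      omega
    have h3 : U ^ 3 ≤ N := by
      have := Nat.find_min hex (show U - 1 < Nat.find hex by omega)
      push Not at this
      rw [Nat.sub_add_cancel h2] at this
      exact this
    refine ⟨U, h2, by calc U * U * U = U ^ 3 := by ring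
      _ ≤ N := h3, ?_⟩
    have h4 : (U + 1) ^ 3 ≤ (2 * U) ^ 3 := Nat.pow_le_pow_left (by omega) 3
    have h5 : N ≤ (2 * U) ^ 3 := by omega
    have h6 : (N : ℝ) ≤ ((2 * U) ^ 3 : ℕ) := by exact_mod_cast h5
    push_cast at h6
    calc (N : ℝ) ≤ (2 * U) ^ 3 := h6
      _ = 8 * U ^ 3 := by ring
  have hUr : (1 : ℝ) ≤ U := by exact_mod_cast hU1
  have hU0 : (0 : ℝ) < U := by linarith
  have hU3r : (U : ℝ) ^ 3 ≤ N := by
    have : ((U * U * U : ℕ) : ℝ) ≤ N := by exact_mod_cast hU2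
    push_cast at this
    calc (U : ℝ) ^ 3 = U * U * U := by ring
      _ ≤ N := this
  have hU2T : (U : ℝ) ≤ 2 * T := by
    by_contra hcon
    push Not at hcon
    have h1 : (2 * T) ^ 3 < (U : ℝ) ^ 3 := by gcongr
    have h2 : (2 * T) ^ 3 = 8 * X := by rw [← hTX]; ring
    rw [h2] at h1
    linarith
  have hmods := mods_primes A B y hyA
  have hs := sup_bound (PrI A B) B 1 1 y hy0 hmods (by
    intro m hm p hp
    have h1 : p.Prime := Nat.prime_of_mem_primeFactors hp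
    have h2 := hmods.ge m hm
    have h3 : m.Prime := (mem_filter.1 hm).2
    rw [Nat.Prime.primeFactors h3, mem_singleton] at hp
    rw [hp]; exact h2) one_pos 0 N U L hU1 hU2 hL hBN c hc
  have e1 : ∑ p ∈ PrI A B, ‖Sp N ((c p : ℝ) / p) - gq p * ps0 N‖ =
      ∑ m ∈ PrI A B, ‖Sp N (((0 : ℕ) : ℝ) / ((1 : ℕ) : ℝ) + (c m : ℝ) / m) -
        gq m * Sp N (((0 : ℕ) : ℝ) / ((1 : ℕ) : ℝ))‖ := by
    apply sum_congr rfl; intro m _
    have : ((0 : ℕ) : ℝ) / ((1 : ℕ) : ℝ) = 0 := by norm_num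
    rw [this, zero_add, Sp_zero_eq]
  rw [e1]
  refine hs.trans ?_
  -- numerics
  have hBr : (B : ℝ) ≤ 4 * (T * κ ^ 2) := by rw [← hyT]; exact hB
  have hB0 : (0 : ℝ) ≤ B := by positivity
  have hN4 : (N : ℝ) ≤ 4 * T ^ 3 := by rw [hTX]; exact hN
  have t1 : (U : ℝ) * B ^ 2 ≤ 32 * (X * κ) := by
    calc (U : ℝ) * B ^ 2 ≤ (2 * T) * (4 * (T * κ ^ 2)) ^ 2 := by gcongr
      _ = 32 * (X * κ) * κ ^ 3 := by rw [← hTX]; ring
      _ ≤ 32 * (X * κ) * 1 := by
          gcongr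
          exact pow_le_one₀ hκ0.le hκ1
      _ = _ := by ring
  have t2 : (N : ℝ) * (1 / √y) ≤ 4 * (X * κ) := by
    have h1 : 1 / √y ≤ κ := by
      rw [div_le_iff₀ (sqrt_pos.2 hy0)]
      have h2 : (1 : ℝ) ≤ (κ * √y) ^ 2 := by
        rw [mul_pow, sq_sqrt hy0.le, hyT]
        calc (1 : ℝ) ≤ T * κ ^ 4 := hTκ
          _ = _ := by ring
      by_contra hcon
      push Not at hcon
      have h3 : 0 ≤ κ * √y := by positivity
      nlinarith
    calc (N : ℝ) * (1 / √y) ≤ (4 * X) * κ := by gcongr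
      _ = _ := by ring
  have t3 : (N : ℝ) * √((B : ℝ) / U) ≤ 23 * (X * κ) := by
    have h1 : ((N : ℝ) * √((B : ℝ) / U)) ^ 2 ≤ (23 * (X * κ)) ^ 2 := by
      rw [mul_pow, sq_sqrt (by positivity)]
      have h2 : (N : ℝ) / U ≤ 32 * T ^ 2 := by
        rw [div_le_iff₀ hU0]
        calc (N : ℝ) ≤ 8 * U ^ 3 := hU3
          _ = 8 * U ^ 2 * U := by ring
          _ ≤ 8 * (2 * T) ^ 2 * U := by gcongr
          _ = _ := by ring
      calc (N : ℝ) ^ 2 * (B / U) = N * (N / U) * B := by ring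
        _ ≤ (4 * T ^ 3) * (32 * T ^ 2) * (4 * (T * κ ^ 2)) := by gcongr
        _ = 512 * (X * κ) ^ 2 := by rw [← hTX]; ring
        _ ≤ (23 * (X * κ)) ^ 2 := by
            have : 0 ≤ (X * κ) ^ 2 := sq_nonneg _
            linarith
    exact le_of_sq_le_sq h1 (by positivity)
  have t4 : (N : ℝ) * √((B : ℝ) ^ 3 / N) ≤ 16 * (X * κ) := by
    have h1 : ((N : ℝ) * √((B : ℝ) ^ 3 / N)) ^ 2 ≤ (16 * (X * κ)) ^ 2 := by
      rw [mul_pow, sq_sqrt (by positivity)]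
      calc (N : ℝ) ^ 2 * (B ^ 3 / N) = N * B ^ 3 := by field_simp
        _ ≤ (4 * T ^ 3) * (4 * (T * κ ^ 2)) ^ 3 := by gcongr
        _ = 256 * (X * κ) ^ 2 * κ ^ 4 := by rw [← hTX]; ring
        _ ≤ 256 * (X * κ) ^ 2 * 1 := by
            gcongr
            exact pow_le_one₀ hκ0.le hκ1
        _ = _ := by ring
    exact le_of_sq_le_sq h1 (by positivity)
  have t5 : (B : ℝ) ≤ 4 * (X * κ) := by
    calc (B : ℝ) ≤ 4 * (T * κ ^ 2) := hBr
      _ = 4 * (T * κ) * κ := by ring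
      _ ≤ 4 * (T * 1) * κ := by gcongr
      _ ≤ 4 * X * κ := by
          have : T ≤ X := by
            rw [← hTX]
            exact le_self_pow₀ hT (by norm_num)
          rw [mul_one]
          gcongr
      _ = _ := by ring
  set Z : ℝ := X * κ with hZ
  have hZ0 : 0 ≤ Z := by positivity
  have hLp : ∀ k : ℕ, k ≤ 6 → (L : ℝ) ^ k ≤ L ^ 6 := fun k hk => pow_le_pow_right₀ hLr hk
  have f1 : (2 : ℝ) ^ 1 * (1 + L) * (16 * 2 ^ 1 * L ^ 2 * ((1 : ℕ) : ℝ) * U * B ^ 2 +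
      288 * 2 ^ 1 * L ^ 5 * √((1 : ℕ) : ℝ) * N * (1 / √y + √((B : ℝ) / U) +
        √((B : ℝ) ^ 3 / N))) + B * ((1 + 4 ^ 1) * (((1 : ℕ) : ℝ) * L)) =
      2 * (1 + L) * (32 * L ^ 2 * (U * B ^ 2) + 576 * L ^ 5 * (N * (1 / √y) +
        N * √((B : ℝ) / U) + N * √((B : ℝ) ^ 3 / N))) + 5 * L * B := by
    rw [Nat.cast_one, sqrt_one]
    ring
  rw [f1]
  have f2 : (1 : ℝ) + L ≤ 2 * L := by linarith
  calc _ ≤ 2 * (2 * L) * (32 * L ^ 2 * (32 * Z) + 576 * L ^ 5 * (4 * Z + 23 * Z + 16 * Z)) +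
        5 * L * (4 * Z) := by gcongr
    _ = (4096 * L ^ 3 + 99072 * L ^ 6 + 20 * L ^ 1) * Z := by ring
    _ ≤ (4096 * L ^ 6 + 99072 * L ^ 6 + 20 * L ^ 6) * Z := by
        have a3 := hLp 3 (by norm_num)
        have a1 := hLp 1 (by norm_num)
        apply mul_le_mul_of_nonneg_right _ hZ0
        linarith
    _ ≤ 110000 * L ^ 6 * Z := by
        have : 0 ≤ (L : ℝ) ^ 6 * Z := by positivity
        nlinarith

/-- the supremum bound for primes, all lengths -/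
lemma sup_primes (T κ X y : ℝ) (A B N L : ℕ) (hT : 1 ≤ T) (hTX : T ^ 3 = X) (hκ0 : 0 < κ)
    (hκ1 : κ ≤ 1) (hyT : y = T * κ ^ 2) (hTκ : 1 ≤ T * κ ^ 4) (hyA : y ≤ A + 1)
    (hB : (B : ℝ) ≤ 4 * y) (hN : (N : ℝ) ≤ 4 * X)
    (hL : N + 1 < 2 ^ L) (c : ℕ → ℕ) (hc : ∀ p ∈ PrI A B, c p ∈ Cop p) :
    ∑ p ∈ PrI A B, ‖Sp N ((c p : ℝ) / p) - gq p * ps0 N‖ ≤ 110000 * L ^ 6 * (X * κ) := by
  have hT0 : 0 < T := by linarith
  by_cases hBN : B ≤ N ∧ 1 ≤ N
  · exact sup_primes_big T κ X y A B N L hT hTX hκ0 hκ1 hyT hTκ hyA hB hN hBN.1 hBN.2 hL c hc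
  have hL1 : 1 ≤ L := by
    by_contra hcon
    have : L = 0 := by omega
    subst this
    simp at hL
  have hLr : (1 : ℝ) ≤ L := by exact_mod_cast hL1
  have hNB : (N : ℝ) ≤ 4 * T * κ := by
    have h1 : (N : ℝ) ≤ max (B : ℝ) 0 := by
      rcases not_and_or.1 hBN with h | h
      · have : (N : ℝ) ≤ B := by exact_mod_cast (show N ≤ B by omega)
        exact this.trans (le_max_left _ _)
      · have : N = 0 := by omega
        rw [this]; simp
    have h2 : max (B : ℝ) 0 = B := max_eq_left (by positivity)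
    rw [h2] at h1
    calc (N : ℝ) ≤ B := h1
      _ ≤ 4 * y := hB
      _ = 4 * T * κ * κ := by rw [hyT]; ring
      _ ≤ 4 * T * κ * 1 := by gcongr
      _ = _ := by ring
  have hps : ps0 N ≤ N * L := ps0_le N L (fun n hn => log_le_L hL (by omega))
  have hps0 : 0 ≤ ps0 N := sum_nonneg fun n _ => vM_nonneg n
  have h1 : ∀ p ∈ PrI A B, ‖Sp N ((c p : ℝ) / p) - gq p * ps0 N‖ ≤ 2 * (N * L) := by
    intro p hp
    have hpp : p.Prime := (mem_filter.1 hp).2
    have hp2 : (2 : ℝ) ≤ p := by exact_mod_cast hpp.two_le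
    refine (norm_sub_le _ _).trans ?_
    have e1 := norm_Sp_le_ps0 N ((c p : ℝ) / p)
    have e2 : ‖gq p * ps0 N‖ ≤ ps0 N := by
      rw [norm_mul, Complex.norm_real, norm_eq_abs, abs_of_nonneg hps0, gq_prime p hpp]
      have : 1 / ((p : ℝ) - 1) ≤ 1 := by
        rw [div_le_one (by linarith)]; linarith
      exact mul_le_of_le_one_left hps0 this
    linarith
  refine (sum_le_sum h1).trans ?_
  rw [sum_const, nsmul_eq_mul]
  have hcard := (mods_primes A B y hyA).card_le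
  have hB2 : (B : ℝ) ≤ 4 * T := by
    calc (B : ℝ) ≤ 4 * y := hB
      _ = 4 * T * κ ^ 2 := by rw [hyT]; ring
      _ ≤ 4 * T * 1 := by
          gcongr
          exact pow_le_one₀ hκ0.le hκ1
      _ = _ := by ring
  have hL6 : (L : ℝ) ≤ L ^ 6 := le_self_pow₀ hLr (by norm_num)
  have hTT : T ^ 2 ≤ X := by
    rw [← hTX]
    exact pow_le_pow_right₀ hT (by norm_num)
  calc ((PrI A B).card : ℝ) * (2 * (N * L)) ≤ (4 * T) * (2 * ((4 * T * κ) * L)) := by
        gcongr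
        exact hcard.trans hB2
    _ = 32 * L * (T ^ 2 * κ) := by ring
    _ ≤ 32 * L ^ 6 * (X * κ) := by gcongr
    _ ≤ _ := by
        have : 0 ≤ (L : ℝ) ^ 6 * (X * κ) := by
          have : 0 ≤ X := by rw [← hTX]; positivity
          positivity
        nlinarith

/-- number of prime divisors above `y` -/
lemma card_big_primes (j k : ℕ) (y : ℝ) (hy : 1 ≤ y) (hj : 0 < j) (hyj : (j : ℝ) < y ^ (k + 1)) :
    (j.primeFactors.filter (fun p : ℕ => y ≤ (p : ℝ))).card ≤ k := by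
  classical
  set P := j.primeFactors.filter (fun p : ℕ => y ≤ (p : ℝ)) with hP
  have h1 : ∏ p ∈ P, p ∣ j :=
    (Finset.prod_dvd_prod_of_subset _ _ _ (filter_subset _ _)).trans (Nat.prod_primeFactors_dvd j)
  have h2 : ((∏ p ∈ P, p : ℕ) : ℝ) ≤ j := by exact_mod_cast Nat.le_of_dvd hj h1
  have h3 : y ^ P.card ≤ ((∏ p ∈ P, p : ℕ) : ℝ) := by
    push_cast
    rw [← Finset.prod_const]
    apply Finset.prod_le_prod
    · intro p _; linarith
    · intro p hp; exact (mem_filter.1 hp).2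
  by_contra hcon
  push Not at hcon
  have h4 : y ^ (k + 1) ≤ y ^ P.card := pow_le_pow_right₀ hy hcon
  linarith

open Classical in
/-- the exceptional primes are few -/
lemma card_bad (MM : Finset ℕ) (h h0 k : ℕ) (y : ℝ) (hy : 1 ≤ y) (hh0 : 0 < h0)
    (hMM : ∀ p ∈ MM, p.Prime ∧ 8 * h0 ≤ p ∧ y ≤ (p : ℝ)) (hh : 4 * h0 < h)
    (hyh : ((h + 4 * h0 : ℕ) : ℝ) ≤ y ^ (k + 1)) :
    ((MM.filter (fun p => ¬ ∀ m : ℤ, 1 / ((p / (2 * h0) : ℕ) : ℝ) ≤ |(h : ℝ) / p - m|)).card : ℝ) ≤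
      8 * h0 * k := by
  set BAD := MM.filter (fun p => ¬ ∀ m : ℤ, 1 / ((p / (2 * h0) : ℕ) : ℝ) ≤ |(h : ℝ) / p - m|)
    with hBAD
  have hsub : BAD ⊆ (Ioo (h - 4 * h0) (h + 4 * h0)).biUnion
      (fun j => j.primeFactors.filter (fun p : ℕ => y ≤ (p : ℝ))) := by
    intro p hp
    rw [hBAD, mem_filter] at hp
    obtain ⟨hpM, hbad⟩ := hp
    obtain ⟨hpp, hp8, hyp⟩ := hMM p hpM
    push Not at hbad
    obtain ⟨m, hm⟩ := hbad
    have hp0 : (0 : ℝ) < p := by exact_mod_cast hpp.pos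
    have hh0r : (0 : ℝ) < h0 := by exact_mod_cast hh0
    have hA4 : 4 ≤ p / (2 * h0) := by
      rw [Nat.le_div_iff_mul_le (by omega)]; omega
    have h1 : p < (p / (2 * h0) + 1) * (2 * h0) :=
      Nat.lt_mul_of_div_lt (Nat.lt_succ_self _) (by omega)
    set A := p / (2 * h0) with hA
    have h4 : (4 : ℝ) ≤ A := by exact_mod_cast hA4
    have hA0 : (0 : ℝ) < A := by linarith
    have h2 : (p : ℝ) < (A + 1) * (2 * h0) := by exact_mod_cast h1
    have h3 : (p : ℝ) ≤ 4 * h0 * A := by nlinarith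
    have h5 : |(h : ℝ) - m * p| < 4 * h0 := by
      have e1 : (h : ℝ) - m * p = ((h : ℝ) / p - m) * p := by field_simp
      rw [e1, abs_mul, abs_of_pos hp0]
      calc |(h : ℝ) / p - m| * p < (1 / A) * p := by gcongr
        _ = p / A := by ring
        _ ≤ 4 * h0 := by rw [div_le_iff₀ hA0]; linarith
    rw [abs_lt] at h5
    have h6 : (0 : ℝ) < m * p := by
      have : (4 : ℝ) * h0 < h := by exact_mod_cast hh
      linarith
    have h7 : (0 : ℝ) < m := by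
      by_contra hcon
      push Not at hcon
      have := mul_nonpos_of_nonpos_of_nonneg hcon hp0.le
      linarith
    have h8 : 0 < m := by exact_mod_cast h7
    obtain ⟨n, hn⟩ := Int.eq_ofNat_of_zero_le h8.le
    have hnr : (m : ℝ) = n := by rw [hn]; simp
    rw [hnr] at h5
    rw [mem_biUnion]
    refine ⟨n * p, ?_, ?_⟩
    · rw [mem_Ioo]
      constructor
      · have e1 : (h : ℝ) < n * p + 4 * h0 := by linarith
        have e2 : h < n * p + 4 * h0 := by exact_mod_cast e1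
        omega
      · have e1 : (n : ℝ) * p < h + 4 * h0 := by linarith
        exact_mod_cast e1
    · rw [mem_filter, Nat.mem_primeFactors]
      refine ⟨⟨hpp, Dvd.intro_left n rfl, ?_⟩, hyp⟩
      have hn0 : 0 < n := by
        have : (0 : ℤ) < n := by rw [hn] at h8; exact_mod_cast h8
        exact_mod_cast this
      have := hpp.pos
      positivity
  have h1 : BAD.card ≤ ∑ j ∈ Ioo (h - 4 * h0) (h + 4 * h0),
      (j.primeFactors.filter (fun p : ℕ => y ≤ (p : ℝ))).card :=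
    (card_le_card hsub).trans card_biUnion_le
  have h2 : ∑ j ∈ Ioo (h - 4 * h0) (h + 4 * h0),
      (j.primeFactors.filter (fun p : ℕ => y ≤ (p : ℝ))).card ≤
      ∑ j ∈ Ioo (h - 4 * h0) (h + 4 * h0), k := by
    apply sum_le_sum; intro j hj
    rw [mem_Ioo] at hj
    apply card_big_primes j k y hy (by omega)
    refine lt_of_lt_of_le ?_ hyh
    exact_mod_cast hj.2
  have h3 : BAD.card ≤ 8 * h0 * k := by
    refine (h1.trans h2).trans ?_
    rw [sum_const, smul_eq_mul, Nat.card_Ioo]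
    gcongr
    omega
  exact_mod_cast h3

end Pool.Agent.Lib.MP_2a816b_nt
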