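import Mathlib
import Pool.Agent.Lib.MP_2a816b_nt.WideC
import Pool.Agent.Lib.MP_2a816b_nt.Params
import Pool.Agent.Lib.MP_2a816b_nt.Final2

/-!
# Wide windows: the choice of the parameters and the final bound
-/

open Finset Real Filter

namespace Pool.Agent.Lib.MP_2a816b_nt

/-- the list of eventual inequalities for wide windows -/
structure WBig (ε X : ℝ) : Prop where
  one : 1 ≤ X
  four : 4 ≤ Real.log X
  y8 : 10 ^ 8 ≤ X ^ (1 / 3 - 5 * ε / 8)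
  a1 : 16 * X ^ (1 / 3 - 3 * ε / 4) ≤ X ^ (1 / 3 - 5 * ε / 8)
  a2 : 16 * X ^ (1 / 3 - 3 * ε / 4) ≤ X ^ (1 / 3 - ε / 2)
  a3 : 8 * X ≤ X ^ (5 / 3 - 25 * ε / 8)
  a4 : 64 * Real.log X * X ^ (1 / 3 - 3 * ε / 4) ≤ X ^ (1 / 3 - 5 * ε / 8)
  a5 : 10 ^ 6 * Real.log X ^ 2 * X ^ (1 - ε) ≤ X
  a6 : 10 ^ 6 * Real.log X ^ 2 * X ^ (2 / 3 - 11 * ε / 8) ≤ X
  a7 : 10 ^ 13 * Real.log X ^ 7 * X ^ (1 - 5 * ε / 16) ≤ X
  a8 : 2 * 10 ^ 9 * Real.log X ^ 2 * X ^ (1 / 3 - ε) ≤ X ^ (1 / 3 - 3 * ε / 4)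
  a9 : 4 ≤ X ^ (1 / 3 - 3 * ε / 4)
  a10 : 64 * X ^ (2 / 3 - 5 * ε / 4) ≤ X
  a11 : 16 * X ^ (1 / 3 - 5 * ε / 8) ≤ X

lemma eventually_wbig (ε : ℝ) (hε : 0 < ε) (hε6 : ε ≤ 1 / 6) :
    ∃ X0 : ℝ, ∀ X, X0 ≤ X → WBig ε X := by
  rw [← eventually_atTop]
  have E0 := ev_pow (10 ^ 8) 0 (1 / 3 - 5 * ε / 8) 0 (by linarith)
  have E1 := ev_pow 16 (1 / 3 - 3 * ε / 4) (1 / 3 - 5 * ε / 8) 0 (by linarith)
  have E2 := ev_pow 16 (1 / 3 - 3 * ε / 4) (1 / 3 - ε / 2) 0 (by linarith)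
  have E3 := ev_pow 8 1 (5 / 3 - 25 * ε / 8) 0 (by linarith)
  have E4 := ev_pow 64 (1 / 3 - 3 * ε / 4) (1 / 3 - 5 * ε / 8) 1 (by linarith)
  have E5 := ev_pow (10 ^ 6) (1 - ε) 1 2 (by linarith)
  have E6 := ev_pow (10 ^ 6) (2 / 3 - 11 * ε / 8) 1 2 (by linarith)
  have E7 := ev_pow (10 ^ 13) (1 - 5 * ε / 16) 1 7 (by linarith)
  have E8 := ev_pow (2 * 10 ^ 9) (1 / 3 - ε) (1 / 3 - 3 * ε / 4) 2 (by linarith)
  have E9 := ev_pow 4 0 (1 / 3 - 3 * ε / 4) 0 (by linarith)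
  have E10 := ev_pow 64 (2 / 3 - 5 * ε / 4) 1 0 (by linarith)
  have E11 := ev_pow 16 (1 / 3 - 5 * ε / 8) 1 0 (by linarith)
  have Elog : ∀ᶠ X : ℝ in atTop, 4 ≤ Real.log X := Real.tendsto_log_atTop.eventually_ge_atTop 4
  filter_upwards [E0, E1, E2, E3, E4, E5, E6, E7, E8, E9, E10, E11, Elog,
    eventually_ge_atTop (1 : ℝ)] with X e0 e1 e2 e3 e4 e5 e6 e7 e8 e9 e10 e11 el h1
  simp only [pow_zero, mul_one, pow_one, rpow_one, rpow_zero] at e0 e1 e2 e3 e4 e5 e6 e7 e8 e9 e10 e11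
  exact ⟨h1, el, e0, e1, e2, e3, e4, e5, e6, e7, e8, e9, e10, e11⟩

/-- numerics for the error term -/
lemma wide_err_numeric (X ell L y κ η0 h0 h B card G P SE Y1 : ℝ) (hX : 0 < X) (hell : 4 ≤ ell)
    (hL0 : 0 ≤ L) (hL : L ≤ 3 * ell) (hy : 0 < y) (hκ0 : 0 < κ) (hh0 : 0 ≤ h0) (hh0' : h0 ≤ η0)
    (hh : 0 ≤ h) (hh' : h ≤ 2 * Y1) (hB0 : 0 ≤ B) (hB : B ≤ 4 * y) (hc0 : 0 ≤ card)
    (hc : card ≤ 4 * y) (hG : y / (2 * ell) ≤ G) (hP : X / 2 ≤ P)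
    (hSE : SE ≤ 4 * (110000 * L ^ 6 * (X * κ)))
    (a5 : 10 ^ 6 * ell ^ 2 * Y1 ≤ X) (a6 : 10 ^ 6 * ell ^ 2 * (y * η0) ≤ X)
    (a7 : 10 ^ 13 * ell ^ 7 * κ ≤ 1) :
    card * (4 * B * (h0 * L) + 2 * (h * L)) + 4 * B * SE ≤ G * P / 128 := by
  have hell0 : 0 < ell := by linarith
  have hG0 : 0 ≤ G := le_trans (by positivity) hG
  have hη0 : 0 ≤ η0 := hh0.trans hh0'
  have hY1 : 0 ≤ Y1 := by linarith
  have hSE' : SE ≤ 4 * (110000 * (3 * ell) ^ 6 * (X * κ)) := by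
    refine hSE.trans ?_
    gcongr
  have hR : y * X / (512 * ell) ≤ G * P / 128 := by
    calc y * X / (512 * ell) = (y / (2 * ell)) * (X / 2) / 128 := by field_simp; ring
      _ ≤ G * P / 128 := by gcongr
  refine le_trans ?_ hR
  rw [le_div_iff₀ (by positivity)]
  have k1 : card * (4 * B * (h0 * L)) ≤ (4 * y) * (4 * (4 * y) * (η0 * (3 * ell))) := by gcongr
  have k2 : card * (2 * (h * L)) ≤ (4 * y) * (2 * ((2 * Y1) * (3 * ell))) := by gcongr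
  have hSE0 : 0 ≤ 4 * (110000 * (3 * ell) ^ 6 * (X * κ)) := by positivity
  have k3 : 4 * B * SE ≤ 4 * (4 * y) * (4 * (110000 * (3 * ell) ^ 6 * (X * κ))) := by
    calc 4 * B * SE ≤ 4 * B * (4 * (110000 * (3 * ell) ^ 6 * (X * κ))) := by gcongr
      _ ≤ _ := by gcongr
  have m1 : (4 * y) * (4 * (4 * y) * (η0 * (3 * ell))) * (512 * ell) ≤ y * X * (1 / 5) := by
    have : (4 * y) * (4 * (4 * y) * (η0 * (3 * ell))) * (512 * ell) =
        y * (98304 * (ell ^ 2 * (y * η0))) := by ring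
    rw [this]
    have e1 : 98304 * (ell ^ 2 * (y * η0)) ≤ X * (1 / 5) := by
      have : 0 ≤ ell ^ 2 * (y * η0) := by positivity
      nlinarith
    calc y * (98304 * (ell ^ 2 * (y * η0))) ≤ y * (X * (1 / 5)) := by gcongr
      _ = _ := by ring
  have m2 : (4 * y) * (2 * ((2 * Y1) * (3 * ell))) * (512 * ell) ≤ y * X * (1 / 5) := by
    have : (4 * y) * (2 * ((2 * Y1) * (3 * ell))) * (512 * ell) =
        y * (24576 * (ell ^ 2 * Y1)) := by ring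
    rw [this]
    have e1 : 24576 * (ell ^ 2 * Y1) ≤ X * (1 / 5) := by
      have : 0 ≤ ell ^ 2 * Y1 := by positivity
      nlinarith
    calc y * (24576 * (ell ^ 2 * Y1)) ≤ y * (X * (1 / 5)) := by gcongr
      _ = _ := by ring
  have m3 : 4 * (4 * y) * (4 * (110000 * (3 * ell) ^ 6 * (X * κ))) * (512 * ell) ≤
      y * X * (3 / 5) := by
    have : 4 * (4 * y) * (4 * (110000 * (3 * ell) ^ 6 * (X * κ))) * (512 * ell) =
        y * X * (2627665920000 * (ell ^ 7 * κ)) := by ring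
    rw [this]
    have e1 : 2627665920000 * (ell ^ 7 * κ) ≤ 3 / 5 := by
      have : 0 ≤ ell ^ 7 * κ := by positivity
      nlinarith
    gcongr
  calc (card * (4 * B * (h0 * L) + 2 * (h * L)) + 4 * B * SE) * (512 * ell) =
      card * (4 * B * (h0 * L)) * (512 * ell) + card * (2 * (h * L)) * (512 * ell) +
        4 * B * SE * (512 * ell) := by ring
    _ ≤ (4 * y) * (4 * (4 * y) * (η0 * (3 * ell))) * (512 * ell) +
        (4 * y) * (2 * ((2 * Y1) * (3 * ell))) * (512 * ell) +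
        4 * (4 * y) * (4 * (110000 * (3 * ell) ^ 6 * (X * κ))) * (512 * ell) := by gcongr
    _ ≤ _ := by linarith

/-- numerics for the conclusion -/
lemma wide_end_numeric (X ell y h0 B card G P M' W Z : ℝ) (hX : 0 < X) (hell : 4 ≤ ell)
    (hy : 0 < y) (hh0 : 0 < h0) (hB0 : 0 ≤ B) (hB : B ≤ 4 * y) (hc0 : 0 ≤ card)
    (hc : card ≤ 4 * y) (hG : y / (2 * ell) ≤ G) (hP : X / 2 ≤ P) (hM0 : 0 ≤ M') (hM : M' ≤ X)
    (hyX : 16 * y ^ 2 ≤ X) (hW0 : 0 ≤ W)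
    (hmain : (G * P / 128) ^ 2 ≤ 72 * (M' + B ^ 2) * (card * B / h0) * W)
    (hZ : 10 ^ 9 * ell ^ 2 * Z ≤ h0) : X * Z ≤ W := by
  have hell0 : 0 < ell := by linarith
  have hG0 : 0 ≤ G := le_trans (by positivity) hG
  have hR : y * X / (512 * ell) ≤ G * P / 128 := by
    calc y * X / (512 * ell) = (y / (2 * ell)) * (X / 2) / 128 := by field_simp; ring
      _ ≤ G * P / 128 := by gcongr
  have h1 : (y * X / (512 * ell)) ^ 2 ≤ 72 * (X + X) * ((4 * y) * (4 * y) / h0) * W := by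
    calc (y * X / (512 * ell)) ^ 2 ≤ (G * P / 128) ^ 2 := by gcongr
      _ ≤ 72 * (M' + B ^ 2) * (card * B / h0) * W := hmain
      _ ≤ 72 * (X + X) * ((4 * y) * (4 * y) / h0) * W := by
          have e1 : B ^ 2 ≤ X := by
            calc B ^ 2 ≤ (4 * y) ^ 2 := by gcongr
              _ = 16 * y ^ 2 := by ring
              _ ≤ X := hyX
          gcongr
  have h2 : (y ^ 2 * X) * (X * h0) ≤ (y ^ 2 * X) * (603979776 * ell ^ 2 * W) := by
    have e1 : (y * X / (512 * ell)) ^ 2 = (y ^ 2 * X) * X / (262144 * ell ^ 2) := by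
      field_simp; ring
    have e2 : 72 * (X + X) * ((4 * y) * (4 * y) / h0) * W = (y ^ 2 * X) * (2304 * W) / h0 := by
      field_simp; ring
    rw [e1, e2, div_le_div_iff₀ (by positivity) hh0] at h1
    calc (y ^ 2 * X) * (X * h0) = y ^ 2 * X * X * h0 := by ring
      _ ≤ y ^ 2 * X * (2304 * W) * (262144 * ell ^ 2) := h1
      _ = _ := by ring
  have h3 : X * h0 ≤ 603979776 * ell ^ 2 * W := le_of_mul_le_mul_left h2 (by positivity)
  have h4 : (10 ^ 9 * ell ^ 2) * (X * Z) ≤ (10 ^ 9 * ell ^ 2) * W := by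
    calc (10 ^ 9 * ell ^ 2) * (X * Z) = X * (10 ^ 9 * ell ^ 2 * Z) := by ring
      _ ≤ X * h0 := by gcongr
      _ ≤ 603979776 * ell ^ 2 * W := h3
      _ ≤ _ := by
          have : 0 ≤ ell ^ 2 * W := by positivity
          nlinarith
  exact le_of_mul_le_mul_left h4 (by positivity)

/-- the number of primes in a block -/
lemma card_block (y ell : ℝ) (hy : 10 ^ 8 ≤ y) (hell : Real.log (4 * y) ≤ ell) (bad : ℝ)
    (MM GG BAD : Finset ℕ) (hMM : MM = PrI ⌊y⌋₊ ⌊4 * y⌋₊) (hsub : MM ⊆ GG ∪ BAD)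
    (hG : GG ⊆ MM) (hBd : BAD ⊆ MM) (hb : (BAD.card : ℝ) ≤ bad) (hb2 : 2 * (bad * ell) ≤ y) :
    y / (2 * ell) ≤ GG.card := by
  classical
  have hy0 : 0 < y := by linarith
  have hell0 : 0 < ell := lt_of_lt_of_le (Real.log_pos (by linarith)) hell
  have h1 := theta_block y hy
  have hfl : ⌊y⌋₊ ≤ ⌊4 * y⌋₊ := Nat.floor_le_floor (by linarith)
  rw [Chebyshev.theta_eq_theta_coe_floor (4 * y), Chebyshev.theta_eq_theta_coe_floor y,
    theta_sub _ _ hfl, ← hMM] at h1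
  have hle : ∀ p ∈ MM, 0 ≤ Real.log p ∧ Real.log p ≤ ell := by
    intro p hp
    rw [hMM] at hp
    unfold PrI at hp
    rw [mem_filter, mem_Ioc] at hp
    have hp0 : (0 : ℝ) < p := by exact_mod_cast hp.2.pos
    have hple : (p : ℝ) ≤ 4 * y := (Nat.le_floor_iff (by linarith)).1 hp.1.2
    exact ⟨Real.log_natCast_nonneg p, (Real.log_le_log hp0 hple).trans hell⟩
  have h2 : ∑ p ∈ MM, Real.log p ≤ ∑ p ∈ GG, Real.log p + ∑ p ∈ BAD, Real.log p := by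
    refine (sum_le_sum_of_subset_of_nonneg hsub ?_).trans ?_
    · intro p hp _
      exact Real.log_natCast_nonneg p
    · rw [← sum_union_inter]
      have : 0 ≤ ∑ p ∈ GG ∩ BAD, Real.log (p : ℝ) :=
        sum_nonneg fun p _ => Real.log_natCast_nonneg p
      linarith
  have h3 : ∑ p ∈ GG, Real.log p ≤ GG.card * ell := by
    calc _ ≤ ∑ p ∈ GG, ell := sum_le_sum fun p hp => (hle p (hG hp)).2
      _ = _ := by rw [sum_const, nsmul_eq_mul]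
  have h4 : ∑ p ∈ BAD, Real.log p ≤ bad * ell := by
    calc _ ≤ ∑ p ∈ BAD, ell := sum_le_sum fun p hp => (hle p (hBd hp)).2
      _ = BAD.card * ell := by rw [sum_const, nsmul_eq_mul]
      _ ≤ _ := by gcongr
  rw [div_le_iff₀ (by positivity)]
  linarith

end Pool.Agent.Lib.MP_2a816b_nt
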