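import Mathlib
import Pool.Agent.Lib.MP_2a816b_nt.WideD

/-!
# Wide windows: the final bound
-/

open Finset Real Filter

namespace Pool.Agent.Lib.MP_2a816b_nt

lemma wide_cop (p h0 a : ℕ) (hpp : p.Prime) (hh0 : 0 < h0) (ha : a ∈ Ioc 0 (p / (2 * h0))) :
    a ∈ Cop p := by
  rw [mem_Ioc] at ha
  unfold Cop
  rw [mem_filter, mem_range]
  have hlt : a < p := by
    have : p / (2 * h0) < p := Nat.div_lt_self hpp.pos (by omega)
    omega
  refine ⟨hlt, ?_⟩
  rw [Nat.coprime_comm, hpp.coprime_iff_not_dvd]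
  exact fun hd => absurd (Nat.le_of_dvd (by omega) hd) (by omega)

/-- the error functional for wide windows -/
lemma wide_sup (T κ X y : ℝ) (A B L h0 : ℕ) (hT : 1 ≤ T) (hTX : T ^ 3 = X) (hκ0 : 0 < κ)
    (hκ1 : κ ≤ 1) (hyT : y = T * κ ^ 2) (hTκ : 1 ≤ T * κ ^ 4) (hyA : y ≤ A + 1)
    (hB : (B : ℝ) ≤ 4 * y) (hh0 : 0 < h0) (hh : ∀ p ∈ PrI A B, 8 * h0 ≤ p) (S4 : Finset ℕ)
    (hS4 : S4.card ≤ 4) (hN : ∀ N ∈ S4, (N : ℝ) ≤ 4 * X ∧ N + 1 < 2 ^ L) :
    ∃ E : ℕ → ℝ, (∀ p ∈ PrI A B, ∀ a ∈ Ioc 0 (p / (2 * h0)), ∀ N ∈ S4,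
      ‖Sp N ((a : ℝ) / p) - gq p * ps0 N‖ ≤ E p) ∧
      ∑ p ∈ PrI A B, E p ≤ 4 * (110000 * L ^ 6 * (X * κ)) := by
  classical
  have hmax : ∀ N p : ℕ, ∃ c, p ∈ PrI A B → c ∈ Ioc 0 (p / (2 * h0)) ∧
      ∀ a ∈ Ioc 0 (p / (2 * h0)), ‖Sp N ((a : ℝ) / p) - gq p * ps0 N‖ ≤
        ‖Sp N ((c : ℝ) / p) - gq p * ps0 N‖ := by
    intro N p
    by_cases hp : p ∈ PrI A B
    · have hne : (Ioc 0 (p / (2 * h0))).Nonempty := by
        refine ⟨1, ?_⟩
        rw [mem_Ioc]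
        have := hh p hp
        refine ⟨one_pos, ?_⟩
        rw [Nat.le_div_iff_mul_le (by omega)]
        omega
      obtain ⟨c, hc, hc2⟩ := exists_max_image (Ioc 0 (p / (2 * h0)))
        (fun a => ‖Sp N ((a : ℝ) / p) - gq p * ps0 N‖) hne
      exact ⟨c, fun _ => ⟨hc, hc2⟩⟩
    · exact ⟨0, fun h => absurd h hp⟩
  choose c hc using hmax
  refine ⟨fun p => ∑ N ∈ S4, ‖Sp N ((c N p : ℝ) / p) - gq p * ps0 N‖, ?_, ?_⟩
  · intro p hp a ha N hN'
    refine ((hc N p hp).2 a ha).trans ?_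
    exact single_le_sum (f := fun N => ‖Sp N ((c N p : ℝ) / p) - gq p * ps0 N‖)
      (fun i _ => norm_nonneg _) hN'
  · rw [sum_comm]
    have h1 : ∀ N ∈ S4, ∑ p ∈ PrI A B, ‖Sp N ((c N p : ℝ) / p) - gq p * ps0 N‖ ≤
        110000 * L ^ 6 * (X * κ) := by
      intro N hN'
      exact sup_primes T κ X y A B N L hT hTX hκ0 hκ1 hyT hTκ hyA hB (hN N hN').1 (hN N hN').2
        (c N) (fun p hp => wide_cop p h0 _ (mem_filter.1 hp).2 hh0 (hc N p hp).1)
    refine (sum_le_sum h1).trans ?_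
    rw [sum_const, nsmul_eq_mul]
    have h2 : (S4.card : ℝ) ≤ 4 := by exact_mod_cast hS4
    have hX0 : 0 ≤ X := by rw [← hTX]; positivity
    gcongr

/-- the lower bound for the discrete windows -/
lemma wide_discrete (ε : ℝ) (hε : 0 < ε) (hε6 : ε ≤ 1 / 6) (X : ℝ) (hB : WBig ε X) (H : ℝ)
    (hH1 : X ^ (1 / 3 - ε / 2) ≤ H) (hH2 : H ≤ X ^ (1 - ε)) (h s M : ℕ) (h1 : H - 1 ≤ h)
    (h2 : (h : ℝ) ≤ H + 1) (h3 : (s : ℝ) ≤ X / 8 + 3) (h4 : (M : ℝ) ≤ X)
    (h5 : 7 * X / 8 ≤ M + 3) :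
    X * X ^ (1 / 3 - ε) ≤ ∑ i ∈ range M, (win h H s i) ^ 2 := by
  classical
  obtain ⟨hX1, hell4, hy8, a1, a2, a3, a4, a5, a6, a7, a8, a9, a10, a11⟩ := hB
  have hX0 : 0 < X := by linarith
  obtain ⟨hLa, hLb⟩ := L_numeric X (Real.log X) hX0 rfl hell4
  set L := ⌈2 * Real.log X⌉₊ + 3 with hL
  set ell := Real.log X with hell
  have hell0 : 0 < ell := by linarith
  set T := X ^ (1 / 3 : ℝ) with hT
  set κ := X ^ (-(5 * ε / 16)) with hκ
  set y := X ^ (1 / 3 - 5 * ε / 8) with hy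
  set η0 := X ^ (1 / 3 - 3 * ε / 4) with hη0
  set Y1 := X ^ (1 - ε) with hY1
  have hT1 : 1 ≤ T := one_le_rpow hX1 (by norm_num)
  have hT0 : 0 < T := by linarith
  have hTX : T ^ 3 = X := by
    rw [hT, ← rpow_natCast, ← rpow_mul hX0.le]; norm_num
  have hκ0 : 0 < κ := by positivity
  have hκ1 : κ ≤ 1 := rpow_le_one_of_one_le_of_nonpos hX1 (by linarith)
  have hyT : y = T * κ ^ 2 := by
    rw [hy, hT, hκ, ← rpow_natCast, ← rpow_mul hX0.le, ← rpow_add hX0]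
    congr 1; push_cast; ring
  have hTκ : 1 ≤ T * κ ^ 4 := by
    rw [hT, hκ, ← rpow_natCast, ← rpow_mul hX0.le, ← rpow_add hX0]
    apply one_le_rpow hX1
    push_cast; linarith
  have hy0 : 0 < y := by linarith
  set A := ⌊y⌋₊ with hA
  set B := ⌊4 * y⌋₊ with hBd
  have hyA : y ≤ A + 1 := (Nat.lt_floor_add_one y).le
  have hB4 : (B : ℝ) ≤ 4 * y := Nat.floor_le (by positivity)
  set h0 := ⌊η0⌋₊ with hh0
  have hη00 : 0 < η0 := by positivity
  have hh0le : (h0 : ℝ) ≤ η0 := Nat.floor_le hη00.le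
  have hh0ge : η0 / 2 ≤ h0 := by
    have : η0 < h0 + 1 := Nat.lt_floor_add_one η0
    linarith
  have hh0pos : 0 < h0 := Nat.floor_pos.2 (by linarith)
  have hh0r : (0 : ℝ) < h0 := by exact_mod_cast hh0pos
  -- sizes
  have hell2 : 1 ≤ ell ^ 2 := one_le_pow₀ (by linarith)
  have hY10 : 0 < Y1 := by positivity
  have hY1X : 10 ^ 6 * ell * Y1 ≤ X := by
    refine le_trans ?_ a5
    have : ell ≤ ell ^ 2 := le_self_pow₀ (by linarith) (by norm_num)
    gcongr
  have hY1X' : 10 ^ 6 * Y1 ≤ X := by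
    refine le_trans ?_ a5
    calc 10 ^ 6 * Y1 = 10 ^ 6 * 1 * Y1 := by ring
      _ ≤ 10 ^ 6 * ell ^ 2 * Y1 := by gcongr
  have hyY : y ≤ Y1 := rpow_le_rpow_of_exponent_le hX1 (by linarith)
  have hηY : η0 ≤ Y1 := rpow_le_rpow_of_exponent_le hX1 (by linarith)
  have hY18 : 10 ^ 8 ≤ Y1 := hy8.trans hyY
  have hHη : 16 * η0 ≤ H := a2.trans hH1
  -- primes
  have hMMge : ∀ p ∈ PrI A B, p.Prime ∧ 8 * h0 ≤ p ∧ y ≤ (p : ℝ) ∧ p ≤ B := by
    intro p hp
    unfold PrI at hp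
    rw [mem_filter, mem_Ioc] at hp
    have e1 : y ≤ p := by
      have : (A : ℝ) + 1 ≤ p := by exact_mod_cast hp.1.1
      linarith
    refine ⟨hp.2, ?_, e1, hp.1.2⟩
    have e2 : ((8 * h0 : ℕ) : ℝ) ≤ p := by push_cast; linarith
    exact_mod_cast e2
  -- the length
  have hMh0 : h0 ≤ M := by
    have : (h0 : ℝ) ≤ M := by linarith
    exact_mod_cast this
  obtain ⟨M', hM'⟩ := Nat.exists_eq_add_of_le hMh0
  have hMr : (M : ℝ) = h0 + M' := by rw [hM']; push_cast; ring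
  have hM'X : (M' : ℝ) ≤ X := by linarith
  have hM'X2 : 7 * X / 8 - X / 1000 ≤ M' := by linarith
  have hhX : (h : ℝ) ≤ 2 * Y1 := by linarith
  have hLbig : ∀ N : ℕ, (N : ℝ) ≤ 4 * X → N + 1 < 2 ^ L := by
    intro N hN
    have : (N : ℝ) + 1 < 2 ^ L := by linarith
    exact_mod_cast this
  have htot : ((s + h + h0 + M' : ℕ) : ℝ) ≤ 4 * X := by
    push_cast; linarith
  have hLg : ∀ n, n ≤ s + h + h0 + M' → Real.log n ≤ (L : ℝ) := fun n hn =>
    log_le_L (hLbig _ htot) (by omega)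
  have hS4N : ∀ N ∈ ({s + h + M', s + h, s + M', s} : Finset ℕ),
      (N : ℝ) ≤ 4 * X ∧ N + 1 < 2 ^ L := by
    intro N hN
    have hle : N ≤ s + h + h0 + M' := by
      simp only [mem_insert, mem_singleton] at hN
      omega
    have hle' : (N : ℝ) ≤ ((s + h + h0 + M' : ℕ) : ℝ) := by exact_mod_cast hle
    exact ⟨hle'.trans htot, hLbig _ (hle'.trans htot)⟩
  obtain ⟨E, hE1, hE2⟩ := wide_sup T κ X y A B L h0 hT1 hTX hκ0 hκ1 hyT hTκ hyA hB4 hh0pos
    (fun p hp => (hMMge p hp).2.1) {s + h + M', s + h, s + M', s} card_le_four hS4N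
  -- good and bad primes
  set MM := PrI A B with hMM
  set GG := MM.filter (fun p => ∀ m : ℤ, 1 / ((p / (2 * h0) : ℕ) : ℝ) ≤ |(h : ℝ) / p - m|)
    with hGG
  set BAD := MM.filter (fun p => ¬ ∀ m : ℤ, 1 / ((p / (2 * h0) : ℕ) : ℝ) ≤ |(h : ℝ) / p - m|)
    with hBAD
  have hcardbad : (BAD.card : ℝ) ≤ 8 * h0 * (4 : ℕ) := by
    have hyh : ((h + 4 * h0 : ℕ) : ℝ) ≤ y ^ (4 + 1) := by
      have e1 : y ^ (4 + 1) = X ^ (5 / 3 - 25 * ε / 8) := by
        rw [hy, ← rpow_natCast, ← rpow_mul hX0.le]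
        congr 1; push_cast; ring
      rw [e1]
      refine le_trans ?_ a3
      push_cast
      linarith
    have hh4 : 4 * h0 < h := by
      have : (4 : ℝ) * h0 < h := by linarith
      exact_mod_cast this
    have := card_bad MM h h0 4 y (by linarith) hh0pos
      (fun p hp => ⟨(hMMge p hp).1, (hMMge p hp).2.1, (hMMge p hp).2.2.1⟩) hh4 hyh
    convert this using 2
  have hlog4y : Real.log (4 * y) ≤ ell := Real.log_le_log (by positivity) (by linarith)
  have hGcard : y / (2 * ell) ≤ GG.card := by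
    apply card_block y ell hy8 hlog4y (8 * h0 * (4 : ℕ)) MM GG BAD rfl
    · intro p hp
      rw [mem_union, hGG, hBAD, mem_filter, mem_filter]
      by_cases hc : ∀ m : ℤ, 1 / ((p / (2 * h0) : ℕ) : ℝ) ≤ |(h : ℝ) / p - m|
      · exact Or.inl ⟨hp, hc⟩
      · exact Or.inr ⟨hp, hc⟩
    · exact filter_subset _ _
    · exact filter_subset _ _
    · exact hcardbad
    · refine le_trans ?_ a4
      push_cast
      calc 2 * (8 * (h0 : ℝ) * 4 * ell) = 64 * ell * h0 := by ring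
        _ ≤ 64 * ell * η0 := by gcongr
  -- the number of primes
  set P := ps0 (s + M') - ps0 s with hP
  have hPX : X / 2 ≤ P := by
    have e1 := psi_lower (s + M')
    have e2 : ps0 (s + M') = ∑ n ∈ Ioc 0 (s + M'), vM n := rfl
    rw [← e2] at e1
    have e3 : ps0 s ≤ 1.3864 * s + X / 1000 := by
      rcases Nat.eq_zero_or_pos s with h0' | h0'
      · have : ps0 s = 0 := by rw [h0']; unfold ps0; simp
        rw [this]; positivity
      have hs1 : (1 : ℝ) ≤ s := by exact_mod_cast h0'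
      have f1 := Chebyshev.psi_le hs1
      have f2 : Chebyshev.psi (s : ℝ) = ps0 s := by
        unfold Chebyshev.psi ps0
        rw [Nat.floor_natCast]
        rfl
      rw [f2] at f1
      have f3 : Real.log 4 ≤ 1.3864 := by
        have g1 : Real.log 4 = 2 * Real.log 2 := by
          rw [show (4 : ℝ) = 2 ^ 2 by norm_num, Real.log_pow]; norm_num
        have := Real.log_two_lt_d9
        rw [g1]; linarith
      have f4 : Real.log s ≤ ell := Real.log_le_log (by linarith) (by linarith)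
      have f5 : √(s : ℝ) ≤ Y1 := by
        calc √(s : ℝ) ≤ √X := sqrt_le_sqrt (by linarith)
          _ = X ^ (1 / 2 : ℝ) := sqrt_eq_rpow X
          _ ≤ Y1 := rpow_le_rpow_of_exponent_le hX1 (by linarith)
      have f6 : 2 * √(s : ℝ) * Real.log s ≤ 2 * Y1 * ell := by
        have : 0 ≤ Real.log (s : ℝ) := Real.log_natCast_nonneg s
        gcongr
      have f7 : Real.log 4 * s ≤ 1.3864 * s := by gcongr
      have f8 : 2 * Y1 * ell ≤ X / 1000 := by linarith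
      linarith
    have e4 : Real.log (((s + M' : ℕ) : ℝ) + 1) ≤ L := by
      have := log_le_L (N := s + h + h0 + M') (L := L) (n := s + M' + 1) (hLbig _ htot) (by omega)
      push_cast at this ⊢
      exact this
    have e5 : (0.69 : ℝ) ≤ Real.log 2 := by
      have := Real.log_two_gt_d9
      linarith
    have e6 : ((s + M' : ℕ) : ℝ) * 0.69 ≤ ((s + M' : ℕ) : ℝ) * Real.log 2 := by gcongr
    have e7 : ((s + M' : ℕ) : ℝ) = (s : ℝ) + M' := by push_cast; ring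
    have e9 : (L : ℝ) ≤ X / 1000 := by
      have : 3 * ell * 1 ≤ 3 * ell * Y1 := by gcongr; linarith
      linarith
    rw [hP]
    rw [e7] at e1 e6 e4
    clear_value ell T κ y η0 Y1
    linarith
  have hc0 : (MM.card : ℝ) ≤ 4 * y := by
    have := (mods_primes A B y hyA).card_le
    exact this.trans hB4
  have hB0 : (0 : ℝ) ≤ B := by positivity
  -- the error
  have herr := wide_err_numeric X ell L y κ η0 h0 h B MM.card GG.card P (∑ p ∈ MM, E p) Y1 hX0 hell4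
    (by positivity) hLa hy0 hκ0 hh0r.le hh0le (by positivity) hhX hB0 hB4 (by positivity) hc0
    hGcard hPX hE2 a5 (by
      have : y * η0 = X ^ (2 / 3 - 11 * ε / 8) := by
        rw [hy, hη0, ← rpow_add hX0]; congr 1; ring
      rw [this]; exact a6) (by
      have e1 : X ^ (1 - 5 * ε / 16) = X * κ := by
        rw [hκ]
        nth_rewrite 2 [← rpow_one X]
        rw [← rpow_add hX0]; congr 1
      rw [e1] at a7
      have e2 : X * (10 ^ 13 * ell ^ 7 * κ) ≤ X * 1 := by linarith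
      exact le_of_mul_le_mul_left e2 hX0)
  have hmain := wide_main MM GG B h h0 s M M' H L E (filter_subset _ _) hh0pos
    (by omega) (fun p hp => ⟨(hMMge p hp).1, (hMMge p hp).2.1, (hMMge p hp).2.2.2⟩)
    (fun p hp => (mem_filter.1 hp).2) hLg (by positivity) hE1 (by
      have e1 : ∑ p ∈ MM, (4 * (B : ℝ) * (h0 * L) + 4 * B * E p + 2 * (h * L)) =
          MM.card * (4 * B * (h0 * L) + 2 * (h * L)) + 4 * B * ∑ p ∈ MM, E p := by
        rw [mul_sum]
        have : ∀ p ∈ MM, 4 * (B : ℝ) * (h0 * L) + 4 * B * E p + 2 * (h * L) =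
            (4 * B * (h0 * L) + 2 * (h * L)) + 4 * B * E p := fun p _ => by ring
        rw [sum_congr rfl this, sum_add_distrib, sum_const, nsmul_eq_mul]
      rw [e1]; exact herr)
  refine wide_end_numeric X ell y h0 B MM.card GG.card P M' _ (X ^ (1 / 3 - ε)) hX0 hell4 hy0 hh0r
    hB0 hB4 (by positivity) hc0 hGcard hPX (by positivity) hM'X ?_
    (sum_nonneg fun i _ => sq_nonneg _) hmain ?_
  · have e1 : y ^ 2 = X ^ (2 / 3 - 5 * ε / 4) := by
      rw [hy, ← rpow_natCast, ← rpow_mul hX0.le]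
      congr 1; push_cast; ring
    rw [e1]
    have : 0 ≤ X ^ (2 / 3 - 5 * ε / 4) := by positivity
    linarith
  · linarith

/-- A lower bound for all discrete windows gives a lower bound for the integral over `[X/8, X]`. -/
theorem integral_of_discrete (X H C : ℝ) (hH1 : 1 ≤ H) (hbig : 16 * (H + 1) ≤ X)
    (hpt : ∀ h s M : ℕ, H - 1 ≤ h → (h : ℝ) ≤ H + 1 → (s : ℝ) ≤ X / 8 + 3 → (M : ℝ) ≤ X →
      7 * X / 8 ≤ M + 3 → C ≤ ∑ i ∈ range M, (win h H s i) ^ 2) :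
    C ≤ ∫ x in (X / 8)..X, |psiWindow x H - H| ^ 2 := by
  have hX1 : 32 ≤ X := by linarith
  have hX0 : 0 < X := by linarith
  set K : ℕ := ⌈X / 8⌉₊ + 1 with hK
  have hK1 : H + 1 ≤ K := by
    rw [hK]; push_cast
    have := Nat.le_ceil (X / 8)
    linarith
  have hK2 : (K : ℝ) < X / 8 + 2 := by
    rw [hK]; push_cast
    have := Nat.ceil_lt_add_one (show 0 ≤ X / 8 by linarith)
    linarith
  have hK3 : X / 8 ≤ K := by
    rw [hK]; push_cast
    have := Nat.le_ceil (X / 8)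
    linarith
  have hfl : X < (⌊X⌋₊ : ℝ) + 1 := Nat.lt_floor_add_one X
  have hfl2 : (⌊X⌋₊ : ℝ) ≤ X := Nat.floor_le hX0.le
  have hKX : K ≤ ⌊X⌋₊ := by
    have : (K : ℝ) < (⌊X⌋₊ : ℝ) + 1 := by linarith
    have : K < ⌊X⌋₊ + 1 := by exact_mod_cast this
    omega
  obtain ⟨M, hM⟩ := Nat.exists_eq_add_of_le hKX
  have hMr : (⌊X⌋₊ : ℝ) = K + M := by rw [hM]; push_cast; ring
  have hM0 : (0 : ℝ) ≤ M := by positivity
  set F : ℝ → ℝ := fun x => (psiWindow x H - H) ^ 2 with hF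
  have hint : ∀ a b : ℝ, 0 ≤ a → a ≤ b → b ≤ X → IntervalIntegrable F MeasureTheory.volume a b :=
    fun a b ha hab hb => sq_integrable X H a b (by linarith) ha hab hb
  have hpt' : ∀ t ∈ Set.Icc (0 : ℝ) 1, C ≤ ∑ i ∈ range M, F (K + i + t) := by
    intro t ht
    obtain ⟨h, s, h1, h2, h0, h3, h4⟩ := psiWindow_eq_sharp H t hH1 ht.1 ht.2 K hK1
    have h5 : ∑ i ∈ range M, F (K + i + t) = ∑ i ∈ range M, (win h H s i) ^ 2 := by
      apply sum_congr rfl; intro i _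
      simp only [hF]
      rw [h4 i]
    rw [h5]
    exact hpt h s M h1 h2 (by linarith) (by linarith) (by linarith)
  have hstep : ∀ i ∈ range M, ∫ t in (0 : ℝ)..1, F (K + i + t) =
      ∫ x in ((K + i : ℕ) : ℝ)..((K + (i + 1) : ℕ) : ℝ), F x := by
    intro i _
    rw [intervalIntegral.integral_comp_add_left (fun x => F x) ((K : ℝ) + i)]
    congr 1 <;> push_cast <;> ring
  have hint01 : ∀ i ∈ range M,
      IntervalIntegrable (fun t => F (K + i + t)) MeasureTheory.volume 0 1 := by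
    intro i hi
    rw [mem_range] at hi
    have h1 : IntervalIntegrable F MeasureTheory.volume ((K : ℝ) + i + 0) ((K : ℝ) + i + 1) := by
      apply hint
      · positivity
      · linarith
      · have : (i : ℝ) + 1 ≤ M := by exact_mod_cast hi
        linarith
    have h2 := h1.comp_add_left ((K : ℝ) + i)
    have e1 : (K : ℝ) + i + 0 - (K + i) = 0 := by ring
    have e2 : (K : ℝ) + i + 1 - (K + i) = 1 := by ring
    rw [e1, e2] at h2
    exact h2
  have h1 : C ≤ ∑ i ∈ range M, ∫ t in (0 : ℝ)..1, F (K + i + t) := by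
    rw [← intervalIntegral.integral_finsetSum hint01]
    calc C = ∫ t in (0 : ℝ)..1, C := by simp
      _ ≤ _ := by
        apply intervalIntegral.integral_mono_on (by norm_num)
        · exact intervalIntegrable_const
        · have e : (fun u => ∑ i ∈ range M, F (K + i + u)) =
              ∑ i ∈ range M, fun t => F (K + i + t) := by
            ext u; rw [Finset.sum_apply]
          rw [e]
          exact IntervalIntegrable.sum _ hint01
        · intro t ht; exact hpt' t ht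
  rw [sum_congr rfl hstep] at h1
  have h2 : ∑ i ∈ range M, ∫ x in ((K + i : ℕ) : ℝ)..((K + (i + 1) : ℕ) : ℝ), F x =
      ∫ x in ((K + 0 : ℕ) : ℝ)..((K + M : ℕ) : ℝ), F x := by
    apply intervalIntegral.sum_integral_adjacent_intervals (a := fun i => ((K + i : ℕ) : ℝ))
    intro i hi
    apply hint
    · positivity
    · push_cast; linarith
    · have : (i : ℝ) + 1 ≤ M := by exact_mod_cast hi
      push_cast; linarith
  rw [h2] at h1
  have hKM : ((K + M : ℕ) : ℝ) ≤ X := by push_cast; linarith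
  have hK0 : X / 8 ≤ ((K + 0 : ℕ) : ℝ) := by
    push_cast; linarith
  have hKM2 : ((K + 0 : ℕ) : ℝ) ≤ ((K + M : ℕ) : ℝ) := by
    push_cast
    linarith
  have hFnn : ∀ x, 0 ≤ F x := fun x => sq_nonneg _
  have h3 : ∫ x in ((K + 0 : ℕ) : ℝ)..((K + M : ℕ) : ℝ), F x ≤ ∫ x in (X / 8)..X, F x := by
    apply intervalIntegral.integral_mono_interval hK0 hKM2 hKM
    · exact Filter.Eventually.of_forall hFnn
    · exact hint (X / 8) X (by linarith) (by linarith) le_rfl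
  have h4 : ∫ x in (X / 8)..X, |psiWindow x H - H| ^ 2 = ∫ x in (X / 8)..X, F x := by
    simp only [hF, sq_abs]
  rw [h4]
  exact h1.trans h3

/-- A power lower bound for the variance in wide windows. -/
theorem wide_big (ε : ℝ) (hε : 0 < ε) (hε6 : ε ≤ 1 / 6) (X : ℝ) (hB : WBig ε X) (H : ℝ)
    (hH1 : X ^ (1 / 3 - ε / 2) ≤ H) (hH2 : H ≤ X ^ (1 - ε)) :
    X ^ (1 / 3 - ε) ≤ (1 / X) * ∫ x in (X / 8)..X, |psiWindow x H - H| ^ 2 := by
  have hX0 : 0 < X := by linarith [hB.one]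
  have hH0 : 1 ≤ H := (one_le_rpow hB.one (by linarith)).trans hH1
  have hY := hB.a5
  have hell2 : 1 ≤ Real.log X ^ 2 := one_le_pow₀ (by linarith [hB.four])
  have hY0 : 0 < X ^ (1 - ε) := by positivity
  have hbig : 16 * (H + 1) ≤ X := by
    have h1 : 10 ^ 6 * 1 * X ^ (1 - ε) ≤ 10 ^ 6 * Real.log X ^ 2 * X ^ (1 - ε) := by gcongr
    linarith
  have h := integral_of_discrete X H (X * X ^ (1 / 3 - ε)) hH0 hbig
    (fun h s M h1 h2 h3 h4 h5 =>
      wide_discrete ε hε hε6 X hB H hH1 hH2 h s M h1 h2 h3 h4 h5)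
  calc X ^ (1 / 3 - ε) = (1 / X) * (X * X ^ (1 / 3 - ε)) := by field_simp
    _ ≤ _ := by gcongr

/-- Power lower bound for all `X^(1/3) ≤ H ≤ X^(1-ε)`. -/
theorem wide_final (ε : ℝ) (hε : 0 < ε) :
    ∃ X0 : ℝ, ∀ X : ℝ, X0 ≤ X → ∀ H : ℝ, X ^ (1 / 3 : ℝ) ≤ H → H ≤ X ^ (1 - ε) →
      X ^ (1 / 3 - ε) ≤ (1 / X) * ∫ x in (X / 8)..X, |psiWindow x H - H| ^ 2 := by
  set δ : ℝ := min ε (1 / 6) with hδ
  have hδ0 : 0 < δ := lt_min hε (by norm_num)
  have hδ6 : δ ≤ 1 / 6 := min_le_right _ _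
  have hδε : δ ≤ ε := min_le_left _ _
  obtain ⟨X1, hX1⟩ := eventually_wbig δ hδ0 hδ6
  refine ⟨X1, ?_⟩
  intro X hX H hH1 hH2
  have hB := hX1 X hX
  have hle1 : X ^ (1 / 3 - ε) ≤ X ^ (1 / 3 - δ) :=
    rpow_le_rpow_of_exponent_le hB.one (by linarith)
  have hle2 : H ≤ X ^ (1 - δ) :=
    hH2.trans (rpow_le_rpow_of_exponent_le hB.one (by linarith))
  have hle3 : X ^ (1 / 3 - δ / 2) ≤ H :=
    (rpow_le_rpow_of_exponent_le hB.one (by linarith)).trans hH1
  exact hle1.trans (wide_big δ hδ0 hδ6 X hB H hle3 hle2)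

end Pool.Agent.Lib.MP_2a816b_nt
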